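import Pool.Agent.Lib.MP_f23696_ag.M.Ctx

/-! # Bubble induction on integer vectors -/

set_option autoImplicit false

open scoped Classical

namespace Pool.Agent.MLD.Mon

noncomputable section

universe u v w

variable {N m : ℕ} {B : Blk N m}

section BUB

variable {ι : Type v} {Q : Finset ι} {x : ι → Fin N → ℤ}

/-- a vector is dominant if it decreases between neighbours in the blocks -/
theorem bub_dom {μ : Fin N → ℤ}
    (h : ∀ p q : Fin N, (p : ℕ) + 1 = q → B.b p = B.b q → μ q ≤ μ p) : B.Dom μ := by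
  have key : ∀ d : ℕ, ∀ p q : Fin N, (p : ℕ) + d = q → B.b p = B.b q → μ q ≤ μ p := by
    intro d
    induction d with
    | zero =>
      intro p q hpq _
      have : p = q := Fin.ext (by omega)
      rw [this]
    | succ d ih =>
      intro p q hpq hb
      have hlt : (p : ℕ) + d < N := by have := q.2; omega
      have h1 : B.b p ≤ B.b ⟨(p : ℕ) + d, hlt⟩ := B.mono (Fin.le_def.2 (by simp))
      have h2 : B.b ⟨(p : ℕ) + d, hlt⟩ ≤ B.b q := B.mono (Fin.le_def.2 (by simp; omega))
      have h3 : B.b p = B.b ⟨(p : ℕ) + d, hlt⟩ := le_antisymm h1 (hb ▸ h2)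
      exact (h ⟨(p : ℕ) + d, hlt⟩ q (by simp; omega) (h3 ▸ hb)).trans (ih p _ rfl h3)
  intro p q hpq hb
  exact key ((q : ℕ) - p) p q (by have := Fin.le_def.1 hpq; omega) hb

/-- a vector as the vector with two entries exchanged plus a multiple of a root -/
theorem bub_swap (μ : Fin N → ℤ) {p q : Fin N} (hpq : p ≠ q) :
    μ = μ ∘ Equiv.swap p q + (μ q - μ p) • (Pi.single q (1 : ℤ) - Pi.single p (1 : ℤ)) := by
  funext i
  simp only [Pi.add_apply, Function.comp_apply, Pi.smul_apply, Pi.sub_apply, smul_eq_mul]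
  by_cases h1 : i = p
  · subst h1
    rw [Equiv.swap_apply_left, Pi.single_eq_same, Pi.single_eq_of_ne hpq]
    ring
  · by_cases h2 : i = q
    · subst h2
      rw [Equiv.swap_apply_right, Pi.single_eq_same, Pi.single_eq_of_ne (Ne.symm hpq)]
      ring
    · rw [Equiv.swap_apply_of_ne_of_ne h1 h2, Pi.single_eq_of_ne h1, Pi.single_eq_of_ne h2]
      ring

/-- bubble induction -/
theorem bubble (S R : (Fin N → ℤ) → Prop)
    (hS : ∀ μ (p q : Fin N), B.b p = B.b q → S μ → S (μ ∘ Equiv.swap p q))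
    (hd : ∀ μ, S μ → B.Dom μ → R μ)
    (hs : ∀ μ (p q : Fin N), (p : ℕ) + 1 = q → B.b p = B.b q → μ p < μ q → S μ →
      R (μ ∘ Equiv.swap p q) → R μ) (μ : Fin N → ℤ) (hμ : S μ) : R μ := by
  -- lower bound of the entries
  obtain ⟨c, hc⟩ : ∃ c : ℤ, ∀ i, c ≤ μ i := by
    refine ⟨-∑ i, |μ i|, fun i => ?_⟩
    have h1 : |μ i| ≤ ∑ i, |μ i| :=
      Finset.single_le_sum (f := fun i => |μ i|) (fun i _ => abs_nonneg _) (Finset.mem_univ i)
    have h2 := neg_abs_le (μ i)
    linarith
  have key : ∀ n : ℕ, ∀ μ : Fin N → ℤ, (∀ i, c ≤ μ i) → S μ →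
      (∑ i : Fin N, (i : ℤ) * (μ i - c)).toNat < n → R μ := by
    intro n
    induction n with
    | zero => intro μ _ _ h; omega
    | succ n ih =>
      intro μ hc hμ hn
      by_cases hD : B.Dom μ
      · exact hd μ hμ hD
      · have hex : ∃ p q : Fin N, (p : ℕ) + 1 = q ∧ B.b p = B.b q ∧ μ p < μ q := by
          by_contra hno
          push Not at hno
          exact hD (bub_dom hno)
        obtain ⟨p, q, hpq, hb, hlt⟩ := hex
        have hne : p ≠ q := fun h => by rw [h] at hpq; omega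
        refine hs μ p q hpq hb hlt hμ (ih _ (fun i => hc _) (hS μ p q hb hμ) ?_)
        have hsum : ∑ i : Fin N, (i : ℤ) *
            (Pi.single q (1 : ℤ) - Pi.single p (1 : ℤ) : Fin N → ℤ) i = 1 := by
          simp only [Pi.sub_apply, mul_sub, Finset.sum_sub_distrib, Pi.single_apply, mul_ite,
            mul_one, mul_zero, Finset.sum_ite_eq', Finset.mem_univ, if_true]
          have : ((q : ℕ) : ℤ) = (p : ℕ) + 1 := by exact_mod_cast hpq.symm
          rw [this]
          ring
        have h1 : ∑ i : Fin N, (i : ℤ) * (μ i - c) =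
            ∑ i : Fin N, (i : ℤ) * ((μ ∘ Equiv.swap p q) i - c) + (μ q - μ p) := by
          have h3 := bub_swap μ hne
          set μ' := μ ∘ Equiv.swap p q with hμ'
          set δ : Fin N → ℤ := Pi.single q (1 : ℤ) - Pi.single p (1 : ℤ) with hδ
          set e := μ q - μ p with he
          have h4 : ∀ i : Fin N, ((i : ℕ) : ℤ) * (μ i - c) = (i : ℤ) * (μ' i - c) + e * ((i : ℤ) * δ i) := by
            intro i
            have h5 := congrFun h3 i
            simp only [Pi.add_apply, Pi.smul_apply, smul_eq_mul] at h5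
            rw [h5]
            ring
          rw [Finset.sum_congr rfl fun i _ => h4 i, Finset.sum_add_distrib, ← Finset.mul_sum, hsum,
            mul_one]
        have h0 : 0 ≤ ∑ i : Fin N, (i : ℤ) * ((μ ∘ Equiv.swap p q) i - c) :=
          Finset.sum_nonneg fun i _ => mul_nonneg (by positivity) (sub_nonneg.2 (hc _))
        omega
  exact key _ μ hc hμ (Nat.lt_succ_self _)

/-- the set `SX` is stable under the permutations in the blocks -/
theorem bub_SX {μ : Fin N → ℤ} {p q : Fin N} (hb : B.b p = B.b q) (hμ : μ ∈ SX B Q x) :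
    μ ∘ Equiv.swap p q ∈ SX B Q x := by
  intro w hw j hj
  have h := hμ (Equiv.swap p q * w) (fun i => ?_) j hj
  · exact h
  · rw [Equiv.Perm.mul_apply]
    by_cases h1 : w i = p
    · rw [h1, Equiv.swap_apply_left, ← hb, ← h1, hw]
    · by_cases h2 : w i = q
      · rw [h2, Equiv.swap_apply_right, hb, ← h2, hw]
      · rw [Equiv.swap_apply_of_ne_of_ne h1 h2, hw]

theorem bub_gam {μ : Fin N → ℤ} (hμ : μ ∈ SX B Q x) (hD : B.Dom μ) : μ ∈ GamX B Q x :=
  ⟨hD, fun q hq => by simpa using hμ 1 (fun _ => rfl) q hq⟩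

theorem bub_nsmul {O : Ord B} {ν : Fin N → ℤ} (hν : ν ∈ O.P) {c : ℤ} (hc : 0 ≤ c) :
    c • ν ∈ O.P := by
  obtain ⟨n, rfl⟩ := Int.eq_ofNat_of_zero_le hc
  rw [Nat.cast_smul_eq_nsmul]
  exact O.P.nsmul_mem hν n

theorem sx_sub (O : Ord B) (hG : GamX B Q x ⊆ O.P) : SX B Q x ⊆ O.P := by
  intro μ hμ
  refine bubble (B := B) (fun μ => μ ∈ SX B Q x) (fun μ => μ ∈ O.P)
    (fun μ p q hb h => bub_SX hb h) (fun μ h hD => hG (bub_gam h hD)) ?_ μ hμ
  intro μ p q hpq hb hlt _ h
  have hne : p ≠ q := fun h => by rw [h] at hpq; omega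
  show μ ∈ O.P
  rw [bub_swap μ hne]
  exact O.P.add_mem h (bub_nsmul (O.cham p q (Fin.le_def.2 (by omega)) hb) (by omega))

theorem flat_closure {Z : Set (Fin N → ℤ)} {p q : Fin N} (h : Flat B Z p q) {μ : Fin N → ℤ}
    (hμ : μ ∈ AddSubgroup.closure Z) : μ p = μ q := by
  induction hμ using AddSubgroup.closure_induction with
  | mem ν hν => exact h.2 ν hν
  | zero => rfl
  | add a b _ _ ha hb => simp only [Pi.add_apply, ha, hb]
  | neg a _ ha => simp only [Pi.neg_apply, ha]

theorem sx_zero (hx : ∀ q ∈ Q, B.Inc (x q)) (O : Ord B) (hG : GamX B Q x ⊆ O.P) {μ : Fin N → ℤ}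
    (hμ : μ ∈ SX B Q x) (h0 : μ ∈ O.zero) :
    μ ∈ AddSubgroup.closure {ν | ν ∈ GamX B Q x ∧ ν ∈ O.zero} := by
  refine bubble (B := B) (fun μ => μ ∈ SX B Q x)
    (fun μ => μ ∈ O.zero → μ ∈ AddSubgroup.closure {ν | ν ∈ GamX B Q x ∧ ν ∈ O.zero})
    (fun μ p q hb h => bub_SX hb h) (fun μ h hD h0 => AddSubgroup.subset_closure
      ⟨bub_gam h hD, h0⟩) ?_ μ hμ h0
  clear hμ h0 μ
  intro μ p q hpq hb hlt hμ ih h0
  have hne : p ≠ q := fun h => by rw [h] at hpq; omega
  have hle : p ≤ q := Fin.le_def.2 (by omega)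
  have hsw := bub_swap μ hne
  set μ' := μ ∘ Equiv.swap p q with hμ'
  set δ : Fin N → ℤ := Pi.single q (1 : ℤ) - Pi.single p (1 : ℤ) with hδ
  set c := μ q - μ p with hc
  have hc0 : 0 < c := by omega
  have hδP : δ ∈ O.P := O.cham p q hle hb
  have hcδ : c • δ ∈ O.P := bub_nsmul hδP hc0.le
  have hμ'P : μ' ∈ O.P := sx_sub O hG (bub_SX hb hμ)
  -- `μ'`, `c δ` and `δ` are equivalent to zero
  have hμ'0 : μ' ∈ O.zero := by
    refine ⟨hμ'P, ?_⟩
    have h1 : -μ' = -μ + c • δ := by
      rw [hsw]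
      abel
    rw [h1]
    exact O.P.add_mem h0.2 hcδ
  have hcδ0 : c • δ ∈ O.zero := by
    have h1 : c • δ = μ - μ' := by
      rw [eq_sub_iff_add_eq', ← hsw]
    rw [h1]
    exact O.zero.sub_mem h0 hμ'0
  have hδ0 : δ ∈ O.zero := by
    refine ⟨hδP, ?_⟩
    have h1 : -δ = -(c • δ) + (c - 1) • δ := by
      rw [sub_smul c 1 δ, one_smul]
      abel
    rw [h1]
    exact O.P.add_mem hcδ0.2 (bub_nsmul hδP (by omega))
  have hμ'c := ih hμ'0
  -- an element of `Z` with different entries at `p` and `q`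
  obtain ⟨ν, ⟨hν, hν0⟩, hνne⟩ : ∃ ν ∈ {ν | ν ∈ GamX B Q x ∧ ν ∈ O.zero}, ν p ≠ ν q := by
    by_contra hno
    push Not at hno
    have h1 : μ' p = μ' q := flat_closure (B := B) ⟨hb, fun ν hν => hno ν hν⟩ hμ'c
    rw [hμ'] at h1
    simp only [Function.comp_apply, Equiv.swap_apply_left, Equiv.swap_apply_right] at h1
    omega
  have hνlt : ν q < ν p := lt_of_le_of_ne (hν.1 p q hle hb) (Ne.symm hνne)
  have hδp : ∀ i, δ i = if i = q then 1 else if i = p then -1 else 0 := by
    intro i
    simp only [hδ, Pi.sub_apply, Pi.single_apply]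
    by_cases h1 : i = q
    · subst h1
      rw [if_pos rfl, if_pos rfl, if_neg (Ne.symm hne)]
      rfl
    · by_cases h2 : i = p
      · rw [if_neg h1, if_neg h1, if_pos h2, if_pos h2]
        rfl
      · rw [if_neg h1, if_neg h1, if_neg h2, if_neg h2]
        rfl
  -- `2 ν + δ` is in `Z`
  have hZ : (2 : ℤ) • ν + δ ∈ {ν | ν ∈ GamX B Q x ∧ ν ∈ O.zero} := by
    refine ⟨⟨?_, ?_⟩, O.zero.add_mem (O.zero.zsmul_mem hν0 2) hδ0⟩
    · intro a b hab hbb
      simp only [Pi.add_apply, Pi.smul_apply, smul_eq_mul, hδp]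
      have h1 := hν.1 a b hab hbb
      have hab' := Fin.le_def.1 hab
      by_cases hb1 : b = q
      · rw [if_pos hb1]
        by_cases ha1 : a = q
        · rw [if_pos ha1, ha1, hb1]
        · rw [if_neg ha1]
          by_cases ha2 : a = p
          · rw [if_pos ha2, ha2, hb1]
            omega
          · rw [if_neg ha2]
            have h3 : (a : ℕ) ≠ q := fun h => ha1 (Fin.ext h)
            have h4 : (a : ℕ) ≠ p := fun h => ha2 (Fin.ext h)
            have h5 : a ≤ p := Fin.le_def.2 (by rw [hb1] at hab'; omega)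
            have h6 := hν.1 a p h5 (by rw [hbb, hb1, hb])
            rw [hb1]
            omega
      · rw [if_neg hb1]
        by_cases hb2 : b = p
        · rw [if_pos hb2]
          by_cases ha1 : a = q
          · rw [if_pos ha1]
            omega
          · rw [if_neg ha1]
            by_cases ha2 : a = p
            · rw [if_pos ha2]
              omega
            · rw [if_neg ha2]
              omega
        · rw [if_neg hb2]
          by_cases ha1 : a = q
          · rw [if_pos ha1]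
            omega
          · rw [if_neg ha1]
            by_cases ha2 : a = p
            · rw [if_pos ha2]
              have h3 : (b : ℕ) ≠ q := fun h => hb1 (Fin.ext h)
              have h4 : (b : ℕ) ≠ p := fun h => hb2 (Fin.ext h)
              have h5 : q ≤ b := Fin.le_def.2 (by rw [ha2] at hab'; omega)
              have h6 := hν.1 q b h5 (by rw [← hb, ← ha2, hbb])
              rw [ha2]
              omega
            · rw [if_neg ha2]
              omega
    · intro j hj
      rw [dotProduct_add, dotProduct_smul, smul_eq_mul]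
      have h1 := hν.2 j hj
      have h2 : x j ⬝ᵥ δ = x j q - x j p := by
        rw [hδ, dotProduct_sub, dotProduct_single, dotProduct_single, mul_one, mul_one]
      have h3 := hx j hj p q hle hb
      rw [h2]
      linarith
  have hδc : δ ∈ AddSubgroup.closure {ν | ν ∈ GamX B Q x ∧ ν ∈ O.zero} := by
    have h1 : δ = ((2 : ℤ) • ν + δ) - (2 : ℤ) • ν := by abel
    rw [h1]
    exact AddSubgroup.sub_mem _ (AddSubgroup.subset_closure hZ)
      (AddSubgroup.zsmul_mem _ (AddSubgroup.subset_closure (show ν ∈ {ν | ν ∈ GamX B Q x ∧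
        ν ∈ O.zero} from ⟨hν, hν0⟩)) 2)
  rw [hsw]
  exact AddSubgroup.add_mem _ hμ'c (AddSubgroup.zsmul_mem _ hδc c)

end BUB

end

end Pool.Agent.MLD.Mon
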