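import Pool.Agent.Lib.MP_f23696_ag.M.Lin

set_option autoImplicit false

/-!
# Translations (module TRA of project MON)
-/

open scoped Classical

namespace Pool.Agent.MLD.Mon

open MvPolynomial
open Pool.Agent.MLD.Ten (IsGood)

noncomputable section

universe u v w

variable {N m : ℕ} {B : Blk N m} {k : Type u} {K : Type v} [Field k] [Field K] [Algebra k K]

namespace Tra

section

variable {R : Type w} [CommRing R] [Algebra k R]

theorem isBl_map {a : Matrix (Fin N) (Fin N) k} (ha : B.IsBl a) :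
    B.IsBl (a.map (algebraMap k R)) := fun p q h => by
  rw [Matrix.map_apply, ha p q h, map_zero]

theorem isBl_tr {a c : Matrix (Fin N) (Fin N) k} (ha : B.IsBl a) (hc : B.IsBl c)
    {M : Matrix (Fin N) (Fin N) R} (hM : B.IsBl M) :
    B.IsBl (a.map (algebraMap k R) * M * c.map (algebraMap k R)) :=
  isBl_mul B (isBl_mul B (isBl_map ha) hM) (isBl_map hc)

theorem map_hom {S : Type*} [CommRing S] [Algebra k S] (φ : R →ₐ[k] S)
    (a : Matrix (Fin N) (Fin N) k) :
    (a.map (algebraMap k R)).map φ = a.map (algebraMap k S) := by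
  ext p q
  simp only [Matrix.map_apply, AlgHom.commutes]

theorem mat_hom {S : Type*} [CommRing S] [Algebra k S] (φ : R →ₐ[k] S) (y : Fin (m + 1) → R) :
    (B.mat y).map φ = B.mat (fun i => φ (y i)) := by
  ext p q
  simp only [Blk.mat, Matrix.map_apply]
  split_ifs
  · rfl
  · rw [map_zero]

theorem tr_hom {S : Type*} [CommRing S] [Algebra k S] (φ : R →ₐ[k] S)
    (a c : Matrix (Fin N) (Fin N) k) (y : Fin (m + 1) → R) :
    (a.map (algebraMap k R) * B.mat y * c.map (algebraMap k R)).map φ =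
      a.map (algebraMap k S) * B.mat (fun i => φ (y i)) * c.map (algebraMap k S) := by
  rw [Matrix.map_mul, Matrix.map_mul, map_hom, map_hom, mat_hom]

/-- value of a translated polynomial -/
theorem aeval_trP (a c : Matrix (Fin N) (Fin N) k) (y : Fin (m + 1) → R)
    (P : MvPolynomial (Fin (m + 1)) k) :
    aeval y (B.trP a c P) =
      aeval (B.vec (a.map (algebraMap k R) * B.mat y * c.map (algebraMap k R))) P := by
  have h : (aeval y : MvPolynomial (Fin (m + 1)) k →ₐ[k] R).comp (B.trP a c) =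
      aeval (B.vec (a.map (algebraMap k R) * B.mat y * c.map (algebraMap k R))) := by
    refine MvPolynomial.algHom_ext fun i => ?_
    rw [AlgHom.comp_apply, aeval_X, Blk.trP, aeval_X]
    have h1 := tr_hom (B := B) (aeval y : MvPolynomial (Fin (m + 1)) k →ₐ[k] R) a c
      (X : Fin (m + 1) → MvPolynomial (Fin (m + 1)) k)
    simp only [aeval_X] at h1
    rw [← h1]
    rfl
  exact DFunLike.congr_fun h P

end

theorem isBl_inv_mul {a : Matrix (Fin N) (Fin N) k} (ha : B.IsG a) : a⁻¹ * a = 1 :=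
  Matrix.nonsing_inv_mul a (isUnit_iff_ne_zero.2 ha.2)

theorem isBl_mul_inv {a : Matrix (Fin N) (Fin N) k} (ha : B.IsG a) : a * a⁻¹ = 1 :=
  Matrix.mul_nonsing_inv a (isUnit_iff_ne_zero.2 ha.2)

/-- the image of a constant matrix in the matrices over `K` -/
abbrev al (K : Type v) [Field K] [Algebra k K] (a : Matrix (Fin N) (Fin N) k) :
    Matrix (Fin N) (Fin N) K := a.map (algebraMap k K)

theorem al_mul (a c : Matrix (Fin N) (Fin N) k) : al K (a * c) = al K a * al K c :=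
  Matrix.map_mul

theorem al_one : al K (1 : Matrix (Fin N) (Fin N) k) = 1 :=
  Matrix.map_one _ (map_zero _) (map_one _)

theorem al_inv_mul {a : Matrix (Fin N) (Fin N) k} (ha : B.IsG a) : al K a⁻¹ * al K a = 1 := by
  rw [← al_mul, isBl_inv_mul ha, al_one]

theorem al_mul_inv {a : Matrix (Fin N) (Fin N) k} (ha : B.IsG a) : al K a * al K a⁻¹ = 1 := by
  rw [← al_mul, isBl_mul_inv ha, al_one]

theorem det_al (a : Matrix (Fin N) (Fin N) k) : (al K a).det = algebraMap k K a.det :=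
  (RingHom.map_det (algebraMap k K) a).symm

/-- automorphisms act on translated matrices -/
theorem tr_equiv (τ : K ≃ₐ[k] K) (a c : Matrix (Fin N) (Fin N) k) (y : Fin (m + 1) → K) :
    (al K a * B.mat y * al K c).map τ = al K a * B.mat (fun i => τ (y i)) * al K c :=
  tr_hom (B := B) (τ : K →ₐ[k] K) a c y

theorem mat_inj {R : Type w} [CommRing R] {y y' : Fin (m + 1) → R} (h : B.mat y = B.mat y') :
    y = y' := by
  rw [← vec_mat B y, ← vec_mat B y', h]

end Tra

open Tra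

theorem trP_trP (a c a' c' : Matrix (Fin N) (Fin N) k) (P : MvPolynomial (Fin (m + 1)) k)
    (ha : B.IsBl a) (hc : B.IsBl c) (ha' : B.IsBl a') (hc' : B.IsBl c') :
    B.trP a c (B.trP a' c' P) = B.trP (a' * a) (c * c') P := by
  have h1 := aeval_trP (B := B) a' c' (B.vec (a.map C * B.XX k * c.map C)) P
  have h0 : B.IsBl (a.map C * B.XX k * c.map C) := by
    have := isBl_tr (R := MvPolynomial (Fin (m + 1)) k) ha hc (isBl_mat B X)
    rw [algebraMap_eq] at this
    exact this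
  rw [mat_vec B h0, algebraMap_eq] at h1
  have h3 : a'.map C * (a.map C * B.XX k * c.map C) * c'.map C =
      (a' * a).map C * B.XX k * (c * c').map C := by
    rw [Matrix.map_mul, Matrix.map_mul]
    simp only [Matrix.mul_assoc]
  rw [h3] at h1
  exact h1

theorem trP_one (P : MvPolynomial (Fin (m + 1)) k) : B.trP 1 1 P = P := by
  have h : B.vec ((1 : Matrix (Fin N) (Fin N) k).map C * B.XX k *
      (1 : Matrix (Fin N) (Fin N) k).map C) = X := by
    rw [Matrix.map_one _ (map_zero _) (map_one _), one_mul, mul_one, Blk.XX, vec_mat]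
  rw [Blk.trP, h, aeval_X_left_apply]

section TRA

variable (C : GC k K B)

namespace Tra

theorem aeval_y_trP (a c : Matrix (Fin N) (Fin N) k) (P : MvPolynomial (Fin (m + 1)) k) :
    aeval C.y (B.trP a c P) = aeval (B.vec (al K a * C.g * al K c)) P :=
  aeval_trP a c C.y P

theorem ind_tr {a c : Matrix (Fin N) (Fin N) k} (ha : B.IsG a) (hc : B.IsG c) :
    AlgebraicIndependent k (B.vec (al K a * C.g * al K c)) := by
  rw [algebraicIndependent_iff]
  intro P hP
  rw [← aeval_y_trP] at hP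
  have h1 := (algebraicIndependent_iff.1 C.ind) _ hP
  have h2 := congrArg (B.trP a⁻¹ c⁻¹) h1
  rwa [map_zero, trP_trP _ _ _ _ _ (isG_inv ha).1 (isG_inv hc).1 ha.1 hc.1, isBl_mul_inv ha,
    isBl_inv_mul hc, trP_one] at h2

/-- extension of a map of the coordinates -/
theorem embedK {η : Fin (m + 1) → K} (h : AlgebraicIndependent k η) :
    ∃ Φ : K →ₐ[k] K, ∀ i, Φ (C.y i) = η i := by
  have hy := C.ind
  let e : K ≃ₐ[k] FractionRing (MvPolynomial (Fin (m + 1)) k) :=
    (IntermediateField.topEquiv.symm.trans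
      (IntermediateField.equivOfEq C.gen.symm)).trans hy.aevalEquivField.symm
  have he : ∀ i, e (C.y i) = algebraMap (MvPolynomial (Fin (m + 1)) k) _
      (MvPolynomial.X i) := by
    intro i
    have h1 : e.symm (algebraMap (MvPolynomial (Fin (m + 1)) k) _ (MvPolynomial.X i)) =
        C.y i := by
      change ((hy.aevalEquivField (algebraMap _ _ (MvPolynomial.X i)) :
        IntermediateField.adjoin k (Set.range C.y)) : K) = _
      rw [hy.aevalEquivField_algebraMap_apply_coe, MvPolynomial.aeval_X]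
    rw [← h1, AlgEquiv.apply_symm_apply]
  let f : FractionRing (MvPolynomial (Fin (m + 1)) k) →ₐ[k] K :=
    IsFractionRing.liftAlgHom (K := FractionRing (MvPolynomial (Fin (m + 1)) k))
      (algebraicIndependent_iff_injective_aeval.2 h)
  have hf : ∀ i, f (algebraMap (MvPolynomial (Fin (m + 1)) k) _ (MvPolynomial.X i)) = η i := by
    intro i
    have := IsFractionRing.lift_algebraMap (K := FractionRing (MvPolynomial (Fin (m + 1)) k))
      (algebraicIndependent_iff_injective_aeval.2 h) (MvPolynomial.X i)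
    rw [show f (algebraMap (MvPolynomial (Fin (m + 1)) k) _ (MvPolynomial.X i)) =
      IsFractionRing.lift (algebraicIndependent_iff_injective_aeval.2 h)
        (algebraMap (MvPolynomial (Fin (m + 1)) k) _ (MvPolynomial.X i)) from rfl, this]
    exact MvPolynomial.aeval_X _ _
  refine ⟨f.comp e.toAlgHom, fun i => ?_⟩
  have := hf i
  rw [← he i] at this
  exact this

theorem hom_ext {L : Type*} [Field L] [Algebra k L] {Φ Ψ : K →ₐ[k] L}
    (h : ∀ i, Φ (C.y i) = Ψ (C.y i)) : Φ = Ψ := by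
  refine AlgHom.ext fun b => ?_
  have hb : b ∈ IntermediateField.adjoin k (Set.range C.y) := by
    rw [C.gen]; trivial
  induction hb using IntermediateField.adjoin_induction with
  | mem x hx =>
    obtain ⟨i, rfl⟩ := hx
    exact h i
  | algebraMap c => rw [AlgHom.commutes, AlgHom.commutes]
  | add x y _ _ hx hy => rw [map_add, map_add, hx, hy]
  | inv x _ hx => rw [map_inv₀, map_inv₀, hx]
  | mul x y _ _ hx hy => rw [map_mul, map_mul, hx, hy]

theorem der_ext {D D' : Derivation k K K} (h : ∀ i, D (C.y i) = D' (C.y i)) : D = D' := by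
  refine Derivation.ext fun b => ?_
  have hb : b ∈ IntermediateField.adjoin k (Set.range C.y) := by
    rw [C.gen]; trivial
  induction hb using IntermediateField.adjoin_induction with
  | mem x hx =>
    obtain ⟨i, rfl⟩ := hx
    exact h i
  | algebraMap c => rw [Derivation.map_algebraMap, Derivation.map_algebraMap]
  | add x y _ _ hx hy => rw [map_add, map_add, hx, hy]
  | inv x _ hx => rw [Derivation.leibniz_inv, Derivation.leibniz_inv, hx]
  | mul x y _ _ hx hy => rw [Derivation.leibniz, Derivation.leibniz, hx, hy]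

theorem g_map (σ : K ≃ₐ[k] K) : C.g.map σ = (C.map σ).g :=
  mat_hom (B := B) (σ : K →ₐ[k] K) C.y

theorem tr_g {a c : Matrix (Fin N) (Fin N) k} {σ : K ≃ₐ[k] K} (h : C.IsTr a c σ) :
    (C.map σ).g = al K a * C.g * al K c := h.2.2

theorem y_tr {a c : Matrix (Fin N) (Fin N) k} {σ : K ≃ₐ[k] K} (h : C.IsTr a c σ)
    (i : Fin (m + 1)) : σ (C.y i) = B.vec (al K a * C.g * al K c) i := by
  have h1 := congrArg B.vec h.2.2
  rw [vec_mat] at h1
  exact congrFun h1 i

theorem mat_vec_tr {a c : Matrix (Fin N) (Fin N) k} (ha : B.IsBl a) (hc : B.IsBl c) :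
    B.mat (B.vec (al K a * C.g * al K c)) = al K a * C.g * al K c :=
  mat_vec B (isBl_tr ha hc (isBl_mat B _))

theorem hom_tr {a c a' c' : Matrix (Fin N) (Fin N) k} (ha : B.IsBl a) (hc : B.IsBl c)
    (ha' : B.IsBl a') (hc' : B.IsBl c')
    {Φ Ψ : K →ₐ[k] K} (h : ∀ i, Φ (C.y i) = B.vec (al K a * C.g * al K c) i)
    (h' : ∀ i, Ψ (C.y i) = B.vec (al K a' * C.g * al K c') i) (i : Fin (m + 1)) :
    Ψ (Φ (C.y i)) = B.vec (al K (a * a') * C.g * al K (c' * c)) i := by
  have h1 := tr_hom (B := B) Ψ a c C.y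
  have h2 : B.mat (fun i => Ψ (C.y i)) = al K a' * C.g * al K c' := by
    have : (fun i => Ψ (C.y i)) = B.vec (al K a' * C.g * al K c') := funext h'
    rw [this, mat_vec_tr C ha' hc']
  rw [h2] at h1
  rw [h i]
  have h3 : Ψ (B.vec (al K a * C.g * al K c) i) =
      B.vec ((al K a * C.g * al K c).map Ψ) i := rfl
  rw [h3]
  have h4 : (al K a * C.g * al K c).map Ψ = al K (a * a') * C.g * al K (c' * c) := by
    refine h1.trans ?_
    rw [al_mul, al_mul]
    simp only [Matrix.mul_assoc]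
  rw [h4]

end Tra

theorem exists_tr {a c : Matrix (Fin N) (Fin N) k} (ha : B.IsG a) (hc : B.IsG c) :
    ∃ σ, C.IsTr a c σ := by
  obtain ⟨Φ, hΦ⟩   := embedK C (ind_tr C ha hc)
  obtain ⟨Ψ, hΨ⟩   := embedK C (ind_tr C (isG_inv ha) (isG_inv hc))
  have h1 : Ψ.comp Φ = AlgHom.id k K := by
    refine hom_ext C fun i => ?_
    rw [AlgHom.comp_apply, hom_tr C ha.1 hc.1 (isG_inv ha).1 (isG_inv hc).1 hΦ hΨ,
      isBl_mul_inv ha, isBl_inv_mul hc, al_one, one_mul, mul_one, GC.g, vec_mat]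
    rfl
  have h2 : Φ.comp Ψ = AlgHom.id k K := by
    refine hom_ext C fun i => ?_
    rw [AlgHom.comp_apply, hom_tr C (isG_inv ha).1 (isG_inv hc).1 ha.1 hc.1 hΨ hΦ,
      isBl_inv_mul ha, isBl_mul_inv hc, al_one, one_mul, mul_one, GC.g, vec_mat]
    rfl
  refine ⟨AlgEquiv.ofAlgHom Φ Ψ h2 h1, ha, hc, ?_⟩
  have h3 : (fun i => (AlgEquiv.ofAlgHom Φ Ψ h2 h1) (C.y i)) =
      B.vec (al K a * C.g * al K c) := funext hΦ
  rw [h3, mat_vec_tr C ha.1 hc.1]

theorem isTr_refl : C.IsTr 1 1 AlgEquiv.refl := by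
  refine ⟨isG_one, isG_one, ?_⟩
  have := al_one (K := K) (k := k) (N := N)
  rw [show (1 : Matrix (Fin N) (Fin N) k).map (algebraMap k K) = 1 from this, one_mul, mul_one]
  rfl

theorem isTr_trans {a c a' c' : Matrix (Fin N) (Fin N) k} {σ τ : K ≃ₐ[k] K} (h : C.IsTr a c σ)
    (h' : C.IsTr a' c' τ) : C.IsTr (a * a') (c' * c) (σ.trans τ) := by
  refine ⟨isG_mul h.1 h'.1, isG_mul h'.2.1 h.2.1, ?_⟩
  have h1 : (fun i => (σ.trans τ) (C.y i)) = B.vec (al K (a * a') * C.g * al K (c' * c)) :=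
    funext fun i => hom_tr C h.1.1 h.2.1.1 h'.1.1 h'.2.1.1 (Φ := (σ : K →ₐ[k] K))
      (Ψ := (τ : K →ₐ[k] K)) (y_tr C h) (y_tr C h') i
  rw [h1, mat_vec_tr C (isG_mul h.1 h'.1).1 (isG_mul h'.2.1 h.2.1).1]

theorem isTr_symm {a c : Matrix (Fin N) (Fin N) k} {σ : K ≃ₐ[k] K} (h : C.IsTr a c σ) :
    C.IsTr a⁻¹ c⁻¹ σ.symm := by
  refine ⟨isG_inv h.1, isG_inv h.2.1, ?_⟩
  have h1 := tr_equiv (B := B) σ.symm a c C.y
  have h2 : (al K a * B.mat C.y * al K c).map σ.symm = B.mat C.y := by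
    have h3 : al K a * B.mat C.y * al K c = B.mat (fun i => σ (C.y i)) := h.2.2.symm
    rw [h3]
    have h4 := mat_hom (B := B) (σ.symm : K →ₐ[k] K) (fun i => σ (C.y i))
    refine (show _ = _ from h4).trans ?_
    congr 1
    funext i
    exact σ.symm_apply_apply _
  rw [h2] at h1
  have h5 : al K a⁻¹ * C.g * al K c⁻¹ = al K a⁻¹ * (al K a * B.mat (fun i => σ.symm (C.y i)) *
      al K c) * al K c⁻¹ := by
    rw [← h1]
    rfl
  have h6 : al K a⁻¹ * (al K a * B.mat (fun i => σ.symm (C.y i)) * al K c) * al K c⁻¹ =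
      (al K a⁻¹ * al K a) * B.mat (fun i => σ.symm (C.y i)) * (al K c * al K c⁻¹) := by
    simp only [Matrix.mul_assoc]
  rw [h6, al_inv_mul h.1, al_mul_inv h.2.1, one_mul, mul_one] at h5
  exact h5.symm

theorem tra_refl : C.Tra AlgEquiv.refl := ⟨1, 1, isTr_refl C⟩

theorem tra_trans {σ τ : K ≃ₐ[k] K} (h : C.Tra σ) (h' : C.Tra τ) : C.Tra (σ.trans τ) := by
  obtain ⟨a, c, h⟩ := h
  obtain ⟨a', c', h'⟩ := h'
  exact ⟨_, _, isTr_trans C h h'⟩

theorem tra_symm {σ : K ≃ₐ[k] K} (h : C.Tra σ) : C.Tra σ.symm := by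
  obtain ⟨a, c, h⟩ := h
  exact ⟨_, _, isTr_symm C h⟩

variable {C}
variable {A : Subalgebra k K}

namespace Tra

theorem eq_of_symm {M M' : Matrix (Fin N) (Fin N) K} {a c : Matrix (Fin N) (Fin N) k}
    (ha : B.IsG a) (hc : B.IsG c) (h : al K a * M * al K c = M') :
    M = al K a⁻¹ * M' * al K c⁻¹ := by
  have h6 : al K a⁻¹ * (al K a * M * al K c) * al K c⁻¹ =
      (al K a⁻¹ * al K a) * M * (al K c * al K c⁻¹) := by
    simp only [Matrix.mul_assoc]
  rw [← h, h6, al_inv_mul ha, al_mul_inv hc, one_mul, mul_one]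

theorem tra_map_aux {a c : Matrix (Fin N) (Fin N) k} {σ : K ≃ₐ[k] K} (h : C.IsTr a c σ)
    {a' c' : Matrix (Fin N) (Fin N) k} {τ : K ≃ₐ[k] K} (h' : (C.map σ).IsTr a' c' τ) :
    C.IsTr (a⁻¹ * (a' * a)) (c * c' * c⁻¹) τ := by
  refine ⟨isG_mul (isG_inv h.1) (isG_mul h'.1 h.1), isG_mul (isG_mul h.2.1 h'.2.1) (isG_inv h.2.1),
    ?_⟩
  have h1 := h'.2.2
  rw [tr_g C h] at h1
  have h2 : B.mat (fun i => τ ((C.map σ).y i)) = (al K a * B.mat C.y * al K c).map τ := by
    have h3 : al K a * B.mat C.y * al K c = B.mat (fun i => σ (C.y i)) := h.2.2.symm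
    rw [h3]
    exact (mat_hom (B := B) (τ : K →ₐ[k] K) (fun i => σ (C.y i))).symm
  rw [h2, tr_equiv] at h1
  have h4 := eq_of_symm h.1 h.2.1 h1
  rw [h4]
  change _ = al K (a⁻¹ * (a' * a)) * C.g * al K (c * c' * c⁻¹)
  rw [al_mul, al_mul, al_mul, al_mul]
  simp only [Matrix.mul_assoc]

theorem map_map_y (σ : K ≃ₐ[k] K) (i : Fin (m + 1)) :
    ((C.map σ).map σ.symm).y i = C.y i := σ.symm_apply_apply _

end Tra

theorem tra_map {σ : K ≃ₐ[k] K} (h : C.Tra σ) (τ : K ≃ₐ[k] K) : (C.map σ).Tra τ ↔ C.Tra τ := by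
  obtain ⟨a, c, h⟩ := h
  constructor
  · rintro ⟨a', c', h'⟩
    exact ⟨_, _, tra_map_aux h h'⟩
  · rintro ⟨a', c', h'⟩
    refine ⟨a * (a' * a⁻¹), c⁻¹ * c' * c, isG_mul h.1 (isG_mul h'.1 (isG_inv h.1)),
      isG_mul (isG_mul (isG_inv h.2.1) h'.2.1) h.2.1, ?_⟩
    have h2 : B.mat (fun i => τ ((C.map σ).y i)) = (al K a * B.mat C.y * al K c).map τ := by
      have h3 : al K a * B.mat C.y * al K c = B.mat (fun i => σ (C.y i)) := h.2.2.symm
      rw [h3]
      exact (mat_hom (B := B) (τ : K →ₐ[k] K) (fun i => σ (C.y i))).symm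
    rw [h2, tr_equiv, h'.2.2]
    change _ = al K (a * (a' * a⁻¹)) * (C.map σ).g * al K (c⁻¹ * c' * c)
    rw [tr_g C h, al_mul, al_mul, al_mul, al_mul]
    have h5 : al K a * (al K a' * al K a⁻¹) * (al K a * C.g * al K c) *
        (al K c⁻¹ * al K c' * al K c) = al K a * al K a' * (al K a⁻¹ * al K a) * C.g *
        (al K c * al K c⁻¹) * al K c' * al K c := by
      simp only [Matrix.mul_assoc]
    rw [h5, al_inv_mul h.1, al_mul_inv h.2.1, mul_one, mul_one]
    simp only [Matrix.mul_assoc]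

namespace Tra

theorem isG_tp {a : Matrix (Fin N) (Fin N) k} (ha : B.IsG a) : B.tp.IsG a.transpose :=
  ⟨fun p q h => ha.1 q p fun e => h e.symm, by rw [Matrix.det_transpose]; exact ha.2⟩

theorem isG_tp' {a : Matrix (Fin N) (Fin N) k} (ha : B.tp.IsG a) : B.IsG a.transpose :=
  ⟨fun p q h => ha.1 q p fun e => h e.symm, by rw [Matrix.det_transpose]; exact ha.2⟩

theorem g_tp : C.tp.g = C.g.transpose := GC.mat_tp C.y

end Tra

theorem tra_tp (τ : K ≃ₐ[k] K) : C.tp.Tra τ ↔ C.Tra τ := by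
  constructor
  · rintro ⟨a, c, ha, hc, h⟩
    refine ⟨c.transpose, a.transpose, isG_tp' hc, isG_tp' ha, ?_⟩
    have h1 := (GC.mat_tp (B := B) fun i => τ (C.y i)).symm.trans h
    have h2 := congrArg Matrix.transpose h1
    rw [Matrix.transpose_transpose, g_tp, Matrix.transpose_mul, Matrix.transpose_mul,
      Matrix.transpose_transpose, ← Matrix.mul_assoc] at h2
    exact h2
  · rintro ⟨a, c, ha, hc, h⟩
    refine ⟨c.transpose, a.transpose, isG_tp hc, isG_tp ha, ?_⟩
    refine (GC.mat_tp (B := B) fun i => τ (C.y i)).trans ?_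
    rw [h, g_tp, Matrix.transpose_mul, Matrix.transpose_mul, ← Matrix.mul_assoc]
    rfl

theorem emb_map {σ : K ≃ₐ[k] K} (h : C.Tra σ) (hA : IsEmb C A) : IsEmb (C.map σ) A :=
  ⟨hA.good, fun τ hτ => hA.stab τ ((tra_map h τ).1 hτ)⟩

theorem emb_tp (hA : IsEmb C A) : IsEmb C.tp A :=
  ⟨hA.good, fun τ hτ => hA.stab τ ((tra_tp τ).1 hτ)⟩

theorem gam_map {σ : K ≃ₐ[k] K} (h : C.Tra σ) (hA : IsEmb C A) : Gam (C.map σ) A = Gam C A := by
  ext μ
  refine and_congr_right fun _ => ?_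
  rw [map_dm]
  refine ⟨fun h1 => ?_, fun h1 => hA.stab σ h _ h1⟩
  have h2 := hA.stab σ.symm (tra_symm C h) _ h1
  rwa [σ.symm_apply_apply] at h2

theorem gam_tp : Gam C.tp A = Gam C A := rfl

theorem zof_map {σ : K ≃ₐ[k] K} (h : C.Tra σ) (hA : IsEmb C A) (p : Ideal A) :
    Zof (C.map σ) p = Zof C p := by
  ext μ
  constructor
  · rintro ⟨h1, τ, hτ, a, ha, hp⟩
    rw [gam_map h hA] at h1
    rw [map_dm] at ha
    exact ⟨h1, σ.trans τ, tra_trans C h ((tra_map h τ).1 hτ), a, ha, hp⟩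
  · rintro ⟨h1, τ, hτ, a, ha, hp⟩
    rw [← gam_map h hA] at h1
    refine ⟨h1, σ.symm.trans τ, (tra_map h _).2 (tra_trans C (tra_symm C h) hτ), a, ?_, hp⟩
    rw [map_dm, ha]
    exact (congrArg τ (σ.symm_apply_apply _)).symm

theorem zof_tp (p : Ideal A) : Zof C.tp p = Zof C p := by
  ext μ
  constructor
  · rintro ⟨h1, τ, hτ, a, ha, hp⟩
    exact ⟨h1, τ, (tra_tp τ).1 hτ, a, ha, hp⟩
  · rintro ⟨h1, τ, hτ, a, ha, hp⟩
    exact ⟨h1, τ, (tra_tp τ).2 hτ, a, ha, hp⟩

theorem invI_map {σ : K ≃ₐ[k] K} (h : C.Tra σ) (p : Ideal A) : InvI (C.map σ) p ↔ InvI C p :=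
  ⟨fun h1 τ hτ => h1 τ ((tra_map h τ).2 hτ), fun h1 τ hτ => h1 τ ((tra_map h τ).1 hτ)⟩

namespace Tra

theorem det_tr {a c : Matrix (Fin N) (Fin N) k} {σ : K ≃ₐ[k] K} (h : C.IsTr a c σ) :
    (C.map σ).g.det = algebraMap k K (a.det * c.det) * C.g.det := by
  rw [tr_g C h, Matrix.det_mul, Matrix.det_mul, det_al, det_al, map_mul]
  ring

theorem vec_map_tr {a c : Matrix (Fin N) (Fin N) k} {σ : K ≃ₐ[k] K} (h : C.IsTr a c σ) :
    (C.map σ).y = B.vec (al K a * C.g * al K c) := funext fun i => y_tr C h i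

theorem dc_ne {a c : Matrix (Fin N) (Fin N) k} {σ : K ≃ₐ[k] K} (h : C.IsTr a c σ) (n : ℕ) :
    (a.det * c.det) ^ n ≠ 0 := pow_ne_zero _ (mul_ne_zero h.1.2 h.2.1.2)

/-- a representation in the frame `C.map σ` gives one in the frame `C` -/
theorem rep_of_map {a c : Matrix (Fin N) (Fin N) k} {σ : K ≃ₐ[k] K} (h : C.IsTr a c σ) {f : K}
    {n : ℕ} {P : MvPolynomial (Fin (m + 1)) k} (hP : (C.map σ).PRep f n P) :
    C.PRep f n (MvPolynomial.C ((a.det * c.det) ^ n)⁻¹ * B.trP a c P) := by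
  unfold GC.PRep at hP ⊢
  rw [det_tr h, vec_map_tr h] at hP
  rw [map_mul, aeval_y_trP, ← hP, aeval_C]
  have h1 : algebraMap k K ((a.det * c.det) ^ n)⁻¹ * algebraMap k K (a.det * c.det) ^ n = 1 := by
    rw [← map_pow, ← map_mul, inv_mul_cancel₀ (dc_ne h n), map_one]
  rw [mul_pow (algebraMap k K (a.det * c.det))]
  linear_combination (-(f * C.g.det ^ n)) * h1

end Tra

/-- the representation of `σ f` in the frame `C` -/
theorem rep_tr {a c : Matrix (Fin N) (Fin N) k} {σ : K ≃ₐ[k] K} (h : C.IsTr a c σ) {f : K} {n : ℕ}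
    {P : MvPolynomial (Fin (m + 1)) k} (hP : C.PRep f n P) :
    C.PRep (σ f) n (MvPolynomial.C ((a.det * c.det) ^ n)⁻¹ * B.trP a c P) := by
  refine rep_of_map h ?_
  unfold GC.PRep at hP ⊢
  have h1 := congrArg σ hP
  rw [map_mul, map_pow] at h1
  have h2 : (C.map σ).g.det = σ C.g.det := by
    rw [← g_map]
    exact (AlgHom.map_det (σ : K →ₐ[k] K) C.g).symm
  rw [h2, h1]
  exact MvPolynomial.map_aeval C.y (σ : K →+* K) P |>.trans (by
    rw [aeval_def, coe_eval₂Hom]
    congr 1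
    ext x
    exact σ.commutes x)

/-- the representation of `f` in the frame `C.map σ` -/
theorem rep_map {a c : Matrix (Fin N) (Fin N) k} {σ : K ≃ₐ[k] K} (h : C.IsTr a c σ) {f : K} {n : ℕ}
    {P : MvPolynomial (Fin (m + 1)) k} (hP : C.PRep f n P) :
    (C.map σ).PRep f n (MvPolynomial.C ((a.det * c.det) ^ n) * B.trP a⁻¹ c⁻¹ P) := by
  unfold GC.PRep at hP ⊢
  have h1 : C.g = al K a⁻¹ * (C.map σ).g * al K c⁻¹ := eq_of_symm h.1 h.2.1 (tr_g C h).symm
  have h2 : C.y = B.vec (al K a⁻¹ * (C.map σ).g * al K c⁻¹) := by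
    rw [← h1, GC.g, vec_mat]
  rw [det_tr h, map_mul (aeval (C.map σ).y), aeval_y_trP, ← h2, ← hP, aeval_C, map_pow,
    mul_pow (algebraMap k K (a.det * c.det))]
  ring

theorem reg_map {σ : K ≃ₐ[k] K} (h : C.Tra σ) (f : K) : (C.map σ).Reg f ↔ C.Reg f := by
  obtain ⟨a, c, h⟩ := h
  constructor
  · rintro ⟨n, P, hP⟩
    exact ⟨n, _, rep_of_map h hP⟩
  · rintro ⟨n, P, hP⟩
    exact ⟨n, _, rep_map h hP⟩

theorem reg_tra {σ : K ≃ₐ[k] K} (h : C.Tra σ) {f : K} (hf : C.Reg f) : C.Reg (σ f) := by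
  obtain ⟨a, c, h⟩ := h
  obtain ⟨n, P, hP⟩ := hf
  exact ⟨n, _, rep_tr h hP⟩

namespace Tra

theorem eval_trP (a c : Matrix (Fin N) (Fin N) k) {h : Matrix (Fin N) (Fin N) k} (hh : B.IsBl h)
    (P : MvPolynomial (Fin (m + 1)) k) :
    eval (B.vec h) (B.trP a c P) = eval (B.vec (a * h * c)) P := by
  have h1 := aeval_trP (B := B) (R := k) a c (B.vec h) P
  rw [mat_vec B hh] at h1
  have h2 : ∀ a : Matrix (Fin N) (Fin N) k, a.map (algebraMap k k) = a := fun a => by
    ext p q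
    rfl
  rw [h2, h2, aeval_eq_eval, aeval_eq_eval] at h1
  exact h1

theorem nv_of_map {a c : Matrix (Fin N) (Fin N) k} {σ : K ≃ₐ[k] K} (h : C.IsTr a c σ) {f : K}
    {x : Matrix (Fin N) (Fin N) k} (hx : B.IsG x) (hf : (C.map σ).NV x f) :
    C.NV (a⁻¹ * x * c⁻¹) f := by
  obtain ⟨n, P, hP, he⟩ := hf
  refine ⟨n, _, rep_of_map h hP, ?_⟩
  rw [map_mul, eval_C, eval_trP _ _ (isG_mul (isG_mul (isG_inv h.1) hx) (isG_inv h.2.1)).1]
  have h1 : a * (a⁻¹ * x * c⁻¹) * c = (a * a⁻¹) * x * (c⁻¹ * c) := by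
    simp only [Matrix.mul_assoc]
  rw [h1, isBl_mul_inv h.1, isBl_inv_mul h.2.1, one_mul, mul_one]
  exact mul_ne_zero (inv_ne_zero (dc_ne h n)) he

theorem nv_map {a c : Matrix (Fin N) (Fin N) k} {σ : K ≃ₐ[k] K} (h : C.IsTr a c σ) {f : K}
    {x : Matrix (Fin N) (Fin N) k} (hx : B.IsG x) (hf : C.NV x f) :
    (C.map σ).NV (a * x * c) f := by
  obtain ⟨n, P, hP, he⟩ := hf
  refine ⟨n, _, rep_map h hP, ?_⟩
  rw [map_mul, eval_C, eval_trP _ _ (isG_mul (isG_mul h.1 hx) h.2.1).1]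
  have h1 : a⁻¹ * (a * x * c) * c⁻¹ = (a⁻¹ * a) * x * (c * c⁻¹) := by
    simp only [Matrix.mul_assoc]
  rw [h1, isBl_inv_mul h.1, isBl_mul_inv h.2.1, one_mul, mul_one]
  exact mul_ne_zero (dc_ne h n) he

end Tra

theorem intrI_map {σ : K ≃ₐ[k] K} (h : C.Tra σ) (p : Ideal A) :
    IntrI (C.map σ) p ↔ IntrI C p := by
  obtain ⟨a, c, h⟩ := h
  constructor
  · rintro ⟨x, hx, h1⟩
    refine ⟨a⁻¹ * x * c⁻¹, isG_mul (isG_mul (isG_inv h.1) hx) (isG_inv h.2.1), fun f hf hn => ?_⟩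
    have h2 := nv_map h (isG_mul (isG_mul (isG_inv h.1) hx) (isG_inv h.2.1)) hn
    have h3 : a * (a⁻¹ * x * c⁻¹) * c = (a * a⁻¹) * x * (c⁻¹ * c) := by
      simp only [Matrix.mul_assoc]
    rw [h3, isBl_mul_inv h.1, isBl_inv_mul h.2.1, one_mul, mul_one] at h2
    exact h1 f hf h2
  · rintro ⟨x, hx, h1⟩
    refine ⟨a * x * c, isG_mul (isG_mul h.1 hx) h.2.1, fun f hf hn => ?_⟩
    have h2 := nv_of_map h (isG_mul (isG_mul h.1 hx) h.2.1) hn
    have h3 : a⁻¹ * (a * x * c) * c⁻¹ = (a⁻¹ * a) * x * (c * c⁻¹) := by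
      simp only [Matrix.mul_assoc]
    rw [h3, isBl_inv_mul h.1, isBl_mul_inv h.2.1, one_mul, mul_one] at h2
    exact h1 f hf h2

theorem lam_map {σ : K ≃ₐ[k] K} (h : C.Tra σ) (v : DVal k K) (l : Fin N → ℤ) :
    Lam (C.map σ) v l ↔ Lam C v l := by
  constructor
  · rintro ⟨τ, hτ, h1, h2, h3, h4⟩
    exact ⟨σ.trans τ, tra_trans C h ((tra_map h τ).1 hτ), h1, h2, h3, h4⟩
  · rintro ⟨τ, hτ, h1, h2, h3, h4⟩
    have hT : (fun i => (σ.symm.trans τ) (σ (C.T i))) = fun i => τ (C.T i) := by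
      funext i
      exact congrArg τ (σ.symm_apply_apply _)
    refine ⟨σ.symm.trans τ, (tra_map h _).2 (tra_trans C (tra_symm C h) hτ), fun p q => ?_,
      fun p q => ?_, fun p => ?_, h4⟩
    · change v.Integral (B.low (fun i => (σ.symm.trans τ) (σ (C.T i))) p q)
      rw [hT]
      exact h1 p q
    · change v.Integral (B.upp (fun i => (σ.symm.trans τ) (σ (C.T i))) p q)
      rw [hT]
      exact h2 p q
    · change v.ord (B.dia (fun i => (σ.symm.trans τ) (σ (C.T i))) p) = l p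
      rw [hT]
      exact h3 p

namespace Tra

theorem formOrd_of_jac (v : DVal k K) {n : ℕ} {D D' : Fin n → Derivation k K K} {c : k}
    (hc : c ≠ 0) (h : ∀ a, jac D a = algebraMap k K c * jac D' a) {j : ℤ}
    (hj : v.FormOrd D' j) : v.FormOrd D j := by
  have hc' : algebraMap k K c ≠ 0 := (map_ne_zero _).2 hc
  have h1 : ∀ a, jac D a ≠ 0 → jac D' a ≠ 0 ∧ v.ord (jac D a) = v.ord (jac D' a) := by
    intro a ha
    rw [h a] at ha ⊢
    have h2 := right_ne_zero_of_mul ha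
    refine ⟨h2, ?_⟩
    rw [v.ord_mul _ _ hc' h2, v.ord_algebraMap c hc, zero_add]
  refine ⟨fun a ha h0 => ?_, ?_⟩
  · rw [(h1 a h0).2]
    exact hj.1 a ha (h1 a h0).1
  · obtain ⟨a, ha, h0, hv⟩ := hj.2
    have h2 : jac D a ≠ 0 := by
      rw [h a]
      exact mul_ne_zero hc' h0
    exact ⟨a, ha, h2, by rw [(h1 a h2).2]; exact hv⟩

/-- the derivatives of the translated coordinates are constants -/
theorem der_const (D : Derivation k K K) {y : Fin (m + 1) → K} {e : Fin (m + 1) → k}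
    (hD : ∀ j, D (y j) = algebraMap k K (e j)) (a c : Matrix (Fin N) (Fin N) k)
    (j : Fin (m + 1)) :
    D (B.vec (al K a * B.mat y * al K c) j) = algebraMap k K (B.vec (a * B.mat e * c) j) := by
  have h1 : ∀ p q, D (B.mat y p q) = algebraMap k K (B.mat e p q) := by
    intro p q
    simp only [Blk.mat]
    split_ifs
    · exact hD _
    · rw [map_zero, map_zero]
  have hr : ∀ (x : K) (t : k), D (x * algebraMap k K t) = D x * algebraMap k K t := fun x t => by
    rw [Derivation.leibniz, Derivation.map_algebraMap, smul_zero, zero_add, smul_eq_mul, mul_comm]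
  have hl : ∀ (x : K) (t : k), D (algebraMap k K t * x) = algebraMap k K t * D x := fun x t => by
    rw [Derivation.leibniz, Derivation.map_algebraMap, smul_zero, add_zero, smul_eq_mul]
  have e1 : B.vec (al K a * B.mat y * al K c) j = ∑ s, (∑ r, algebraMap k K (a (B.rw j) r) *
      B.mat y r s) * algebraMap k K (c s (B.cl j)) := rfl
  have e2 : B.vec (a * B.mat e * c) j = ∑ s, (∑ r, a (B.rw j) r * B.mat e r s) *
      c s (B.cl j) := rfl
  rw [e1, e2, map_sum, map_sum]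
  refine Finset.sum_congr rfl fun s _ => ?_
  rw [hr, map_mul, map_sum, map_sum]
  congr 1
  refine Finset.sum_congr rfl fun r _ => ?_
  rw [hl, h1, map_mul]

theorem sum_app {n : ℕ} (r : Fin n → K) (D : Fin n → Derivation k K K) (b : K) :
    (∑ l, r l • D l) b = ∑ l, r l * D l b := by
  have h : ∀ s : Finset (Fin n), (∑ l ∈ s, r l • D l) b = ∑ l ∈ s, r l * D l b := by
    intro s
    induction s using Finset.induction_on with
    | empty => simp
    | insert i s hi ih => rw [Finset.sum_insert hi, Finset.sum_insert hi, Derivation.add_apply, ih]; rfl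
  exact h _

/-- change of the partial derivatives by constants -/
theorem jac_change {D D' : Fin (m + 1) → Derivation k K K} {y y' : Fin (m + 1) → K}
    (hD : ∀ i j, D i (y j) = if i = j then 1 else 0)
    (hD' : ∀ i j, D' i (y' j) = if i = j then 1 else 0)
    (ext' : ∀ E E' : Derivation k K K, (∀ i, E (y' i) = E' (y' i)) → E = E')
    (M M' : Matrix (Fin (m + 1)) (Fin (m + 1)) k)
    (hM : ∀ i j, D i (y' j) = algebraMap k K (M i j))
    (hM' : ∀ i j, D' i (y j) = algebraMap k K (M' i j)) :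
    M.det ≠ 0 ∧ ∀ a, jac D a = algebraMap k K M.det * jac D' a := by
  have h1 : ∀ i, D i = ∑ l, algebraMap k K (M i l) • D' l := by
    intro i
    refine ext' _ _ fun j => ?_
    rw [sum_app, hM]
    simp [hD']
  constructor
  · have h2 : M * M' = 1 := by
      ext i j
      have h3 := congrArg (fun E : Derivation k K K => E (y j)) (h1 i)
      simp only [sum_app, hD, hM'] at h3
      rw [Matrix.mul_apply, Matrix.one_apply]
      apply (algebraMap k K).injective
      rw [map_sum]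
      simp only [map_mul]
      rw [← h3]
      split_ifs <;> simp
    intro h0
    have h3 := congrArg Matrix.det h2
    rw [Matrix.det_mul, h0, zero_mul, Matrix.det_one] at h3
    exact zero_ne_one h3
  · intro a
    unfold jac
    have h2 : (Matrix.of fun i j => D i (a j)) =
        M.map (algebraMap k K) * Matrix.of fun i j => D' i (a j) := by
      ext i j
      rw [Matrix.mul_apply, Matrix.of_apply, h1 i, sum_app]
      rfl
    rw [h2, Matrix.det_mul]
    congr 1
    exact (RingHom.map_det (algebraMap k K) M).symm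

theorem jac_map {a c : Matrix (Fin N) (Fin N) k} {σ : K ≃ₐ[k] K} (h : C.IsTr a c σ) :
    ∃ e : k, e ≠ 0 ∧ ∀ b, jac C.D b = algebraMap k K e * jac (C.map σ).D b := by
  have h1 : ∀ i j, C.D i ((C.map σ).y j) = algebraMap k K
      (B.vec (a * B.mat (fun j => if i = j then (1 : k) else 0) * c) j) := by
    intro i j
    rw [vec_map_tr h]
    refine der_const (C.D i) (e := fun j => if i = j then (1 : k) else 0) (fun j => ?_) a c j
    rw [C.dual]
    split_ifs <;> simp
  have hg : C.g = al K a⁻¹ * (C.map σ).g * al K c⁻¹ := eq_of_symm h.1 h.2.1 (tr_g C h).symm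
  have hy : C.y = B.vec (al K a⁻¹ * (C.map σ).g * al K c⁻¹) := by
    rw [← hg, GC.g, vec_mat]
  have h2 : ∀ i j, (C.map σ).D i (C.y j) = algebraMap k K
      (B.vec (a⁻¹ * B.mat (fun j => if i = j then (1 : k) else 0) * c⁻¹) j) := by
    intro i j
    rw [hy]
    refine der_const ((C.map σ).D i) (e := fun j => if i = j then (1 : k) else 0) (fun j => ?_)
      a⁻¹ c⁻¹ j
    rw [(C.map σ).dual]
    split_ifs <;> simp
  obtain ⟨h3, h4⟩ := jac_change C.dual (C.map σ).dual (fun E E' h => der_ext (C.map σ) h)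
    (Matrix.of fun i j => B.vec (a * B.mat (fun j => if i = j then (1 : k) else 0) * c) j)
    (Matrix.of fun i j => B.vec (a⁻¹ * B.mat (fun j => if i = j then (1 : k) else 0) * c⁻¹) j)
    h1 h2
  exact ⟨_, h3, h4⟩

end Tra

theorem formOrd_map {σ : K ≃ₐ[k] K} (h : C.Tra σ) (v : DVal k K) (j : ℤ) :
    v.FormOrd (C.map σ).D j ↔ v.FormOrd C.D j := by
  obtain ⟨a, c, h⟩ := h
  obtain ⟨e, he, hj⟩ := jac_map h
  constructor
  · exact formOrd_of_jac v he hj
  · refine formOrd_of_jac v (inv_ne_zero he) fun b => ?_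
    rw [hj b, ← mul_assoc, ← map_mul, inv_mul_cancel₀ he, map_one, one_mul]

theorem xdata_map {σ : K ≃ₐ[k] K} (h : C.Tra σ) (hA : IsEmb C A) (X : XData C A) :
    ∃ X' : XData (C.map σ) A, X'.Q = X.Q ∧ X'.x = X.x := by
  refine ⟨⟨X.Q, X.x, fun q => ?_, X.mon, fun q hq v hv τ hτ p => ?_, fun μ => ?_⟩, rfl, rfl⟩
  · rw [invI_map h]
    exact X.mem q
  · exact X.ord q hq v hv (σ.trans τ) (tra_trans C h ((tra_map h τ).1 hτ)) p
  · rw [gam_map h hA]
    exact X.gam μ

end TRA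

end

end Pool.Agent.MLD.Mon
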