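import Pool.Agent.Lib.MP_f23696_ag.M.Lin
import Pool.Agent.Lib.MP_f23696_ag.M.Tra

/-!
Project MON (MP_f23696_ag), module CB: translates of semi-invariants.
-/

set_option autoImplicit false

open scoped Classical

namespace Pool.Agent.MLD.Mon

open MvPolynomial
open Pool.Agent.MLD.Ten (IsGood)

noncomputable section

universe u v w

variable {N m : ℕ} {B : Blk N m} {k : Type u} {K : Type v} [Field k] [Field K] [Algebra k K]

namespace Cb

/-! ### Leading minors -/

section Minors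

variable {R : Type v} [CommRing R]

/-- leading minor of size `i` -/
def mn (i : ℕ) (hi : i ≤ N) (M : Matrix (Fin N) (Fin N) R) : R :=
  (M.submatrix (Fin.castLE hi) (Fin.castLE hi)).det

theorem sum_cast {i : ℕ} (hi : i ≤ N) (F : Fin N → R) (h : ∀ r : Fin N, i ≤ (r : ℕ) → F r = 0) :
    ∑ r, F r = ∑ r : Fin i, F (Fin.castLE hi r) := by
  refine (Fintype.sum_of_injective (Fin.castLE hi) (Fin.castLE_injective hi) _ F ?_
    (fun _ => rfl)).symm
  intro r hr
  refine h r ?_
  by_contra hlt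
  push Not at hlt
  exact hr ⟨⟨r, hlt⟩, rfl⟩

theorem mn_mul_left {i : ℕ} (hi : i ≤ N) (M X : Matrix (Fin N) (Fin N) R)
    (h : ∀ p r : Fin N, (p : ℕ) < i → i ≤ (r : ℕ) → M p r = 0) :
    mn i hi (M * X) = mn i hi M * mn i hi X := by
  unfold mn
  rw [← Matrix.det_mul]
  congr 1
  ext p q
  rw [Matrix.submatrix_apply, Matrix.mul_apply, Matrix.mul_apply,
    sum_cast hi _ fun r hr => by rw [h _ r (by simp) hr, zero_mul]]
  rfl

theorem mn_mul_right {i : ℕ} (hi : i ≤ N) (M X : Matrix (Fin N) (Fin N) R)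
    (h : ∀ r q : Fin N, i ≤ (r : ℕ) → (q : ℕ) < i → X r q = 0) :
    mn i hi (M * X) = mn i hi M * mn i hi X := by
  unfold mn
  rw [← Matrix.det_mul]
  congr 1
  ext p q
  rw [Matrix.submatrix_apply, Matrix.mul_apply, Matrix.mul_apply,
    sum_cast hi _ fun r hr => by rw [h r _ hr (by simp), mul_zero]]
  rfl

theorem mn_one {i : ℕ} (hi : i ≤ N) : mn i hi (1 : Matrix (Fin N) (Fin N) R) = 1 := by
  unfold mn
  rw [Matrix.submatrix_one _ (Fin.castLE_injective hi), Matrix.det_one]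

theorem mn_diagonal {i : ℕ} (hi : i ≤ N) (d : Fin N → R) :
    mn i hi (Matrix.diagonal d) = ∏ r : Fin i, d (Fin.castLE hi r) := by
  unfold mn
  rw [Matrix.submatrix_diagonal _ _ (Fin.castLE_injective hi), Matrix.det_diagonal]
  rfl

theorem mn_low {i : ℕ} (hi : i ≤ N) (y : Fin (m + 1) → R) : mn i hi (B.low y) = 1 := by
  unfold mn
  rw [Matrix.det_of_isLowerTriangular]
  · exact Finset.prod_eq_one fun r _ => by simp [Blk.low]
  · intro p q hpq
    have h : (p : ℕ) < q := hpq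
    have h1 : Fin.castLE hi p ≠ Fin.castLE hi q := by
      intro h'
      have := congrArg Fin.val h'
      simp only [Fin.val_castLE] at this
      omega
    have h2 : ¬ Fin.castLE hi q < Fin.castLE hi p := by
      rw [Fin.lt_def]
      simp only [Fin.val_castLE]
      omega
    rw [Matrix.submatrix_apply]
    simp [Blk.low, h1, h2]

theorem mn_upp {i : ℕ} (hi : i ≤ N) (y : Fin (m + 1) → R) : mn i hi (B.upp y) = 1 := by
  unfold mn
  rw [Matrix.det_of_isUpperTriangular]
  · exact Finset.prod_eq_one fun r _ => by simp [Blk.upp]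
  · intro p q hpq
    have h : (q : ℕ) < p := hpq
    have h1 : Fin.castLE hi p ≠ Fin.castLE hi q := by
      intro h'
      have := congrArg Fin.val h'
      simp only [Fin.val_castLE] at this
      omega
    have h2 : ¬ Fin.castLE hi p < Fin.castLE hi q := by
      rw [Fin.lt_def]
      simp only [Fin.val_castLE]
      omega
    rw [Matrix.submatrix_apply]
    simp [Blk.upp, h1, h2]

theorem mn_ldu {i : ℕ} (hi : i ≤ N) (y : Fin (m + 1) → R) :
    mn i hi (B.ldu y) = ∏ r : Fin i, B.dia y (Fin.castLE hi r) := by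
  unfold Blk.ldu
  rw [mn_mul_right, mn_mul_left, mn_low, mn_upp, mn_diagonal, one_mul, mul_one]
  · intro p r hp hr
    have h1 : p ≠ r := by
      rintro rfl
      omega
    have h2 : ¬ r < p := by
      rw [Fin.lt_def]
      omega
    simp [Blk.low, h1, h2]
  · intro r q hr hq
    have h1 : r ≠ q := by
      rintro rfl
      omega
    have h2 : ¬ r < q := by
      rw [Fin.lt_def]
      omega
    simp [Blk.upp, h1, h2]

/-- expansion of the determinant of a product of rectangular matrices -/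
theorem expand {i : ℕ} (A : Matrix (Fin i) (Fin N) R) (B' : Matrix (Fin N) (Fin i) R) :
    (A * B').det = ∑ f : Fin i → Fin N, (∏ r, A r (f r)) * (B'.submatrix f id).det := by
  have h1 : (A * B').det = Matrix.detRowAlternating fun r => ∑ s, A r s • B' s := by
    show (A * B').det = Matrix.det _
    congr 1
    ext r c
    rw [Matrix.mul_apply]
    simp
  rw [h1]
  show (Matrix.detRowAlternating (n := Fin i) (R := R)).toMultilinearMap
    (fun r => ∑ s, A r s • B' s) = _
  rw [MultilinearMap.map_sum]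
  refine Finset.sum_congr rfl fun f _ => ?_
  rw [MultilinearMap.map_smul_univ, smul_eq_mul]
  rfl

end Minors

/-! ### Integrality of leading minors -/

/-- the products of pivots over injective block preserving families -/
theorem inj_prod (O : ValuationSubring K) {i : ℕ} (hi : i ≤ N) (d : Fin N → K)
    (hd : ∀ p, d p ≠ 0) (hinc : ∀ p q, p ≤ q → B.b p = B.b q → d q / d p ∈ O)
    (f : Fin i → Fin N) (hf : Function.Injective f)
    (hb : ∀ r, B.b (f r) = B.b (Fin.castLE hi r)) :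
    (∏ r, d (f r)) / ∏ r : Fin i, d (Fin.castLE hi r) ∈ O := by
  set S : Finset (Fin N) := Finset.univ.image f with hS
  set I : Finset (Fin N) := Finset.univ.image (Fin.castLE hi) with hI
  have hSc : S.card = i := by
    rw [hS, Finset.card_image_of_injective _ hf, Finset.card_univ, Fintype.card_fin]
  have hIc : I.card = i := by
    rw [hI, Finset.card_image_of_injective _ (Fin.castLE_injective hi), Finset.card_univ,
      Fintype.card_fin]
  have hIm : ∀ t : Fin N, t ∈ I ↔ (t : ℕ) < i := by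
    intro t
    rw [hI, Finset.mem_image]
    constructor
    · rintro ⟨r, -, rfl⟩
      simp
    · intro h
      exact ⟨⟨t, h⟩, Finset.mem_univ _, rfl⟩
  have h1 : ∏ r, d (f r) = ∏ s ∈ S, d s := by
    rw [hS, Finset.prod_image fun a _ b _ h => hf h]
  have h2 : ∏ r : Fin i, d (Fin.castLE hi r) = ∏ s ∈ I, d s := by
    rw [hI, Finset.prod_image fun a _ b _ h => Fin.castLE_injective hi h]
  have h3 : ∏ s ∈ S, d s = (∏ s ∈ S \ I, d s) * ∏ s ∈ S ∩ I, d s := by
    rw [← Finset.prod_sdiff (Finset.inter_subset_left : S ∩ I ⊆ S), Finset.sdiff_inter_self_left]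
  have h4 : ∏ s ∈ I, d s = (∏ s ∈ I \ S, d s) * ∏ s ∈ S ∩ I, d s := by
    rw [← Finset.prod_sdiff (Finset.inter_subset_right : S ∩ I ⊆ I), Finset.sdiff_inter_self_right]
  have hne : ∏ s ∈ S ∩ I, d s ≠ 0 := Finset.prod_ne_zero_iff.2 fun s _ => hd s
  rw [h1, h2, h3, h4, mul_div_mul_right _ _ hne]
  have hcard : (S \ I).card = (I \ S).card := Finset.card_sdiff_comm (hSc.trans hIc.symm)
  set e := Finset.equivOfCardEq hcard with he
  have h5 : ∏ s ∈ S \ I, d s = ∏ s : (S \ I : Finset (Fin N)), d s :=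
    (Finset.prod_coe_sort _ _).symm
  have h6 : ∏ s ∈ I \ S, d s = ∏ s : (S \ I : Finset (Fin N)), d (e s) := by
    rw [Equiv.prod_comp e fun s => d (s : Fin N)]
    exact (Finset.prod_coe_sort _ _).symm
  rw [h5, h6, ← Finset.prod_div_distrib]
  refine prod_mem fun s _ => ?_
  obtain ⟨hs1, hs2⟩ := Finset.mem_sdiff.1 s.2
  obtain ⟨ht1, ht2⟩ := Finset.mem_sdiff.1 (e s).2
  generalize (e s : Fin N) = t at ht1 ht2
  generalize (s : Fin N) = s at hs1 hs2
  rw [hIm] at hs2 ht1
  have hts : t ≤ s := by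
    rw [Fin.le_def]
    omega
  refine hinc t s hts ?_
  refine le_antisymm (B.mono hts) ?_
  by_contra hlt
  push Not at hlt
  rw [hS, Finset.mem_image] at hs1
  obtain ⟨r, -, rfl⟩ := hs1
  rw [hb r] at hlt
  -- the block of t is contained in I
  have hblk : ∀ u : Fin N, B.b u = B.b t → (u : ℕ) < i := by
    intro u hu
    have h7 : u < Fin.castLE hi r := by
      by_contra h8
      have := B.mono (not_lt.1 h8)
      omega
    have h9 : (u : ℕ) < r := h7
    exact h9.trans r.2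
  let g : {u : Fin N // B.b u = B.b t} → {u : Fin N // B.b u = B.b t} := fun u =>
    ⟨f ⟨u.1, hblk u.1 u.2⟩, by rw [hb]; exact u.2⟩
  have hg : Function.Injective g := by
    intro u u' h
    have h7 := hf (congrArg Subtype.val h)
    have h8 := congrArg Fin.val h7
    exact Subtype.ext (Fin.ext h8)
  obtain ⟨u, hu⟩ := Finite.surjective_of_injective hg ⟨t, rfl⟩
  refine ht2 ?_
  rw [hS, Finset.mem_image]
  exact ⟨_, Finset.mem_univ _, congrArg Subtype.val hu⟩

theorem det_mem (O : ValuationSubring K) {i : ℕ} (M : Matrix (Fin i) (Fin i) K)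
    (h : ∀ p q, M p q ∈ O) : M.det ∈ O := by
  rw [Matrix.det_apply]
  refine sum_mem fun σ _ => ?_
  have h1 : ∏ p, M (σ p) p ∈ O := prod_mem fun p _ => h _ _
  rcases Int.units_eq_one_or (Equiv.Perm.sign σ) with h2 | h2
  · rw [h2, one_smul]
    exact h1
  · rw [h2, Units.neg_smul, one_smul]
    exact neg_mem h1

/-- leading minors of `A' D B'` are divisible by those of `D` -/
theorem mn_mem (O : ValuationSubring K) {i : ℕ} (hi : i ≤ N) (A' B' : Matrix (Fin N) (Fin N) K)
    (hA : B.IsBl A') (hA' : ∀ p q, A' p q ∈ O) (hB' : ∀ p q, B' p q ∈ O) (d : Fin N → K)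
    (hd : ∀ p, d p ≠ 0) (hinc : ∀ p q, p ≤ q → B.b p = B.b q → d q / d p ∈ O) :
    mn i hi (A' * Matrix.diagonal d * B') / ∏ r : Fin i, d (Fin.castLE hi r) ∈ O := by
  have h1 : mn i hi (A' * Matrix.diagonal d * B') =
      ((A'.submatrix (Fin.castLE hi) id * Matrix.diagonal d) *
        B'.submatrix id (Fin.castLE hi)).det := by
    unfold mn
    congr 1
  rw [h1, expand, Finset.sum_div]
  refine sum_mem fun f _ => ?_
  by_cases hf : Function.Injective f
  · by_cases hb : ∀ r, B.b (f r) = B.b (Fin.castLE hi r)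
    · have h2 : ∀ r, (A'.submatrix (Fin.castLE hi) id * Matrix.diagonal d) r (f r) =
          A' (Fin.castLE hi r) (f r) * d (f r) := by
        intro r
        rw [Matrix.mul_diagonal]
        rfl
      simp only [h2, Finset.prod_mul_distrib]
      have h3 : (∏ r, A' (Fin.castLE hi r) (f r)) * (∏ r, d (f r)) *
          ((B'.submatrix id (Fin.castLE hi)).submatrix f id).det /
            ∏ r : Fin i, d (Fin.castLE hi r) =
          (∏ r, A' (Fin.castLE hi r) (f r)) *
            ((B'.submatrix id (Fin.castLE hi)).submatrix f id).det *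
            ((∏ r, d (f r)) / ∏ r : Fin i, d (Fin.castLE hi r)) := by
        ring
      rw [h3]
      refine mul_mem (mul_mem (prod_mem fun r _ => hA' _ _) (det_mem O _ fun p q => hB' _ _)) ?_
      exact inj_prod O hi d hd hinc f hf hb
    · push Not at hb
      obtain ⟨r, hr⟩ := hb
      have h2 : ∏ r, (A'.submatrix (Fin.castLE hi) id * Matrix.diagonal d) r (f r) = 0 := by
        refine Finset.prod_eq_zero (Finset.mem_univ r) ?_
        rw [Matrix.mul_diagonal]
        have h3 : A' (Fin.castLE hi r) (f r) = 0 := hA _ _ hr.symm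
        show A' (Fin.castLE hi r) (f r) * d (f r) = 0
        rw [h3, zero_mul]
      rw [h2, zero_mul, zero_div]
      exact zero_mem _
  · rw [Function.not_injective_iff] at hf
    obtain ⟨r, r', hr, hne⟩ := hf
    have h2 : ((B'.submatrix id (Fin.castLE hi)).submatrix f id).det = 0 := by
      refine Matrix.det_zero_of_row_eq hne ?_
      ext c
      simp [Matrix.submatrix_apply, hr]
    rw [h2, mul_zero, zero_div]
    exact zero_mem _

/-- summation by parts -/
theorem abel (O : ValuationSubring K) (x : ℕ → K) (hx : ∀ r, x r ≠ 0) (μ : ℕ → ℤ) (n : ℕ)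
    (h : ∀ i < n, (∏ r ∈ Finset.range (i + 1), x r) ^ (μ i - μ (i + 1)) ∈ O) :
    (∏ r ∈ Finset.range n, x r ^ μ r) * (∏ r ∈ Finset.range n, x r) ^ (-μ n) ∈ O := by
  induction n with
  | zero => simp [one_mem]
  | succ n ih =>
    have h1 := ih fun i hi => h i (by omega)
    have h2 := mul_mem h1 (h n (by omega))
    have hP : ∏ r ∈ Finset.range n, x r ≠ 0 := Finset.prod_ne_zero_iff.2 fun r _ => hx r
    have h3 : (∏ r ∈ Finset.range (n + 1), x r ^ μ r) *
        (∏ r ∈ Finset.range (n + 1), x r) ^ (-μ (n + 1)) =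
        (∏ r ∈ Finset.range n, x r ^ μ r) * (∏ r ∈ Finset.range n, x r) ^ (-μ n) *
          (∏ r ∈ Finset.range (n + 1), x r) ^ (μ n - μ (n + 1)) := by
      rw [Finset.prod_range_succ, Finset.prod_range_succ _ n]
      set P := ∏ r ∈ Finset.range n, x r
      rw [mul_zpow, mul_zpow, sub_eq_add_neg, zpow_add₀ hP, zpow_add₀ (hx n)]
      have h4 : P ^ (-μ n) * P ^ μ n = 1 := by
        rw [← zpow_add₀ hP, neg_add_cancel, zpow_zero]
      calc _ = (∏ r ∈ Finset.range n, x r ^ μ r) * x n ^ μ n * (P ^ (-μ (n + 1)) *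
            x n ^ (-μ (n + 1))) * 1 := by ring
        _ = _ := by rw [← h4]; ring
    rw [h3]
    exact h2

/-! ### Translates of leading minors -/

theorem mn_map {i : ℕ} (hi : i ≤ N) (a : Matrix (Fin N) (Fin N) k) :
    mn i hi (a.map (algebraMap k K)) = algebraMap k K (mn i hi a) := by
  unfold mn
  rw [RingHom.map_det]
  rfl

theorem mn_ne {i : ℕ} (hi : i ≤ N) {a : Matrix (Fin N) (Fin N) k} (h0 : a.det ≠ 0)
    (h : ∀ p r : Fin N, (p : ℕ) < i → i ≤ (r : ℕ) → a p r = 0) : mn i hi a ≠ 0 := by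
  intro h1
  have h2 := mn_mul_left hi a a⁻¹ h
  rw [Matrix.mul_nonsing_inv _ (isUnit_iff_ne_zero.2 h0), mn_one, h1, zero_mul] at h2
  exact one_ne_zero h2

variable {C : GC k K B}

/-- quotients of the leading minors of a translate -/
theorem minor_quot {O : ValuationSubring K} (ha : Adm C O) {σ : K ≃ₐ[k] K} (hσ : C.Tra σ)
    {i : ℕ} (hi : i ≤ N) :
    (∏ r : Fin i, σ (C.d (Fin.castLE hi r)) / C.d (Fin.castLE hi r)) ∈ O ∧
      ((∀ p q : Fin N, (p : ℕ) < i → i ≤ (q : ℕ) → B.b p ≠ B.b q) →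
        (∏ r : Fin i, σ (C.d (Fin.castLE hi r)) / C.d (Fin.castLE hi r))⁻¹ ∈ O) := by
  obtain ⟨a, c, haG, hcG, hac⟩ := hσ
  have h1 : mn i hi (C.map σ).g = ∏ r : Fin i, σ (C.d (Fin.castLE hi r)) := by
    have h2 : (C.map σ).g = B.ldu (C.map σ).T := (C.map σ).hT.symm
    rw [h2, mn_ldu]
    rfl
  have h2 : mn i hi C.g = ∏ r : Fin i, C.d (Fin.castLE hi r) := by
    have h3 : C.g = B.ldu C.T := C.hT.symm
    rw [h3, mn_ldu]
    rfl
  have h3 : (C.map σ).g = a.map (algebraMap k K) * C.g * c.map (algebraMap k K) := hac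
  have hne : ∏ r : Fin i, C.d (Fin.castLE hi r) ≠ 0 :=
    Finset.prod_ne_zero_iff.2 fun r _ => d_ne C _
  rw [Finset.prod_div_distrib]
  constructor
  · have h4 : (C.map σ).g = (a.map (algebraMap k K) * C.L) * Matrix.diagonal C.d *
        (C.U * c.map (algebraMap k K)) := by
      rw [h3, g_eq C]
      simp only [Matrix.mul_assoc]
    rw [← h1, h4]
    refine mn_mem O hi _ _ (isBl_mul B ?_ (isBl_low B C.T)) ?_ ?_ C.d (d_ne C) ha.inc
    · intro p q hpq
      rw [Matrix.map_apply, haG.1 p q hpq, map_zero]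
    · intro p q
      rw [Matrix.mul_apply]
      exact sum_mem fun r _ => mul_mem (ha.const _) (ha.low _ _)
    · intro p q
      rw [Matrix.mul_apply]
      exact sum_mem fun r _ => mul_mem (ha.upp _ _) (ha.const _)
  · intro hb
    have h5 : mn i hi (C.map σ).g = algebraMap k K (mn i hi a) *
        (∏ r : Fin i, C.d (Fin.castLE hi r)) * algebraMap k K (mn i hi c) := by
      rw [h3, mn_mul_right, mn_mul_left, mn_map, mn_map, h2]
      · intro p r hp hr
        rw [Matrix.map_apply, haG.1 p r (hb p r hp hr), map_zero]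
      · intro r q hr hq
        rw [Matrix.map_apply, hcG.1 r q (hb q r hq hr).symm, map_zero]
    have ha0 : mn i hi a ≠ 0 := mn_ne hi haG.2 fun p r hp hr => haG.1 p r (hb p r hp hr)
    have hc0 : mn i hi c ≠ 0 := mn_ne hi hcG.2 fun p r hp hr => hcG.1 p r (hb p r hp hr)
    rw [← h1, h5]
    have h6 : (algebraMap k K (mn i hi a) * (∏ r : Fin i, C.d (Fin.castLE hi r)) *
        algebraMap k K (mn i hi c) / ∏ r : Fin i, C.d (Fin.castLE hi r))⁻¹ =
        algebraMap k K (mn i hi a)⁻¹ * algebraMap k K (mn i hi c)⁻¹ := by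
      rw [map_inv₀, map_inv₀]
      have ha1 : algebraMap k K (mn i hi a) ≠ 0 := by simpa using ha0
      have hc1 : algebraMap k K (mn i hi c) ≠ 0 := by simpa using hc0
      field_simp
    rw [h6]
    exact mul_mem (ha.const _) (ha.const _)

theorem zpow_mem_of {O : ValuationSubring K} {x : K} {n : ℤ} (h : x ∈ O) (h' : n < 0 → x⁻¹ ∈ O) :
    x ^ n ∈ O := by
  rcases lt_or_ge n 0 with hn | hn
  · obtain ⟨j, hj⟩ := Int.eq_ofNat_of_zero_le (a := -n) (by omega)
    have h1 : x ^ n = x⁻¹ ^ j := by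
      rw [← zpow_natCast, ← hj, inv_zpow', neg_neg]
    rw [h1]
    exact pow_mem (h' hn) j
  · obtain ⟨j, hj⟩ := Int.eq_ofNat_of_zero_le hn
    rw [hj, zpow_natCast]
    exact pow_mem h j

end Cb

section CB

variable {C : GC k K B}

theorem dm_integral {O : ValuationSubring K} (ha : Adm C O) {σ : K ≃ₐ[k] K} (hσ : C.Tra σ)
    {μ : Fin N → ℤ} (hμ : B.Dom μ) : σ (C.dm μ) / C.dm μ ∈ O := by
  set x : ℕ → K := fun r => if h : r < N then σ (C.d ⟨r, h⟩) / C.d ⟨r, h⟩ else 1 with hxd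
  set ν : ℕ → ℤ := fun r => if h : r < N then μ ⟨r, h⟩ else 0 with hνd
  have hx : ∀ r, x r ≠ 0 := by
    intro r
    rw [hxd]
    dsimp only
    split_ifs with h
    · exact div_ne_zero (by simpa using d_ne C ⟨r, h⟩) (d_ne C _)
    · exact one_ne_zero
  have hP : ∀ i (hi : i ≤ N), ∏ r ∈ Finset.range i, x r =
      ∏ r : Fin i, σ (C.d (Fin.castLE hi r)) / C.d (Fin.castLE hi r) := by
    intro i hi
    rw [Finset.prod_range]
    refine Finset.prod_congr rfl fun r _ => ?_
    rw [hxd]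
    dsimp only
    rw [dif_pos (lt_of_lt_of_le r.2 hi)]
    rfl
  have h := Cb.abel O x hx ν N (by
    intro i hi
    rw [hP (i + 1) hi]
    obtain ⟨h1, h2⟩ := Cb.minor_quot ha hσ (i := i + 1) hi
    refine Cb.zpow_mem_of h1 fun h3 => h2 ?_
    intro p q hp hq hpq
    -- the block does not end after the index i
    have h4 : i + 1 < N := lt_of_le_of_lt hq q.2
    have h5 : ν (i + 1) = μ ⟨i + 1, h4⟩ := by
      rw [hνd]
      dsimp only
      rw [dif_pos h4]
    have h6 : ν i = μ ⟨i, hi⟩ := by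
      rw [hνd]
      dsimp only
      rw [dif_pos hi]
    have h7 : B.b ⟨i, hi⟩ = B.b ⟨i + 1, h4⟩ := by
      have h8 : B.b p ≤ B.b ⟨i, hi⟩ := B.mono (Fin.le_def.2 (by simp only; omega))
      have h9 : B.b ⟨i, hi⟩ ≤ B.b ⟨i + 1, h4⟩ := B.mono (Fin.le_def.2 (by simp only; omega))
      have h10 : B.b ⟨i + 1, h4⟩ ≤ B.b q := B.mono (Fin.le_def.2 (by simp only; omega))
      omega
    have h8 := hμ ⟨i, hi⟩ ⟨i + 1, h4⟩ (Fin.le_def.2 (by simp only; omega)) h7
    rw [h5, h6] at h3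
    omega)
  have hN : ν N = 0 := by
    rw [hνd]
    dsimp only
    rw [dif_neg (lt_irrefl N)]
  rw [hN, neg_zero, zpow_zero, mul_one, Finset.prod_range] at h
  have h1 : σ (C.dm μ) / C.dm μ = ∏ r : Fin N, x r ^ ν r := by
    unfold GC.dm
    rw [map_prod, ← Finset.prod_div_distrib]
    refine Finset.prod_congr rfl fun p _ => ?_
    rw [hxd, hνd]
    dsimp only
    rw [dif_pos p.2, dif_pos p.2, map_zpow₀, div_zpow]
  rw [h1]
  exact h

/-- the frame which is adapted to `v` -/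
theorem Cb.lam_adm {v : DVal k K} {l : Fin N → ℤ} {σ : K ≃ₐ[k] K}
    (hL : ∀ p q, v.Integral ((C.map σ).L p q)) (hU : ∀ p q, v.Integral ((C.map σ).U p q))
    (hd : ∀ p, v.ord ((C.map σ).d p) = l p) (hl : B.Inc l) : Adm (C.map σ) (vs v) where
  const := fun c => (mem_vs v _).2 (Pool.Agent.MLD.Ten.LB_algebraMap v c)
  low := fun p q => (mem_vs v _).2 (hL p q)
  upp := fun p q => (mem_vs v _).2 (hU p q)
  inc := fun p q hpq hb => by
    rw [mem_vs]
    intro _
    rw [Pool.Agent.MLD.Ten.ord_div v _ _ (d_ne _ _) (d_ne _ _), hd, hd]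
    have := hl p q hpq hb
    omega

theorem Cb.ord_dm_eq {v : DVal k K} {l : Fin N → ℤ} {C' : GC k K B} (hd : ∀ p, v.ord (C'.d p) = l p)
    (μ : Fin N → ℤ) : v.ord (C'.dm μ) = l ⬝ᵥ μ := by
  rw [ord_dm]
  unfold dotProduct
  refine Finset.sum_congr rfl fun p _ => ?_
  rw [hd, mul_comm]

theorem lam_le {v : DVal k K} {l : Fin N → ℤ} (h : Lam C v l) {σ : K ≃ₐ[k] K} (hσ : C.Tra σ)
    {μ : Fin N → ℤ} (hμ : B.Dom μ) : l ⬝ᵥ μ ≤ v.ord (σ (C.dm μ)) := by
  obtain ⟨σ₀, hσ₀, hL, hU, hd, hl⟩ := h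
  have hτ : C.Tra (σ₀.symm.trans σ) := tra_trans C (tra_symm C hσ₀) hσ
  have hτ' : (C.map σ₀).Tra (σ₀.symm.trans σ) := (tra_map hσ₀ _).2 hτ
  have h1 := (mem_vs v _).1 (dm_integral (Cb.lam_adm hL hU hd hl) hτ' hμ)
  have h2 : (σ₀.symm.trans σ) ((C.map σ₀).dm μ) = σ (C.dm μ) := by
    rw [map_dm, AlgEquiv.trans_apply, AlgEquiv.symm_apply_apply]
  rw [h2] at h1
  have h3 : σ (C.dm μ) ≠ 0 := by simpa using dm_ne C μ
  have h4 := h1 (div_ne_zero h3 (dm_ne _ _))
  rw [Pool.Agent.MLD.Ten.ord_div v _ _ h3 (dm_ne _ _), Cb.ord_dm_eq hd] at h4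
  omega

theorem lam_unique {v : DVal k K} {l l' : Fin N → ℤ} (h : Lam C v l) (h' : Lam C v l') :
    l = l' := by
  have key : ∀ {l l' : Fin N → ℤ}, Lam C v l → Lam C v l' → ∀ μ, B.Dom μ → l ⬝ᵥ μ ≤ l' ⬝ᵥ μ := by
    intro l l' h h' μ hμ
    obtain ⟨σ₀, hσ₀, hL, hU, hd, hl⟩ := h'
    have h1 := lam_le h hσ₀ hμ
    rwa [← map_dm, Cb.ord_dm_eq hd] at h1
  have heq : ∀ μ, B.Dom μ → l ⬝ᵥ μ = l' ⬝ᵥ μ := fun μ hμ => le_antisymm (key h h' μ hμ)
    (key h' h μ hμ)
  ext p
  have h1 := heq (fun q => if q ≤ p then 1 else 0) (by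
    intro q r hqr _
    dsimp only
    split_ifs with h2 h3
    · exact le_rfl
    · exact absurd (hqr.trans h2) h3
    · exact zero_le_one
    · exact le_rfl)
  have h2 := heq (fun q => if q < p then 1 else 0) (by
    intro q r hqr _
    dsimp only
    split_ifs with h2 h3
    · exact le_rfl
    · exact absurd (hqr.trans_lt h2) h3
    · exact zero_le_one
    · exact le_rfl)
  have h3 : ∀ l : Fin N → ℤ, (l ⬝ᵥ fun q => if q ≤ p then (1 : ℤ) else 0) -
      (l ⬝ᵥ fun q => if q < p then (1 : ℤ) else 0) = l p := by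
    intro l
    rw [← dotProduct_sub]
    have h4 : ((fun q => if q ≤ p then (1 : ℤ) else 0) - fun q => if q < p then (1 : ℤ) else 0) =
        Pi.single p 1 := by
      ext q
      simp only [Pi.sub_apply]
      rcases lt_trichotomy q p with h5 | h5 | h5
      · rw [if_pos h5.le, if_pos h5, sub_self, Pi.single_eq_of_ne h5.ne]
      · subst h5
        rw [if_pos le_rfl, if_neg (lt_irrefl _), sub_zero, Pi.single_eq_same]
      · rw [if_neg (not_le.2 h5), if_neg (not_lt.2 h5.le), sub_self, Pi.single_eq_of_ne h5.ne']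
    rw [h4, dotProduct_single, mul_one]
  rw [← h3 l, ← h3 l', h1, h2]

theorem zof_adm {A : Subalgebra k K} (hA : IsEmb C A) {p : Ideal A} {O : ValuationSubring K}
    (hc : Cen O A p) (ha : Adm C O) (μ : Fin N → ℤ) :
    μ ∈ Zof C p ↔ μ ∈ Gam C A ∧ (C.dm μ)⁻¹ ∈ O := by
  constructor
  · rintro ⟨hμ, σ, hσ, a, hσa, hap⟩
    refine ⟨hμ, ?_⟩
    rw [hc.2, not_or, not_not] at hap
    have h1 := mul_mem hap.2 (dm_integral ha hσ hμ.1)
    have h2 : (a : K)⁻¹ * (σ (C.dm μ) / C.dm μ) = (C.dm μ)⁻¹ := by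
      rw [← hσa]
      have h3 : (a : K) ≠ 0 := hap.1
      field_simp
    rwa [h2] at h1
  · rintro ⟨hμ, h⟩
    refine ⟨hμ, AlgEquiv.refl, tra_refl C, ⟨C.dm μ, hμ.2⟩, rfl, ?_⟩
    rw [hc.2, not_or, not_not]
    exact ⟨dm_ne C μ, h⟩

theorem Cb.cen_vs {A : Subalgebra k K} {p : Ideal A} {v : DVal k K} (hc : v.HasCenter A p) :
    Cen (vs v) A p := by
  refine ⟨fun a => (mem_vs v _).2 (hc.1 a), fun a => ?_⟩
  rw [hc.2, mem_vs]
  by_cases h : (a : K) = 0
  · refine ⟨fun _ => Or.inl h, fun _ h' => absurd h h'⟩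
  · constructor
    · intro h1
      refine Or.inr fun h2 => ?_
      have h3 := h2 (inv_ne_zero h)
      rw [Pool.Agent.MLD.Jac.ord_inv v _ h] at h3
      have := h1 h
      omega
    · rintro (h1 | h1)
      · exact absurd h1 h
      · intro _
        by_contra h2
        refine h1 fun _ => ?_
        rw [Pool.Agent.MLD.Jac.ord_inv v _ h]
        omega

theorem gam_lam {A : Subalgebra k K} (hA : IsEmb C A) {p : Ideal A} {v : DVal k K}
    (hc : v.HasCenter A p) {l : Fin N → ℤ} (h : Lam C v l) : ∀ μ ∈ Gam C A, 0 ≤ l ⬝ᵥ μ := by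
  intro μ hμ
  obtain ⟨σ₀, hσ₀, hL, hU, hd, hl⟩ := h
  rw [← gam_map hσ₀ hA] at hμ
  have h1 := hc.1 ⟨(C.map σ₀).dm μ, hμ.2⟩ (dm_ne _ _)
  rwa [Cb.ord_dm_eq hd] at h1

theorem zof_lam {A : Subalgebra k K} (hA : IsEmb C A) {p : Ideal A} {v : DVal k K}
    (hc : v.HasCenter A p) {l : Fin N → ℤ} (h : Lam C v l) (μ : Fin N → ℤ) :
    μ ∈ Zof C p ↔ μ ∈ Gam C A ∧ l ⬝ᵥ μ = 0 := by
  have h0 := gam_lam hA hc h
  obtain ⟨σ₀, hσ₀, hL, hU, hd, hl⟩ := h
  rw [← zof_map hσ₀ hA p, zof_adm (emb_map hσ₀ hA) (Cb.cen_vs hc) (Cb.lam_adm hL hU hd hl) μ,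
    gam_map hσ₀ hA]
  refine and_congr_right fun hμ => ?_
  rw [mem_vs]
  have h1 := h0 μ hμ
  constructor
  · intro h2
    have h3 := h2 (inv_ne_zero (dm_ne _ _))
    rw [Pool.Agent.MLD.Jac.ord_inv v _ (dm_ne _ _), Cb.ord_dm_eq hd] at h3
    omega
  · intro h2 _
    rw [Pool.Agent.MLD.Jac.ord_inv v _ (dm_ne _ _), Cb.ord_dm_eq hd]
    omega

end CB

end

end Pool.Agent.MLD.Mon
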