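import Pool.Agent.Lib.MP_f23696_ag.M.ColE

/-!
# The colours (module COL of project MON)
-/

set_option autoImplicit false

open scoped Classical

namespace Pool.Agent.MLD.Mon

open MvPolynomial
open Pool.Agent.MLD.Ten (IsGood)

noncomputable section

universe u v w

variable {N m : ℕ} {B : Blk N m} {k : Type u} {K : Type v} [Field k] [Field K] [Algebra k K]

variable {C : GC k K B} {A : Subalgebra k K}

namespace Col

/-- the order of weights given by an adapted valuation ring -/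
def ordO {O : ValuationSubring K} (ha : Adm C O) : Ord B where
  P :=
    { carrier := {μ | C.dm μ ∈ O}
      add_mem' := fun {a b} h h' => by
        show C.dm (a + b) ∈ O
        rw [dm_add]
        exact O.mul_mem _ _ h h'
      zero_mem' := by
        show C.dm 0 ∈ O
        rw [dm_zero]
        exact O.one_mem }
  total := fun μ => by
    show C.dm μ ∈ O ∨ C.dm (-μ) ∈ O
    rw [dm_neg]
    exact O.mem_or_inv_mem _
  cham := fun p q h hb => by
    show C.dm (Pi.single q (1 : ℤ) - Pi.single p (1 : ℤ)) ∈ O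
    rw [sub_eq_add_neg, dm_add, dm_neg, dm_single, dm_single, ← div_eq_mul_inv]
    exact ha.inc p q h hb

theorem mem_ordO {O : ValuationSubring K} (ha : Adm C O) (μ : Fin N → ℤ) :
    μ ∈ (ordO ha).P ↔ C.dm μ ∈ O := Iff.rfl

/-- the centre of `v` -/
def cenI (v : DVal k K) (h : ∀ a : A, v.Integral (a : K)) : Ideal A where
  carrier := {a | v.Small (a : K)}
  add_mem' := fun {a b} ha hb => Jac.LB.add (v := v) (N := 1) ha hb
  zero_mem' := fun h => absurd rfl h
  smul_mem' := fun c a ha => by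
    have := Jac.LB.mul (v := v) (M := 0) (N := 1) (h c) ha
    rwa [zero_add] at this

end Col

variable [IsAlgClosed k] [CharZero k]

omit [IsAlgClosed k] [CharZero k] in
theorem ht_one (hA : IsGood A) {q : Ideal A} {v : DVal k K} (hv : v.HasCenter A q)
    (h : ∀ f : K, f ≠ 0 → 0 ≤ v.ord f → ∃ s : A, s ∉ q ∧ (s : K) * f ∈ A) : IsHeightOne q :=
  Col.ht_one hA hv h

theorem color (hA : IsEmb C A) (X : XData C A) (y : MaximalSpectrum A) {O : ValuationSubring K}
    (hc : Cen O A y.asIdeal) (ha : Adm C O) (hy : IsLim C (Zof C y.asIdeal) y.asIdeal)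
    {p q : Fin N} (hpq : (p : ℕ) + 1 = q) (hf : Flat B (Zof C y.asIdeal) p q) :
    ∃ (i : Ideal A) (v : DVal k K), IsHeightOne i ∧ IntrI C i ∧ i ≤ y.asIdeal ∧
      v.HasCenter A i ∧ ∀ μ : Fin N → ℤ, v.ord (C.dm μ) = μ p - μ q := by
  have : Infinite k := inferInstance
  have hb := hf.1
  have hlt : p < q := by rw [Fin.lt_def]; omega
  have hw : B.IsG (Matrix.swap k p q) := by
    refine isG_perm (k := k) (Equiv.swap p q) fun r => ?_
    rw [Equiv.swap_apply_def]
    split_ifs with h1 h2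
    · rw [h1, hb]
    · rw [h2, hb]
    · rfl
  obtain ⟨σ, hσ⟩ := exists_tr C hw (isG_one (B := B) (k := k))
  obtain ⟨v, hv⟩ := Col.exists_v (C.map σ) (B.ix q p hb.symm)
  have hint : ∀ a : A, v.Integral (a : K) := fun a =>
    Col.integral_of_reg hlt hb hσ hv (emb_reg hA a a.2)
  obtain ⟨i, hi⟩ : ∃ i : Ideal A, ∀ a : A, a ∈ i ↔ v.Small (a : K) :=
    ⟨Col.cenI v hint, fun a => Iff.rfl⟩
  have hcen : v.HasCenter A i := ⟨hint, hi⟩
  have hnv : ∀ a ∈ i, ¬ C.NV (Matrix.swap k p q) (a : K) := fun a ha' =>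
    Col.not_nv hb hσ hv ((hi a).1 ha') hlt
  refine ⟨i, v, ?_, ⟨_, hw, hnv⟩, ?_, hcen, ?_⟩
  · -- height one
    obtain ⟨a, ha1, ha2⟩ := emb_loc hA hw
    have hai : a ∉ i := fun h => hnv a h ha1
    obtain ⟨ha0, ha3⟩ := Ten.ord_eq_zero_of v (hint a) (fun h => hai ((hi a).2 h))
    refine ht_one hA.good hcen fun f h0 hf0 => ?_
    obtain ⟨r, s, hr, hs, hs0, hs1, h1⟩ := Col.fr_of_nonneg hlt hb hσ hv h0 hf0
    obtain ⟨n₁, h2⟩ := ha2 s hs
    obtain ⟨n₂, h3⟩ := ha2 r hr
    refine ⟨a ^ n₂ * ⟨_, h2⟩, ?_, ?_⟩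
    · rw [hi]
      have h4 : ((a ^ n₂ * ⟨(a : K) ^ n₁ * s, h2⟩ : A) : K) = (a : K) ^ n₂ * ((a : K) ^ n₁ * s) :=
        rfl
      rw [h4]
      refine Ten.not_small_of v (mul_ne_zero (pow_ne_zero _ ha0)
        (mul_ne_zero (pow_ne_zero _ ha0) hs0)) ?_
      rw [v.ord_mul _ _ (pow_ne_zero _ ha0) (mul_ne_zero (pow_ne_zero _ ha0) hs0),
        v.ord_mul _ _ (pow_ne_zero _ ha0) hs0, Jac.ord_pow v _ ha0, Jac.ord_pow v _ ha0, ha3, hs1]
      ring
    · have h4 : ((a ^ n₂ * ⟨(a : K) ^ n₁ * s, h2⟩ : A) : K) * f =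
          (a : K) ^ n₁ * ((a : K) ^ n₂ * r) := by
        rw [← h1]
        change (a : K) ^ n₂ * ((a : K) ^ n₁ * s) * f = _
        ring
      rw [h4]
      exact A.mul_mem (A.pow_mem a.2 _) h3
  · -- the closed point lies on the divisor
    intro f hfi
    obtain ⟨n, P, hP⟩ := emb_reg hA f f.2
    have hsm := (hi f).1 hfi
    have h1 := hy f n P hP
    have hlim : B.lim (AddSubgroup.closure (Zof C y.asIdeal)) n P = 0 := by
      rw [Blk.lim]
      refine Finset.sum_eq_zero fun s₀ hs₀ => ?_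
      exfalso
      rw [Finset.mem_filter] at hs₀
      obtain ⟨hs₀, hD, hκ⟩ := hs₀
      obtain ⟨κ, hκd⟩ : ∃ κ, κ = B.dg s₀ - fun _ => (n : ℤ) := ⟨_, rfl⟩
      rw [← hκd] at hκ
      have hκpq := flat_closure hf hκ
      have hflat : s₀ (B.dx p) = s₀ (B.dx q) := by
        rw [hκd] at hκpq
        have h2 : (s₀ (B.dx p) : ℤ) - n = s₀ (B.dx q) - n := hκpq
        omega
      obtain ⟨Q, δ, hδ, hQ, hQs⟩ := Col.small_poly hb hσ hv hsm hP hlt
      refine Col.coeff_zero hlt hb P Q δ hδ hQ hQs s₀ hs₀ hD hflat ?_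
      intro s hs hij hr
      obtain ⟨j, hj⟩ : ∃ j, j = s (B.ix p q hb) := ⟨_, rfl⟩
      rw [← hj] at hr ⊢
      obtain ⟨ν, hνd⟩ : ∃ ν, ν = B.dg s - fun _ => (n : ℤ) := ⟨_, rfl⟩
      have hνX : ν ∈ SX B X.Q X.x := by
        rw [hνd]
        exact exp_mem hA X f.2 hP (ee_supp hs)
      have hG : GamX B X.Q X.x ⊆ (Col.ordO ha).P := by
        intro μ hμ
        rw [SetLike.mem_coe, Col.mem_ordO]
        exact hc.1 ⟨_, ((X.gam μ).2 hμ).2⟩
      have hνP : ν ∈ (Col.ordO ha).P := sx_sub (Col.ordO ha) hG hνX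
      have hZ : AddSubgroup.closure (Zof C y.asIdeal) ≤ (Col.ordO ha).zero := by
        rw [AddSubgroup.closure_le]
        intro μ hμ
        have h2 := (zof_adm hA hc ha μ).1 hμ
        refine ⟨hc.1 ⟨_, h2.1.2⟩, ?_⟩
        rw [Col.mem_ordO, dm_neg]
        exact h2.2
      have hκ0 : κ ∈ (Col.ordO ha).P ∧ -κ ∈ (Col.ordO ha).P := hZ hκ
      have hcham : j • (Pi.single q (1 : ℤ) - Pi.single p (1 : ℤ)) ∈ (Col.ordO ha).P :=
        AddSubmonoid.nsmul_mem _ ((Col.ordO ha).cham p q hlt.le hb) j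
      have hνκ : -ν = -κ + j • (Pi.single q (1 : ℤ) - Pi.single p (1 : ℤ)) := by
        funext r
        have h2 := hr r
        have h5 : (j • (Pi.single q (1 : ℤ) - Pi.single p (1 : ℤ)) : Fin N → ℤ) r =
            j * ((if r = q then 1 else 0) - (if r = p then 1 else 0)) := by
          rw [Pi.smul_apply, Pi.sub_apply, Pi.single_apply, Pi.single_apply, nsmul_eq_mul]
        rw [hνd, hκd, Pi.add_apply, h5]
        show -((s (B.dx r) : ℤ) - n) = -((s₀ (B.dx r) : ℤ) - n) + _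
        by_cases hrp : r = p
        · rw [if_pos hrp, if_neg (by rw [hrp]; exact hlt.ne)] at h2 ⊢
          linarith
        · by_cases hrq : r = q
          · rw [if_neg hrp, if_pos hrq] at h2 ⊢
            linarith
          · rw [if_neg hrp, if_neg hrq] at h2 ⊢
            linarith
      have hν0 : ν ∈ (Col.ordO ha).zero := by
        refine ⟨hνP, ?_⟩
        rw [hνκ]
        exact (Col.ordO ha).P.add_mem hκ0.2 hcham
      have hνZ := sx_zero X.mon (Col.ordO ha) hG hνX hν0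
      have hνZ' : ν ∈ AddSubgroup.closure (Zof C y.asIdeal) := by
        refine AddSubgroup.closure_mono ?_ hνZ
        rintro μ ⟨hμ1, hμ2⟩
        rw [zof_adm hA hc ha μ]
        refine ⟨(X.gam μ).2 hμ1, ?_⟩
        have h2 : -μ ∈ (Col.ordO ha).P := hμ2.2
        rwa [Col.mem_ordO, dm_neg] at h2
      have hνpq := flat_closure hf hνZ'
      have h2 := hr p
      have h3 := hr q
      rw [if_neg hlt.ne, if_pos rfl] at h2
      rw [if_pos rfl, if_neg hlt.ne'] at h3
      rw [hνd] at hνpq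
      have h4 : (s (B.dx p) : ℤ) - n = s (B.dx q) - n := hνpq
      omega
    rw [hlim, map_zero, sub_zero] at h1
    exact h1
  · -- the orders of the monomials
    intro μ
    have hl : (C.map σ).T (B.ix q p hb.symm) ≠ 0 := Col.T_ne _ _
    have hd : ∀ r, v.ord (C.d r) = (if r = p then 1 else 0) - (if r = q then 1 else 0) := by
      intro r
      rw [Col.pivots hpq hb hσ hl r, Col.dd]
      have hdr := fun r => Col.ord_d hlt hb hv r
      have hd0 := fun r => d_ne (C.map σ) r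
      by_cases h1 : r = p
      · rw [if_pos h1, if_pos h1, if_neg (by rw [h1]; exact hlt.ne), v.ord_mul _ _ hl (hd0 p),
          hv.ord_T, if_pos rfl, hdr]
        rfl
      · rw [if_neg h1, if_neg h1]
        by_cases h2 : r = q
        · rw [if_pos h2, if_pos h2, Ten.ord_neg v _ (div_ne_zero (hd0 q) hl),
            Ten.ord_div v _ _ (hd0 q) hl, hv.ord_T, if_pos rfl, hdr]
        · rw [if_neg h2, if_neg h2, hdr]
          rfl
    rw [ord_dm]
    simp only [hd, mul_sub, mul_ite, mul_one, mul_zero, Finset.sum_sub_distrib]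
    rw [Finset.sum_ite_eq' Finset.univ p, Finset.sum_ite_eq' Finset.univ q,
      if_pos (Finset.mem_univ _), if_pos (Finset.mem_univ _)]

end

end Pool.Agent.MLD.Mon
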