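import Pool.Agent.Lib.MP_f23696_ag.M.Ctx

/-!
# Matrices and height one primes for the colours (module COL of project MON)
-/

set_option autoImplicit false

open scoped Classical

namespace Pool.Agent.MLD.Mon

open MvPolynomial
open Pool.Agent.MLD.Ten (IsGood)

noncomputable section

universe u v w

variable {N m : ℕ} {B : Blk N m} {k : Type u} {K : Type v} [Field k] [Field K] [Algebra k K]

namespace Col

variable {A : Subalgebra k K}

theorem ht_one (hA : IsGood A) {q : Ideal A} {v : DVal k K} (hv : v.HasCenter A q)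
    (h : ∀ f : K, f ≠ 0 → 0 ≤ v.ord f → ∃ s : A, s ∉ q ∧ (s : K) * f ∈ A) : IsHeightOne q := by
  have hc : ∀ a : A, (a : K) = 0 ↔ a = 0 := fun a => by
    rw [← Subalgebra.coe_zero A, Subtype.coe_inj]
  refine ⟨⟨?_, ?_⟩, ?_, ?_⟩
  · rw [Ideal.ne_top_iff_one, hv.2]
    exact Ten.small_one v
  · intro a b hab
    by_contra hn
    rw [not_or, hv.2, hv.2] at hn
    obtain ⟨ha0, ha⟩ := Ten.ord_eq_zero_of v (hv.1 a) hn.1
    obtain ⟨hb0, hb⟩ := Ten.ord_eq_zero_of v (hv.1 b) hn.2
    have h1 := (hv.2 (a * b)).1 hab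
    have h2 : ((a * b : A) : K) = a * b := rfl
    rw [h2] at h1
    have h3 := h1 (mul_ne_zero ha0 hb0)
    rw [v.ord_mul _ _ ha0 hb0, ha, hb] at h3
    omega
  · intro hq
    obtain ⟨a, ha0, ha⟩ := v.exists_ord_eq_one
    obtain ⟨x, z, hz, hxz⟩ := hA.frac a
    have hx : (x : K) ≠ 0 := by
      rintro h0
      rw [hxz, h0, zero_div] at ha0
      exact ha0 rfl
    have h1 : v.ord (x : K) = 1 + v.ord (z : K) := by
      have := Ten.ord_div v (x : K) z hx hz
      rw [← hxz, ha] at this
      omega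
    have h2 : x ∈ q := by
      rw [hv.2]
      intro _
      have := hv.1 z hz
      omega
    rw [hq, Ideal.mem_bot] at h2
    exact hx ((hc x).2 h2)
  · intro q' hq' hne hle
    refine le_antisymm hle fun c hcq => ?_
    obtain ⟨b, hb, hb0⟩ := Submodule.exists_mem_ne_zero_of_ne_bot hne
    by_cases hc0 : (c : K) = 0
    · rw [(hc c).1 hc0]
      exact q'.zero_mem
    have hb0' : (b : K) ≠ 0 := fun e => hb0 ((hc b).1 e)
    have h1 := (hv.2 c).1 hcq hc0
    obtain ⟨n, hn⟩ : ∃ n : ℕ, v.ord (b : K) ≤ n := ⟨(v.ord (b : K)).toNat, Int.self_le_toNat _⟩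
    have h2 : 0 ≤ v.ord ((c : K) ^ n / b) := by
      rw [Ten.ord_div v _ _ (pow_ne_zero _ hc0) hb0', Jac.ord_pow v _ hc0]
      nlinarith
    obtain ⟨s, hs, hsf⟩ := h _ (div_ne_zero (pow_ne_zero _ hc0) hb0') h2
    have h3 : s * c ^ n ∈ q' := by
      have h4 : s * c ^ n = ⟨_, hsf⟩ * b := by
        apply Subtype.ext
        change (s : K) * (c : K) ^ n = (s : K) * ((c : K) ^ n / b) * b
        field_simp
      rw [h4]
      exact q'.mul_mem_left _ hb
    rcases hq'.mem_or_mem h3 with h4 | h4
    · exact absurd (hle h4) hs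
    · exact hq'.mem_of_pow_mem _ h4

/-! ### matrices -/

section mat

variable {R : Type v} [CommRing R]

theorem mat_hom {S : Type w} [CommRing S] (f : R →+* S) (y : Fin (m + 1) → R) :
    B.mat (fun i => f (y i)) = (B.mat y).map f := by
  ext p q
  simp only [Blk.mat, Matrix.map_apply]
  split_ifs
  · rfl
  · rw [map_zero]

theorem ldu_hom {S : Type w} [CommRing S] (f : R →+* S) (y : Fin (m + 1) → R) :
    B.ldu (fun i => f (y i)) = (B.ldu y).map f := by
  have h1 : B.low (fun i => f (y i)) = (B.low y).map f := by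
    ext p q
    simp only [Blk.low, Matrix.map_apply]
    split_ifs
    · rw [map_one]
    · rw [mat_hom]; rfl
    · rw [map_zero]
  have h2 : B.upp (fun i => f (y i)) = (B.upp y).map f := by
    ext p q
    simp only [Blk.upp, Matrix.map_apply]
    split_ifs
    · rw [map_one]
    · rw [mat_hom]; rfl
    · rw [map_zero]
  have h3 : Matrix.diagonal (B.dia fun i => f (y i)) = (Matrix.diagonal (B.dia y)).map f := by
    rw [Matrix.diagonal_map (map_zero f)]
    rfl
  rw [Blk.ldu, Blk.ldu, h1, h2, h3, Matrix.map_mul, Matrix.map_mul]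

/-- lower unipotent -/
def LowU (M : Matrix (Fin N) (Fin N) R) : Prop := (∀ p, M p p = 1) ∧ ∀ p q, p < q → M p q = 0

/-- upper unipotent -/
def UppU (M : Matrix (Fin N) (Fin N) R) : Prop := (∀ p, M p p = 1) ∧ ∀ p q, q < p → M p q = 0

theorem LowU.mul {M M' : Matrix (Fin N) (Fin N) R} (h : LowU M) (h' : LowU M') :
    LowU (M * M') := by
  constructor
  · intro p
    rw [Matrix.mul_apply, Finset.sum_eq_single p]
    · rw [h.1, h'.1, mul_one]
    · intro r _ hr
      rcases lt_or_gt_of_ne hr with hr | hr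
      · rw [h'.2 r p hr, mul_zero]
      · rw [h.2 p r hr, zero_mul]
    · intro hp
      exact absurd (Finset.mem_univ p) hp
  · intro p q hpq
    rw [Matrix.mul_apply]
    refine Finset.sum_eq_zero fun r _ => ?_
    rcases lt_or_ge p r with hr | hr
    · rw [h.2 p r hr, zero_mul]
    · rw [h'.2 r q (lt_of_le_of_lt hr hpq), mul_zero]

theorem UppU.mul {M M' : Matrix (Fin N) (Fin N) R} (h : UppU M) (h' : UppU M') :
    UppU (M * M') := by
  constructor
  · intro p
    rw [Matrix.mul_apply, Finset.sum_eq_single p]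
    · rw [h.1, h'.1, mul_one]
    · intro r _ hr
      rcases lt_or_gt_of_ne hr with hr | hr
      · rw [h.2 p r hr, zero_mul]
      · rw [h'.2 r p hr, mul_zero]
    · intro hp
      exact absurd (Finset.mem_univ p) hp
  · intro p q hpq
    rw [Matrix.mul_apply]
    refine Finset.sum_eq_zero fun r _ => ?_
    rcases lt_or_ge r p with hr | hr
    · rw [h.2 p r hr, zero_mul]
    · rw [h'.2 r q (lt_of_lt_of_le hpq hr), mul_zero]

theorem lowU_low (y : Fin (m + 1) → R) : LowU (B.low y) := by
  constructor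
  · intro p
    rw [Blk.low, if_pos rfl]
  · intro p q h
    rw [Blk.low, if_neg h.ne, if_neg (not_lt.2 h.le)]

theorem uppU_upp (y : Fin (m + 1) → R) : UppU (B.upp y) := by
  constructor
  · intro p
    rw [Blk.upp, if_pos rfl]
  · intro p q h
    rw [Blk.upp, if_neg h.ne', if_neg (not_lt.2 h.le)]

/-- coordinates of a triangular decomposition -/
theorem exists_ldu (L U : Matrix (Fin N) (Fin N) R) (d : Fin N → R) (hL : LowU L) (hU : UppU U)
    (hLb : B.IsBl L) (hUb : B.IsBl U) :
    ∃ y : Fin (m + 1) → R, B.low y = L ∧ B.upp y = U ∧ B.dia y = d := by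
  refine ⟨fun i => if B.cl i < B.rw i then L (B.rw i) (B.cl i) else
    if B.rw i = B.cl i then d (B.rw i) else U (B.rw i) (B.cl i), ?_, ?_, ?_⟩
  · ext p q
    rw [Blk.low]
    by_cases h1 : p = q
    · rw [if_pos h1, h1, hL.1]
    rw [if_neg h1]
    by_cases h2 : q < p
    · rw [if_pos h2, Blk.mat]
      by_cases h3 : B.b p = B.b q
      · rw [dif_pos h3]
        simp only [Blk.rw_ix, Blk.cl_ix]
        rw [if_pos h2]
      · rw [dif_neg h3, hLb p q h3]
    · rw [if_neg h2, hL.2 p q (lt_of_le_of_ne (not_lt.1 h2) h1)]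
  · ext p q
    rw [Blk.upp]
    by_cases h1 : p = q
    · rw [if_pos h1, h1, hU.1]
    rw [if_neg h1]
    by_cases h2 : p < q
    · rw [if_pos h2, Blk.mat]
      by_cases h3 : B.b p = B.b q
      · rw [dif_pos h3]
        simp only [Blk.rw_ix, Blk.cl_ix]
        rw [if_neg (not_lt.2 h2.le), if_neg h1]
      · rw [dif_neg h3, hUb p q h3]
    · rw [if_neg h2, hU.2 p q (lt_of_le_of_ne (not_lt.1 h2) (Ne.symm h1))]
  · funext p
    simp [Blk.dia, Blk.dx, Blk.rw_ix, Blk.cl_ix]

end mat

/-! ### the identity in two by two matrices -/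

section two

variable {F : Type v} [Field F] {p q : Fin N}

/-- the diagonal part after the exchange of two neighbouring rows -/
def dd (p q : Fin N) (l : F) (t : Fin N → F) : Fin N → F :=
  fun r => if r = p then l * t p else if r = q then -(t q / l) else t r

theorem two (hpq : p ≠ q) (l : F) (hl : l ≠ 0) (t : Fin N → F) (ht : t p ≠ 0) :
    Matrix.swap F p q * (Matrix.transvection q p l * Matrix.diagonal t) =
      Matrix.transvection q p l⁻¹ * Matrix.diagonal (dd p q l t) *
        Matrix.transvection p q (t q / (l * t p)) := by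
  have h1 : ∀ (x : F) (d : Fin N → F) (j : Fin N),
      (Matrix.transvection q p x * Matrix.diagonal d) q j =
        Matrix.diagonal d q j + x * Matrix.diagonal d p j := fun x d j =>
    Matrix.transvection_mul_apply_same _ _ _ _ _
  have h2 : ∀ (x : F) (d : Fin N → F) (i j : Fin N), i ≠ q →
      (Matrix.transvection q p x * Matrix.diagonal d) i j = Matrix.diagonal d i j :=
    fun x d i j hi => Matrix.transvection_mul_apply_of_ne _ _ _ _ hi _ _
  have hdp : dd p q l t p = l * t p := by rw [dd, if_pos rfl]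
  have hdq : dd p q l t q = -(t q / l) := by rw [dd, if_neg hpq.symm, if_pos rfl]
  have hdr : ∀ r, r ≠ p → r ≠ q → dd p q l t r = t r := fun r h h' => by
    rw [dd, if_neg h, if_neg h']
  ext i j
  by_cases hi : i = p
  · subst hi
    rw [Matrix.swap_mul_apply_left, h1]
    by_cases hj : j = q
    · subst hj
      rw [Matrix.mul_transvection_apply_same, h2 _ _ _ _ hpq, h2 _ _ _ _ hpq,
        Matrix.diagonal_apply_eq, Matrix.diagonal_apply_ne _ hpq, Matrix.diagonal_apply_ne _ hpq,
        Matrix.diagonal_apply_eq, hdp]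
      field_simp
      ring
    · rw [Matrix.mul_transvection_apply_of_ne _ _ _ _ hj, h2 _ _ _ _ hpq,
        Matrix.diagonal_apply_ne _ (Ne.symm hj), zero_add]
      by_cases hj2 : j = i
      · subst hj2
        rw [Matrix.diagonal_apply_eq, Matrix.diagonal_apply_eq, hdp]
      · rw [Matrix.diagonal_apply_ne _ (Ne.symm hj2), Matrix.diagonal_apply_ne _ (Ne.symm hj2),
          mul_zero]
  by_cases hi2 : i = q
  · subst hi2
    rw [Matrix.swap_mul_apply_right, h2 _ _ _ _ hpq]
    by_cases hj : j = i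
    · subst hj
      rw [Matrix.mul_transvection_apply_same, h1, h1, Matrix.diagonal_apply_ne _ hpq,
        Matrix.diagonal_apply_eq, Matrix.diagonal_apply_ne _ hpq,
        Matrix.diagonal_apply_ne _ hpq.symm, Matrix.diagonal_apply_eq, hdp, hdq]
      field_simp
      ring
    · rw [Matrix.mul_transvection_apply_of_ne _ _ _ _ hj, h1,
        Matrix.diagonal_apply_ne (dd p i l t) (Ne.symm hj), zero_add]
      by_cases hj2 : j = p
      · subst hj2
        rw [Matrix.diagonal_apply_eq, Matrix.diagonal_apply_eq, hdp]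
        field_simp
      · rw [Matrix.diagonal_apply_ne _ (Ne.symm hj2), Matrix.diagonal_apply_ne _ (Ne.symm hj2),
          mul_zero]
  · rw [Matrix.swap_mul_of_ne hi hi2, h2 _ _ _ _ hi2]
    by_cases hj : j = q
    · subst hj
      rw [Matrix.mul_transvection_apply_same, h2 _ _ _ _ hi2, h2 _ _ _ _ hi2,
        Matrix.diagonal_apply_ne _ hi2, Matrix.diagonal_apply_ne _ hi2,
        Matrix.diagonal_apply_ne _ hi, mul_zero, add_zero]
    · rw [Matrix.mul_transvection_apply_of_ne _ _ _ _ hj, h2 _ _ _ _ hi2]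
      by_cases hj2 : i = j
      · subst hj2
        rw [Matrix.diagonal_apply_eq, Matrix.diagonal_apply_eq, hdr _ hi hi2]
      · rw [Matrix.diagonal_apply_ne _ hj2, Matrix.diagonal_apply_ne _ hj2]

/-- conjugation with the exchange of neighbours -/
theorem lowU_conj {R : Type v} [CommRing R] {p q : Fin N} (hpq : (p : ℕ) + 1 = q)
    {M : Matrix (Fin N) (Fin N) R} (hM : LowU M) (h0 : M q p = 0) :
    LowU (Matrix.swap R p q * M * Matrix.swap R p q) := by
  have he : ∀ i j, (Matrix.swap R p q * M * Matrix.swap R p q) i j =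
      M (Equiv.swap p q i) (Equiv.swap p q j) := by
    intro i j
    rw [Matrix.swap, Equiv.Perm.permMatrix, PEquiv.mul_toMatrix_toPEquiv,
      PEquiv.toMatrix_toPEquiv_mul]
    simp [Matrix.submatrix]
  constructor
  · intro i
    rw [he, hM.1]
  · intro i j hij
    rw [he]
    by_cases hi : i = p ∧ j = q
    · rw [hi.1, hi.2, Equiv.swap_apply_left, Equiv.swap_apply_right, h0]
    · refine hM.2 _ _ ?_
      rw [Equiv.swap_apply_def, Equiv.swap_apply_def]
      have hpq' : p < q := by rw [Fin.lt_def]; omega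
      rw [Fin.lt_def] at hij ⊢
      rw [Fin.ext_iff, Fin.ext_iff] at hi
      split_ifs with h1 h2 h3 h4 h5 h6 h7 h8 <;> simp only [Fin.ext_iff] at * <;> omega

end two

end Col

end

end Pool.Agent.MLD.Mon
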