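import Pool.Agent.Lib.MP_f23696_ag.M.Ctx
import Pool.Agent.Lib.MP_f23696_ag.T.Der
import Pool.Agent.Lib.MP_f23696_ag.Jind

/-!
Jacobian determinants of the coordinates `L, d, U` of the big cell (module JAC of the project MON).
-/

set_option autoImplicit false

open scoped Classical

namespace Pool.Agent.MLD.Mon

open MvPolynomial
open Pool.Agent.MLD.Ten (IsGood)

noncomputable section

universe u v w

variable {N m : ℕ} {B : Blk N m} {k : Type u} {K : Type v} [Field k] [Field K] [Algebra k K]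

namespace Jc

/-- determinant of a matrix which is triangular up to a permutation -/
theorem det_tri_gen {ι : Type} [Fintype ι] [DecidableEq ι] (M : Matrix ι ι K) (κ : ι → ℕ)
    (h : ∀ i j, M i j ≠ 0 → i = j ∨ κ i < κ j) : M.det = ∏ i, M i i := by
  rw [Matrix.det_apply]
  rw [Finset.sum_eq_single (1 : Equiv.Perm ι)]
  · simp
  · intro σ _ hσ
    have key : ∃ i, M (σ i) i = 0 := by
      by_contra hcon
      push Not at hcon
      have h1 : ∀ i, σ i = i ∨ κ (σ i) < κ i := fun i => h _ _ (hcon i)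
      have h2 : ∀ i ∈ Finset.univ, κ (σ i) ≤ κ i := by
        intro i _
        rcases h1 i with h1 | h1
        · rw [h1]
        · exact h1.le
      have h3 : ∑ i, κ (σ i) = ∑ i, κ i := Equiv.sum_comp σ κ
      apply hσ
      ext i
      rcases h1 i with h4 | h4
      · exact h4
      · exfalso
        have := Finset.sum_lt_sum h2 ⟨i, Finset.mem_univ i, h4⟩
        omega
    obtain ⟨i, hi⟩ := key
    have h0 : ∏ i, M (σ i) i = 0 := Finset.prod_eq_zero (Finset.mem_univ i) hi
    rw [h0, smul_zero]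
  · intro h'
    exact absurd (Finset.mem_univ _) h'

end Jc

theorem det_tri {n : ℕ} (M : Matrix (Fin n) (Fin n) K) (κ : Fin n → ℕ)
    (h : ∀ i j, M i j ≠ 0 → i = j ∨ κ i < κ j) : M.det = ∏ i, M i i := by
  rw [← Jc.det_tri_gen M κ h]

namespace Jc

theorem ix_eq_iff (p q : Fin N) (h : B.b p = B.b q) (i : Fin (m + 1)) :
    i = B.ix p q h ↔ B.rw i = p ∧ B.cl i = q := by
  constructor
  · rintro rfl
    exact ⟨B.rw_ix p q h, B.cl_ix p q h⟩
  · rintro ⟨rfl, rfl⟩
    exact (B.ix_rw_cl i).symm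

theorem rw_dx (p : Fin N) : B.rw (B.dx p) = p := B.rw_ix p p rfl

theorem cl_dx (p : Fin N) : B.cl (B.dx p) = p := B.cl_ix p p rfl

theorem eq_dx {i : Fin (m + 1)} (h : B.rw i = B.cl i) : i = B.dx (B.rw i) := by
  unfold Blk.dx
  rw [ix_eq_iff]
  exact ⟨rfl, h.symm⟩

section der

variable {T : Fin (m + 1) → K} {E : Fin (m + 1) → Derivation k K K}
  (hE : ∀ i l, E i (T l) = if i = l then 1 else 0)

include hE

theorem E_mat (i : Fin (m + 1)) (p q : Fin N) :
    E i (B.mat T p q) = if B.rw i = p ∧ B.cl i = q then 1 else 0 := by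
  unfold Blk.mat
  by_cases h : B.b p = B.b q
  · rw [dif_pos h, hE]
    simp only [ix_eq_iff]
  · rw [dif_neg h, map_zero, if_neg]
    rintro ⟨rfl, rfl⟩
    exact h (B.rw_cl i)

theorem E_low (i : Fin (m + 1)) (p r : Fin N) :
    E i (B.low T p r) = if r < p ∧ B.rw i = p ∧ B.cl i = r then 1 else 0 := by
  unfold Blk.low
  by_cases h : p = r
  · rw [if_pos h, Derivation.map_one_eq_zero, if_neg]
    rintro ⟨h1, -⟩
    exact absurd h h1.ne'
  · rw [if_neg h]
    by_cases h2 : r < p
    · rw [if_pos h2, E_mat hE]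
      simp [h2]
    · rw [if_neg h2, map_zero, if_neg]
      rintro ⟨h1, -⟩
      exact h2 h1

theorem E_upp (i : Fin (m + 1)) (r q : Fin N) :
    E i (B.upp T r q) = if r < q ∧ B.rw i = r ∧ B.cl i = q then 1 else 0 := by
  unfold Blk.upp
  by_cases h : r = q
  · rw [if_pos h, Derivation.map_one_eq_zero, if_neg]
    rintro ⟨h1, -⟩
    exact absurd h h1.ne
  · rw [if_neg h]
    by_cases h2 : r < q
    · rw [if_pos h2, E_mat hE]
      simp [h2]
    · rw [if_neg h2, map_zero, if_neg]
      rintro ⟨h1, -⟩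
      exact h2 h1

theorem E_dia (i : Fin (m + 1)) (r : Fin N) :
    E i (B.dia T r) = if B.rw i = r ∧ B.cl i = r then 1 else 0 := by
  unfold Blk.dia
  rw [hE]
  unfold Blk.dx
  simp only [ix_eq_iff]

omit hE in
theorem ldu_apply' (y : Fin (m + 1) → K) (p q : Fin N) :
    B.ldu y p q = ∑ r, B.low y p r * B.dia y r * B.upp y r q := by
  unfold Blk.ldu
  rw [Matrix.mul_apply]
  refine Finset.sum_congr rfl fun r _ => ?_
  rw [Matrix.mul_diagonal]

omit hE in
theorem der_sum {ι : Type} (D : Derivation k K K) (s : Finset ι) (f : ι → K) :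
    D (∑ r ∈ s, f r) = ∑ r ∈ s, D (f r) := map_sum D f s

theorem E_ldu (i : Fin (m + 1)) (p q : Fin N) :
    E i (B.ldu T p q) =
      if B.cl i < B.rw i then (if B.rw i = p then B.dia T (B.cl i) * B.upp T (B.cl i) q else 0)
      else if B.rw i = B.cl i then B.low T p (B.rw i) * B.upp T (B.rw i) q
      else (if B.cl i = q then B.low T p (B.rw i) * B.dia T (B.rw i) else 0) := by
  rw [ldu_apply', der_sum]
  have h1 : ∀ r, E i (B.low T p r * B.dia T r * B.upp T r q) =
      (if r < p ∧ B.rw i = p ∧ B.cl i = r then B.dia T r * B.upp T r q else 0) +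
      (if B.rw i = r ∧ B.cl i = r then B.low T p r * B.upp T r q else 0) +
      (if r < q ∧ B.rw i = r ∧ B.cl i = q then B.low T p r * B.dia T r else 0) := by
    intro r
    rw [Derivation.leibniz, Derivation.leibniz, E_low hE, E_dia hE, E_upp hE]
    simp only [smul_eq_mul]
    split_ifs <;> ring
  rw [Finset.sum_congr rfl fun r _ => h1 r, Finset.sum_add_distrib, Finset.sum_add_distrib]
  rcases lt_trichotomy (B.cl i) (B.rw i) with hlt | heq | hgt
  · rw [if_pos hlt]
    have e2 : ∑ r, (if B.rw i = r ∧ B.cl i = r then B.low T p r * B.upp T r q else 0) = 0 := by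
      refine Finset.sum_eq_zero fun r _ => if_neg ?_
      rintro ⟨h2, h3⟩
      rw [h2, h3] at hlt
      exact lt_irrefl _ hlt
    have e3 : ∑ r, (if r < q ∧ B.rw i = r ∧ B.cl i = q then B.low T p r * B.dia T r else 0) =
        0 := by
      refine Finset.sum_eq_zero fun r _ => if_neg ?_
      rintro ⟨h2, h3, h4⟩
      rw [h3, h4] at hlt
      exact lt_asymm h2 hlt
    rw [e2, e3, add_zero, add_zero, Finset.sum_eq_single (B.cl i)]
    · by_cases hp : B.rw i = p
      · rw [if_pos hp, if_pos ⟨by rwa [← hp], hp, rfl⟩]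
      · rw [if_neg hp, if_neg]
        rintro ⟨-, h2, -⟩
        exact hp h2
    · intro r _ hr
      rw [if_neg]
      rintro ⟨-, -, h2⟩
      exact hr h2.symm
    · intro h'
      exact absurd (Finset.mem_univ _) h'
  · rw [if_neg (by rw [heq]; exact lt_irrefl _), if_pos heq.symm]
    have e2 : ∑ r, (if r < p ∧ B.rw i = p ∧ B.cl i = r then B.dia T r * B.upp T r q else 0) =
        0 := by
      refine Finset.sum_eq_zero fun r _ => if_neg ?_
      rintro ⟨h2, h3, h4⟩
      rw [h3, h4] at heq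
      exact absurd heq h2.ne
    have e3 : ∑ r, (if r < q ∧ B.rw i = r ∧ B.cl i = q then B.low T p r * B.dia T r else 0) =
        0 := by
      refine Finset.sum_eq_zero fun r _ => if_neg ?_
      rintro ⟨h2, h3, h4⟩
      rw [h3, h4] at heq
      exact absurd heq.symm h2.ne
    rw [e2, e3, zero_add, add_zero, Finset.sum_eq_single (B.rw i)]
    · rw [if_pos ⟨rfl, heq⟩]
    · intro r _ hr
      rw [if_neg]
      rintro ⟨h2, -⟩
      exact hr h2.symm
    · intro h'
      exact absurd (Finset.mem_univ _) h'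
  · rw [if_neg (lt_asymm hgt), if_neg hgt.ne]
    have e2 : ∑ r, (if r < p ∧ B.rw i = p ∧ B.cl i = r then B.dia T r * B.upp T r q else 0) =
        0 := by
      refine Finset.sum_eq_zero fun r _ => if_neg ?_
      rintro ⟨h2, h3, h4⟩
      rw [h3, h4] at hgt
      exact lt_asymm h2 hgt
    have e3 : ∑ r, (if B.rw i = r ∧ B.cl i = r then B.low T p r * B.upp T r q else 0) = 0 := by
      refine Finset.sum_eq_zero fun r _ => if_neg ?_
      rintro ⟨h2, h3⟩
      rw [h2, h3] at hgt
      exact lt_irrefl _ hgt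
    rw [e2, e3, zero_add, zero_add, Finset.sum_eq_single (B.rw i)]
    · by_cases hq : B.cl i = q
      · rw [if_pos hq, if_pos ⟨by rwa [← hq], rfl, hq⟩]
      · rw [if_neg hq, if_neg]
        rintro ⟨-, -, h2⟩
        exact hq h2
    · intro r _ hr
      rw [if_neg]
      rintro ⟨-, h2, -⟩
      exact hr h2.symm
    · intro h'
      exact absurd (Finset.mem_univ _) h'

end der

/-- the order for which the matrix of the derivatives of the entries is triangular -/
def kap (B : Blk N m) (i : Fin (m + 1)) : ℕ :=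
  2 * min (B.rw i : ℕ) (B.cl i : ℕ) + if B.rw i = B.cl i then 0 else 1

theorem low_ne {y : Fin (m + 1) → K} {p q : Fin N} (h : B.low y p q ≠ 0) : q ≤ p := by
  by_contra hlt
  rw [not_le] at hlt
  apply h
  unfold Blk.low
  rw [if_neg hlt.ne, if_neg (lt_asymm hlt)]

theorem upp_ne {y : Fin (m + 1) → K} {p q : Fin N} (h : B.upp y p q ≠ 0) : p ≤ q := by
  by_contra hlt
  rw [not_le] at hlt
  apply h
  unfold Blk.upp
  rw [if_neg hlt.ne', if_neg (lt_asymm hlt)]

theorem low_self (y : Fin (m + 1) → K) (p : Fin N) : B.low y p p = 1 := by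
  unfold Blk.low
  rw [if_pos rfl]

theorem upp_self (y : Fin (m + 1) → K) (p : Fin N) : B.upp y p p = 1 := by
  unfold Blk.upp
  rw [if_pos rfl]

theorem y_eq (C : GC k K B) (j : Fin (m + 1)) : C.y j = B.ldu C.T (B.rw j) (B.cl j) := by
  rw [C.hT]
  unfold Blk.mat
  rw [dif_pos (B.rw_cl j), B.ix_rw_cl]

theorem idx_ext {i j : Fin (m + 1)} (h1 : B.rw i = B.rw j) (h2 : B.cl i = B.cl j) : i = j := by
  have h := (ix_eq_iff (B := B) (B.rw j) (B.cl j) (B.rw_cl j) i).2 ⟨h1, h2⟩
  rw [B.ix_rw_cl] at h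
  exact h

theorem tri_y (C : GC k K B) {E : Fin (m + 1) → Derivation k K K}
    (hE : ∀ i l, E i (C.T l) = if i = l then 1 else 0) (i j : Fin (m + 1))
    (h : E i (C.y j) ≠ 0) : i = j ∨ kap B i < kap B j := by
  rw [y_eq, E_ldu hE] at h
  unfold kap
  rcases lt_trichotomy (B.cl i) (B.rw i) with hlt | heq | hgt
  · rw [if_pos hlt] at h
    by_cases hr : B.rw i = B.rw j
    · rw [if_pos hr] at h
      have h1 := upp_ne (right_ne_zero_of_mul h)
      rcases h1.eq_or_lt with h2 | h2
      · exact Or.inl (idx_ext hr h2)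
      · right
        have h3 : (B.cl i : ℕ) < B.cl j := h2
        have h4 : (B.cl i : ℕ) < B.rw i := hlt
        rw [hr] at h4 ⊢
        split_ifs <;> omega
    · rw [if_neg hr] at h
      exact absurd rfl h
  · rw [if_neg (by rw [heq]; exact lt_irrefl _), if_pos heq.symm] at h
    have h1 : (B.rw i : ℕ) ≤ B.cl j := upp_ne (right_ne_zero_of_mul h)
    have h2 : (B.rw i : ℕ) ≤ B.rw j := low_ne (left_ne_zero_of_mul h)
    have h3 : (B.cl i : ℕ) = B.rw i := congrArg Fin.val heq
    by_cases hj : B.rw j = B.cl j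
    · have hj' : (B.rw j : ℕ) = B.cl j := congrArg Fin.val hj
      by_cases hij : B.rw i = B.rw j
      · left
        exact idx_ext hij (by rw [heq, hij, hj])
      · right
        have : (B.rw i : ℕ) ≠ B.rw j := fun h' => hij (Fin.ext h')
        rw [if_pos heq.symm, if_pos hj]
        omega
    · right
      rw [if_pos heq.symm, if_neg hj]
      omega
  · rw [if_neg (lt_asymm hgt), if_neg hgt.ne] at h
    by_cases hr : B.cl i = B.cl j
    · rw [if_pos hr] at h
      have h1 := low_ne (left_ne_zero_of_mul h)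
      rcases h1.eq_or_lt with h2 | h2
      · exact Or.inl (idx_ext h2 hr)
      · right
        have h3 : (B.rw i : ℕ) < B.rw j := h2
        have h4 : (B.rw i : ℕ) < B.cl i := hgt
        rw [hr] at h4 ⊢
        split_ifs <;> omega
    · rw [if_neg hr] at h
      exact absurd rfl h

theorem diag_y (C : GC k K B) {E : Fin (m + 1) → Derivation k K K}
    (hE : ∀ i l, E i (C.T l) = if i = l then 1 else 0) (i : Fin (m + 1)) :
    E i (C.y i) = (if B.cl i < B.rw i then C.d (B.cl i) else 1) *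
      (if B.rw i < B.cl i then C.d (B.rw i) else 1) := by
  rw [y_eq, E_ldu hE]
  unfold GC.d
  rcases lt_trichotomy (B.cl i) (B.rw i) with hlt | heq | hgt
  · rw [if_pos hlt, if_pos rfl, upp_self, if_pos hlt, if_neg (lt_asymm hlt)]
  · rw [if_neg (by rw [heq]; exact lt_irrefl _), if_pos heq.symm, heq, low_self, upp_self,
      if_neg (lt_irrefl _)]
  · rw [if_neg (lt_asymm hgt), if_neg hgt.ne, if_pos rfl, low_self, if_neg (lt_asymm hgt),
      if_pos hgt, one_mul]

theorem prod_fib (f : Fin N → K) (s : Finset (Fin (m + 1))) (g : Fin (m + 1) → Fin N) :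
    ∏ i, (if i ∈ s then f (g i) else 1) = ∏ p, f p ^ (s.filter fun i => g i = p).card := by
  rw [Finset.prod_ite_mem, Finset.univ_inter, ← Finset.prod_fiberwise s g]
  refine Finset.prod_congr rfl fun p _ => ?_
  rw [Finset.prod_congr rfl (g := fun _ => f p)]
  · rw [Finset.prod_const]
  · intro i hi
    rw [(Finset.mem_filter.1 hi).2]

theorem card_low (p : Fin N) :
    ((Finset.univ.filter fun i => B.cl i < B.rw i).filter fun i => B.cl i = p).card = B.aft p := by
  unfold Blk.aft
  refine Finset.card_bij (fun i _ => B.rw i) ?_ ?_ ?_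
  · intro i hi
    simp only [Finset.mem_filter, Finset.mem_univ, true_and] at hi ⊢
    rw [← hi.2]
    exact ⟨hi.1, (B.rw_cl i).symm⟩
  · intro i hi j hj hij
    simp only [Finset.mem_filter, Finset.mem_univ, true_and] at hi hj
    exact idx_ext hij (by rw [hi.2, hj.2])
  · intro q hq
    simp only [Finset.mem_filter, Finset.mem_univ, true_and] at hq
    refine ⟨B.ix q p hq.2.symm, ?_, B.rw_ix _ _ _⟩
    simp only [Finset.mem_filter, Finset.mem_univ, true_and]
    rw [B.rw_ix, B.cl_ix]
    exact ⟨hq.1, rfl⟩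

theorem card_upp (p : Fin N) :
    ((Finset.univ.filter fun i => B.rw i < B.cl i).filter fun i => B.rw i = p).card = B.aft p := by
  unfold Blk.aft
  refine Finset.card_bij (fun i _ => B.cl i) ?_ ?_ ?_
  · intro i hi
    simp only [Finset.mem_filter, Finset.mem_univ, true_and] at hi ⊢
    rw [← hi.2]
    exact ⟨hi.1, B.rw_cl i⟩
  · intro i hi j hj hij
    simp only [Finset.mem_filter, Finset.mem_univ, true_and] at hi hj
    exact idx_ext (by rw [hi.2, hj.2]) hij
  · intro q hq
    simp only [Finset.mem_filter, Finset.mem_univ, true_and] at hq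
    refine ⟨B.ix p q hq.2, ?_, B.cl_ix _ _ _⟩
    simp only [Finset.mem_filter, Finset.mem_univ, true_and]
    rw [B.rw_ix, B.cl_ix]
    exact ⟨hq.1, rfl⟩

theorem jac_y (C : GC k K B) {E : Fin (m + 1) → Derivation k K K}
    (hE : ∀ i l, E i (C.T l) = if i = l then 1 else 0) :
    jac E C.y = ∏ p, C.d p ^ (2 * B.aft p) := by
  unfold jac
  rw [det_tri (Matrix.of fun i j => E i (C.y j)) (kap B) (fun i j h => tri_y C hE i j h)]
  simp only [Matrix.of_apply]
  rw [Finset.prod_congr rfl fun i _ => diag_y C hE i, Finset.prod_mul_distrib]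
  have h1 := prod_fib C.d (Finset.univ.filter fun i => B.cl i < B.rw i) B.cl
  have h2 := prod_fib C.d (Finset.univ.filter fun i => B.rw i < B.cl i) B.rw
  simp only [Finset.mem_filter, Finset.mem_univ, true_and] at h1 h2
  rw [h1, h2, ← Finset.prod_mul_distrib]
  refine Finset.prod_congr rfl fun p _ => ?_
  rw [card_low, card_upp, ← pow_add, two_mul]

/-- the coordinates `L, d, U` have a nonzero Jacobian determinant -/
theorem jac_T_ne (C : GC k K B) : jac C.D C.T ≠ 0 := by
  have h1 : ∀ j, ∃ G : MvPolynomial (Fin (m + 1)) k, C.y j = aeval C.T G := by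
    intro j
    refine ⟨B.ldu (X : Fin (m + 1) → MvPolynomial (Fin (m + 1)) k) (B.rw j) (B.cl j), ?_⟩
    have hm : ∀ p q, aeval C.T (B.mat (X : Fin (m + 1) → MvPolynomial (Fin (m + 1)) k) p q) =
        B.mat C.T p q := by
      intro p q
      unfold Blk.mat
      split_ifs
      · rw [aeval_X]
      · rw [map_zero]
    rw [y_eq]
    unfold Blk.ldu
    rw [Matrix.mul_apply, Matrix.mul_apply, map_sum]
    refine Finset.sum_congr rfl fun r _ => ?_
    rw [Matrix.mul_diagonal, Matrix.mul_diagonal, map_mul, map_mul]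
    congr 1
    · congr 1
      · unfold Blk.low
        split_ifs
        · rw [map_one]
        · rw [hm]
        · rw [map_zero]
      · unfold Blk.dia
        rw [aeval_X]
    · unfold Blk.upp
      split_ifs
      · rw [map_one]
      · rw [hm]
      · rw [map_zero]
  choose G hG using h1
  have h2 : (1 : Matrix (Fin (m + 1)) (Fin (m + 1)) K) =
      (Matrix.of fun i j => C.D i (C.T j)) *
        (Matrix.of fun l j => aeval C.T (pderiv l (G j))) := by
    ext i j
    rw [Matrix.mul_apply, Matrix.one_apply, ← C.dual, hG, Pool.Agent.MLD.Jind.der_aeval]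
    refine Finset.sum_congr rfl fun l _ => ?_
    rw [Matrix.of_apply, Matrix.of_apply, mul_comm]
  have h3 := congrArg Matrix.det h2
  rw [Matrix.det_one, Matrix.det_mul] at h3
  unfold jac
  exact left_ne_zero_of_mul (by rw [← h3]; exact one_ne_zero)

end Jc

variable [CharZero k] (C : GC k K B)

omit [CharZero k] in
theorem Jc.exists_E' : ∃ E : Fin (m + 1) → Derivation k K K,
    (∀ i l, E i (C.T l) = if i = l then 1 else 0) ∧
      ∀ a, jac C.D a = jac C.D C.T * jac E a := by
  obtain ⟨E, h1, -, h2⟩ := Pool.Agent.MLD.Ten.dual C.D C.T (Jc.jac_T_ne C)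
  exact ⟨E, h1, h2⟩

set_option linter.unusedSectionVars false

theorem jac_T : jac C.D C.T = ∏ p, C.d p ^ (-(2 * (B.aft p : ℤ))) := by
  obtain ⟨E, h1, h2⟩ := Jc.exists_E' C
  have h3 := h2 C.y
  rw [Pool.Agent.MLD.Ten.jac_dual C.D C.y C.dual, Jc.jac_y C h1] at h3
  have h4 : ∏ p, C.d p ^ (-(2 * (B.aft p : ℤ))) = (∏ p, C.d p ^ (2 * B.aft p))⁻¹ := by
    rw [← Finset.prod_inv_distrib]
    refine Finset.prod_congr rfl fun p _ => ?_
    rw [zpow_neg]
    congr 1
    exact_mod_cast zpow_natCast (C.d p) (2 * B.aft p)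
  rw [h4]
  exact eq_inv_of_mul_eq_one_left h3.symm

theorem exists_E : ∃ E : Fin (m + 1) → Derivation k K K,
    (∀ i l, E i (C.T l) = if i = l then 1 else 0) ∧ ∀ a, jac C.D a = jac C.D C.T * jac E a :=
  Jc.exists_E' C

namespace Jc

omit [CharZero k] in
theorem d_ne' {E : Fin (m + 1) → Derivation k K K}
    (hE : ∀ i l, E i (C.T l) = if i = l then 1 else 0) (p : Fin N) : C.d p ≠ 0 := by
  intro h0
  have h1 := hE (B.dx p) (B.dx p)
  rw [if_pos rfl] at h1
  have h2 : C.T (B.dx p) = 0 := h0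
  rw [h2, map_zero] at h1
  exact zero_ne_one h1

omit [CharZero k] in
theorem der_dm (hd : ∀ p, C.d p ≠ 0) (D : Derivation k K K) (μ : Fin N → ℤ) :
    D (C.dm μ) = C.dm μ * ∑ p, (μ p : K) * (D (C.d p) / C.d p) := by
  unfold GC.dm
  have key : ∀ s : Finset (Fin N), D (∏ p ∈ s, C.d p ^ μ p) =
      (∏ p ∈ s, C.d p ^ μ p) * ∑ p ∈ s, (μ p : K) * (D (C.d p) / C.d p) := by
    intro s
    induction s using Finset.induction_on with
    | empty => simp
    | insert a s ha ih =>
      rw [Finset.prod_insert ha, Finset.sum_insert ha, Derivation.leibniz, ih,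
        Derivation.leibniz_zpow]
      simp only [smul_eq_mul, zsmul_eq_mul]
      have h1 : C.d a ^ (μ a - 1) = C.d a ^ μ a / C.d a := by
        rw [zpow_sub₀ (hd a), zpow_one]
      rw [h1]
      field_simp [hd a]
      ring
  exact key Finset.univ

end Jc

theorem jac_b (E : Fin (m + 1) → Derivation k K K)
    (hE : ∀ i l, E i (C.T l) = if i = l then 1 else 0) (β : Matrix (Fin N) (Fin N) ℤ) (c : Fin N → k)
    (b : Fin (m + 1) → K) (hd : ∀ p, b (B.dx p) = C.dm (β p) - algebraMap k K (c p))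
    (hl : ∀ i, B.cl i < B.rw i → ∀ l, E l (b i) ≠ 0 → l = i ∨ (B.cl l < B.rw l ∧
      (B.rw l : ℕ) - (B.cl l : ℕ) < (B.rw i : ℕ) - (B.cl i : ℕ)))
    (hu : ∀ i, B.rw i < B.cl i → ∀ l, E l (b i) ≠ 0 → l = i ∨ (B.rw l < B.cl l ∧
      (B.cl l : ℕ) - (B.rw l : ℕ) < (B.cl i : ℕ) - (B.rw i : ℕ))) :
    jac E b = (β.det : K) * (∏ p, C.dm (β p)) * (∏ p, C.d p)⁻¹ *
      ∏ i, if B.rw i = B.cl i then 1 else E i (b i) := by
  have hdn := Jc.d_ne' C hE
  set M : Matrix (Fin (m + 1)) (Fin (m + 1)) K := Matrix.of fun i j => E i (b j) with hM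
  -- the derivatives of the `d_r`
  have hEd : ∀ l r, E l (C.d r) = if B.rw l = r ∧ B.cl l = r then 1 else 0 :=
    fun l r => Jc.E_dia hE l r
  have hEb : ∀ l p, E l (b (B.dx p)) =
      C.dm (β p) * ∑ r, (β p r : K) * ((if B.rw l = r ∧ B.cl l = r then 1 else 0) / C.d r) := by
    intro l p
    rw [hd, map_sub, Derivation.map_algebraMap, sub_zero, Jc.der_dm C hdn]
    simp only [hEd]
  have hoff : ∀ i, ¬ B.rw i = B.cl i → ∀ j, B.rw j = B.cl j → M i j = 0 := by
    intro i hi j hj
    rw [hM, Matrix.of_apply, Jc.eq_dx hj, hEb, Finset.sum_eq_zero, mul_zero]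
    intro r _
    rw [if_neg, zero_div, mul_zero]
    rintro ⟨h1, h2⟩
    exact hi (by rw [h1, h2])
  have hdet : jac E b = M.det := rfl
  rw [hdet, Matrix.twoBlockTriangular_det M (fun i => B.rw i = B.cl i) hoff]
  -- the diagonal block
  let e : Fin N ≃ {i : Fin (m + 1) // B.rw i = B.cl i} :=
    { toFun := fun p => ⟨B.dx p, by rw [Jc.rw_dx, Jc.cl_dx]⟩
      invFun := fun i => B.rw i.1
      left_inv := fun p => Jc.rw_dx p
      right_inv := fun i => Subtype.ext (Jc.eq_dx i.2).symm }
  have h1 : (M.toSquareBlockProp fun i => B.rw i = B.cl i).det =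
      (β.det : K) * (∏ p, C.dm (β p)) * (∏ p, C.d p)⁻¹ := by
    rw [← Matrix.det_submatrix_equiv_self e]
    have h2 : (M.toSquareBlockProp fun i => B.rw i = B.cl i).submatrix e e =
        Matrix.of fun r p => (C.d r)⁻¹ * ((Matrix.of fun r p =>
          C.dm (β p) * (β.transpose.map (Int.cast : ℤ → K)) r p) r p) := by
      ext r p
      have h3 : (M.toSquareBlockProp fun i => B.rw i = B.cl i).submatrix e e r p =
          E (B.dx r) (b (B.dx p)) := rfl
      rw [h3, hEb, Finset.sum_eq_single r]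
      · rw [if_pos ⟨Jc.rw_dx r, Jc.cl_dx r⟩]
        simp only [Matrix.of_apply, Matrix.map_apply, Matrix.transpose_apply]
        ring
      · intro s _ hs
        rw [if_neg, zero_div, mul_zero]
        rintro ⟨h4, -⟩
        rw [Jc.rw_dx] at h4
        exact hs h4.symm
      · intro h'
        exact absurd (Finset.mem_univ _) h'
    rw [h2, Matrix.det_mul_column, Matrix.det_mul_row, Finset.prod_inv_distrib]
    have h5 : (β.transpose.map (Int.cast : ℤ → K)).det = (β.det : K) := by
      rw [← Matrix.det_transpose β]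
      exact (Int.cast_det _).symm
    rw [h5]
    ring
  -- the block of the off-diagonal entries
  have h6 : (M.toSquareBlockProp fun i => ¬ B.rw i = B.cl i).det =
      ∏ i : {i : Fin (m + 1) // ¬ B.rw i = B.cl i}, E i (b i) := by
    rw [Jc.det_tri_gen _ (fun i : {i : Fin (m + 1) // ¬ B.rw i = B.cl i} =>
      ((B.rw i.1 : ℕ) - (B.cl i.1 : ℕ)) + ((B.cl i.1 : ℕ) - (B.rw i.1 : ℕ)))]
    · rfl
    · rintro ⟨l, hl'⟩ ⟨i, hi⟩ hne
      have hne' : E l (b i) ≠ 0 := hne
      rcases lt_or_gt_of_ne hi with h7 | h7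
      · rcases hu i h7 l hne' with h8 | ⟨h8, h9⟩
        · exact Or.inl (Subtype.ext h8)
        · right
          have h10 : (B.rw l : ℕ) < B.cl l := h8
          have h11 : (B.rw i : ℕ) < B.cl i := h7
          show ((B.rw l : ℕ) - (B.cl l : ℕ)) + ((B.cl l : ℕ) - (B.rw l : ℕ)) <
            ((B.rw i : ℕ) - (B.cl i : ℕ)) + ((B.cl i : ℕ) - (B.rw i : ℕ))
          omega
      · rcases hl i h7 l hne' with h8 | ⟨h8, h9⟩
        · exact Or.inl (Subtype.ext h8)
        · right
          have h10 : (B.cl l : ℕ) < B.rw l := h8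
          have h11 : (B.cl i : ℕ) < B.rw i := h7
          show ((B.rw l : ℕ) - (B.cl l : ℕ)) + ((B.cl l : ℕ) - (B.rw l : ℕ)) <
            ((B.rw i : ℕ) - (B.cl i : ℕ)) + ((B.cl i : ℕ) - (B.rw i : ℕ))
          omega
  have h12 : (∏ i, if B.rw i = B.cl i then 1 else E i (b i)) =
      ∏ i : {i : Fin (m + 1) // ¬ B.rw i = B.cl i}, E i (b i) := by
    rw [← Finset.prod_subtype (Finset.univ.filter fun i => ¬ B.rw i = B.cl i)
      (by simp) (fun i => E i (b i)), Finset.prod_filter]
    refine Finset.prod_congr rfl fun i _ => ?_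
    split_ifs <;> rfl
  rw [h1, h6, h12]

end

end Pool.Agent.MLD.Mon
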