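import Pool.Agent.Lib.MP_f23696_ag.M.Ctx

/-!
LIN (project MON, MP_f23696_ag): block matrices, the coordinates `L, d, U`.
-/

set_option autoImplicit false

open scoped Classical

namespace Pool.Agent.MLD.Mon

open MvPolynomial
open Pool.Agent.MLD.Ten (IsGood)

noncomputable section

universe u v w

variable {N m : ℕ} {B : Blk N m} {k : Type u} {K : Type v} [Field k] [Field K] [Algebra k K]

section
variable {R : Type v} [CommRing R] (B : Blk N m)

theorem mat_vec {M : Matrix (Fin N) (Fin N) R} (h : B.IsBl M) : B.mat (B.vec M) = M := by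
  ext p q
  simp only [Blk.mat, Blk.vec]
  split_ifs with hb
  · rw [B.rw_ix, B.cl_ix]
  · exact (h p q hb).symm

theorem vec_mat (y : Fin (m + 1) → R) : B.vec (B.mat y) = y := by
  funext i
  simp only [Blk.mat, Blk.vec]
  rw [dif_pos (B.rw_cl i), B.ix_rw_cl]

theorem isBl_mat (y : Fin (m + 1) → R) : B.IsBl (B.mat y) := fun p q h => by
  simp only [Blk.mat]
  rw [dif_neg h]

theorem isBl_mul {M M' : Matrix (Fin N) (Fin N) R} (h : B.IsBl M) (h' : B.IsBl M') :
    B.IsBl (M * M') := fun p q hpq => by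
  rw [Matrix.mul_apply]
  refine Finset.sum_eq_zero fun r _ => ?_
  by_cases h1 : B.b p = B.b r
  · rw [h' r q fun h2 => hpq (h1.trans h2), mul_zero]
  · rw [h p r h1, zero_mul]

theorem isBl_one : B.IsBl (1 : Matrix (Fin N) (Fin N) R) := fun p q h =>
  Matrix.one_apply_ne fun hpq => h (by rw [hpq])

theorem isBl_diagonal (t : Fin N → R) : B.IsBl (Matrix.diagonal t) := fun p q h =>
  Matrix.diagonal_apply_ne _ fun hpq => h (by rw [hpq])

theorem isBl_low (y : Fin (m + 1) → R) : B.IsBl (B.low y) := fun p q h => by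
  simp only [Blk.low]
  rw [if_neg fun hpq => h (by rw [hpq])]
  split_ifs
  · exact isBl_mat B y p q h
  · rfl

theorem isBl_upp (y : Fin (m + 1) → R) : B.IsBl (B.upp y) := fun p q h => by
  simp only [Blk.upp]
  rw [if_neg fun hpq => h (by rw [hpq])]
  split_ifs
  · exact isBl_mat B y p q h
  · rfl

theorem isBl_ldu (y : Fin (m + 1) → R) : B.IsBl (B.ldu y) :=
  isBl_mul B (isBl_mul B (isBl_low B y) (isBl_diagonal B _)) (isBl_upp B y)

theorem Lin.low_self (y : Fin (m + 1) → R) (p : Fin N) : B.low y p p = 1 := by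
  simp only [Blk.low, if_true]

theorem Lin.upp_self (y : Fin (m + 1) → R) (p : Fin N) : B.upp y p p = 1 := by
  simp only [Blk.upp, if_true]

theorem Lin.low_lt (y : Fin (m + 1) → R) {p q : Fin N} (h : p < q) : B.low y p q = 0 := by
  simp only [Blk.low]
  rw [if_neg h.ne, if_neg h.asymm]

theorem Lin.upp_lt (y : Fin (m + 1) → R) {p q : Fin N} (h : q < p) : B.upp y p q = 0 := by
  simp only [Blk.upp]
  rw [if_neg h.ne', if_neg h.asymm]

theorem Lin.low_gt (y : Fin (m + 1) → R) {p q : Fin N} (h : q < p) : B.low y p q = B.mat y p q := by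
  simp only [Blk.low]
  rw [if_neg h.ne', if_pos h]

theorem Lin.upp_gt (y : Fin (m + 1) → R) {p q : Fin N} (h : p < q) : B.upp y p q = B.mat y p q := by
  simp only [Blk.upp]
  rw [if_neg h.ne, if_pos h]

theorem Lin.low_tri (y : Fin (m + 1) → R) : (B.low y).IsLowerTriangular := fun _ _ h =>
  Lin.low_lt B y h

theorem Lin.upp_tri (y : Fin (m + 1) → R) : (B.upp y).IsUpperTriangular := fun _ _ h =>
  Lin.upp_lt B y h

theorem det_low (y : Fin (m + 1) → R) : (B.low y).det = 1 := by
  rw [Matrix.det_of_isLowerTriangular _ (Lin.low_tri B y)]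
  exact Finset.prod_eq_one fun p _ => Lin.low_self B y p

theorem det_upp (y : Fin (m + 1) → R) : (B.upp y).det = 1 := by
  rw [Matrix.det_of_isUpperTriangular (Lin.upp_tri B y)]
  exact Finset.prod_eq_one fun p _ => Lin.upp_self B y p

theorem det_ldu (y : Fin (m + 1) → R) : (B.ldu y).det = ∏ p, B.dia y p := by
  rw [Blk.ldu, Matrix.det_mul, Matrix.det_mul, det_low, det_upp, Matrix.det_diagonal, one_mul,
    mul_one]

theorem ldu_apply (y : Fin (m + 1) → R) (p q : Fin N) :
    B.ldu y p q = ∑ r, B.low y p r * B.dia y r * B.upp y r q := by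
  rw [Blk.ldu, Matrix.mul_apply]
  refine Finset.sum_congr rfl fun r _ => ?_
  rw [Matrix.mul_diagonal]

end

section
variable {R : Type v} [CommRing R] {S : Type w} [CommRing S]

theorem Lin.mat_map (f : R →+* S) (y : Fin (m + 1) → R) :
    B.mat (fun i => f (y i)) = (B.mat y).map f := by
  ext p q
  simp only [Blk.mat, Matrix.map_apply]
  split_ifs
  · rfl
  · rw [map_zero]

theorem Lin.low_map (f : R →+* S) (y : Fin (m + 1) → R) :
    B.low (fun i => f (y i)) = (B.low y).map f := by
  ext p q
  simp only [Blk.low, Matrix.map_apply]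
  split_ifs
  · rw [map_one]
  · rw [Lin.mat_map]; rfl
  · rw [map_zero]

theorem Lin.upp_map (f : R →+* S) (y : Fin (m + 1) → R) :
    B.upp (fun i => f (y i)) = (B.upp y).map f := by
  ext p q
  simp only [Blk.upp, Matrix.map_apply]
  split_ifs
  · rw [map_one]
  · rw [Lin.mat_map]; rfl
  · rw [map_zero]

theorem Lin.ldu_map (f : R →+* S) (y : Fin (m + 1) → R) :
    B.ldu (fun i => f (y i)) = (B.ldu y).map f := by
  have h3 : Matrix.diagonal (B.dia fun i => f (y i)) = (Matrix.diagonal (B.dia y)).map f := by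
    rw [Matrix.diagonal_map (map_zero f)]
    rfl
  rw [Blk.ldu, Blk.ldu, Lin.low_map, Lin.upp_map, h3, Matrix.map_mul, Matrix.map_mul]

end

theorem isBl_inv {F : Type v} [Field F] {a : Matrix (Fin N) (Fin N) F} (h : B.IsBl a) :
    B.IsBl a⁻¹ := by
  intro p q hpq
  by_cases hd : IsUnit a.det
  · let E : Matrix (Fin N) (Fin N) F := Matrix.diagonal fun r => if B.b r = B.b q then 1 else 0
    have hE : E * a = a * E := by
      ext i j
      rw [Matrix.diagonal_mul, Matrix.mul_diagonal]
      by_cases hij : B.b i = B.b j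
      · rw [hij, mul_comm]
      · rw [h i j hij, mul_zero, zero_mul]
    have h1 : a⁻¹ * E = E * a⁻¹ := by
      calc a⁻¹ * E = a⁻¹ * E * (a * a⁻¹) := by rw [Matrix.mul_nonsing_inv a hd, mul_one]
        _ = a⁻¹ * (E * a) * a⁻¹ := by simp only [mul_assoc]
        _ = a⁻¹ * (a * E) * a⁻¹ := by rw [hE]
        _ = (a⁻¹ * a) * E * a⁻¹ := by simp only [mul_assoc]
        _ = E * a⁻¹ := by rw [Matrix.nonsing_inv_mul a hd, one_mul]
    have h2 := congrFun (congrFun h1 p) q
    rw [Matrix.diagonal_mul, Matrix.mul_diagonal, if_pos rfl, if_neg hpq, mul_one, zero_mul] at h2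
    exact h2
  · rw [Matrix.nonsing_inv_apply_not_isUnit a hd]
    rfl

theorem isG_mul {a c : Matrix (Fin N) (Fin N) k} (ha : B.IsG a) (hc : B.IsG c) : B.IsG (a * c) :=
  ⟨isBl_mul B ha.1 hc.1, by rw [Matrix.det_mul]; exact mul_ne_zero ha.2 hc.2⟩

theorem isG_inv {a : Matrix (Fin N) (Fin N) k} (ha : B.IsG a) : B.IsG a⁻¹ :=
  ⟨isBl_inv ha.1, by
    rw [Matrix.det_nonsing_inv, Ring.inverse_eq_inv']
    exact inv_ne_zero ha.2⟩

theorem isG_one : B.IsG (1 : Matrix (Fin N) (Fin N) k) :=
  ⟨isBl_one B, by rw [Matrix.det_one]; exact one_ne_zero⟩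

/-- permutation matrix of a permutation of the blocks -/
theorem isG_perm (w : Equiv.Perm (Fin N)) (hw : ∀ p, B.b (w p) = B.b p) :
    B.IsG (w.permMatrix k) := by
  constructor
  · intro p q hpq
    show (w.toPEquiv.toMatrix : Matrix (Fin N) (Fin N) k) p q = 0
    rw [PEquiv.toMatrix_apply, Equiv.toPEquiv_apply, if_neg]
    intro h
    rw [Option.mem_some_iff] at h
    exact hpq (by rw [← h, hw])
  · rw [Matrix.det_permutation]
    rcases Int.units_eq_one_or (Equiv.Perm.sign w) with h | h
    · rw [h]; simp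
    · rw [h]; simp

variable (C : GC k K B)

theorem g_eq : C.g = C.L * Matrix.diagonal C.d * C.U := by
  rw [GC.g, ← C.hT]
  rfl

theorem det_g : C.g.det = ∏ p, C.d p := by
  rw [GC.g, ← C.hT, det_ldu]
  rfl

theorem Lin.det_XX_ne : (B.XX k).det ≠ 0 := by
  intro h
  have h1 : (eval (B.vec (1 : Matrix (Fin N) (Fin N) k))) (B.XX k).det = 1 := by
    rw [RingHom.map_det]
    have h2 : (eval (B.vec (1 : Matrix (Fin N) (Fin N) k))).mapMatrix (B.XX k) = 1 := by
      have h3 := Lin.mat_map (B := B) (eval (B.vec (1 : Matrix (Fin N) (Fin N) k)))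
        (X : Fin (m + 1) → MvPolynomial (Fin (m + 1)) k)
      simp only [eval_X] at h3
      rw [RingHom.mapMatrix_apply, Blk.XX, ← h3]
      exact mat_vec B (isBl_one B)
    rw [h2, Matrix.det_one]
  rw [h, map_zero] at h1
  exact zero_ne_one h1

theorem Lin.aeval_det : aeval C.y (B.XX k).det = C.g.det := by
  rw [AlgHom.map_det]
  congr 1
  have h3 := Lin.mat_map (B := B) (aeval C.y : MvPolynomial (Fin (m + 1)) k →ₐ[k] K).toRingHom
    (X : Fin (m + 1) → MvPolynomial (Fin (m + 1)) k)
  have h4 : (fun i => (aeval C.y : MvPolynomial (Fin (m + 1)) k →ₐ[k] K).toRingHom (X i)) = C.y := by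
    funext i
    exact aeval_X _ _
  rw [h4] at h3
  exact h3.symm

theorem det_g_ne : C.g.det ≠ 0 := by
  rw [← Lin.aeval_det]
  intro h
  exact Lin.det_XX_ne (B := B) (k := k) ((algebraicIndependent_iff.mp C.ind) _ h)

theorem d_ne (p : Fin N) : C.d p ≠ 0 := by
  have h := det_g_ne C
  rw [det_g] at h
  exact Finset.prod_ne_zero_iff.mp h p (Finset.mem_univ p)

theorem dm_add (μ ν : Fin N → ℤ) : C.dm (μ + ν) = C.dm μ * C.dm ν := by
  rw [GC.dm, GC.dm, GC.dm, ← Finset.prod_mul_distrib]
  exact Finset.prod_congr rfl fun p _ => zpow_add₀ (d_ne C p) _ _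

theorem dm_zero : C.dm 0 = 1 := by
  rw [GC.dm]
  exact Finset.prod_eq_one fun p _ => zpow_zero _

theorem dm_neg (μ : Fin N → ℤ) : C.dm (-μ) = (C.dm μ)⁻¹ := by
  rw [GC.dm, GC.dm, ← Finset.prod_inv_distrib]
  exact Finset.prod_congr rfl fun p _ => zpow_neg _ _

theorem dm_ne (μ : Fin N → ℤ) : C.dm μ ≠ 0 :=
  Finset.prod_ne_zero_iff.mpr fun p _ => zpow_ne_zero _ (d_ne C p)

theorem dm_single (p : Fin N) : C.dm (Pi.single p 1) = C.d p := by
  rw [GC.dm, Finset.prod_eq_single p]
  · rw [Pi.single_eq_same, zpow_one]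
  · intro q _ hq
    rw [Pi.single_eq_of_ne hq, zpow_zero]
  · intro h
    exact absurd (Finset.mem_univ p) h

theorem ord_dm (v : DVal k K) (μ : Fin N → ℤ) :
    v.ord (C.dm μ) = ∑ p, μ p * v.ord (C.d p) := by
  rw [GC.dm, Pool.Agent.MLD.Jac.ord_prod v Finset.univ _ fun p _ => zpow_ne_zero _ (d_ne C p)]
  exact Finset.sum_congr rfl fun p _ => Pool.Agent.MLD.Jac.ord_zpow v _ (d_ne C p) _

theorem map_g (σ : K ≃ₐ[k] K) (p q : Fin N) : (C.map σ).g p q = σ (C.g p q) := by
  have h := Lin.mat_map (B := B) (σ : K →+* K) C.y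
  exact congrFun (congrFun h p) q

theorem map_L (σ : K ≃ₐ[k] K) (p q : Fin N) : (C.map σ).L p q = σ (C.L p q) := by
  have h := Lin.low_map (B := B) (σ : K →+* K) C.T
  exact congrFun (congrFun h p) q

theorem map_U (σ : K ≃ₐ[k] K) (p q : Fin N) : (C.map σ).U p q = σ (C.U p q) := by
  have h := Lin.upp_map (B := B) (σ : K →+* K) C.T
  exact congrFun (congrFun h p) q

theorem map_d (σ : K ≃ₐ[k] K) (p : Fin N) : (C.map σ).d p = σ (C.d p) := rfl

theorem map_dm (σ : K ≃ₐ[k] K) (μ : Fin N → ℤ) : (C.map σ).dm μ = σ (C.dm μ) := by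
  rw [GC.dm, GC.dm, map_prod]
  exact Finset.prod_congr rfl fun p _ => by rw [map_zpow₀, map_d]

/-! #### The coordinates generate -/

theorem Lin.gen_ldu (T : Fin (m + 1) → K) (h0 : ∀ p, B.dia T p ≠ 0) :
    IntermediateField.adjoin k (Set.range (B.vec (B.ldu T))) =
      IntermediateField.adjoin k (Set.range T) := by
  apply le_antisymm
  · rw [IntermediateField.adjoin_le_iff]
    rintro _ ⟨i, rfl⟩
    have hT : ∀ i, T i ∈ IntermediateField.adjoin k (Set.range T) := fun i =>
      IntermediateField.subset_adjoin _ _ ⟨i, rfl⟩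
    have hm : ∀ p q, B.mat T p q ∈ IntermediateField.adjoin k (Set.range T) := fun p q => by
      simp only [Blk.mat]
      split_ifs
      · exact hT _
      · exact zero_mem _
    show B.ldu T (B.rw i) (B.cl i) ∈ IntermediateField.adjoin k (Set.range T)
    rw [ldu_apply]
    refine sum_mem fun r _ => mul_mem (mul_mem ?_ (hT _)) ?_
    · simp only [Blk.low]
      split_ifs
      · exact one_mem _
      · exact hm _ _
      · exact zero_mem _
    · simp only [Blk.upp]
      split_ifs
      · exact one_mem _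
      · exact hm _ _
      · exact zero_mem _
  · rw [IntermediateField.adjoin_le_iff]
    set F := IntermediateField.adjoin k (Set.range (B.vec (B.ldu T))) with hF
    have hg : ∀ p q, B.ldu T p q ∈ F := fun p q => by
      by_cases h : B.b p = B.b q
      · refine IntermediateField.subset_adjoin _ _ ⟨B.ix p q h, ?_⟩
        simp only [Blk.vec]
        rw [B.rw_ix, B.cl_ix]
      · rw [isBl_ldu B T p q h]
        exact zero_mem _
    -- strong induction on the smaller index
    have key : ∀ n : ℕ, ∀ p q : Fin N, min (p : ℕ) (q : ℕ) = n → B.mat T p q ∈ F := by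
      intro n
      induction n using Nat.strong_induction_on with
      | _ n ih =>
        have hlow : ∀ p r : Fin N, (r : ℕ) < n → B.low T p r ∈ F := by
          intro p r hr
          simp only [Blk.low]
          split_ifs with h1 h2
          · exact one_mem _
          · exact ih (min (p : ℕ) (r : ℕ)) (by omega) p r rfl
          · exact zero_mem _
        have hupp : ∀ r q : Fin N, (r : ℕ) < n → B.upp T r q ∈ F := by
          intro r q hr
          simp only [Blk.upp]
          split_ifs with h1 h2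
          · exact one_mem _
          · exact ih (min (r : ℕ) (q : ℕ)) (by omega) r q rfl
          · exact zero_mem _
        have hdia : ∀ r : Fin N, (r : ℕ) < n → B.dia T r ∈ F := by
          intro r hr
          have h1 := ih (min (r : ℕ) (r : ℕ)) (by omega) r r rfl
          rwa [Blk.mat, dif_pos rfl] at h1
        -- expansion of the entry at the smaller index
        have hexp : ∀ p q r : Fin N, min (p : ℕ) (q : ℕ) = n → (r : ℕ) = n →
            B.low T p r * B.dia T r * B.upp T r q ∈ F := by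
          intro p q r hpq hr
          have h1 := hg p q
          rw [ldu_apply, ← Finset.add_sum_erase Finset.univ _ (Finset.mem_univ r)] at h1
          have h2 : ∑ s ∈ Finset.univ.erase r, B.low T p s * B.dia T s * B.upp T s q ∈ F := by
            refine sum_mem fun s hs => ?_
            have hsr : s ≠ r := Finset.ne_of_mem_erase hs
            have hsr' : (s : ℕ) ≠ (r : ℕ) := fun h => hsr (Fin.ext h)
            rcases lt_or_ge (s : ℕ) n with h | h
            · exact mul_mem (mul_mem (hlow p s h) (hdia s h)) (hupp s q h)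
            · have h3 : n < (s : ℕ) := by omega
              rcases le_total (p : ℕ) (q : ℕ) with h4 | h4
              · rw [Lin.low_lt B T (show p < s from by rw [Fin.lt_def]; omega), zero_mul, zero_mul]
                exact zero_mem _
              · rw [Lin.upp_lt B T (show q < s from by rw [Fin.lt_def]; omega), mul_zero]
                exact zero_mem _
          have h3 := sub_mem h1 h2
          rwa [add_sub_cancel_right] at h3
        have hdn : ∀ r : Fin N, (r : ℕ) = n → B.dia T r ∈ F := by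
          intro r hr
          have h1 := hexp r r r (by rw [min_self, hr]) hr
          rwa [Lin.low_self, Lin.upp_self, one_mul, mul_one] at h1
        intro p q hpq
        rcases lt_trichotomy p q with h | h | h
        · have hp : (p : ℕ) = n := by rw [Fin.lt_def] at h; omega
          have h1 := hexp p q p hpq hp
          rw [Lin.low_self, one_mul, Lin.upp_gt B T h] at h1
          have h2 := mul_mem (inv_mem (hdn p hp)) h1
          rwa [← mul_assoc, inv_mul_cancel₀ (h0 p), one_mul] at h2
        · subst h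
          have h1 := hdn p (by rw [min_self] at hpq; exact hpq)
          rw [Blk.mat, dif_pos rfl]
          exact h1
        · have hq : (q : ℕ) = n := by rw [Fin.lt_def] at h; omega
          have h1 := hexp p q q hpq hq
          rw [Lin.upp_self, mul_one, Lin.low_gt B T h] at h1
          have h2 := mul_mem h1 (inv_mem (hdn q hq))
          rwa [mul_assoc, mul_inv_cancel₀ (h0 q), mul_one] at h2
    rintro _ ⟨i, rfl⟩
    have h1 := key _ (B.rw i) (B.cl i) rfl
    simp only [Blk.mat] at h1
    rw [dif_pos (B.rw_cl i), B.ix_rw_cl] at h1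
    exact h1

/-- a generating family of the right size is independent -/
theorem Lin.indep_of_gen {y t : Fin (m + 1) → K} (hy : AlgebraicIndependent k y)
    (hg : IntermediateField.adjoin k (Set.range t) = ⊤) : AlgebraicIndependent k t := by
  have halg : Algebra.IsAlgebraic (Algebra.adjoin k (Set.range t)) K := by
    constructor
    intro x
    have hx : x ∈ IntermediateField.adjoin k (Set.range t) := by rw [hg]; trivial
    obtain ⟨r, hr, s, hs, rfl⟩ := IntermediateField.mem_adjoin_iff_div.mp hx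
    have h1 : IsAlgebraic (Algebra.adjoin k (Set.range t)) r :=
      isAlgebraic_algebraMap (⟨r, hr⟩ : Algebra.adjoin k (Set.range t))
    have h2 : IsAlgebraic (Algebra.adjoin k (Set.range t)) s :=
      isAlgebraic_algebraMap (⟨s, hs⟩ : Algebra.adjoin k (Set.range t))
    rw [div_eq_mul_inv]
    exact h1.mul h2.inv
  have h := Algebra.IsAlgebraic.isTranscendenceBasis_of_lift_le_trdeg_of_finite k t
    hy.lift_cardinalMk_le_trdeg
  exact h.1

/-- the coordinates `L, d, U` generate `K` and are independent -/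
theorem gen_T : IntermediateField.adjoin k (Set.range C.T) = ⊤ := by
  rw [← Lin.gen_ldu C.T (d_ne C), C.hT, vec_mat]
  exact C.gen

theorem ind_T : AlgebraicIndependent k C.T := Lin.indep_of_gen C.ind (gen_T C)

/-- uniqueness of the decomposition -/
theorem ldu_inj {F : Type v} [Field F] {T T' : Fin (m + 1) → F} (h : B.ldu T = B.ldu T')
    (h0 : ∀ p, B.dia T p ≠ 0) : T = T' := by
  have hL : IsUnit (B.low T').det := by rw [det_low]; exact isUnit_one
  have hU : IsUnit (B.upp T).det := by rw [det_upp]; exact isUnit_one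
  let iL := Matrix.invertibleOfIsUnitDet _ hL
  let iU := Matrix.invertibleOfIsUnitDet _ hU
  have hLi : ((B.low T')⁻¹).IsLowerTriangular :=
    Matrix.blockTriangular_inv_of_blockTriangular (Lin.low_tri B T')
  have hUi : ((B.upp T)⁻¹).IsUpperTriangular :=
    Matrix.blockTriangular_inv_of_blockTriangular (Lin.upp_tri B T)
  have hdl : ∀ t : Fin N → F, (Matrix.diagonal t).IsLowerTriangular := fun t p q hpq =>
    Matrix.diagonal_apply_ne _ (show p < q from hpq).ne
  have hdu : ∀ t : Fin N → F, (Matrix.diagonal t).IsUpperTriangular := fun t p q hpq =>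
    Matrix.diagonal_apply_ne _ (show q < p from hpq).ne'
  set M := (B.low T')⁻¹ * B.low T * Matrix.diagonal (B.dia T) with hM
  have hM' : M = Matrix.diagonal (B.dia T') * B.upp T' * (B.upp T)⁻¹ := by
    rw [Blk.ldu, Blk.ldu] at h
    calc M = (B.low T')⁻¹ * (B.low T * Matrix.diagonal (B.dia T)) * (B.upp T * (B.upp T)⁻¹) := by
          rw [Matrix.mul_nonsing_inv _ hU, mul_one, hM, mul_assoc]
      _ = (B.low T')⁻¹ * (B.low T * Matrix.diagonal (B.dia T) * B.upp T) * (B.upp T)⁻¹ := by
          simp only [mul_assoc]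
      _ = (B.low T')⁻¹ * (B.low T' * Matrix.diagonal (B.dia T') * B.upp T') * (B.upp T)⁻¹ := by
          rw [h]
      _ = ((B.low T')⁻¹ * B.low T') * (Matrix.diagonal (B.dia T') * B.upp T') * (B.upp T)⁻¹ := by
          simp only [mul_assoc]
      _ = _ := by rw [Matrix.nonsing_inv_mul _ hL, one_mul]
  have hMl : M.IsLowerTriangular :=
    (hLi.mul (Lin.low_tri B T)).mul (hdl _)
  have hMu : M.IsUpperTriangular := by
    rw [hM']
    exact ((hdu _).mul (Lin.upp_tri B T')).mul hUi
  have hMd : M = Matrix.diagonal fun p => M p p := by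
    ext p q
    rcases lt_trichotomy p q with hpq | hpq | hpq
    · rw [Matrix.diagonal_apply_ne _ hpq.ne]
      exact hMl hpq
    · subst hpq
      rw [Matrix.diagonal_apply_eq]
    · rw [Matrix.diagonal_apply_ne _ hpq.ne']
      exact hMu hpq
  have e1 : B.low T * Matrix.diagonal (B.dia T) = B.low T' * Matrix.diagonal fun p => M p p := by
    rw [← hMd, hM]
    simp only [← mul_assoc]
    rw [Matrix.mul_nonsing_inv _ hL, one_mul]
  have e2 : (Matrix.diagonal fun p => M p p) * B.upp T = Matrix.diagonal (B.dia T') * B.upp T' := by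
    rw [← hMd, hM', mul_assoc, Matrix.nonsing_inv_mul _ hU, mul_one]
  have f1 : ∀ p q, B.low T p q * B.dia T q = B.low T' p q * M q q := fun p q => by
    have := congrFun (congrFun e1 p) q
    rwa [Matrix.mul_diagonal, Matrix.mul_diagonal] at this
  have f2 : ∀ p q, M p p * B.upp T p q = B.dia T' p * B.upp T' p q := fun p q => by
    have := congrFun (congrFun e2 p) q
    rwa [Matrix.diagonal_mul, Matrix.diagonal_mul] at this
  have g1 : ∀ p, M p p = B.dia T p := fun p => by
    have := f1 p p
    rw [Lin.low_self, Lin.low_self, one_mul, one_mul] at this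
    exact this.symm
  have g2 : ∀ p, B.dia T p = B.dia T' p := fun p => by
    have := f2 p p
    rw [Lin.upp_self, Lin.upp_self, mul_one, mul_one, g1] at this
    exact this
  have g3 : ∀ p q, B.low T p q = B.low T' p q := fun p q => by
    have := f1 p q
    rw [g1] at this
    exact mul_right_cancel₀ (h0 q) this
  have g4 : ∀ p q, B.upp T p q = B.upp T' p q := fun p q => by
    have := f2 p q
    rw [g1, ← g2] at this
    exact mul_left_cancel₀ (h0 p) this
  funext i
  rcases lt_trichotomy (B.rw i) (B.cl i) with hi | hi | hi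
  · have h1 := g4 (B.rw i) (B.cl i)
    rw [Lin.upp_gt B T hi, Lin.upp_gt B T' hi] at h1
    simp only [Blk.mat] at h1
    rwa [dif_pos (B.rw_cl i), dif_pos (B.rw_cl i), B.ix_rw_cl] at h1
  · have h1 := g2 (B.rw i)
    simp only [Blk.dia, Blk.dx] at h1
    have h2 : B.ix (B.rw i) (B.rw i) rfl = i := by
      have h3 := B.ix_rw_cl i
      conv_rhs => rw [← h3]
      congr 1
    rwa [h2] at h1
  · have h1 := g3 (B.rw i) (B.cl i)
    rw [Lin.low_gt B T hi, Lin.low_gt B T' hi] at h1
    simp only [Blk.mat] at h1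
    rwa [dif_pos (B.rw_cl i), dif_pos (B.rw_cl i), B.ix_rw_cl] at h1

theorem aeval_y (P : MvPolynomial (Fin (m + 1)) k) : aeval C.y P = aeval C.T (B.Th k P) := by
  have h3 := Lin.ldu_map (B := B) (aeval C.T : MvPolynomial (Fin (m + 1)) k →ₐ[k] K).toRingHom
    (X : Fin (m + 1) → MvPolynomial (Fin (m + 1)) k)
  have h4 : (fun i => (aeval C.T : MvPolynomial (Fin (m + 1)) k →ₐ[k] K).toRingHom (X i)) = C.T := by
    funext i
    exact aeval_X _ _
  rw [h4] at h3
  have h5 : (aeval C.T).comp (B.Th k) = aeval C.y := by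
    apply MvPolynomial.algHom_ext
    intro i
    rw [AlgHom.comp_apply, Blk.Th, aeval_X, aeval_X]
    have h6 : C.y i = B.vec (B.mat C.y) i := by rw [vec_mat]
    rw [h6, ← C.hT, h3]
    rfl
  rw [← h5]
  rfl

/-- the off-diagonal and the diagonal part of a monomial -/
theorem Lin.monomial_T {F : Type v} [Field F] (T : Fin (m + 1) → F) (s : Fin (m + 1) →₀ ℕ) :
    ∏ i, T i ^ s i = (∏ i, if B.rw i = B.cl i then 1 else T i ^ s i) *
      ∏ p, T (B.dx p) ^ s (B.dx p) := by
  have h1 : ∏ i, T i ^ s i = (∏ i, if B.rw i = B.cl i then 1 else T i ^ s i) *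
      ∏ i, if B.rw i = B.cl i then T i ^ s i else 1 := by
    rw [← Finset.prod_mul_distrib]
    refine Finset.prod_congr rfl fun i _ => ?_
    split_ifs
    · rw [one_mul]
    · rw [mul_one]
  rw [h1, ← Finset.prod_filter]
  congr 1
  symm
  refine Finset.prod_bij (fun p _ => B.dx p) ?_ ?_ ?_ ?_
  · intro p _
    rw [Finset.mem_filter]
    exact ⟨Finset.mem_univ _, by rw [Blk.dx, B.rw_ix, B.cl_ix]⟩
  · intro p _ q _ h
    have := congrArg B.rw h
    rwa [Blk.dx, B.rw_ix, Blk.dx, B.rw_ix] at this
  · intro i hi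
    rw [Finset.mem_filter] at hi
    refine ⟨B.rw i, Finset.mem_univ _, ?_⟩
    have h3 := B.ix_rw_cl i
    conv_rhs => rw [← h3]
    rw [Blk.dx]
    congr 1
    exact hi.2
  · intro p _
    rfl

/-- expansion of a regular function on the big cell -/
theorem rep_sum {f : K} {n : ℕ} {P : MvPolynomial (Fin (m + 1)) k} (h : C.PRep f n P) :
    f = ∑ s ∈ (B.Th k P).support,
      algebraMap k K ((B.Th k P).coeff s) * (C.off s * C.dm (B.dg s - fun _ => (n : ℤ))) := by
  have hd := det_g_ne C
  have h1 : f = aeval C.T (B.Th k P) * (C.g.det ^ n)⁻¹ := by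
    rw [← aeval_y, ← h]
    field_simp
  rw [h1, aeval_def, eval₂_eq', Finset.sum_mul]
  refine Finset.sum_congr rfl fun s _ => ?_
  rw [mul_assoc]
  congr 1
  rw [Lin.monomial_T (B := B) C.T s, mul_assoc]
  have h2 : C.dm (B.dg s - fun _ => (n : ℤ)) = (∏ p, C.T (B.dx p) ^ s (B.dx p)) * (C.g.det ^ n)⁻¹ := by
    rw [sub_eq_add_neg, dm_add, dm_neg, det_g, GC.dm, GC.dm, ← Finset.prod_pow]
    congr 1
    · exact Finset.prod_congr rfl fun p _ => zpow_natCast _ _
    · exact congrArg _ (Finset.prod_congr rfl fun p _ => zpow_natCast _ _)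
  rw [h2]
  rfl

theorem rep_unique {f : K} {n : ℕ} {P P' : MvPolynomial (Fin (m + 1)) k} (h : C.PRep f n P)
    (h' : C.PRep f n P') : P = P' := by
  have h1 : aeval C.y P = aeval C.y P' := by rw [← h, ← h']
  exact C.ind h1

theorem rep_succ {f : K} {n : ℕ} {P : MvPolynomial (Fin (m + 1)) k} (h : C.PRep f n P) (r : ℕ) :
    C.PRep f (n + r) (P * (B.XX k).det ^ r) := by
  rw [GC.PRep, map_mul, map_pow, Lin.aeval_det, ← h, pow_add, mul_assoc]

theorem rep_inj {P : MvPolynomial (Fin (m + 1)) k} (h : B.Th k P = 0) : P = 0 := by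
  let F := FractionRing (MvPolynomial (Fin (m + 1)) k)
  let T : Fin (m + 1) → F := fun i => algebraMap (MvPolynomial (Fin (m + 1)) k) F (X i)
  have hinj : Function.Injective (algebraMap (MvPolynomial (Fin (m + 1)) k) F) :=
    IsFractionRing.injective _ _
  have hT : AlgebraicIndependent k T :=
    (MvPolynomial.algebraicIndependent_X (Fin (m + 1)) k).map'
      (f := IsScalarTower.toAlgHom k (MvPolynomial (Fin (m + 1)) k) F) hinj
  have h0 : ∀ p, B.dia T p ≠ 0 := fun p => hT.ne_zero _
  have hgen : IntermediateField.adjoin k (Set.range T) = ⊤ := by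
    rw [eq_top_iff]
    intro x _
    obtain ⟨a, b, hb, rfl⟩ := IsFractionRing.div_surjective (A := MvPolynomial (Fin (m + 1)) k) x
    have hp : ∀ a : MvPolynomial (Fin (m + 1)) k,
        algebraMap (MvPolynomial (Fin (m + 1)) k) F a ∈ IntermediateField.adjoin k (Set.range T) := by
      intro a
      have h1 : algebraMap (MvPolynomial (Fin (m + 1)) k) F a = aeval T a := by
        have h2 : IsScalarTower.toAlgHom k (MvPolynomial (Fin (m + 1)) k) F = aeval T := by
          apply MvPolynomial.algHom_ext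
          intro i
          rw [aeval_X]
          rfl
        rw [← h2]
        rfl
      rw [h1, aeval_def, eval₂_eq']
      refine sum_mem fun s _ => mul_mem (IntermediateField.algebraMap_mem _ _) ?_
      refine prod_mem fun i _ => pow_mem ?_ _
      exact IntermediateField.subset_adjoin _ _ ⟨i, rfl⟩
    exact div_mem (hp a) (hp b)
  have hind : AlgebraicIndependent k (B.vec (B.ldu T)) := by
    apply Lin.indep_of_gen hT
    rw [Lin.gen_ldu T h0, hgen]
  apply (algebraicIndependent_iff.mp hind) P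
  have h5 : ((IsScalarTower.toAlgHom k (MvPolynomial (Fin (m + 1)) k) F)).comp (B.Th k) =
      aeval (B.vec (B.ldu T)) := by
    apply MvPolynomial.algHom_ext
    intro i
    rw [AlgHom.comp_apply, Blk.Th, aeval_X, aeval_X]
    have h3 := Lin.ldu_map (B := B) (algebraMap (MvPolynomial (Fin (m + 1)) k) F)
      (X : Fin (m + 1) → MvPolynomial (Fin (m + 1)) k)
    show _ = B.vec (B.ldu fun i => algebraMap (MvPolynomial (Fin (m + 1)) k) F (X i)) i
    rw [h3]
    rfl
  rw [← h5, AlgHom.comp_apply, h, map_zero]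

theorem reg_add {f f' : K} (h : C.Reg f) (h' : C.Reg f') : C.Reg (f + f') := by
  obtain ⟨n, P, hP⟩ := h
  obtain ⟨n', P', hP'⟩ := h'
  refine ⟨n + n', P * (B.XX k).det ^ n' + P' * (B.XX k).det ^ n, ?_⟩
  have h1 := rep_succ C hP n'
  have h2 := rep_succ C hP' n
  rw [GC.PRep] at h1 h2 ⊢
  rw [add_comm n' n] at h2
  rw [add_mul, h1, h2, map_add]

theorem reg_mul {f f' : K} (h : C.Reg f) (h' : C.Reg f') : C.Reg (f * f') := by
  obtain ⟨n, P, hP⟩ := h
  obtain ⟨n', P', hP'⟩ := h'
  refine ⟨n + n', P * P', ?_⟩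
  rw [GC.PRep] at hP hP' ⊢
  rw [map_mul, ← hP, ← hP', pow_add]
  ring

theorem reg_const (c : k) : C.Reg (algebraMap k K c) :=
  ⟨0, MvPolynomial.C c, by rw [GC.PRep, pow_zero, mul_one, aeval_C]⟩

theorem reg_g (p q : Fin N) : C.Reg (C.g p q) := by
  refine ⟨0, B.XX k p q, ?_⟩
  rw [GC.PRep, pow_zero, mul_one, Blk.XX, GC.g]
  simp only [Blk.mat]
  split_ifs
  · rw [aeval_X]
  · rw [map_zero]

theorem reg_det_inv : C.Reg (C.g.det)⁻¹ :=
  ⟨1, 1, by rw [GC.PRep, pow_one, map_one, inv_mul_cancel₀ (det_g_ne C)]⟩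

end

end Pool.Agent.MLD.Mon
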