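import Pool.Agent.Lib.MP_f23696_ag.M.Ctx
import Pool.Agent.Lib.MP_f23696_ag.Mono
import Pool.Agent.Lib.MP_f23696_ag.Brg

set_option autoImplicit false

open scoped Classical

/-!
Module MNV of project MON (MP_f23696_ag): monomial valuations of `k(t_0, ..., t_m)`.
-/

namespace Pool.Agent.MLD.Mon

open MvPolynomial

noncomputable section

universe u v w

variable {m : ℕ} {k : Type u} {K : Type v} [Field k] [Field K] [Algebra k K]

namespace Mnv

/-- the exponents of the variables `1, ..., m` -/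
def ex (s : Fin (m + 1) →₀ ℕ) : Fin m → ℤ := fun i => (s i.succ : ℤ)

/-- the coefficient of a monomial in the variables `1, ..., m` -/
def qq (P : MvPolynomial (Fin (m + 1)) k) (u : Fin m → ℤ) : Polynomial k :=
  ∑ s ∈ P.support.filter (fun s => ex s = u), Polynomial.monomial (s 0) (P.coeff s)

theorem ex_inj {s s' : Fin (m + 1) →₀ ℕ} (h : ex s = ex s') (h0 : s 0 = s' 0) : s = s' := by
  ext i
  refine Fin.cases h0 (fun i => ?_) i
  have h1 := congrFun h i
  have h2 : (s i.succ : ℤ) = s' i.succ := h1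
  exact_mod_cast h2

theorem coeff_qq (P : MvPolynomial (Fin (m + 1)) k) {s : Fin (m + 1) →₀ ℕ} (hs : s ∈ P.support) :
    (qq P (ex s)).coeff (s 0) = P.coeff s := by
  rw [qq, Polynomial.finsetSum_coeff, Finset.sum_eq_single s]
  · rw [Polynomial.coeff_monomial, if_pos rfl]
  · intro s' hs' hne
    rw [Polynomial.coeff_monomial, if_neg]
    intro h
    exact hne (ex_inj (Finset.mem_filter.1 hs').2 h)
  · intro h
    exact (h (Finset.mem_filter.2 ⟨hs, rfl⟩)).elim

theorem exists_of_coeff (P : MvPolynomial (Fin (m + 1)) k) (u : Fin m → ℤ) (d : ℕ)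
    (h : (qq P u).coeff d ≠ 0) : ∃ s ∈ P.support, ex s = u ∧ s 0 = d := by
  rw [qq, Polynomial.finsetSum_coeff] at h
  obtain ⟨s, hs, h1⟩ := Finset.exists_ne_zero_of_sum_ne_zero h
  refine ⟨s, (Finset.mem_filter.1 hs).1, (Finset.mem_filter.1 hs).2, ?_⟩
  by_contra hne
  rw [Polynomial.coeff_monomial, if_neg hne] at h1
  exact h1 rfl

theorem ord_poly {q : Polynomial k} :
    ordAt (some 0) (algebraMap (Polynomial k) (RatFunc k) q) = q.natTrailingDegree := by
  show ((RatFunc.num (algebraMap (Polynomial k) (RatFunc k) q)).rootMultiplicity 0 : ℤ) -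
    ((RatFunc.denom (algebraMap (Polynomial k) (RatFunc k) q)).rootMultiplicity 0 : ℤ) = _
  rw [RatFunc.num_algebraMap, RatFunc.denom_algebraMap,
    ← Polynomial.rootMultiplicity_eq_natTrailingDegree']
  have : Polynomial.rootMultiplicity 0 (1 : Polynomial k) = 0 := by
    rw [← Polynomial.C_1, Polynomial.rootMultiplicity_C]
  rw [this]
  simp

theorem aeval_eq (C : Ctx k K m) (t : Fin (m + 1) → K) (h0 : C.ι RatFunc.X = t 0)
    (hS : ∀ i, C.x i = t i.succ) (P : MvPolynomial (Fin (m + 1)) k) :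
    aeval t P = ∑ u ∈ P.support.image ex,
      C.mon (algebraMap (Polynomial k) (RatFunc k) (qq P u)) u := by
  rw [aeval_def, eval₂_eq', ← Finset.sum_fiberwise_of_maps_to (g := ex)
    (t := P.support.image ex) (fun s hs => Finset.mem_image_of_mem ex hs)]
  refine Finset.sum_congr rfl fun u _ => ?_
  rw [Ctx.mon, Mono.alg_poly, h0, qq, map_sum, Finset.sum_mul]
  refine Finset.sum_congr rfl fun s hs => ?_
  rw [Polynomial.aeval_monomial, Fin.prod_univ_succ, mul_assoc]
  congr 2
  refine Finset.prod_congr rfl fun i _ => ?_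
  rw [hS, ← (Finset.mem_filter.1 hs).2]
  exact (zpow_natCast _ _).symm

end Mnv

open Mnv in
theorem monv [IsAlgClosed k] [CharZero k] (t : Fin (m + 1) → K) (ht : AlgebraicIndependent k t)
    (hg : IntermediateField.adjoin k (Set.range t) = ⊤) (E : Fin (m + 1) → Derivation k K K)
    (hE : ∀ i j, E i (t j) = if i = j then 1 else 0) (w : Fin (m + 1) → ℕ)
    (hw : ∃ c : Fin (m + 1) → ℤ, ∑ i, c i * w i = 1) :
    ∃ v : DVal k K, v.IsDivisorial m ∧ v.FormOrd E (∑ i, (w i : ℤ) - 1) ∧
      (∀ i, v.ord (t i) = w i) ∧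
      ∀ P : MvPolynomial (Fin (m + 1)) k, P ≠ 0 →
        (∃ s ∈ P.support, v.ord (aeval t P) = ∑ i, (s i : ℤ) * w i) ∧
        ∀ s ∈ P.support, v.ord (aeval t P) ≤ ∑ i, (s i : ℤ) * w i := by
  obtain ⟨C, hCE, hC0, hCS, -⟩ := bridge t ht hg E hE
  let V : HV k m := ⟨some 0, w 0, fun i => (w i.succ : ℤ)⟩
  have hval : ∀ g u, V.val g u = w 0 * ordAt (some 0) g + ∑ i : Fin m, (w i.succ : ℤ) * u i :=
    fun g u => rfl
  have hdisc : V.disc = ∑ i, (w i : ℤ) := by
    show ((w 0 : ℕ) : ℤ) * kap (some (0 : k)) + ∑ i : Fin m, (w i.succ : ℤ) = _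
    rw [Fin.sum_univ_succ]
    show ((w 0 : ℕ) : ℤ) * 1 + ∑ i : Fin m, (w i.succ : ℤ) = _
    rw [mul_one]
  obtain ⟨c, hc⟩ := hw
  obtain ⟨v, hv1, hv2, hv3, hv4⟩ := mono C V ⟨Mono.zP (some 0) ^ c 0, fun i => c i.succ,
    zpow_ne_zero _ (Mono.zP_ne _), by
      rw [hval, Mono.ord_zpow _ (Mono.zP_ne _), Mono.ord_zP, mul_one, ← hc, Fin.sum_univ_succ,
        mul_comm]
      congr 1
      exact Finset.sum_congr rfl fun i _ => mul_comm _ _⟩
  refine ⟨v, hv1, ?_, ?_, ?_⟩
  · rw [← hCE, ← hdisc]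
    exact hv2
  · intro i
    refine Fin.cases ?_ (fun i => ?_) i
    · have h1 := hv3 RatFunc.X 0 RatFunc.X_ne_zero
      have h2 := ordAt_X_sub (0 : k) 0
      rw [if_pos rfl, map_zero, sub_zero] at h2
      rw [hval, h2, Ctx.mon, hC0] at h1
      simpa using h1
    · have h1 := hv3 1 (Pi.single i 1) one_ne_zero
      have h2 := ordAt_C (some (0 : k)) 1
      rw [map_one] at h2
      rw [hval, h2, Ctx.mon, map_one, one_mul, Finset.prod_eq_single i, Finset.sum_eq_single i] at h1
      · rw [hCS] at h1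
        simpa using h1
      · intro j _ hj
        rw [Pi.single_eq_of_ne hj, mul_zero]
      · intro h
        exact absurd (Finset.mem_univ i) h
      · intro j _ hj
        rw [Pi.single_eq_of_ne hj, zpow_zero]
      · intro h
        exact absurd (Finset.mem_univ i) h
  · intro P hP
    have hsupp : P.support.Nonempty := support_nonempty.2 hP
    have hq : ∀ u ∈ P.support.image ex, qq P u ≠ 0 := by
      intro u hu h
      obtain ⟨s, hs, rfl⟩ := Finset.mem_image.1 hu
      have h1 := coeff_qq P hs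
      rw [h, Polynomial.coeff_zero] at h1
      exact mem_support_iff.1 hs h1.symm
    have h4 := hv4 (P.support.image ex) (hsupp.image ex)
      (fun u => algebraMap (Polynomial k) (RatFunc k) (qq P u)) (fun u hu h => hq u hu
        ((map_eq_zero_iff _ (RatFunc.algebraMap_injective k)).1 h))
    rw [← aeval_eq C t hC0 hCS P] at h4
    have hsum : ∀ s : Fin (m + 1) →₀ ℕ, ∑ i, (s i : ℤ) * w i =
        w 0 * (s 0 : ℤ) + ∑ i : Fin m, (w i.succ : ℤ) * ex s i := by
      intro s
      rw [Fin.sum_univ_succ, mul_comm]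
      congr 1
      exact Finset.sum_congr rfl fun i _ => mul_comm _ _
    constructor
    · obtain ⟨u, hu, h5⟩ := Finset.exists_mem_eq_inf' (hsupp.image ex)
        (fun u => V.val (algebraMap (Polynomial k) (RatFunc k) (qq P u)) u)
      obtain ⟨s, hs, h6, h7⟩ := exists_of_coeff P u _
        (Polynomial.trailingCoeff_nonzero_iff_nonzero.2 (hq u hu))
      refine ⟨s, hs, ?_⟩
      rw [h4, h5, hval, ord_poly, hsum, h6, h7]
    · intro s hs
      rw [h4, hsum]
      refine (Finset.inf'_le _ (Finset.mem_image_of_mem ex hs)).trans ?_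
      rw [hval, ord_poly]
      have h8 : (qq P (ex s)).natTrailingDegree ≤ s 0 := by
        apply Polynomial.natTrailingDegree_le_of_ne_zero
        rw [coeff_qq P hs]
        exact mem_support_iff.1 hs
      have h9 : ((qq P (ex s)).natTrailingDegree : ℤ) ≤ s 0 := by exact_mod_cast h8
      have h10 := mul_le_mul_of_nonneg_left h9 (Int.natCast_nonneg (w 0))
      linarith

end

end Pool.Agent.MLD.Mon
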