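import Pool.Agent.Lib.MP_f23696_ag.M.Tra
import Pool.Agent.Lib.MP_f23696_ag.T.Ind
import Pool.Agent.Lib.MP_f23696_ag.T.Der
import Pool.Agent.Lib.MP_f23696_ag.Dvr
import Pool.Agent.Lib.MP_f23696_ag.Jind

/-!
MON module REG (MP_f23696_ag): regular functions on `G` and points of `G`.
-/

set_option autoImplicit false

open scoped Classical

namespace Pool.Agent.MLD.Mon

open MvPolynomial
open Pool.Agent.MLD.Ten (IsGood)

noncomputable section

universe u v w

variable {N m : ℕ} {B : Blk N m} {k : Type u} {K : Type v} [Field k] [Field K] [Algebra k K]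

section REG

namespace Reg

/-- evaluation of the generic matrix -/
theorem map_XX {h : Matrix (Fin N) (Fin N) k} (hh : B.IsBl h) :
    (B.XX k).map (eval (B.vec h)) = h := by
  ext p q
  rw [Matrix.map_apply]
  unfold Blk.XX Blk.mat
  split_ifs with hpq
  · rw [eval_X]
    show h (B.rw (B.ix p q hpq)) (B.cl (B.ix p q hpq)) = h p q
    rw [B.rw_ix, B.cl_ix]
  · rw [map_zero, hh p q hpq]

theorem eval_det {h : Matrix (Fin N) (Fin N) k} (hh : B.IsBl h) :
    eval (B.vec h) (B.XX k).det = h.det := by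
  rw [RingHom.map_det]
  show ((B.XX k).map (eval (B.vec h))).det = _
  rw [map_XX hh]

theorem eval_trP {a c h : Matrix (Fin N) (Fin N) k} (hh : B.IsBl h)
    (P : MvPolynomial (Fin (m + 1)) k) :
    eval (B.vec h) (B.trP a c P) = eval (B.vec (a * h * c)) P := by
  have h1 : (eval (B.vec h)).comp (B.trP a c : MvPolynomial (Fin (m + 1)) k →+* _) =
      eval (B.vec (a * h * c)) := by
    apply MvPolynomial.ringHom_ext
    · intro r
      simp [Blk.trP]
    · intro i
      rw [RingHom.comp_apply, eval_X]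
      show eval (B.vec h) (aeval (B.vec (a.map C * B.XX k * c.map C)) (X i)) = _
      rw [aeval_X]
      have h2 : (a.map C * B.XX k * c.map C :
          Matrix (Fin N) (Fin N) (MvPolynomial (Fin (m + 1)) k)).map (eval (B.vec h)) =
          a * h * c := by
        rw [Matrix.map_mul, Matrix.map_mul, map_XX hh, Matrix.map_map, Matrix.map_map]
        have h3 : (⇑(eval (B.vec h)) ∘ ⇑(C : k →+* MvPolynomial (Fin (m + 1)) k)) = id := by
          funext x
          simp
        rw [h3, Matrix.map_id, Matrix.map_id]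
      rw [← h2]
      simp only [Blk.vec, Matrix.map_apply]
  exact congrFun (congrArg DFunLike.coe h1) P

theorem aeval_det (C : GC k K B) : aeval C.y (B.XX k).det = C.g.det := by
  have h0 : (aeval C.y : MvPolynomial (Fin (m + 1)) k →ₐ[k] K).toRingHom (B.XX k).det =
      ((B.XX k).map (aeval C.y)).det := RingHom.map_det _ _
  have h1 : (B.XX k).map (aeval C.y) = C.g := by
    ext p q
    rw [Matrix.map_apply]
    unfold Blk.XX GC.g Blk.mat
    split_ifs with hpq
    · rw [aeval_X]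
    · rw [map_zero]
  rw [← h1]
  exact h0

/-- the ring of regular functions -/
def R (C : GC k K B) : Subalgebra k K where
  carrier := {f | C.Reg f}
  mul_mem' := fun ha hb => reg_mul C ha hb
  add_mem' := fun ha hb => reg_add C ha hb
  algebraMap_mem' := fun r => reg_const C r

theorem mem_R {C : GC k K B} {f : K} : f ∈ R C ↔ C.Reg f := Iff.rfl

theorem reg_pow {C : GC k K B} {f : K} (hf : C.Reg f) (n : ℕ) : C.Reg (f ^ n) :=
  (R C).pow_mem (x := f) hf n

theorem reg_poly (C : GC k K B) (P : MvPolynomial (Fin (m + 1)) k) : C.Reg (aeval C.y P) :=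
  ⟨0, P, by unfold GC.PRep; rw [pow_zero, mul_one]⟩

theorem reg_y (C : GC k K B) (i : Fin (m + 1)) : C.Reg (C.y i) := by
  have := reg_poly C (X i)
  rwa [aeval_X] at this

/-- the generators of the ring of regular functions -/
def S (C : GC k K B) : Finset K := insert (C.g.det)⁻¹ (Finset.univ.image C.y)

theorem R_eq (C : GC k K B) : R C = Algebra.adjoin k (S C : Set K) := by
  apply le_antisymm
  · rintro f ⟨n, P, h⟩
    have h1 : f = aeval C.y P * ((C.g.det)⁻¹) ^ n := by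
      unfold GC.PRep at h
      rw [← h, inv_pow, mul_assoc, mul_inv_cancel₀ (pow_ne_zero _ (det_g_ne C)), mul_one]
    rw [h1]
    refine Subalgebra.mul_mem _ ?_ (Subalgebra.pow_mem _ (Algebra.subset_adjoin ?_) _)
    · have h2 : aeval C.y P ∈ (aeval C.y : MvPolynomial (Fin (m + 1)) k →ₐ[k] K).range :=
        ⟨P, rfl⟩
      rw [← Algebra.adjoin_range_eq_range_aeval] at h2
      refine Algebra.adjoin_mono ?_ h2
      rintro _ ⟨i, rfl⟩
      simp [S]
    · simp [S]
  · rw [Algebra.adjoin_le_iff]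
    intro x hx
    simp only [S, Finset.coe_insert, Finset.coe_image, Finset.coe_univ, Set.image_univ,
      Set.mem_insert_iff, Set.mem_range] at hx
    rcases hx with rfl | ⟨i, rfl⟩
    · exact reg_det_inv C
    · exact reg_y C i

theorem R_fg (C : GC k K B) : (R C).FG := ⟨S C, (R_eq C).symm⟩

/-- induction principle for regular functions -/
theorem induct {C : GC k K B} {p : K → Prop} (hy : ∀ i, p (C.y i)) (hd : p (C.g.det)⁻¹)
    (hc : ∀ c : k, p (algebraMap k K c))
    (ha : ∀ f f', C.Reg f → C.Reg f' → p f → p f' → p (f + f'))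
    (hm : ∀ f f', C.Reg f → C.Reg f' → p f → p f' → p (f * f')) {f : K} (hf : C.Reg f) : p f := by
  have hf' : f ∈ Algebra.adjoin k (S C : Set K) := by
    rw [← R_eq]
    exact hf
  induction hf' using Algebra.adjoin_induction with
  | mem x hx =>
    simp only [S, Finset.coe_insert, Finset.coe_image, Finset.coe_univ, Set.image_univ,
      Set.mem_insert_iff, Set.mem_range] at hx
    rcases hx with rfl | ⟨i, rfl⟩
    · exact hd
    · exact hy i
  | algebraMap c => exact hc c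
  | add x y hx hy hx' hy' =>
    rw [← R_eq] at hx hy
    exact ha x y hx hy (hx' hx) (hy' hy)
  | mul x y hx hy hx' hy' =>
    rw [← R_eq] at hx hy
    exact hm x y hx hy (hx' hx) (hy' hy)

end Reg

variable [IsAlgClosed k] {C : GC k K B} {A : Subalgebra k K}

theorem nv_iff {h : Matrix (Fin N) (Fin N) k} (hh : B.IsG h) {f : K} {n : ℕ}
    {P : MvPolynomial (Fin (m + 1)) k} (hP : C.PRep f n P) :
    C.NV h f ↔ eval (B.vec h) P ≠ 0 := by
  constructor
  · rintro ⟨n', P', hP', h0⟩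
    have h1 := rep_succ C hP n'
    have h2 := rep_succ C hP' n
    rw [add_comm n' n] at h2
    have h3 := congrArg (eval (B.vec h)) (rep_unique C h1 h2)
    rw [map_mul, map_mul, map_pow, map_pow, Reg.eval_det hh.1] at h3
    intro h4
    rw [h4, zero_mul] at h3
    exact mul_ne_zero h0 (pow_ne_zero _ hh.2) h3.symm
  · intro h0
    exact ⟨n, P, hP, h0⟩

theorem nv_mul {h : Matrix (Fin N) (Fin N) k} (hh : B.IsG h) {f f' : K} (hf : C.Reg f)
    (hf' : C.Reg f') : C.NV h (f * f') ↔ C.NV h f ∧ C.NV h f' := by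
  obtain ⟨n, P, hP⟩ := hf
  obtain ⟨n', P', hP'⟩ := hf'
  have h1 : C.PRep (f * f') (n + n') (P * P') := by
    unfold GC.PRep at *
    rw [map_mul, ← hP, ← hP', pow_add]
    ring
  rw [nv_iff hh h1, nv_iff hh hP, nv_iff hh hP', map_mul, mul_ne_zero_iff]

theorem nv_exists {f : K} (hf : C.Reg f) (h0 : f ≠ 0) : ∃ h, B.IsG h ∧ C.NV h f := by
  obtain ⟨n, P, hP⟩ := hf
  have hP0 : P ≠ 0 := by
    rintro rfl
    unfold GC.PRep at hP
    rw [map_zero] at hP
    exact mul_ne_zero h0 (pow_ne_zero _ (det_g_ne C)) hP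
  have hD0 : (B.XX k).det ≠ 0 := by
    intro h
    have := Reg.aeval_det C
    rw [h, map_zero] at this
    exact det_g_ne C this.symm
  have : Infinite k := inferInstance
  obtain ⟨x, hx⟩ : ∃ x : Fin (m + 1) → k, eval x (P * (B.XX k).det) ≠ 0 := by
    by_contra hcon
    push Not at hcon
    refine mul_ne_zero hP0 hD0 (MvPolynomial.funext fun x => ?_)
    rw [hcon x, map_zero]
  rw [map_mul] at hx
  have h1 := left_ne_zero_of_mul hx
  have h2 := right_ne_zero_of_mul hx
  have hb : B.IsBl (B.mat x) := isBl_mat B x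
  have hv : B.vec (B.mat x) = x := vec_mat B x
  refine ⟨B.mat x, ⟨hb, ?_⟩, n, P, hP, ?_⟩
  · rw [← Reg.eval_det hb, hv]
    exact h2
  · rw [hv]
    exact h1

theorem nv_tra {a c h : Matrix (Fin N) (Fin N) k} {σ : K ≃ₐ[k] K} (hσ : C.IsTr a c σ)
    (hh : B.IsG h) {f : K} (hf : C.Reg f) : C.NV h (σ f) ↔ C.NV (a * h * c) f := by
  obtain ⟨n, P, hP⟩ := hf
  have h1 := rep_tr hσ hP
  have hG : B.IsG (a * h * c) := isG_mul (isG_mul hσ.1 hh) hσ.2.1
  rw [nv_iff hh h1, nv_iff hG hP, map_mul, eval_C, Reg.eval_trP hh.1]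
  have h2 : ((a.det * c.det) ^ n)⁻¹ ≠ 0 :=
    inv_ne_zero (pow_ne_zero _ (mul_ne_zero hσ.1.2 hσ.2.1.2))
  rw [mul_ne_zero_iff]
  exact ⟨fun h => h.2, fun h => ⟨h2, h⟩⟩

namespace Reg

omit [IsAlgClosed k] in
theorem nv_one {h : Matrix (Fin N) (Fin N) k} : C.NV h 1 :=
  ⟨0, 1, by unfold GC.PRep; simp, by simp⟩

theorem nv_pow {h : Matrix (Fin N) (Fin N) k} (hh : B.IsG h) {f : K} (hf : C.Reg f)
    (h' : C.NV h f) (n : ℕ) : C.NV h (f ^ n) := by
  induction n with
  | zero =>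
    rw [pow_zero]
    exact nv_one
  | succ n ih =>
    rw [pow_succ]
    exact (nv_mul hh (reg_pow hf n) hf).2 ⟨ih, h'⟩

/-- a translation moving a nonvanishing point of `f` to `h` -/
theorem exists_move {h : Matrix (Fin N) (Fin N) k} (hh : B.IsG h) {f : K} (hf : C.Reg f)
    (h0 : f ≠ 0) : ∃ σ, C.Tra σ ∧ C.NV h (σ f) := by
  obtain ⟨h₀, hG, hNV⟩ := nv_exists hf h0
  obtain ⟨σ, hσ⟩ := exists_tr C (isG_mul hG (isG_inv hh)) (isG_one (B := B) (k := k))
  refine ⟨σ, ⟨_, _, hσ⟩, (nv_tra hσ hh hf).2 ?_⟩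
  have hu : IsUnit h.det := isUnit_iff_ne_zero.2 hh.2
  rw [mul_one, Matrix.mul_assoc, Matrix.nonsing_inv_mul _ hu, mul_one]
  exact hNV

end Reg

theorem reg_of_local {f : K}
    (h : ∀ h, B.IsG h → ∃ s, C.Reg s ∧ C.NV h s ∧ C.Reg (s * f)) : C.Reg f := by
  let I : Ideal (Reg.R C) :=
    { carrier := {s | (s : K) * f ∈ Reg.R C}
      add_mem' := by
        intro s t hs ht
        show ((s + t : Reg.R C) : K) * f ∈ Reg.R C
        rw [Subalgebra.coe_add, add_mul]
        exact (Reg.R C).add_mem hs ht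
      zero_mem' := by
        show ((0 : Reg.R C) : K) * f ∈ Reg.R C
        rw [Subalgebra.coe_zero, zero_mul]
        exact (Reg.R C).zero_mem
      smul_mem' := by
        intro s t ht
        show ((s * t : Reg.R C) : K) * f ∈ Reg.R C
        rw [Subalgebra.coe_mul, mul_assoc]
        exact (Reg.R C).mul_mem s.2 ht }
  have hI : ∀ s : Reg.R C, s ∈ I ↔ (s : K) * f ∈ Reg.R C := fun _ => Iff.rfl
  by_cases htop : I = ⊤
  · have h1 : (1 : Reg.R C) ∈ I := by
      rw [htop]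
      trivial
    rw [hI, Subalgebra.coe_one, one_mul] at h1
    exact h1
  · exfalso
    obtain ⟨M, hM, hIM⟩ := Ideal.exists_le_maximal I htop
    have : Algebra.FiniteType k (Reg.R C) := (Subalgebra.fg_iff_finiteType _).1 (Reg.R_fg C)
    obtain ⟨β, hβ⟩ := Pool.Agent.MLD.Ten.point (k := k) M
    let yy : Fin (m + 1) → Reg.R C := fun i => ⟨C.y i, Reg.reg_y C i⟩
    let z : Fin (m + 1) → k := fun i => β (yy i)
    have hz : ∀ P : MvPolynomial (Fin (m + 1)) k, β (aeval yy P) = eval z P := by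
      intro P
      have h1 : β (aeval yy P) = aeval z P := by
        have := (MvPolynomial.comp_aeval_apply (R := k) yy β P)
        exact this
      rw [h1]
      rfl
    have hyy : ∀ P : MvPolynomial (Fin (m + 1)) k, ((aeval yy P : Reg.R C) : K) = aeval C.y P := by
      intro P
      have := MvPolynomial.comp_aeval_apply (R := k) yy (Reg.R C).val P
      exact this
    have hb : B.IsBl (B.mat z) := isBl_mat B z
    have hv : B.vec (B.mat z) = z := vec_mat B z
    have hdet : (B.mat z).det ≠ 0 := by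
      rw [← Reg.eval_det hb, hv, ← hz]
      have hu : IsUnit (aeval yy (B.XX k).det : Reg.R C) := by
        refine ⟨⟨aeval yy (B.XX k).det, ⟨(C.g.det)⁻¹, reg_det_inv C⟩, ?_, ?_⟩, rfl⟩
        · apply Subtype.ext
          rw [Subalgebra.coe_mul, hyy, Reg.aeval_det, Subalgebra.coe_one]
          exact mul_inv_cancel₀ (det_g_ne C)
        · apply Subtype.ext
          rw [Subalgebra.coe_mul, hyy, Reg.aeval_det, Subalgebra.coe_one]
          exact inv_mul_cancel₀ (det_g_ne C)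
      exact (hu.map β).ne_zero
    have hG : B.IsG (B.mat z) := ⟨hb, hdet⟩
    obtain ⟨s, hs, hNV, hsf⟩ := h _ hG
    have hsI : (⟨s, hs⟩ : Reg.R C) ∈ I := (hI _).2 hsf
    have hβ0 : β ⟨s, hs⟩ = 0 := by
      have : (⟨s, hs⟩ : Reg.R C) ∈ RingHom.ker β := by
        rw [hβ]
        exact hIM hsI
      exact this
    obtain ⟨n, P, hP⟩ := id hs
    have h2 : (⟨s, hs⟩ : Reg.R C) * (aeval yy (B.XX k).det) ^ n = aeval yy P := by
      apply Subtype.ext
      rw [Subalgebra.coe_mul, Subalgebra.coe_pow, hyy, hyy, Reg.aeval_det]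
      exact hP
    have h3 := congrArg β h2
    rw [map_mul, hβ0, zero_mul, hz] at h3
    have h4 := (nv_iff hG hP).1 hNV
    rw [hv] at h4
    exact h4 h3.symm

namespace Reg

omit [IsAlgClosed k] in
theorem frac_poly (C : GC k K B) (f : K) :
    ∃ a b : (aeval C.y : MvPolynomial (Fin (m + 1)) k →ₐ[k] K).range,
      (b : K) ≠ 0 ∧ f = (a : K) / b := by
  have hf : f ∈ IntermediateField.adjoin k (Set.range C.y) := by
    rw [C.gen]
    trivial
  rw [IntermediateField.mem_adjoin_range_iff] at hf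
  obtain ⟨r, s, h⟩ := hf
  by_cases hs : aeval C.y s = 0
  · refine ⟨0, 1, by simp, ?_⟩
    rw [h, hs, div_zero]
    simp
  · exact ⟨⟨_, ⟨r, rfl⟩⟩, ⟨_, ⟨s, rfl⟩⟩, hs, h⟩

end Reg

theorem emb_reg (hA : IsEmb C A) : ∀ f ∈ A, C.Reg f := by
  obtain ⟨T, hT⟩ := hA.good.fg
  obtain ⟨d, hd, hdT⟩ := Pool.Agent.MLD.Ten.Ind.common_den
    (aeval C.y : MvPolynomial (Fin (m + 1)) k →ₐ[k] K).range (Reg.frac_poly C) T (fun x => x)
  have hdr : C.Reg (d : K) := by
    obtain ⟨P, hP⟩ := d.2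
    have := Reg.reg_poly C P
    have h' : (aeval C.y P : K) = (d : K) := hP
    rwa [h'] at this
  -- every element of `A` times a power of `d` is regular
  have key : ∀ f ∈ A, ∃ n : ℕ, C.Reg ((d : K) ^ n * f) := by
    intro f hf
    rw [← hT] at hf
    induction hf using Algebra.adjoin_induction with
    | mem x hx =>
      refine ⟨1, ?_⟩
      obtain ⟨P, hP⟩ := hdT x hx
      have h' : (aeval C.y P : K) = (d : K) * x := hP
      rw [pow_one, ← h']
      exact Reg.reg_poly C P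
    | algebraMap c => exact ⟨0, by rw [pow_zero, one_mul]; exact reg_const C c⟩
    | add x y _ _ hx hy =>
      obtain ⟨n, hn⟩ := hx
      obtain ⟨n', hn'⟩ := hy
      refine ⟨n + n', ?_⟩
      have h1 : (d : K) ^ (n + n') * (x + y) =
          (d : K) ^ n' * ((d : K) ^ n * x) + (d : K) ^ n * ((d : K) ^ n' * y) := by ring
      rw [h1]
      exact reg_add C (reg_mul C (Reg.reg_pow hdr _) hn) (reg_mul C (Reg.reg_pow hdr _) hn')
    | mul x y _ _ hx hy =>
      obtain ⟨n, hn⟩ := hx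
      obtain ⟨n', hn'⟩ := hy
      refine ⟨n + n', ?_⟩
      have h1 : (d : K) ^ (n + n') * (x * y) =
          ((d : K) ^ n * x) * ((d : K) ^ n' * y) := by ring
      rw [h1]
      exact reg_mul C hn hn'
  intro f hf
  refine reg_of_local fun h hh => ?_
  obtain ⟨σ, hσ, hNV⟩ := Reg.exists_move hh hdr hd
  obtain ⟨n, hn⟩ := key (σ.symm f) (hA.stab _ (tra_symm C hσ) f hf)
  refine ⟨σ (d : K) ^ n, Reg.reg_pow (reg_tra hσ hdr) n,
    Reg.nv_pow hh (reg_tra hσ hdr) hNV n, ?_⟩
  have h1 := reg_tra hσ hn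
  rwa [map_mul, map_pow, AlgEquiv.apply_symm_apply] at h1

theorem emb_loc (hA : IsEmb C A) {h : Matrix (Fin N) (Fin N) k} (hh : B.IsG h) :
    ∃ a : A, C.NV h (a : K) ∧ ∀ f, C.Reg f → ∃ n : ℕ, (a : K) ^ n * f ∈ A := by
  obtain ⟨a₀, ha0, ha⟩ := Pool.Agent.MLD.Ten.Ind.common_den A hA.good.frac (Reg.S C) (fun x => x)
  have key : ∀ f, C.Reg f → ∃ n : ℕ, (a₀ : K) ^ n * f ∈ A := by
    intro f hf
    refine Reg.induct (C := C) (p := fun f => ∃ n : ℕ, (a₀ : K) ^ n * f ∈ A) ?_ ?_ ?_ ?_ ?_ hf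
    · intro i
      exact ⟨1, by rw [pow_one]; exact ha _ (by simp [Reg.S])⟩
    · exact ⟨1, by rw [pow_one]; exact ha _ (by simp [Reg.S])⟩
    · intro c
      exact ⟨0, by rw [pow_zero, one_mul]; exact A.algebraMap_mem c⟩
    · rintro x y _ _ ⟨n, hn⟩ ⟨n', hn'⟩
      refine ⟨n + n', ?_⟩
      have h1 : (a₀ : K) ^ (n + n') * (x + y) =
          (a₀ : K) ^ n' * ((a₀ : K) ^ n * x) + (a₀ : K) ^ n * ((a₀ : K) ^ n' * y) := by ring
      rw [h1]
      exact A.add_mem (A.mul_mem (A.pow_mem a₀.2 _) hn) (A.mul_mem (A.pow_mem a₀.2 _) hn')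
    · rintro x y _ _ ⟨n, hn⟩ ⟨n', hn'⟩
      refine ⟨n + n', ?_⟩
      have h1 : (a₀ : K) ^ (n + n') * (x * y) =
          ((a₀ : K) ^ n * x) * ((a₀ : K) ^ n' * y) := by ring
      rw [h1]
      exact A.mul_mem hn hn'
  obtain ⟨σ, hσ, hNV⟩ := Reg.exists_move hh (emb_reg hA _ a₀.2) ha0
  refine ⟨⟨σ a₀, hA.stab σ hσ _ a₀.2⟩, hNV, fun f hf => ?_⟩
  obtain ⟨n, hn⟩ := key (σ.symm f) (reg_tra (tra_symm C hσ) hf)
  refine ⟨n, ?_⟩
  have h1 := hA.stab σ hσ _ hn
  rwa [map_mul, map_pow, AlgEquiv.apply_symm_apply] at h1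

theorem der_reg (i : Fin (m + 1)) {f : K} (hf : C.Reg f) : C.Reg (C.D i f) := by
  have hpoly : ∀ P : MvPolynomial (Fin (m + 1)) k, C.Reg (C.D i (aeval C.y P)) := by
    intro P
    rw [Pool.Agent.MLD.Jind.der_aeval]
    refine Subalgebra.sum_mem (Reg.R C) fun l _ => (Reg.R C).mul_mem (Reg.reg_poly C _) ?_
    rw [C.dual]
    split_ifs
    · exact (Reg.R C).one_mem
    · exact (Reg.R C).zero_mem
  refine Reg.induct (C := C) (p := fun f => C.Reg (C.D i f)) ?_ ?_ ?_ ?_ ?_ hf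
  · intro j
    have := hpoly (X j)
    rwa [aeval_X] at this
  · rw [Derivation.leibniz_inv, smul_eq_mul]
    refine (Reg.R C).mul_mem (neg_mem ((Reg.R C).pow_mem (reg_det_inv C) 2)) ?_
    have := hpoly (B.XX k).det
    rwa [Reg.aeval_det] at this
  · intro c
    rw [Derivation.map_algebraMap]
    exact (Reg.R C).zero_mem
  · intro x y _ _ hx hy
    rw [map_add]
    exact reg_add C hx hy
  · intro x y hx0 hy0 hx hy
    rw [Derivation.leibniz, smul_eq_mul, smul_eq_mul]
    exact reg_add C (reg_mul C hx0 hy) (reg_mul C hy0 hx)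

/-- interior prime divisors -/
theorem intr_val (hA : IsEmb C A) {q : Ideal A} (hq : IsHeightOne q) (hi : IntrI C q)
    {v : DVal k K} (hv : v.HasCenter A q) :
    (∀ f, C.Reg f → v.Integral f) ∧ ∀ j, v.FormOrd C.D j → j = 0 := by
  obtain ⟨h, hh, hq0⟩ := hi
  obtain ⟨a, haN, ha⟩ := emb_loc hA hh
  have haq : a ∉ q := fun h' => hq0 a h' haN
  have hout : ∀ s : A, s ∉ q → (s : K) ≠ 0 ∧ v.ord (s : K) = 0 := fun s hs =>
    Pool.Agent.MLD.Ten.ord_eq_zero_of v (hv.1 s) fun h => hs ((hv.2 s).2 h)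
  obtain ⟨ha0, hav⟩ := hout a haq
  have hreg : ∀ f, C.Reg f → v.Integral f := by
    intro f hf hf0
    obtain ⟨n, hn⟩ := ha f hf
    have h1 := hv.1 ⟨_, hn⟩ (mul_ne_zero (pow_ne_zero _ ha0) hf0)
    change 0 ≤ v.ord ((a : K) ^ n * f) at h1
    rw [v.ord_mul _ _ (pow_ne_zero _ ha0) hf0, Pool.Agent.MLD.Jac.ord_pow v _ ha0, hav, mul_zero,
      zero_add] at h1
    exact h1
  refine ⟨hreg, fun j hj => ?_⟩
  have hN := Pool.Agent.MLD.Ten.Ind.noeth A hA.good.fg
  obtain ⟨w, hw, hw'⟩ := Pool.Agent.MLD.dvr A hN hA.good.frac hA.good.norm q hq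
  have hloc : ∀ f, v.Integral f → ∃ s : A, s ∉ q ∧ (s : K) * f ∈ A := by
    intro f hf
    by_cases hf0 : f = 0
    · subst hf0
      refine ⟨1, fun h1 => hq.1.ne_top ((Ideal.eq_top_iff_one _).2 h1), ?_⟩
      rw [mul_zero]
      exact A.zero_mem
    · refine (hw' f hf0).1 ?_
      rw [← Pool.Agent.MLD.dvr_unique A hN hA.good.frac hA.good.norm q hq v w hv hw f hf0]
      exact hf hf0
  have hder : ∀ i f, v.Integral f → v.Integral (C.D i f) := by
    intro i f hf
    obtain ⟨s, hs, hsf⟩ := hloc f hf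
    obtain ⟨hs0, hsv⟩ := hout s hs
    have h1 : (s : K) * C.D i f = C.D i ((s : K) * f) - f * C.D i (s : K) := by
      rw [Derivation.leibniz, smul_eq_mul, smul_eq_mul]
      ring
    have h2 : v.Integral ((s : K) * C.D i f) := by
      rw [h1]
      refine Pool.Agent.MLD.Ten.LB_sub v (hreg _ (der_reg i (emb_reg hA _ hsf))) ?_
      have := Pool.Agent.MLD.Jac.LB.mul (v := v) (M := 0) (N := 0) hf
        (hreg _ (der_reg i (emb_reg hA _ s.2)))
      rwa [add_zero] at this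
    intro h3
    have h4 := h2 (mul_ne_zero hs0 h3)
    rw [v.ord_mul _ _ hs0 h3, hsv, zero_add] at h4
    exact h4
  obtain ⟨hj1, b, hb, hb0, hbj⟩ := hj
  have hy : jac C.D C.y = 1 := Pool.Agent.MLD.Ten.jac_dual C.D C.y C.dual
  have h1 := hj1 C.y (fun i => hreg _ (Reg.reg_y C i)) (by rw [hy]; exact one_ne_zero)
  rw [hy, Pool.Agent.MLD.Jac.ord_one] at h1
  have h2 : v.Integral (jac C.D b) :=
    Pool.Agent.MLD.Ten.det_integral v _ fun i l => hder i _ (hb l)
  have h3 := h2 hb0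
  omega

end REG

end

end Pool.Agent.MLD.Mon
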