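import Pool.Agent.Lib.MP_f23696_ag.M.Ctx

/-!
# MP_f23696_ag, project MON, module VDM: Vandermonde type lemmas
-/

set_option autoImplicit false

open scoped Classical

namespace Pool.Agent.MLD.Mon

open MvPolynomial

noncomputable section

universe u v w

variable {N m : ℕ} {B : Blk N m} {k : Type u} {K : Type v} [Field k] [Field K] [Algebra k K]

theorem vdm [Infinite k] {V : Type w} [AddCommGroup V] [Module k V] (M : Submodule k V)
    {ι : Type} [Fintype ι] (s : Finset (ι → ℕ)) (u : (ι → ℕ) → V)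
    (h : ∀ t : ι → k, (∀ i, t i ≠ 0) → ∑ α ∈ s, (∏ i, t i ^ α i) • u α ∈ M) :
    ∀ α ∈ s, u α ∈ M := by
  intro α hα
  by_contra hM
  obtain ⟨ℓ, hℓ, hℓM⟩ := Submodule.exists_dual_map_eq_bot_of_notMem (p := M) hM inferInstance
  have hz : ∀ x ∈ M, ℓ x = 0 := by
    intro x hx
    have : ℓ x ∈ M.map ℓ := Submodule.mem_map_of_mem hx
    rwa [hℓM, Submodule.mem_bot] at this
  set F : MvPolynomial ι k :=
    ∑ β ∈ s, monomial (Finsupp.equivFunOnFinite.symm β) (ℓ (u β)) with hF
  have hev : ∀ t : ι → k, eval t F = ∑ β ∈ s, (∏ i, t i ^ β i) * ℓ (u β) := by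
    intro t
    rw [hF, map_sum]
    refine Finset.sum_congr rfl fun β _ => ?_
    rw [eval_monomial, mul_comm, Finsupp.prod_fintype _ _ fun i => pow_zero _]
    rfl
  have hzero : F * ∏ i, X i = 0 := by
    apply MvPolynomial.funext
    intro t
    rw [map_mul, map_zero, map_prod]
    by_cases ht : ∀ i, t i ≠ 0
    · have h1 := hz _ (h t ht)
      rw [map_sum] at h1
      have h2 : eval t F = 0 := by
        rw [hev, ← h1]
        refine Finset.sum_congr rfl fun β _ => ?_
        rw [map_smul, smul_eq_mul]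
      rw [h2, zero_mul]
    · push Not at ht
      obtain ⟨i, hi⟩ := ht
      rw [Finset.prod_eq_zero (Finset.mem_univ i), mul_zero]
      rw [eval_X, hi]
  have hX : (∏ i, (X i : MvPolynomial ι k)) ≠ 0 :=
    Finset.prod_ne_zero_iff.2 fun i _ => X_ne_zero i
  have hF0 : F = 0 := (mul_eq_zero.1 hzero).resolve_right hX
  apply hℓ
  have hc : coeff (Finsupp.equivFunOnFinite.symm α) F = ℓ (u α) := by
    rw [hF, coeff_sum]
    rw [Finset.sum_eq_single_of_mem α hα]
    · rw [coeff_monomial, if_pos rfl]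
    · intro β _ hβ
      rw [coeff_monomial, if_neg]
      intro he
      exact hβ (Finsupp.equivFunOnFinite.symm.injective he)
  rw [← hc, hF0, coeff_zero]

/-- a linear functional of a polynomial with coefficients in `K`, evaluated at points of `k` -/
theorem Vdm.exists_functional {S : Type} [Fintype S] (Q : MvPolynomial S K) (ℓ : K →ₗ[k] k) :
    ∃ F : MvPolynomial S k, ∀ t : S → k,
      ℓ (eval (fun i => algebraMap k K (t i)) Q) = eval t F := by
  refine ⟨∑ M ∈ Q.support, monomial M (ℓ (Q.coeff M)), fun t => ?_⟩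
  rw [MvPolynomial.eval_eq', map_sum, map_sum]
  refine Finset.sum_congr rfl fun M _ => ?_
  have h1 : Q.coeff M * ∏ i, (algebraMap k K (t i)) ^ M i = (∏ i, t i ^ M i) • Q.coeff M := by
    rw [Algebra.smul_def, map_prod, mul_comm]
    congr 1
    exact Finset.prod_congr rfl fun i _ => (map_pow _ _ _).symm
  rw [h1, map_smul, smul_eq_mul, eval_monomial, Finsupp.prod_fintype _ _ fun i => pow_zero _,
    mul_comm]

/-- the dependence of a linear functional of a translate on the translation is polynomial -/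
theorem vdm_tr (C : GC k K B) {f : K} (hf : C.Reg f) (ℓ : K →ₗ[k] k) :
    ∃ (n : ℕ) (F : MvPolynomial ((Fin N × Fin N) ⊕ (Fin N × Fin N)) k),
      ∀ a c σ, C.IsTr a c σ →
        ℓ (σ f) * (a.det * c.det) ^ n =
          eval (Sum.elim (fun s => a s.1 s.2) fun s => c s.1 s.2) F := by
  obtain ⟨n, P, hP⟩ := hf
  set S := (Fin N × Fin N) ⊕ (Fin N × Fin N) with hS
  set Am : Matrix (Fin N) (Fin N) (MvPolynomial S K) := fun p q => X (Sum.inl (p, q)) with hAm
  set Cm : Matrix (Fin N) (Fin N) (MvPolynomial S K) := fun p q => X (Sum.inr (p, q)) with hCm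
  set Q : MvPolynomial S K :=
    aeval (B.vec (Am * (C.g.map MvPolynomial.C) * Cm)) P with hQ
  set ℓ' : K →ₗ[k] k := ℓ ∘ₗ LinearMap.mulRight k ((C.g.det ^ n)⁻¹) with hℓ'
  obtain ⟨F, hF⟩ := Vdm.exists_functional Q ℓ'
  refine ⟨n, F, fun a c σ hσ => ?_⟩
  rw [← hF]
  obtain ⟨ha, hc, hm⟩ := hσ
  -- the value of `Q`
  set t : S → k := Sum.elim (fun s => a s.1 s.2) fun s => c s.1 s.2 with ht
  have hval : eval (fun i => algebraMap k K (t i)) Q =
      aeval (B.vec (a.map (algebraMap k K) * C.g * c.map (algebraMap k K))) P := by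
    have h1 : ∀ z : MvPolynomial S K, eval (fun i => algebraMap k K (t i)) z =
        ((aeval (fun i => algebraMap k K (t i)) : MvPolynomial S K →ₐ[K] K).restrictScalars k) z :=
      fun z => rfl
    rw [h1, hQ, MvPolynomial.comp_aeval_apply]
    congr 2
    funext i
    show (aeval (fun i => algebraMap k K (t i)) : MvPolynomial S K →ₐ[K] K)
      ((Am * (C.g.map MvPolynomial.C) * Cm : Matrix (Fin N) (Fin N) (MvPolynomial S K))
        (B.rw i) (B.cl i)) =
      (a.map (algebraMap k K) * C.g * c.map (algebraMap k K) : Matrix (Fin N) (Fin N) K)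
        (B.rw i) (B.cl i)
    rw [Matrix.mul_apply, Matrix.mul_apply, map_sum]
    refine Finset.sum_congr rfl fun j _ => ?_
    rw [map_mul, Matrix.mul_apply, Matrix.mul_apply, map_sum]
    have hc1 : (aeval (fun i => algebraMap k K (t i)) : MvPolynomial S K →ₐ[K] K)
        (Cm j (B.cl i)) = (c.map (algebraMap k K)) j (B.cl i) := by
      show (aeval (fun i => algebraMap k K (t i)) : MvPolynomial S K →ₐ[K] K)
        (X (Sum.inr (j, B.cl i))) = _
      rw [aeval_X]
      rfl
    rw [hc1]
    congr 1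
    refine Finset.sum_congr rfl fun j' _ => ?_
    rw [map_mul]
    congr 1
    · show (aeval (fun i => algebraMap k K (t i)) : MvPolynomial S K →ₐ[K] K)
        (X (Sum.inl (B.rw i, j'))) = _
      rw [aeval_X]
      rfl
    · rw [Matrix.map_apply]
      exact aeval_C _ _
  have hy : (fun i => σ (C.y i)) =
      B.vec (a.map (algebraMap k K) * C.g * c.map (algebraMap k K)) := by
    rw [← hm]
    funext i
    simp only [Blk.vec, Blk.mat, dif_pos (B.rw_cl i), Blk.ix_rw_cl]
  have hdet : σ C.g.det = algebraMap k K (a.det * c.det) * C.g.det := by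
    have h1 : σ C.g.det = (B.mat fun i => σ (C.y i)).det := by
      have h2 := GC.mat_map (B := B) (σ : K →+* K) C.y
      have h3 : (B.mat fun i => σ (C.y i)) = (B.mat C.y).map (σ : K →+* K) := h2
      rw [h3]
      exact RingHom.map_det (σ : K →+* K) _
    rw [h1, hm, Matrix.det_mul, Matrix.det_mul, map_mul]
    have h4 : (a.map (algebraMap k K)).det = algebraMap k K a.det :=
      (RingHom.map_det (algebraMap k K) a).symm
    have h5 : (c.map (algebraMap k K)).det = algebraMap k K c.det :=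
      (RingHom.map_det (algebraMap k K) c).symm
    rw [h4, h5]
    ring
  have hrep : σ f * (algebraMap k K ((a.det * c.det) ^ n) * C.g.det ^ n) =
      aeval (B.vec (a.map (algebraMap k K) * C.g * c.map (algebraMap k K))) P := by
    have h1 := congrArg σ hP
    rw [map_mul, map_pow, hdet, mul_pow, ← map_pow] at h1
    rw [h1, ← hy]
    exact MvPolynomial.comp_aeval_apply (f := C.y) (σ : K →ₐ[k] K) P
  have hg0 : C.g.det ≠ 0 := by
    intro h0
    rw [h0] at hdet
    -- the generic matrix is invertible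
    have h1 : aeval C.y (B.XX k).det = 0 := by
      have h2 : (aeval C.y : MvPolynomial (Fin (m + 1)) k →ₐ[k] K) (B.XX k).det = C.g.det := by
        rw [AlgHom.map_det]
        congr 1
        ext p q
        simp only [AlgHom.mapMatrix_apply, Matrix.map_apply, Blk.XX, Blk.mat, GC.g]
        split_ifs
        · rw [aeval_X]
        · rw [map_zero]
      rw [h2, h0]
    have h3 : (B.XX k).det = 0 := by
      apply (algebraicIndependent_iff_injective_aeval.1 C.ind)
      rw [h1, map_zero]
    have h4 := congrArg (eval (B.vec (1 : Matrix (Fin N) (Fin N) k))) h3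
    rw [RingHom.map_det, map_zero] at h4
    have h5 : (eval (B.vec (1 : Matrix (Fin N) (Fin N) k))).mapMatrix (B.XX k) = 1 := by
      ext p q
      simp only [RingHom.mapMatrix_apply, Matrix.map_apply, Blk.XX, Blk.mat]
      split_ifs with h
      · rw [eval_X, Blk.vec, B.rw_ix, B.cl_ix]
      · rw [map_zero, Matrix.one_apply_ne]
        intro hpq
        exact h (by rw [hpq])
    rw [h5, Matrix.det_one] at h4
    exact one_ne_zero h4
  rw [hval, ← hrep, hℓ', LinearMap.comp_apply, LinearMap.mulRight_apply]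
  have h6 : σ f * (algebraMap k K ((a.det * c.det) ^ n) * C.g.det ^ n) * (C.g.det ^ n)⁻¹ =
      ((a.det * c.det) ^ n) • σ f := by
    rw [Algebra.smul_def]
    field_simp
  rw [h6, map_smul, smul_eq_mul, mul_comm]

theorem Vdm.mat_vec_aux {R : Type v} [CommRing R] {M : Matrix (Fin N) (Fin N) R} (h : B.IsBl M) :
    B.mat (B.vec M) = M := by
  ext p q
  simp only [Blk.mat, Blk.vec]
  split_ifs with hpq
  · rw [B.rw_ix, B.cl_ix]
  · exact (h p q hpq).symm

theorem Vdm.isBl_mat_aux {R : Type v} [CommRing R] (y : Fin (m + 1) → R) : B.IsBl (B.mat y) := by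
  intro p q h
  simp only [Blk.mat, dif_neg h]

/-- common points of finitely many nonzero functions on `G × G` -/
theorem vdm_common [Infinite k] {ι : Type} (s : Finset ι)
    (F : ι → MvPolynomial ((Fin N × Fin N) ⊕ (Fin N × Fin N)) k)
    (h : ∀ i ∈ s, ∃ a c : Matrix (Fin N) (Fin N) k, B.IsG a ∧ B.IsG c ∧
      eval (Sum.elim (fun s => a s.1 s.2) fun s => c s.1 s.2) (F i) ≠ 0) :
    ∃ a c : Matrix (Fin N) (Fin N) k, B.IsG a ∧ B.IsG c ∧
      ∀ i ∈ s, eval (Sum.elim (fun s => a s.1 s.2) fun s => c s.1 s.2) (F i) ≠ 0 := by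
  set R := MvPolynomial (Fin (m + 1) ⊕ Fin (m + 1)) k with hR
  set Am : Matrix (Fin N) (Fin N) R := B.mat fun i => X (Sum.inl i) with hAm
  set Cm : Matrix (Fin N) (Fin N) R := B.mat fun i => X (Sum.inr i) with hCm
  set F' : ι → R := fun i => aeval (Sum.elim (fun s => Am s.1 s.2) fun s => Cm s.1 s.2) (F i)
    with hF'
  have hA : ∀ t : Fin (m + 1) ⊕ Fin (m + 1) → k,
      (eval t).mapMatrix Am = B.mat fun i => t (Sum.inl i) := by
    intro t
    ext p q
    simp only [RingHom.mapMatrix_apply, Matrix.map_apply, hAm, Blk.mat]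
    split_ifs
    · rw [eval_X]
    · rw [map_zero]
  have hC : ∀ t : Fin (m + 1) ⊕ Fin (m + 1) → k,
      (eval t).mapMatrix Cm = B.mat fun i => t (Sum.inr i) := by
    intro t
    ext p q
    simp only [RingHom.mapMatrix_apply, Matrix.map_apply, hCm, Blk.mat]
    split_ifs
    · rw [eval_X]
    · rw [map_zero]
  have hev : ∀ (t : Fin (m + 1) ⊕ Fin (m + 1) → k) (i : ι), eval t (F' i) =
      eval (Sum.elim (fun s => (B.mat fun i => t (Sum.inl i)) s.1 s.2)
        fun s => (B.mat fun i => t (Sum.inr i)) s.1 s.2) (F i) := by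
    intro t i
    have h1 : ∀ z : R, eval t z = (aeval t : R →ₐ[k] k) z := fun z => rfl
    have h1' : ∀ (t' : (Fin N × Fin N) ⊕ (Fin N × Fin N) → k)
      (z : MvPolynomial ((Fin N × Fin N) ⊕ (Fin N × Fin N)) k),
      eval t' z = (aeval t' : _ →ₐ[k] k) z := fun t' z => rfl
    rw [h1, hF', MvPolynomial.comp_aeval_apply, h1']
    congr 2
    funext x
    rcases x with x | x
    · rw [← hA t]
      simp only [Sum.elim_inl, RingHom.mapMatrix_apply, Matrix.map_apply, h1]
    · rw [← hC t]
      simp only [Sum.elim_inr, RingHom.mapMatrix_apply, Matrix.map_apply, h1]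
  have hone : B.IsBl (1 : Matrix (Fin N) (Fin N) k) := by
    intro p q hpq
    rw [Matrix.one_apply_ne]
    intro he
    exact hpq (by rw [he])
  have hdA : Am.det ≠ 0 := by
    intro h0
    have h1 := congrArg (eval (Sum.elim (B.vec (1 : Matrix (Fin N) (Fin N) k)) 0)) h0
    rw [RingHom.map_det, map_zero, hA] at h1
    simp only [Sum.elim_inl] at h1
    have h2 : (B.mat fun i => B.vec (1 : Matrix (Fin N) (Fin N) k) i) = 1 := Vdm.mat_vec_aux hone
    rw [h2, Matrix.det_one] at h1
    exact one_ne_zero h1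
  have hdC : Cm.det ≠ 0 := by
    intro h0
    have h1 := congrArg (eval (Sum.elim 0 (B.vec (1 : Matrix (Fin N) (Fin N) k)))) h0
    rw [RingHom.map_det, map_zero, hC] at h1
    simp only [Sum.elim_inr] at h1
    have h2 : (B.mat fun i => B.vec (1 : Matrix (Fin N) (Fin N) k) i) = 1 := Vdm.mat_vec_aux hone
    rw [h2, Matrix.det_one] at h1
    exact one_ne_zero h1
  have hF0 : ∀ i ∈ s, F' i ≠ 0 := by
    intro i hi h0
    obtain ⟨a, c, ha, hc, hne⟩ := h i hi
    apply hne
    have h1 := hev (Sum.elim (B.vec a) (B.vec c)) i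
    simp only [Sum.elim_inl, Sum.elim_inr] at h1
    have h2 : (B.mat fun i => B.vec a i) = a := Vdm.mat_vec_aux ha.1
    have h3 : (B.mat fun i => B.vec c i) = c := Vdm.mat_vec_aux hc.1
    rw [h2, h3, h0, map_zero] at h1
    exact h1.symm
  have hprod : (∏ i ∈ s, F' i) * (Am.det * Cm.det) ≠ 0 :=
    mul_ne_zero (Finset.prod_ne_zero_iff.2 hF0) (mul_ne_zero hdA hdC)
  obtain ⟨t, ht⟩ : ∃ t, eval t ((∏ i ∈ s, F' i) * (Am.det * Cm.det)) ≠ 0 := by
    by_contra hcon
    push Not at hcon
    apply hprod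
    apply MvPolynomial.funext
    intro t
    rw [hcon t, map_zero]
  rw [map_mul, map_mul, map_prod, RingHom.map_det, RingHom.map_det, hA, hC] at ht
  have ht1 := left_ne_zero_of_mul ht
  have ht2 := right_ne_zero_of_mul ht
  refine ⟨_, _, ⟨Vdm.isBl_mat_aux _, left_ne_zero_of_mul ht2⟩, ⟨Vdm.isBl_mat_aux _, right_ne_zero_of_mul ht2⟩,
    fun i hi => ?_⟩
  rw [← hev]
  exact Finset.prod_ne_zero_iff.1 ht1 i hi

end

end Pool.Agent.MLD.Mon
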