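import Pool.Agent.Lib.MP_f23696_ag.M.Ctx
import Pool.Agent.Lib.MP_f23696_ag.M.Lin
import Pool.Agent.Lib.MP_f23696_ag.M.Tra
import Pool.Agent.Lib.MP_f23696_ag.M.Vdm

/-!
MON module WTS: weights of polynomials on block matrices (MP_f23696_ag).
-/

set_option autoImplicit false

open scoped Classical

namespace Pool.Agent.MLD.Mon

open MvPolynomial
open Pool.Agent.MLD.Ten (IsGood)

noncomputable section

universe u v w

variable {N m : ℕ} {B : Blk N m} {k : Type u} {K : Type v} [Field k] [Field K] [Algebra k K]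

namespace Wts

/-! ### functoriality -/

section fun_

variable {R : Type*} {S : Type*} [CommRing R] [CommRing S]

theorem map_mat (f : R →+* S) (y : Fin (m + 1) → R) :
    (B.mat y).map f = B.mat (fun i => f (y i)) := by
  ext p q
  simp only [Blk.mat, Matrix.map_apply]
  split_ifs
  · rfl
  · rw [map_zero]

theorem map_low (f : R →+* S) (y : Fin (m + 1) → R) :
    (B.low y).map f = B.low (fun i => f (y i)) := by
  ext p q
  simp only [Blk.low, Matrix.map_apply]
  split_ifs
  · rw [map_one]
  · rw [← map_mat]; rfl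
  · rw [map_zero]

theorem map_upp (f : R →+* S) (y : Fin (m + 1) → R) :
    (B.upp y).map f = B.upp (fun i => f (y i)) := by
  ext p q
  simp only [Blk.upp, Matrix.map_apply]
  split_ifs
  · rw [map_one]
  · rw [← map_mat]; rfl
  · rw [map_zero]

theorem map_ldu (f : R →+* S) (y : Fin (m + 1) → R) :
    (B.ldu y).map f = B.ldu (fun i => f (y i)) := by
  have h3 : (Matrix.diagonal (B.dia y)).map f = Matrix.diagonal (B.dia fun i => f (y i)) := by
    rw [Matrix.diagonal_map (map_zero f)]
    rfl
  rw [Blk.ldu, Blk.ldu, Matrix.map_mul, Matrix.map_mul, map_low, map_upp, h3]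

end fun_

section alg

variable {S : Type*} [CommRing S] [Algebra k S]

theorem aeval_Th (v : Fin (m + 1) → S) (P : MvPolynomial (Fin (m + 1)) k) :
    aeval v (B.Th k P) = aeval (B.vec (B.ldu v)) P := by
  have h : (aeval v : MvPolynomial (Fin (m + 1)) k →ₐ[k] S).comp (B.Th k) =
      aeval (B.vec (B.ldu v)) := by
    apply MvPolynomial.algHom_ext
    intro i
    rw [AlgHom.comp_apply, Blk.Th, aeval_X, aeval_X]
    have h1 := map_ldu (B := B)
      ((aeval v : MvPolynomial (Fin (m + 1)) k →ₐ[k] S) : MvPolynomial (Fin (m + 1)) k →+* S)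
      (X : Fin (m + 1) → MvPolynomial (Fin (m + 1)) k)
    have h2 := congrFun (congrFun h1 (B.rw i)) (B.cl i)
    simp only [Matrix.map_apply, RingHom.coe_coe, aeval_X] at h2
    exact h2
  exact congrArg (fun f : MvPolynomial (Fin (m + 1)) k →ₐ[k] S => f P) h

theorem aeval_trP (v : Fin (m + 1) → S) (a c : Matrix (Fin N) (Fin N) k)
    (P : MvPolynomial (Fin (m + 1)) k) :
    aeval v (B.trP a c P) =
      aeval (B.vec (a.map (algebraMap k S) * B.mat v * c.map (algebraMap k S))) P := by
  have h : (aeval v : MvPolynomial (Fin (m + 1)) k →ₐ[k] S).comp (B.trP a c) =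
      aeval (B.vec (a.map (algebraMap k S) * B.mat v * c.map (algebraMap k S))) := by
    apply MvPolynomial.algHom_ext
    intro i
    rw [AlgHom.comp_apply, Blk.trP, aeval_X, aeval_X]
    have h1 : (a.map C * B.XX k * c.map C).map
        ((aeval v : MvPolynomial (Fin (m + 1)) k →ₐ[k] S) : MvPolynomial (Fin (m + 1)) k →+* S) =
        a.map (algebraMap k S) * B.mat v * c.map (algebraMap k S) := by
      rw [Matrix.map_mul, Matrix.map_mul, Blk.XX, map_mat]
      have h3 : ∀ a : Matrix (Fin N) (Fin N) k, (a.map C).map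
          ((aeval v : MvPolynomial (Fin (m + 1)) k →ₐ[k] S) : MvPolynomial (Fin (m + 1)) k →+* S) =
          a.map (algebraMap k S) := by
        intro a
        ext p q
        simp only [Matrix.map_apply, RingHom.coe_coe, aeval_C]
      rw [h3, h3]
      simp only [RingHom.coe_coe, aeval_X]
    have h2 := congrFun (congrFun h1 (B.rw i)) (B.cl i)
    simp only [Matrix.map_apply, RingHom.coe_coe] at h2
    exact h2
  exact congrArg (fun f : MvPolynomial (Fin (m + 1)) k →ₐ[k] S => f P) h

end alg

/-! ### restriction to translates of the torus -/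

/-- `P (a t c)` as polynomial in `t` -/
def tor (B : Blk N m) (a c : Matrix (Fin N) (Fin N) k) :
    MvPolynomial (Fin (m + 1)) k →ₐ[k] MvPolynomial (Fin N) k :=
  aeval (B.vec (a.map C * Matrix.diagonal X * c.map C))

theorem isBl_map {R : Type*} {S : Type*} [CommRing R] [CommRing S] (f : R →+* S)
    {a : Matrix (Fin N) (Fin N) R} (h : B.IsBl a) : B.IsBl (a.map f) := by
  intro p q hpq
  rw [Matrix.map_apply, h p q hpq, map_zero]

theorem tor_trP {a c : Matrix (Fin N) (Fin N) k} (ha : B.IsBl a) (hc : B.IsBl c)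
    (a' c' : Matrix (Fin N) (Fin N) k) (P : MvPolynomial (Fin (m + 1)) k) :
    tor B a c (B.trP a' c' P) = tor B (a' * a) (c * c') P := by
  unfold tor
  rw [aeval_trP]
  have h1 : B.IsBl (a.map (C : k →+* MvPolynomial (Fin N) k) * Matrix.diagonal X * c.map C) :=
    isBl_mul B (isBl_mul B (isBl_map (B := B) C ha) (isBl_diagonal B _)) (isBl_map (B := B) C hc)
  rw [mat_vec B h1, Matrix.map_mul, Matrix.map_mul, MvPolynomial.algebraMap_eq]
  simp only [Matrix.mul_assoc]

/-- the diagonal exponents -/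
def dgN (B : Blk N m) (s : Fin (m + 1) →₀ ℕ) : Fin N →₀ ℕ :=
  Finsupp.equivFunOnFinite.symm fun p => s (B.dx p)

/-- the other exponents -/
def offp (B : Blk N m) (s : Fin (m + 1) →₀ ℕ) : Fin (m + 1) →₀ ℕ :=
  Finsupp.equivFunOnFinite.symm fun i => if B.rw i = B.cl i then 0 else s i

theorem dgN_apply (s : Fin (m + 1) →₀ ℕ) (p : Fin N) : dgN B s p = s (B.dx p) := rfl

theorem offp_apply (s : Fin (m + 1) →₀ ℕ) (i : Fin (m + 1)) :
    offp B s i = if B.rw i = B.cl i then 0 else s i := rfl

theorem dgN_add (s t : Fin (m + 1) →₀ ℕ) : dgN B (s + t) = dgN B s + dgN B t := by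
  ext p
  simp [dgN_apply]

theorem offp_add (s t : Fin (m + 1) →₀ ℕ) : offp B (s + t) = offp B s + offp B t := by
  ext i
  simp only [offp_apply, Finsupp.add_apply]
  split_ifs <;> rfl

theorem dx_rw {i : Fin (m + 1)} (h : B.rw i = B.cl i) : B.dx (B.rw i) = i := by
  have h1 := B.ix_rw_cl i
  unfold Blk.dx
  rw [← h1]
  congr 1
  · rw [h1]
  · rw [h1]; exact h

theorem ext_pair {s t : Fin (m + 1) →₀ ℕ} (h : dgN B s = dgN B t) (h' : offp B s = offp B t) :
    s = t := by
  ext i
  by_cases hi : B.rw i = B.cl i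
  · have h1 := DFunLike.congr_fun h (B.rw i)
    rw [dgN_apply, dgN_apply, dx_rw hi] at h1
    exact h1
  · have h1 := DFunLike.congr_fun h' i
    rw [offp_apply, offp_apply, if_neg hi, if_neg hi] at h1
    exact h1

/-- separation of the diagonal variables -/
def Psi (B : Blk N m) (k : Type u) [Field k] : MvPolynomial (Fin (m + 1)) k →ₐ[k]
    MvPolynomial (Fin N) (MvPolynomial (Fin (m + 1)) k) :=
  aeval fun i => if B.rw i = B.cl i then X (B.rw i) else C (X i)

theorem Psi_C (c : k) : Psi B k (C c) = C (C c) := by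
  unfold Psi
  rw [aeval_C]
  rfl

theorem Psi_monomial (s : Fin (m + 1) →₀ ℕ) : ∀ c : k,
    Psi B k (monomial s c) = monomial (dgN B s) (monomial (offp B s) c) := by
  refine Finsupp.induction_linear (motive := fun s => ∀ c : k,
    Psi B k (monomial s c) = monomial (dgN B s) (monomial (offp B s) c)) s ?_ ?_ ?_
  · intro c
    have h1 : dgN B (0 : Fin (m + 1) →₀ ℕ) = 0 := by ext p; rfl
    have h2 : offp B (0 : Fin (m + 1) →₀ ℕ) = 0 := by
      ext i
      rw [offp_apply]
      split_ifs <;> rfl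
    rw [h1, h2]
    exact Psi_C c
  · intro s t hs ht c
    have h1 : monomial (s + t) c = monomial s c * monomial t (1 : k) := by
      rw [monomial_mul, mul_one]
    rw [h1, map_mul, hs, ht, monomial_mul, monomial_mul, mul_one, dgN_add, offp_add]
  · intro i n c
    have h1 : monomial (Finsupp.single i n) c = C c * X i ^ n := by
      rw [X_pow_eq_monomial, C_mul_monomial, mul_one]
    rw [h1, map_mul, map_pow, Psi_C]
    unfold Psi
    rw [aeval_X]
    by_cases hi : B.rw i = B.cl i
    · rw [if_pos hi]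
      have h2 : dgN B (Finsupp.single i n) = Finsupp.single (B.rw i) n := by
        ext p
        rw [dgN_apply]
        by_cases hp : B.rw i = p
        · subst hp
          rw [dx_rw hi, Finsupp.single_eq_same, Finsupp.single_eq_same]
        · rw [Finsupp.single_apply, Finsupp.single_apply, if_neg hp, if_neg]
          intro h
          apply hp
          rw [h]
          exact B.rw_ix _ _ _
      have h3 : offp B (Finsupp.single i n) = 0 := by
        ext j
        rw [offp_apply]
        split_ifs with hj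
        · rfl
        · rw [Finsupp.single_apply, if_neg]
          · rfl
          · rintro rfl
            exact hj hi
      rw [h2, h3, X_pow_eq_monomial, C_mul_monomial, mul_one]
      rfl
    · rw [if_neg hi]
      have h2 : dgN B (Finsupp.single i n) = 0 := by
        ext p
        rw [dgN_apply, Finsupp.single_apply, if_neg]
        · rfl
        · intro h
          apply hi
          rw [h]
          exact (B.rw_ix _ _ _).trans (B.cl_ix _ _ _).symm
      have h3 : offp B (Finsupp.single i n) = Finsupp.single i n := by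
        ext j
        rw [offp_apply]
        split_ifs with hj
        · rw [Finsupp.single_apply, if_neg]
          rintro rfl
          exact hi hj
        · rfl
      rw [h2, h3, ← map_pow, ← map_mul, X_pow_eq_monomial, C_mul_monomial, mul_one]
      rfl

theorem coeff_Psi (s : Fin (m + 1) →₀ ℕ) (Q : MvPolynomial (Fin (m + 1)) k) :
    coeff (offp B s) (coeff (dgN B s) (Psi B k Q)) = coeff s Q := by
  induction Q using MvPolynomial.induction_on' with
  | monomial t c =>
    rw [Psi_monomial, coeff_monomial, coeff_monomial]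
    by_cases h : t = s
    · subst h
      rw [if_pos rfl, if_pos rfl, coeff_monomial, if_pos rfl]
    · rw [if_neg h]
      split_ifs with h1
      · rw [coeff_monomial, if_neg]
        intro h2
        exact h (ext_pair h1 h2)
      · exact coeff_zero _
  | add p q hp hq => rw [map_add, coeff_add, coeff_add, coeff_add, hp, hq]

/-- specialization of the off-diagonal variables -/
theorem tor_low_upp (y : Fin (m + 1) → k) (P : MvPolynomial (Fin (m + 1)) k) :
    tor B (B.low y) (B.upp y) P = MvPolynomial.map (eval y) (Psi B k (B.Th k P)) := by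
  have h1 : ∀ Q : MvPolynomial (Fin (m + 1)) k, MvPolynomial.map (eval y) (Psi B k Q) =
      aeval (fun i => if B.rw i = B.cl i then (X (B.rw i) : MvPolynomial (Fin N) k)
        else C (y i)) Q := by
    intro Q
    have h : (MvPolynomial.map (eval y)).comp ((Psi B k : _ →ₐ[k] _) : _ →+* _) =
        ((aeval (fun i => if B.rw i = B.cl i then (X (B.rw i) : MvPolynomial (Fin N) k)
        else C (y i)) : MvPolynomial (Fin (m + 1)) k →ₐ[k] MvPolynomial (Fin N) k) :
          MvPolynomial (Fin (m + 1)) k →+* MvPolynomial (Fin N) k) := by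
      apply MvPolynomial.ringHom_ext
      · intro c
        rw [RingHom.comp_apply, RingHom.coe_coe, Psi_C, map_C, eval_C, RingHom.coe_coe, aeval_C]
        rfl
      · intro i
        rw [RingHom.comp_apply, RingHom.coe_coe, RingHom.coe_coe, aeval_X]
        unfold Psi
        rw [aeval_X]
        split_ifs
        · rw [map_X]
        · rw [map_C, eval_X]
    exact congrArg (fun f : MvPolynomial (Fin (m + 1)) k →+* MvPolynomial (Fin N) k => f Q) h
  rw [h1, aeval_Th]
  unfold tor
  have h5 : ∀ p q : Fin N, p ≠ q → B.mat (fun i => if B.rw i = B.cl i then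
      (X (B.rw i) : MvPolynomial (Fin N) k) else C (y i)) p q = B.mat (fun i => C (y i)) p q := by
    intro p q hpq
    unfold Blk.mat
    by_cases hb : B.b p = B.b q
    · rw [dif_pos hb, dif_pos hb]
      beta_reduce
      rw [B.rw_ix, B.cl_ix, if_neg hpq]
    · rw [dif_neg hb, dif_neg hb]
  have h2 : B.ldu (fun i => if B.rw i = B.cl i then (X (B.rw i) : MvPolynomial (Fin N) k)
      else C (y i)) = (B.low y).map C * Matrix.diagonal X * (B.upp y).map C := by
    have hl : B.low (fun i => if B.rw i = B.cl i then (X (B.rw i) : MvPolynomial (Fin N) k)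
        else C (y i)) = B.low (fun i => C (y i)) := by
      ext1 p q
      unfold Blk.low
      by_cases h : p = q
      · rw [if_pos h, if_pos h]
      · rw [if_neg h, if_neg h, h5 p q h]
    have hu : B.upp (fun i => if B.rw i = B.cl i then (X (B.rw i) : MvPolynomial (Fin N) k)
        else C (y i)) = B.upp (fun i => C (y i)) := by
      ext1 p q
      unfold Blk.upp
      by_cases h : p = q
      · rw [if_pos h, if_pos h]
      · rw [if_neg h, if_neg h, h5 p q h]
    have hd : B.dia (fun i => if B.rw i = B.cl i then (X (B.rw i) : MvPolynomial (Fin N) k)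
        else C (y i)) = X := by
      funext p
      unfold Blk.dia Blk.dx
      beta_reduce
      rw [B.rw_ix, B.cl_ix, if_pos rfl]
    rw [Blk.ldu, map_low, map_upp, hl, hu, hd]
  rw [h2]

theorem low_zero : B.low (0 : Fin (m + 1) → k) = 1 := by
  ext p q
  simp only [Blk.low, Blk.mat, Matrix.one_apply]
  split_ifs <;> rfl

theorem upp_zero : B.upp (0 : Fin (m + 1) → k) = 1 := by
  ext p q
  simp only [Blk.upp, Blk.mat, Matrix.one_apply]
  split_ifs <;> rfl

/-- the exponent with given diagonal part and no other part -/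
def emb (B : Blk N m) (t : Fin N →₀ ℕ) : Fin (m + 1) →₀ ℕ :=
  Finsupp.equivFunOnFinite.symm fun i => if B.rw i = B.cl i then t (B.rw i) else 0

theorem emb_apply (t : Fin N →₀ ℕ) (i : Fin (m + 1)) :
    emb B t i = if B.rw i = B.cl i then t (B.rw i) else 0 := rfl

theorem dgN_emb (t : Fin N →₀ ℕ) : dgN B (emb B t) = t := by
  ext p
  rw [dgN_apply, emb_apply]
  unfold Blk.dx
  rw [B.rw_ix, B.cl_ix, if_pos rfl]

theorem coeff_tor {a c : Matrix (Fin N) (Fin N) k} (s : Fin (m + 1) →₀ ℕ)
    (hs : ∀ i, B.rw i ≠ B.cl i → s i = 0) (P : MvPolynomial (Fin (m + 1)) k) :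
    coeff (dgN B s) (tor B a c P) = coeff s (B.Th k (B.trP a c P)) := by
  have h1 : tor B a c P = tor B 1 1 (B.trP a c P) := by
    rw [tor_trP (isBl_one B) (isBl_one B), mul_one, one_mul]
  have h2 : offp B s = 0 := by
    ext i
    rw [offp_apply]
    split_ifs with h
    · rfl
    · exact hs i h
  have h3 := tor_low_upp (B := B) (0 : Fin (m + 1) → k) (B.trP a c P)
  rw [low_zero, upp_zero] at h3
  rw [h1, h3, coeff_map, ← coeff_Psi, h2]
  exact eval_zero_eq_coeff _
where
  eval_zero_eq_coeff (Q : MvPolynomial (Fin (m + 1)) k) :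
      eval (0 : Fin (m + 1) → k) Q = coeff 0 Q := by
    rw [eval_zero]
    rfl

theorem mem_EE {P : MvPolynomial (Fin (m + 1)) k} {κ : Fin N → ℤ} : κ ∈ B.EE P ↔
    ∃ a c, B.IsG a ∧ B.IsG c ∧ ∃ t : Fin N →₀ ℕ, coeff t (tor B a c P) ≠ 0 ∧
      κ = fun p => (t p : ℤ) := by
  constructor
  · rintro ⟨a, c, ha, hc, s, hs, h, hκ⟩
    refine ⟨a, c, ha, hc, dgN B s, ?_, hκ⟩
    rw [coeff_tor s hs]
    exact h
  · rintro ⟨a, c, ha, hc, t, h, hκ⟩
    refine ⟨a, c, ha, hc, emb B t, ?_, ?_, ?_⟩
    · intro i hi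
      rw [emb_apply, if_neg hi]
    · have h1 := coeff_tor (B := B) (a := a) (c := c) (emb B t)
        (fun i hi => by rw [emb_apply, if_neg hi]) P
      rw [dgN_emb] at h1
      rw [h1] at h
      exact h
    · rw [hκ]
      funext p
      have h1 := DFunLike.congr_fun (dgN_emb (B := B) t) p
      rw [dgN_apply] at h1
      rw [h1]

/-! ### degrees -/

theorem tot_tor (a c : Matrix (Fin N) (Fin N) k) (P : MvPolynomial (Fin (m + 1)) k) :
    (tor B a c P).totalDegree ≤ P.totalDegree := by
  have hlin : ∀ i, (B.vec (a.map C * Matrix.diagonal (X : Fin N → MvPolynomial (Fin N) k) *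
      c.map C) i).totalDegree ≤ 1 := by
    intro i
    unfold Blk.vec
    rw [Matrix.mul_apply]
    refine totalDegree_finsetSum_le fun r _ => ?_
    rw [Matrix.mul_diagonal, Matrix.map_apply, Matrix.map_apply]
    refine (totalDegree_mul _ _).trans ?_
    refine (add_le_add (totalDegree_mul _ _) le_rfl).trans ?_
    rw [totalDegree_C, totalDegree_C, totalDegree_X]
  unfold tor
  rw [aeval_def, eval₂_eq']
  refine totalDegree_finsetSum_le fun s hs => ?_
  refine (totalDegree_mul _ _).trans ?_
  rw [MvPolynomial.algebraMap_eq, totalDegree_C, zero_add]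
  refine (totalDegree_finsetProd _ _).trans ?_
  refine le_trans ?_ (le_totalDegree hs)
  rw [Finsupp.sum_fintype _ _ (fun _ => rfl)]
  refine Finset.sum_le_sum fun i _ => ?_
  refine (totalDegree_pow _ _).trans ?_
  exact (Nat.mul_le_mul_left _ (hlin i)).trans (by rw [mul_one])

/-! ### weights -/

/-- row sums of the exponents -/
def ro (B : Blk N m) (e : Fin (m + 1) →₀ ℕ) : Fin N →₀ ℕ := e.mapDomain B.rw

/-- column sums of the exponents -/
def co (B : Blk N m) (e : Fin (m + 1) →₀ ℕ) : Fin N →₀ ℕ := e.mapDomain B.cl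

/-- exponents as integers -/
def zz (t : Fin N →₀ ℕ) : Fin N → ℤ := fun p => (t p : ℤ)

theorem zz_inj {t t' : Fin N →₀ ℕ} (h : zz t = zz t') : t = t' := by
  ext p
  have := congrFun h p
  unfold zz at this
  exact_mod_cast this

theorem zz_add (t t' : Fin N →₀ ℕ) : zz (t + t') = zz t + zz t' := by
  funext p
  simp [zz]

theorem zz_zero : zz (0 : Fin N →₀ ℕ) = 0 := by
  funext p
  simp [zz]

theorem zz_single (p : Fin N) (n : ℕ) : zz (Finsupp.single p n) = (n : ℤ) • Pi.single p (1 : ℤ) := by
  funext q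
  unfold zz
  rw [Finsupp.single_apply, Pi.smul_apply, Pi.single_apply]
  by_cases h : p = q
  · rw [if_pos h, if_pos h.symm]; simp
  · rw [if_neg h, if_neg fun h' => h h'.symm]; simp

/-- the left weights of the variables `L, d, U` -/
def wl (B : Blk N m) (i : Fin (m + 1)) : Fin N → ℤ :=
  if B.rw i = B.cl i then Pi.single (B.rw i) 1
    else if B.cl i < B.rw i then Pi.single (B.rw i) 1 - Pi.single (B.cl i) 1 else 0

/-- the right weights of the variables `L, d, U` -/
def wr (B : Blk N m) (i : Fin (m + 1)) : Fin N → ℤ :=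
  if B.rw i = B.cl i then Pi.single (B.rw i) 1
    else if B.rw i < B.cl i then Pi.single (B.cl i) 1 - Pi.single (B.rw i) 1 else 0

theorem dg_eq (s : Fin (m + 1) →₀ ℕ) :
    B.dg s = ∑ i, if B.rw i = B.cl i then (s i : ℤ) • Pi.single (B.rw i) (1 : ℤ) else 0 := by
  funext p
  rw [Finset.sum_apply, Finset.sum_eq_single (B.dx p)]
  · have h1 : B.rw (B.dx p) = p := B.rw_ix _ _ _
    have h2 : B.cl (B.dx p) = p := B.cl_ix _ _ _
    rw [h1, h2, if_pos rfl]
    simp [Blk.dg]
  · intro i _ hi
    by_cases h : B.rw i = B.cl i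
    · rw [if_pos h, Pi.smul_apply, Pi.single_apply, if_neg]
      · simp
      · intro h'
        apply hi
        rw [h', dx_rw h]
    · rw [if_neg h]; rfl
  · intro h
    exact absurd (Finset.mem_univ _) h

theorem lw_eq (s : Fin (m + 1) →₀ ℕ) : B.lw s = Finsupp.weight (wl B) s := by
  rw [Finsupp.weight_apply, Finsupp.sum_fintype _ _ (fun i => by simp)]
  unfold Blk.lw
  rw [dg_eq, ← Finset.sum_add_distrib]
  refine Finset.sum_congr rfl fun i _ => ?_
  unfold wl
  by_cases h : B.rw i = B.cl i
  · rw [if_pos h, if_neg (by rw [h]; exact lt_irrefl _), if_pos h, add_zero]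
    simp
  · rw [if_neg h, if_neg h, zero_add]
    split_ifs
    · simp
    · simp

theorem rt_eq (s : Fin (m + 1) →₀ ℕ) : B.rt s = Finsupp.weight (wr B) s := by
  rw [Finsupp.weight_apply, Finsupp.sum_fintype _ _ (fun i => by simp)]
  unfold Blk.rt
  rw [dg_eq, ← Finset.sum_add_distrib]
  refine Finset.sum_congr rfl fun i _ => ?_
  unfold wr
  by_cases h : B.rw i = B.cl i
  · rw [if_pos h, if_neg (by rw [h]; exact lt_irrefl _), if_pos h, add_zero]
    simp
  · rw [if_neg h, if_neg h, zero_add]
    split_ifs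
    · simp
    · simp

theorem hom_Th {w : Fin (m + 1) → (Fin N → ℤ)} {f : Fin (m + 1) → (Fin N → ℤ)}
    (h : ∀ i, IsWeightedHomogeneous w (B.Th k (X i)) (f i)) (e : Fin (m + 1) →₀ ℕ) (c : k) :
    IsWeightedHomogeneous w (B.Th k (monomial e c)) (Finsupp.weight f e) := by
  rw [monomial_eq, map_mul, Finsupp.prod, map_prod]
  have h1 : IsWeightedHomogeneous w (B.Th k (C c)) 0 := by
    have : B.Th k (C c) = C c := by
      unfold Blk.Th
      rw [aeval_C]
      rfl
    rw [this]
    exact isWeightedHomogeneous_C w c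
  have h2 : IsWeightedHomogeneous w (∏ x ∈ e.support, B.Th k (X x ^ e x))
      (∑ x ∈ e.support, e x • f x) := by
    refine IsWeightedHomogeneous.prod _ _ _ fun i _ => ?_
    rw [map_pow]
    exact (h i).pow _
  have h3 := h1.mul h2
  rw [zero_add] at h3
  rw [Finsupp.weight_apply]
  exact h3

theorem hom_low (p r : Fin N) : IsWeightedHomogeneous (wl B)
    (B.low (X : Fin (m + 1) → MvPolynomial (Fin (m + 1)) k) p r)
    (Pi.single p 1 - Pi.single r 1) := by
  unfold Blk.low
  split_ifs with h1 h2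
  · subst h1
    rw [sub_self]
    exact isWeightedHomogeneous_one _ _
  · unfold Blk.mat
    split_ifs with h3
    · have h4 := isWeightedHomogeneous_X k (wl B) (B.ix p r h3)
      have h5 : wl B (B.ix p r h3) = Pi.single p 1 - Pi.single r 1 := by
        unfold wl
        rw [B.rw_ix, B.cl_ix, if_neg h1, if_pos h2]
      rw [h5] at h4
      exact h4
    · exact isWeightedHomogeneous_zero _ _ _
  · exact isWeightedHomogeneous_zero _ _ _

theorem hom_low' (p r : Fin N) : IsWeightedHomogeneous (wr B)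
    (B.low (X : Fin (m + 1) → MvPolynomial (Fin (m + 1)) k) p r) 0 := by
  unfold Blk.low
  split_ifs with h1 h2
  · exact isWeightedHomogeneous_one _ _
  · unfold Blk.mat
    split_ifs with h3
    · have h4 := isWeightedHomogeneous_X k (wr B) (B.ix p r h3)
      have h5 : wr B (B.ix p r h3) = 0 := by
        unfold wr
        rw [B.rw_ix, B.cl_ix, if_neg h1, if_neg (not_lt.2 h2.le)]
      rw [h5] at h4
      exact h4
    · exact isWeightedHomogeneous_zero _ _ _
  · exact isWeightedHomogeneous_zero _ _ _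

theorem hom_upp (p r : Fin N) : IsWeightedHomogeneous (wr B)
    (B.upp (X : Fin (m + 1) → MvPolynomial (Fin (m + 1)) k) p r)
    (Pi.single r 1 - Pi.single p 1) := by
  unfold Blk.upp
  split_ifs with h1 h2
  · subst h1
    rw [sub_self]
    exact isWeightedHomogeneous_one _ _
  · unfold Blk.mat
    split_ifs with h3
    · have h4 := isWeightedHomogeneous_X k (wr B) (B.ix p r h3)
      have h5 : wr B (B.ix p r h3) = Pi.single r 1 - Pi.single p 1 := by
        unfold wr
        rw [B.rw_ix, B.cl_ix, if_neg h1, if_pos h2]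
      rw [h5] at h4
      exact h4
    · exact isWeightedHomogeneous_zero _ _ _
  · exact isWeightedHomogeneous_zero _ _ _

theorem hom_upp' (p r : Fin N) : IsWeightedHomogeneous (wl B)
    (B.upp (X : Fin (m + 1) → MvPolynomial (Fin (m + 1)) k) p r) 0 := by
  unfold Blk.upp
  split_ifs with h1 h2
  · exact isWeightedHomogeneous_one _ _
  · unfold Blk.mat
    split_ifs with h3
    · have h4 := isWeightedHomogeneous_X k (wl B) (B.ix p r h3)
      have h5 : wl B (B.ix p r h3) = 0 := by
        unfold wl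
        rw [B.rw_ix, B.cl_ix, if_neg h1, if_neg (not_lt.2 h2.le)]
      rw [h5] at h4
      exact h4
    · exact isWeightedHomogeneous_zero _ _ _
  · exact isWeightedHomogeneous_zero _ _ _

theorem hom_dia (r : Fin N) : IsWeightedHomogeneous (wl B)
    (B.dia (X : Fin (m + 1) → MvPolynomial (Fin (m + 1)) k) r) (Pi.single r 1) := by
  unfold Blk.dia
  have h4 := isWeightedHomogeneous_X k (wl B) (B.dx r)
  have h5 : wl B (B.dx r) = Pi.single r 1 := by
    unfold wl Blk.dx
    rw [B.rw_ix, B.cl_ix, if_pos rfl]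
  rw [h5] at h4
  exact h4

theorem hom_dia' (r : Fin N) : IsWeightedHomogeneous (wr B)
    (B.dia (X : Fin (m + 1) → MvPolynomial (Fin (m + 1)) k) r) (Pi.single r 1) := by
  unfold Blk.dia
  have h4 := isWeightedHomogeneous_X k (wr B) (B.dx r)
  have h5 : wr B (B.dx r) = Pi.single r 1 := by
    unfold wr Blk.dx
    rw [B.rw_ix, B.cl_ix, if_pos rfl]
  rw [h5] at h4
  exact h4

theorem Th_X (i : Fin (m + 1)) : B.Th k (X i) =
    ∑ r, B.low (X : Fin (m + 1) → MvPolynomial (Fin (m + 1)) k) (B.rw i) r * B.dia X r *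
      B.upp X r (B.cl i) := by
  unfold Blk.Th
  rw [aeval_X]
  unfold Blk.vec
  rw [ldu_apply]

theorem hom_l (i : Fin (m + 1)) :
    IsWeightedHomogeneous (wl B) (B.Th k (X i)) (Pi.single (B.rw i) 1) := by
  rw [Th_X]
  refine IsWeightedHomogeneous.sum _ _ _ fun r _ => ?_
  have h := ((hom_low (B := B) (k := k) (B.rw i) r).mul (hom_dia r)).mul (hom_upp' r (B.cl i))
  rw [sub_add_cancel, add_zero] at h
  exact h

theorem hom_r (i : Fin (m + 1)) :
    IsWeightedHomogeneous (wr B) (B.Th k (X i)) (Pi.single (B.cl i) 1) := by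
  rw [Th_X]
  refine IsWeightedHomogeneous.sum _ _ _ fun r _ => ?_
  have h := ((hom_low' (B := B) (k := k) (B.rw i) r).mul (hom_dia' r)).mul (hom_upp r (B.cl i))
  rw [zero_add, add_sub_cancel] at h
  exact h

theorem weight_map (f : Fin (m + 1) → Fin N) (e : Fin (m + 1) →₀ ℕ) :
    Finsupp.weight (fun i => (Pi.single (f i) (1 : ℤ) : Fin N → ℤ)) e = zz (e.mapDomain f) := by
  induction e using Finsupp.induction_linear with
  | zero => rw [map_zero, Finsupp.mapDomain_zero, zz_zero]
  | add a b ha hb => rw [map_add, Finsupp.mapDomain_add, zz_add, ha, hb]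
  | single i n =>
    rw [Finsupp.mapDomain_single, zz_single, Finsupp.weight_single]
    simp

theorem lw_ro {e s : Fin (m + 1) →₀ ℕ} {c : k} (h : coeff s (B.Th k (monomial e c)) ≠ 0) :
    B.lw s = zz (ro B e) := by
  rw [lw_eq, hom_Th hom_l e c h, weight_map]
  rfl

theorem rt_co {e s : Fin (m + 1) →₀ ℕ} {c : k} (h : coeff s (B.Th k (monomial e c)) ≠ 0) :
    B.rt s = zz (co B e) := by
  rw [rt_eq, hom_Th hom_r e c h, weight_map]
  rfl

/-! ### components -/

/-- the component of given row and column sums -/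
def cmp (B : Blk N m) (ν₁ ν₂ : Fin N → ℤ) (P : MvPolynomial (Fin (m + 1)) k) :
    MvPolynomial (Fin (m + 1)) k :=
  ∑ e ∈ P.support.filter fun e => zz (ro B e) = ν₁ ∧ zz (co B e) = ν₂, monomial e (coeff e P)

theorem coeff_Th_cmp (ν₁ ν₂ : Fin N → ℤ) (P : MvPolynomial (Fin (m + 1)) k)
    (s : Fin (m + 1) →₀ ℕ) : coeff s (B.Th k (cmp B ν₁ ν₂ P)) =
      if B.lw s = ν₁ ∧ B.rt s = ν₂ then coeff s (B.Th k P) else 0 := by
  unfold cmp
  rw [map_sum, coeff_sum]
  split_ifs with h
  · conv_rhs => rw [P.as_sum, map_sum, coeff_sum]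
    refine Finset.sum_filter_of_ne fun e _ he => ?_
    exact ⟨(lw_ro he).symm.trans h.1, (rt_co he).symm.trans h.2⟩
  · refine Finset.sum_eq_zero fun e he => ?_
    rw [Finset.mem_filter] at he
    by_contra hne
    exact h ⟨(lw_ro hne).trans he.2.1, (rt_co hne).trans he.2.2⟩

theorem trP_monomial (t t' : Fin N → k) (e : Fin (m + 1) →₀ ℕ) (c : k) :
    B.trP (Matrix.diagonal t) (Matrix.diagonal t') (monomial e c) =
      ((∏ p, t p ^ ro B e p) * ∏ p, t' p ^ co B e p) • monomial e c := by
  induction e using Finsupp.induction_linear generalizing c with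
  | zero =>
    have h : B.trP (Matrix.diagonal t) (Matrix.diagonal t') (monomial 0 c) = monomial 0 c := by
      unfold Blk.trP
      rw [← C_apply, aeval_C]
      rfl
    rw [h]
    simp [ro, co]
  | add a b ha hb =>
    have h1 : monomial (a + b) c = monomial a c * monomial b (1 : k) := by
      rw [monomial_mul, mul_one]
    rw [h1, map_mul, ha, hb]
    have h2 : ∀ p, t p ^ ro B (a + b) p = t p ^ ro B a p * t p ^ ro B b p := by
      intro p
      unfold ro
      rw [Finsupp.mapDomain_add, Finsupp.add_apply, pow_add]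
    have h3 : ∀ p, t' p ^ co B (a + b) p = t' p ^ co B a p * t' p ^ co B b p := by
      intro p
      unfold co
      rw [Finsupp.mapDomain_add, Finsupp.add_apply, pow_add]
    simp only [h2, h3, Finset.prod_mul_distrib, smul_mul_smul_comm]
    congr 1
    ring
  | single i n =>
    have h1 : monomial (Finsupp.single i n) c = C c * X i ^ n := by
      rw [X_pow_eq_monomial, C_mul_monomial, mul_one]
    have h2 : B.trP (Matrix.diagonal t) (Matrix.diagonal t') (X i : MvPolynomial (Fin (m + 1)) k) =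
        C (t (B.rw i) * t' (B.cl i)) * X i := by
      unfold Blk.trP
      rw [aeval_X]
      unfold Blk.vec
      rw [Matrix.diagonal_map (map_zero C), Matrix.diagonal_map (map_zero C),
        Matrix.mul_diagonal, Matrix.diagonal_mul]
      have h3 : B.XX k (B.rw i) (B.cl i) = X i := by
        unfold Blk.XX Blk.mat
        rw [dif_pos (B.rw_cl i), B.ix_rw_cl]
      rw [h3, C_mul]
      ring
    have h4 : B.trP (Matrix.diagonal t) (Matrix.diagonal t')
        (C c : MvPolynomial (Fin (m + 1)) k) = C c := by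
      unfold Blk.trP
      rw [aeval_C]
      rfl
    have h5 : ∏ p, t p ^ ro B (Finsupp.single i n) p = t (B.rw i) ^ n := by
      unfold ro
      rw [Finsupp.mapDomain_single, Finset.prod_eq_single (B.rw i)]
      · rw [Finsupp.single_eq_same]
      · intro p _ hp
        rw [Finsupp.single_apply, if_neg (Ne.symm hp), pow_zero]
      · intro h
        exact absurd (Finset.mem_univ _) h
    have h6 : ∏ p, t' p ^ co B (Finsupp.single i n) p = t' (B.cl i) ^ n := by
      unfold co
      rw [Finsupp.mapDomain_single, Finset.prod_eq_single (B.cl i)]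
      · rw [Finsupp.single_eq_same]
      · intro p _ hp
        rw [Finsupp.single_apply, if_neg (Ne.symm hp), pow_zero]
      · intro h
        exact absurd (Finset.mem_univ _) h
    rw [h1, map_mul, map_pow, h2, h4, h5, h6, smul_eq_C_mul, mul_pow, ← C_pow, mul_pow]
    ring

/-- a subspace containing all torus translates of `P` contains the components of `P` -/
theorem cmp_mem [Infinite k] (M : Submodule k (MvPolynomial (Fin (m + 1)) k))
    (P : MvPolynomial (Fin (m + 1)) k)
    (h : ∀ t t' : Fin N → k, (∀ p, t p ≠ 0) → (∀ p, t' p ≠ 0) →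
      B.trP (Matrix.diagonal t) (Matrix.diagonal t') P ∈ M) (ν₁ ν₂ : Fin N → ℤ) :
    cmp B ν₁ ν₂ P ∈ M := by
  let wt : (Fin (m + 1) →₀ ℕ) → (Fin N ⊕ Fin N → ℕ) := fun e => Sum.elim (ro B e) (co B e)
  let U : (Fin N ⊕ Fin N → ℕ) → MvPolynomial (Fin (m + 1)) k := fun α =>
    ∑ e ∈ P.support.filter fun e => wt e = α, monomial e (coeff e P)
  have hU := vdm M (P.support.image wt) U (by
    intro τ hτ
    have h1 := h (fun p => τ (Sum.inl p)) (fun p => τ (Sum.inr p)) (fun p => hτ _) (fun p => hτ _)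
    have h2 : ∑ α ∈ P.support.image wt, (∏ i, τ i ^ α i) • U α =
        B.trP (Matrix.diagonal fun p => τ (Sum.inl p)) (Matrix.diagonal fun p => τ (Sum.inr p)) P := by
      conv_rhs => rw [P.as_sum, map_sum]
      rw [← Finset.sum_fiberwise_of_maps_to (s := P.support) (t := P.support.image wt) (g := wt)
        (fun e he => Finset.mem_image_of_mem _ he)]
      refine Finset.sum_congr rfl fun α _ => ?_
      show _ • (∑ e ∈ P.support.filter fun e => wt e = α, monomial e (coeff e P)) = _
      rw [Finset.smul_sum]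
      refine Finset.sum_congr rfl fun e he => ?_
      rw [Finset.mem_filter] at he
      rw [trP_monomial, ← he.2, Fintype.prod_sum_type]
      rfl
    rw [h2]
    exact h1)
  by_cases hα : ∃ e ∈ P.support, zz (ro B e) = ν₁ ∧ zz (co B e) = ν₂
  · obtain ⟨e₀, he₀, h1, h2⟩ := hα
    have h3 := hU (wt e₀) (Finset.mem_image_of_mem _ he₀)
    have h4 : cmp B ν₁ ν₂ P = U (wt e₀) := by
      unfold cmp
      refine Finset.sum_congr ?_ fun _ _ => rfl
      ext e
      rw [Finset.mem_filter, Finset.mem_filter]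
      refine and_congr_right fun _ => ?_
      constructor
      · rintro ⟨h5, h6⟩
        have h7 : ro B e = ro B e₀ := zz_inj (h5.trans h1.symm)
        have h8 : co B e = co B e₀ := zz_inj (h6.trans h2.symm)
        show Sum.elim _ _ = Sum.elim _ _
        rw [h7, h8]
      · intro h5
        have h6 : (Sum.elim (ro B e) (co B e) : Fin N ⊕ Fin N → ℕ) =
          Sum.elim (ro B e₀) (co B e₀) := h5
        have h7 : ro B e = ro B e₀ := by
          ext p
          exact congrFun h6 (Sum.inl p)
        have h8 : co B e = co B e₀ := by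
          ext p
          exact congrFun h6 (Sum.inr p)
        rw [h7, h8]
        exact ⟨h1, h2⟩
    rw [h4]
    exact h3
  · have h4 : cmp B ν₁ ν₂ P = 0 := by
      unfold cmp
      rw [Finset.filter_eq_empty_iff.2, Finset.sum_empty]
      intro e he h'
      exact hα ⟨e, he, h'⟩
    rw [h4]
    exact M.zero_mem

theorem isG_diagonal {t : Fin N → k} (ht : ∀ p, t p ≠ 0) : B.IsG (Matrix.diagonal t) :=
  ⟨isBl_diagonal B t, by rw [Matrix.det_diagonal]; exact Finset.prod_ne_zero_iff.2 fun p _ => ht p⟩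

theorem EE_cmp [Infinite k] (P : MvPolynomial (Fin (m + 1)) k) (ν₁ ν₂ : Fin N → ℤ) :
    B.EE (cmp B ν₁ ν₂ P) ⊆ B.EE P := by
  intro κ hκ
  rw [mem_EE] at hκ ⊢
  obtain ⟨a, c, ha, hc, s, hs, h⟩ := hκ
  by_contra hcon
  apply hs
  have h1 := cmp_mem (B := B)
    (LinearMap.ker ((lcoeff k s).comp (tor B a c).toLinearMap)) P (by
      intro t t' ht ht'
      rw [LinearMap.mem_ker, LinearMap.comp_apply]
      show coeff s (tor B a c _) = 0
      rw [tor_trP ha.1 hc.1]
      by_contra hne
      exact hcon ⟨_, _, isG_mul (isG_diagonal ht) ha, isG_mul hc (isG_diagonal ht'), s, hne, h⟩)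
    ν₁ ν₂
  rw [LinearMap.mem_ker, LinearMap.comp_apply] at h1
  exact h1

/-- evaluation on the torus: a homogeneous polynomial on `t x` -/
theorem tor_one_left (x : Matrix (Fin N) (Fin N) k) (e : Fin (m + 1) →₀ ℕ) (c : k) :
    tor B 1 x (monomial e c) = monomial (ro B e) (eval (B.vec x) (monomial e c)) := by
  induction e using Finsupp.induction_linear generalizing c with
  | zero =>
    rw [← C_apply, eval_C]
    unfold tor ro
    rw [aeval_C, Finsupp.mapDomain_zero]
    rfl
  | add a b ha hb =>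
    have h1 : monomial (a + b) c = monomial a c * monomial b (1 : k) := by
      rw [monomial_mul, mul_one]
    rw [h1, map_mul, map_mul, ha, hb, monomial_mul]
    unfold ro
    rw [Finsupp.mapDomain_add]
  | single i n =>
    have h1 : monomial (Finsupp.single i n) c = C c * X i ^ n := by
      rw [X_pow_eq_monomial, C_mul_monomial, mul_one]
    have h2 : tor B 1 x (X i) = C (x (B.rw i) (B.cl i)) * X (B.rw i) := by
      unfold tor
      rw [aeval_X]
      unfold Blk.vec
      rw [Matrix.map_one C (map_zero C) (map_one C), one_mul, Matrix.diagonal_mul,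
        Matrix.map_apply, mul_comm]
    have h3 : tor B 1 x (C c) = C c := by
      unfold tor
      rw [aeval_C]
      rfl
    rw [h1, map_mul, map_pow, h2, h3, map_mul, map_pow, eval_C, eval_X, mul_pow, ← C_pow,
      ← mul_assoc, ← C_mul, X_pow_eq_monomial, C_mul_monomial, mul_one]
    unfold ro
    rw [Finsupp.mapDomain_single]
    rfl

theorem tor_one_right (x : Matrix (Fin N) (Fin N) k) (e : Fin (m + 1) →₀ ℕ) (c : k) :
    tor B x 1 (monomial e c) = monomial (co B e) (eval (B.vec x) (monomial e c)) := by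
  induction e using Finsupp.induction_linear generalizing c with
  | zero =>
    rw [← C_apply, eval_C]
    unfold tor co
    rw [aeval_C, Finsupp.mapDomain_zero]
    rfl
  | add a b ha hb =>
    have h1 : monomial (a + b) c = monomial a c * monomial b (1 : k) := by
      rw [monomial_mul, mul_one]
    rw [h1, map_mul, map_mul, ha, hb, monomial_mul]
    unfold co
    rw [Finsupp.mapDomain_add]
  | single i n =>
    have h1 : monomial (Finsupp.single i n) c = C c * X i ^ n := by
      rw [X_pow_eq_monomial, C_mul_monomial, mul_one]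
    have h2 : tor B x 1 (X i) = C (x (B.rw i) (B.cl i)) * X (B.cl i) := by
      unfold tor
      rw [aeval_X]
      unfold Blk.vec
      rw [Matrix.map_one C (map_zero C) (map_one C), mul_one, Matrix.mul_diagonal,
        Matrix.map_apply]
    have h3 : tor B x 1 (C c) = C c := by
      unfold tor
      rw [aeval_C]
      rfl
    rw [h1, map_mul, map_pow, h2, h3, map_mul, map_pow, eval_C, eval_X, mul_pow, ← C_pow,
      ← mul_assoc, ← C_mul, X_pow_eq_monomial, C_mul_monomial, mul_one]
    unfold co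
    rw [Finsupp.mapDomain_single]
    rfl

theorem coeff_left (x : Matrix (Fin N) (Fin N) k) (t : Fin N →₀ ℕ) (ν₂ : Fin N → ℤ)
    (P : MvPolynomial (Fin (m + 1)) k) :
    coeff t (tor B 1 x (cmp B (zz t) ν₂ P)) = eval (B.vec x) (cmp B (zz t) ν₂ P) := by
  unfold cmp
  rw [map_sum, coeff_sum, map_sum]
  refine Finset.sum_congr rfl fun e he => ?_
  rw [Finset.mem_filter] at he
  rw [tor_one_left, zz_inj he.2.1, coeff_monomial, if_pos rfl]

theorem coeff_right (x : Matrix (Fin N) (Fin N) k) (t : Fin N →₀ ℕ) (ν₁ : Fin N → ℤ)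
    (P : MvPolynomial (Fin (m + 1)) k) :
    coeff t (tor B x 1 (cmp B ν₁ (zz t) P)) = eval (B.vec x) (cmp B ν₁ (zz t) P) := by
  unfold cmp
  rw [map_sum, coeff_sum, map_sum]
  refine Finset.sum_congr rfl fun e he => ?_
  rw [Finset.mem_filter] at he
  rw [tor_one_right, zz_inj he.2.2, coeff_monomial, if_pos rfl]

theorem exists_point [Infinite k] {P : MvPolynomial (Fin (m + 1)) k} (hP : P ≠ 0) :
    ∃ x, B.IsG x ∧ eval (B.vec x) P ≠ 0 := by
  have hdet : (B.XX k).det ≠ 0 := by
    intro h
    have h1 := congrArg (eval (B.vec (1 : Matrix (Fin N) (Fin N) k))) h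
    rw [RingHom.map_det, RingHom.mapMatrix_apply, Blk.XX, map_mat, map_zero] at h1
    simp only [eval_X] at h1
    rw [mat_vec B (isBl_one B), Matrix.det_one] at h1
    exact one_ne_zero h1
  have h2 : P * (B.XX k).det ≠ 0 := mul_ne_zero hP hdet
  obtain ⟨y, hy⟩ : ∃ y : Fin (m + 1) → k, eval y (P * (B.XX k).det) ≠ 0 := by
    by_contra hcon
    push Not at hcon
    apply h2
    apply MvPolynomial.funext
    intro y
    rw [hcon y, map_zero]
  rw [map_mul] at hy
  have h3 := left_ne_zero_of_mul hy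
  have h4 := right_ne_zero_of_mul hy
  rw [RingHom.map_det, RingHom.mapMatrix_apply, Blk.XX, map_mat] at h4
  simp only [eval_X] at h4
  refine ⟨B.mat y, ⟨isBl_mat B y, h4⟩, ?_⟩
  rw [vec_mat]
  exact h3

end Wts

section WTS

variable [Infinite k]

theorem ee_supp {P : MvPolynomial (Fin (m + 1)) k} {s : Fin (m + 1) →₀ ℕ}
    (hs : s ∈ (B.Th k P).support) : B.dg s ∈ B.EE P := by
  rw [Wts.mem_EE]
  rw [mem_support_iff] at hs
  have h1 : coeff (Wts.dgN B s) (Wts.Psi B k (B.Th k P)) ≠ 0 := by
    intro h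
    apply hs
    rw [← Wts.coeff_Psi, h, coeff_zero]
  obtain ⟨y, hy⟩ : ∃ y : Fin (m + 1) → k,
      eval y (coeff (Wts.dgN B s) (Wts.Psi B k (B.Th k P))) ≠ 0 := by
    by_contra hcon
    push Not at hcon
    apply h1
    apply MvPolynomial.funext
    intro y
    rw [hcon y, map_zero]
  refine ⟨B.low y, B.upp y, ⟨isBl_low B y, ?_⟩, ⟨isBl_upp B y, ?_⟩, Wts.dgN B s, ?_, rfl⟩
  · rw [det_low]; exact one_ne_zero
  · rw [det_upp]; exact one_ne_zero
  · rw [Wts.tor_low_upp, coeff_map]
    exact hy

theorem ee_tr {P : MvPolynomial (Fin (m + 1)) k} {a c : Matrix (Fin N) (Fin N) k} (ha : B.IsG a)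
    (hc : B.IsG c) : B.EE (B.trP a c P) ⊆ B.EE P := by
  intro κ hκ
  rw [Wts.mem_EE] at hκ ⊢
  obtain ⟨a', c', ha', hc', s, hs, h⟩ := hκ
  rw [Wts.tor_trP ha'.1 hc'.1] at hs
  exact ⟨_, _, isG_mul ha ha', isG_mul hc' hc, s, hs, h⟩

theorem ee_perm {P : MvPolynomial (Fin (m + 1)) k} {κ : Fin N → ℤ} (hκ : κ ∈ B.EE P)
    (w : Equiv.Perm (Fin N)) (hw : ∀ p, B.b (w p) = B.b p) : κ ∘ w ∈ B.EE P := by
  rw [Wts.mem_EE] at hκ ⊢
  obtain ⟨a, c, ha, hc, t, ht, h⟩ := hκ
  have hw' : ∀ p, B.b (w⁻¹ p) = B.b p := by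
    intro p
    rw [← hw (w⁻¹ p)]
    exact congrArg B.b (Equiv.apply_symm_apply w p)
  have h1 : B.IsG ((w⁻¹ : Equiv.Perm (Fin N)).permMatrix k) := isG_perm w⁻¹ hw'
  have h2 : B.IsG (w.permMatrix k) := isG_perm w hw
  refine ⟨_, _, isG_mul ha h1, isG_mul h2 hc, t.mapDomain (w⁻¹ : Equiv.Perm (Fin N)), ?_, ?_⟩
  · have h3 : Wts.tor B (a * (w⁻¹ : Equiv.Perm (Fin N)).permMatrix k) (w.permMatrix k * c) P =
        rename (w⁻¹ : Equiv.Perm (Fin N)) (Wts.tor B a c P) := by
      unfold Wts.tor
      rw [comp_aeval_apply]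
      have h4 : B.vec ((a * (w⁻¹ : Equiv.Perm (Fin N)).permMatrix k).map C * Matrix.diagonal X *
          (w.permMatrix k * c).map C) = fun i => rename (w⁻¹ : Equiv.Perm (Fin N))
            (B.vec (a.map C * Matrix.diagonal X * c.map C) i) := by
        funext i
        unfold Blk.vec
        rw [Matrix.map_mul, Matrix.map_mul]
        have h5 : (((w⁻¹ : Equiv.Perm (Fin N)).permMatrix k).map
            (C : k →+* MvPolynomial (Fin N) k)) * Matrix.diagonal X *
            ((w.permMatrix k).map C) = Matrix.diagonal fun p => X (w⁻¹ p) := by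
          ext1 p q
          rw [Matrix.mul_apply]
          simp only [Matrix.mul_diagonal, Matrix.map_apply, Equiv.Perm.permMatrix,
            PEquiv.toMatrix_apply, Equiv.toPEquiv_apply, Option.mem_some_iff]
          rw [Finset.sum_eq_single (w⁻¹ p)]
          · have h9 : w (w⁻¹ p) = p := Equiv.apply_symm_apply w p
            rw [if_pos rfl, h9, Matrix.diagonal_apply, map_one, one_mul]
            split_ifs
            · rw [map_one, mul_one]
            · rw [map_zero, mul_zero]
          · intro r _ hr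
            rw [if_neg (Ne.symm hr), map_zero, zero_mul, zero_mul]
          · intro h
            exact absurd (Finset.mem_univ _) h
        have h6 : a.map (C : k →+* MvPolynomial (Fin N) k) *
            ((w⁻¹ : Equiv.Perm (Fin N)).permMatrix k).map C * Matrix.diagonal X *
            ((w.permMatrix k).map C * c.map C) =
            a.map C * (Matrix.diagonal fun p => X (w⁻¹ p)) * c.map C := by
          rw [← h5]
          simp only [Matrix.mul_assoc]
        rw [h6, Matrix.mul_apply, Matrix.mul_apply, map_sum]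
        refine Finset.sum_congr rfl fun r _ => ?_
        rw [Matrix.mul_diagonal, Matrix.mul_diagonal, map_mul, map_mul, rename_X,
          Matrix.map_apply, Matrix.map_apply, rename_C, rename_C]
      rw [h4]
    rw [h3, coeff_rename_mapDomain _ (Equiv.injective _)]
    exact ht
  · funext p
    rw [h]
    have h7 : t.mapDomain (w⁻¹ : Equiv.Perm (Fin N)) p = t (w p) := by
      have h8 := Finsupp.mapDomain_apply (Equiv.injective (w⁻¹ : Equiv.Perm (Fin N))) t (w p)
      have h9 : (w⁻¹ : Equiv.Perm (Fin N)) (w p) = p := Equiv.symm_apply_apply w p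
      rwa [h9] at h8
    rw [h7]
    rfl

theorem ee_finite (P : MvPolynomial (Fin (m + 1)) k) : (B.EE P).Finite := by
  have h1 : (Set.pi Set.univ fun _ : Fin N => Set.Icc (0 : ℤ) P.totalDegree).Finite :=
    Set.Finite.pi fun _ => Set.finite_Icc _ _
  refine h1.subset fun κ hκ => ?_
  rw [Wts.mem_EE] at hκ
  obtain ⟨a, c, ha, hc, t, ht, rfl⟩ := hκ
  intro p _
  rw [Set.mem_Icc]
  refine ⟨Int.natCast_nonneg _, ?_⟩
  have h2 : t p ≤ P.totalDegree := by
    refine le_trans ?_ ((le_totalDegree (mem_support_iff.2 ht)).trans (Wts.tot_tor a c P))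
    rw [Finsupp.sum_fintype _ _ (fun _ => rfl)]
    exact Finset.single_le_sum (f := fun i => t i) (fun _ _ => Nat.zero_le _) (Finset.mem_univ p)
  show (t p : ℤ) ≤ _
  exact_mod_cast h2

theorem ee_smul {P : MvPolynomial (Fin (m + 1)) k} {c : k} (hc : c ≠ 0) :
    B.EE (MvPolynomial.C c * P) = B.EE P := by
  ext κ
  rw [Wts.mem_EE, Wts.mem_EE]
  have h : ∀ a c' : Matrix (Fin N) (Fin N) k, ∀ t, coeff t (Wts.tor B a c' (C c * P)) ≠ 0 ↔
      coeff t (Wts.tor B a c' P) ≠ 0 := by
    intro a c' t
    have h1 : Wts.tor B a c' (C c) = C c := by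
      unfold Wts.tor
      rw [aeval_C]
      rfl
    rw [map_mul, h1, coeff_C_mul]
    exact ⟨right_ne_zero_of_mul, mul_ne_zero hc⟩
  simp only [h]

/-- the component of left weight `ν₁` and right weight `ν₂` -/
theorem comp (C : GC k K B) (M : Submodule k K) (hM : ∀ σ, C.Tra σ → ∀ f ∈ M, σ f ∈ M) {f : K}
    (hf : f ∈ M) {n : ℕ} {P : MvPolynomial (Fin (m + 1)) k} (hP : C.PRep f n P)
    (ν₁ ν₂ : Fin N → ℤ) : ∃ f' ∈ M, ∃ P', C.PRep f' n P' ∧ B.EE P' ⊆ B.EE P ∧
      ∀ s, (B.Th k P').coeff s = if B.lw s = ν₁ ∧ B.rt s = ν₂ then (B.Th k P).coeff s else 0 := by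
  have hdet : C.g.det ^ n ≠ 0 := pow_ne_zero _ (det_g_ne C)
  let F : MvPolynomial (Fin (m + 1)) k →ₗ[k] K :=
    (LinearMap.mulRight k ((C.g.det ^ n)⁻¹)).comp (aeval C.y).toLinearMap
  have hF : ∀ Q, F Q = aeval C.y Q * (C.g.det ^ n)⁻¹ := fun Q => rfl
  have hF' : ∀ Q, C.PRep (F Q) n Q := by
    intro Q
    unfold GC.PRep
    rw [hF, mul_assoc, inv_mul_cancel₀ hdet, mul_one]
  have hF'' : ∀ {g : K} {Q}, C.PRep g n Q → F Q = g := by
    intro g Q h
    rw [hF, ← h, mul_assoc, mul_inv_cancel₀ hdet, mul_one]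
  have h1 := Wts.cmp_mem (B := B) (M.comap F) P (by
    intro t t' ht ht'
    rw [Submodule.mem_comap]
    obtain ⟨σ, hσ⟩ := exists_tr C (Wts.isG_diagonal (B := B) ht) (Wts.isG_diagonal (B := B) ht')
    have h2 := rep_tr hσ hP
    have h3 := hF'' h2
    have h4 : σ f ∈ M := hM σ ⟨_, _, hσ⟩ f hf
    have h5 : ((Matrix.diagonal t).det * (Matrix.diagonal t').det) ^ n ≠ 0 :=
      pow_ne_zero _ (mul_ne_zero (Wts.isG_diagonal (B := B) ht).2 (Wts.isG_diagonal (B := B) ht').2)
    rw [← smul_eq_C_mul, map_smul] at h3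
    have h6 : F (B.trP (Matrix.diagonal t) (Matrix.diagonal t') P) =
        ((Matrix.diagonal t).det * (Matrix.diagonal t').det) ^ n • σ f := by
      rw [← h3, smul_smul, mul_inv_cancel₀ h5, one_smul]
    rw [h6]
    exact M.smul_mem _ h4) ν₁ ν₂
  exact ⟨_, h1, _, hF' _, Wts.EE_cmp P ν₁ ν₂, fun s => Wts.coeff_Th_cmp ν₁ ν₂ P s⟩

theorem ee_weight (C : GC k K B) {P : MvPolynomial (Fin (m + 1)) k} {s : Fin (m + 1) →₀ ℕ}
    (hs : s ∈ (B.Th k P).support) : B.lw s ∈ B.EE P ∧ B.rt s ∈ B.EE P := by
  have h1 := Wts.coeff_Th_cmp (B := B) (B.lw s) (B.rt s) P s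
  rw [if_pos ⟨rfl, rfl⟩] at h1
  rw [mem_support_iff] at hs
  rw [← h1] at hs
  have h0 : Wts.cmp B (B.lw s) (B.rt s) P ≠ 0 := by
    intro h
    rw [h, map_zero, coeff_zero] at hs
    exact hs rfl
  -- the weights are natural
  obtain ⟨e, he, h2, h3⟩ : ∃ e ∈ P.support, Wts.zz (Wts.ro B e) = B.lw s ∧
      Wts.zz (Wts.co B e) = B.rt s := by
    by_contra hcon
    apply h0
    unfold Wts.cmp
    rw [Finset.filter_eq_empty_iff.2, Finset.sum_empty]
    intro e he h'
    exact hcon ⟨e, he, h'⟩
  obtain ⟨x, hx, hx'⟩ := Wts.exists_point (B := B) h0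
  constructor
  · apply Wts.EE_cmp P (B.lw s) (B.rt s)
    rw [Wts.mem_EE]
    refine ⟨1, x, isG_one, hx, Wts.ro B e, ?_, h2.symm⟩
    have h4 := Wts.coeff_left (B := B) x (Wts.ro B e) (B.rt s) P
    rw [h2] at h4
    rw [h4]
    exact hx'
  · apply Wts.EE_cmp P (B.lw s) (B.rt s)
    rw [Wts.mem_EE]
    refine ⟨x, 1, hx, isG_one, Wts.co B e, ?_, h3.symm⟩
    have h4 := Wts.coeff_right (B := B) x (Wts.co B e) (B.lw s) P
    rw [h3] at h4
    rw [h4]
    exact hx'

end WTS

end

end Pool.Agent.MLD.Mon
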