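import Pool.Agent.Lib.MP_f23696_ag.M.Wts

/-!
EIGT (project MON, MP_f23696_ag): existence of semi-invariants of extremal weight.
-/

set_option autoImplicit false

open scoped Classical

namespace Pool.Agent.MLD.Mon

open MvPolynomial
open Pool.Agent.MLD.Ten (IsGood)

noncomputable section

universe u v w

variable {N m : ℕ} {B : Blk N m} {k : Type u} {K : Type v} [Field k] [Field K] [Algebra k K]

namespace Eigt

/-- a finite nonempty set has a smallest element for a total preorder -/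
theorem exists_least (O : Ord B) (s : Finset (Fin N → ℤ)) (hs : s.Nonempty) :
    ∃ κ ∈ s, ∀ κ' ∈ s, κ' - κ ∈ O.P := by
  induction hs using Finset.Nonempty.cons_induction with
  | singleton a =>
    refine ⟨a, Finset.mem_singleton_self a, fun κ' hκ' => ?_⟩
    rw [Finset.mem_singleton.1 hκ', sub_self]
    exact O.P.zero_mem
  | cons a s ha hs ih =>
    obtain ⟨κ, hκ, h⟩ := ih
    rcases O.total (κ - a) with h1 | h1
    · refine ⟨a, Finset.mem_cons_self a s, fun κ' hκ' => ?_⟩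
      rcases Finset.mem_cons.1 hκ' with rfl | h2
      · rw [sub_self]
        exact O.P.zero_mem
      · have h3 : κ' - a = (κ' - κ) + (κ - a) := by abel
        rw [h3]
        exact O.P.add_mem (h κ' h2) h1
    · refine ⟨κ, Finset.mem_cons.2 (Or.inr hκ), fun κ' hκ' => ?_⟩
      rcases Finset.mem_cons.1 hκ' with rfl | h2
      · rwa [neg_sub] at h1
      · exact h κ' h2

/-- the linear form `Σ p μ_p` -/
def lin (μ : Fin N → ℤ) : ℤ := ∑ p : Fin N, ((p : ℕ) : ℤ) * μ p

theorem lin_add (μ ν : Fin N → ℤ) : lin (μ + ν) = lin μ + lin ν := by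
  simp [lin, mul_add, Finset.sum_add_distrib]

theorem lin_sub (μ ν : Fin N → ℤ) : lin (μ - ν) = lin μ - lin ν := by
  simp [lin, mul_sub, Finset.sum_sub_distrib]

theorem lin_single (p : Fin N) : lin (Pi.single p (1 : ℤ)) = ((p : ℕ) : ℤ) := by
  unfold lin
  rw [Finset.sum_eq_single p]
  · rw [Pi.single_eq_same, mul_one]
  · intro q _ hq
    rw [Pi.single_eq_of_ne hq, mul_zero]
  · intro h
    exact absurd (Finset.mem_univ p) h

theorem lin_smul (c : ℤ) (μ : Fin N → ℤ) : lin (c • μ) = c * lin μ := by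
  unfold lin
  rw [Finset.mul_sum]
  refine Finset.sum_congr rfl fun p _ => ?_
  simp only [Pi.smul_apply, smul_eq_mul]
  ring

theorem lin_sum {ι : Type} (s : Finset ι) (f : ι → Fin N → ℤ) :
    lin (∑ i ∈ s, f i) = ∑ i ∈ s, lin (f i) := by
  unfold lin
  rw [Finset.sum_comm]
  refine Finset.sum_congr rfl fun p _ => ?_
  rw [Finset.sum_apply, Finset.mul_sum]

theorem smul_mem (O : Ord B) {μ : Fin N → ℤ} (h : μ ∈ O.P) (n : ℕ) : (n : ℤ) • μ ∈ O.P := by
  rw [natCast_zsmul]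
  exact O.P.nsmul_mem h n

/-- the off-diagonal part of the weight -/
def off (r c : Fin (m + 1) → Fin N) (s : Fin (m + 1) →₀ ℕ) : Fin N → ℤ :=
  ∑ i, if c i < r i then (s i : ℤ) • (Pi.single (r i) (1 : ℤ) - Pi.single (c i) (1 : ℤ)) else 0

theorem off_mem (O : Ord B) (r c : Fin (m + 1) → Fin N) (h : ∀ i, B.b (c i) = B.b (r i))
    (s : Fin (m + 1) →₀ ℕ) : off r c s ∈ O.P := by
  unfold off
  refine O.P.sum_mem fun i _ => ?_
  split_ifs with hi
  · exact smul_mem O (O.cham _ _ hi.le (h i)) _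
  · exact O.P.zero_mem

theorem lin_off (r c : Fin (m + 1) → Fin N) (s : Fin (m + 1) →₀ ℕ) :
    lin (off r c s) = ∑ i, if c i < r i then (s i : ℤ) * (((r i : ℕ) : ℤ) - ((c i : ℕ) : ℤ))
      else 0 := by
  unfold off
  rw [lin_sum]
  refine Finset.sum_congr rfl fun i _ => ?_
  split_ifs
  · rw [lin_smul, lin_sub, lin_single, lin_single]
  · unfold lin
    simp

theorem zero_of_lin_off {r c : Fin (m + 1) → Fin N} {s : Fin (m + 1) →₀ ℕ}
    (h : lin (off r c s) ≤ 0) (i : Fin (m + 1)) (hi : c i < r i) : s i = 0 := by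
  rw [lin_off] at h
  have h0 : ∀ i ∈ (Finset.univ : Finset (Fin (m + 1))), 0 ≤ (if c i < r i then
      (s i : ℤ) * (((r i : ℕ) : ℤ) - ((c i : ℕ) : ℤ)) else 0) := by
    intro i _
    split_ifs with hi
    · have h1 : ((c i : ℕ) : ℤ) < ((r i : ℕ) : ℤ) := by exact_mod_cast hi
      exact mul_nonneg (Int.natCast_nonneg _) (by omega)
    · exact le_rfl
  have h1 := (Finset.sum_eq_zero_iff_of_nonneg h0).1 (le_antisymm h (Finset.sum_nonneg h0)) i
    (Finset.mem_univ i)
  rw [if_pos hi] at h1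
  have h2 : ((c i : ℕ) : ℤ) < ((r i : ℕ) : ℤ) := by exact_mod_cast hi
  rcases mul_eq_zero.1 h1 with h3 | h3
  · exact_mod_cast h3
  · omega

theorem lw_eq (s : Fin (m + 1) →₀ ℕ) : B.lw s = B.dg s + off B.rw B.cl s := rfl

theorem rt_eq (s : Fin (m + 1) →₀ ℕ) : B.rt s = B.dg s + off B.cl B.rw s := rfl

theorem off_zero {r c : Fin (m + 1) → Fin N} {s : Fin (m + 1) →₀ ℕ}
    (h : ∀ i, c i < r i → s i = 0) : off r c s = 0 := by
  unfold off
  refine Finset.sum_eq_zero fun i _ => ?_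
  split_ifs with hi
  · rw [h i hi]
    simp
  · rfl

theorem onlyD_ext {s s' : Fin (m + 1) →₀ ℕ} (h : B.OnlyD s) (h' : B.OnlyD s')
    (hd : B.dg s = B.dg s') : s = s' := by
  ext i
  by_cases hi : B.rw i = B.cl i
  · have h1 : B.dx (B.rw i) = i := by
      have h2 := B.ix_rw_cl i
      unfold Blk.dx
      conv_rhs => rw [← h2]
      congr 1
    have h3 := congrFun hd (B.rw i)
    simp only [Blk.dg, h1] at h3
    exact_mod_cast h3
  · rw [h i hi, h' i hi]

end Eigt

open Eigt in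
theorem eigt [Infinite k] (C : GC k K B) (M : Submodule k K)
    (hM : ∀ σ, C.Tra σ → ∀ f ∈ M, σ f ∈ M) {f : K} (hf : f ∈ M) (hf0 : f ≠ 0) {n : ℕ}
    {P : MvPolynomial (Fin (m + 1)) k} (hP : C.PRep f n P) (O : Ord B) :
    ∃ μ, B.Dom μ ∧ C.dm μ ∈ M ∧ ∀ κ ∈ B.EE P, (κ - fun _ => (n : ℤ)) - μ ∈ O.P := by
  have hfin := ee_finite (B := B) P
  have hP0 : P ≠ 0 := by
    rintro rfl
    unfold GC.PRep at hP
    rw [map_zero] at hP
    rcases mul_eq_zero.1 hP with h | h
    · exact hf0 h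
    · exact pow_ne_zero n (det_g_ne (C := C)) h
  have hTh : B.Th k P ≠ 0 := fun h => hP0 (rep_inj h)
  obtain ⟨s₀, hs₀⟩ := MvPolynomial.support_nonempty.2 hTh
  have hne : hfin.toFinset.Nonempty := ⟨B.dg s₀, hfin.mem_toFinset.2 (ee_supp hs₀)⟩
  obtain ⟨κ₁, hκ₁, hl₁⟩ := exists_least O hfin.toFinset hne
  set E₀ := hfin.toFinset.filter fun κ => ∀ κ' ∈ B.EE P, κ' - κ ∈ O.P with hE₀
  have hE₀ne : E₀.Nonempty :=
    ⟨κ₁, Finset.mem_filter.2 ⟨hκ₁, fun κ' h => hl₁ κ' (hfin.mem_toFinset.2 h)⟩⟩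
  obtain ⟨κ₀, hκ₀, hmin⟩ := Finset.exists_min_image E₀ lin hE₀ne
  have hκE : κ₀ ∈ B.EE P := hfin.mem_toFinset.1 (Finset.mem_filter.1 hκ₀).1
  have hκO : ∀ κ' ∈ B.EE P, κ' - κ₀ ∈ O.P := (Finset.mem_filter.1 hκ₀).2
  -- dominance
  have hdom : B.Dom κ₀ := by
    intro p q hpq hb
    by_contra hlt
    rw [not_le] at hlt
    have hpq' : p ≠ q := by
      rintro rfl
      exact lt_irrefl _ hlt
    have hpq2 : p < q := lt_of_le_of_ne hpq hpq'
    have hsw : κ₀ ∘ Equiv.swap p q = κ₀ + (κ₀ q - κ₀ p) • (Pi.single p (1 : ℤ) -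
        Pi.single q (1 : ℤ)) := by
      ext r
      simp only [Function.comp_apply, Pi.add_apply, Pi.smul_apply, Pi.sub_apply, smul_eq_mul]
      by_cases h1 : r = p
      · subst h1
        rw [Equiv.swap_apply_left, Pi.single_eq_same, Pi.single_eq_of_ne hpq']
        ring
      · by_cases h2 : r = q
        · subst h2
          rw [Equiv.swap_apply_right, Pi.single_eq_same, Pi.single_eq_of_ne h1]
          ring
        · rw [Equiv.swap_apply_of_ne_of_ne h1 h2, Pi.single_eq_of_ne h1, Pi.single_eq_of_ne h2]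
          ring
    have hmem : κ₀ ∘ Equiv.swap p q ∈ B.EE P := by
      refine ee_perm hκE _ fun r => ?_
      by_cases h1 : r = p
      · subst h1
        rw [Equiv.swap_apply_left, hb]
      · by_cases h2 : r = q
        · subst h2
          rw [Equiv.swap_apply_right, hb]
        · rw [Equiv.swap_apply_of_ne_of_ne h1 h2]
    obtain ⟨c, hc⟩ := Int.eq_ofNat_of_zero_le (sub_nonneg.2 hlt.le)
    have hmem2 : κ₀ ∘ Equiv.swap p q ∈ E₀ := by
      refine Finset.mem_filter.2 ⟨hfin.mem_toFinset.2 hmem, fun κ' h => ?_⟩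
      have h1 : κ' - κ₀ ∘ Equiv.swap p q = (κ' - κ₀) + (c : ℤ) • (Pi.single q (1 : ℤ) -
          Pi.single p (1 : ℤ)) := by
        rw [hsw, hc, smul_sub, smul_sub]
        abel
      rw [h1]
      exact O.P.add_mem (hκO κ' h) (smul_mem O (O.cham p q hpq hb) c)
    have h2 := hmin _ hmem2
    rw [hsw, lin_add, lin_smul, lin_sub, lin_single, lin_single] at h2
    have h3 : ((p : ℕ) : ℤ) < ((q : ℕ) : ℤ) := by exact_mod_cast hpq2
    nlinarith
  obtain ⟨a, c, ha, hc, s, hsD, hs0, hsκ⟩ := hκE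
  obtain ⟨σ, hσ⟩ := exists_tr (C := C) ha hc
  have hdet : ((a.det * c.det) ^ n)⁻¹ ≠ 0 := inv_ne_zero (pow_ne_zero n (mul_ne_zero ha.2 hc.2))
  set P₁ := MvPolynomial.C ((a.det * c.det) ^ n)⁻¹ * B.trP a c P with hP₁
  have hrep₁ : C.PRep (σ f) n P₁ := rep_tr hσ hP
  have hEE₁ : B.EE P₁ ⊆ B.EE P := by
    rw [hP₁, ee_smul hdet]
    exact ee_tr ha hc
  have hlw : B.lw s = κ₀ := by
    rw [lw_eq, off_zero fun i hi => hsD i hi.ne', add_zero, hsκ]
    rfl
  have hrt : B.rt s = κ₀ := by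
    rw [rt_eq, off_zero fun i hi => hsD i hi.ne, add_zero, hsκ]
    rfl
  have hdg : B.dg s = κ₀ := hsκ.symm
  obtain ⟨f', hf', P', hP', hEE', hco⟩ := comp C M hM (hM σ ⟨a, c, hσ⟩ f hf) hrep₁ κ₀ κ₀
  have hc0 : (B.Th k P').coeff s ≠ 0 := by
    rw [hco, if_pos ⟨hlw, hrt⟩, hP₁, map_mul]
    have h1 : B.Th k (MvPolynomial.C ((a.det * c.det) ^ n)⁻¹) =
        MvPolynomial.C ((a.det * c.det) ^ n)⁻¹ := by
      unfold Blk.Th
      rw [aeval_C]
      rfl
    rw [h1, coeff_C_mul]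
    exact mul_ne_zero hdet hs0
  have honly : ∀ s' ∈ (B.Th k P').support, s' = s := by
    intro s' hs'
    have h1 : (B.Th k P').coeff s' ≠ 0 := MvPolynomial.mem_support_iff.1 hs'
    rw [hco] at h1
    split_ifs at h1 with h2
    · obtain ⟨hl, hr⟩ := h2
      have h3 : B.dg s' ∈ B.EE P := hEE₁ (hEE' (ee_supp hs'))
      have key : ∀ r c : Fin (m + 1) → Fin N, (∀ i, B.b (c i) = B.b (r i)) →
          B.dg s' + off r c s' = κ₀ → lin (off r c s') ≤ 0 := by
        intro r c hrc heq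
        have h4 : B.dg s' ∈ E₀ := by
          refine Finset.mem_filter.2 ⟨hfin.mem_toFinset.2 h3, fun κ' h => ?_⟩
          have h5 : κ' - B.dg s' = (κ' - κ₀) + off r c s' := by
            rw [← heq]
            abel
          rw [h5]
          exact O.P.add_mem (hκO κ' h) (off_mem O r c hrc s')
        have h5 := hmin _ h4
        rw [← heq, lin_add] at h5
        linarith
      have k1 := key B.rw B.cl (fun i => (B.rw_cl i).symm) hl
      have k2 := key B.cl B.rw (fun i => B.rw_cl i) hr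
      have z1 : ∀ i, B.cl i < B.rw i → s' i = 0 := fun i hi => zero_of_lin_off k1 i hi
      have z2 : ∀ i, B.rw i < B.cl i → s' i = 0 := fun i hi => zero_of_lin_off k2 i hi
      refine onlyD_ext (B := B) (fun i hi => ?_) hsD ?_
      · rcases lt_or_gt_of_ne hi with h | h
        · exact z2 i h
        · exact z1 i h
      · rw [lw_eq, off_zero z1, add_zero] at hl
        rw [hl, hdg]
    · exact absurd rfl h1
  have hsupp : (B.Th k P').support = {s} := by
    ext s'
    rw [Finset.mem_singleton]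
    refine ⟨honly s', ?_⟩
    rintro rfl
    exact MvPolynomial.mem_support_iff.2 hc0
  have hf'eq := rep_sum C hP'
  rw [hsupp, Finset.sum_singleton, hdg] at hf'eq
  have hoff : C.off s = 1 := by
    unfold GC.off
    refine Finset.prod_eq_one fun i _ => ?_
    split_ifs with hi
    · rfl
    · rw [hsD i hi, pow_zero]
  rw [hoff, one_mul, ← Algebra.smul_def] at hf'eq
  refine ⟨κ₀ - fun _ => (n : ℤ), ?_, ?_, ?_⟩
  · intro p q hpq hb
    have := hdom p q hpq hb
    simp only [Pi.sub_apply]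
    linarith
  · have h1 : C.dm (κ₀ - fun _ => (n : ℤ)) = ((B.Th k P').coeff s)⁻¹ • f' := by
      rw [hf'eq, smul_smul, inv_mul_cancel₀ hc0, one_smul]
    rw [h1]
    exact M.smul_mem _ hf'
  · intro κ hκ
    have h1 : (κ - fun _ => (n : ℤ)) - (κ₀ - fun _ => (n : ℤ)) = κ - κ₀ := by abel
    rw [h1]
    exact hκO κ hκ

namespace Eigt

/-- the preorder given by an adapted valuation ring -/
def ordAdm {C : GC k K B} {O : ValuationSubring K} (ha : Adm C O) : Ord B where
  P :=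
    { carrier := {μ | C.dm μ ∈ O}
      add_mem' := fun {a b} ha hb => by
        show C.dm (a + b) ∈ O
        rw [dm_add]
        exact O.mul_mem _ _ ha hb
      zero_mem' := by
        show C.dm 0 ∈ O
        rw [dm_zero]
        exact O.one_mem }
  total := fun μ => by
    show C.dm μ ∈ O ∨ C.dm (-μ) ∈ O
    rw [dm_neg]
    exact O.mem_or_inv_mem _
  cham := fun p q h hb => by
    show C.dm (Pi.single q (1 : ℤ) - Pi.single p (1 : ℤ)) ∈ O
    rw [sub_eq_add_neg, dm_add, dm_neg, dm_single, dm_single, ← div_eq_mul_inv]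
    exact ha.inc p q h hb

theorem T_mem {C : GC k K B} {O : ValuationSubring K} (ha : Adm C O) (i : Fin (m + 1))
    (hi : B.rw i ≠ B.cl i) : C.T i ∈ O := by
  have h1 : B.mat C.T (B.rw i) (B.cl i) = C.T i := by
    unfold Blk.mat
    rw [dif_pos (B.rw_cl i), B.ix_rw_cl]
  rcases lt_or_gt_of_ne hi with h | h
  · have h2 : C.U (B.rw i) (B.cl i) = C.T i := by
      rw [← h1]
      exact (if_neg hi).trans (if_pos h)
    rw [← h2]
    exact ha.upp _ _
  · have h2 : C.L (B.rw i) (B.cl i) = C.T i := by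
      rw [← h1]
      exact (if_neg hi).trans (if_pos h)
    rw [← h2]
    exact ha.low _ _

end Eigt

open Eigt in
/-- the case of an adapted valuation ring -/
theorem eigt_adm [Infinite k] {C : GC k K B} {O : ValuationSubring K} (ha : Adm C O)
    (M : Submodule k K) (hM : ∀ σ, C.Tra σ → ∀ f ∈ M, σ f ∈ M) {f : K} (hf : f ∈ M) (hf0 : f ≠ 0)
    (hr : C.Reg f) : ∃ μ, B.Dom μ ∧ C.dm μ ∈ M ∧ f / C.dm μ ∈ O := by
  obtain ⟨n, P, hP⟩ := hr
  obtain ⟨μ, h1, h2, h3⟩ := eigt C M hM hf hf0 hP (ordAdm ha)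
  refine ⟨μ, h1, h2, ?_⟩
  rw [rep_sum C hP, Finset.sum_div]
  refine sum_mem fun s hs => ?_
  have h4 : C.dm ((B.dg s - fun _ => (n : ℤ)) - μ) ∈ O := h3 _ (ee_supp hs)
  have h5 : algebraMap k K ((B.Th k P).coeff s) * (C.off s * C.dm (B.dg s - fun _ => (n : ℤ))) /
      C.dm μ = algebraMap k K ((B.Th k P).coeff s) * (C.off s *
        C.dm ((B.dg s - fun _ => (n : ℤ)) - μ)) := by
    rw [sub_eq_add_neg (B.dg s - fun _ => (n : ℤ)) μ, dm_add, dm_neg]
    ring
  rw [h5]
  refine O.mul_mem _ _ (ha.const _) (O.mul_mem _ _ ?_ h4)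
  unfold GC.off
  refine prod_mem fun i _ => ?_
  split_ifs with hi
  · exact O.one_mem
  · exact pow_mem (T_mem ha i hi) _

end

end Pool.Agent.MLD.Mon
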