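import Pool.Agent.Lib.MP_f23696_ag.M.Lin
import Pool.Agent.Lib.MP_f23696_ag.M.Tra

/-!
Frames adapted to a valuation ring: full pivoting (module FRM of the project MON, MP_f23696_ag).
-/

set_option autoImplicit false

open scoped Classical

namespace Pool.Agent.MLD.Mon

open MvPolynomial
open Pool.Agent.MLD.Ten (IsGood)

noncomputable section

universe u v w

namespace Frm

/-- pivoting for block diagonal matrices over a valuation ring -/
theorem pivot {K : Type v} [Field K] (O : ValuationSubring K) : ∀ (N : ℕ) (b : Fin N → ℕ)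
    (M : Matrix (Fin N) (Fin N) K), (∀ p q, b p ≠ b q → M p q = 0) → M.det ≠ 0 →
    ∃ w w' : Equiv.Perm (Fin N), (∀ p, b (w p) = b p) ∧ (∀ p, b (w' p) = b p) ∧
      ∃ (L : Matrix (Fin N) (Fin N) K) (D : Fin N → K) (U : Matrix (Fin N) (Fin N) K),
        (∀ p q, M (w p) (w' q) = ∑ r, L p r * D r * U r q) ∧
        (∀ p, L p p = 1) ∧ (∀ p q, p < q → L p q = 0) ∧ (∀ p q, b p ≠ b q → L p q = 0) ∧
        (∀ p q, L p q ∈ O) ∧
        (∀ p, U p p = 1) ∧ (∀ p q, q < p → U p q = 0) ∧ (∀ p q, b p ≠ b q → U p q = 0) ∧
        (∀ p q, U p q ∈ O) ∧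
        (∀ p, D p ≠ 0) ∧ (∀ p q, p ≤ q → b p = b q → D q / D p ∈ O) ∧
        (∀ (β : ℕ) (c : K), (∀ p q, b p = β → b q = β → M p q / c ∈ O) →
          ∀ q, b q = β → D q / c ∈ O)
  | 0, b, M, _, _ => by
    refine ⟨1, 1, fun p => rfl, fun p => rfl, 0, fun _ => 1, 0, ?_, ?_, ?_, ?_, ?_, ?_, ?_, ?_, ?_,
      ?_, ?_, ?_⟩
    all_goals first | exact fun p => p.elim0 | exact fun _ _ _ q => q.elim0
  | N + 1, b, M, hM, hdet => by
    -- the pivot
    obtain ⟨q₁, hq₁⟩ : ∃ q, M 0 q ≠ 0 := by
      by_contra hcon
      push Not at hcon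
      exact hdet (Matrix.det_eq_zero_of_row_eq_zero 0 hcon)
    have hbq₁ : b q₁ = b 0 := by
      by_contra hcon
      exact hq₁ (hM 0 q₁ (Ne.symm hcon))
    obtain ⟨⟨p₀, q₀⟩, hmem, hmax⟩ := Finset.exists_max_image
      (Finset.univ.filter fun s : Fin (N + 1) × Fin (N + 1) => b s.1 = b 0 ∧ b s.2 = b 0)
      (fun s => O.valuation (M s.1 s.2)) ⟨(0, q₁), by simp [hbq₁]⟩
    rw [Finset.mem_filter] at hmem
    obtain ⟨-, hp₀, hq₀⟩ := hmem
    dsimp only at hp₀ hq₀ hmax
    have hmax' : ∀ p q, b p = b 0 → b q = b 0 → O.valuation (M p q) ≤ O.valuation (M p₀ q₀) :=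
      fun p q hp hq => hmax (p, q) (by simp [hp, hq])
    set m := M p₀ q₀ with hm
    have hm0 : m ≠ 0 := by
      intro h0
      have h1 := hmax' 0 q₁ rfl hbq₁
      rw [h0, map_zero, le_zero_iff, map_eq_zero] at h1
      exact hq₁ h1
    have hdiv : ∀ p q, b p = b 0 → b q = b 0 → M p q / m ∈ O := by
      intro p q hp hq
      rw [← O.valuation_le_one_iff, map_div₀]
      exact div_le_one_of_le₀ (hmax' p q hp hq) zero_le
    -- the permuted matrix
    set s := Equiv.swap (0 : Fin (N + 1)) p₀ with hs
    set s' := Equiv.swap (0 : Fin (N + 1)) q₀ with hs'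
    have hsb : ∀ p, b (s p) = b p := by
      intro p
      rw [hs, Equiv.swap_apply_def]
      split_ifs with h1 h2
      · rw [h1, hp₀]
      · rw [h2, hp₀]
      · rfl
    have hsb' : ∀ p, b (s' p) = b p := by
      intro p
      rw [hs', Equiv.swap_apply_def]
      split_ifs with h1 h2
      · rw [h1, hq₀]
      · rw [h2, hq₀]
      · rfl
    set M₁ : Matrix (Fin (N + 1)) (Fin (N + 1)) K := fun p q => M (s p) (s' q) with hM₁
    have hM₁0 : ∀ p q, b p ≠ b q → M₁ p q = 0 := fun p q h => hM _ _ (by rwa [hsb, hsb'])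
    have hM₁m : M₁ 0 0 = m := by
      rw [hM₁, hm]
      simp [hs, hs']
    have hM₁div : ∀ p q, b p = b 0 → b q = b 0 → M₁ p q / m ∈ O := fun p q hp hq =>
      hdiv _ _ (by rw [hsb, hp]) (by rw [hsb', hq])
    have hM₁det : M₁.det ≠ 0 := by
      have h1 : M₁ = (M.submatrix s id).submatrix id s' := rfl
      rw [h1, Matrix.det_permute', Matrix.det_permute]
      refine mul_ne_zero ?_ (mul_ne_zero ?_ hdet)
      · rcases Int.units_eq_one_or (Equiv.Perm.sign s') with h | h <;> simp [h]
      · rcases Int.units_eq_one_or (Equiv.Perm.sign s) with h | h <;> simp [h]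
    -- Schur complement
    set S : Matrix (Fin N) (Fin N) K := fun i j => M₁ i.succ j.succ - M₁ i.succ 0 * M₁ 0 j.succ / m
      with hS
    have hS0 : ∀ i j, b (Fin.succ i) ≠ b (Fin.succ j) → S i j = 0 := by
      intro i j hij
      rw [hS]
      dsimp only
      rw [hM₁0 _ _ hij, zero_sub, neg_eq_zero]
      by_cases h : b i.succ = b 0
      · rw [hM₁0 0 j.succ (by rw [← h]; exact hij), mul_zero, zero_div]
      · rw [hM₁0 i.succ 0 h, zero_mul, zero_div]
    have hSdet : S.det ≠ 0 := by
      intro h
      obtain ⟨x, hx0, hx⟩ := Matrix.exists_mulVec_eq_zero_iff.mpr h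
      apply hM₁det
      rw [← Matrix.exists_mulVec_eq_zero_iff]
      refine ⟨Fin.cons (-(∑ j, M₁ 0 j.succ * x j) / m) x, ?_, ?_⟩
      · intro h0
        apply hx0
        funext j
        have := congrFun h0 j.succ
        simpa using this
      · funext p
        rw [Matrix.mulVec, dotProduct, Fin.sum_univ_succ, Pi.zero_apply]
        simp only [Fin.cons_zero, Fin.cons_succ]
        refine Fin.cases ?_ (fun i => ?_) p
        · rw [hM₁m]
          field_simp
          ring
        · have h1 := congrFun hx i
          rw [Matrix.mulVec, dotProduct, Pi.zero_apply, hS] at h1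
          dsimp only at h1
          have h2 : ∑ j, (M₁ i.succ j.succ - M₁ i.succ 0 * M₁ 0 j.succ / m) * x j =
              ∑ j, M₁ i.succ j.succ * x j - M₁ i.succ 0 / m * ∑ j, M₁ 0 j.succ * x j := by
            rw [Finset.mul_sum, ← Finset.sum_sub_distrib]
            refine Finset.sum_congr rfl fun j _ => ?_
            ring
          rw [h2, sub_eq_zero] at h1
          rw [h1]
          ring
    obtain ⟨w₁, w₁', hw₁, hw₁', L₁, D₁, U₁, hLDU, hL1, hLt, hLb, hLO, hU1, hUt, hUb, hUO, hD0, hDD,
      hDβ⟩ := pivot O N (fun i => b i.succ) S hS0 hSdet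
    set wt := Equiv.Perm.decomposeFin.symm (p₀, w₁) with hwt
    set wt' := Equiv.Perm.decomposeFin.symm (q₀, w₁') with hwt'
    have hwt0 : wt 0 = s 0 := by rw [hwt, Equiv.Perm.decomposeFin_symm_apply_zero, hs]; simp
    have hwts : ∀ i : Fin N, wt i.succ = s (w₁ i).succ := fun i => by
      rw [hwt, Equiv.Perm.decomposeFin_symm_apply_succ, hs]
    have hwt0' : wt' 0 = s' 0 := by rw [hwt', Equiv.Perm.decomposeFin_symm_apply_zero, hs']; simp
    have hwts' : ∀ i : Fin N, wt' i.succ = s' (w₁' i).succ := fun i => by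
      rw [hwt', Equiv.Perm.decomposeFin_symm_apply_succ, hs']
    have hw0 : ∀ i : Fin N, b (w₁ i).succ = b i.succ := hw₁
    have hw0' : ∀ i : Fin N, b (w₁' i).succ = b i.succ := hw₁'
    refine ⟨wt, wt', ?_, ?_,
      fun p q => Fin.cases (Fin.cases 1 (fun _ => 0) q)
        (fun i => Fin.cases (M₁ (w₁ i).succ 0 / m) (fun j => L₁ i j) q) p,
      Fin.cons m D₁,
      fun p q => Fin.cases (Fin.cases 1 (fun j => M₁ 0 (w₁' j).succ / m) q)
        (fun i => Fin.cases 0 (fun j => U₁ i j) q) p, ?_, ?_, ?_, ?_, ?_, ?_, ?_, ?_, ?_, ?_, ?_, ?_⟩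
    · refine Fin.cases ?_ fun i => ?_
      · rw [hwt0, hsb]
      · rw [hwts, hsb]
        exact hw₁ i
    · refine Fin.cases ?_ fun i => ?_
      · rw [hwt0', hsb']
      · rw [hwts', hsb']
        exact hw₁' i
    · -- the product
      intro p q
      rw [Fin.sum_univ_succ]
      refine Fin.cases ?_ (fun i => ?_) p
      · refine Fin.cases ?_ (fun j => ?_) q
        · rw [hwt0, hwt0']
          simp only [Fin.cases_zero, Fin.cases_succ, Fin.cons_zero, Fin.cons_succ, zero_mul,
            Finset.sum_const_zero, add_zero, one_mul, mul_one]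
          exact hM₁m
        · rw [hwt0, hwts']
          simp only [Fin.cases_zero, Fin.cases_succ, Fin.cons_zero, Fin.cons_succ, zero_mul,
            Finset.sum_const_zero, add_zero, one_mul]
          rw [mul_div_cancel₀ _ hm0]
      · refine Fin.cases ?_ (fun j => ?_) q
        · rw [hwts, hwt0']
          simp only [Fin.cases_zero, Fin.cases_succ, Fin.cons_zero, Fin.cons_succ, mul_zero,
            Finset.sum_const_zero, add_zero, mul_one]
          rw [div_mul_cancel₀ _ hm0]
        · rw [hwts, hwts']
          simp only [Fin.cases_zero, Fin.cases_succ, Fin.cons_zero, Fin.cons_succ]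
          rw [← hLDU i j, hS]
          dsimp only
          rw [div_mul_cancel₀ _ hm0]
          have : M (s (w₁ i).succ) (s' (w₁' j).succ) = M₁ (w₁ i).succ (w₁' j).succ := rfl
          rw [this]
          ring
    · refine Fin.cases ?_ fun i => ?_
      · simp only [Fin.cases_zero]
      · simp only [Fin.cases_succ]
        exact hL1 i
    · intro p q
      refine Fin.cases ?_ (fun i => ?_) p
      · refine Fin.cases ?_ (fun j => ?_) q
        · intro h
          exact absurd h (lt_irrefl _)
        · intro _
          simp only [Fin.cases_zero, Fin.cases_succ]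
      · refine Fin.cases ?_ (fun j => ?_) q
        · intro h
          exact absurd h (Fin.not_lt_zero _)
        · intro h
          simp only [Fin.cases_succ]
          exact hLt i j (Fin.succ_lt_succ_iff.mp h)
    · intro p q
      refine Fin.cases ?_ (fun i => ?_) p
      · refine Fin.cases ?_ (fun j => ?_) q
        · intro h
          exact absurd rfl h
        · intro _
          simp only [Fin.cases_zero, Fin.cases_succ]
      · refine Fin.cases ?_ (fun j => ?_) q
        · intro h
          simp only [Fin.cases_zero, Fin.cases_succ]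
          rw [hM₁0 _ _ (by rw [hw0]; exact h), zero_div]
        · intro h
          simp only [Fin.cases_succ]
          exact hLb i j h
    · intro p q
      refine Fin.cases ?_ (fun i => ?_) p
      · refine Fin.cases ?_ (fun j => ?_) q
        · simp only [Fin.cases_zero]
          exact O.one_mem
        · simp only [Fin.cases_zero, Fin.cases_succ]
          exact O.zero_mem
      · refine Fin.cases ?_ (fun j => ?_) q
        · simp only [Fin.cases_zero, Fin.cases_succ]
          by_cases h : b (w₁ i).succ = b 0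
          · exact hM₁div _ _ h rfl
          · rw [hM₁0 _ _ h, zero_div]
            exact O.zero_mem
        · simp only [Fin.cases_succ]
          exact hLO i j
    · refine Fin.cases ?_ fun i => ?_
      · simp only [Fin.cases_zero]
      · simp only [Fin.cases_succ]
        exact hU1 i
    · intro p q
      refine Fin.cases ?_ (fun i => ?_) p
      · intro h
        exact absurd h (Fin.not_lt_zero _)
      · refine Fin.cases ?_ (fun j => ?_) q
        · intro _
          simp only [Fin.cases_zero, Fin.cases_succ]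
        · intro h
          simp only [Fin.cases_succ]
          exact hUt i j (Fin.succ_lt_succ_iff.mp h)
    · intro p q
      refine Fin.cases ?_ (fun i => ?_) p
      · refine Fin.cases ?_ (fun j => ?_) q
        · intro h
          exact absurd rfl h
        · intro h
          simp only [Fin.cases_zero, Fin.cases_succ]
          rw [hM₁0 _ _ (by rw [hw0']; exact h), zero_div]
      · refine Fin.cases ?_ (fun j => ?_) q
        · intro _
          simp only [Fin.cases_zero, Fin.cases_succ]
        · intro h
          simp only [Fin.cases_succ]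
          exact hUb i j h
    · intro p q
      refine Fin.cases ?_ (fun i => ?_) p
      · refine Fin.cases ?_ (fun j => ?_) q
        · simp only [Fin.cases_zero]
          exact O.one_mem
        · simp only [Fin.cases_zero, Fin.cases_succ]
          by_cases h : b (w₁' j).succ = b 0
          · exact hM₁div _ _ rfl h
          · rw [hM₁0 _ _ (Ne.symm h), zero_div]
            exact O.zero_mem
      · refine Fin.cases ?_ (fun j => ?_) q
        · simp only [Fin.cases_zero, Fin.cases_succ]
          exact O.zero_mem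
        · simp only [Fin.cases_succ]
          exact hUO i j
    · refine Fin.cases ?_ fun i => ?_
      · rw [Fin.cons_zero]
        exact hm0
      · rw [Fin.cons_succ]
        exact hD0 i
    · intro p q
      refine Fin.cases ?_ (fun i => ?_) p
      · refine Fin.cases ?_ (fun j => ?_) q
        · intro _ _
          rw [Fin.cons_zero, div_self hm0]
          exact O.one_mem
        · intro _ hb
          rw [Fin.cons_zero, Fin.cons_succ]
          refine hDβ (b 0) m (fun i j hi hj => ?_) j hb.symm
          rw [hS]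
          dsimp only
          rw [sub_div, mul_div_assoc]
          refine sub_mem (hM₁div _ _ hi hj) ?_
          rw [mul_div_assoc]
          have h1 := hM₁div _ 0 hi rfl
          have h2 := hM₁div 0 _ rfl hj
          have h3 : M₁ i.succ 0 * (M₁ 0 j.succ / m / m) =
              M₁ i.succ 0 / m * (M₁ 0 j.succ / m) := by ring
          rw [h3]
          exact O.mul_mem _ _ h1 h2
      · refine Fin.cases ?_ (fun j => ?_) q
        · intro h _
          exact absurd (le_antisymm h (Fin.zero_le _)) (Fin.succ_ne_zero _)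
        · intro h hb
          rw [Fin.cons_succ, Fin.cons_succ]
          exact hDD i j (Fin.succ_le_succ_iff.mp h) hb
    · intro β c hc
      have hc₁ : ∀ p q, b p = β → b q = β → M₁ p q / c ∈ O := fun p q hp hq =>
        hc _ _ (by rw [hsb, hp]) (by rw [hsb', hq])
      refine Fin.cases ?_ fun j => ?_
      · intro h0
        rw [Fin.cons_zero]
        exact hc _ _ (by rw [hp₀, h0]) (by rw [hq₀, h0])
      · intro hj
        rw [Fin.cons_succ]
        refine hDβ β c (fun i j hi hj => ?_) j hj
        rw [hS]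
        dsimp only
        have h3 : (M₁ i.succ j.succ - M₁ i.succ 0 * M₁ 0 j.succ / m) / c =
            M₁ i.succ j.succ / c - M₁ i.succ 0 / m * (M₁ 0 j.succ / c) := by ring
        rw [h3]
        refine sub_mem (hc₁ _ _ hi hj) ?_
        by_cases h : b 0 = β
        · exact O.mul_mem _ _ (hM₁div _ _ (by rw [hi, h]) rfl) (hc₁ _ _ h hj)
        · rw [hM₁0 0 j.succ (by rw [hj]; exact h), zero_div, mul_zero]
          exact O.zero_mem

end Frm

variable {N m : ℕ} {B : Blk N m} {k : Type u} {K : Type v} [Field k] [Field K] [Algebra k K]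

variable (C : GC k K B)

theorem frame (O : ValuationSubring K) (hO : ∀ c : k, algebraMap k K c ∈ O) :
    ∃ σ, C.Tra σ ∧ Adm (C.map σ) O := by
  have hbl : ∀ p q, B.b p ≠ B.b q → C.g p q = 0 := isBl_mat B C.y
  obtain ⟨w, w', hw, hw', L, D, U, hLDU, hL1, hLt, hLb, hLO, hU1, hUt, hUb, hUO, hD0, hDD, -⟩ :=
    Frm.pivot O N B.b C.g hbl (det_g_ne C)
  have hw'i : ∀ p, B.b (w'⁻¹ p) = B.b p := fun p => by
    have := hw' (w'.symm p)
    rw [Equiv.apply_symm_apply] at this
    exact this.symm
  obtain ⟨σ, hσ⟩ := exists_tr C (isG_perm w hw) (isG_perm w'⁻¹ hw'i)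
  refine ⟨σ, ⟨_, _, hσ⟩, ?_⟩
  -- the coordinates of the new frame
  set T' : Fin (m + 1) → K := fun i => if B.rw i = B.cl i then D (B.rw i) else
    if B.cl i < B.rw i then L (B.rw i) (B.cl i) else U (B.rw i) (B.cl i) with hT'
  have hmat : ∀ p q, B.mat T' p q = if B.b p = B.b q then
      (if p = q then D p else if q < p then L p q else U p q) else 0 := by
    intro p q
    rw [Blk.mat]
    split_ifs with h1 h2 h3
    · rw [hT']
      simp only [Blk.rw_ix, Blk.cl_ix]
      rw [if_pos h2]
    · rw [hT']
      simp only [Blk.rw_ix, Blk.cl_ix]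
      rw [if_neg h2, if_pos h3]
    · rw [hT']
      simp only [Blk.rw_ix, Blk.cl_ix]
      rw [if_neg h2, if_neg h3]
    · rfl
  have hlow : B.low T' = L := by
    funext p q
    rw [Blk.low]
    split_ifs with h1 h2
    · rw [h1, hL1]
    · rw [hmat]
      split_ifs with h3
      · rfl
      · exact (hLb p q h3).symm
    · exact (hLt p q (lt_of_le_of_ne (not_lt.mp h2) h1)).symm
  have hupp : B.upp T' = U := by
    funext p q
    rw [Blk.upp]
    split_ifs with h1 h2
    · rw [h1, hU1]
    · rw [hmat]
      split_ifs with h3 h4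
      · exact absurd h4 (not_lt.mpr h2.le)
      · rfl
      · exact (hUb p q h3).symm
    · exact (hUt p q (lt_of_le_of_ne (not_lt.mp h2) (Ne.symm h1))).symm
  have hdia : B.dia T' = D := by
    funext p
    rw [Blk.dia, hT', Blk.dx]
    simp only [Blk.rw_ix, Blk.cl_ix, if_true]
  have hg : ∀ p q, B.mat (C.map σ).y p q = C.g (w p) (w' q) := by
    intro p q
    have h1 : B.mat (C.map σ).y = (w.permMatrix k).map (algebraMap k K) * C.g *
        ((w'⁻¹).permMatrix k).map (algebraMap k K) := hσ.2.2
    have h2 : ∀ τ : Equiv.Perm (Fin N), (τ.permMatrix k).map (algebraMap k K) =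
        τ.permMatrix K := by
      intro τ
      ext i j
      rw [Matrix.map_apply]
      simp only [Equiv.Perm.permMatrix, PEquiv.toMatrix_apply]
      split_ifs
      · rw [map_one]
      · rw [map_zero]
    rw [h1, h2, h2]
    rw [Equiv.Perm.permMatrix, Equiv.Perm.permMatrix, PEquiv.toMatrix_toPEquiv_mul,
      PEquiv.mul_toMatrix_toPEquiv]
    rfl
  have hTT : (C.map σ).T = T' := by
    symm
    apply ldu_inj
    · rw [(C.map σ).hT, Blk.ldu, hlow, hupp, hdia]
      ext p q
      rw [hg, hLDU, Matrix.mul_apply]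
      refine Finset.sum_congr rfl fun r _ => ?_
      rw [Matrix.mul_diagonal]
    · intro p
      rw [hdia]
      exact hD0 p
  refine ⟨hO, fun p q => ?_, fun p q => ?_, fun p q hpq hb => ?_⟩
  · rw [GC.L, hTT, hlow]
    exact hLO p q
  · rw [GC.U, hTT, hupp]
    exact hUO p q
  · rw [GC.d, GC.d, hTT, hdia]
    exact hDD p q hpq hb

theorem frame_dval (v : DVal k K) : ∃ l, Lam C v l := by
  obtain ⟨σ, hσ, ha⟩ := frame C (vs v) (fun c => by
    rw [mem_vs]
    exact Pool.Agent.MLD.Ten.LB_algebraMap v c)
  refine ⟨fun p => v.ord ((C.map σ).d p), σ, hσ, fun p q => ha.low p q, fun p q => ha.upp p q,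
    fun p => rfl, fun p q hpq hb => ?_⟩
  have h1 : v.Integral ((C.map σ).d q / (C.map σ).d p) := ha.inc p q hpq hb
  have h2 := h1 (div_ne_zero (d_ne _ q) (d_ne _ p))
  rw [Pool.Agent.MLD.Ten.ord_div v _ _ (d_ne _ q) (d_ne _ p)] at h2
  linarith

end

end Pool.Agent.MLD.Mon
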