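import Pool.Agent.Lib.MP_f23696_ag.M.Defs
import Pool.Agent.Lib.MP_f23696_ag.M.Lin
import Pool.Agent.Lib.MP_f23696_ag.M.Tra
import Pool.Agent.Lib.MP_f23696_ag.M.Vdm
import Pool.Agent.Lib.MP_f23696_ag.M.Reg
import Pool.Agent.Lib.MP_f23696_ag.T.Ind
import Pool.Agent.Lib.MP_f23696_ag.Hart
import Pool.Agent.Lib.MP_f23696_ag.Dvr

/-!
Project MON (MP_f23696_ag), module INV: invariant prime divisors.
-/

set_option autoImplicit false

open scoped Classical

namespace Pool.Agent.MLD.Mon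

open MvPolynomial
open Pool.Agent.MLD.Ten (IsGood)

noncomputable section

universe u v w

variable {N m : ℕ} {B : Blk N m} {k : Type u} {K : Type v} [Field k] [Field K] [Algebra k K]

section INV

variable [IsAlgClosed k] {C : GC k K B} {A : Subalgebra k K}

namespace Inv

/-- a translation as an automorphism of `A` -/
def aut (hA : IsEmb C A) {σ : K ≃ₐ[k] K} (hσ : C.Tra σ) : A ≃+* A where
  toFun a := ⟨σ a, hA.stab σ hσ a a.2⟩
  invFun a := ⟨σ.symm a, hA.stab σ.symm (tra_symm C hσ) a a.2⟩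
  left_inv _ := Subtype.ext (σ.symm_apply_apply _)
  right_inv _ := Subtype.ext (σ.apply_symm_apply _)
  map_mul' _ _ := Subtype.ext (map_mul σ _ _)
  map_add' _ _ := Subtype.ext (map_add σ _ _)

theorem aut_coe (hA : IsEmb C A) {σ : K ≃ₐ[k] K} (hσ : C.Tra σ) (a : A) :
    ((aut hA hσ a : A) : K) = σ a := rfl

theorem mapsTo_iff (hA : IsEmb C A) {σ : K ≃ₐ[k] K} (hσ : C.Tra σ) (p q : Ideal A) :
    MapsTo σ p q ↔ q = p.comap (aut hA hσ).symm := by
  constructor
  · intro h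
    ext c
    rw [Ideal.mem_comap]
    refine (h _ c ?_).symm
    have h1 : aut hA hσ ((aut hA hσ).symm c) = c := (aut hA hσ).apply_symm_apply c
    have h2 := congrArg (fun a : A => (a : K)) h1
    exact h2.symm
  · rintro rfl a c hc
    rw [Ideal.mem_comap]
    have h1 : c = aut hA hσ a := Subtype.ext hc
    rw [h1]
    have h2 : (aut hA hσ).symm (aut hA hσ a) = a := (aut hA hσ).symm_apply_apply a
    show a ∈ p ↔ (aut hA hσ).symm (aut hA hσ a) ∈ p
    rw [h2]

theorem comap_ne_bot (τ : A ≃+* A) {p : Ideal A} (h : p ≠ ⊥) : p.comap τ ≠ ⊥ := by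
  intro h0
  apply h
  rw [eq_bot_iff]
  intro a ha
  have h1 : τ.symm a ∈ p.comap τ := by
    rw [Ideal.mem_comap]
    have h2 : τ (τ.symm a) = a := τ.apply_symm_apply a
    show τ (τ.symm a) ∈ p
    rwa [h2]
  rw [h0, Ideal.mem_bot] at h1
  have h3 : a = 0 := by
    have := congrArg τ h1
    rw [τ.apply_symm_apply, map_zero] at this
    exact this
  rw [h3]
  exact Ideal.zero_mem _

theorem comap_comap (τ : A ≃+* A) (p : Ideal A) : (p.comap τ.symm).comap τ = p := by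
  ext a
  rw [Ideal.mem_comap, Ideal.mem_comap]
  show τ.symm (τ a) ∈ p ↔ a ∈ p
  rw [τ.symm_apply_apply]

theorem comap_heightOne (τ : A ≃+* A) {p : Ideal A} (h : IsHeightOne p) :
    IsHeightOne (p.comap τ.symm) := by
  obtain ⟨h1, h2, h3⟩ := h
  refine ⟨Ideal.IsPrime.comap _, comap_ne_bot τ.symm h2, ?_⟩
  intro q hq hq0 hle
  have h4 : q.comap τ = p := by
    refine h3 _ (Ideal.IsPrime.comap _) (comap_ne_bot τ hq0) ?_
    intro a ha
    rw [Ideal.mem_comap] at ha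
    have h5 := hle ha
    rw [Ideal.mem_comap] at h5
    have h6 : τ.symm (τ a) = a := τ.symm_apply_apply a
    have h7 : τ.symm (τ a) ∈ p := h5
    rwa [h6] at h7
  rw [← h4]
  have := comap_comap τ.symm q
  rw [RingEquiv.symm_symm] at this
  exact this.symm

end Inv

open Pool.Agent.MLD.Mon.Inv

theorem exists_mapsTo (hA : IsEmb C A) {σ : K ≃ₐ[k] K} (hσ : C.Tra σ) (p : Ideal A) :
    ∃ q, MapsTo σ p q ∧ (p.IsPrime → q.IsPrime) ∧ (IsHeightOne p → IsHeightOne q) :=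
  ⟨p.comap (aut hA hσ).symm, (mapsTo_iff hA hσ _ _).2 rfl, fun _ => Ideal.IsPrime.comap _,
    fun h => comap_heightOne _ h⟩

namespace Inv

theorem mapsTo_unique (hA : IsEmb C A) {σ : K ≃ₐ[k] K} (hσ : C.Tra σ) {p q q' : Ideal A}
    (h : MapsTo σ p q) (h' : MapsTo σ p q') : q = q' := by
  rw [(mapsTo_iff hA hσ _ _).1 h, (mapsTo_iff hA hσ _ _).1 h']

/-- the linear subspace of `K` given by an ideal of `A` -/
def sub (p : Ideal A) : Submodule k K where
  carrier := {f | ∃ a ∈ p, (a : K) = f}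
  add_mem' := by
    rintro _ _ ⟨a, ha, rfl⟩ ⟨b, hb, rfl⟩
    exact ⟨a + b, p.add_mem ha hb, rfl⟩
  zero_mem' := ⟨0, p.zero_mem, rfl⟩
  smul_mem' := by
    rintro c _ ⟨a, ha, rfl⟩
    exact ⟨c • a, Submodule.smul_of_tower_mem p c ha, rfl⟩

theorem mem_sub {p : Ideal A} {a : A} : (a : K) ∈ sub p ↔ a ∈ p := by
  constructor
  · rintro ⟨b, hb, h⟩
    rwa [← Subtype.ext h]
  · intro h
    exact ⟨a, h, rfl⟩

theorem exists_form {p : Ideal A} {a : A} (h : a ∉ p) :
    ∃ ℓ : K →ₗ[k] k, (∀ b ∈ p, ℓ (b : K) = 0) ∧ ℓ (a : K) ≠ 0 := by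
  have h' : (a : K) ∉ sub p := fun h1 => h (mem_sub.1 h1)
  obtain ⟨ℓ, h1, h2⟩ := Submodule.exists_le_ker_of_notMem h'
  exact ⟨ℓ, fun b hb => h2 (mem_sub.2 hb), h1⟩

end Inv

/-- a prime with finite orbit is invariant -/
theorem conn (hA : IsEmb C A) {q : Ideal A} (hq : IsHeightOne q) (F : Finset (Ideal A))
    (h : ∀ σ, C.Tra σ → ∃ q' ∈ F, MapsTo σ q q') : InvI C q := by
  by_contra hcon
  unfold InvI at hcon
  push Not at hcon
  obtain ⟨σ0, hσ0, hn⟩ := hcon
  -- for each height one q' some translate of an element of q is not in q'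
  have key : ∀ q' : Ideal A, IsHeightOne q' → ∃ σ, C.Tra σ ∧ ∃ f ∈ q, ∃ c : A,
      (c : K) = σ f ∧ c ∉ q' := by
    intro q' hq'
    by_contra hc
    push Not at hc
    by_cases hqq : q' = q
    · subst hqq
      obtain ⟨q1, h1, h2, h3⟩ := exists_mapsTo hA hσ0 q'
      have hle : q1 ≤ q' := by
        intro c hcq
        have h4 : (c : K) = σ0 (((aut hA hσ0).symm c : A) : K) := by
          have h5 : aut hA hσ0 ((aut hA hσ0).symm c) = c := (aut hA hσ0).apply_symm_apply c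
          exact (congrArg (fun a : A => (a : K)) h5).symm
        exact hc σ0 hσ0 _ ((h1 _ c h4).2 hcq) c h4
      have h6 := hq.2.2 q1 (h2 hq.1) (h3 hq).2.1 hle
      rw [h6] at h1
      exact hn h1
    · have hle : q ≤ q' := by
        intro a ha
        exact hc AlgEquiv.refl (tra_refl C) a ha a rfl
      exact hqq (hq'.2.2 q hq.1 hq.2.1 hle).symm
  -- the relevant members of F
  obtain ⟨F', hF'⟩ : ∃ F' : Finset (Ideal A), ∀ q', q' ∈ F' ↔ q' ∈ F ∧ IsHeightOne q' :=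
    ⟨F.filter fun q' => IsHeightOne q', fun q' => Finset.mem_filter⟩
  have e := F'.equivFin
  have hho : ∀ i : Fin F'.card, IsHeightOne ((e.symm i : F') : Ideal A) := fun i =>
    ((hF' _).1 (e.symm i).2).2
  choose σ hσ f hf c hc hcn using fun i : Fin F'.card => key _ (hho i)
  choose ℓ hℓ0 hℓ1 using fun i : Fin F'.card => exists_form (hcn i)
  choose n P hP using fun i : Fin F'.card => vdm_tr C (emb_reg hA _ (f i).2) (ℓ i)
  have hfin : ∀ i ∈ (Finset.univ : Finset (Fin F'.card)), ∃ a c : Matrix (Fin N) (Fin N) k,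
      B.IsG a ∧ B.IsG c ∧ eval (Sum.elim (fun s => a s.1 s.2) fun s => c s.1 s.2) (P i) ≠ 0 := by
    intro i _
    obtain ⟨a, b, hab⟩ := hσ i
    refine ⟨a, b, hab.1, hab.2.1, ?_⟩
    rw [← hP i a b (σ i) hab, ← hc i]
    exact mul_ne_zero (hℓ1 i) (pow_ne_zero _ (mul_ne_zero hab.1.2 hab.2.1.2))
  obtain ⟨a, b, ha, hb, hab⟩ := vdm_common _ P hfin
  obtain ⟨τ, hτ⟩ := exists_tr C ha hb
  have hτT : C.Tra τ := ⟨a, b, hτ⟩
  obtain ⟨q', hq'F, hq'⟩ := h τ hτT
  obtain ⟨q1, h1, _, h3⟩ := exists_mapsTo hA hτT q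
  have hq1 : q1 = q' := mapsTo_unique hA hτT h1 hq'
  have hq'h : IsHeightOne q' := hq1 ▸ h3 hq
  have hmem : q' ∈ F' := (hF' _).2 ⟨hq'F, hq'h⟩
  obtain ⟨i, hi⟩ : ∃ i, e.symm i = ⟨q', hmem⟩ := ⟨e ⟨q', hmem⟩, e.symm_apply_apply _⟩
  have h4 := hab i (Finset.mem_univ _)
  rw [← hP i a b τ hτ] at h4
  apply h4
  have h5 : aut hA hτT (f i) ∈ q' := (hq' (f i) _ rfl).1 (hf i)
  have h6 : ((e.symm i : F') : Ideal A) = q' := by rw [hi]
  have h7 := hℓ0 i (aut hA hτT (f i)) (by rw [h6]; exact h5)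
  rw [aut_coe] at h7
  rw [h7, zero_mul]

namespace Inv

/-- the localisation `A[1/a₀]` inside `K` -/
def locA (A : Subalgebra k K) (a0 : A) : Subalgebra k K where
  carrier := {f | ∃ n : ℕ, (a0 : K) ^ n * f ∈ A}
  mul_mem' := by
    rintro f f' ⟨n, h⟩ ⟨n', h'⟩
    refine ⟨n + n', ?_⟩
    have : (a0 : K) ^ (n + n') * (f * f') = ((a0 : K) ^ n * f) * ((a0 : K) ^ n' * f') := by
      rw [pow_add]
      ring
    rw [this]
    exact A.mul_mem h h'
  add_mem' := by
    rintro f f' ⟨n, h⟩ ⟨n', h'⟩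
    refine ⟨n + n', ?_⟩
    have : (a0 : K) ^ (n + n') * (f + f') =
        (a0 : K) ^ n' * ((a0 : K) ^ n * f) + (a0 : K) ^ n * ((a0 : K) ^ n' * f') := by
      rw [pow_add]
      ring
    rw [this]
    exact A.add_mem (A.mul_mem (A.pow_mem a0.2 _) h) (A.mul_mem (A.pow_mem a0.2 _) h')
  algebraMap_mem' := fun c => ⟨0, by rw [pow_zero, one_mul]; exact A.algebraMap_mem c⟩

theorem le_locA (A : Subalgebra k K) (a0 : A) : A ≤ locA A a0 := fun f hf =>
  ⟨0, by rw [pow_zero, one_mul]; exact hf⟩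

/-- extension of an evaluation to `A[1/a₀]` -/
theorem ext_eval (A : Subalgebra k K) (a0 : A) (β : A →ₐ[k] k) (h : β a0 ≠ 0) :
    ∃ γ : locA A a0 →ₐ[k] k, ∀ a : A, γ ⟨a, le_locA A a0 a.2⟩ = β a := by
  have h0 : (a0 : K) ≠ 0 := by
    intro h1
    apply h
    have : a0 = 0 := Subtype.ext h1
    rw [this, map_zero]
  -- the value
  choose n hn using fun f : locA A a0 => f.2
  have key : ∀ (f : locA A a0) (r : ℕ) (hr : (a0 : K) ^ r * f ∈ A),
      β ⟨_, hr⟩ * (β a0) ^ (n f) = β ⟨_, hn f⟩ * (β a0) ^ r := by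
    intro f r hr
    rw [← map_pow, ← map_pow, ← map_mul, ← map_mul]
    congr 1
    refine Subtype.ext ?_
    show ((a0 : K) ^ r * f) * (a0 : K) ^ n f = ((a0 : K) ^ n f * f) * (a0 : K) ^ r
    ring
  have key2 : ∀ (f : locA A a0) (r : ℕ) (hr : (a0 : K) ^ r * f ∈ A),
      β ⟨_, hn f⟩ / (β a0) ^ (n f) = β ⟨_, hr⟩ / (β a0) ^ r := by
    intro f r hr
    rw [div_eq_div_iff (pow_ne_zero _ h) (pow_ne_zero _ h)]
    exact (key f r hr).symm
  have hcomm : ∀ a : A, β ⟨_, hn ⟨a, le_locA A a0 a.2⟩⟩ /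
      (β a0) ^ (n ⟨a, le_locA A a0 a.2⟩) = β a := by
    intro a
    have h1 : (a0 : K) ^ 0 * (a : K) ∈ A := by rw [pow_zero, one_mul]; exact a.2
    have h2 := key2 ⟨a, le_locA A a0 a.2⟩ 0 h1
    have h3 : (⟨(a0 : K) ^ 0 * (a : K), h1⟩ : A) = a := Subtype.ext (by
      show (a0 : K) ^ 0 * (a : K) = a
      rw [pow_zero, one_mul])
    have h5 : β a0 ^ 0 = 1 := pow_zero _
    rw [h2, h5, div_one]
    exact congrArg β h3
  refine ⟨
    { toFun := fun f => β ⟨_, hn f⟩ / (β a0) ^ (n f)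
      map_one' := ?_
      map_mul' := ?_
      map_zero' := ?_
      map_add' := ?_
      commutes' := ?_ }, hcomm⟩
  · have := hcomm 1
    rw [map_one] at this
    exact this
  · intro f f'
    have h1 : (a0 : K) ^ (n f + n f') * ((f * f' : locA A a0) : K) ∈ A := by
      have : (a0 : K) ^ (n f + n f') * ((f * f' : locA A a0) : K) =
          ((a0 : K) ^ n f * f) * ((a0 : K) ^ n f' * f') := by
        rw [pow_add]
        push_cast
        ring
      rw [this]
      exact A.mul_mem (hn f) (hn f')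
    rw [key2 (f * f') _ h1]
    have h2 : (⟨_, h1⟩ : A) = ⟨_, hn f⟩ * ⟨_, hn f'⟩ := Subtype.ext (by
      show (a0 : K) ^ (n f + n f') * ((f : K) * (f' : K)) =
        ((a0 : K) ^ n f * f) * ((a0 : K) ^ n f' * f')
      rw [pow_add]
      ring)
    rw [h2, map_mul, pow_add, mul_div_mul_comm]
  · have := hcomm 0
    rw [map_zero] at this
    exact this
  · intro f f'
    have h1 : (a0 : K) ^ (n f + n f') * ((f + f' : locA A a0) : K) ∈ A := by
      have : (a0 : K) ^ (n f + n f') * ((f + f' : locA A a0) : K) =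
          (a0 : K) ^ n f' * ((a0 : K) ^ n f * f) + (a0 : K) ^ n f * ((a0 : K) ^ n f' * f') := by
        rw [pow_add]
        push_cast
        ring
      rw [this]
      exact A.add_mem (A.mul_mem (A.pow_mem a0.2 _) (hn f)) (A.mul_mem (A.pow_mem a0.2 _) (hn f'))
    rw [key2 (f + f') _ h1]
    have h2 : (⟨_, h1⟩ : A) = a0 ^ n f' * ⟨_, hn f⟩ + a0 ^ n f * ⟨_, hn f'⟩ := Subtype.ext (by
      show (a0 : K) ^ (n f + n f') * ((f : K) + (f' : K)) =
        (a0 : K) ^ n f' * ((a0 : K) ^ n f * f) + (a0 : K) ^ n f * ((a0 : K) ^ n f' * f')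
      rw [pow_add]
      ring)
    rw [h2, map_add, map_mul, map_mul, map_pow, map_pow, pow_add]
    field_simp
  · intro c
    have h1 := hcomm (algebraMap k A c)
    rw [AlgHom.commutes] at h1
    exact h1

end Inv

namespace Inv

/-- a prime which does not contain `a₀` is interior -/
theorem intr_of_notMem (hA : IsEmb C A) {a0 : A}
    (ha : ∀ f, C.Reg f → ∃ n : ℕ, (a0 : K) ^ n * f ∈ A) {q : Ideal A} (hq : q.IsPrime)
    (h : a0 ∉ q) : IntrI C q := by
  have : Algebra.FiniteType k A := ⟨(Subalgebra.fg_top A).2 hA.good.fg⟩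
  have : Algebra.FiniteType k (A ⧸ q) :=
    Algebra.FiniteType.of_surjective (Ideal.Quotient.mkₐ k q) (Ideal.Quotient.mkₐ_surjective k q)
  have hb : Ideal.Quotient.mkₐ k q a0 ≠ 0 := by
    intro h1
    exact h (Ideal.Quotient.eq_zero_iff_mem.1 h1)
  obtain ⟨β0, hβ0⟩ := Pool.Agent.MLD.Ten.ev_ne (k := k) (Ideal.Quotient.mkₐ k q a0) hb
  obtain ⟨β, hβ⟩ : ∃ β : A →ₐ[k] k, β = β0.comp (Ideal.Quotient.mkₐ k q) := ⟨_, rfl⟩
  have hβq : ∀ a ∈ q, β a = 0 := by
    intro a haq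
    rw [hβ, AlgHom.comp_apply]
    have h1 : Ideal.Quotient.mkₐ k q a = 0 := Ideal.Quotient.eq_zero_iff_mem.2 haq
    rw [h1, map_zero]
  have hβa : β a0 ≠ 0 := by rw [hβ]; exact hβ0
  obtain ⟨γ, hγ⟩ := ext_eval A a0 β hβa
  have hreg : ∀ f, C.Reg f → f ∈ locA A a0 := fun f hf => ha f hf
  have hy : ∀ i, C.y i ∈ locA A a0 := by
    intro i
    have h1 := hreg _ (reg_g C (B.rw i) (B.cl i))
    have h2 : C.g (B.rw i) (B.cl i) = C.y i := congrFun (vec_mat B C.y) i
    rwa [h2] at h1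
  obtain ⟨y', hy'⟩ : ∃ y' : Fin (m + 1) → locA A a0, ∀ i, ((y' i : locA A a0) : K) = C.y i :=
    ⟨fun i => ⟨_, hy i⟩, fun i => rfl⟩
  have hg' : (B.mat y').map (algebraMap (locA A a0) K) = C.g := by
    ext p r
    simp only [Matrix.map_apply, GC.g, Blk.mat]
    split_ifs with hpr
    · exact hy' _
    · exact map_zero _
  have hdet : ((B.mat y').det : K) = C.g.det := by
    rw [← hg']
    exact RingHom.map_det (algebraMap (locA A a0) K) (B.mat y')
  obtain ⟨h0, hh0⟩ : ∃ h0 : Matrix (Fin N) (Fin N) k, h0 = B.mat (fun i => γ (y' i)) := ⟨_, rfl⟩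
  have hh0' : h0 = (B.mat y').map γ := by
    rw [hh0]
    ext p r
    simp only [Matrix.map_apply, Blk.mat]
    split_ifs with hpr
    · rfl
    · exact (map_zero γ).symm
  have hdet0 : h0.det = γ (B.mat y').det := by
    rw [hh0']
    exact (RingHom.map_det (γ : locA A a0 →+* k) (B.mat y')).symm
  have hinv := hreg _ (reg_det_inv C)
  have hG : B.IsG h0 := by
    refine ⟨by rw [hh0]; exact isBl_mat B _, ?_⟩
    intro hd
    have h1 : (B.mat y').det * ⟨_, hinv⟩ = 1 := Subtype.ext (by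
      show ((B.mat y').det : K) * (C.g.det)⁻¹ = 1
      rw [hdet, mul_inv_cancel₀ (det_g_ne C)])
    have h2 := congrArg γ h1
    rw [map_mul, ← hdet0, hd, zero_mul, map_one] at h2
    exact zero_ne_one h2
  refine ⟨h0, hG, fun a haq => ?_⟩
  obtain ⟨n, P, hP⟩ := emb_reg hA _ a.2
  rw [nv_iff hG hP]
  push Not
  have h1 : (⟨(a : K), le_locA A a0 a.2⟩ : locA A a0) * (B.mat y').det ^ n = aeval y' P := by
    refine Subtype.ext ?_
    have h2 : ((aeval y' P : locA A a0) : K) = aeval C.y P := by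
      have h3 := MvPolynomial.aeval_algebraMap_apply K y' P
      have h4 : (fun i => algebraMap (locA A a0) K (y' i)) = C.y := funext hy'
      have h5 : (algebraMap (locA A a0) K) (aeval y' P) =
        aeval (fun i => algebraMap (locA A a0) K (y' i)) P := h3.symm
      rw [h4] at h5
      exact h5
    rw [h2, ← hP, ← hdet]
    rfl
  have h6 := congrArg γ h1
  rw [map_mul, map_pow, ← hdet0, hγ, hβq a haq, zero_mul] at h6
  have h7 : γ (aeval y' P) = eval (B.vec h0) P := by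
    have h8 : B.vec h0 = fun i => γ (y' i) := by
      rw [hh0]
      exact vec_mat B _
    rw [h8]
    have h9 := MvPolynomial.comp_aeval_apply (φ := γ) y' P
    rw [h9]
    rfl
  rw [← h7, ← h6]

theorem intr_tra (hA : IsEmb C A) {σ : K ≃ₐ[k] K} (hσ : C.Tra σ) {q q1 : Ideal A}
    (h : MapsTo σ q q1) (h1 : IntrI C q1) : IntrI C q := by
  obtain ⟨h0, hh0, hn⟩ := h1
  obtain ⟨a, c, hac⟩ := hσ
  refine ⟨a * h0 * c, isG_mul (isG_mul hac.1 hh0) hac.2.1, fun f hf hNV => ?_⟩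
  have hreg := emb_reg hA _ f.2
  rw [← nv_tra hac hh0 hreg] at hNV
  exact hn (aut hA ⟨a, c, hac⟩ f) ((h f _ rfl).1 hf) hNV

theorem exists_a0 (hA : IsEmb C A) : ∃ a0 : A, a0 ≠ 0 ∧
    ∀ f, C.Reg f → ∃ n : ℕ, (a0 : K) ^ n * f ∈ A := by
  obtain ⟨a0, h1, h2⟩ := emb_loc hA (isG_one (B := B) (k := k))
  refine ⟨a0, ?_, h2⟩
  rintro rfl
  obtain ⟨n, P, hP, hne⟩ := h1
  apply hne
  have h3 : aeval C.y P = 0 := by
    rw [← hP]
    simp
  have h4 : P = 0 := by
    have h5 := C.ind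
    rw [algebraicIndependent_iff] at h5
    exact h5 P h3
  rw [h4, map_zero]

end Inv

theorem not_inv_intr (hA : IsEmb C A) {q : Ideal A} (hq : q ≠ ⊥) (h : InvI C q)
    (h' : IntrI C q) : False := by
  obtain ⟨h0, hh0, hn⟩ := h'
  obtain ⟨a, haq, ha0⟩ := Submodule.exists_mem_ne_zero_of_ne_bot hq
  have ha0' : (a : K) ≠ 0 := fun h1 => ha0 (Subtype.ext h1)
  have hreg := emb_reg hA _ a.2
  obtain ⟨h1, hh1, hNV⟩ := nv_exists hreg ha0'
  obtain ⟨σ, hσ⟩ := exists_tr C (isG_mul hh1 (isG_inv hh0)) (isG_one (B := B) (k := k))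
  have hT : C.Tra σ := ⟨_, _, hσ⟩
  have h2 : aut hA hT a ∈ q := (h σ hT a _ rfl).1 haq
  apply hn _ h2
  rw [aut_coe, nv_tra hσ hh0 hreg]
  have h3 : h1 * h0⁻¹ * h0 * 1 = h1 := by
    rw [mul_one, Matrix.mul_assoc, Matrix.nonsing_inv_mul _ (isUnit_iff_ne_zero.2 hh0.2), mul_one]
  rw [h3]
  exact hNV

theorem inv_or_intr (hA : IsEmb C A) {q : Ideal A} (hq : IsHeightOne q) :
    InvI C q ∨ IntrI C q := by
  obtain ⟨a0, ha0, hloc⟩ := exists_a0 hA
  by_cases hint : IntrI C q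
  · exact Or.inr hint
  left
  have hfin := finite_heightOne A (Pool.Agent.MLD.Ten.Ind.noeth A hA.good.fg) a0 ha0
  refine conn hA hq hfin.toFinset fun σ hσ => ?_
  obtain ⟨q1, h1, h2, h3⟩ := exists_mapsTo hA hσ q
  refine ⟨q1, ?_, h1⟩
  rw [Set.Finite.mem_toFinset]
  refine ⟨h3 hq, ?_⟩
  by_contra hna
  exact hint (intr_tra hA hσ h1 (intr_of_notMem hA hloc (h2 hq.1) hna))

theorem inv_finite (hA : IsEmb C A) : {q : Ideal A | IsHeightOne q ∧ InvI C q}.Finite := by
  obtain ⟨a0, ha0, hloc⟩ := exists_a0 hA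
  have hfin := finite_heightOne A (Pool.Agent.MLD.Ten.Ind.noeth A hA.good.fg) a0 ha0
  refine hfin.subset ?_
  rintro q ⟨hq, hi⟩
  refine ⟨hq, ?_⟩
  by_contra hna
  exact not_inv_intr hA hq.2.1 hi (intr_of_notMem hA hloc hq.1 hna)

theorem delta_intr (hA : IsEmb C A) (δ : Ideal A →₀ ℝ)
    (hδ : ∀ σ, C.Tra σ → ∀ p q : Ideal A, MapsTo σ p q → δ p = δ q) {q : Ideal A}
    (hq : IsHeightOne q) (h : IntrI C q) : δ q = 0 := by
  by_contra hne
  refine not_inv_intr hA hq.2.1 (conn hA hq δ.support fun σ hσ => ?_) h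
  obtain ⟨q1, h1, _, _⟩ := exists_mapsTo hA hσ q
  refine ⟨q1, ?_, h1⟩
  rw [Finsupp.mem_support_iff, ← hδ σ hσ q q1 h1]
  exact hne

/-- the valuation of an invariant prime divisor is invariant -/
theorem inv_val (hA : IsEmb C A) {q : Ideal A} (hq : IsHeightOne q) (hi : InvI C q)
    {v : DVal k K} (hv : v.HasCenter A q) {σ : K ≃ₐ[k] K} (hσ : C.Tra σ) {f : K} (hf : f ≠ 0) :
    v.ord (σ f) = v.ord f := by
  have hne : ∀ a : K, a ≠ 0 → σ a ≠ 0 := fun a ha h => ha (by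
    have := congrArg σ.symm h
    rwa [σ.symm_apply_apply, map_zero] at this)
  obtain ⟨v', hv'⟩ : ∃ v' : DVal k K, ∀ a, v'.ord a = v.ord (σ a) := by
    refine ⟨
      { ord := fun a => v.ord (σ a)
        ord_mul := fun a b ha hb => by rw [map_mul]; exact v.ord_mul _ _ (hne a ha) (hne b hb)
        ord_add := fun a b ha hb hab => by
          rw [map_add]
          exact v.ord_add _ _ (hne a ha) (hne b hb) (by rw [← map_add]; exact hne _ hab)
        ord_algebraMap := fun c hc => by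
          show v.ord (σ (algebraMap k K c)) = 0
          rw [AlgEquiv.commutes]
          exact v.ord_algebraMap c hc
        exists_ord_eq_one := by
          obtain ⟨a, ha, h1⟩ := v.exists_ord_eq_one
          refine ⟨σ.symm a, fun h => ha ?_, ?_⟩
          · have := congrArg σ h
            rwa [σ.apply_symm_apply, map_zero] at this
          · show v.ord (σ (σ.symm a)) = 1
            rw [σ.apply_symm_apply]
            exact h1 }, fun a => rfl⟩
  have hint : ∀ a : K, v'.Integral a ↔ v.Integral (σ a) := by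
    intro a
    unfold DVal.Integral
    rw [hv']
    constructor
    · intro h h1
      refine h fun h2 => h1 ?_
      rw [h2, map_zero]
    · intro h h1
      exact h (hne a h1)
  have hsm : ∀ a : K, v'.Small a ↔ v.Small (σ a) := by
    intro a
    unfold DVal.Small
    rw [hv']
    constructor
    · intro h h1
      refine h fun h2 => h1 ?_
      rw [h2, map_zero]
    · intro h h1
      exact h (hne a h1)
  have hc : v'.HasCenter A q := by
    refine ⟨fun a => ?_, fun a => ?_⟩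
    · rw [hint]
      exact hv.1 (aut hA hσ a)
    · rw [hsm, hi σ hσ a (aut hA hσ a) rfl]
      exact hv.2 (aut hA hσ a)
  rw [← hv']
  exact dvr_unique A (Pool.Agent.MLD.Ten.Ind.noeth A hA.good.fg) hA.good.frac hA.good.norm q hq
    v' v hc hv f hf

end INV

end

end Pool.Agent.MLD.Mon
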