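import Pool.Agent.Lib.MP_f23696_ag.M.Lin
import Pool.Agent.Lib.MP_f23696_ag.M.Frm
import Pool.Agent.Lib.MP_f23696_ag.M.Wts
import Pool.Agent.Lib.MP_f23696_ag.M.Eigt
import Pool.Agent.Lib.MP_f23696_ag.M.Reg
import Pool.Agent.Lib.MP_f23696_ag.M.Inv
import Pool.Agent.Lib.MP_f23696_ag.T.Ind
import Pool.Agent.Lib.MP_f23696_ag.Dvr
import Pool.Agent.Lib.MP_f23696_ag.Hart

set_option autoImplicit false

open scoped Classical

namespace Pool.Agent.MLD.Mon

open MvPolynomial
open Pool.Agent.MLD.Ten (IsGood)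

noncomputable section

universe u v w

variable {N m : ℕ} {B : Blk N m} {k : Type u} {K : Type v} [Field k] [Field K] [Algebra k K]

/-! ### XQ (M/Xq.lean): the cone of the embedding -/
section XQ

namespace Xq

/-! #### the pivots of a dominant weight are regular -/

theorem reg_one (C : GC k K B) : C.Reg 1 := by
  have h := reg_const C (1 : k)
  rwa [map_one] at h

theorem reg_sum (C : GC k K B) {ι : Type*} (s : Finset ι) (f : ι → K)
    (h : ∀ i ∈ s, C.Reg (f i)) : C.Reg (∑ i ∈ s, f i) := by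
  induction s using Finset.induction_on with
  | empty =>
    have h := reg_const C (0 : k)
    rw [map_zero] at h
    simpa using h
  | insert a s ha ih =>
    rw [Finset.sum_insert ha]
    exact reg_add C (h a (Finset.mem_insert_self a s))
      (ih fun i hi => h i (Finset.mem_insert_of_mem hi))

theorem reg_prod (C : GC k K B) {ι : Type*} (s : Finset ι) (f : ι → K)
    (h : ∀ i ∈ s, C.Reg (f i)) : C.Reg (∏ i ∈ s, f i) := by
  induction s using Finset.induction_on with
  | empty => simpa using reg_one C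
  | insert a s ha ih =>
    rw [Finset.prod_insert ha]
    exact reg_mul C (h a (Finset.mem_insert_self a s))
      (ih fun i hi => h i (Finset.mem_insert_of_mem hi))

theorem reg_det (C : GC k K B) {n : Type} [Fintype n] [DecidableEq n] (M : Matrix n n K)
    (h : ∀ i j, C.Reg (M i j)) : C.Reg M.det := by
  rw [Matrix.det_apply]
  refine reg_sum C _ _ fun σ _ => ?_
  rw [Units.smul_def, zsmul_eq_mul]
  refine reg_mul C ?_ (reg_prod C _ _ fun i _ => h _ _)
  have h1 := reg_const C (((Equiv.Perm.sign σ : ℤˣ) : ℤ) : k)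
  rwa [map_intCast] at h1

/-- the set is closed under decreasing the index in a block -/
def Low (B : Blk N m) (S : Finset (Fin N)) : Prop :=
  ∀ p q, q ≤ p → B.b q = B.b p → p ∈ S → q ∈ S

theorem det_sub (C : GC k K B) (S : Finset (Fin N)) (hS : Low B S) :
    (C.g.submatrix (fun p : S => (p : Fin N)) (fun p : S => (p : Fin N))).det = ∏ p ∈ S, C.d p := by
  have h1 : C.g.submatrix (fun p : S => (p : Fin N)) (fun p : S => (p : Fin N)) =
      C.L.submatrix (fun p : S => (p : Fin N)) (fun p : S => (p : Fin N)) *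
      Matrix.diagonal (fun p : S => C.d p) *
      C.U.submatrix (fun p : S => (p : Fin N)) (fun p : S => (p : Fin N)) := by
    ext p q
    rw [Matrix.submatrix_apply, g_eq C, Matrix.mul_apply, Matrix.mul_apply]
    simp only [Matrix.mul_diagonal, Matrix.submatrix_apply]
    rw [Finset.sum_coe_sort S (fun r => C.L p r * C.d r * C.U r q)]
    symm
    refine Finset.sum_subset (Finset.subset_univ S) fun r _ hr => ?_
    have h2 : C.L p r = 0 := by
      show B.low C.T p r = 0
      unfold Blk.low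
      have hne : (p : Fin N) ≠ r := fun h => hr (h ▸ p.2)
      rw [if_neg hne]
      split_ifs with h3
      · unfold Blk.mat
        rw [dif_neg]
        intro h4
        exact hr (hS p r h3.le h4.symm p.2)
      · rfl
    rw [h2, zero_mul, zero_mul]
  rw [h1, Matrix.det_mul, Matrix.det_mul, Matrix.det_diagonal]
  have h2 : (C.L.submatrix (fun p : S => (p : Fin N)) (fun p : S => (p : Fin N))).det = 1 := by
    rw [Matrix.det_of_isLowerTriangular]
    · refine Finset.prod_eq_one fun p _ => ?_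
      rw [Matrix.submatrix_apply]
      show B.low C.T p p = 1
      unfold Blk.low
      rw [if_pos rfl]
    · intro p q hpq
      have hpq' : (p : Fin N) < q := hpq
      rw [Matrix.submatrix_apply]
      show B.low C.T p q = 0
      unfold Blk.low
      rw [if_neg hpq'.ne, if_neg (not_lt.2 hpq'.le)]
  have h3 : (C.U.submatrix (fun p : S => (p : Fin N)) (fun p : S => (p : Fin N))).det = 1 := by
    rw [Matrix.det_of_isUpperTriangular]
    · refine Finset.prod_eq_one fun p _ => ?_
      rw [Matrix.submatrix_apply]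
      show B.upp C.T p p = 1
      unfold Blk.upp
      rw [if_pos rfl]
    · intro p q hpq
      have hpq' : (q : Fin N) < p := hpq
      rw [Matrix.submatrix_apply]
      show B.upp C.T p q = 0
      unfold Blk.upp
      rw [if_neg hpq'.ne', if_neg (not_lt.2 hpq'.le)]
  rw [h2, h3, one_mul, mul_one]
  exact Finset.prod_coe_sort S C.d

theorem reg_low (C : GC k K B) (S : Finset (Fin N)) (hS : Low B S) : C.Reg (∏ p ∈ S, C.d p) := by
  rw [← det_sub C S hS]
  exact reg_det C _ fun i j => reg_g C _ _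

theorem reg_nat (C : GC k K B) (T : ℕ) : ∀ ν : Fin N → ℕ,
    (∀ p q, p ≤ q → B.b p = B.b q → ν q ≤ ν p) → (∀ p, ν p ≤ T) → C.Reg (∏ p, C.d p ^ ν p) := by
  induction T with
  | zero =>
    intro ν _ h
    have h1 : ∏ p, C.d p ^ ν p = 1 := Finset.prod_eq_one fun p _ => by
      rw [Nat.le_zero.1 (h p), pow_zero]
    rw [h1]
    exact reg_one C
  | succ T ih =>
    intro ν h1 h2
    have h3 : ∏ p, C.d p ^ ν p = (∏ p ∈ Finset.univ.filter (fun p => 1 ≤ ν p), C.d p) *
        ∏ p, C.d p ^ (ν p - 1) := by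
      rw [Finset.prod_filter, ← Finset.prod_mul_distrib]
      refine Finset.prod_congr rfl fun p _ => ?_
      split_ifs with h4
      · rw [← pow_succ']
        congr 1
        omega
      · have h5 : ν p = 0 := by omega
        rw [h5]
        simp
    rw [h3]
    refine reg_mul C (reg_low C _ ?_) (ih _ ?_ ?_)
    · intro p q hqp hb hp
      rw [Finset.mem_filter] at hp ⊢
      exact ⟨Finset.mem_univ _, hp.2.trans (h1 q p hqp hb)⟩
    · intro p q hpq hb
      have := h1 p q hpq hb
      omega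
    · intro p
      have := h2 p
      omega

theorem reg_dm (C : GC k K B) {μ : Fin N → ℤ} (hμ : B.Dom μ) : C.Reg (C.dm μ) := by
  obtain ⟨T, hT⟩ : ∃ T : ℕ, ∀ p, |μ p| ≤ T := by
    refine ⟨∑ p, (μ p).natAbs, fun p => ?_⟩
    have h1 : (μ p).natAbs ≤ ∑ p, (μ p).natAbs :=
      Finset.single_le_sum (f := fun p => (μ p).natAbs) (fun _ _ => Nat.zero_le _)
        (Finset.mem_univ p)
    rw [Int.abs_eq_natAbs]
    exact_mod_cast h1
  have h1 : C.dm μ = (∏ p, C.d p ^ (μ p + T).toNat) * (C.g.det)⁻¹ ^ T := by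
    have h2 : ∏ p, C.d p ^ (μ p + T).toNat = ∏ p, (C.d p ^ μ p * C.d p ^ (T : ℤ)) := by
      refine Finset.prod_congr rfl fun p _ => ?_
      rw [← zpow_add₀ (d_ne C p), ← zpow_natCast]
      congr 1
      have := hT p
      have := abs_le.1 this
      omega
    rw [h2, Finset.prod_mul_distrib, inv_pow]
    have h3 : ∏ p, C.d p ^ (T : ℤ) = C.g.det ^ T := by
      rw [det_g C, ← Finset.prod_pow]
      refine Finset.prod_congr rfl fun p _ => ?_
      rw [zpow_natCast]
    rw [h3, mul_assoc, mul_inv_cancel₀ (pow_ne_zero _ (det_g_ne C)), mul_one]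
    rfl
  rw [h1]
  refine reg_mul C (reg_nat C (2 * T) _ ?_ ?_) ?_
  · intro p q hpq hb
    have := hμ p q hpq hb
    omega
  · intro p
    have := abs_le.1 (hT p)
    omega
  · have h2 : ∀ n : ℕ, C.Reg ((C.g.det)⁻¹ ^ n) := by
      intro n
      induction n with
      | zero =>
        rw [pow_zero]
        exact reg_one C
      | succ n ih =>
        rw [pow_succ]
        exact reg_mul C ih (reg_det_inv C)
    exact h2 T

theorem ord_dm' (C : GC k K B) (v : DVal k K) (x : Fin N → ℤ) (h : ∀ p, v.ord (C.d p) = x p)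
    (μ : Fin N → ℤ) : v.ord (C.dm μ) = x ⬝ᵥ μ := by
  rw [ord_dm C v μ]
  unfold dotProduct
  refine Finset.sum_congr rfl fun p _ => ?_
  rw [h p]
  ring

theorem d_eq_dm (C : GC k K B) (p : Fin N) : C.d p = C.dm (Pi.single p 1) := (dm_single C p).symm

/-- membership in `A` by values at prime divisors -/
theorem mem_of_val {A : Subalgebra k K} (hA : IsGood A) {f : K} (hf : f ≠ 0)
    (h : ∀ q : Ideal A, IsHeightOne q → ∀ v : DVal k K, v.HasCenter A q → 0 ≤ v.ord f) : f ∈ A := by
  have hN := Pool.Agent.MLD.Ten.Ind.noeth A hA.fg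
  -- the ideal of denominators
  let I : Ideal A :=
    { carrier := {s | (s : K) * f ∈ A}
      add_mem' := fun {a b} ha hb => by
        show ((a + b : A) : K) * f ∈ A
        push_cast
        rw [add_mul]
        exact A.add_mem ha hb
      zero_mem' := by
        show ((0 : A) : K) * f ∈ A
        rw [ZeroMemClass.coe_zero, zero_mul]
        exact A.zero_mem
      smul_mem' := fun c a ha => by
        show ((c * a : A) : K) * f ∈ A
        push_cast
        rw [mul_assoc]
        exact A.mul_mem c.2 ha }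
  by_contra hcon
  have hI : I ≠ ⊤ := by
    intro h1
    have h2 : (1 : A) ∈ I := by
      rw [h1]
      trivial
    have h3 : ((1 : A) : K) * f ∈ A := h2
    rw [OneMemClass.coe_one, one_mul] at h3
    exact hcon h3
  obtain ⟨M, hM, hIM⟩ := Ideal.exists_le_maximal I hI
  obtain ⟨s, hs, hsf⟩ := hartogs A hN hA.frac hA.norm M hM.isPrime f hf (by
    intro q hq _
    obtain ⟨w, hw, hw'⟩ := dvr A hN hA.frac hA.norm q hq
    exact (hw' f hf).1 (h q hq w hw))
  exact hs (hIM hsf)

end Xq

variable [IsAlgClosed k] {C : GC k K B} {A : Subalgebra k K}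

theorem exists_xdata (hA : IsEmb C A) : Nonempty (XData C A) := by
  have hN := Pool.Agent.MLD.Ten.Ind.noeth A hA.good.fg
  have hex : ∀ q : Ideal A, IsHeightOne q → ∃ v : DVal k K, v.HasCenter A q := fun q hq => by
    obtain ⟨w, hw, _⟩ := dvr A hN hA.good.frac hA.good.norm q hq
    exact ⟨w, hw⟩
  let x : Ideal A → Fin N → ℤ := fun q p =>
    if h : ∃ v : DVal k K, v.HasCenter A q then h.choose.ord (C.d p) else 0
  have hx : ∀ q : Ideal A, IsHeightOne q → ∀ v : DVal k K, v.HasCenter A q →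
      ∀ p, v.ord (C.d p) = x q p := by
    intro q hq v hv p
    have h := hex q hq
    show _ = dite _ _ _
    rw [dif_pos h]
    exact dvr_unique A hN hA.good.frac hA.good.norm q hq v _ hv h.choose_spec _ (d_ne C p)
  have hord : ∀ q : Ideal A, IsHeightOne q → InvI C q → ∀ v : DVal k K, v.HasCenter A q →
      ∀ σ, C.Tra σ → ∀ p, v.ord (σ (C.d p)) = x q p := by
    intro q hq hi v hv σ hσ p
    rw [inv_val hA hq hi hv hσ (d_ne C p)]
    exact hx q hq v hv p
  let Q : Finset (Ideal A) := (inv_finite hA).toFinset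
  have hQ : ∀ q, q ∈ Q ↔ IsHeightOne q ∧ InvI C q := fun q => by
    rw [Set.Finite.mem_toFinset]
    exact Iff.rfl
  refine ⟨{ Q := Q, x := x, mem := hQ, mon := ?_, ord := ?_, gam := ?_ }⟩
  · intro q hq
    obtain ⟨h1, h2⟩ := (hQ q).1 hq
    obtain ⟨v, hv⟩ := hex q h1
    obtain ⟨l, σ, hσ, _, _, h3, h4⟩ := frame_dval C v
    have h5 : l = x q := by
      funext p
      rw [← h3 p, map_d]
      exact hord q h1 h2 v hv σ hσ p
    rw [← h5]
    exact h4
  · intro q hq v hv σ hσ p
    obtain ⟨h1, h2⟩ := (hQ q).1 hq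
    exact hord q h1 h2 v hv σ hσ p
  · intro μ
    constructor
    · rintro ⟨h1, h2⟩
      refine ⟨h1, fun q hq => ?_⟩
      obtain ⟨h3, h4⟩ := (hQ q).1 hq
      obtain ⟨v, hv⟩ := hex q h3
      rw [← Xq.ord_dm' C v (x q) (hx q h3 v hv) μ]
      exact hv.1 ⟨_, h2⟩ (dm_ne C μ)
    · rintro ⟨h1, h2⟩
      refine ⟨h1, Xq.mem_of_val hA.good (dm_ne C μ) fun q hq v hv => ?_⟩
      rcases inv_or_intr hA hq with h3 | h3
      · rw [Xq.ord_dm' C v (x q) (hx q hq v hv) μ]
        exact h2 q ((hQ q).2 ⟨hq, h3⟩)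
      · exact (intr_val hA hq h3 hv).1 _ (Xq.reg_dm C h1) (dm_ne C μ)

/-- the exponents of the elements of `A` -/
theorem exp_mem (hA : IsEmb C A) (X : XData C A) {f : K} (hf : f ∈ A) {n : ℕ}
    {P : MvPolynomial (Fin (m + 1)) k} (hP : C.PRep f n P) {κ : Fin N → ℤ} (hκ : κ ∈ B.EE P) :
    (κ - fun _ => (n : ℤ)) ∈ SX B X.Q X.x := by
  intro w hw q hq
  have hf0 : f ≠ 0 := by
    rintro rfl
    have h1 : P = 0 := by
      refine rep_unique C hP ?_
      show (0 : K) * C.g.det ^ n = aeval C.y 0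
      rw [zero_mul, map_zero]
    obtain ⟨a, c, _, _, s, _, h2, _⟩ := hκ
    rw [h1] at h2
    simp at h2
  obtain ⟨μ, h1, h2, h3⟩ := eigt C (Subalgebra.toSubmodule A)
    (fun σ hσ f hf => hA.stab σ hσ f hf) hf hf0 hP (ordOf (X.x q) (X.mon q hq))
  have h4 : 0 ≤ X.x q ⬝ᵥ μ := ((X.gam μ).1 ⟨h1, h2⟩).2 q hq
  have h5 : 0 ≤ X.x q ⬝ᵥ ((κ ∘ w - fun _ => (n : ℤ)) - μ) := h3 _ (ee_perm hκ w hw)
  have h6 : ((κ - fun _ => (n : ℤ)) ∘ w) = ((κ ∘ w - fun _ => (n : ℤ)) - μ) + μ := by
    funext p
    simp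
  rw [h6, dotProduct_add]
  exact add_nonneg h5 h4

end XQ

end

end Pool.Agent.MLD.Mon
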