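import Pool.Agent.Lib.MP_f23696_ag.M.ColA
import Pool.Agent.Lib.MP_f23696_ag.M.Lin
import Pool.Agent.Lib.MP_f23696_ag.M.Tra
import Pool.Agent.Lib.MP_f23696_ag.M.Cb
import Pool.Agent.Lib.MP_f23696_ag.M.Wts
import Pool.Agent.Lib.MP_f23696_ag.M.Reg
import Pool.Agent.Lib.MP_f23696_ag.M.Xq
import Pool.Agent.Lib.MP_f23696_ag.M.Bub
import Pool.Agent.Lib.MP_f23696_ag.M.Jac
import Pool.Agent.Lib.MP_f23696_ag.M.Mnv

/-!
# The frame with two neighbouring rows exchanged, evaluation at points (module COL of project MON)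
-/

set_option autoImplicit false

open scoped Classical

namespace Pool.Agent.MLD.Mon

open MvPolynomial
open Pool.Agent.MLD.Ten (IsGood)

noncomputable section

universe u v w

variable {N m : ℕ} {B : Blk N m} {k : Type u} {K : Type v} [Field k] [Field K] [Algebra k K]

namespace Col

section bl

variable {R : Type v} [CommRing R]

theorem isBl_swap {p q : Fin N} (hb : B.b p = B.b q) : B.IsBl (Matrix.swap R p q) := by
  intro i j hij
  rw [Matrix.swap, Equiv.Perm.permMatrix, PEquiv.toMatrix_apply]
  rw [if_neg]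
  intro h
  apply hij
  have h1 : j = Equiv.swap p q i := by simpa [Equiv.toPEquiv_apply, eq_comm] using h
  rw [h1, Equiv.swap_apply_def]
  split_ifs with h2 h3
  · rw [h2, hb]
  · rw [h3, hb]
  · rfl

theorem isBl_transvection {p q : Fin N} (hb : B.b p = B.b q) (c : R) :
    B.IsBl (Matrix.transvection q p c) := by
  intro i j hij
  rw [Matrix.transvection, Matrix.add_apply, Matrix.one_apply_ne (fun h => hij (by rw [h])),
    zero_add, Matrix.single_apply, if_neg]
  rintro ⟨h1, h2⟩
  exact hij (by rw [← h1, ← h2, hb])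

theorem lowU_transvection {p q : Fin N} (h : p < q) (c : R) :
    LowU (Matrix.transvection q p c) := by
  constructor
  · intro i
    rw [Matrix.transvection, Matrix.add_apply, Matrix.one_apply_eq, Matrix.single_apply, if_neg,
      add_zero]
    rintro ⟨h1, h2⟩
    exact h.ne (h2.trans h1.symm)
  · intro i j hij
    rw [Matrix.transvection, Matrix.add_apply, Matrix.one_apply_ne hij.ne, Matrix.single_apply,
      if_neg, zero_add]
    rintro ⟨h1, h2⟩
    rw [← h1, ← h2] at hij
    exact lt_asymm h hij

theorem uppU_transvection {p q : Fin N} (h : p < q) (c : R) :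
    UppU (Matrix.transvection p q c) := by
  constructor
  · intro i
    rw [Matrix.transvection, Matrix.add_apply, Matrix.one_apply_eq, Matrix.single_apply, if_neg,
      add_zero]
    rintro ⟨h1, h2⟩
    exact h.ne (h1.trans h2.symm)
  · intro i j hij
    rw [Matrix.transvection, Matrix.add_apply, Matrix.one_apply_ne hij.ne', Matrix.single_apply,
      if_neg, zero_add]
    rintro ⟨h1, h2⟩
    rw [← h1, ← h2] at hij
    exact lt_asymm h hij

end bl

variable {C : GC k K B} {p q : Fin N}

theorem g_map {σ : K ≃ₐ[k] K} (hσ : C.IsTr (Matrix.swap k p q) 1 σ) :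
    (C.map σ).g = Matrix.swap K p q * C.g := by
  have h := hσ.2.2
  have h1 : (C.map σ).g = B.mat (fun i => σ (C.y i)) := rfl
  rw [h1, h]
  have h2 : (Matrix.swap k p q).map (algebraMap k K) = Matrix.swap K p q :=
    Matrix.map_swap (algebraMap k K) p q
  rw [h2, Matrix.map_one _ (map_zero _) (map_one _), mul_one]

theorem g_swap {σ : K ≃ₐ[k] K} (hσ : C.IsTr (Matrix.swap k p q) 1 σ) :
    C.g = Matrix.swap K p q * (C.map σ).g := by
  rw [g_map hσ, ← mul_assoc, Matrix.swap_mul_self, one_mul]

/-- the pivots of `C` in terms of the frame with the rows `p, q` exchanged -/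
theorem pivots (hpq : (p : ℕ) + 1 = q) (hb : B.b p = B.b q) {σ : K ≃ₐ[k] K}
    (hσ : C.IsTr (Matrix.swap k p q) 1 σ) (hl : (C.map σ).T (B.ix q p hb.symm) ≠ 0) (r : Fin N) :
    C.d r = dd p q ((C.map σ).T (B.ix q p hb.symm)) (C.map σ).d r := by
  have hlt : p < q := by rw [Fin.lt_def]; omega
  have hne : p ≠ q := hlt.ne
  obtain ⟨l, hldef⟩ : ∃ l, l = (C.map σ).T (B.ix q p hb.symm) := ⟨_, rfl⟩
  rw [← hldef] at hl ⊢
  obtain ⟨L, hL⟩ : ∃ L, L = (C.map σ).L := ⟨_, rfl⟩
  obtain ⟨U, hU⟩ : ∃ U, U = (C.map σ).U := ⟨_, rfl⟩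
  obtain ⟨d, hd⟩ : ∃ d, d = (C.map σ).d := ⟨_, rfl⟩
  have hLU : LowU L := by rw [hL]; exact lowU_low _
  have hUU : UppU U := by rw [hU]; exact uppU_upp _
  have hLb : B.IsBl L := by rw [hL]; exact isBl_low B _
  have hUb : B.IsBl U := by rw [hU]; exact isBl_upp B _
  have hd0 : d p ≠ 0 := by rw [hd]; exact d_ne (C.map σ) p
  have hLqp : L q p = l := by
    rw [hL, hldef, GC.L, Blk.low, if_neg hne.symm, if_pos hlt, Blk.mat, dif_pos hb.symm]
  have hL2 : L = L * Matrix.transvection q p (-l) * Matrix.transvection q p l := by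
    rw [mul_assoc, Matrix.transvection_mul_transvection_same q p hne.symm, neg_add_cancel,
      Matrix.transvection_zero, mul_one]
  have h0 : (L * Matrix.transvection q p (-l)) q p = 0 := by
    rw [Matrix.mul_transvection_apply_same, hLqp, hLU.1, mul_one, add_neg_cancel]
  have hL3 : LowU (L * Matrix.transvection q p (-l)) := hLU.mul (lowU_transvection hlt _)
  have key : C.g = (Matrix.swap K p q * (L * Matrix.transvection q p (-l)) * Matrix.swap K p q *
      Matrix.transvection q p l⁻¹) * Matrix.diagonal (dd p q l d) *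
      (Matrix.transvection p q (d q / (l * d p)) * U) := by
    have h2 := two hne l hl d hd0
    rw [g_swap hσ, g_eq, ← hL, ← hU, ← hd]
    conv_lhs => rw [hL2]
    calc Matrix.swap K p q * (L * Matrix.transvection q p (-l) * Matrix.transvection q p l *
          Matrix.diagonal d * U)
        = Matrix.swap K p q * (L * Matrix.transvection q p (-l)) *
            (Matrix.swap K p q * Matrix.swap K p q) *
            (Matrix.transvection q p l * Matrix.diagonal d) * U := by
          rw [Matrix.swap_mul_self, mul_one]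
          simp only [mul_assoc]
      _ = Matrix.swap K p q * (L * Matrix.transvection q p (-l)) * Matrix.swap K p q *
            (Matrix.swap K p q * (Matrix.transvection q p l * Matrix.diagonal d)) * U := by
          simp only [mul_assoc]
      _ = _ := by
          rw [h2]
          simp only [mul_assoc]
  obtain ⟨T₂, h1, h2, h3⟩ := exists_ldu (B := B) _ _ (dd p q l d)
    ((lowU_conj hpq hL3 h0).mul (lowU_transvection hlt l⁻¹))
    ((uppU_transvection hlt (d q / (l * d p))).mul hUU)
    (isBl_mul B (isBl_mul B (isBl_mul B (isBl_swap hb) (isBl_mul B hLb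
      (isBl_transvection hb (-l)))) (isBl_swap hb)) (isBl_transvection hb l⁻¹))
    (isBl_mul B (isBl_transvection hb.symm _) hUb)
  have h4 : B.ldu C.T = B.ldu T₂ := by
    rw [C.hT, Blk.ldu, h1, h2, h3]
    exact key
  have h5 := ldu_inj (B := B) h4 (fun r => d_ne C r)
  rw [GC.d, h5, h3, hd]

/-! ### evaluation at points -/

theorem eval_Th (x : Fin (m + 1) → k) (P : MvPolynomial (Fin (m + 1)) k) :
    eval x (B.Th k P) = eval (B.vec (B.ldu x)) P := by
  have h1 := ldu_hom (B := B) (eval x : MvPolynomial (Fin (m + 1)) k →+* k) X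
  simp only [eval_X] at h1
  have h2 : (aeval x : MvPolynomial (Fin (m + 1)) k →ₐ[k] k).comp (B.Th k) =
      aeval (B.vec (B.ldu x)) := by
    refine MvPolynomial.algHom_ext fun i => ?_
    rw [AlgHom.comp_apply, Blk.Th, aeval_X, aeval_X, h1]
    rfl
  exact DFunLike.congr_fun h2 P

theorem eval_trP (a c M : Matrix (Fin N) (Fin N) k) (hM : B.IsBl M)
    (P : MvPolynomial (Fin (m + 1)) k) :
    eval (B.vec M) (B.trP a c P) = eval (B.vec (a * M * c)) P := by
  have h0 : (B.XX k).map (eval (B.vec M) : MvPolynomial (Fin (m + 1)) k →+* k) = M := by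
    rw [Blk.XX, ← mat_hom]
    simp only [eval_X]
    exact mat_vec B hM
  have h1 : (a.map C * B.XX k * c.map C).map
      (eval (B.vec M) : MvPolynomial (Fin (m + 1)) k →+* k) = a * M * c := by
    rw [Matrix.map_mul, Matrix.map_mul, h0, Matrix.map_map, Matrix.map_map]
    congr 2
    · ext i j
      simp
    · ext i j
      simp
  have h2 : (aeval (B.vec M) : MvPolynomial (Fin (m + 1)) k →ₐ[k] k).comp (B.trP a c) =
      aeval (B.vec (a * M * c)) := by
    refine MvPolynomial.algHom_ext fun i => ?_
    rw [AlgHom.comp_apply, Blk.trP, aeval_X, aeval_X, ← h1]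
    rfl
  exact DFunLike.congr_fun h2 P

end Col

end

end Pool.Agent.MLD.Mon
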