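import Pool.Agent.Lib.MP_f23696_ag.M.ColB

/-!
# Characters of the torus, comparison of coefficients (module COL of project MON)
-/

set_option autoImplicit false

open scoped Classical

namespace Pool.Agent.MLD.Mon

open MvPolynomial
open Pool.Agent.MLD.Ten (IsGood)

noncomputable section

universe u v w

variable {N m : ℕ} {B : Blk N m} {k : Type u} [Field k]

namespace Col

/-! ### characters -/

theorem exists_zpow_ne [Infinite k] {n : ℤ} (hn : n ≠ 0) : ∃ a : kˣ, a ^ n ≠ 1 := by
  have h0 : (Polynomial.X ^ n.natAbs - 1 : Polynomial k) ≠ 0 :=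
    Polynomial.X_pow_sub_C_ne_zero (Nat.pos_of_ne_zero (Int.natAbs_ne_zero.2 hn)) 1
  obtain ⟨a, ha⟩ := Infinite.exists_notMem_finset
    (insert 0 (Polynomial.X ^ n.natAbs - 1 : Polynomial k).roots.toFinset)
  rw [Finset.mem_insert, not_or, Multiset.mem_toFinset, Polynomial.mem_roots h0] at ha
  obtain ⟨b, hb⟩ : ∃ b : kˣ, (b : k) = a := ⟨Units.mk0 a ha.1, rfl⟩
  obtain ⟨ha0, ha⟩ := ha
  obtain ⟨M, hM⟩ : ∃ M, M = n.natAbs := ⟨_, rfl⟩
  rw [← hM] at ha
  refine ⟨b, fun h => ha ?_⟩
  have h1 : b ^ M = 1 := by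
    rcases Int.natAbs_eq n with h2 | h2
    · rw [h2, zpow_natCast, ← hM] at h
      exact h
    · rw [h2, zpow_neg, zpow_natCast, inv_eq_one, ← hM] at h
      exact h
  have h3 : a ^ M = 1 := by
    rw [← hb, ← Units.val_pow_eq_pow_val, h1, Units.val_one]
  rw [Polynomial.IsRoot, Polynomial.eval_sub, Polynomial.eval_pow, Polynomial.eval_X,
    Polynomial.eval_one, h3, sub_self]

/-- the character of `kˣ × (kˣ)^N` with exponents `e` -/
def chi (k : Type u) [Field k] (e : ℤ × (Fin N → ℤ)) : (kˣ × (Fin N → kˣ)) →* k where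
  toFun z := ((z.1 ^ e.1 * ∏ r, z.2 r ^ e.2 r : kˣ) : k)
  map_one' := by simp
  map_mul' x y := by
    rw [← Units.val_mul]
    congr 1
    simp only [Prod.fst_mul, Prod.snd_mul, Pi.mul_apply, mul_zpow, Finset.prod_mul_distrib]
    exact mul_mul_mul_comm _ _ _ _

theorem chi_apply (e : ℤ × (Fin N → ℤ)) (z : kˣ × (Fin N → kˣ)) :
    chi k e z = (z.1 : k) ^ e.1 * ∏ r, (z.2 r : k) ^ e.2 r := by
  show ((z.1 ^ e.1 * ∏ r, z.2 r ^ e.2 r : kˣ) : k) = _
  rw [Units.val_mul, Units.val_zpow_eq_zpow_val, Units.coe_prod]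
  simp only [Units.val_zpow_eq_zpow_val]

theorem chi_injective [Infinite k] : Function.Injective (chi (N := N) k) := by
  intro e e' h
  have h1 : ∀ z : kˣ × (Fin N → kˣ), (z.1 ^ e.1 * ∏ r, z.2 r ^ e.2 r : kˣ) =
      z.1 ^ e'.1 * ∏ r, z.2 r ^ e'.2 r := fun z => Units.ext (DFunLike.congr_fun h z)
  refine Prod.ext ?_ (funext fun r => ?_)
  · by_contra hne
    obtain ⟨a, ha⟩ := exists_zpow_ne (k := k) (sub_ne_zero.2 hne)
    apply ha
    have h2 := h1 (a, 1)
    simp only [Pi.one_apply, one_zpow, Finset.prod_const_one, mul_one] at h2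
    rw [zpow_sub, h2, mul_inv_cancel]
  · by_contra hne
    obtain ⟨a, ha⟩ := exists_zpow_ne (k := k) (sub_ne_zero.2 hne)
    apply ha
    have h2 := h1 (1, Pi.mulSingle r a)
    have h3 : ∀ f : Fin N → ℤ, ∏ r', (Pi.mulSingle r a : Fin N → kˣ) r' ^ f r' = a ^ f r := by
      intro f
      rw [Finset.prod_eq_single r]
      · rw [Pi.mulSingle_eq_same]
      · intro b _ hb
        rw [Pi.mulSingle_eq_of_ne hb, one_zpow]
      · intro hr
        exact absurd (Finset.mem_univ r) hr
    simp only [one_zpow, one_mul] at h2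
    rw [h3, h3] at h2
    rw [zpow_sub, h2, mul_inv_cancel]

/-- comparison of coefficients -/
theorem chars [Infinite k] {ι : Type w} (S : Finset ι) (c : ι → k) (e : ι → ℤ × (Fin N → ℤ))
    (h : ∀ z : kˣ × (Fin N → kˣ), ∑ s ∈ S, c s * chi k (e s) z = 0) (s₀ : ι) (hs₀ : s₀ ∈ S)
    (hu : ∀ s ∈ S, e s = e s₀ → s = s₀) : c s₀ = 0 := by
  have hli := (linearIndependent_monoidHom (kˣ × (Fin N → kˣ)) k).comp _
    (chi_injective (k := k) (N := N))
  rw [linearIndependent_iff'] at hli
  have h1 := hli (S.image e) (fun e' => ∑ s ∈ S with e s = e', c s) ?_ (e s₀)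
    (Finset.mem_image_of_mem e hs₀)
  · have h2 : (S.filter fun s => e s = e s₀) = {s₀} := by
      ext s
      rw [Finset.mem_filter, Finset.mem_singleton]
      exact ⟨fun hs => hu s hs.1 hs.2, fun hs => by rw [hs]; exact ⟨hs₀, rfl⟩⟩
    rw [h2, Finset.sum_singleton] at h1
    exact h1
  · funext z
    rw [Finset.sum_apply, Pi.zero_apply, ← h z]
    rw [← Finset.sum_fiberwise_of_maps_to (s := S) (t := S.image e) (g := e)
      (fun s hs => Finset.mem_image_of_mem e hs)]
    refine Finset.sum_congr rfl fun e' _ => ?_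
    rw [Pi.smul_apply, smul_eq_mul, Finset.sum_mul]
    refine Finset.sum_congr rfl fun s hs => ?_
    rw [Finset.mem_filter] at hs
    rw [hs.2]
    rfl

/-! ### points of the big cell -/

/-- the coordinates of `L diag(d) U` -/
def pt (B : Blk N m) {R : Type v} (L U : Matrix (Fin N) (Fin N) R) (d : Fin N → R) :
    Fin (m + 1) → R :=
  fun i => if B.cl i < B.rw i then L (B.rw i) (B.cl i) else
    if B.rw i = B.cl i then d (B.rw i) else U (B.rw i) (B.cl i)

theorem ldu_pt {R : Type v} [CommRing R] (L U : Matrix (Fin N) (Fin N) R) (d : Fin N → R)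
    (hL : LowU L) (hU : UppU U) (hLb : B.IsBl L) (hUb : B.IsBl U) :
    B.ldu (pt B L U d) = L * Matrix.diagonal d * U := by
  have h1 : B.low (pt B L U d) = L := by
    ext p q
    rw [Blk.low]
    by_cases h1 : p = q
    · rw [if_pos h1, h1, hL.1]
    rw [if_neg h1]
    by_cases h2 : q < p
    · rw [if_pos h2, Blk.mat]
      by_cases h3 : B.b p = B.b q
      · rw [dif_pos h3]
        simp only [pt, Blk.rw_ix, Blk.cl_ix]
        rw [if_pos h2]
      · rw [dif_neg h3, hLb p q h3]
    · rw [if_neg h2, hL.2 p q (lt_of_le_of_ne (not_lt.1 h2) h1)]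
  have h2 : B.upp (pt B L U d) = U := by
    ext p q
    rw [Blk.upp]
    by_cases h1 : p = q
    · rw [if_pos h1, h1, hU.1]
    rw [if_neg h1]
    by_cases h2 : p < q
    · rw [if_pos h2, Blk.mat]
      by_cases h3 : B.b p = B.b q
      · rw [dif_pos h3]
        simp only [pt, Blk.rw_ix, Blk.cl_ix]
        rw [if_neg (not_lt.2 h2.le), if_neg h1]
      · rw [dif_neg h3, hUb p q h3]
    · rw [if_neg h2, hU.2 p q (lt_of_le_of_ne (not_lt.1 h2) (Ne.symm h1))]
  have h3 : B.dia (pt B L U d) = d := by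
    funext p
    simp [pt, Blk.dia, Blk.dx, Blk.rw_ix, Blk.cl_ix]
  rw [Blk.ldu, h1, h2, h3]

theorem pt_dx {R : Type v} (L U : Matrix (Fin N) (Fin N) R) (d : Fin N → R) (r : Fin N) :
    pt B L U d (B.dx r) = d r := by
  simp [pt, Blk.dx, Blk.rw_ix, Blk.cl_ix]

/-- product over the entries -/
theorem prod_entries {p q : Fin N} (hpq : p < q) (hb : B.b p = B.b q) (x : Fin (m + 1) → k)
    (s : Fin (m + 1) →₀ ℕ) (hx : ∀ i, B.rw i ≠ B.cl i → i ≠ B.ix q p hb.symm → i ≠ B.ix p q hb →
      x i = 0) :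
    ∏ i, x i ^ s i = if ∀ i, B.rw i ≠ B.cl i → i ≠ B.ix q p hb.symm → i ≠ B.ix p q hb → s i = 0 then
      (∏ r, x (B.dx r) ^ s (B.dx r)) *
        (x (B.ix q p hb.symm) ^ s (B.ix q p hb.symm) * x (B.ix p q hb) ^ s (B.ix p q hb)) else 0 := by
  by_cases hs : ∀ i, B.rw i ≠ B.cl i → i ≠ B.ix q p hb.symm → i ≠ B.ix p q hb → s i = 0
  · rw [if_pos hs]
    have h1 : ∏ i, x i ^ s i = (∏ i, if B.rw i = B.cl i then x i ^ s i else 1) *
        ∏ i, if B.rw i = B.cl i then 1 else x i ^ s i := by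
      rw [← Finset.prod_mul_distrib]
      refine Finset.prod_congr rfl fun i _ => ?_
      split_ifs
      · rw [mul_one]
      · rw [one_mul]
    rw [h1]
    congr 1
    · rw [← Finset.prod_filter]
      refine Finset.prod_bij' (fun i _ => B.rw i) (fun r _ => B.dx r) ?_ ?_ ?_ ?_ ?_
      · intro i _
        exact Finset.mem_univ _
      · intro r _
        rw [Finset.mem_filter]
        exact ⟨Finset.mem_univ _, by rw [Blk.dx, Blk.rw_ix, Blk.cl_ix]⟩
      · intro i hi
        rw [Finset.mem_filter] at hi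
        have h2 := B.ix_rw_cl i
        rw [Blk.dx]
        conv_rhs => rw [← h2]
        simp only [← hi.2]
      · intro r _
        show B.rw (B.dx r) = r
        rw [Blk.dx, Blk.rw_ix]
      · intro i hi
        rw [Finset.mem_filter] at hi
        have h2 := B.ix_rw_cl i
        have h3 : B.dx (B.rw i) = i := by
          rw [Blk.dx]
          conv_rhs => rw [← h2]
          simp only [← hi.2]
        rw [h3]
    · have hne : B.ix q p hb.symm ≠ B.ix p q hb := by
        intro h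
        have := congrArg B.rw h
        rw [Blk.rw_ix, Blk.rw_ix] at this
        exact hpq.ne' this
      rw [Finset.prod_eq_mul (B.ix q p hb.symm) (B.ix p q hb) hne]
      · rw [Blk.rw_ix, Blk.cl_ix, Blk.rw_ix, Blk.cl_ix, if_neg hpq.ne', if_neg hpq.ne]
      · intro i _ hi
        by_cases h2 : B.rw i = B.cl i
        · rw [if_pos h2]
        · rw [if_neg h2, hs i h2 hi.1 hi.2, pow_zero]
      · intro h
        exact absurd (Finset.mem_univ _) h
      · intro h
        exact absurd (Finset.mem_univ _) h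
  · rw [if_neg hs]
    push Not at hs
    obtain ⟨i, h1, h2, h3, h4⟩ := hs
    exact Finset.prod_eq_zero (Finset.mem_univ i) (by rw [hx i h1 h2 h3, zero_pow h4])

end Col

end

end Pool.Agent.MLD.Mon
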