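import Pool.Agent.Lib.MP_f23696_ag.M.ColC

/-!
# The restriction to the two by two block (module COL of project MON)
-/

set_option autoImplicit false

open scoped Classical

namespace Pool.Agent.MLD.Mon

open MvPolynomial
open Pool.Agent.MLD.Ten (IsGood)

noncomputable section

universe u v w

variable {N m : ℕ} {B : Blk N m} {k : Type u} [Field k]

namespace Col

theorem eq_ix (i : Fin (m + 1)) {p q : Fin N} (h : B.b p = B.b q) (h1 : B.rw i = p)
    (h2 : B.cl i = q) : i = B.ix p q h := by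
  subst h1
  subst h2
  exact (B.ix_rw_cl i).symm

theorem transvection_offdiag {R : Type v} [CommRing R] (p q i j : Fin N) (c : R) (h : i ≠ j) :
    Matrix.transvection p q c i j = if p = i ∧ q = j then c else 0 := by
  rw [Matrix.transvection, Matrix.add_apply, Matrix.one_apply_ne h, zero_add, Matrix.single_apply]

section

variable {p q : Fin N} (hpq : p < q) (hb : B.b p = B.b q) (l : kˣ) (t : Fin N → kˣ)

/-- the first point -/
def x1 (B : Blk N m) (p q : Fin N) (l : kˣ) (t : Fin N → kˣ) : Fin (m + 1) → k :=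
  pt B (Matrix.transvection q p (l : k)) 1 fun r => (t r : k)

/-- the second point -/
def x2 (B : Blk N m) (p q : Fin N) (l : kˣ) (t : Fin N → kˣ) : Fin (m + 1) → k :=
  pt B (Matrix.transvection q p (l : k)⁻¹)
    (Matrix.transvection p q ((t q : k) / ((l : k) * (t p : k))))
    (dd p q (l : k) fun r => (t r : k))

include hpq hb

theorem swap_x1 : Matrix.swap k p q * B.ldu (x1 B p q l t) = B.ldu (x2 B p q l t) := by
  have h1 : UppU (1 : Matrix (Fin N) (Fin N) k) :=
    ⟨fun p => Matrix.one_apply_eq p, fun p q h => Matrix.one_apply_ne h.ne'⟩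
  rw [x1, x2, ldu_pt _ _ _ (lowU_transvection hpq _) h1 (isBl_transvection hb _) (isBl_one B),
    ldu_pt _ _ _ (lowU_transvection hpq _) (uppU_transvection hpq _) (isBl_transvection hb _)
      (isBl_transvection hb.symm _), mul_one]
  exact two hpq.ne (l : k) l.ne_zero (fun r => (t r : k)) (t p).ne_zero

theorem x1_prod (s : Fin (m + 1) →₀ ℕ) :
    ∏ i, x1 B p q l t i ^ s i =
      if (∀ i, B.rw i ≠ B.cl i → i ≠ B.ix q p hb.symm → i ≠ B.ix p q hb → s i = 0) ∧
          s (B.ix p q hb) = 0 then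
        chi k ((s (B.ix q p hb.symm) : ℤ), fun r => (s (B.dx r) : ℤ)) (l, t) else 0 := by
  have hi : x1 B p q l t (B.ix q p hb.symm) = l := by
    simp only [x1, pt, Blk.rw_ix, Blk.cl_ix]
    rw [if_pos hpq, transvection_offdiag _ _ _ _ _ hpq.ne', if_pos ⟨rfl, rfl⟩]
  have hj : x1 B p q l t (B.ix p q hb) = 0 := by
    simp only [x1, pt, Blk.rw_ix, Blk.cl_ix]
    rw [if_neg (not_lt.2 hpq.le), if_neg hpq.ne]
    exact Matrix.one_apply_ne (by rw [Blk.rw_ix, Blk.cl_ix]; exact hpq.ne)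
  have hx : ∀ i, B.rw i ≠ B.cl i → i ≠ B.ix q p hb.symm → i ≠ B.ix p q hb →
      x1 B p q l t i = 0 := by
    intro i h1 h2 h3
    simp only [x1, pt]
    by_cases h4 : B.cl i < B.rw i
    · rw [if_pos h4, transvection_offdiag _ _ _ _ _ h1, if_neg]
      rintro ⟨h5, h6⟩
      exact h2 (eq_ix i _ h5.symm h6.symm)
    · rw [if_neg h4, if_neg h1, Matrix.one_apply_ne h1]
  have hd : ∀ r, x1 B p q l t (B.dx r) = t r := fun r => by
    rw [x1, pt_dx]
  rw [prod_entries hpq hb _ s hx, hi, hj]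
  by_cases h1 : ∀ i, B.rw i ≠ B.cl i → i ≠ B.ix q p hb.symm → i ≠ B.ix p q hb → s i = 0
  · rw [if_pos h1]
    by_cases h2 : s (B.ix p q hb) = 0
    · rw [if_pos ⟨h1, h2⟩, h2, pow_zero, mul_one, chi_apply]
      simp only [hd, zpow_natCast]
      exact mul_comm _ _
    · rw [if_neg (fun h => h2 h.2), zero_pow h2, mul_zero, mul_zero]
  · rw [if_neg h1, if_neg (fun h => h1 h.1)]

theorem x2_prod (s : Fin (m + 1) →₀ ℕ) :
    ∏ i, x2 B p q l t i ^ s i =
      if (∀ i, B.rw i ≠ B.cl i → i ≠ B.ix q p hb.symm → i ≠ B.ix p q hb → s i = 0) then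
        (-1) ^ s (B.dx q) *
        chi k ((s (B.dx p) : ℤ) - s (B.dx q) - s (B.ix q p hb.symm) - s (B.ix p q hb),
          fun r => (s (B.dx r) : ℤ) + (if r = q then (s (B.ix p q hb) : ℤ) else 0) -
            (if r = p then (s (B.ix p q hb) : ℤ) else 0)) (l, t) else 0 := by
  have hi : x2 B p q l t (B.ix q p hb.symm) = (l : k)⁻¹ := by
    simp only [x2, pt, Blk.rw_ix, Blk.cl_ix]
    rw [if_pos hpq, transvection_offdiag _ _ _ _ _ hpq.ne', if_pos ⟨rfl, rfl⟩]
  have hj : x2 B p q l t (B.ix p q hb) = (t q : k) / ((l : k) * (t p : k)) := by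
    simp only [x2, pt, Blk.rw_ix, Blk.cl_ix]
    rw [if_neg (not_lt.2 hpq.le), if_neg hpq.ne, transvection_offdiag _ _ _ _ _ hpq.ne,
      if_pos ⟨rfl, rfl⟩]
  have hx : ∀ i, B.rw i ≠ B.cl i → i ≠ B.ix q p hb.symm → i ≠ B.ix p q hb →
      x2 B p q l t i = 0 := by
    intro i h1 h2 h3
    simp only [x2, pt]
    by_cases h4 : B.cl i < B.rw i
    · rw [if_pos h4, transvection_offdiag _ _ _ _ _ h1, if_neg]
      rintro ⟨h5, h6⟩
      exact h2 (eq_ix i _ h5.symm h6.symm)
    · rw [if_neg h4, if_neg h1, transvection_offdiag _ _ _ _ _ h1, if_neg]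
      rintro ⟨h5, h6⟩
      exact h3 (eq_ix i _ h5.symm h6.symm)
  have hd : ∀ r, x2 B p q l t (B.dx r) = (t r : k) * ((if r = p then (l : k) else 1) *
      (if r = q then -(l : k)⁻¹ else 1)) := by
    intro r
    rw [x2, pt_dx, dd]
    by_cases h1 : r = p
    · rw [if_pos h1, if_pos h1, if_neg (by rw [h1]; exact hpq.ne), h1]
      ring
    · rw [if_neg h1, if_neg h1]
      by_cases h2 : r = q
      · rw [if_pos h2, if_pos h2, h2]
        field_simp
      · rw [if_neg h2, if_neg h2]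
        ring
  rw [prod_entries hpq hb _ s hx, hi, hj]
  by_cases h1 : ∀ i, B.rw i ≠ B.cl i → i ≠ B.ix q p hb.symm → i ≠ B.ix p q hb → s i = 0
  · rw [if_pos h1, if_pos h1, chi_apply]
    obtain ⟨a, ha⟩ : ∃ a, a = s (B.ix q p hb.symm) := ⟨_, rfl⟩
    obtain ⟨b, hb'⟩ : ∃ b, b = s (B.ix p q hb) := ⟨_, rfl⟩
    rw [← ha, ← hb']
    have hl : (l : k) ≠ 0 := l.ne_zero
    have htp : (t p : k) ≠ 0 := (t p).ne_zero
    have e1 : ∏ r, x2 B p q l t (B.dx r) ^ s (B.dx r) =
        (∏ r, (t r : k) ^ s (B.dx r)) * ((l : k) ^ s (B.dx p) * (-(l : k)⁻¹) ^ s (B.dx q)) := by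
      simp only [hd, mul_pow, Finset.prod_mul_distrib, ite_pow, one_pow]
      rw [Finset.prod_ite_eq' Finset.univ p, Finset.prod_ite_eq' Finset.univ q,
        if_pos (Finset.mem_univ _), if_pos (Finset.mem_univ _)]
    have e2 : ∏ r, (t r : k) ^ ((s (B.dx r) : ℤ) + (if r = q then (b : ℤ) else 0) -
        (if r = p then (b : ℤ) else 0)) =
        (∏ r, (t r : k) ^ s (B.dx r)) * ((t q : k) ^ b * ((t p : k) ^ b)⁻¹) := by
      have e3 : ∀ r, (t r : k) ^ ((s (B.dx r) : ℤ) + (if r = q then (b : ℤ) else 0) -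
          (if r = p then (b : ℤ) else 0)) = (t r : k) ^ s (B.dx r) *
          ((if r = q then (t r : k) ^ b else 1) * (if r = p then ((t r : k) ^ b)⁻¹ else 1)) := by
        intro r
        have hr : (t r : k) ≠ 0 := (t r).ne_zero
        rw [sub_eq_add_neg, zpow_add₀ hr, zpow_add₀ hr, zpow_natCast, mul_assoc]
        congr 2
        · split_ifs
          · rw [zpow_natCast]
          · rw [zpow_zero]
        · split_ifs
          · rw [zpow_neg, zpow_natCast]
          · rw [neg_zero, zpow_zero]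
      simp only [e3, Finset.prod_mul_distrib]
      rw [Finset.prod_ite_eq' Finset.univ q, Finset.prod_ite_eq' Finset.univ p,
        if_pos (Finset.mem_univ _), if_pos (Finset.mem_univ _)]
    rw [e1]
    simp only
    rw [e2, zpow_sub₀ hl, zpow_sub₀ hl, zpow_sub₀ hl, zpow_natCast, zpow_natCast, zpow_natCast,
      zpow_natCast, neg_pow, inv_pow, inv_pow, div_pow, mul_pow]
    field_simp
  · rw [if_neg h1, if_neg h1]

end

/-- the coefficients of the monomials without off-diagonal variables -/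
theorem coeff_zero [Infinite k] {p q : Fin N} (hpq : p < q) (hb : B.b p = B.b q)
    (P Q : MvPolynomial (Fin (m + 1)) k) (δ : k) (hδ : δ ≠ 0)
    (hQ : ∀ x : Fin (m + 1) → k, eval x Q = δ * eval (B.vec (Matrix.swap k p q * B.ldu x)) P)
    (hQs : ∀ s ∈ Q.support, 1 ≤ s (B.ix q p hb.symm))
    (s₀ : Fin (m + 1) →₀ ℕ) (hs₀ : s₀ ∈ (B.Th k P).support) (hD : B.OnlyD s₀)
    (hflat : s₀ (B.dx p) = s₀ (B.dx q))
    (hu : ∀ s ∈ (B.Th k P).support, s (B.ix q p hb.symm) = s (B.ix p q hb) →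
      (∀ r, (s (B.dx r) : ℤ) + (if r = q then (s (B.ix p q hb) : ℤ) else 0) -
        (if r = p then (s (B.ix p q hb) : ℤ) else 0) = s₀ (B.dx r)) → s (B.ix p q hb) = 0) :
    False := by
  obtain ⟨cnd, hcnd⟩ : ∃ cnd : (Fin (m + 1) →₀ ℕ) → Prop, cnd = fun s =>
      ∀ i, B.rw i ≠ B.cl i → i ≠ B.ix q p hb.symm → i ≠ B.ix p q hb → s i = 0 := ⟨_, rfl⟩
  obtain ⟨e₁, he₁⟩ : ∃ e₁ : (Fin (m + 1) →₀ ℕ) → ℤ × (Fin N → ℤ), e₁ = fun s =>
      ((s (B.ix q p hb.symm) : ℤ), fun r => (s (B.dx r) : ℤ)) := ⟨_, rfl⟩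
  obtain ⟨e₂, he₂⟩ : ∃ e₂ : (Fin (m + 1) →₀ ℕ) → ℤ × (Fin N → ℤ), e₂ = fun s =>
      ((s (B.dx p) : ℤ) - s (B.dx q) - s (B.ix q p hb.symm) - s (B.ix p q hb),
          fun r => (s (B.dx r) : ℤ) + (if r = q then (s (B.ix p q hb) : ℤ) else 0) -
            (if r = p then (s (B.ix p q hb) : ℤ) else 0)) := ⟨_, rfl⟩
  have hi0 : s₀ (B.ix q p hb.symm) = 0 := hD _ (by rw [Blk.rw_ix, Blk.cl_ix]; exact hpq.ne')
  have hj0 : s₀ (B.ix p q hb) = 0 := hD _ (by rw [Blk.rw_ix, Blk.cl_ix]; exact hpq.ne)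
  have h := chars (k := k) (N := N)
    ((Q.support.filter fun s => cnd s ∧ s (B.ix p q hb) = 0).disjSum
      ((B.Th k P).support.filter cnd))
    (Sum.elim (fun s => -(Q.coeff s)) fun s => δ * (B.Th k P).coeff s * (-1) ^ s (B.dx q))
    (Sum.elim e₁ e₂) ?_ (Sum.inr s₀) ?_ ?_
  · rw [Sum.elim_inr] at h
    rw [mem_support_iff] at hs₀
    exact mul_ne_zero (mul_ne_zero hδ hs₀) (pow_ne_zero _ (neg_ne_zero.2 one_ne_zero)) h
  · rintro ⟨l, t⟩
    rw [Finset.sum_disjSum]
    simp only [Sum.elim_inl, Sum.elim_inr]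
    have h1 : eval (x1 B p q l t) Q = ∑ s ∈ Q.support with cnd s ∧ s (B.ix p q hb) = 0,
        Q.coeff s * chi k (e₁ s) (l, t) := by
      rw [eval_eq', Finset.sum_filter]
      refine Finset.sum_congr rfl fun s _ => ?_
      rw [x1_prod hpq hb, hcnd, he₁]
      split_ifs
      · rfl
      · rw [mul_zero]
    have h2 : eval (x2 B p q l t) (B.Th k P) = ∑ s ∈ (B.Th k P).support with cnd s,
        (B.Th k P).coeff s * ((-1) ^ s (B.dx q) * chi k (e₂ s) (l, t)) := by
      rw [eval_eq', Finset.sum_filter]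
      refine Finset.sum_congr rfl fun s _ => ?_
      rw [x2_prod hpq hb, hcnd, he₂]
      split_ifs
      · rfl
      · rw [mul_zero]
    have h3 := hQ (x1 B p q l t)
    rw [swap_x1 hpq hb, ← eval_Th, h1, h2] at h3
    simp only [neg_mul, Finset.sum_neg_distrib]
    rw [h3, Finset.mul_sum, neg_add_eq_zero]
    refine Finset.sum_congr rfl fun s _ => ?_
    ring
  · rw [Finset.mem_disjSum]
    refine Or.inr ⟨s₀, ?_, rfl⟩
    rw [Finset.mem_filter]
    refine ⟨hs₀, ?_⟩
    rw [hcnd]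
    intro i h1 _ _
    exact hD i h1
  · intro s hs he
    rw [Finset.mem_disjSum] at hs
    rcases hs with ⟨s, hs, rfl⟩ | ⟨s, hs, rfl⟩
    · exfalso
      rw [Sum.elim_inl, Sum.elim_inr, he₁, he₂] at he
      have h1 := congrArg Prod.fst he
      simp only at h1
      rw [Finset.mem_filter] at hs
      have h2 := hQs s hs.1
      rw [hi0, hj0, hflat] at h1
      omega
    · rw [Sum.elim_inr, Sum.elim_inr, he₂] at he
      have h1 := congrArg Prod.fst he
      have h2 := congrArg Prod.snd he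
      simp only at h1 h2
      have h3 := fun r => congrFun h2 r
      simp only [hi0, hj0] at h1 h3
      have h4 : ∀ r, (s (B.dx r) : ℤ) + (if r = q then (s (B.ix p q hb) : ℤ) else 0) -
        (if r = p then (s (B.ix p q hb) : ℤ) else 0) = s₀ (B.dx r) := by
        intro r
        rw [h3 r]
        simp
      rw [Finset.mem_filter] at hs
      have hp := h4 p
      have hq := h4 q
      rw [if_neg hpq.ne, if_pos rfl] at hp
      rw [if_pos rfl, if_neg hpq.ne'] at hq
      have h5 : s (B.ix q p hb.symm) = s (B.ix p q hb) := by omega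
      have h6 := hu s hs.1 h5 h4
      have h7 : s = s₀ := by
        refine Finsupp.ext fun i => ?_
        by_cases hd : B.rw i = B.cl i
        · have h8 : i = B.dx (B.rw i) := eq_ix i rfl rfl hd.symm
          rw [h8]
          have h9 := h4 (B.rw i)
          rw [h6] at h9
          simp only [Nat.cast_zero, ite_self, add_zero, sub_zero] at h9
          exact_mod_cast h9
        · rw [hD i hd]
          by_cases h10 : i = B.ix q p hb.symm
          · rw [h10, h5, h6]
          by_cases h11 : i = B.ix p q hb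
          · rw [h11, h6]
          have h12 := hs.2
          rw [hcnd] at h12
          exact h12 i hd h10 h11
      rw [h7]

end Col

end

end Pool.Agent.MLD.Mon
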