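import Pool.Agent.Lib.MP_f23696_ag.M.ColD

/-!
# The valuation of a colour (module COL of project MON)
-/

set_option autoImplicit false

open scoped Classical

namespace Pool.Agent.MLD.Mon

open MvPolynomial
open Pool.Agent.MLD.Ten (IsGood)

noncomputable section

universe u v w

variable {N m : ℕ} {B : Blk N m} {k : Type u} {K : Type v} [Field k] [Field K] [Algebra k K]

namespace Col

variable {C : GC k K B} {p q : Fin N}

/-- `v` is the monomial valuation with weight one on the coordinate `i₀` of the frame `C'` -/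
structure IsV (C' : GC k K B) (i₀ : Fin (m + 1)) (v : DVal k K) : Prop where
  ord_T : ∀ i, v.ord (C'.T i) = if i = i₀ then 1 else 0
  le : ∀ Q : MvPolynomial (Fin (m + 1)) k, ∀ s ∈ Q.support, v.ord (aeval C'.T Q) ≤ s i₀
  ex : ∀ Q : MvPolynomial (Fin (m + 1)) k, Q ≠ 0 →
    ∃ s ∈ Q.support, v.ord (aeval C'.T Q) = s i₀

theorem exists_v [IsAlgClosed k] [CharZero k] (C' : GC k K B) (i₀ : Fin (m + 1)) :
    ∃ v : DVal k K, IsV C' i₀ v := by
  obtain ⟨E, hE, -⟩ := exists_E C'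
  obtain ⟨v, -, -, h1, h2⟩ := monv C'.T (ind_T C') (gen_T C') E hE
    (fun i => if i = i₀ then 1 else 0) ⟨fun i => if i = i₀ then 1 else 0, by simp⟩
  have h3 : ∀ s : Fin (m + 1) →₀ ℕ,
      ∑ i, (s i : ℤ) * ((if i = i₀ then 1 else 0 : ℕ) : ℤ) = s i₀ := by
    intro s
    simp
  refine ⟨v, fun i => ?_, fun Q s hs => ?_, fun Q hQ => ?_⟩
  · rw [h1 i]
    split_ifs <;> simp
  · have hQ : Q ≠ 0 := by
      rintro rfl
      simp at hs
    have := (h2 Q hQ).2 s hs
    rwa [h3] at this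
  · obtain ⟨s, hs, h4⟩ := (h2 Q hQ).1
    exact ⟨s, hs, by rw [h4, h3]⟩

theorem T_ne (C' : GC k K B) (i : Fin (m + 1)) : C'.T i ≠ 0 := (ind_T C').ne_zero i

section val

variable {σ : K ≃ₐ[k] K} (hpq : p < q) (hb : B.b p = B.b q)
  (hσ : C.IsTr (Matrix.swap k p q) 1 σ) {v : DVal k K}
  (hv : IsV (C.map σ) (B.ix q p hb.symm) v)
include hv

theorem T_mem (i : Fin (m + 1)) : (C.map σ).T i ∈ Ten.ring v := by
  rw [Ten.mem_ring]
  intro _
  rw [hv.ord_T]
  split_ifs
  · exact zero_le_one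
  · exact le_rfl

theorem aeval_mem (Q : MvPolynomial (Fin (m + 1)) k) : aeval (C.map σ).T Q ∈ Ten.ring v := by
  have h : aeval (C.map σ).T Q ∈ Algebra.adjoin k (Set.range (C.map σ).T) := by
    rw [Algebra.adjoin_range_eq_range_aeval]
    exact ⟨Q, rfl⟩
  refine Algebra.adjoin_le ?_ h
  rintro _ ⟨i, rfl⟩
  exact T_mem hb hv i

omit hv in
theorem map_y (i : Fin (m + 1)) : (C.map σ).y i = aeval (C.map σ).T (B.Th k (X i)) := by
  rw [← aeval_y, aeval_X]

theorem g_mem (i j : Fin N) : (C.map σ).g i j ∈ Ten.ring v := by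
  rw [GC.g, Blk.mat]
  split_ifs with h
  · rw [map_y]
    exact aeval_mem hb hv _
  · exact Subalgebra.zero_mem _

include hpq in
theorem ord_d (r : Fin N) : v.ord ((C.map σ).d r) = 0 := by
  rw [GC.d, Blk.dia, hv.ord_T, if_neg]
  intro h
  have h1 := congrArg B.rw h
  have h2 := congrArg B.cl h
  rw [Blk.dx, Blk.rw_ix, Blk.rw_ix] at h1
  rw [Blk.dx, Blk.cl_ix, Blk.cl_ix] at h2
  exact hpq.ne (h2.symm.trans h1)

include hpq in
theorem ord_det : v.ord (C.map σ).g.det = 0 := by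
  rw [det_g, Jac.ord_prod v _ _ fun r _ => d_ne (C.map σ) r]
  exact Finset.sum_eq_zero fun r _ => ord_d hpq hb hv r

include hσ

omit hv hb in
theorem g_apply (i j : Fin N) : C.g i j = (C.map σ).g (Equiv.swap p q i) j := by
  rw [g_swap hσ, Matrix.swap, Equiv.Perm.permMatrix, PEquiv.toMatrix_toPEquiv_mul]
  rfl

omit hv hb in
theorem g_apply' (i j : Fin N) : (C.map σ).g i j = C.g (Equiv.swap p q i) j := by
  rw [g_map hσ, Matrix.swap, Equiv.Perm.permMatrix, PEquiv.toMatrix_toPEquiv_mul]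
  rfl

theorem y_mem (i : Fin (m + 1)) : C.y i ∈ Ten.ring v := by
  have h : C.y i = C.g (B.rw i) (B.cl i) := by
    have := congrFun (vec_mat B C.y) i
    exact this.symm
  rw [h, g_apply hσ]
  exact g_mem hb hv _ _

include hpq in
theorem ord_det' : v.ord C.g.det = 0 := by
  have h1 := congrArg Matrix.det (g_map hσ)
  rw [Matrix.det_mul] at h1
  have h2 : (Matrix.swap K p q).det * (Matrix.swap K p q).det = 1 := by
    rw [← Matrix.det_mul, Matrix.swap_mul_self, Matrix.det_one]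
  have h3 : (Matrix.swap K p q).det ≠ 0 := left_ne_zero_of_mul_eq_one h2
  have h4 := v.ord_mul _ _ h3 h3
  rw [h2, Jac.ord_one] at h4
  have h5 := v.ord_mul _ _ h3 (det_g_ne C)
  rw [← h1, ord_det hpq hb hv] at h5
  omega

include hpq in
theorem integral_of_reg {f : K} (hf : C.Reg f) : v.Integral f := by
  obtain ⟨n, P, hP⟩ := hf
  intro h0
  have h1 : aeval C.y P ∈ Ten.ring v := by
    have h : aeval C.y P ∈ Algebra.adjoin k (Set.range C.y) := by
      rw [Algebra.adjoin_range_eq_range_aeval]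
      exact ⟨P, rfl⟩
    refine Algebra.adjoin_le ?_ h
    rintro _ ⟨i, rfl⟩
    exact y_mem hb hσ hv i
  rw [GC.PRep] at hP
  rw [← hP, Ten.mem_ring] at h1
  have h2 := h1 (mul_ne_zero h0 (pow_ne_zero _ (det_g_ne C)))
  rw [v.ord_mul _ _ h0 (pow_ne_zero _ (det_g_ne C)), Jac.ord_pow v _ (det_g_ne C),
    ord_det' hpq hb hσ hv, mul_zero, add_zero] at h2
  exact h2

/-- the polynomial of a small function -/
theorem small_poly {f : K} (hf : v.Small f) {n : ℕ} {P : MvPolynomial (Fin (m + 1)) k}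
    (hP : C.PRep f n P) (hlt : p < q) : ∃ (Q : MvPolynomial (Fin (m + 1)) k) (δ : k), δ ≠ 0 ∧
      (∀ x : Fin (m + 1) → k, eval x Q = δ * eval (B.vec (Matrix.swap k p q * B.ldu x)) P) ∧
      ∀ s ∈ Q.support, 1 ≤ s (B.ix q p hb.symm) := by
  have hinv : (Matrix.swap k p q)⁻¹ = Matrix.swap k p q :=
    Matrix.inv_eq_left_inv (Matrix.swap_mul_self p q)
  have h1 := rep_map hσ hP
  obtain ⟨δ, hδ⟩ : ∃ δ, δ = ((Matrix.swap k p q).det * (1 : Matrix (Fin N) (Fin N) k).det) ^ n :=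
    ⟨_, rfl⟩
  rw [← hδ, hinv, inv_one] at h1
  have hδ0 : δ ≠ 0 := by
    rw [hδ]
    exact pow_ne_zero _ (mul_ne_zero hσ.1.2 hσ.2.1.2)
  refine ⟨B.Th k (MvPolynomial.C δ * B.trP (Matrix.swap k p q) 1 P), δ, hδ0, fun x => ?_,
    fun s hs => ?_⟩
  · rw [eval_Th, map_mul, eval_C, eval_trP _ _ _ (isBl_ldu B x), mul_one]
  · rw [GC.PRep, aeval_y] at h1
    have h2 : aeval (C.map σ).T (B.Th k (MvPolynomial.C δ * B.trP (Matrix.swap k p q) 1 P)) ≠ 0 := by
      intro h3
      have h4 := (algebraicIndependent_iff.1 (ind_T (C.map σ))) _ h3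
      rw [h4] at hs
      simp at hs
    have h3 := hv.le _ s hs
    rw [← h1] at h2 h3
    have hf0 : f ≠ 0 := left_ne_zero_of_mul h2
    have hdet := det_g_ne (C.map σ)
    rw [v.ord_mul _ _ hf0 (pow_ne_zero _ hdet), Jac.ord_pow v _ hdet,
      ord_det hlt hb hv, mul_zero, add_zero] at h3
    have h4 := hf hf0
    omega

/-- small functions vanish at the point given by the exchange of rows -/
theorem not_nv {f : K} (hf : v.Small f) (hlt : p < q) : ¬ C.NV (Matrix.swap k p q) f := by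
  rintro ⟨n, P, hP, h0⟩
  obtain ⟨Q, δ, hδ, hQ, hQs⟩ := small_poly hb hσ hv hf hP hlt
  have h1L : LowU (1 : Matrix (Fin N) (Fin N) k) :=
    ⟨fun p => Matrix.one_apply_eq p, fun p q h => Matrix.one_apply_ne h.ne⟩
  have h1U : UppU (1 : Matrix (Fin N) (Fin N) k) :=
    ⟨fun p => Matrix.one_apply_eq p, fun p q h => Matrix.one_apply_ne h.ne'⟩
  have h2 := hQ (pt B 1 1 fun _ => 1)
  rw [ldu_pt _ _ _ h1L h1U (isBl_one B) (isBl_one B), Matrix.diagonal_one, mul_one, mul_one,
    mul_one] at h2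
  have h3 : eval (pt B 1 1 fun _ => (1 : k)) Q = 0 := by
    rw [eval_eq']
    refine Finset.sum_eq_zero fun s hs => ?_
    refine mul_eq_zero_of_right _ (Finset.prod_eq_zero (Finset.mem_univ (B.ix q p hb.symm)) ?_)
    have h4 : pt B 1 1 (fun _ => (1 : k)) (B.ix q p hb.symm) = 0 := by
      simp only [pt, Blk.rw_ix, Blk.cl_ix]
      rw [if_pos hlt]
      exact Matrix.one_apply_ne (by rw [Blk.rw_ix, Blk.cl_ix]; exact hlt.ne')
    rw [h4, zero_pow]
    have := hQs s hs
    omega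
  rw [h3] at h2
  exact mul_ne_zero hδ h0 h2.symm

/-! ### fractions -/

omit hσ hv hb in
/-- quotients of regular functions, the denominator of order zero -/
def Fr (C : GC k K B) (v : DVal k K) (f : K) : Prop :=
  ∃ r s, C.Reg r ∧ C.Reg s ∧ s ≠ 0 ∧ v.ord s = 0 ∧ f * s = r

end val

section fr

variable {v : DVal k K}

theorem Fr.of_reg {f : K} (h : C.Reg f) : Fr C v f := by
  refine ⟨f, 1, h, ?_, one_ne_zero, Jac.ord_one v, mul_one f⟩
  have := reg_const C (1 : k)
  rwa [map_one] at this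

theorem Fr.zero : Fr C v 0 := by
  refine Fr.of_reg ?_
  have := reg_const C (0 : k)
  rwa [map_zero] at this

theorem Fr.one : Fr C v 1 := by
  refine Fr.of_reg ?_
  have := reg_const C (1 : k)
  rwa [map_one] at this

theorem Fr.const (c : k) : Fr C v (algebraMap k K c) := Fr.of_reg (reg_const C c)

theorem Fr.add {f f' : K} (h : Fr C v f) (h' : Fr C v f') : Fr C v (f + f') := by
  obtain ⟨r, s, hr, hs, h0, h1, h2⟩ := h
  obtain ⟨r', s', hr', hs', h0', h1', h2'⟩ := h'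
  refine ⟨r * s' + r' * s, s * s', reg_add C (reg_mul C hr hs') (reg_mul C hr' hs), reg_mul C hs hs',
    mul_ne_zero h0 h0', ?_, ?_⟩
  · rw [v.ord_mul _ _ h0 h0', h1, h1', add_zero]
  · rw [← h2, ← h2']
    ring

theorem Fr.mul {f f' : K} (h : Fr C v f) (h' : Fr C v f') : Fr C v (f * f') := by
  obtain ⟨r, s, hr, hs, h0, h1, h2⟩ := h
  obtain ⟨r', s', hr', hs', h0', h1', h2'⟩ := h'
  refine ⟨r * r', s * s', reg_mul C hr hr', reg_mul C hs hs', mul_ne_zero h0 h0', ?_, ?_⟩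
  · rw [v.ord_mul _ _ h0 h0', h1, h1', add_zero]
  · rw [← h2, ← h2']
    ring

theorem Fr.neg {f : K} (h : Fr C v f) : Fr C v (-f) := by
  have := (Fr.const (C := C) (v := v) (-1)).mul h
  rwa [map_neg, map_one, neg_one_mul] at this

theorem Fr.sub {f f' : K} (h : Fr C v f) (h' : Fr C v f') : Fr C v (f - f') := by
  rw [sub_eq_add_neg]
  exact h.add h'.neg

theorem Fr.inv {f : K} (h : Fr C v f) (h0 : f ≠ 0) (h1 : v.ord f = 0) : Fr C v f⁻¹ := by
  obtain ⟨r, s, hr, hs, hs0, hs1, h2⟩ := h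
  have hr0 : r ≠ 0 := by
    rw [← h2]
    exact mul_ne_zero h0 hs0
  refine ⟨s, r, hs, hr, hr0, ?_, ?_⟩
  · rw [← h2, v.ord_mul _ _ h0 hs0, h1, hs1, add_zero]
  · rw [← h2, inv_mul_cancel_left₀ h0]

theorem Fr.sum {ι : Type w} (S : Finset ι) (f : ι → K) (h : ∀ i ∈ S, Fr C v (f i)) :
    Fr C v (∑ i ∈ S, f i) := by
  induction S using Finset.induction_on with
  | empty => rw [Finset.sum_empty]; exact Fr.zero
  | insert a S ha ih =>
    rw [Finset.sum_insert ha]
    exact (h a (Finset.mem_insert_self _ _)).add (ih fun i hi => h i (Finset.mem_insert_of_mem hi))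

theorem Fr.pow {f : K} (h : Fr C v f) (n : ℕ) : Fr C v (f ^ n) := by
  induction n with
  | zero => rw [pow_zero]; exact Fr.one
  | succ n ih => rw [pow_succ]; exact ih.mul h

end fr

section val2

variable {σ : K ≃ₐ[k] K} (hpq : p < q) (hb : B.b p = B.b q)
  (hσ : C.IsTr (Matrix.swap k p q) 1 σ) {v : DVal k K}
  (hv : IsV (C.map σ) (B.ix q p hb.symm) v)

include hpq hσ hv

theorem fr_LDU (M : ℕ) : ∀ r : Fin N, (r : ℕ) < M → Fr C v ((C.map σ).d r) ∧
    ∀ i, Fr C v ((C.map σ).L i r) ∧ Fr C v ((C.map σ).U r i) := by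
  induction M with
  | zero => exact fun r hr => absurd hr (Nat.not_lt_zero _)
  | succ M ih =>
    intro r hr
    obtain ⟨C', hC'⟩ : ∃ C', C' = C.map σ := ⟨_, rfl⟩
    have hLU : LowU C'.L := lowU_low _
    have hUU : UppU C'.U := uppU_upp _
    have hg : ∀ i j, C'.g i j = ∑ t, C'.L i t * C'.d t * C'.U t j := by
      intro i j
      have h1 : C'.g = B.ldu C'.T := C'.hT.symm
      rw [h1, ldu_apply]
      rfl
    have hgF : ∀ i j, Fr C v (C'.g i j) := by
      intro i j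
      rw [hC', g_apply' hσ]
      exact Fr.of_reg (reg_g C _ _)
    have ih' : ∀ t : Fin N, t < r → Fr C v (C'.d t) ∧
        ∀ i, Fr C v (C'.L i t) ∧ Fr C v (C'.U t i) := by
      intro t ht
      rw [hC']
      refine ih t ?_
      rw [Fin.lt_def] at ht
      omega
    have hsum : ∀ i j, Fr C v (∑ t ∈ Finset.univ.filter (fun t => t < r),
        C'.L i t * C'.d t * C'.U t j) := by
      intro i j
      refine Fr.sum _ _ fun t ht => ?_
      rw [Finset.mem_filter] at ht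
      have h1 := ih' t ht.2
      exact ((h1.2 i).1.mul h1.1).mul (h1.2 j).2
    have hsplit : ∀ i j, (i = r ∨ j = r) → C'.g i j =
        (∑ t ∈ Finset.univ.filter (fun t => t < r), C'.L i t * C'.d t * C'.U t j) +
          C'.L i r * C'.d r * C'.U r j := by
      intro i j hij
      rw [hg, ← Finset.sum_filter_add_sum_filter_not Finset.univ (fun t => t < r)]
      congr 1
      rw [Finset.sum_eq_single r]
      · intro t ht htr
        rw [Finset.mem_filter, not_lt] at ht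
        have h1 : r < t := lt_of_le_of_ne ht.2 (Ne.symm htr)
        rcases hij with h2 | h2
        · rw [h2, hLU.2 r t h1, zero_mul, zero_mul]
        · rw [h2, hUU.2 t r h1, mul_zero]
      · intro h1
        exfalso
        apply h1
        rw [Finset.mem_filter]
        exact ⟨Finset.mem_univ _, lt_irrefl r⟩
    have hd : Fr C v (C'.d r) := by
      have h1 := hsplit r r (Or.inl rfl)
      rw [hLU.1, hUU.1, one_mul, mul_one] at h1
      have h2 := (hgF r r).sub (hsum r r)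
      rwa [h1, add_sub_cancel_left] at h2
    have hd0 : C'.d r ≠ 0 := d_ne C' r
    have hdi : Fr C v (C'.d r)⁻¹ := by
      refine hd.inv hd0 ?_
      rw [hC']
      exact ord_d hpq hb hv r
    rw [hC'] at hd
    refine ⟨hd, fun i => ⟨?_, ?_⟩⟩
    · have h1 := hsplit i r (Or.inr rfl)
      rw [hUU.1, mul_one] at h1
      have h2 := ((hgF i r).sub (hsum i r)).mul hdi
      rw [h1, add_sub_cancel_left, mul_inv_cancel_right₀ hd0, hC'] at h2
      exact h2
    · have h1 := hsplit r i (Or.inl rfl)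
      rw [hLU.1, one_mul] at h1
      have h2 := hdi.mul ((hgF r i).sub (hsum r i))
      rw [h1, add_sub_cancel_left, inv_mul_cancel_left₀ hd0, hC'] at h2
      exact h2

theorem fr_T (i : Fin (m + 1)) : Fr C v ((C.map σ).T i) := by
  have h := fun r => fr_LDU hpq hb hσ hv N r r.2
  have hix := B.ix_rw_cl i
  rcases lt_trichotomy (B.cl i) (B.rw i) with h1 | h1 | h1
  · have h2 : (C.map σ).L (B.rw i) (B.cl i) = (C.map σ).T i := by
      rw [GC.L, Blk.low, if_neg h1.ne', if_pos h1, Blk.mat, dif_pos (B.rw_cl i), hix]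
    rw [← h2]
    exact ((h (B.cl i)).2 _).1
  · have h2 : (C.map σ).d (B.rw i) = (C.map σ).T i := by
      rw [GC.d, Blk.dia]
      exact congrArg _ (eq_ix i rfl rfl h1).symm
    rw [← h2]
    exact (h (B.rw i)).1
  · have h2 : (C.map σ).U (B.rw i) (B.cl i) = (C.map σ).T i := by
      rw [GC.U, Blk.upp, if_neg h1.ne, if_pos h1, Blk.mat, dif_pos (B.rw_cl i), hix]
    rw [← h2]
    exact ((h (B.rw i)).2 _).2

theorem fr_aeval (Q : MvPolynomial (Fin (m + 1)) k) : Fr C v (aeval (C.map σ).T Q) := by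
  induction Q using MvPolynomial.induction_on with
  | C a => rw [aeval_C]; exact Fr.const a
  | add P Q hP hQ => rw [map_add]; exact hP.add hQ
  | mul_X P i hP => rw [map_mul, aeval_X]; exact hP.mul (fr_T hpq hb hσ hv i)

/-- division by the coordinate of weight one -/
theorem divide {Q : MvPolynomial (Fin (m + 1)) k} (hQ : Q ≠ 0) :
    ∃ (a : ℕ) (u : K), v.ord (aeval (C.map σ).T Q) = a ∧ Fr C v u ∧ u ≠ 0 ∧ v.ord u = 0 ∧
      aeval (C.map σ).T Q = (C.map σ).T (B.ix q p hb.symm) ^ a * u := by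
  obtain ⟨i₀, hi₀⟩ : ∃ i₀, i₀ = B.ix q p hb.symm := ⟨_, rfl⟩
  obtain ⟨s₀, hs₀, h0⟩ := hv.ex Q hQ
  rw [← hi₀] at h0 ⊢
  have h1 : Q.modMonomial (Finsupp.single i₀ (s₀ i₀)) = 0 := by
    ext s
    rw [MvPolynomial.coeff_zero]
    by_cases hs : Finsupp.single i₀ (s₀ i₀) ≤ s
    · exact coeff_modMonomial_of_le Q hs
    · rw [coeff_modMonomial_of_not_le Q hs]
      by_contra hne
      apply hs
      have h2 := hv.le Q s (mem_support_iff.2 hne)
      rw [← hi₀, h0] at h2
      rw [Finsupp.single_le_iff]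
      exact_mod_cast h2
  have h2 := divMonomial_add_modMonomial Q (Finsupp.single i₀ (s₀ i₀))
  rw [h1, add_zero] at h2
  have h3 : aeval (C.map σ).T Q = (C.map σ).T i₀ ^ (s₀ i₀) *
      aeval (C.map σ).T (Q.divMonomial (Finsupp.single i₀ (s₀ i₀))) := by
    have h7 : (Finsupp.single i₀ (s₀ i₀)).prod (fun i n => (C.map σ).T i ^ n) =
        (C.map σ).T i₀ ^ s₀ i₀ := Finsupp.prod_single_index (pow_zero _)
    conv_lhs => rw [← h2]
    rw [map_mul, aeval_monomial, map_one, one_mul, h7]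
  have h4 : aeval (C.map σ).T Q ≠ 0 := fun h =>
    hQ ((algebraicIndependent_iff.1 (ind_T (C.map σ))) _ h)
  have h5 : aeval (C.map σ).T (Q.divMonomial (Finsupp.single i₀ (s₀ i₀))) ≠ 0 := by
    rw [h3] at h4
    exact right_ne_zero_of_mul h4
  have hT := T_ne (C.map σ) i₀
  refine ⟨s₀ i₀, _, h0, fr_aeval hpq hb hσ hv _, h5, ?_, h3⟩
  have h6 := congrArg v.ord h3
  rw [v.ord_mul _ _ (pow_ne_zero _ hT) h5, Jac.ord_pow v _ hT, hv.ord_T, if_pos hi₀, h0] at h6
  omega

theorem fr_of_nonneg {f : K} (h0 : f ≠ 0) (hf : 0 ≤ v.ord f) : Fr C v f := by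
  have hmem : f ∈ IntermediateField.adjoin k (Set.range (C.map σ).T) := by
    rw [gen_T]
    exact IntermediateField.mem_top
  rw [IntermediateField.mem_adjoin_range_iff] at hmem
  obtain ⟨P, Q, hPQ⟩ := hmem
  have hP : P ≠ 0 := by
    rintro rfl
    rw [map_zero, zero_div] at hPQ
    exact h0 hPQ
  have hQ : Q ≠ 0 := by
    rintro rfl
    rw [map_zero, div_zero] at hPQ
    exact h0 hPQ
  obtain ⟨a, x, ha, hx, hx0, hx1, h1⟩ := divide hpq hb hσ hv hP
  obtain ⟨b, y, hb', hy, hy0, hy1, h2⟩ := divide hpq hb hσ hv hQ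
  have hT := T_ne (C.map σ) (B.ix q p hb.symm)
  have hP0 : aeval (C.map σ).T P ≠ 0 := by
    rw [h1]
    exact mul_ne_zero (pow_ne_zero _ hT) hx0
  have hQ0 : aeval (C.map σ).T Q ≠ 0 := by
    rw [h2]
    exact mul_ne_zero (pow_ne_zero _ hT) hy0
  have h3 : b ≤ a := by
    rw [hPQ, Ten.ord_div v _ _ hP0 hQ0, ha, hb'] at hf
    omega
  have h4 : f = (C.map σ).T (B.ix q p hb.symm) ^ (a - b) * x * y⁻¹ := by
    rw [hPQ, h1, h2]
    obtain ⟨c, rfl⟩ := Nat.exists_eq_add_of_le h3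
    rw [Nat.add_sub_cancel_left, pow_add]
    field_simp
  rw [h4]
  exact (((fr_T hpq hb hσ hv _).pow _).mul hx).mul (hy.inv hy0 hy1)

end val2

end Col

end

end Pool.Agent.MLD.Mon
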