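import Pool.Agent.Lib.MP_f23696_ag.M.Defs
import Pool.Agent.Lib.MP_f23696_ag.T.Val
import Pool.Agent.Lib.MP_f23696_ag.T.Ev

/-!
Internal vocabulary for the project MON (MP_f23696_ag): block matrices, the coordinates `L, d, U`
of the big cell of `G = ∏ GL_(n_i)`, regular functions, translations, frames, weights, the data of
an affine embedding.
-/

set_option autoImplicit false

open scoped Classical

namespace Pool.Agent.MLD.Mon

open MvPolynomial
open Pool.Agent.MLD.Ten (IsGood)

noncomputable section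

universe u v

/-! ### Blocks -/

/-- block structure of `N × N` matrices: `p, q` are in the same block iff `b p = b q`;
`Fin (m + 1)` numbers the entries of a block diagonal matrix. -/
structure Blk (N m : ℕ) where
  b : Fin N → ℕ
  mono : Monotone b
  e : Fin (m + 1) ≃ {s : Fin N × Fin N // b s.1 = b s.2}

variable {N m : ℕ}

namespace Blk

variable (B : Blk N m)

/-- the row of the entry `i` -/
def rw (i : Fin (m + 1)) : Fin N := (B.e i).1.1

/-- the column of the entry `i` -/
def cl (i : Fin (m + 1)) : Fin N := (B.e i).1.2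

theorem rw_cl (i : Fin (m + 1)) : B.b (B.rw i) = B.b (B.cl i) := (B.e i).2

/-- the number of the entry `(p, q)` -/
def ix (p q : Fin N) (h : B.b p = B.b q) : Fin (m + 1) := B.e.symm ⟨(p, q), h⟩

/-- the number of the diagonal entry `(p, p)` -/
def dx (p : Fin N) : Fin (m + 1) := B.ix p p rfl

theorem rw_ix (p q : Fin N) (h : B.b p = B.b q) : B.rw (B.ix p q h) = p := by
  simp [rw, ix]

theorem cl_ix (p q : Fin N) (h : B.b p = B.b q) : B.cl (B.ix p q h) = q := by
  simp [cl, ix]

theorem ix_rw_cl (i : Fin (m + 1)) : B.ix (B.rw i) (B.cl i) (B.rw_cl i) = i := by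
  simp [rw, cl, ix]

/-- the transposed block structure (rows and columns of the entries exchanged) -/
def tp : Blk N m where
  b := B.b
  mono := B.mono
  e := B.e.trans
    { toFun := fun s => ⟨(s.1.2, s.1.1), s.2.symm⟩
      invFun := fun s => ⟨(s.1.2, s.1.1), s.2.symm⟩
      left_inv := fun _ => rfl
      right_inv := fun _ => rfl }

variable {R : Type v} [CommRing R]

/-- the block diagonal matrix with given entries -/
def mat (y : Fin (m + 1) → R) : Matrix (Fin N) (Fin N) R :=
  fun p q => if h : B.b p = B.b q then y (B.ix p q h) else 0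

/-- the entries of a matrix -/
def vec (M : Matrix (Fin N) (Fin N) R) : Fin (m + 1) → R := fun i => M (B.rw i) (B.cl i)

/-- block diagonal matrices -/
def IsBl (M : Matrix (Fin N) (Fin N) R) : Prop := ∀ p q, B.b p ≠ B.b q → M p q = 0

/-- lower unipotent matrix with the entries of `y` below the diagonal -/
def low (y : Fin (m + 1) → R) : Matrix (Fin N) (Fin N) R :=
  fun p q => if p = q then 1 else if q < p then B.mat y p q else 0

/-- upper unipotent matrix with the entries of `y` above the diagonal -/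
def upp (y : Fin (m + 1) → R) : Matrix (Fin N) (Fin N) R :=
  fun p q => if p = q then 1 else if p < q then B.mat y p q else 0

/-- diagonal entries -/
def dia (y : Fin (m + 1) → R) : Fin N → R := fun p => y (B.dx p)

/-- the matrix `L D U` with coordinates `y` -/
def ldu (y : Fin (m + 1) → R) : Matrix (Fin N) (Fin N) R :=
  B.low y * Matrix.diagonal (B.dia y) * B.upp y

/-- `a ∈ G` -/
def IsG {k : Type u} [Field k] (a : Matrix (Fin N) (Fin N) k) : Prop := B.IsBl a ∧ a.det ≠ 0

/-- dominant weights: decreasing in each block -/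
def Dom (μ : Fin N → ℤ) : Prop := ∀ p q, p ≤ q → B.b p = B.b q → μ q ≤ μ p

/-- increasing in each block -/
def Inc (l : Fin N → ℤ) : Prop := ∀ p q, p ≤ q → B.b p = B.b q → l p ≤ l q

/-- the number of indices after `p` in the block of `p` -/
def aft (p : Fin N) : ℕ := (Finset.univ.filter fun q => p < q ∧ B.b p = B.b q).card

/-- the coefficient `ϑ_p = 1 + 2 #{q > p in the block of p}` -/
def th (p : Fin N) : ℤ := 1 + 2 * (B.aft p : ℤ)

/-! ### polynomials in the entries -/

variable {k : Type u} [Field k]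

/-- generic block diagonal matrix -/
def XX (k : Type u) [Field k] : Matrix (Fin N) (Fin N) (MvPolynomial (Fin (m + 1)) k) :=
  B.mat (X : Fin (m + 1) → MvPolynomial (Fin (m + 1)) k)

/-- `P ↦ P(a X c)` -/
def trP (a c : Matrix (Fin N) (Fin N) k) :
    MvPolynomial (Fin (m + 1)) k →ₐ[k] MvPolynomial (Fin (m + 1)) k :=
  aeval (B.vec (a.map C * B.XX k * c.map C))

/-- `P ↦ P(L D U)`, a polynomial in the coordinates of the big cell -/
def Th (k : Type u) [Field k] :
    MvPolynomial (Fin (m + 1)) k →ₐ[k] MvPolynomial (Fin (m + 1)) k :=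
  aeval (B.vec (B.ldu (X : Fin (m + 1) → MvPolynomial (Fin (m + 1)) k)))

/-- all exponents in `t` of `P(a t c)`, `t` a diagonal matrix, `a, c ∈ G(k)` -/
def EE (P : MvPolynomial (Fin (m + 1)) k) : Set (Fin N → ℤ) :=
  {κ | ∃ a c, B.IsG a ∧ B.IsG c ∧ ∃ s : Fin (m + 1) →₀ ℕ, (∀ i, B.rw i ≠ B.cl i → s i = 0) ∧
    (B.Th k (B.trP a c P)).coeff s ≠ 0 ∧ κ = fun p => (s (B.dx p) : ℤ)}

/-- diagonal exponents of a monomial in `L, d, U` -/
def dg (s : Fin (m + 1) →₀ ℕ) : Fin N → ℤ := fun p => (s (B.dx p) : ℤ)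

/-- left weight of a monomial in `L, d, U` -/
def lw (s : Fin (m + 1) →₀ ℕ) : Fin N → ℤ :=
  B.dg s + ∑ i, if B.cl i < B.rw i then
    (s i : ℤ) • (Pi.single (B.rw i) (1 : ℤ) - Pi.single (B.cl i) (1 : ℤ)) else 0

/-- right weight of a monomial in `L, d, U` -/
def rt (s : Fin (m + 1) →₀ ℕ) : Fin N → ℤ :=
  B.dg s + ∑ i, if B.rw i < B.cl i then
    (s i : ℤ) • (Pi.single (B.cl i) (1 : ℤ) - Pi.single (B.rw i) (1 : ℤ)) else 0

/-- the monomial involves only the `d_p` -/
def OnlyD (s : Fin (m + 1) →₀ ℕ) : Prop := ∀ i, B.rw i ≠ B.cl i → s i = 0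

/-- the constant term, with respect to the subgroup `Λ` of weights, of the restriction of
`P / det ^ n` to the torus -/
def lim (Λ : AddSubgroup (Fin N → ℤ)) (n : ℕ) (P : MvPolynomial (Fin (m + 1)) k) : k :=
  ∑ s ∈ (B.Th k P).support.filter fun s => B.OnlyD s ∧ (B.dg s - fun _ => (n : ℤ)) ∈ Λ,
    (B.Th k P).coeff s

end Blk

/-- A total additive preorder on the weights, compatible with the chamber of increasing
vectors. -/
structure Ord (B : Blk N m) where
  P : AddSubmonoid (Fin N → ℤ)
  total : ∀ μ, μ ∈ P ∨ -μ ∈ P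
  cham : ∀ p q, p ≤ q → B.b p = B.b q → Pi.single q (1 : ℤ) - Pi.single p (1 : ℤ) ∈ P

/-- the subgroup of the elements equivalent to zero -/
def Ord.zero {B : Blk N m} (P : Ord B) : AddSubgroup (Fin N → ℤ) where
  carrier := {μ | μ ∈ P.P ∧ -μ ∈ P.P}
  add_mem' := fun ha hb => ⟨P.P.add_mem ha.1 hb.1, by rw [neg_add]; exact P.P.add_mem ha.2 hb.2⟩
  zero_mem' := ⟨P.P.zero_mem, by rw [neg_zero]; exact P.P.zero_mem⟩
  neg_mem' := fun ha => ⟨ha.2, by rw [neg_neg]; exact ha.1⟩

/-- the order given by an increasing vector -/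
def ordOf {B : Blk N m} (l : Fin N → ℤ) (hl : B.Inc l) : Ord B where
  P :=
    { carrier := {μ | 0 ≤ l ⬝ᵥ μ}
      add_mem' := fun {a b} ha hb => by
        show 0 ≤ l ⬝ᵥ (a + b)
        rw [dotProduct_add]
        exact add_nonneg ha hb
      zero_mem' := by simp }
  total := fun μ => by
    show 0 ≤ l ⬝ᵥ μ ∨ 0 ≤ l ⬝ᵥ (-μ)
    rw [dotProduct_neg]
    omega
  cham := fun p q h hb => by
    show 0 ≤ l ⬝ᵥ (Pi.single q (1 : ℤ) - Pi.single p (1 : ℤ))
    rw [dotProduct_sub, dotProduct_single, dotProduct_single]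
    have := hl p q h hb
    linarith

/-! ### The combinatorial data of an embedding -/

/-- the weights of the semi-invariants: dominant and nonnegative for each `x q`, `q ∈ Q` -/
def GamX {ι : Type v} (B : Blk N m) (Q : Finset ι) (x : ι → Fin N → ℤ) : Set (Fin N → ℤ) :=
  {μ | B.Dom μ ∧ ∀ q ∈ Q, 0 ≤ x q ⬝ᵥ μ}

/-- all weights: all permutations in the blocks are nonnegative for each `x q`, `q ∈ Q` -/
def SX {ι : Type v} (B : Blk N m) (Q : Finset ι) (x : ι → Fin N → ℤ) : Set (Fin N → ℤ) :=
  {μ | ∀ w : Equiv.Perm (Fin N), (∀ p, B.b (w p) = B.b p) → ∀ q ∈ Q, 0 ≤ x q ⬝ᵥ (μ ∘ w)}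

/-- `p, q` are in the same block and all elements of `Z` have equal entries at `p` and `q` -/
def Flat (B : Blk N m) (Z : Set (Fin N → ℤ)) (p q : Fin N) : Prop :=
  B.b p = B.b q ∧ ∀ μ ∈ Z, μ p = μ q

/-- the dimension of the orbit belonging to the face `Z` -/
def Dr (B : Blk N m) (Z : Set (Fin N → ℤ)) : ℕ :=
  Module.finrank ℚ (Submodule.span ℚ {x : Fin N → ℚ | ∃ μ ∈ Z, x = fun i => (μ i : ℚ)}) +
    2 * (Finset.univ.filter fun s : Fin N × Fin N =>
      s.1 < s.2 ∧ B.b s.1 = B.b s.2 ∧ ¬ Flat B Z s.1 s.2).card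

/-! ### The function field of `G` -/

variable {k : Type u} {K : Type v} [Field k] [Field K] [Algebra k K]

/-- The function field `K` of `G` with the entries `y` of the generic matrix, their partial
derivatives `D` and the coordinates `T` of the big cell: `g = L(T) D(T) U(T)`. -/
structure GC (k : Type u) (K : Type v) [Field k] [Field K] [Algebra k K] (B : Blk N m) where
  y : Fin (m + 1) → K
  ind : AlgebraicIndependent k y
  gen : IntermediateField.adjoin k (Set.range y) = ⊤
  D : Fin (m + 1) → Derivation k K K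
  dual : ∀ i j, D i (y j) = if i = j then 1 else 0
  T : Fin (m + 1) → K
  hT : B.ldu T = B.mat y

variable {B : Blk N m}

namespace GC

variable (C : GC k K B)

/-- the generic matrix -/
def g : Matrix (Fin N) (Fin N) K := B.mat C.y

/-- the pivots -/
def d (p : Fin N) : K := B.dia C.T p

/-- the lower unipotent factor -/
def L : Matrix (Fin N) (Fin N) K := B.low C.T

/-- the upper unipotent factor -/
def U : Matrix (Fin N) (Fin N) K := B.upp C.T

/-- the monomial `∏ d_p ^ μ_p` -/
def dm (μ : Fin N → ℤ) : K := ∏ p, C.d p ^ μ p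

/-- the off-diagonal part of the monomial `T ^ s` -/
def off (s : Fin (m + 1) →₀ ℕ) : K := ∏ i, if B.rw i = B.cl i then 1 else C.T i ^ s i

/-- `σ` is the automorphism `g ↦ a g c` -/
def IsTr (a c : Matrix (Fin N) (Fin N) k) (σ : K ≃ₐ[k] K) : Prop :=
  B.IsG a ∧ B.IsG c ∧
    B.mat (fun i => σ (C.y i)) = a.map (algebraMap k K) * C.g * c.map (algebraMap k K)

/-- `σ` is a translation -/
def Tra (σ : K ≃ₐ[k] K) : Prop := ∃ a c, C.IsTr a c σ

/-- `f = P(g) / det(g) ^ n` -/
def PRep (f : K) (n : ℕ) (P : MvPolynomial (Fin (m + 1)) k) : Prop :=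
  f * C.g.det ^ n = aeval C.y P

/-- `f` is a regular function on `G` -/
def Reg (f : K) : Prop := ∃ n P, C.PRep f n P

/-- `f` does not vanish at `h ∈ G(k)` -/
def NV (h : Matrix (Fin N) (Fin N) k) (f : K) : Prop :=
  ∃ n P, C.PRep f n P ∧ eval (B.vec h) P ≠ 0

/-- transport of a derivation by an automorphism -/
def mapDer (σ : K ≃ₐ[k] K) (D : Derivation k K K) : Derivation k K K :=
  Derivation.mk' (σ.toLinearMap ∘ₗ (D : K →ₗ[k] K) ∘ₗ σ.symm.toLinearMap) (by
    intro a b
    show σ (D (σ.symm (a * b))) = a • σ (D (σ.symm b)) + b • σ (D (σ.symm a))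
    simp)

theorem mapDer_apply (σ : K ≃ₐ[k] K) (D : Derivation k K K) (a : K) :
    mapDer σ D a = σ (D (σ.symm a)) := rfl

theorem mat_map (f : K →+* K) (y : Fin (m + 1) → K) : B.mat (fun i => f (y i)) = (B.mat y).map f := by
  ext p q
  simp only [Blk.mat, Matrix.map_apply]
  split_ifs
  · rfl
  · rw [map_zero]

theorem ldu_map (f : K →+* K) (y : Fin (m + 1) → K) :
    B.ldu (fun i => f (y i)) = (B.ldu y).map f := by
  have h1 : B.low (fun i => f (y i)) = (B.low y).map f := by
    ext p q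
    simp only [Blk.low, Matrix.map_apply]
    split_ifs
    · rw [map_one]
    · rw [mat_map]; rfl
    · rw [map_zero]
  have h2 : B.upp (fun i => f (y i)) = (B.upp y).map f := by
    ext p q
    simp only [Blk.upp, Matrix.map_apply]
    split_ifs
    · rw [map_one]
    · rw [mat_map]; rfl
    · rw [map_zero]
  have h3 : Matrix.diagonal (B.dia fun i => f (y i)) = (Matrix.diagonal (B.dia y)).map f := by
    rw [Matrix.diagonal_map (map_zero f)]
    rfl
  rw [Blk.ldu, Blk.ldu, h1, h2, h3, Matrix.map_mul, Matrix.map_mul]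

/-- the frame moved by an automorphism -/
def map (σ : K ≃ₐ[k] K) : GC k K B where
  y := fun i => σ (C.y i)
  ind := C.ind.map' (f := σ.toAlgHom) σ.injective
  gen := by
    have h := congrArg (IntermediateField.map σ.toAlgHom) C.gen
    rw [IntermediateField.adjoin_map, ← Set.range_comp] at h
    rw [show (fun i => σ (C.y i)) = (σ.toAlgHom ∘ C.y) from rfl, h]
    ext f
    simp only [IntermediateField.mem_map, IntermediateField.mem_top, iff_true, true_and]
    exact ⟨σ.symm f, σ.apply_symm_apply f⟩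
  D := fun i => mapDer σ (C.D i)
  dual := fun i j => by
    rw [mapDer_apply, σ.symm_apply_apply, C.dual]
    split_ifs
    · rw [map_one]
    · rw [map_zero]
  T := fun i => σ (C.T i)
  hT := by
    have h1 := ldu_map (B := B) (σ : K →+* K) C.T
    have h2 := mat_map (B := B) (σ : K →+* K) C.y
    have h3 : B.ldu (fun i => σ (C.T i)) = (B.ldu C.T).map (σ : K →+* K) := h1
    have h4 : B.mat (fun i => σ (C.y i)) = (B.mat C.y).map (σ : K →+* K) := h2
    rw [h3, h4, C.hT]

theorem mat_tp {R : Type v} [CommRing R] (y : Fin (m + 1) → R) : B.tp.mat y = (B.mat y).transpose := by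
  ext p q
  simp only [Blk.mat, Matrix.transpose_apply]
  by_cases h : B.b p = B.b q
  · rw [dif_pos h.symm]
    have h' : B.tp.b p = B.tp.b q := h
    rw [dif_pos h']
    rfl
  · rw [dif_neg fun h' => h (Eq.symm h')]
    have h' : ¬ B.tp.b p = B.tp.b q := h
    rw [dif_neg h']

theorem low_tp {R : Type v} [CommRing R] (y : Fin (m + 1) → R) :
    B.tp.low y = (B.upp y).transpose := by
  ext p q
  simp only [Blk.low, Blk.upp, Matrix.transpose_apply, mat_tp, eq_comm (a := p) (b := q)]

theorem upp_tp {R : Type v} [CommRing R] (y : Fin (m + 1) → R) :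
    B.tp.upp y = (B.low y).transpose := by
  ext p q
  simp only [Blk.low, Blk.upp, Matrix.transpose_apply, mat_tp, eq_comm (a := p) (b := q)]

theorem dia_tp {R : Type v} [CommRing R] (y : Fin (m + 1) → R) : B.tp.dia y = B.dia y := rfl

/-- the transposed frame -/
def tp : GC k K B.tp where
  y := C.y
  ind := C.ind
  gen := C.gen
  D := C.D
  dual := C.dual
  T := C.T
  hT := by
    rw [mat_tp, ← C.hT, Blk.ldu, Blk.ldu, low_tp, upp_tp, dia_tp, Matrix.transpose_mul,
      Matrix.transpose_mul, Matrix.diagonal_transpose, Matrix.mul_assoc]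

end GC

/-! ### Embeddings -/

/-- `A` is the coordinate ring of a normal affine `G × G`-equivariant embedding of `G`. -/
structure IsEmb (C : GC k K B) (A : Subalgebra k K) : Prop where
  good : IsGood A
  stab : ∀ σ, C.Tra σ → ∀ f ∈ A, σ f ∈ A

/-- weights of the semi-invariants in `A` -/
def Gam (C : GC k K B) (A : Subalgebra k K) : Set (Fin N → ℤ) := {μ | B.Dom μ ∧ C.dm μ ∈ A}

/-- weights of the semi-invariants in `A` which do not vanish identically on the orbit of `V(p)`. -/
def Zof (C : GC k K B) {A : Subalgebra k K} (p : Ideal A) : Set (Fin N → ℤ) :=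
  {μ | μ ∈ Gam C A ∧ ∃ σ, C.Tra σ ∧ ∃ a : A, (a : K) = σ (C.dm μ) ∧ a ∉ p}

/-- the ideal is stable under all translations -/
def InvI (C : GC k K B) {A : Subalgebra k K} (p : Ideal A) : Prop := ∀ σ, C.Tra σ → MapsTo σ p p

/-- `V(p)` meets `G` -/
def IntrI (C : GC k K B) {A : Subalgebra k K} (p : Ideal A) : Prop :=
  ∃ h, B.IsG h ∧ ∀ a ∈ p, ¬ C.NV h (a : K)

/-- the valuations of the invariant prime divisors -/
structure XData (C : GC k K B) (A : Subalgebra k K) where
  Q : Finset (Ideal A)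
  x : Ideal A → Fin N → ℤ
  mem : ∀ q, q ∈ Q ↔ IsHeightOne q ∧ InvI C q
  mon : ∀ q ∈ Q, B.Inc (x q)
  ord : ∀ q ∈ Q, ∀ v : DVal k K, v.HasCenter A q → ∀ σ, C.Tra σ → ∀ p, v.ord (σ (C.d p)) = x q p
  gam : ∀ μ, μ ∈ Gam C A ↔ μ ∈ GamX B Q x

/-! ### Frames adapted to valuations -/

/-- the valuation ring of `v` -/
def vs (v : DVal k K) : ValuationSubring K where
  carrier := {a | v.Integral a}
  mul_mem' := fun {a b} ha hb => (Pool.Agent.MLD.Ten.ring v).mul_mem ha hb
  one_mem' := (Pool.Agent.MLD.Ten.ring v).one_mem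
  add_mem' := fun {a b} ha hb => (Pool.Agent.MLD.Ten.ring v).add_mem ha hb
  zero_mem' := (Pool.Agent.MLD.Ten.ring v).zero_mem
  neg_mem' := fun {a} ha => (Pool.Agent.MLD.Ten.ring v).neg_mem ha
  mem_or_inv_mem' := fun a => by
    by_cases ha : a = 0
    · left
      subst ha
      exact (Pool.Agent.MLD.Ten.ring v).zero_mem
    · rcases le_total 0 (v.ord a) with h | h
      · exact Or.inl fun _ => h
      · refine Or.inr fun _ => ?_
        rw [Pool.Agent.MLD.Jac.ord_inv v a ha]
        omega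

theorem mem_vs (v : DVal k K) (a : K) : a ∈ vs v ↔ v.Integral a := Iff.rfl

/-- the valuation ring `O` is centred at `p` -/
def Cen (O : ValuationSubring K) (A : Subalgebra k K) (p : Ideal A) : Prop :=
  (∀ a : A, (a : K) ∈ O) ∧ ∀ a : A, a ∈ p ↔ (a : K) = 0 ∨ (a : K)⁻¹ ∉ O

/-- `L` and `U` have entries in `O` and the orders of the pivots increase in each block -/
structure Adm (C : GC k K B) (O : ValuationSubring K) : Prop where
  const : ∀ c : k, algebraMap k K c ∈ O
  low : ∀ p q, C.L p q ∈ O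
  upp : ∀ p q, C.U p q ∈ O
  inc : ∀ p q, p ≤ q → B.b p = B.b q → C.d q / C.d p ∈ O

/-- `v` takes the values `l` at the pivots of an adapted frame, which is obtained from the frame
`C` by a translation -/
def Lam (C : GC k K B) (v : DVal k K) (l : Fin N → ℤ) : Prop :=
  ∃ σ, C.Tra σ ∧ (∀ p q, v.Integral ((C.map σ).L p q)) ∧ (∀ p q, v.Integral ((C.map σ).U p q)) ∧
    (∀ p, v.ord ((C.map σ).d p) = l p) ∧ B.Inc l

/-- `x` is the limit point with the face `Z` of the frame `C`: `f - lim f ∈ x` for `f ∈ A` -/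
def IsLim (C : GC k K B) {A : Subalgebra k K} (Z : Set (Fin N → ℤ)) (x : Ideal A) : Prop :=
  ∀ f : A, ∀ n P, C.PRep (f : K) n P → f - algebraMap k A (B.lim (AddSubgroup.closure Z) n P) ∈ x

end

end Pool.Agent.MLD.Mon
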