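import Pool.Agent.Lib.MP_f23696_ag.Defs

/-!
Definitions for equivariant embeddings of `G = ∏ GL_(n_i)` (MP_f23696_ag).

`b : Fin N → ℕ` describes the blocks of indices; `g` is the generic block diagonal matrix: its
entries `g p q`, `b p = b q`, are coordinates of `G` and generate the function field `K` of `G`.
-/

namespace Pool.Agent.MLD.Mon

universe u v

variable {k : Type u} {K : Type v} [Field k] [Field K] [Algebra k K] {N : ℕ}

/-- `a` is an element of `G(k)`: an invertible block diagonal matrix. -/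
def IsGroupElt (b : Fin N → ℕ) (a : Matrix (Fin N) (Fin N) k) : Prop :=
  (∀ p q, b p ≠ b q → a p q = 0) ∧ a.det ≠ 0

/-- `σ` is the automorphism `g ↦ a g c` of the function field of `G`, where `a, c ∈ G(k)`. -/
def IsTranslation (b : Fin N → ℕ) (g : Matrix (Fin N) (Fin N) K) (σ : K ≃ₐ[k] K) : Prop :=
  ∃ a c : Matrix (Fin N) (Fin N) k, IsGroupElt b a ∧ IsGroupElt b c ∧
    ∀ p q, σ (g p q) = (a.map (algebraMap k K) * g * c.map (algebraMap k K)) p q

/-- `σ` maps the ideal `p` of `A` onto the ideal `q`. -/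
def MapsTo {A : Subalgebra k K} (σ : K ≃ₐ[k] K) (p q : Ideal A) : Prop :=
  ∀ a c : A, (c : K) = σ a → (a ∈ p ↔ c ∈ q)

end Pool.Agent.MLD.Mon
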