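import Mathlib

set_option autoImplicit false

open scoped Classical

/-! # Lattices in `ℤ^N` -/

namespace Pool.Agent.MLD.Mon

section LAT

theorem lat_castinj {N : ℕ} {a b : Fin N → ℤ} (h : (fun i => (a i : ℚ)) = fun i => (b i : ℚ)) :
    a = b := by
  funext i
  exact_mod_cast congrFun h i

theorem lat_rows {N : ℕ} (β : Matrix (Fin N) (Fin N) ℤ) (h : β.det ≠ 0) :
    LinearIndependent ℚ fun i : Fin N => fun j => ((β i j : ℤ) : ℚ) := by
  have h1 : (β.map (Int.cast : ℤ → ℚ)).det ≠ 0 := by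
    have h2 : (β.map (Int.cast : ℤ → ℚ)).det = ((β.det : ℤ) : ℚ) := by
      have h3 := (Int.castRingHom ℚ).map_det β
      rw [RingHom.mapMatrix_apply] at h3
      exact h3.symm
    rw [h2]
    exact_mod_cast h
  exact Matrix.linearIndependent_rows_of_det_ne_zero h1

theorem lat_sat {N : ℕ} (Λ : AddSubgroup (Fin N → ℤ))
    (hs : ∀ (n : ℕ) (κ : Fin N → ℤ), 0 < n → n • κ ∈ Λ → κ ∈ Λ) :
    ∃ (β : Matrix (Fin N) (Fin N) ℤ) (I : Finset (Fin N)), IsUnit β.det ∧
      I.card = Module.finrank ℚ (Submodule.span ℚ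
        {x : Fin N → ℚ | ∃ μ ∈ Λ, x = fun i => (μ i : ℚ)}) ∧
      (∀ i ∈ I, β i ∈ Λ) ∧
      ∀ κ ∈ Λ, ∃ c : Fin N → ℤ, (∀ i ∉ I, c i = 0) ∧ κ = ∑ i, c i • β i := by
  obtain ⟨n, s⟩ := Submodule.smithNormalForm (Pi.basisFun ℤ (Fin N)) (AddSubgroup.toIntSubmodule Λ)
  have hmem : ∀ k : Fin n, s.bM (s.f k) ∈ Λ := by
    intro k
    have h1 : (s.bN k : Fin N → ℤ) = s.a k • s.bM (s.f k) := s.snf k
    have h2 : s.a k ≠ 0 := by
      intro h3
      rw [h3, zero_smul] at h1
      exact s.bN.ne_zero k (Subtype.ext h1)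
    have h3 : (s.a k) • s.bM (s.f k) ∈ Λ := by
      rw [← h1]
      exact (s.bN k).2
    refine hs (s.a k).natAbs _ (Int.natAbs_pos.mpr h2) ?_
    rcases Int.natAbs_eq (s.a k) with h4 | h4
    · rw [h4] at h3
      rwa [natCast_zsmul] at h3
    · rw [h4, neg_smul, natCast_zsmul] at h3
      exact (neg_mem_iff (H := Λ)).mp h3
  refine ⟨Matrix.of fun i => s.bM i, Finset.univ.map s.f, ?_, ?_, ?_, ?_⟩
  · have h1 := (Pi.basisFun ℤ (Fin N)).isUnit_det s.bM
    rw [Module.Basis.det_apply] at h1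
    have h2 : (Pi.basisFun ℤ (Fin N)).toMatrix s.bM = (Matrix.of fun i => s.bM i).transpose := by
      ext i j
      simp [Module.Basis.toMatrix_apply]
    rw [h2, Matrix.det_transpose] at h1
    exact h1
  · have hdet : (Matrix.of fun i => s.bM i).det ≠ 0 := by
      have h1 := (Pi.basisFun ℤ (Fin N)).isUnit_det s.bM
      rw [Module.Basis.det_apply] at h1
      have h2 : (Pi.basisFun ℤ (Fin N)).toMatrix s.bM = (Matrix.of fun i => s.bM i).transpose := by
        ext i j
        simp [Module.Basis.toMatrix_apply]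
      rw [h2, Matrix.det_transpose] at h1
      exact h1.ne_zero
    have hli := (lat_rows _ hdet).comp s.f s.f.injective
    have hspan : Submodule.span ℚ {x : Fin N → ℚ | ∃ μ ∈ Λ, x = fun i => (μ i : ℚ)} =
        Submodule.span ℚ (Set.range ((fun i : Fin N => fun j =>
          (((Matrix.of fun i => s.bM i) i j : ℤ) : ℚ)) ∘ s.f)) := by
      apply le_antisymm
      · rw [Submodule.span_le]
        rintro x ⟨μ, hμ, rfl⟩
        rw [SetLike.mem_coe]
        have h1 := s.bM.sum_repr μ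
        have h2 : ∀ i : Fin N, i ∉ Set.range s.f → s.bM.repr μ i = 0 := fun i hi =>
          s.repr_eq_zero_of_notMem_range (⟨μ, hμ⟩ : (AddSubgroup.toIntSubmodule Λ)) hi
        have h3 : (fun i => (μ i : ℚ)) = ∑ i, (s.bM.repr μ i : ℚ) • fun j => ((s.bM i j : ℤ) : ℚ) := by
          funext j
          rw [Finset.sum_apply]
          have h4 := congrFun h1 j
          rw [Finset.sum_apply] at h4
          rw [← h4, Int.cast_sum]
          refine Finset.sum_congr rfl fun i _ => ?_
          simp [Pi.smul_apply, smul_eq_mul]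
        rw [h3]
        refine Submodule.sum_mem _ fun i _ => ?_
        by_cases hi : i ∈ Set.range s.f
        · obtain ⟨k, rfl⟩ := hi
          exact Submodule.smul_mem _ _ (Submodule.subset_span ⟨k, rfl⟩)
        · rw [h2 i hi, Int.cast_zero, zero_smul]
          exact Submodule.zero_mem _
      · apply Submodule.span_mono
        rintro x ⟨k, rfl⟩
        exact ⟨s.bM (s.f k), hmem k, rfl⟩
    rw [hspan, finrank_span_eq_card hli, Finset.card_map, Finset.card_univ]
  · intro i hi
    obtain ⟨k, -, rfl⟩ := Finset.mem_map.mp hi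
    exact hmem k
  · intro κ hκ
    refine ⟨fun i => s.bM.repr κ i, ?_, (s.bM.sum_repr κ).symm⟩
    intro i hi
    refine s.repr_eq_zero_of_notMem_range (⟨κ, hκ⟩ : (AddSubgroup.toIntSubmodule Λ)) ?_
    rintro ⟨k, rfl⟩
    exact hi (Finset.mem_map_of_mem _ (Finset.mem_univ k))

theorem lat_basis {N : ℕ} (Z : Set (Fin N → ℤ)) :
    ∃ (β : Matrix (Fin N) (Fin N) ℤ) (I : Finset (Fin N)), β.det ≠ 0 ∧
      I.card = Module.finrank ℚ (Submodule.span ℚ
        {x : Fin N → ℚ | ∃ μ ∈ Z, x = fun i => (μ i : ℚ)}) ∧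
      ∀ i ∈ I, β i ∈ Z := by
  set T : Set (Fin N → ℚ) := {x : Fin N → ℚ | ∃ μ ∈ Z, x = fun i => (μ i : ℚ)} with hT
  obtain ⟨b, hbT, hbs, hbi⟩ := exists_linearIndependent ℚ T
  obtain ⟨b', hb'T, hbb', hts, hbi'⟩ := exists_linearIndepOn_id_extension hbi
    (t := T ∪ Set.range (Pi.basisFun ℚ (Fin N))) (hbT.trans Set.subset_union_left)
  have htop : ⊤ ≤ Submodule.span ℚ (Set.range ((↑) : b' → (Fin N → ℚ))) := by
    rw [Subtype.range_coe, ← (Pi.basisFun ℚ (Fin N)).span_eq]
    exact Submodule.span_le.mpr (Set.subset_union_right.trans hts)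
  let e := Module.Basis.mk hbi' htop
  have : Finite b' := hbi'.finite
  have : Fintype b' := Fintype.ofFinite b'
  have hcard : Fintype.card b' = N := by
    rw [← Module.finrank_eq_card_basis e, Module.finrank_fin_fun]
  obtain ⟨σ⟩ : Nonempty (Fin N ≃ b') := ⟨(Fintype.equivFinOfCardEq hcard).symm⟩
  have hlift : ∀ i : Fin N, ∃ μ : Fin N → ℤ, ((σ i : Fin N → ℚ)) = fun j => (μ j : ℚ) := by
    intro i
    rcases hb'T (σ i).2 with h | ⟨j, hj⟩
    · obtain ⟨μ, -, hμ⟩ := h
      exact ⟨μ, hμ⟩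
    · refine ⟨Pi.single j 1, ?_⟩
      rw [← hj]
      funext l
      rw [Pi.basisFun_apply]
      by_cases h : l = j
      · subst h
        simp
      · simp [Pi.single_eq_of_ne h]
  choose β hβ using hlift
  refine ⟨Matrix.of β, Finset.univ.filter fun i => (σ i : Fin N → ℚ) ∈ b, ?_, ?_, ?_⟩
  · intro h
    have h1 : ((Matrix.of β).map (Int.cast : ℤ → ℚ)).det = 0 := by
      have h3 := (Int.castRingHom ℚ).map_det (Matrix.of β)
      rw [RingHom.mapMatrix_apply, h, map_zero] at h3
      exact h3.symm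
    have h2 : LinearIndependent ℚ ((Matrix.of β).map (Int.cast : ℤ → ℚ)).row := by
      have h4 : ((Matrix.of β).map (Int.cast : ℤ → ℚ)).row = fun i => (σ i : Fin N → ℚ) := by
        funext i
        rw [hβ i]
        rfl
      rw [h4]
      exact hbi'.comp σ σ.injective
    have h5 := (Matrix.linearIndependent_rows_iff_isUnit).mp h2
    rw [Matrix.isUnit_iff_isUnit_det, h1] at h5
    exact not_isUnit_zero h5
  · rw [← hbs]
    have : Finite b := hbi.finite
    have : Fintype b := Fintype.ofFinite b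
    rw [finrank_span_set_eq_card hbi]
    rw [Set.toFinset_card]
    refine (Finset.card_bij (fun i hi => (⟨(σ i : Fin N → ℚ), (Finset.mem_filter.mp hi).2⟩ : b))
      (fun _ _ => Finset.mem_univ _) ?_ ?_)
    · intro i _ j _ h
      exact σ.injective (Subtype.ext (Subtype.mk.inj h))
    · rintro ⟨x, hx⟩ -
      refine ⟨σ.symm ⟨x, hbb' hx⟩, ?_, ?_⟩
      · rw [Finset.mem_filter]
        refine ⟨Finset.mem_univ _, ?_⟩
        rw [Equiv.apply_symm_apply]
        exact hx
      · apply Subtype.ext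
        simp
  · intro i hi
    obtain ⟨μ, hμ, h⟩ := hbT (Finset.mem_filter.mp hi).2
    have h1 : β i = μ := lat_castinj ((hβ i).symm.trans h)
    change β i ∈ Z
    rw [h1]
    exact hμ

theorem span_closure {N : ℕ} (Z : Set (Fin N → ℤ)) :
    Submodule.span ℚ {x : Fin N → ℚ | ∃ μ ∈ AddSubgroup.closure Z, x = fun i => (μ i : ℚ)} =
      Submodule.span ℚ {x : Fin N → ℚ | ∃ μ ∈ Z, x = fun i => (μ i : ℚ)} := by
  apply le_antisymm
  · rw [Submodule.span_le]
    rintro x ⟨μ, hμ, rfl⟩
    rw [SetLike.mem_coe]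
    induction hμ using AddSubgroup.closure_induction with
    | mem μ hμ => exact Submodule.subset_span ⟨μ, hμ, rfl⟩
    | zero =>
      have := Submodule.zero_mem (Submodule.span ℚ {x : Fin N → ℚ | ∃ μ ∈ Z, x = fun i => (μ i : ℚ)})
      convert this using 1
      funext i
      simp
    | add μ ν _ _ h1 h2 =>
      have := Submodule.add_mem _ h1 h2
      convert this using 1
      funext i
      simp
    | neg μ _ h1 =>
      have := Submodule.neg_mem _ h1
      convert this using 1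
      funext i
      simp
  · apply Submodule.span_mono
    rintro x ⟨μ, hμ, rfl⟩
    exact ⟨μ, AddSubgroup.subset_closure hμ, rfl⟩

end LAT

end Pool.Agent.MLD.Mon
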