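import Pool.Agent.Lib.MP_f23696_ag.M.Lin
import Pool.Agent.Lib.MP_f23696_ag.M.Tra
import Pool.Agent.Lib.MP_f23696_ag.M.Vdm
import Pool.Agent.Lib.MP_f23696_ag.M.Reg

/-!
Module LIE of MON (MP_f23696_ag): the infinitesimal action of a lower unipotent root subgroup and
the regular functions `d ^ μ · (L diag(μ) L⁻¹)_pq`.
-/

set_option autoImplicit false

open scoped Classical

namespace Pool.Agent.MLD.Mon

open MvPolynomial
open Pool.Agent.MLD.Ten (IsGood)

noncomputable section

universe u v w

variable {N m : ℕ} {B : Blk N m} {k : Type u} {K : Type v} [Field k] [Field K] [Algebra k K]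

namespace Lie

/-- Leibniz rule for matrices -/
theorem map_mul (Y : Derivation k K K) (M M' : Matrix (Fin N) (Fin N) K) :
    (M * M').map Y = M.map Y * M' + M * M'.map Y := by
  ext p q
  simp only [Matrix.map_apply, Matrix.mul_apply, Matrix.add_apply, map_sum, Derivation.leibniz,
    smul_eq_mul, Finset.sum_add_distrib]
  rw [add_comm]
  congr 1
  exact Finset.sum_congr rfl fun r _ => mul_comm _ _

/-- logarithmic derivative of a monomial -/
theorem prod_zpow (Y : Derivation k K K) {ι : Type} (s : Finset ι) (a : ι → K) (μ : ι → ℤ)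
    (ρ : ι → K) (ha : ∀ i ∈ s, a i ≠ 0) (hρ : ∀ i ∈ s, Y (a i) = a i * ρ i) :
    Y (∏ i ∈ s, a i ^ μ i) = (∏ i ∈ s, a i ^ μ i) * ∑ i ∈ s, (μ i : K) * ρ i := by
  induction s using Finset.induction_on with
  | empty => simp
  | insert i s hi ih =>
    rw [Finset.prod_insert hi, Finset.sum_insert hi, Derivation.leibniz,
      ih (fun j hj => ha j (Finset.mem_insert_of_mem hj))
        (fun j hj => hρ j (Finset.mem_insert_of_mem hj)), Derivation.leibniz_zpow,
      hρ i (Finset.mem_insert_self i s)]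
    have h0 := ha i (Finset.mem_insert_self i s)
    have h1 : a i ^ μ i = a i ^ (μ i - 1) * a i := by
      rw [← zpow_add_one₀ h0, sub_add_cancel]
    simp only [smul_eq_mul, zsmul_eq_mul]
    rw [h1]
    ring

variable (C : GC k K B)

/-- the direction `e_qp g` -/
def z (p q : Fin N) (i : Fin (m + 1)) : K := (Matrix.single q p (1 : K) * C.g) (B.rw i) (B.cl i)

/-- the derivation `g ↦ e_qp g` -/
def Y (p q : Fin N) : Derivation k K K := ∑ i, z C p q i • C.D i

theorem Y_apply (p q : Fin N) (a : K) : Y C p q a = ∑ i, z C p q i * C.D i a := by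
  rw [Y]
  have : ∀ s : Finset (Fin (m + 1)), (∑ i ∈ s, z C p q i • C.D i : Derivation k K K) a =
      ∑ i ∈ s, z C p q i * C.D i a := by
    intro s
    induction s using Finset.induction_on with
    | empty => simp
    | insert i s hi ih =>
      rw [Finset.sum_insert hi, Finset.sum_insert hi, Derivation.add_apply, ih,
        Derivation.smul_apply, smul_eq_mul]
  exact this _

theorem Y_y (p q : Fin N) (j : Fin (m + 1)) : Y C p q (C.y j) = z C p q j := by
  rw [Y_apply, Finset.sum_eq_single j]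
  · rw [C.dual, if_pos rfl, mul_one]
  · intro i _ hij
    rw [C.dual, if_neg hij, mul_zero]
  · intro h
    exact absurd (Finset.mem_univ j) h

theorem g_apply_of_ne {r s : Fin N} (h : B.b r ≠ B.b s) : C.g r s = 0 := by
  rw [GC.g, Blk.mat, dif_neg h]

theorem g_apply_of_eq {r s : Fin N} (h : B.b r = B.b s) : C.g r s = C.y (B.ix r s h) := by
  rw [GC.g, Blk.mat, dif_pos h]

theorem Eg_apply (p q r s : Fin N) :
    (Matrix.single q p (1 : K) * C.g) r s = if q = r then C.g p s else 0 := by
  rw [Matrix.mul_apply]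
  rw [Finset.sum_eq_single p]
  · rw [Matrix.single_apply]
    by_cases h : q = r
    · rw [if_pos ⟨h, rfl⟩, if_pos h, one_mul]
    · rw [if_neg fun h' => h h'.1, if_neg h, zero_mul]
  · intro t _ ht
    rw [Matrix.single_apply, if_neg fun h' => ht h'.2.symm, zero_mul]
  · intro h
    exact absurd (Finset.mem_univ p) h

theorem Y_g {p q : Fin N} (hb : B.b p = B.b q) :
    C.g.map (Y C p q) = Matrix.single q p (1 : K) * C.g := by
  ext r s
  rw [Matrix.map_apply]
  by_cases h : B.b r = B.b s
  · rw [g_apply_of_eq C h, Y_y, z, B.rw_ix, B.cl_ix]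
  · rw [g_apply_of_ne C h, map_zero, Eg_apply]
    by_cases h' : q = r
    · subst h'
      rw [if_pos rfl, g_apply_of_ne C (fun h'' => h (hb.symm.trans h''))]
    · rw [if_neg h']

/-! ### triangular matrices -/

theorem L_lt {r s : Fin N} (h : r < s) : C.L r s = 0 := by
  rw [GC.L, Blk.low, if_neg h.ne, if_neg (not_lt.mpr h.le)]

theorem L_self (r : Fin N) : C.L r r = 1 := by
  rw [GC.L, Blk.low, if_pos rfl]

theorem U_lt {r s : Fin N} (h : s < r) : C.U r s = 0 := by
  rw [GC.U, Blk.upp, if_neg h.ne', if_neg (not_lt.mpr h.le)]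

theorem U_self (r : Fin N) : C.U r r = 1 := by
  rw [GC.U, Blk.upp, if_pos rfl]

theorem det_L : C.L.det = 1 := det_low B C.T

theorem det_U : C.U.det = 1 := det_upp B C.T

theorem U_inv_lt {r s : Fin N} (h : s < r) : C.U⁻¹ r s = 0 := by
  have hu : IsUnit C.U.det := by rw [det_U]; exact isUnit_one
  let _ := C.U.invertibleOfIsUnitDet hu
  have h1 : Matrix.BlockTriangular C.U (id : Fin N → Fin N) := fun i j hij => U_lt C hij
  exact Matrix.blockTriangular_inv_of_blockTriangular h1 h

theorem L_inv_lt {r s : Fin N} (h : r < s) : C.L⁻¹ r s = 0 := by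
  have hu : IsUnit C.L.det := by rw [det_L]; exact isUnit_one
  let _ := C.L.invertibleOfIsUnitDet hu
  have h1 : Matrix.BlockTriangular C.L (OrderDual.toDual : Fin N → (Fin N)ᵒᵈ) :=
    fun i j hij => L_lt C hij
  exact Matrix.blockTriangular_inv_of_blockTriangular h1 h

theorem LL : C.L * C.L⁻¹ = 1 := Matrix.mul_nonsing_inv _ (by rw [det_L]; exact isUnit_one)

theorem LL' : C.L⁻¹ * C.L = 1 := Matrix.nonsing_inv_mul _ (by rw [det_L]; exact isUnit_one)

theorem UU : C.U * C.U⁻¹ = 1 := Matrix.mul_nonsing_inv _ (by rw [det_U]; exact isUnit_one)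

/-- the derivative of the pivots -/
theorem Y_d {p q : Fin N} (hb : B.b p = B.b q) (r : Fin N) :
    Y C p q (C.d r) = C.d r * (C.L⁻¹ r q * C.L p r) := by
  have h1 := Y_g C hb
  rw [g_eq, map_mul, map_mul] at h1
  have h2 : C.L⁻¹ * (((C.L.map (Y C p q) * Matrix.diagonal C.d +
      C.L * (Matrix.diagonal C.d).map (Y C p q)) * C.U +
        C.L * Matrix.diagonal C.d * C.U.map (Y C p q))) * C.U⁻¹ =
      C.L⁻¹ * (Matrix.single q p (1 : K) * (C.L * Matrix.diagonal C.d * C.U)) * C.U⁻¹ := by
    rw [h1]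
  have h3 : C.L⁻¹ * (((C.L.map (Y C p q) * Matrix.diagonal C.d +
      C.L * (Matrix.diagonal C.d).map (Y C p q)) * C.U +
        C.L * Matrix.diagonal C.d * C.U.map (Y C p q))) * C.U⁻¹ =
      C.L⁻¹ * C.L.map (Y C p q) * Matrix.diagonal C.d * (C.U * C.U⁻¹) +
      (C.L⁻¹ * C.L) * (Matrix.diagonal C.d).map (Y C p q) * (C.U * C.U⁻¹) +
      (C.L⁻¹ * C.L) * Matrix.diagonal C.d * (C.U.map (Y C p q) * C.U⁻¹) := by
    simp only [Matrix.mul_add, Matrix.add_mul, Matrix.mul_assoc]
  have h4 : C.L⁻¹ * (Matrix.single q p (1 : K) * (C.L * Matrix.diagonal C.d * C.U)) * C.U⁻¹ =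
      C.L⁻¹ * Matrix.single q p (1 : K) * C.L * Matrix.diagonal C.d * (C.U * C.U⁻¹) := by
    simp only [Matrix.mul_assoc]
  rw [h3, h4, LL', UU, Matrix.mul_one, Matrix.mul_one, Matrix.mul_one, Matrix.one_mul,
    Matrix.one_mul] at h2
  have h5 := congrFun (congrFun h2 r) r
  rw [Matrix.add_apply, Matrix.add_apply, Matrix.mul_diagonal, Matrix.mul_diagonal,
    Matrix.diagonal_mul, Matrix.map_apply, Matrix.diagonal_apply_eq] at h5
  have h6 : (C.L⁻¹ * C.L.map (Y C p q)) r r = 0 := by
    rw [Matrix.mul_apply]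
    refine Finset.sum_eq_zero fun s _ => ?_
    rcases lt_or_ge r s with h | h
    · rw [L_inv_lt C h, zero_mul]
    · rw [Matrix.map_apply]
      rcases h.lt_or_eq with h' | h'
      · rw [L_lt C h', map_zero, mul_zero]
      · subst h'
        rw [L_self, Derivation.map_one_eq_zero, mul_zero]
  have h7 : (C.U.map (Y C p q) * C.U⁻¹) r r = 0 := by
    rw [Matrix.mul_apply]
    refine Finset.sum_eq_zero fun s _ => ?_
    rcases lt_or_ge r s with h | h
    · rw [U_inv_lt C h, mul_zero]
    · rw [Matrix.map_apply]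
      rcases h.lt_or_eq with h' | h'
      · rw [U_lt C h', map_zero, zero_mul]
      · subst h'
        rw [U_self, Derivation.map_one_eq_zero, zero_mul]
  have h8 : (C.L⁻¹ * Matrix.single q p (1 : K) * C.L) r r = C.L⁻¹ r q * C.L p r := by
    rw [Matrix.mul_apply, Finset.sum_eq_single p]
    · congr 1
      rw [Matrix.mul_apply, Finset.sum_eq_single q]
      · rw [Matrix.single_apply, if_pos ⟨rfl, rfl⟩, mul_one]
      · intro t _ ht
        rw [Matrix.single_apply, if_neg fun h' => ht h'.1.symm, mul_zero]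
      · intro h
        exact absurd (Finset.mem_univ q) h
    · intro t _ ht
      have : (C.L⁻¹ * Matrix.single q p (1 : K)) r t = 0 := by
        rw [Matrix.mul_apply]
        refine Finset.sum_eq_zero fun s _ => ?_
        rw [Matrix.single_apply, if_neg fun h' => ht h'.2.symm, mul_zero]
      rw [this, zero_mul]
    · intro h
      exact absurd (Finset.mem_univ p) h
  rw [h6, h7, h8, zero_mul, zero_add, mul_zero, add_zero] at h5
  rw [h5, mul_comm]

theorem Y_dm {p q : Fin N} (hb : B.b p = B.b q) (μ : Fin N → ℤ) :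
    Y C p q (C.dm μ) =
      C.dm μ * (C.L * Matrix.diagonal (fun r => (μ r : K)) * C.L⁻¹) p q := by
  rw [GC.dm, prod_zpow (Y C p q) Finset.univ C.d μ (fun r => C.L⁻¹ r q * C.L p r)
    (fun r _ => d_ne C r) (fun r _ => Y_d C hb r)]
  congr 1
  rw [Matrix.mul_apply]
  refine Finset.sum_congr rfl fun r _ => ?_
  rw [Matrix.mul_diagonal]
  ring

theorem Y_det {p q : Fin N} (hqp : q < p) (hb : B.b p = B.b q) : Y C p q C.g.det = 0 := by
  have h1 : C.g.det = C.dm 1 := by
    rw [det_g, GC.dm]
    exact Finset.prod_congr rfl fun r _ => by rw [Pi.one_apply, zpow_one]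
  rw [h1, Y_dm C hb]
  have h2 : (Matrix.diagonal (fun r => (((1 : Fin N → ℤ) r : ℤ) : K)) :
      Matrix (Fin N) (Fin N) K) = 1 := by
    rw [← Matrix.diagonal_one]
    congr 1
    ext r
    rw [Pi.one_apply, Int.cast_one]
  rw [h2, Matrix.mul_one, LL, Matrix.one_apply_ne hqp.ne', mul_zero]

/-! ### the one parameter group `g ↦ (1 + ε e_qp) g` -/

/-- `P(g + T e_qp g)` as a polynomial in `T` -/
def Ps (p q : Fin N) : MvPolynomial (Fin (m + 1)) k →ₐ[k] Polynomial K :=
  aeval fun i => Polynomial.C (C.y i) + Polynomial.C (z C p q i) * Polynomial.X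

theorem coeff_Ps (p q : Fin N) (P : MvPolynomial (Fin (m + 1)) k) :
    (Ps C p q P).coeff 0 = aeval C.y P ∧ (Ps C p q P).coeff 1 = Y C p q (aeval C.y P) := by
  induction P using MvPolynomial.induction_on with
  | C a =>
    rw [Ps, MvPolynomial.aeval_C, MvPolynomial.aeval_C, Polynomial.algebraMap_apply,
      Polynomial.coeff_C_zero, Polynomial.coeff_C, if_neg one_ne_zero,
      Derivation.map_algebraMap]
    exact ⟨rfl, rfl⟩
  | add P Q hP hQ =>
    rw [_root_.map_add, Polynomial.coeff_add, Polynomial.coeff_add, _root_.map_add, _root_.map_add,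
      hP.1, hP.2, hQ.1, hQ.2]
    exact ⟨rfl, rfl⟩
  | mul_X P i hP =>
    have h1 : Ps C p q (X i) =
        Polynomial.C (C.y i) + Polynomial.C (z C p q i) * Polynomial.X := by
      rw [Ps, aeval_X]
    have h2 : (Ps C p q (X i)).coeff 0 = C.y i := by
      rw [h1]
      simp
    have h3 : (Ps C p q (X i)).coeff 1 = z C p q i := by
      rw [h1]
      simp [Polynomial.coeff_C]
    rw [_root_.map_mul, Polynomial.mul_coeff_zero, Polynomial.mul_coeff_one, h2, h3, hP.1, hP.2,
      _root_.map_mul, aeval_X, Derivation.leibniz, Y_y, smul_eq_mul, smul_eq_mul]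
    exact ⟨rfl, by ring⟩

/-- the group element `1 + ε e_qp` -/
def el (k : Type u) [Field k] (p q : Fin N) (ε : k) : Matrix (Fin N) (Fin N) k :=
  Matrix.transvection q p ε

theorem isG_el {p q : Fin N} (hqp : q < p) (hb : B.b p = B.b q) (ε : k) : B.IsG (el k p q ε) := by
  refine ⟨fun r s h => ?_, ?_⟩
  · rw [el, Matrix.transvection, Matrix.add_apply, Matrix.single_apply, Matrix.one_apply_ne,
      zero_add, if_neg]
    · rintro ⟨rfl, rfl⟩
      exact h hb.symm
    · rintro rfl
      exact h rfl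
  · rw [el, Matrix.det_transvection_of_ne q p hqp.ne]
    exact one_ne_zero

theorem tr_y {p q : Fin N} (ε : k) {σ : K ≃ₐ[k] K}
    (hσ : C.IsTr (el k p q ε) 1 σ) (i : Fin (m + 1)) :
    σ (C.y i) = C.y i + z C p q i * algebraMap k K ε := by
  have h1 := congrFun (congrFun hσ.2.2 (B.rw i)) (B.cl i)
  rw [Blk.mat, dif_pos (B.rw_cl i), B.ix_rw_cl] at h1
  rw [h1]
  have h2 : (el k p q ε).map (algebraMap k K) = 1 + algebraMap k K ε • Matrix.single q p (1 : K) := by
    ext r s
    rw [el, Matrix.transvection, Matrix.map_apply, Matrix.add_apply, Matrix.add_apply,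
      Matrix.smul_apply, Matrix.single_apply, Matrix.single_apply, Matrix.one_apply,
      Matrix.one_apply, _root_.map_add]
    split_ifs <;> simp
  have h3 : (1 : Matrix (Fin N) (Fin N) k).map (algebraMap k K) = 1 := by
    rw [Matrix.map_one _ (map_zero _) (map_one _)]
  rw [h2, h3, Matrix.mul_one, Matrix.add_mul, Matrix.one_mul, Matrix.add_apply, Matrix.smul_mul,
    Matrix.smul_apply, smul_eq_mul, z, GC.g, Blk.mat, dif_pos (B.rw_cl i), B.ix_rw_cl, mul_comm]

theorem tr_det {p q : Fin N} (hqp : q < p) (ε : k) {σ : K ≃ₐ[k] K}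
    (hσ : C.IsTr (el k p q ε) 1 σ) : σ C.g.det = C.g.det := by
  have h1 := GC.mat_map (B := B) (σ : K →+* K) C.y
  have h2 : B.mat (fun i => σ (C.y i)) = C.g.map (σ : K →+* K) := h1
  have h3 := hσ.2.2
  rw [h2] at h3
  have h4 : (C.g.map (σ : K →+* K)).det = σ C.g.det := by
    have := RingHom.map_det (σ : K →+* K) C.g
    exact this.symm
  have h5 : ((el k p q ε).map (algebraMap k K)).det = 1 := by
    have := RingHom.map_det (algebraMap k K) (el k p q ε)
    rw [el, Matrix.det_transvection_of_ne q p hqp.ne, map_one] at this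
    exact this.symm
  rw [← h4, h3, Matrix.det_mul, Matrix.det_mul, h5, one_mul,
    Matrix.map_one _ (map_zero _) (map_one _), Matrix.det_one, mul_one]

theorem tr_eval {p q : Fin N} (ε : k) {σ : K ≃ₐ[k] K}
    (hσ : C.IsTr (el k p q ε) 1 σ) (P : MvPolynomial (Fin (m + 1)) k) :
    σ (aeval C.y P) = (Ps C p q P).eval (algebraMap k K ε) := by
  induction P using MvPolynomial.induction_on with
  | C a =>
    rw [Ps, MvPolynomial.aeval_C, MvPolynomial.aeval_C, Polynomial.algebraMap_apply,
      Polynomial.eval_C]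
    exact σ.commutes a
  | add P Q hP hQ =>
    rw [_root_.map_add, _root_.map_add, _root_.map_add, Polynomial.eval_add, hP, hQ]
  | mul_X P i hP =>
    rw [_root_.map_mul, _root_.map_mul, _root_.map_mul, Polynomial.eval_mul, hP, aeval_X, Ps,
      aeval_X, tr_y C ε hσ]
    simp

end Lie

variable [IsAlgClosed k] [CharZero k] {C : GC k K B} {A : Subalgebra k K}

theorem rreg (hA : IsEmb C A) {μ : Fin N → ℤ} (hμ : μ ∈ Gam C A) {p q : Fin N} (hqp : q < p)
    (hb : B.b p = B.b q) :
    C.dm μ * (C.L * Matrix.diagonal (fun r => (μ r : K)) * C.L⁻¹) p q ∈ A := by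
  rw [← Lie.Y_dm C hb]
  obtain ⟨n, P, hP⟩ := emb_reg hA (C.dm μ) hμ.2
  have hP' : C.dm μ * C.g.det ^ n = aeval C.y P := hP
  have hD : C.g.det ^ n ≠ 0 := pow_ne_zero _ (det_g_ne C)
  set F := Lie.Ps C p q P with hF
  -- the derivative
  have h1 : Lie.Y C p q (C.dm μ) = F.coeff 1 / C.g.det ^ n := by
    rw [eq_div_iff hD, (Lie.coeff_Ps C p q P).2, ← hP', Derivation.leibniz,
      Derivation.leibniz_pow, Lie.Y_det C hqp hb]
    simp only [smul_eq_mul]
    ring
  -- the translates
  have h2 : ∀ ε : k, F.eval (algebraMap k K ε) / C.g.det ^ n ∈ A := by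
    intro ε
    obtain ⟨σ, hσ⟩ := exists_tr C (Lie.isG_el (B := B) hqp hb ε) (isG_one (B := B) (k := k))
    have h3 := hA.stab σ ⟨_, _, hσ⟩ _ hμ.2
    have h4 : σ (C.dm μ) = F.eval (algebraMap k K ε) / C.g.det ^ n := by
      rw [eq_div_iff hD, hF, ← Lie.tr_eval C ε hσ, ← hP', _root_.map_mul, map_pow,
        Lie.tr_det C hqp ε hσ]
    rw [← h4]
    exact h3
  have : Infinite k := inferInstance
  let j : ℕ → (Unit → ℕ) := fun i _ => i
  have hj : Function.Injective j := fun a b h => congrFun h ()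
  have h5 := vdm (Subalgebra.toSubmodule A) ((Finset.range (F.natDegree + 2)).image j)
    (fun α => F.coeff (α ()) / C.g.det ^ n) (fun t _ => by
      rw [Finset.sum_image fun a _ b _ h => hj h]
      have h6 : ∑ i ∈ Finset.range (F.natDegree + 2),
          (∏ l : Unit, t l ^ j i l) • (F.coeff (j i ()) / C.g.det ^ n) =
          F.eval (algebraMap k K (t ())) / C.g.det ^ n := by
        rw [Polynomial.eval_eq_sum_range' (show F.natDegree < F.natDegree + 2 by omega),
          Finset.sum_div]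
        refine Finset.sum_congr rfl fun i _ => ?_
        rw [Fintype.prod_unique, Algebra.smul_def, map_pow]
        show algebraMap k K (t ()) ^ i * (F.coeff i / C.g.det ^ n) = _
        ring
      rw [h6]
      exact h2 (t ()))
  have h7 := h5 (j 1) (Finset.mem_image_of_mem j (Finset.mem_range.mpr (by omega)))
  rw [h1]
  exact h7

end

end Pool.Agent.MLD.Mon
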