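import Pool.Agent.Lib.MP_f23696_ag.M.Cb
import Pool.Agent.Lib.MP_f23696_ag.M.Lat
import Pool.Agent.Lib.MP_f23696_ag.M.Jac
import Pool.Agent.Lib.MP_f23696_ag.M.Lie
import Pool.Agent.Lib.MP_f23696_ag.JacLog

/-!
Lower bounds for the order of the top form along a valuation (module GE of the project MON).
-/

set_option autoImplicit false

open scoped Classical

namespace Pool.Agent.MLD.Mon

open MvPolynomial
open Pool.Agent.MLD.Ten (IsGood)

noncomputable section

universe u v w

variable {N m : ℕ} {B : Blk N m} {k : Type u} {K : Type v} [Field k] [Field K] [Algebra k K]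

section GE

namespace Ge

open Pool.Agent.MLD.Jac

/-! ### Index sets -/

theorem ext_ix {i l : Fin (m + 1)} (h1 : B.rw l = B.rw i) (h2 : B.cl l = B.cl i) : l = i := by
  apply B.e.injective
  exact Subtype.ext (Prod.ext h1 h2)

theorem sum_ix (F : Fin N → Fin N → ℤ) :
    ∑ i, F (B.rw i) (B.cl i) = ∑ p, ∑ q, if B.b p = B.b q then F p q else 0 := by
  have h1 : ∑ i, F (B.rw i) (B.cl i) =
      ∑ s : {s : Fin N × Fin N // B.b s.1 = B.b s.2}, F s.1.1 s.1.2 :=
    Fintype.sum_equiv B.e _ _ fun _ => rfl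
  rw [h1, ← Fintype.sum_prod_type' (f := fun p q => if B.b p = B.b q then F p q else 0)]
  rw [← Finset.sum_filter, ← Finset.sum_subtype (p := fun s : Fin N × Fin N => B.b s.1 = B.b s.2)
    (Finset.univ.filter fun s : Fin N × Fin N => B.b s.1 = B.b s.2) (by simp)
    (fun s : Fin N × Fin N => F s.1 s.2)]

theorem sum_w (lam : Fin N → ℤ) (S : Fin N → Fin N → Prop) :
    ∑ i, (if B.rw i = B.cl i then lam (B.rw i) else if B.rw i < B.cl i then
      (if S (B.rw i) (B.cl i) then 1 else 0) else (if S (B.cl i) (B.rw i) then 1 else 0)) =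
    ∑ p, lam p + 2 * ((Finset.univ.filter fun s : Fin N × Fin N =>
      s.1 < s.2 ∧ B.b s.1 = B.b s.2 ∧ S s.1 s.2).card : ℤ) := by
  rw [sum_ix (B := B) fun p q => if p = q then lam p else if p < q then
      (if S p q then 1 else 0) else (if S q p then 1 else 0)]
  have h1 : ∀ p q, (if B.b p = B.b q then (if p = q then lam p else if p < q then
      (if S p q then 1 else 0) else (if S q p then 1 else 0)) else 0) =
      (if p = q then lam p else 0) + (if p < q ∧ B.b p = B.b q ∧ S p q then (1 : ℤ) else 0) +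
      (if q < p ∧ B.b q = B.b p ∧ S q p then (1 : ℤ) else 0) := by
    intro p q
    rcases lt_trichotomy p q with h | h | h
    · have h2 : ¬ q < p := by omega
      by_cases hb : B.b p = B.b q
      · by_cases hS : S p q <;> simp [hb, h.ne, h, h2, hS]
      · simp [hb, h.ne, h2]
    · subst h
      simp
    · have h2 : ¬ p < q := by omega
      by_cases hb : B.b p = B.b q
      · by_cases hS : S q p <;> simp [hb, h.ne', h, h2, hS]
      · simp [hb, Ne.symm hb, h.ne', h2]
  rw [Finset.sum_congr rfl fun p _ => Finset.sum_congr rfl fun q _ => h1 p q]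
  simp only [Finset.sum_add_distrib]
  have h3 : ∑ p, ∑ q, (if p < q ∧ B.b p = B.b q ∧ S p q then (1 : ℤ) else 0) =
      ((Finset.univ.filter fun s : Fin N × Fin N =>
      s.1 < s.2 ∧ B.b s.1 = B.b s.2 ∧ S s.1 s.2).card : ℤ) := by
    rw [← Fintype.sum_prod_type' (f := fun p q => if p < q ∧ B.b p = B.b q ∧ S p q then (1 : ℤ) else 0),
      Finset.card_filter]
    push_cast
    rfl
  have h4 : ∑ p, ∑ q, (if q < p ∧ B.b q = B.b p ∧ S q p then (1 : ℤ) else 0) =
      ∑ p, ∑ q, (if p < q ∧ B.b p = B.b q ∧ S p q then (1 : ℤ) else 0) := Finset.sum_comm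
  rw [h4, h3]
  simp only [Finset.sum_ite_eq, Finset.mem_univ, if_true]
  ring

/-! ### Derivatives of conjugates of diagonal matrices -/

theorem map_mul (D : Derivation k K K) (X Y : Matrix (Fin N) (Fin N) K) :
    (X * Y).map D = X.map D * Y + X * Y.map D := by
  ext p q
  simp only [Matrix.map_apply, Matrix.mul_apply, Matrix.add_apply, map_sum, Derivation.leibniz,
    smul_eq_mul]
  rw [← Finset.sum_add_distrib]
  refine Finset.sum_congr rfl fun s _ => ?_
  ring

theorem map_diag (D : Derivation k K K) (μ : Fin N → ℤ) :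
    (Matrix.diagonal fun r => (μ r : K)).map D = 0 := by
  ext p q
  rw [Matrix.map_apply, Matrix.diagonal_apply]
  split_ifs
  · rw [Derivation.map_intCast]; rfl
  · rw [map_zero]; rfl

theorem der_R (D : Derivation k K K) (L Li : Matrix (Fin N) (Fin N) K) (h : L * Li = 1)
    (μ : Fin N → ℤ) : (L * Matrix.diagonal (fun r => (μ r : K)) * Li).map D =
      L.map D * Matrix.diagonal (fun r => (μ r : K)) * Li -
        L * Matrix.diagonal (fun r => (μ r : K)) * Li * L.map D * Li := by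
  have h' : Li * L = 1 := mul_eq_one_comm.1 h
  have h1 : (1 : Matrix (Fin N) (Fin N) K).map D = 0 := by
    have := map_diag (N := N) (K := K) D fun _ => 1
    simpa using this
  have h2 : L.map D * Li + L * Li.map D = 0 := by
    rw [← map_mul, h, h1]
  have h3 : Li.map D = -(Li * L.map D * Li) := by
    have : L * Li.map D = -(L.map D * Li) := by
      rw [eq_neg_iff_add_eq_zero, add_comm]; exact h2
    calc Li.map D = Li * (L * Li.map D) := by rw [← Matrix.mul_assoc, h', Matrix.one_mul]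
      _ = _ := by rw [this, Matrix.mul_neg, Matrix.mul_assoc]
  rw [map_mul, map_mul, map_diag, h3]
  simp only [Matrix.mul_zero, add_zero, Matrix.mul_neg, Matrix.mul_assoc, sub_eq_add_neg]

/-- lower unipotent -/
structure LU (L : Matrix (Fin N) (Fin N) K) : Prop where
  low : ∀ p q, p < q → L p q = 0
  one : ∀ p, L p p = 1

theorem LU.det {L : Matrix (Fin N) (Fin N) K} (h : LU L) : L.det = 1 := by
  rw [Matrix.det_of_lowerTriangular L fun p q hpq => h.low p q hpq]
  exact Finset.prod_eq_one fun p _ => h.one p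

theorem LU.mul_inv {L : Matrix (Fin N) (Fin N) K} (h : LU L) : L * L⁻¹ = 1 :=
  Matrix.mul_nonsing_inv L (by rw [h.det]; exact isUnit_one)

theorem LU.inv {L : Matrix (Fin N) (Fin N) K} (h : LU L) : LU L⁻¹ := by
  have hinv : Invertible L := Matrix.invertibleOfIsUnitDet L (by rw [h.det]; exact isUnit_one)
  have h1 : ∀ p q, p < q → L⁻¹ p q = 0 := by
    have hb : L.BlockTriangular (OrderDual.toDual : Fin N → (Fin N)ᵒᵈ) := fun p q hpq =>
      h.low p q hpq
    intro p q hpq
    exact Matrix.blockTriangular_inv_of_blockTriangular hb hpq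
  refine ⟨h1, fun p => ?_⟩
  have h2 := congrFun (congrFun h.mul_inv p) p
  rw [Matrix.mul_apply, Matrix.one_apply_eq, Finset.sum_eq_single p, h.one, one_mul] at h2
  · exact h2
  · intro s _ hs
    rcases lt_or_gt_of_ne hs with h3 | h3
    · rw [h1 s p h3, mul_zero]
    · rw [h.low p s h3, zero_mul]
  · intro h3; exact absurd (Finset.mem_univ p) h3

theorem LU.R_low {L : Matrix (Fin N) (Fin N) K} (h : LU L) (μ : Fin N → ℤ) {p q : Fin N}
    (hpq : p < q) : (L * Matrix.diagonal (fun r => (μ r : K)) * L⁻¹) p q = 0 := by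
  rw [Matrix.mul_apply]
  refine Finset.sum_eq_zero fun s _ => ?_
  rw [Matrix.mul_diagonal]
  rcases lt_or_ge p s with h3 | h3
  · rw [h.low p s h3, zero_mul, zero_mul]
  · rw [h.inv.low s q (lt_of_le_of_lt h3 hpq), mul_zero]

theorem LU.R_diag {L : Matrix (Fin N) (Fin N) K} (h : LU L) (μ : Fin N → ℤ) (p : Fin N) :
    (L * Matrix.diagonal (fun r => (μ r : K)) * L⁻¹) p p = μ p := by
  rw [Matrix.mul_apply, Finset.sum_eq_single p]
  · rw [Matrix.mul_diagonal, h.one, h.inv.one, one_mul, mul_one]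
  · intro s _ hs
    rw [Matrix.mul_diagonal]
    rcases lt_or_gt_of_ne hs with h3 | h3
    · rw [h.inv.low s p h3, mul_zero]
    · rw [h.low p s h3, zero_mul, zero_mul]
  · intro h3; exact absurd (Finset.mem_univ p) h3

/-- the derivative of `R = L M L⁻¹` in the direction of the matrix unit `(p', q')` -/
theorem LU.der {L : Matrix (Fin N) (Fin N) K} (h : LU L) (μ : Fin N → ℤ) (D : Derivation k K K)
    {p' q' : Fin N} (hD : ∀ p q, D (L p q) = if p = p' ∧ q = q' then 1 else 0) (p q : Fin N) :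
    D ((L * Matrix.diagonal (fun r => (μ r : K)) * L⁻¹) p q) =
      ((if p = p' then (μ q' : K) else 0) -
        (L * Matrix.diagonal (fun r => (μ r : K)) * L⁻¹) p p') * L⁻¹ q' q := by
  have h1 := congrFun (congrFun (der_R D L L⁻¹ h.mul_inv μ) p) q
  rw [Matrix.map_apply] at h1
  rw [h1, Matrix.sub_apply, sub_mul]
  have h2 : ∀ s t, (L.map D) s t = if s = p' ∧ t = q' then 1 else 0 := fun s t => hD s t
  congr 1
  · rw [Matrix.mul_apply]
    by_cases hp : p = p'
    · rw [if_pos hp, Finset.sum_eq_single q']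
      · rw [Matrix.mul_diagonal, h2, if_pos ⟨hp, rfl⟩, one_mul]
      · intro s _ hs
        rw [Matrix.mul_diagonal, h2, if_neg fun h => hs h.2, zero_mul, zero_mul]
      · intro h3; exact absurd (Finset.mem_univ _) h3
    · rw [if_neg hp, zero_mul]
      refine Finset.sum_eq_zero fun s _ => ?_
      rw [Matrix.mul_diagonal, h2, if_neg fun h => hp h.1, zero_mul, zero_mul]
  · rw [Matrix.mul_apply, Finset.sum_eq_single q']
    · congr 1
      rw [Matrix.mul_apply, Finset.sum_eq_single p']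
      · rw [h2, if_pos ⟨rfl, rfl⟩, mul_one]
      · intro s _ hs
        rw [h2, if_neg fun h => hs h.1, mul_zero]
      · intro h3; exact absurd (Finset.mem_univ _) h3
    · intro s _ hs
      rw [Matrix.mul_apply]
      have : ∑ t, (L * Matrix.diagonal (fun r => (μ r : K)) * L⁻¹) p t * (L.map D) t s = 0 :=
        Finset.sum_eq_zero fun t _ => by rw [h2, if_neg fun h => hs h.2, mul_zero]
      rw [this, zero_mul]
    · intro h3; exact absurd (Finset.mem_univ _) h3

theorem LU.der_zero {L : Matrix (Fin N) (Fin N) K} (h : LU L) (μ : Fin N → ℤ)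
    (D : Derivation k K K) (hD : ∀ p q, D (L p q) = 0) (p q : Fin N) :
    D ((L * Matrix.diagonal (fun r => (μ r : K)) * L⁻¹) p q) = 0 := by
  have h1 := congrFun (congrFun (der_R D L L⁻¹ h.mul_inv μ) p) q
  rw [Matrix.map_apply] at h1
  have h2 : L.map D = 0 := by
    ext s t
    exact hD s t
  rw [h1, h2]
  simp

theorem LU.der_ne {L : Matrix (Fin N) (Fin N) K} (h : LU L) (μ : Fin N → ℤ) (D : Derivation k K K)
    {p' q' : Fin N} (hD : ∀ p q, D (L p q) = if p = p' ∧ q = q' then 1 else 0) {p q : Fin N}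
    (h0 : D ((L * Matrix.diagonal (fun r => (μ r : K)) * L⁻¹) p q) ≠ 0) : p' ≤ p ∧ q ≤ q' := by
  rw [h.der μ D hD] at h0
  constructor
  · by_contra hp
    apply h0
    rw [if_neg (by omega), h.R_low μ (by omega)]
    simp
  · by_contra hq
    apply h0
    rw [h.inv.low q' q (by omega), mul_zero]

theorem LU.der_self {L : Matrix (Fin N) (Fin N) K} (h : LU L) (μ : Fin N → ℤ)
    (D : Derivation k K K)
    {p' q' : Fin N} (hD : ∀ p q, D (L p q) = if p = p' ∧ q = q' then 1 else 0) :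
    D ((L * Matrix.diagonal (fun r => (μ r : K)) * L⁻¹) p' q') = ((μ q' - μ p' : ℤ) : K) := by
  rw [h.der μ D hD, if_pos rfl, h.R_diag, h.inv.one, mul_one]
  push_cast
  rfl

/-! ### The two unipotent factors -/

theorem LU_L (C : GC k K B) : LU C.L where
  low := fun p q h => by
    show B.low C.T p q = 0
    unfold Blk.low
    rw [if_neg h.ne, if_neg (by omega)]
  one := fun p => by
    show B.low C.T p p = 1
    unfold Blk.low
    rw [if_pos rfl]

theorem L_apply (C : GC k K B) (i : Fin (m + 1)) (h : B.cl i < B.rw i) :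
    C.L (B.rw i) (B.cl i) = C.T i := by
  show B.low C.T _ _ = _
  unfold Blk.low Blk.mat
  rw [if_neg h.ne', if_pos h, dif_pos (B.rw_cl i), B.ix_rw_cl]

theorem U_apply (C : GC k K B) (i : Fin (m + 1)) (h : B.rw i < B.cl i) :
    C.U (B.rw i) (B.cl i) = C.T i := by
  show B.upp C.T _ _ = _
  unfold Blk.upp Blk.mat
  rw [if_neg h.ne, if_pos h, dif_pos (B.rw_cl i), B.ix_rw_cl]

theorem tp_L (C : GC k K B) (p q : Fin N) : C.tp.L p q = C.U q p := by
  show B.tp.low C.T p q = B.upp C.T q p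
  rw [GC.low_tp, Matrix.transpose_apply]

theorem tp_d (C : GC k K B) (p : Fin N) : C.tp.d p = C.d p := rfl

theorem tp_dm (C : GC k K B) (μ : Fin N → ℤ) : C.tp.dm μ = C.dm μ := rfl

section der

variable {C : GC k K B} {E : Fin (m + 1) → Derivation k K K}
  (hE : ∀ i l, E i (C.T l) = if i = l then 1 else 0)

include hE

theorem der_L (l : Fin (m + 1)) (p q : Fin N) :
    E l (C.L p q) = if B.cl l < B.rw l ∧ p = B.rw l ∧ q = B.cl l then 1 else 0 := by
  show E l (B.low C.T p q) = _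
  unfold Blk.low Blk.mat
  rcases lt_trichotomy p q with h | h | h
  · rw [if_neg h.ne, if_neg (by omega), map_zero, if_neg]
    rintro ⟨h1, rfl, rfl⟩
    omega
  · rw [if_pos h, Derivation.map_one_eq_zero, if_neg]
    rintro ⟨h1, rfl, rfl⟩
    omega
  · rw [if_neg h.ne', if_pos h]
    by_cases hb : B.b p = B.b q
    · rw [dif_pos hb, hE]
      by_cases hl : l = B.ix p q hb
      · rw [if_pos hl, if_pos]
        subst hl
        rw [B.rw_ix, B.cl_ix]
        exact ⟨h, rfl, rfl⟩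
      · rw [if_neg hl, if_neg]
        rintro ⟨_, h2, h3⟩
        apply hl
        apply ext_ix
        · rw [B.rw_ix]; exact h2.symm
        · rw [B.cl_ix]; exact h3.symm
    · rw [dif_neg hb, map_zero, if_neg]
      rintro ⟨_, h2, h3⟩
      exact hb (by rw [h2, h3, B.rw_cl])

theorem der_U (l : Fin (m + 1)) (p q : Fin N) :
    E l (C.tp.L p q) = if B.rw l < B.cl l ∧ p = B.cl l ∧ q = B.rw l then 1 else 0 := by
  rw [tp_L]
  show E l (B.upp C.T q p) = _
  unfold Blk.upp Blk.mat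
  rcases lt_trichotomy q p with h | h | h
  · rw [if_neg h.ne, if_pos h]
    by_cases hb : B.b q = B.b p
    · rw [dif_pos hb, hE]
      by_cases hl : l = B.ix q p hb
      · rw [if_pos hl, if_pos]
        subst hl
        rw [B.rw_ix, B.cl_ix]
        exact ⟨h, rfl, rfl⟩
      · rw [if_neg hl, if_neg]
        rintro ⟨_, h2, h3⟩
        apply hl
        apply ext_ix
        · rw [B.rw_ix]; exact h3.symm
        · rw [B.cl_ix]; exact h2.symm
    · rw [dif_neg hb, map_zero, if_neg]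
      rintro ⟨_, h2, h3⟩
      exact hb (by rw [h2, h3, B.rw_cl])
  · rw [if_pos h, Derivation.map_one_eq_zero, if_neg]
    rintro ⟨h1, rfl, rfl⟩
    omega
  · rw [if_neg h.ne', if_neg (by omega), map_zero, if_neg]
    rintro ⟨h1, rfl, rfl⟩
    omega

end der

/-! ### Values at the centre -/

section val

variable [IsAlgClosed k] {A : Subalgebra k K}

theorem small_val (hA : A.FG) (x : MaximalSpectrum A) {v : DVal k K}
    (hv : v.HasCenter A x.asIdeal) {a : K} (ha : a ∈ A) :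
    ∃ c : k, v.Small (a - algebraMap k K c) ∧ (¬ v.Small a → c ≠ 0) := by
  have : Algebra.FiniteType k A := (Subalgebra.fg_iff_finiteType _).1 hA
  have := x.isMaximal
  obtain ⟨e, he⟩ := Pool.Agent.MLD.Ten.point (k := k) x.asIdeal
  have h1 : v.Small (a - algebraMap k K (e ⟨a, ha⟩)) := by
    have h2 : (⟨a, ha⟩ - algebraMap k A (e ⟨a, ha⟩) : A) ∈ x.asIdeal := by
      rw [← he, RingHom.mem_ker, map_sub]
      show e ⟨a, ha⟩ - e (algebraMap k A (e ⟨a, ha⟩)) = 0
      rw [AlgHom.commutes]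
      simp
    exact (hv.2 _).1 h2
  refine ⟨e ⟨a, ha⟩, h1, fun h h0 => h ?_⟩
  rw [h0, map_zero, sub_zero] at h1
  exact h1

theorem small_quot (hA : A.FG) (x : MaximalSpectrum A) {v : DVal k K}
    (hv : v.HasCenter A x.asIdeal) {a r : K} (ha : a ∈ A) (ha0 : a ≠ 0) (hao : v.ord a = 0)
    (har : a * r ∈ A) : ∃ c : k, v.Small (r - algebraMap k K c) := by
  obtain ⟨c1, h1, h1'⟩ := small_val hA x hv ha
  obtain ⟨c2, h2, _⟩ := small_val hA x hv har
  have hc1 : c1 ≠ 0 := h1' (Pool.Agent.MLD.Ten.not_small_of v ha0 hao)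
  refine ⟨c2 / c1, ?_⟩
  have h3 : r - algebraMap k K (c2 / c1) =
      a⁻¹ * ((a * r - algebraMap k K c2) - algebraMap k K (c2 / c1) * (a - algebraMap k K c1)) := by
    have hc1' : algebraMap k K c1 ≠ 0 := by
      rw [Ne, map_eq_zero]; exact hc1
    rw [map_div₀]
    field_simp
    ring
  have h4 : LB v 1 ((a * r - algebraMap k K c2) -
      algebraMap k K (c2 / c1) * (a - algebraMap k K c1)) := by
    refine Pool.Agent.MLD.Ten.LB_sub v h2 ?_
    have := (Pool.Agent.MLD.Ten.LB_algebraMap v (c2 / c1)).mul (show LB v 1 _ from h1)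
    rwa [zero_add] at this
  have h5 : LB v 0 a⁻¹ := fun _ => by rw [ord_inv v a ha0, hao]; rfl
  rw [h3]
  have := h5.mul h4
  rw [zero_add] at this
  exact this

end val

theorem ord_int [CharZero k] (v : DVal k K) {z : ℤ} (hz : z ≠ 0) : (z : K) ≠ 0 ∧ v.ord (z : K) = 0 := by
  have h1 : ((z : K)) = algebraMap k K (z : k) := by simp
  have h2 : (z : k) ≠ 0 := by exact_mod_cast hz
  rw [h1]
  exact ⟨by rw [Ne, map_eq_zero]; exact h2, v.ord_algebraMap _ h2⟩

theorem ord_one_le {v : DVal k K} {a : K} (ha : a ≠ 0) (h : v.Small a) : 1 ≤ v.ord a := h ha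

theorem jac_T_ord [CharZero k] {C : GC k K B} {v : DVal k K} {l : Fin N → ℤ}
    (hd : ∀ p, v.ord (C.d p) = l p) :
    jac C.D C.T ≠ 0 ∧ v.ord (jac C.D C.T) = ∑ p, -(2 * (B.aft p : ℤ)) * l p := by
  rw [jac_T]
  have h0 : ∀ p ∈ Finset.univ, C.d p ^ (-(2 * (B.aft p : ℤ))) ≠ 0 := fun p _ =>
    zpow_ne_zero _ (d_ne C p)
  refine ⟨Finset.prod_ne_zero_iff.2 h0, ?_⟩
  rw [ord_prod v _ _ h0]
  refine Finset.sum_congr rfl fun p _ => ?_
  rw [ord_zpow v _ (d_ne C p), hd]

theorem th_sum (B : Blk N m) (l : Fin N → ℤ) :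
    ∑ p, B.th p * l p = ∑ p, l p - ∑ p, -(2 * (B.aft p : ℤ)) * l p := by
  rw [← Finset.sum_sub_distrib]
  refine Finset.sum_congr rfl fun p _ => ?_
  unfold Blk.th
  ring

end Ge

open Ge Pool.Agent.MLD.Jac

variable [IsAlgClosed k] [CharZero k] {C : GC k K B} {A : Subalgebra k K}

theorem ge0 {v : DVal k K} {l : Fin N → ℤ} (h : Lam C v l) {j : ℤ} (hj : v.FormOrd C.D j) :
    ∑ p, B.th p * l p ≤ j + 1 := by
  obtain ⟨σ, hσ, hL, hU, hd, _⟩ := h
  have hj' := (formOrd_map hσ v j).2 hj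
  generalize C.map σ = C' at hL hU hd hj'
  obtain ⟨h1, h2⟩ := jac_T_ord hd
  have hT : ∀ i, C'.T i ≠ 0 := fun i => (ind_T C').ne_zero i
  have h3 := log_ineq v C'.D j hj' C'.T hT h1
  have h4 : ∑ p, l p ≤ ∑ i, v.ord (C'.T i) := by
    have h5 := sum_w (B := B) l fun _ _ => False
    simp only [and_false, Finset.filter_false, Finset.card_empty, if_false, ite_self] at h5
    have h6 : ∑ p, l p = ∑ i, (if B.rw i = B.cl i then l (B.rw i) else 0) := by
      rw [h5]; simp
    rw [h6]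
    refine Finset.sum_le_sum fun i _ => ?_
    by_cases hi : B.rw i = B.cl i
    · rw [if_pos hi, ← hd (B.rw i)]
      have : C'.d (B.rw i) = C'.T i := by
        show C'.T (B.dx (B.rw i)) = C'.T i
        congr 1
        apply ext_ix
        · unfold Blk.dx; rw [B.rw_ix]
        · unfold Blk.dx; rw [B.cl_ix]; exact hi
      rw [this]
    · rw [if_neg hi]
      rcases lt_or_gt_of_ne hi with h | h
      · have := hU (B.rw i) (B.cl i)
        rw [U_apply C' i h] at this
        exact this (hT i)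
      · have := hL (B.rw i) (B.cl i)
        rw [L_apply C' i h] at this
        exact this (hT i)
  rw [th_sum]
  rw [h2] at h3
  linarith

/-- the lower bound in an adapted frame -/
theorem Ge.aux (hA : IsEmb C A) (x : MaximalSpectrum A) {v : DVal k K}
    (hv : v.HasCenter A x.asIdeal) {l : Fin N → ℤ} (hL : ∀ p q, v.Integral (C.L p q))
    (hU : ∀ p q, v.Integral (C.U p q)) (hd : ∀ p, v.ord (C.d p) = l p) (hl : B.Inc l) {j : ℤ}
    (hj : v.FormOrd C.D j) : ∑ p, B.th p * l p + Dr B (Zof C x.asIdeal) ≤ j + 1 := by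
  have hKchar : CharZero K := charZero_of_injective_algebraMap (algebraMap k K).injective
  have hlam : Lam C v l := ⟨AlgEquiv.refl, tra_refl C, fun p q => by rw [map_L]; exact hL p q,
    fun p q => by rw [map_U]; exact hU p q, fun p => by rw [map_d]; exact hd p, hl⟩
  set Z := Zof C x.asIdeal with hZdef
  have hZ : ∀ μ, μ ∈ Z ↔ μ ∈ Gam C A ∧ l ⬝ᵥ μ = 0 := zof_lam hA hv hlam
  have hdm : ∀ μ, v.ord (C.dm μ) = l ⬝ᵥ μ := by
    intro μ
    rw [ord_dm]
    exact Finset.sum_congr rfl fun p _ => by rw [hd, mul_comm]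
  have hzero : (0 : Fin N → ℤ) ∈ Z := by
    rw [hZ]
    refine ⟨⟨fun p q _ _ => le_rfl, ?_⟩, dotProduct_zero _⟩
    rw [dm_zero]; exact A.one_mem
  have hadd : ∀ μ ν, μ ∈ Z → ν ∈ Z → μ + ν ∈ Z := by
    intro μ ν hμ hν
    rw [hZ] at hμ hν ⊢
    refine ⟨⟨fun p q h1 h2 => add_le_add (hμ.1.1 p q h1 h2) (hν.1.1 p q h1 h2), ?_⟩, ?_⟩
    · rw [dm_add]; exact A.mul_mem hμ.1.2 hν.1.2
    · rw [dotProduct_add, hμ.2, hν.2, add_zero]
  obtain ⟨β, I, hβ, hI, hβZ⟩ := lat_basis Z
  -- a generic element of `Z`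
  have hM0 : ∀ s : Fin N × Fin N, ∃ μ ∈ Z, (s.1 < s.2 → B.b s.1 = B.b s.2 →
      ¬ Flat B Z s.1 s.2 → μ s.2 < μ s.1) := by
    intro s
    by_cases hs : s.1 < s.2 ∧ B.b s.1 = B.b s.2 ∧ ¬ Flat B Z s.1 s.2
    · obtain ⟨h1, h2, h3⟩ := hs
      have h4 : ∃ μ ∈ Z, μ s.1 ≠ μ s.2 := by
        by_contra hcon
        push Not at hcon
        exact h3 ⟨h2, hcon⟩
      obtain ⟨μ, hμ, hne⟩ := h4
      refine ⟨μ, hμ, fun _ _ _ => ?_⟩
      have := ((hZ μ).1 hμ).1.1 s.1 s.2 h1.le h2
      omega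
    · exact ⟨0, hzero, fun h1 h2 h3 => absurd ⟨h1, h2, h3⟩ hs⟩
  choose M hMZ hM using hM0
  set μ0 : Fin N → ℤ := ∑ s, M s with hμ0def
  have hμ0Z : μ0 ∈ Z := Finset.sum_induction M (· ∈ Z) hadd hzero fun s _ => hMZ s
  have hμ0 : ∀ p q, p < q → B.b p = B.b q → ¬ Flat B Z p q → μ0 q < μ0 p := by
    intro p q h1 h2 h3
    rw [hμ0def, Finset.sum_apply, Finset.sum_apply]
    refine Finset.sum_lt_sum (fun s _ => ((hZ _).1 (hMZ s)).1.1 p q h1.le h2)
      ⟨(p, q), Finset.mem_univ _, hM (p, q) h1 h2 h3⟩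
  have hμ0G : μ0 ∈ Gam C A := ((hZ _).1 hμ0Z).1
  have hμ0o : v.ord (C.dm μ0) = 0 := by rw [hdm]; exact ((hZ _).1 hμ0Z).2
  set RL := C.L * Matrix.diagonal (fun r => (μ0 r : K)) * C.L⁻¹ with hRL
  set RU := C.tp.L * Matrix.diagonal (fun r => (μ0 r : K)) * C.tp.L⁻¹ with hRU
  have hLL : LU C.L := LU_L C
  have hLU : LU C.tp.L := LU_L C.tp
  have hcL0 : ∀ p q, ∃ c : k, q < p → B.b p = B.b q → v.Small (RL p q - algebraMap k K c) := by
    intro p q
    by_cases hs : q < p ∧ B.b p = B.b q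
    · obtain ⟨c, hc⟩ := small_quot hA.good.fg x hv hμ0G.2 (dm_ne C μ0) hμ0o
        (rreg hA hμ0G hs.1 hs.2)
      exact ⟨c, fun _ _ => hc⟩
    · exact ⟨0, fun h1 h2 => absurd ⟨h1, h2⟩ hs⟩
  have hcU0 : ∀ p q, ∃ c : k, q < p → B.b p = B.b q → v.Small (RU p q - algebraMap k K c) := by
    intro p q
    by_cases hs : q < p ∧ B.b p = B.b q
    · have hG' : μ0 ∈ Gam C.tp A := by rw [gam_tp]; exact hμ0G
      obtain ⟨c, hc⟩ := small_quot hA.good.fg x hv hμ0G.2 (dm_ne C μ0) hμ0o
        (rreg (C := C.tp) (emb_tp hA) hG' hs.1 hs.2)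
      exact ⟨c, fun _ _ => hc⟩
    · exact ⟨0, fun h1 h2 => absurd ⟨h1, h2⟩ hs⟩
  have hcd0 : ∀ p, ∃ c : k, (p ∈ I → v.Small (C.dm (β p) - algebraMap k K c)) ∧
      (p ∉ I → c = 0) := by
    intro p
    by_cases hp : p ∈ I
    · obtain ⟨c, hc, _⟩ := small_val hA.good.fg x hv ((hZ _).1 (hβZ p hp)).1.2
      exact ⟨c, fun _ => hc, fun h => absurd hp h⟩
    · exact ⟨0, fun h => absurd h hp, fun _ => rfl⟩
  choose cL hcL using hcL0
  choose cU hcU using hcU0
  choose cd hcdI hcd0 using hcd0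
  set b : Fin (m + 1) → K := fun i =>
    if B.rw i = B.cl i then C.dm (β (B.rw i)) - algebraMap k K (cd (B.rw i)) else
      if B.rw i < B.cl i then (if Flat B Z (B.rw i) (B.cl i) then C.T i else
        RU (B.cl i) (B.rw i) - algebraMap k K (cU (B.cl i) (B.rw i)))
      else (if Flat B Z (B.cl i) (B.rw i) then C.T i else
        RL (B.rw i) (B.cl i) - algebraMap k K (cL (B.rw i) (B.cl i))) with hb
  have hbdiag : ∀ i, B.rw i = B.cl i → b i = C.dm (β (B.rw i)) - algebraMap k K (cd (B.rw i)) :=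
    fun i hi => by rw [hb]; exact if_pos hi
  have hbup : ∀ i, B.rw i < B.cl i → b i = if Flat B Z (B.rw i) (B.cl i) then C.T i else
      RU (B.cl i) (B.rw i) - algebraMap k K (cU (B.cl i) (B.rw i)) := fun i hi => by
    rw [hb]
    show (if B.rw i = B.cl i then _ else _) = _
    rw [if_neg hi.ne, if_pos hi]
  have hblow : ∀ i, B.cl i < B.rw i → b i = if Flat B Z (B.cl i) (B.rw i) then C.T i else
      RL (B.rw i) (B.cl i) - algebraMap k K (cL (B.rw i) (B.cl i)) := fun i hi => by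
    rw [hb]
    show (if B.rw i = B.cl i then _ else _) = _
    rw [if_neg hi.ne', if_neg (not_lt.2 hi.le)]
  obtain ⟨E, hE, hEj⟩ := exists_E C
  have hdL : ∀ l', B.cl l' < B.rw l' → ∀ p q,
      E l' (C.L p q) = if p = B.rw l' ∧ q = B.cl l' then 1 else 0 := by
    intro l' hl' p q
    rw [der_L hE]
    simp only [hl', true_and]
  have hdL0 : ∀ l', ¬ B.cl l' < B.rw l' → ∀ p q, E l' (C.L p q) = 0 := by
    intro l' hl' p q
    rw [der_L hE, if_neg fun h => hl' h.1]
  have hdU : ∀ l', B.rw l' < B.cl l' → ∀ p q,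
      E l' (C.tp.L p q) = if p = B.cl l' ∧ q = B.rw l' then 1 else 0 := by
    intro l' hl' p q
    rw [der_U hE]
    simp only [hl', true_and]
  have hdU0 : ∀ l', ¬ B.rw l' < B.cl l' → ∀ p q, E l' (C.tp.L p q) = 0 := by
    intro l' hl' p q
    rw [der_U hE, if_neg fun h => hl' h.1]
  have hbd : ∀ p, b (B.dx p) = C.dm (β p) - algebraMap k K (cd p) := by
    intro p
    have h1 : B.rw (B.dx p) = p := B.rw_ix p p rfl
    have h2 : B.cl (B.dx p) = p := B.cl_ix p p rfl
    rw [hbdiag (B.dx p) (h1.trans h2.symm), h1]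
  have hbl : ∀ i, B.cl i < B.rw i → ∀ l', E l' (b i) ≠ 0 → l' = i ∨ (B.cl l' < B.rw l' ∧
      (B.rw l' : ℕ) - (B.cl l' : ℕ) < (B.rw i : ℕ) - (B.cl i : ℕ)) := by
    intro i hi l' hne
    rw [hblow i hi] at hne
    by_cases hf : Flat B Z (B.cl i) (B.rw i)
    · rw [if_pos hf, hE] at hne
      left
      by_contra hcon
      exact hne (if_neg hcon)
    · rw [if_neg hf, map_sub, Derivation.map_algebraMap, sub_zero] at hne
      by_cases hl' : B.cl l' < B.rw l'
      · obtain ⟨h1, h2⟩ := hLL.der_ne μ0 (E l') (hdL l' hl') hne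
        by_cases h3 : B.rw l' = B.rw i ∧ B.cl l' = B.cl i
        · left; exact ext_ix h3.1 h3.2
        · right
          refine ⟨hl', ?_⟩
          have h4 : (B.rw l' : ℕ) ≤ B.rw i := h1
          have h5 : (B.cl i : ℕ) ≤ B.cl l' := h2
          have h6 : (B.cl l' : ℕ) < B.rw l' := hl'
          rcases lt_or_eq_of_le h4 with h7 | h7
          · omega
          · have h8 : (B.cl l' : ℕ) ≠ B.cl i := fun h => h3 ⟨Fin.ext h7, Fin.ext h⟩
            omega
      · exact absurd (hLL.der_zero μ0 (E l') (hdL0 l' hl') _ _) hne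
  have hbu : ∀ i, B.rw i < B.cl i → ∀ l', E l' (b i) ≠ 0 → l' = i ∨ (B.rw l' < B.cl l' ∧
      (B.cl l' : ℕ) - (B.rw l' : ℕ) < (B.cl i : ℕ) - (B.rw i : ℕ)) := by
    intro i hi l' hne
    rw [hbup i hi] at hne
    by_cases hf : Flat B Z (B.rw i) (B.cl i)
    · rw [if_pos hf, hE] at hne
      left
      by_contra hcon
      exact hne (if_neg hcon)
    · rw [if_neg hf, map_sub, Derivation.map_algebraMap, sub_zero] at hne
      by_cases hl' : B.rw l' < B.cl l'
      · obtain ⟨h1, h2⟩ := hLU.der_ne μ0 (E l') (hdU l' hl') hne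
        by_cases h3 : B.rw l' = B.rw i ∧ B.cl l' = B.cl i
        · left; exact ext_ix h3.1 h3.2
        · right
          refine ⟨hl', ?_⟩
          have h4 : (B.cl l' : ℕ) ≤ B.cl i := h1
          have h5 : (B.rw i : ℕ) ≤ B.rw l' := h2
          have h6 : (B.rw l' : ℕ) < B.cl l' := hl'
          rcases lt_or_eq_of_le h4 with h7 | h7
          · omega
          · have h8 : (B.rw l' : ℕ) ≠ B.rw i := fun h => h3 ⟨Fin.ext h, Fin.ext h7⟩
            omega
      · exact absurd (hLU.der_zero μ0 (E l') (hdU0 l' hl') _ _) hne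
  have hJ := jac_b C E hE β cd b hbd hbl hbu
  -- the diagonal derivatives
  have he : ∀ i, (if B.rw i = B.cl i then (1 : K) else E i (b i)) ≠ 0 ∧
      v.ord (if B.rw i = B.cl i then (1 : K) else E i (b i)) = 0 := by
    intro i
    by_cases hi : B.rw i = B.cl i
    · rw [if_pos hi]; exact ⟨one_ne_zero, ord_one v⟩
    · rw [if_neg hi]
      rcases lt_or_gt_of_ne hi with h | h
      · rw [hbup i h]
        by_cases hf : Flat B Z (B.rw i) (B.cl i)
        · rw [if_pos hf, hE, if_pos rfl]; exact ⟨one_ne_zero, ord_one v⟩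
        · rw [if_neg hf, map_sub, Derivation.map_algebraMap, sub_zero, hRU,
            hLU.der_self μ0 (E i) (hdU i h)]
          have := hμ0 _ _ h (B.rw_cl i) hf
          exact ord_int (k := k) v (by omega)
      · rw [hblow i h]
        by_cases hf : Flat B Z (B.cl i) (B.rw i)
        · rw [if_pos hf, hE, if_pos rfl]; exact ⟨one_ne_zero, ord_one v⟩
        · rw [if_neg hf, map_sub, Derivation.map_algebraMap, sub_zero, hRL,
            hLL.der_self μ0 (E i) (hdL i h)]
          have := hμ0 _ _ h (B.rw_cl i).symm hf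
          exact ord_int (k := k) v (by omega)
  obtain ⟨hdet0, hdeto⟩ := ord_int (k := k) v hβ
  have hp1 : (∏ p, C.dm (β p)) ≠ 0 := Finset.prod_ne_zero_iff.2 fun p _ => dm_ne C _
  have hp2 : (∏ p, C.d p) ≠ 0 := Finset.prod_ne_zero_iff.2 fun p _ => d_ne C p
  have hp3 : (∏ i, if B.rw i = B.cl i then (1 : K) else E i (b i)) ≠ 0 :=
    Finset.prod_ne_zero_iff.2 fun i _ => (he i).1
  have hJ0 : jac E b ≠ 0 := by
    rw [hJ]
    exact mul_ne_zero (mul_ne_zero (mul_ne_zero hdet0 hp1) (inv_ne_zero hp2)) hp3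
  have hJo : v.ord (jac E b) = ∑ p, l ⬝ᵥ β p - ∑ p, l p := by
    rw [hJ, v.ord_mul _ _ (mul_ne_zero (mul_ne_zero hdet0 hp1) (inv_ne_zero hp2)) hp3,
      v.ord_mul _ _ (mul_ne_zero hdet0 hp1) (inv_ne_zero hp2), v.ord_mul _ _ hdet0 hp1, hdeto,
      ord_inv v _ hp2, ord_prod v _ _ fun p _ => dm_ne C _, ord_prod v _ _ fun p _ => d_ne C p,
      ord_prod v _ _ fun i _ => (he i).1, Finset.sum_eq_zero fun i _ => (he i).2,
      Finset.sum_congr rfl fun p _ => hdm (β p), Finset.sum_congr rfl fun p _ => hd p]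
    ring
  obtain ⟨hT0, hTo⟩ := jac_T_ord hd
  have hD0 : jac C.D b ≠ 0 := by rw [hEj]; exact mul_ne_zero hT0 hJ0
  have hDo : v.ord (jac C.D b) = ∑ p, -(2 * (B.aft p : ℤ)) * l p +
      (∑ p, l ⬝ᵥ β p - ∑ p, l p) := by
    rw [hEj, v.ord_mul _ _ hT0 hJ0, hTo, hJo]
  have hb0 : ∀ i, b i ≠ 0 := by
    intro i h0
    apply hD0
    unfold jac
    refine Matrix.det_eq_zero_of_column_eq_zero i fun r => ?_
    rw [Matrix.of_apply, h0, map_zero]
  have hlog := log_ineq v C.D j hj b hb0 hD0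
  obtain ⟨S, hS⟩ : ∃ S : Fin N → Fin N → Prop, ∀ p q, S p q ↔ ¬ Flat B Z p q :=
    ⟨_, fun _ _ => Iff.rfl⟩
  have hsum := sum_w (B := B) (fun p => if p ∈ I then 1 else l ⬝ᵥ β p) S
  have hge : ∑ p, (if p ∈ I then (1 : ℤ) else l ⬝ᵥ β p) + 2 * ((Finset.univ.filter
      fun s : Fin N × Fin N => s.1 < s.2 ∧ B.b s.1 = B.b s.2 ∧ S s.1 s.2).card : ℤ) ≤
      ∑ i, v.ord (b i) := by
    refine hsum.symm.trans_le ?_
    refine Finset.sum_le_sum fun i _ => ?_
    by_cases hi : B.rw i = B.cl i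
    · rw [if_pos hi]
      have h0 := hb0 i
      rw [hbdiag i hi] at h0 ⊢
      by_cases hI' : B.rw i ∈ I
      · simp only [if_pos hI']
        exact hcdI _ hI' h0
      · simp only [if_neg hI']
        rw [hcd0 _ hI', map_zero, sub_zero, hdm]
    · rw [if_neg hi]
      have hTi : C.T i ≠ 0 := (ind_T C).ne_zero i
      rcases lt_or_gt_of_ne hi with h | h
      · rw [if_pos h]
        have h0 := hb0 i
        rw [hbup i h] at h0 ⊢
        by_cases hf : Flat B Z (B.rw i) (B.cl i)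
        · rw [if_neg (fun h9 => (hS _ _).1 h9 hf), if_pos hf]
          have := hU (B.rw i) (B.cl i)
          rw [U_apply C i h] at this
          exact this hTi
        · rw [if_neg hf] at h0 ⊢
          rw [if_pos ((hS _ _).2 hf)]
          exact hcU _ _ h (B.rw_cl i).symm h0
      · rw [if_neg (not_lt.2 (le_of_lt h))]
        have h0 := hb0 i
        rw [hblow i h] at h0 ⊢
        by_cases hf : Flat B Z (B.cl i) (B.rw i)
        · rw [if_neg (fun h9 => (hS _ _).1 h9 hf), if_pos hf]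
          have := hL (B.rw i) (B.cl i)
          rw [L_apply C i h] at this
          exact this hTi
        · rw [if_neg hf] at h0 ⊢
          rw [if_pos ((hS _ _).2 hf)]
          exact hcL _ _ h (B.rw_cl i) h0
  have hlamsum : ∑ p, (if p ∈ I then (1 : ℤ) else l ⬝ᵥ β p) = I.card + ∑ p, l ⬝ᵥ β p := by
    have h1 : ∀ p, (if p ∈ I then (1 : ℤ) else l ⬝ᵥ β p) =
        (if p ∈ I then (1 : ℤ) else 0) + l ⬝ᵥ β p := by
      intro p
      by_cases hp : p ∈ I
      · rw [if_pos hp, if_pos hp, ((hZ _).1 (hβZ p hp)).2, add_zero]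
      · rw [if_neg hp, if_neg hp, zero_add]
    rw [Finset.sum_congr rfl fun p _ => h1 p, Finset.sum_add_distrib]
    congr 1
    simp
  have hDr : (Dr B Z : ℤ) = I.card + 2 * ((Finset.univ.filter fun s : Fin N × Fin N =>
      s.1 < s.2 ∧ B.b s.1 = B.b s.2 ∧ S s.1 s.2).card : ℤ) := by
    unfold Dr
    rw [← hI]
    push_cast
    congr 4
    ext s
    simp only [Finset.mem_filter, Finset.mem_univ, true_and, hS]
  rw [th_sum, hDr]
  rw [hDo] at hlog
  rw [hlamsum] at hge
  linarith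

theorem ge (hA : IsEmb C A) (x : MaximalSpectrum A) {v : DVal k K}
    (hv : v.HasCenter A x.asIdeal) {l : Fin N → ℤ} (h : Lam C v l) {j : ℤ}
    (hj : v.FormOrd C.D j) : ∑ p, B.th p * l p + Dr B (Zof C x.asIdeal) ≤ j + 1 := by
  obtain ⟨σ, hσ, hL, hU, hd, hl⟩ := h
  have hj' := (formOrd_map hσ v j).2 hj
  rw [← zof_map hσ hA x.asIdeal]
  exact Ge.aux (emb_map hσ hA) x hv hL hU hd hl hj'

end GE

end

end Pool.Agent.MLD.Mon
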