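import Pool.Agent.Lib.MP_f23696_ag.M.Lin
import Pool.Agent.Lib.MP_f23696_ag.M.Tra
import Pool.Agent.Lib.MP_f23696_ag.M.Frm
import Pool.Agent.Lib.MP_f23696_ag.M.Cb
import Pool.Agent.Lib.MP_f23696_ag.M.Wts
import Pool.Agent.Lib.MP_f23696_ag.M.Xq
import Pool.Agent.Lib.MP_f23696_ag.M.Bub
import Pool.Agent.Lib.MP_f23696_ag.Chx

/-!
ORB (project MON, MP_f23696_ag): closed points are limit points.
-/

set_option autoImplicit false

open scoped Classical

namespace Pool.Agent.MLD.Mon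

open MvPolynomial
open Pool.Agent.MLD.Ten (IsGood)

noncomputable section

universe u v w

variable {N m : ℕ} {B : Blk N m} {k : Type u} {K : Type v} [Field k] [Field K] [Algebra k K]

namespace Orb

/-! ### valuation rings -/

theorem isUnit_iff (O : ValuationSubring K) (x : O) : IsUnit x ↔ (x : K) ≠ 0 ∧ (x : K)⁻¹ ∈ O := by
  constructor
  · rintro ⟨u, rfl⟩
    have h1 : ((u : O) : K) * ((u⁻¹ : Oˣ) : O) = 1 :=
      congrArg (fun z : O => (z : K)) (Units.mul_inv u)
    have h2 : ((u : O) : K) ≠ 0 := left_ne_zero_of_mul_eq_one h1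
    refine ⟨h2, ?_⟩
    have h3 : ((u : O) : K)⁻¹ = (((u⁻¹ : Oˣ) : O) : K) := by
      rw [inv_eq_iff_eq_inv, eq_inv_of_mul_eq_one_left h1]
    rw [h3]
    exact ((u⁻¹ : Oˣ) : O).2
  · rintro ⟨h1, h2⟩
    refine IsUnit.of_mul_eq_one (⟨(x : K)⁻¹, h2⟩ : O) ?_
    ext
    show (x : K) * (x : K)⁻¹ = 1
    exact mul_inv_cancel₀ h1

theorem mem_max (O : ValuationSubring K) (x : O) :
    x ∈ IsLocalRing.maximalIdeal O ↔ (x : K) = 0 ∨ (x : K)⁻¹ ∉ O := by
  rw [IsLocalRing.mem_maximalIdeal, mem_nonunits_iff, isUnit_iff]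
  tauto

/-- elements of the maximal ideal -/
def Nu (O : ValuationSubring K) (x : K) : Prop := x ∈ O ∧ (x = 0 ∨ x⁻¹ ∉ O)

theorem nu_iff {O : ValuationSubring K} {x : K} (h : x ∈ O) :
    Nu O x ↔ (⟨x, h⟩ : O) ∈ IsLocalRing.maximalIdeal O := by
  rw [mem_max, Nu]
  exact ⟨fun h' => h'.2, fun h' => ⟨h, h'⟩⟩

theorem nu_add {O : ValuationSubring K} {x y : K} (hx : Nu O x) (hy : Nu O y) :
    Nu O (x + y) := by
  rw [nu_iff (O.add_mem _ _ hx.1 hy.1)]
  exact Ideal.add_mem _ ((nu_iff hx.1).1 hx) ((nu_iff hy.1).1 hy)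

theorem nu_neg {O : ValuationSubring K} {x : K} (hx : Nu O x) : Nu O (-x) := by
  rw [nu_iff (O.neg_mem _ hx.1)]
  exact (Ideal.neg_mem_iff _).2 ((nu_iff hx.1).1 hx)

theorem nu_mul {O : ValuationSubring K} {x y : K} (hx : x ∈ O) (hy : Nu O y) :
    Nu O (x * y) := by
  rw [nu_iff (O.mul_mem _ _ hx hy.1)]
  exact Ideal.mul_mem_left _ (⟨x, hx⟩ : O) ((nu_iff hy.1).1 hy)

theorem nu_sum {O : ValuationSubring K} {ι : Type*} (s : Finset ι) (f : ι → K)
    (h : ∀ i ∈ s, Nu O (f i)) : Nu O (∑ i ∈ s, f i) := by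
  induction s using Finset.induction_on with
  | empty => exact ⟨O.zero_mem, Or.inl rfl⟩
  | insert a s ha ih =>
    rw [Finset.sum_insert ha]
    exact nu_add (h a (Finset.mem_insert_self a s))
      (ih fun i hi => h i (Finset.mem_insert_of_mem hi))

end Orb

section
variable {A : Subalgebra k K}

theorem exists_cen (p : Ideal A) (hp : p.IsPrime) :
    ∃ O : ValuationSubring K, Cen O A p := by
  let R : Subring K := A.toSubring
  let i : R →+* A :=
    { toFun := fun x => ⟨x.1, x.2⟩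
      map_one' := rfl
      map_mul' := fun _ _ => rfl
      map_zero' := rfl
      map_add' := fun _ _ => rfl }
  let P : Ideal R := p.comap i
  have hP : P.IsPrime := Ideal.comap_isPrime i p
  obtain ⟨V, hle, hloc⟩ := (LocalSubring.ofPrime R P).exists_le_valuationSubring
  have hRV : ∀ x ∈ R, x ∈ V := fun x hx => hle (LocalSubring.le_ofPrime R P hx)
  refine ⟨V, fun a => hRV _ a.2, fun a => ?_⟩
  let a' : R := ⟨a.1, a.2⟩
  have h1 : a ∈ p ↔ a' ∈ P := Iff.rfl
  let b : (LocalSubring.ofPrime R P).toSubring := algebraMap R _ a'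
  have h2 : IsUnit b ↔ a' ∈ P.primeCompl :=
    IsLocalization.AtPrime.isUnit_to_map_iff (LocalSubring.ofPrime R P).toSubring P a'
  have h3 : IsUnit (Subring.inclusion hle b) ↔ IsUnit b :=
    ⟨fun h => hloc.map_nonunit b h, fun h => h.map _⟩
  have h4 : IsUnit (⟨(a : K), hRV _ a.2⟩ : V) ↔ IsUnit b := h3
  rw [Orb.isUnit_iff] at h4
  have h5 : a ∉ p ↔ (a : K) ≠ 0 ∧ (a : K)⁻¹ ∈ V := by
    rw [h4, h2]
    exact Iff.rfl
  constructor
  · intro h
    by_contra hcon
    push Not at hcon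
    exact (h5.2 hcon) h
  · intro h
    by_contra hcon
    have := h5.1 hcon
    tauto

end

namespace Orb

/-! ### polynomials -/

section poly

variable (B)

/-- restriction to the torus -/
def rho (k : Type u) [Field k] : MvPolynomial (Fin (m + 1)) k →ₐ[k] MvPolynomial (Fin (m + 1)) k :=
  aeval fun i => if B.rw i = B.cl i then X i else 0

/-- specialisation of the unipotent factors and dilation of the torus -/
def phi (T : Fin (m + 1) → k) : MvPolynomial (Fin (m + 1)) k →ₐ[k] MvPolynomial (Fin (m + 1)) k :=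
  aeval fun i => if B.rw i = B.cl i then C (T i) * X i else C (T i)

/-- the functional `lim` -/
def Lm (k : Type u) [Field k] (Λ : AddSubgroup (Fin N → ℤ)) (n : ℕ) :
    MvPolynomial (Fin (m + 1)) k →ₗ[k] k :=
  (basisMonomials (Fin (m + 1)) k).constr k fun s =>
    if B.OnlyD s ∧ (B.dg s - fun _ => (n : ℤ)) ∈ Λ then 1 else 0

theorem Lm_monomial (Λ : AddSubgroup (Fin N → ℤ)) (n : ℕ) (s : Fin (m + 1) →₀ ℕ) (c : k) :
    Lm B k Λ n (monomial s c) =
      if B.OnlyD s ∧ (B.dg s - fun _ => (n : ℤ)) ∈ Λ then c else 0 := by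
  have h1 : (monomial s c : MvPolynomial (Fin (m + 1)) k) =
      c • (basisMonomials (Fin (m + 1)) k) s := by
    rw [coe_basisMonomials, smul_monomial, smul_eq_mul, mul_one]
  rw [h1, map_smul, Lm, Module.Basis.constr_basis, smul_eq_mul]
  split_ifs <;> simp

theorem lim_eq (Λ : AddSubgroup (Fin N → ℤ)) (n : ℕ) (P : MvPolynomial (Fin (m + 1)) k) :
    B.lim Λ n P = Lm B k Λ n (B.Th k P) := by
  rw [Blk.lim, Finset.sum_filter]
  conv_rhs => rw [← support_sum_monomial_coeff (B.Th k P), map_sum]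
  exact Finset.sum_congr rfl fun s _ => (Lm_monomial B Λ n s _).symm

theorem rho_monomial (s : Fin (m + 1) →₀ ℕ) (c : k) :
    rho B k (monomial s c) = if B.OnlyD s then monomial s c else 0 := by
  rw [rho, aeval_monomial, Finsupp.prod_fintype _ _ (fun i => pow_zero _)]
  split_ifs with h
  · rw [monomial_eq, Finsupp.prod_fintype _ _ (fun i => pow_zero _)]
    congr 1
    refine Finset.prod_congr rfl fun i _ => ?_
    split_ifs with hi
    · rfl
    · rw [h i hi, pow_zero, pow_zero]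
  · have h' : ∃ i, B.rw i ≠ B.cl i ∧ s i ≠ 0 := by
      by_contra hcon
      push Not at hcon
      exact h hcon
    obtain ⟨i, hi, hs⟩ := h'
    rw [Finset.prod_eq_zero (Finset.mem_univ i), mul_zero]
    rw [if_neg hi, zero_pow hs]

theorem Lm_rho (Λ : AddSubgroup (Fin N → ℤ)) (n : ℕ) (F : MvPolynomial (Fin (m + 1)) k) :
    Lm B k Λ n (rho B k F) = Lm B k Λ n F := by
  conv_lhs => rw [← support_sum_monomial_coeff F, map_sum, map_sum]
  conv_rhs => rw [← support_sum_monomial_coeff F, map_sum]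
  refine Finset.sum_congr rfl fun s _ => ?_
  rw [rho_monomial]
  split_ifs with h
  · rfl
  · rw [map_zero, Lm_monomial, if_neg fun h' => h h'.1]

/-- the diagonal part of an exponent -/
def sD (s : Fin (m + 1) →₀ ℕ) : Fin (m + 1) →₀ ℕ := s.filter fun i => B.rw i = B.cl i

theorem onlyD_sD (s : Fin (m + 1) →₀ ℕ) : B.OnlyD (sD B s) := fun i hi => by
  rw [sD, Finsupp.filter_apply, if_neg hi]

theorem dg_sD (s : Fin (m + 1) →₀ ℕ) : B.dg (sD B s) = B.dg s := by
  funext p
  rw [Blk.dg, Blk.dg, sD, Finsupp.filter_apply, if_pos]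
  rw [Blk.dx, B.rw_ix, B.cl_ix]

theorem phi_monomial (T : Fin (m + 1) → k) (s : Fin (m + 1) →₀ ℕ) (c : k) :
    phi B T (monomial s c) = monomial (sD B s) (c * ∏ i, T i ^ s i) := by
  rw [phi, aeval_monomial, Finsupp.prod_fintype _ _ (fun i => pow_zero _), monomial_eq,
    Finsupp.prod_fintype _ _ (fun i => pow_zero _), C_mul, mul_assoc, map_prod,
    ← Finset.prod_mul_distrib]
  congr 1
  refine Finset.prod_congr rfl fun i _ => ?_
  rw [sD, Finsupp.filter_apply, map_pow]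
  split_ifs with hi
  · rw [mul_pow]
  · rw [pow_zero, mul_one]

theorem Lm_phi (Λ : AddSubgroup (Fin N → ℤ)) (n : ℕ) (T : Fin (m + 1) → k)
    (F : MvPolynomial (Fin (m + 1)) k) :
    Lm B k Λ n (phi B T F) = ∑ s ∈ F.support.filter fun s => (B.dg s - fun _ => (n : ℤ)) ∈ Λ,
      F.coeff s * ∏ i, T i ^ s i := by
  rw [Finset.sum_filter]
  conv_lhs => rw [← support_sum_monomial_coeff F, map_sum, map_sum]
  refine Finset.sum_congr rfl fun s _ => ?_
  rw [phi_monomial, Lm_monomial, dg_sD]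
  simp only [onlyD_sD, true_and]

theorem low_congr {R : Type v} [CommRing R] {y y' : Fin (m + 1) → R}
    (h : ∀ i, B.cl i < B.rw i → y i = y' i) : B.low y = B.low y' := by
  ext p q
  simp only [Blk.low, Blk.mat]
  split_ifs with h1 h2 h3
  · rfl
  · refine h _ ?_
    rwa [B.rw_ix, B.cl_ix]
  · rfl
  · rfl

theorem upp_congr {R : Type v} [CommRing R] {y y' : Fin (m + 1) → R}
    (h : ∀ i, B.rw i < B.cl i → y i = y' i) : B.upp y = B.upp y' := by
  ext p q
  simp only [Blk.upp, Blk.mat]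
  split_ifs with h1 h2 h3
  · rfl
  · refine h _ ?_
    rwa [B.rw_ix, B.cl_ix]
  · rfl
  · rfl

theorem low_zero {R : Type v} [CommRing R] : B.low (0 : Fin (m + 1) → R) = 1 := by
  ext p q
  simp only [Blk.low, Blk.mat, Matrix.one_apply]
  split_ifs <;> rfl

theorem upp_zero {R : Type v} [CommRing R] : B.upp (0 : Fin (m + 1) → R) = 1 := by
  ext p q
  simp only [Blk.upp, Blk.mat, Matrix.one_apply]
  split_ifs <;> rfl

/-- restriction of `P(l t g u)` to the torus -/
theorem comp_eq (T : Fin (m + 1) → k) :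
    (rho B k).comp ((B.Th k).comp (B.trP (B.low T * Matrix.diagonal (B.dia T)) (B.upp T))) =
      (phi B T).comp (B.Th k) := by
  apply MvPolynomial.algHom_ext
  intro i
  simp only [AlgHom.comp_apply]
  rw [Blk.trP, aeval_X]
  have hTh : (B.XX k).map (B.Th k).toRingHom =
      B.ldu (X : Fin (m + 1) → MvPolynomial (Fin (m + 1)) k) := by
    rw [Blk.XX, ← Lin.mat_map]
    have : (fun i => (B.Th k).toRingHom (X i)) =
        B.vec (B.ldu (X : Fin (m + 1) → MvPolynomial (Fin (m + 1)) k)) := by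
      funext i
      exact aeval_X _ _
    rw [this, mat_vec B (isBl_ldu B _)]
  have hrho : (B.ldu (X : Fin (m + 1) → MvPolynomial (Fin (m + 1)) k)).map (rho B k).toRingHom =
      Matrix.diagonal (B.dia X) := by
    rw [← Lin.ldu_map, Blk.ldu]
    have e1 : B.low (fun i => (rho B k).toRingHom (X i)) = 1 := by
      rw [← low_zero B]
      refine low_congr B fun i hi => ?_
      show rho B k (X i) = 0
      rw [rho, aeval_X, if_neg hi.ne']
    have e2 : B.upp (fun i => (rho B k).toRingHom (X i)) = 1 := by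
      rw [← upp_zero B]
      refine upp_congr B fun i hi => ?_
      show rho B k (X i) = 0
      rw [rho, aeval_X, if_neg hi.ne]
    rw [e1, e2, one_mul, mul_one]
    congr 1
    funext p
    show rho B k (X (B.dx p)) = X (B.dx p)
    rw [rho, aeval_X, if_pos]
    rw [Blk.dx, B.rw_ix, B.cl_ix]
  have hphi : (B.ldu (X : Fin (m + 1) → MvPolynomial (Fin (m + 1)) k)).map (phi B T).toRingHom =
      (B.low T).map C * Matrix.diagonal (fun p => C (B.dia T p) * X (B.dx p)) *
        (B.upp T).map C := by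
    rw [← Lin.ldu_map, Blk.ldu]
    have e1 : B.low (fun i => (phi B T).toRingHom (X i)) = (B.low T).map C := by
      rw [← Lin.low_map]
      refine low_congr B fun i hi => ?_
      show phi B T (X i) = C (T i)
      rw [phi, aeval_X, if_neg hi.ne']
    have e2 : B.upp (fun i => (phi B T).toRingHom (X i)) = (B.upp T).map C := by
      rw [← Lin.upp_map]
      refine upp_congr B fun i hi => ?_
      show phi B T (X i) = C (T i)
      rw [phi, aeval_X, if_neg hi.ne]
    rw [e1, e2]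
    congr 3
    funext p
    show phi B T (X (B.dx p)) = C (T (B.dx p)) * X (B.dx p)
    rw [phi, aeval_X, if_pos]
    rw [Blk.dx, B.rw_ix, B.cl_ix]
  have hL : rho B k (B.Th k (B.vec ((B.low T * Matrix.diagonal (B.dia T)).map C * B.XX k *
      (B.upp T).map C) i)) = ((B.low T * Matrix.diagonal (B.dia T)).map C *
        Matrix.diagonal (B.dia X) * (B.upp T).map C :
          Matrix (Fin N) (Fin N) (MvPolynomial (Fin (m + 1)) k)) (B.rw i) (B.cl i) := by
    let f : MvPolynomial (Fin (m + 1)) k →+* MvPolynomial (Fin (m + 1)) k :=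
      (rho B k).toRingHom.comp (B.Th k).toRingHom
    have hC : ∀ M : Matrix (Fin N) (Fin N) k, (M.map C).map f = M.map C := by
      intro M
      ext1 p q
      show rho B k (B.Th k (C (M p q))) = C (M p q)
      rw [← algebraMap_eq, AlgHom.commutes, AlgHom.commutes]
    have hX : (B.XX k).map f = Matrix.diagonal (B.dia X) := by
      rw [← hrho, ← hTh, Matrix.map_map]
      rfl
    have h1 : ((B.low T * Matrix.diagonal (B.dia T)).map C * B.XX k * (B.upp T).map C).map f =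
        (B.low T * Matrix.diagonal (B.dia T)).map C * Matrix.diagonal (B.dia X) *
          (B.upp T).map C := by
      rw [Matrix.map_mul, Matrix.map_mul, hC, hC, hX]
    exact congrFun (congrFun h1 (B.rw i)) (B.cl i)
  have hR : phi B T (B.Th k (X i)) = ((B.low T).map C *
      Matrix.diagonal (fun p => C (B.dia T p) * X (B.dx p)) * (B.upp T).map C :
        Matrix (Fin N) (Fin N) (MvPolynomial (Fin (m + 1)) k)) (B.rw i) (B.cl i) := by
    rw [← hphi, Blk.Th, aeval_X]
    rfl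
  rw [hL, hR, Matrix.map_mul, Matrix.diagonal_map (map_zero C), mul_assoc ((B.low T).map C),
    Matrix.diagonal_mul_diagonal]
  rfl

end poly

end Orb

namespace Orb

/-! ### moved frames -/

section moved

theorem map_g_eq (F : GC k K B) {a c : Matrix (Fin N) (Fin N) k} {σ : K ≃ₐ[k] K}
    (h : F.IsTr a c σ) :
    (F.map σ).g = a.map (algebraMap k K) * F.g * c.map (algebraMap k K) := h.2.2

theorem map_g_det (F : GC k K B) {a c : Matrix (Fin N) (Fin N) k} {σ : K ≃ₐ[k] K}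
    (h : F.IsTr a c σ) :
    (F.map σ).g.det = algebraMap k K (a.det * c.det) * F.g.det := by
  have h1 : ∀ M : Matrix (Fin N) (Fin N) k, (M.map (algebraMap k K)).det = algebraMap k K M.det :=
    fun M => (RingHom.map_det (algebraMap k K) M).symm
  rw [map_g_eq F h, Matrix.det_mul, Matrix.det_mul, h1, h1, map_mul]
  ring

theorem aeval_trP (F : GC k K B) {a c : Matrix (Fin N) (Fin N) k} {σ : K ≃ₐ[k] K}
    (h : F.IsTr a c σ) (P : MvPolynomial (Fin (m + 1)) k) :
    aeval F.y (B.trP a c P) = aeval (F.map σ).y P := by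
  have h0 : (aeval F.y).comp (B.trP a c) = aeval (F.map σ).y := by
    apply MvPolynomial.algHom_ext
    intro i
    rw [AlgHom.comp_apply, Blk.trP, aeval_X, aeval_X]
    let f : MvPolynomial (Fin (m + 1)) k →+* K :=
      (aeval F.y : MvPolynomial (Fin (m + 1)) k →ₐ[k] K).toRingHom
    have hC : ∀ M : Matrix (Fin N) (Fin N) k, (M.map C).map f = M.map (algebraMap k K) := by
      intro M
      ext1 p q
      show (aeval F.y : MvPolynomial (Fin (m + 1)) k →ₐ[k] K) (C (M p q)) = algebraMap k K (M p q)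
      exact aeval_C _ _
    have hX : (B.XX k).map f = F.g := by
      rw [Blk.XX, ← Lin.mat_map]
      have : (fun i => f (X i)) = F.y := by
        funext i
        exact aeval_X _ _
      rw [this]
      rfl
    have h1 : (a.map C * B.XX k * c.map C).map f =
        a.map (algebraMap k K) * F.g * c.map (algebraMap k K) := by
      rw [Matrix.map_mul, Matrix.map_mul, hC, hC, hX]
    rw [← map_g_eq F h] at h1
    have h2 := congrFun (congrFun h1 (B.rw i)) (B.cl i)
    have h3 : (F.map σ).g (B.rw i) (B.cl i) = (F.map σ).y i :=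
      congrFun (vec_mat B (F.map σ).y) i
    rw [h3] at h2
    exact h2
  rw [← h0]
  rfl

theorem prep_back (F : GC k K B) {a c : Matrix (Fin N) (Fin N) k} {σ : K ≃ₐ[k] K}
    (h : F.IsTr a c σ) {f : K} {n : ℕ} {P : MvPolynomial (Fin (m + 1)) k}
    (hP : (F.map σ).PRep f n P) :
    F.PRep f n (C (((a.det * c.det) ^ n)⁻¹) * B.trP a c P) := by
  have h0 : algebraMap k K (a.det * c.det) ≠ 0 := by
    rw [Ne, map_eq_zero]
    exact mul_ne_zero h.1.2 h.2.1.2
  rw [GC.PRep, map_g_det F h, mul_pow] at hP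
  rw [GC.PRep, map_mul, aeval_C, aeval_trP F h, ← hP, map_inv₀, map_pow]
  field_simp

theorem lim_moved (F : GC k K B) (T : Fin (m + 1) → k) (h0 : ∀ p, B.dia T p ≠ 0)
    {τ : K ≃ₐ[k] K}
    (hτ : F.IsTr (B.low T * Matrix.diagonal (B.dia T))⁻¹ (B.upp T)⁻¹ τ) {f : K} {n : ℕ}
    {P P' : MvPolynomial (Fin (m + 1)) k} (hP : F.PRep f n P) (hP' : (F.map τ).PRep f n P')
    (Λ : AddSubgroup (Fin N → ℤ)) :
    B.lim Λ n P' = ((∏ p, B.dia T p) ^ n)⁻¹ *
      ∑ s ∈ (B.Th k P).support.filter fun s => (B.dg s - fun _ => (n : ℤ)) ∈ Λ,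
        (B.Th k P).coeff s * ∏ i, T i ^ s i := by
  have hd : (B.low T * Matrix.diagonal (B.dia T)).det = ∏ p, B.dia T p := by
    rw [Matrix.det_mul, det_low, one_mul, Matrix.det_diagonal]
  have hd0 : (∏ p, B.dia T p) ≠ 0 := Finset.prod_ne_zero_iff.2 fun p _ => h0 p
  have hu1 : IsUnit (B.low T * Matrix.diagonal (B.dia T)).det := by
    rw [hd]; exact isUnit_iff_ne_zero.2 hd0
  have hu2 : IsUnit (B.upp T).det := by rw [det_upp]; exact isUnit_one
  have h1 := rep_unique _ hP' (rep_map hτ hP)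
  rw [Matrix.nonsing_inv_nonsing_inv _ hu1, Matrix.nonsing_inv_nonsing_inv _ hu2,
    Matrix.det_nonsing_inv, Matrix.det_nonsing_inv, hd, det_upp, Ring.inverse_one, mul_one,
    Ring.inverse_eq_inv', inv_pow] at h1
  have h2 : rho B k (B.Th k (B.trP (B.low T * Matrix.diagonal (B.dia T)) (B.upp T) P)) =
      phi B T (B.Th k P) := congrArg (fun g => g P) (comp_eq B T)
  have h3 : B.Th k (C (((∏ p, B.dia T p) ^ n)⁻¹)) = C (((∏ p, B.dia T p) ^ n)⁻¹) := by
    rw [← algebraMap_eq, AlgHom.commutes]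
  rw [h1, lim_eq, map_mul, h3, C_mul', map_smul, smul_eq_mul, ← Lm_rho, h2, Lm_phi]

theorem of_tri {R : Type v} [CommRing R] {M M' : Matrix (Fin N) (Fin N) R} (δ : Fin N → R)
    (hb : B.IsBl M) (hb' : B.IsBl M') (h1 : ∀ p, M p p = 1) (h1' : ∀ p, M' p p = 1)
    (ht : ∀ p q, p < q → M p q = 0) (ht' : ∀ p q, q < p → M' p q = 0) :
    ∃ T : Fin (m + 1) → R, B.low T = M ∧ B.upp T = M' ∧ B.dia T = δ := by
  refine ⟨fun i => if B.rw i = B.cl i then δ (B.rw i) else
    if B.cl i < B.rw i then M (B.rw i) (B.cl i) else M' (B.rw i) (B.cl i), ?_, ?_, ?_⟩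
  · ext p q
    simp only [Blk.low, Blk.mat]
    by_cases hpq : p = q
    · subst hpq
      rw [if_pos rfl, h1]
    · rw [if_neg hpq]
      by_cases hlt : q < p
      · rw [if_pos hlt]
        by_cases hbb : B.b p = B.b q
        · rw [dif_pos hbb, B.rw_ix, B.cl_ix, if_neg hpq, if_pos hlt]
        · rw [dif_neg hbb, hb p q hbb]
      · rw [if_neg hlt, ht p q (lt_of_le_of_ne (not_lt.1 hlt) hpq)]
  · ext p q
    simp only [Blk.upp, Blk.mat]
    by_cases hpq : p = q
    · subst hpq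
      rw [if_pos rfl, h1']
    · rw [if_neg hpq]
      by_cases hlt : p < q
      · rw [if_pos hlt]
        by_cases hbb : B.b p = B.b q
        · rw [dif_pos hbb, B.rw_ix, B.cl_ix, if_neg hpq, if_neg hlt.not_gt]
        · rw [dif_neg hbb, hb' p q hbb]
      · rw [if_neg hlt, ht' p q (lt_of_le_of_ne (not_lt.1 hlt) (Ne.symm hpq))]
  · funext p
    simp only [Blk.dia, Blk.dx, B.rw_ix, B.cl_ix, if_pos]

theorem diag_mul {R : Type v} [CommRing R] {M M' : Matrix (Fin N) (Fin N) R}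
    (ht : ∀ p q, p < q → M p q = 0) (ht' : ∀ p q, p < q → M' p q = 0) (p : Fin N) :
    (M * M') p p = M p p * M' p p := by
  rw [Matrix.mul_apply]
  refine Finset.sum_eq_single p ?_ ?_
  · intro r _ hr
    rcases lt_or_gt_of_ne hr with h | h
    · rw [ht' r p h, mul_zero]
    · rw [ht p r h, zero_mul]
  · intro h
    exact absurd (Finset.mem_univ p) h

theorem diag_mul' {R : Type v} [CommRing R] {M M' : Matrix (Fin N) (Fin N) R}
    (ht : ∀ p q, q < p → M p q = 0) (ht' : ∀ p q, q < p → M' p q = 0) (p : Fin N) :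
    (M * M') p p = M p p * M' p p := by
  rw [Matrix.mul_apply]
  refine Finset.sum_eq_single p ?_ ?_
  · intro r _ hr
    rcases lt_or_gt_of_ne hr with h | h
    · rw [ht p r h, zero_mul]
    · rw [ht' r p h, mul_zero]
  · intro h
    exact absurd (Finset.mem_univ p) h

theorem adm_moved (F : GC k K B) {O : ValuationSubring K} (ha : Adm F O) (T : Fin (m + 1) → k)
    (h0 : ∀ p, B.dia T p ≠ 0) {τ : K ≃ₐ[k] K}
    (hτ : F.IsTr (B.low T * Matrix.diagonal (B.dia T))⁻¹ (B.upp T)⁻¹ τ) : Adm (F.map τ) O := by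
  set t : Fin N → k := B.dia T with ht
  have hL : IsUnit (B.low T).det := by rw [det_low]; exact isUnit_one
  have hU : IsUnit (B.upp T).det := by rw [det_upp]; exact isUnit_one
  let iL := Matrix.invertibleOfIsUnitDet _ hL
  let iU := Matrix.invertibleOfIsUnitDet _ hU
  have hLi : ((B.low T)⁻¹).IsLowerTriangular :=
    Matrix.blockTriangular_inv_of_blockTriangular (Lin.low_tri B T)
  have hUi : ((B.upp T)⁻¹).IsUpperTriangular :=
    Matrix.blockTriangular_inv_of_blockTriangular (Lin.upp_tri B T)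
  have hLd : ∀ p, (B.low T)⁻¹ p p = 1 := fun p => by
    have h1 := diag_mul (M := B.low T) (M' := (B.low T)⁻¹) (fun p q h => Lin.low_lt B T h)
      (fun p q h => hLi h) p
    rw [Matrix.mul_nonsing_inv _ hL, Matrix.one_apply_eq, Lin.low_self, one_mul] at h1
    exact h1.symm
  have hUd : ∀ p, (B.upp T)⁻¹ p p = 1 := fun p => by
    have h1 := diag_mul' (M := B.upp T) (M' := (B.upp T)⁻¹) (fun p q h => Lin.upp_lt B T h)
      (fun p q h => hUi h) p
    rw [Matrix.mul_nonsing_inv _ hU, Matrix.one_apply_eq, Lin.upp_self, one_mul] at h1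
    exact h1.symm
  -- the factors over `K`
  let al : k → K := algebraMap k K
  let tK : Fin N → K := fun p => al (t p)
  have htK : ∀ p, tK p ≠ 0 := fun p => by
    show algebraMap k K (t p) ≠ 0
    rw [Ne, map_eq_zero]
    exact h0 p
  let M₀ : Matrix (Fin N) (Fin N) K := ((B.low T)⁻¹).map (algebraMap k K) * F.L
  let M' : Matrix (Fin N) (Fin N) K := F.U * ((B.upp T)⁻¹).map (algebraMap k K)
  let M : Matrix (Fin N) (Fin N) K := Matrix.diagonal (fun p => (tK p)⁻¹) * M₀ * Matrix.diagonal tK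
  have hMa : ∀ p q, M p q = (tK p)⁻¹ * M₀ p q * tK q := fun p q => by
    show (Matrix.diagonal (fun p => (tK p)⁻¹) * M₀ * Matrix.diagonal tK) p q = _
    rw [Matrix.mul_diagonal, Matrix.diagonal_mul]
  have hM₀t : ∀ p q, p < q → M₀ p q = 0 := by
    have h1 : (((B.low T)⁻¹).map (algebraMap k K)).IsLowerTriangular := fun p q h => by
      show algebraMap k K ((B.low T)⁻¹ p q) = 0
      rw [hLi h, map_zero]
    exact fun p q h => (h1.mul (Lin.low_tri B F.T)) h
  have hM't : ∀ p q, q < p → M' p q = 0 := by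
    have h1 : (((B.upp T)⁻¹).map (algebraMap k K)).IsUpperTriangular := fun p q h => by
      show algebraMap k K ((B.upp T)⁻¹ p q) = 0
      rw [hUi h, map_zero]
    exact fun p q h => ((Lin.upp_tri B F.T).mul h1) h
  have hM₀d : ∀ p, M₀ p p = 1 := fun p => by
    have h1 := diag_mul (M := ((B.low T)⁻¹).map (algebraMap k K)) (M' := F.L)
      (fun p q h => by
        show algebraMap k K ((B.low T)⁻¹ p q) = 0
        rw [hLi h, map_zero]) (fun p q h => Lin.low_lt B F.T h) p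
    have h2 : F.L p p = 1 := Lin.low_self B F.T p
    have h3 : (((B.low T)⁻¹).map (algebraMap k K)) p p = 1 := by
      show algebraMap k K ((B.low T)⁻¹ p p) = 1
      rw [hLd, map_one]
    rw [h2, h3, one_mul] at h1
    exact h1
  have hM'd : ∀ p, M' p p = 1 := fun p => by
    have h1 := diag_mul' (M := F.U) (M' := ((B.upp T)⁻¹).map (algebraMap k K))
      (fun p q h => Lin.upp_lt B F.T h) (fun p q h => by
        show algebraMap k K ((B.upp T)⁻¹ p q) = 0
        rw [hUi h, map_zero]) p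
    have h2 : F.U p p = 1 := Lin.upp_self B F.T p
    have h3 : (((B.upp T)⁻¹).map (algebraMap k K)) p p = 1 := by
      show algebraMap k K ((B.upp T)⁻¹ p p) = 1
      rw [hUd, map_one]
    rw [h2, h3, one_mul] at h1
    exact h1
  have hMt : ∀ p q, p < q → M p q = 0 := fun p q h => by
    rw [hMa, hM₀t p q h, mul_zero, zero_mul]
  have hMd : ∀ p, M p p = 1 := fun p => by
    rw [hMa, hM₀d, mul_one, inv_mul_cancel₀ (htK p)]
  have hblK : ∀ X : Matrix (Fin N) (Fin N) k, B.IsBl X → B.IsBl (X.map (algebraMap k K)) :=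
    fun X hX p q h => by
      show algebraMap k K (X p q) = 0
      rw [hX p q h, map_zero]
  have hM₀b : B.IsBl M₀ := isBl_mul B (hblK _ (isBl_inv (isBl_low B T))) (isBl_low B F.T)
  have hM'b : B.IsBl M' := isBl_mul B (isBl_upp B F.T) (hblK _ (isBl_inv (isBl_upp B T)))
  have hMb : B.IsBl M := isBl_mul B (isBl_mul B (isBl_diagonal B _) hM₀b) (isBl_diagonal B _)
  obtain ⟨T', hT1, hT2, hT3⟩ := of_tri (fun p => (tK p)⁻¹ * F.d p) hMb hM'b hMd hM'd hMt hM't
  -- uniqueness of the decomposition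
  have hg : B.ldu T' = B.ldu (F.map τ).T := by
    rw [(F.map τ).hT]
    show B.ldu T' = (F.map τ).g
    rw [map_g_eq F hτ, Blk.ldu, hT1, hT2, hT3, g_eq F]
    have e1 : ((B.low T * Matrix.diagonal t)⁻¹).map (algebraMap k K) =
        Matrix.diagonal (fun p => (tK p)⁻¹) * ((B.low T)⁻¹).map (algebraMap k K) := by
      have h1 : (Matrix.diagonal t)⁻¹ = Matrix.diagonal fun p => (t p)⁻¹ := by
        apply Matrix.inv_eq_right_inv
        rw [Matrix.diagonal_mul_diagonal, ← Matrix.diagonal_one]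
        congr 1
        funext p
        exact mul_inv_cancel₀ (h0 p)
      rw [Matrix.mul_inv_rev, h1, Matrix.map_mul, Matrix.diagonal_map (map_zero _)]
      congr 2
      funext p
      exact map_inv₀ (algebraMap k K) (t p)
    rw [e1]
    have e2 : Matrix.diagonal tK * Matrix.diagonal (fun p => (tK p)⁻¹ * F.d p) =
        Matrix.diagonal F.d := by
      rw [Matrix.diagonal_mul_diagonal]
      congr 1
      funext p
      rw [← mul_assoc, mul_inv_cancel₀ (htK p), one_mul]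
    calc M * Matrix.diagonal (fun p => (tK p)⁻¹ * F.d p) * M'
        = Matrix.diagonal (fun p => (tK p)⁻¹) * M₀ *
          (Matrix.diagonal tK * Matrix.diagonal (fun p => (tK p)⁻¹ * F.d p)) * M' := by
          simp only [M, mul_assoc]
      _ = Matrix.diagonal (fun p => (tK p)⁻¹) * M₀ * Matrix.diagonal F.d * M' := by rw [e2]
      _ = _ := by simp only [M₀, M', mul_assoc]
  have hT'0 : ∀ p, B.dia T' p ≠ 0 := fun p => by
    rw [hT3]
    exact mul_ne_zero (inv_ne_zero (htK p)) (d_ne F p)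
  have hTT := ldu_inj hg hT'0
  have hL' : (F.map τ).L = M := by rw [← hT1, hTT]; rfl
  have hU' : (F.map τ).U = M' := by rw [← hT2, hTT]; rfl
  have hd' : ∀ p, (F.map τ).d p = (tK p)⁻¹ * F.d p := fun p => by
    have := congrFun hT3 p
    rw [hTT] at this
    exact this
  have hconst : ∀ c : k, algebraMap k K c ∈ O := ha.const
  have htO : ∀ p, tK p ∈ O := fun p => ha.const _
  have htO' : ∀ p, (tK p)⁻¹ ∈ O := fun p => by
    show (algebraMap k K (t p))⁻¹ ∈ O
    rw [← map_inv₀]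
    exact ha.const _
  refine ⟨ha.const, fun p q => ?_, fun p q => ?_, fun p q hpq hb => ?_⟩
  · rw [hL', hMa]
    refine O.mul_mem _ _ (O.mul_mem _ _ (htO' p) ?_) (htO q)
    show (((B.low T)⁻¹).map (algebraMap k K) * F.L) p q ∈ O
    rw [Matrix.mul_apply]
    exact sum_mem fun r _ => O.mul_mem _ _ (ha.const _) (ha.low r q)
  · rw [hU']
    show (F.U * ((B.upp T)⁻¹).map (algebraMap k K)) p q ∈ O
    rw [Matrix.mul_apply]
    exact sum_mem fun r _ => O.mul_mem _ _ (ha.upp p r) (ha.const _)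
  · rw [hd', hd']
    have h1 : (tK q)⁻¹ * F.d q / ((tK p)⁻¹ * F.d p) = (tK q)⁻¹ * tK p * (F.d q / F.d p) := by
      have := htK p
      have := htK q
      have := d_ne F p
      field_simp
    rw [h1]
    exact O.mul_mem _ _ (O.mul_mem _ _ (htO' q) (htO p)) (ha.inc p q hpq hb)

end moved

end Orb

namespace Orb

/-! ### the residue argument -/

theorem exists_T [IsAlgClosed k] (F : GC k K B) {O : ValuationSubring K} (ha : Adm F O)
    (Λ : AddSubgroup (Fin N → ℤ)) (hΛ : ∀ μ ∈ Λ, F.dm μ ∈ O) :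
    ∃ T : Fin (m + 1) → k, (∀ p, B.dia T p ≠ 0) ∧
      ∀ (s : Finset (Fin (m + 1) →₀ ℕ)) (e : (Fin (m + 1) →₀ ℕ) → k) (n : ℕ) (c : k),
        (∀ x ∈ s, (B.dg x - fun _ => (n : ℤ)) ∈ Λ) → ∀ z : K,
        z = (∑ x ∈ s, algebraMap k K (e x) * (F.off x * F.dm (B.dg x - fun _ => (n : ℤ)))) -
          algebraMap k K c → (z = 0 ∨ z⁻¹ ∉ O) →
        ((∏ p, B.dia T p) ^ n)⁻¹ * ∑ x ∈ s, e x * ∏ i, T i ^ x i = c := by
  -- finitely many generators of `Λ`
  obtain ⟨G, hG⟩ : ∃ G : Finset (Fin N → ℤ), AddSubgroup.closure (G : Set (Fin N → ℤ)) = Λ := by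
    have h1 : (AddSubgroup.toIntSubmodule Λ).FG := IsNoetherian.noetherian _
    rw [Submodule.fg_iff_addSubgroup_fg] at h1
    exact h1
  let W : Set K := (Set.range fun s : Fin N × Fin N => F.L s.1 s.2) ∪
    (Set.range fun s : Fin N × Fin N => F.U s.1 s.2) ∪ (F.dm '' (G : Set (Fin N → ℤ))) ∪
    ((fun μ => F.dm (-μ)) '' (G : Set (Fin N → ℤ)))
  have hW : W.Finite := (((Set.finite_range _).union (Set.finite_range _)).union
    (G.finite_toSet.image _)).union (G.finite_toSet.image _)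
  let S : Subalgebra k K := Algebra.adjoin k W
  have hWS : W ⊆ S := Algebra.subset_adjoin
  have hSL : ∀ p q, F.L p q ∈ S := fun p q =>
    hWS (Or.inl (Or.inl (Or.inl ⟨(p, q), rfl⟩)))
  have hSU : ∀ p q, F.U p q ∈ S := fun p q =>
    hWS (Or.inl (Or.inl (Or.inr ⟨(p, q), rfl⟩)))
  have hdm : ∀ μ ∈ Λ, F.dm μ ∈ S ∧ F.dm (-μ) ∈ S := by
    intro μ hμ
    rw [← hG] at hμ
    induction hμ using AddSubgroup.closure_induction with
    | mem x hx => exact ⟨hWS (Or.inl (Or.inr ⟨x, hx, rfl⟩)), hWS (Or.inr ⟨x, hx, rfl⟩)⟩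
    | zero =>
      rw [neg_zero, dm_zero]
      exact ⟨S.one_mem, S.one_mem⟩
    | add x y _ _ hx hy =>
      rw [neg_add, dm_add, dm_add]
      exact ⟨S.mul_mem hx.1 hy.1, S.mul_mem hx.2 hy.2⟩
    | neg x _ hx =>
      rw [neg_neg]
      exact ⟨hx.2, hx.1⟩
  have hSO : ∀ x ∈ S, x ∈ O := by
    intro x hx
    induction hx using Algebra.adjoin_induction with
    | mem x hx =>
      rcases hx with ((⟨s, rfl⟩ | ⟨s, rfl⟩) | ⟨μ, hμ, rfl⟩) | ⟨μ, hμ, rfl⟩
      · exact ha.low _ _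
      · exact ha.upp _ _
      · exact hΛ μ (hG ▸ AddSubgroup.subset_closure hμ)
      · exact hΛ (-μ) (Λ.neg_mem (hG ▸ AddSubgroup.subset_closure hμ))
    | algebraMap c => exact ha.const c
    | add x y _ _ hx hy => exact O.add_mem _ _ hx hy
    | mul x y _ _ hx hy => exact O.mul_mem _ _ hx hy
  have hft : Algebra.FiniteType k S := (Subalgebra.fg_iff_finiteType _).1
    (Subalgebra.fg_def.2 ⟨W, hW, rfl⟩)
  let j : S →+* O :=
    { toFun := fun x => ⟨x.1, hSO x.1 x.2⟩
      map_one' := rfl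
      map_mul' := fun _ _ => rfl
      map_zero' := rfl
      map_add' := fun _ _ => rfl }
  let nn : Ideal S := (IsLocalRing.maximalIdeal O).comap j
  have hnn : nn.IsPrime := Ideal.comap_isPrime j _
  obtain ⟨M, hM, hle⟩ := Ideal.exists_le_maximal nn hnn.ne_top
  obtain ⟨β, hβ⟩ := Pool.Agent.MLD.Ten.point (k := k) M
  have hβ0 : ∀ x : S, ((x : K) = 0 ∨ (x : K)⁻¹ ∉ O) → β x = 0 := by
    intro x hx
    have h1 : x ∈ nn := (mem_max O (j x)).2 hx
    have h2 : x ∈ RingHom.ker β := by rw [hβ]; exact hle h1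
    exact h2
  -- the character
  let ψ : (Fin N → ℤ) → k := fun μ => if h : F.dm μ ∈ S then β ⟨F.dm μ, h⟩ else 0
  have hψ : ∀ μ (h : μ ∈ Λ), ψ μ = β ⟨F.dm μ, (hdm μ h).1⟩ := fun μ h => dif_pos (hdm μ h).1
  have hψ0 : ∀ μ ∈ Λ.toAddSubmonoid, ψ μ ≠ 0 := by
    intro μ hμ h
    have hμ' : μ ∈ Λ := hμ
    rw [hψ μ hμ'] at h
    have h1 : (⟨F.dm μ, (hdm μ hμ').1⟩ : S) * ⟨F.dm (-μ), (hdm μ hμ').2⟩ = 1 := by
      ext
      show F.dm μ * F.dm (-μ) = 1
      rw [dm_neg, mul_inv_cancel₀ (dm_ne F μ)]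
    have h2 := congrArg β h1
    rw [map_mul, h, zero_mul, map_one] at h2
    exact zero_ne_one h2
  have hψm : ∀ μ ∈ Λ.toAddSubmonoid, ∀ ν ∈ Λ.toAddSubmonoid, ψ (μ + ν) = ψ μ * ψ ν := by
    intro μ hμ ν hν
    have hμ' : μ ∈ Λ := hμ
    have hν' : ν ∈ Λ := hν
    rw [hψ _ (Λ.add_mem hμ' hν'), hψ _ hμ', hψ _ hν', ← map_mul]
    congr 1
    ext
    exact dm_add F μ ν
  obtain ⟨t, ht0, ht⟩ := chext Λ.toAddSubmonoid ψ hψ0 hψm
  -- the coordinates
  have hTS : ∀ i, B.rw i ≠ B.cl i → F.T i ∈ S := by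
    intro i hi
    have h1 : F.T i = B.mat F.T (B.rw i) (B.cl i) := (congrFun (vec_mat B F.T) i).symm
    rcases lt_or_gt_of_ne hi with h | h
    · rw [h1, ← Lin.upp_gt B F.T h]
      exact hSU _ _
    · rw [h1, ← Lin.low_gt B F.T h]
      exact hSL _ _
  let TS : Fin (m + 1) → S := fun i => if h : B.rw i = B.cl i then 1 else ⟨F.T i, hTS i h⟩
  let T : Fin (m + 1) → k := fun i => if B.rw i = B.cl i then t (B.rw i) else β (TS i)
  have hTd : ∀ p, T (B.dx p) = t p := fun p => by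
    show (if B.rw (B.dx p) = B.cl (B.dx p) then t (B.rw (B.dx p)) else β (TS (B.dx p))) = t p
    rw [Blk.dx, B.rw_ix, B.cl_ix, if_pos rfl]
  refine ⟨T, fun p => by rw [Blk.dia, hTd]; exact ht0 p, ?_⟩
  intro s e n c hs z hz hz0
  have hoff : ∀ x, F.off x = ((∏ i, TS i ^ x i : S) : K) := by
    intro x
    rw [GC.off, SubmonoidClass.coe_finsetProd]
    refine Finset.prod_congr rfl fun i _ => ?_
    by_cases hi : B.rw i = B.cl i
    · rw [if_pos hi]
      simp [TS, hi]
    · rw [if_neg hi]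
      simp [TS, hi]
  let DS : (Fin N → ℤ) → S := fun μ => if h : F.dm μ ∈ S then ⟨F.dm μ, h⟩ else 0
  have hDS : ∀ μ ∈ Λ, (DS μ : K) = F.dm μ := fun μ h => by
    show (((if h : F.dm μ ∈ S then (⟨F.dm μ, h⟩ : S) else 0) : S) : K) = _
    rw [dif_pos (hdm μ h).1]
  have hDψ : ∀ μ ∈ Λ, β (DS μ) = ∏ i, t i ^ μ i := fun μ h => by
    rw [ht μ h, hψ μ h]
    show β (if h : F.dm μ ∈ S then (⟨F.dm μ, h⟩ : S) else 0) = _
    rw [dif_pos (hdm μ h).1]
  let w : S := (∑ x ∈ s, algebraMap k S (e x) * ((∏ i, TS i ^ x i) *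
    DS (B.dg x - fun _ => (n : ℤ)))) - algebraMap k S c
  have hw : (w : K) = z := by
    rw [hz]
    show ((((∑ x ∈ s, algebraMap k S (e x) * ((∏ i, TS i ^ x i) *
      DS (B.dg x - fun _ => (n : ℤ)))) - algebraMap k S c : S)) : K) = _
    rw [AddSubgroupClass.coe_sub, AddSubmonoidClass.coe_finsetSum]
    congr 1
    refine Finset.sum_congr rfl fun x hx => ?_
    rw [hoff x, ← hDS _ (hs x hx)]
    rfl
  have hw0 : β w = 0 := hβ0 w (by rw [hw]; exact hz0)
  have hw1 : β w = (∑ x ∈ s, e x * (β (∏ i, TS i ^ x i) *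
      ∏ i, t i ^ ((B.dg x - fun _ => (n : ℤ) : Fin N → ℤ) i))) - c := by
    show β ((∑ x ∈ s, algebraMap k S (e x) * ((∏ i, TS i ^ x i) *
      DS (B.dg x - fun _ => (n : ℤ)))) - algebraMap k S c) = _
    rw [map_sub, map_sum, AlgHom.commutes]
    congr 1
    refine Finset.sum_congr rfl fun x hx => ?_
    rw [map_mul, map_mul, AlgHom.commutes, hDψ _ (hs x hx)]
    rfl
  rw [hw1, sub_eq_zero] at hw0
  rw [← hw0, Finset.mul_sum]
  refine Finset.sum_congr rfl fun x hx => ?_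
  have h1 := Lin.monomial_T (B := B) T x
  have h2 : (∏ i, if B.rw i = B.cl i then 1 else T i ^ x i) = β (∏ i, TS i ^ x i) := by
    rw [map_prod]
    refine Finset.prod_congr rfl fun i _ => ?_
    rw [map_pow]
    by_cases hi : B.rw i = B.cl i
    · rw [if_pos hi]
      have : TS i = 1 := dif_pos hi
      rw [this, map_one, one_pow]
    · rw [if_neg hi]
      have : T i = β (TS i) := if_neg hi
      rw [this]
  have h3 : ∏ p, T (B.dx p) ^ x (B.dx p) = ∏ p, t p ^ x (B.dx p) :=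
    Finset.prod_congr rfl fun p _ => by rw [hTd]
  have h4 : ∏ i, t i ^ ((B.dg x - fun _ => (n : ℤ) : Fin N → ℤ) i) =
      (∏ p, t p ^ x (B.dx p)) * ((∏ p, B.dia T p) ^ n)⁻¹ := by
    rw [← Finset.prod_pow, ← Finset.prod_inv_distrib, ← Finset.prod_mul_distrib]
    refine Finset.prod_congr rfl fun p _ => ?_
    rw [Pi.sub_apply, zpow_sub₀ (ht0 p), zpow_natCast, Blk.dia, hTd, Blk.dg, zpow_natCast,
      div_eq_mul_inv]
  rw [h1, h2, h3, h4]
  ring

/-- the order given by an adapted valuation ring -/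
def ordAdm {F : GC k K B} {O : ValuationSubring K} (ha : Adm F O) : Ord B where
  P :=
    { carrier := {μ | F.dm μ ∈ O}
      add_mem' := fun {a b} h h' => by
        show F.dm (a + b) ∈ O
        rw [dm_add]
        exact O.mul_mem _ _ h h'
      zero_mem' := by
        show F.dm 0 ∈ O
        rw [dm_zero]
        exact O.one_mem }
  total := fun μ => by
    show F.dm μ ∈ O ∨ F.dm (-μ) ∈ O
    rw [dm_neg]
    exact O.mem_or_inv_mem _
  cham := fun p q h hb => by
    show F.dm (Pi.single q (1 : ℤ) - Pi.single p (1 : ℤ)) ∈ O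
    rw [sub_eq_add_neg, dm_add, dm_neg, dm_single, dm_single, ← div_eq_mul_inv]
    exact ha.inc p q h hb

theorem off_mem {F : GC k K B} {O : ValuationSubring K} (ha : Adm F O) (s : Fin (m + 1) →₀ ℕ) :
    F.off s ∈ O := by
  rw [GC.off]
  refine prod_mem fun i _ => ?_
  split_ifs with hi
  · exact O.one_mem
  · refine pow_mem ?_ _
    have h1 : F.T i = B.mat F.T (B.rw i) (B.cl i) := (congrFun (vec_mat B F.T) i).symm
    rcases lt_or_gt_of_ne hi with h | h
    · rw [h1, ← Lin.upp_gt B F.T h]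
      exact ha.upp _ _
    · rw [h1, ← Lin.low_gt B F.T h]
      exact ha.low _ _

theorem orb_adm [IsAlgClosed k] {F : GC k K B} {A : Subalgebra k K} (hA : IsEmb F A)
    (y : MaximalSpectrum A) {O : ValuationSubring K} (hc : Cen O A y.asIdeal) (ha : Adm F O) :
    ∃ τ, F.Tra τ ∧ Adm (F.map τ) O ∧
      IsLim (F.map τ) (Zof F y.asIdeal) y.asIdeal := by
  obtain ⟨X⟩ := exists_xdata hA
  set Λ : AddSubgroup (Fin N → ℤ) := AddSubgroup.closure (Zof F y.asIdeal) with hΛdef
  have hGam : ∀ μ ∈ GamX B X.Q X.x, μ ∈ Gam F A := fun μ h => (X.gam μ).2 h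
  have hG : GamX B X.Q X.x ⊆ (ordAdm ha).P := fun μ h => by
    show F.dm μ ∈ O
    exact hc.1 ⟨F.dm μ, (hGam μ h).2⟩
  have hzof := zof_adm hA hc ha
  have hZ : ∀ μ ∈ Zof F y.asIdeal, μ ∈ (ordAdm ha).zero := fun μ h => by
    obtain ⟨h1, h2⟩ := (hzof μ).1 h
    refine ⟨hG ((X.gam μ).1 h1), ?_⟩
    show F.dm (-μ) ∈ O
    rw [dm_neg]
    exact h2
  have hΛz : Λ ≤ (ordAdm ha).zero := (AddSubgroup.closure_le _).2 hZ
  have hΛO : ∀ μ ∈ Λ, F.dm μ ∈ O := fun μ h => (hΛz h).1
  have hzΛ : ∀ μ ∈ SX B X.Q X.x, μ ∈ (ordAdm ha).zero → μ ∈ Λ := by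
    intro μ h1 h2
    have h3 := sx_zero X.mon (ordAdm ha) hG h1 h2
    refine AddSubgroup.closure_mono ?_ h3
    rintro ν ⟨h4, h5⟩
    refine (hzof ν).2 ⟨hGam ν h4, ?_⟩
    have h6 : F.dm (-ν) ∈ O := h5.2
    rwa [dm_neg] at h6
  obtain ⟨T, hT0, hT⟩ := exists_T F ha Λ hΛO
  have hg1 : B.IsG (B.low T * Matrix.diagonal (B.dia T)) := by
    refine ⟨isBl_mul B (isBl_low B T) (isBl_diagonal B _), ?_⟩
    rw [Matrix.det_mul, det_low, one_mul, Matrix.det_diagonal]
    exact Finset.prod_ne_zero_iff.2 fun p _ => hT0 p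
  have hg2 : B.IsG (B.upp T) := ⟨isBl_upp B T, by rw [det_upp]; exact one_ne_zero⟩
  obtain ⟨τ, hτ⟩ := exists_tr F (isG_inv hg1) (isG_inv hg2)
  refine ⟨τ, ⟨_, _, hτ⟩, adm_moved F ha T hT0 hτ, ?_⟩
  intro f n P' hP'
  have hP := prep_back F hτ hP'
  set P := C (((((B.low T * Matrix.diagonal (B.dia T))⁻¹).det * ((B.upp T)⁻¹).det) ^ n)⁻¹) *
    B.trP (B.low T * Matrix.diagonal (B.dia T))⁻¹ (B.upp T)⁻¹ P' with hPdef
  have hfg : Algebra.FiniteType k A := (Subalgebra.fg_iff_finiteType _).1 hA.good.fg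
  have hym := y.isMaximal
  obtain ⟨β, hβ⟩ := Pool.Agent.MLD.Ten.point (k := k) y.asIdeal
  have hfc : f - algebraMap k A (β f) ∈ y.asIdeal := by
    rw [← hβ, RingHom.mem_ker]
    show β (f - algebraMap k A (β f)) = 0
    rw [map_sub, AlgHom.commutes]
    exact sub_self _
  rw [lim_moved F T hT0 hτ hP hP' Λ]
  have hSX : ∀ s ∈ (B.Th k P).support, (B.dg s - fun _ => (n : ℤ)) ∈ SX B X.Q X.x := fun s hs =>
    exp_mem hA X f.2 hP (ee_supp hs)
  have key : ((∏ p, B.dia T p) ^ n)⁻¹ *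
      ∑ s ∈ (B.Th k P).support.filter fun s => (B.dg s - fun _ => (n : ℤ)) ∈ Λ,
        (B.Th k P).coeff s * ∏ i, T i ^ s i = β f := by
    refine hT _ (fun s => (B.Th k P).coeff s) n (β f) (fun x hx => (Finset.mem_filter.1 hx).2)
      _ rfl ?_
    have h1 : ∑ x ∈ (B.Th k P).support.filter fun s => (B.dg s - fun _ => (n : ℤ)) ∈ Λ,
        algebraMap k K ((B.Th k P).coeff x) * (F.off x * F.dm (B.dg x - fun _ => (n : ℤ))) -
          algebraMap k K (β f) = ((f : K) - algebraMap k K (β f)) +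
        -∑ x ∈ (B.Th k P).support.filter fun s => ¬ (B.dg s - fun _ => (n : ℤ)) ∈ Λ,
        algebraMap k K ((B.Th k P).coeff x) * (F.off x * F.dm (B.dg x - fun _ => (n : ℤ))) := by
      have h2 := rep_sum F hP
      rw [← Finset.sum_filter_add_sum_filter_not _ fun s => (B.dg s - fun _ => (n : ℤ)) ∈ Λ] at h2
      conv_rhs => rw [h2]
      ring
    rw [h1]
    refine (nu_add ?_ (nu_neg (nu_sum _ _ fun x hx => ?_))).2
    · have h3 := (hc.2 (f - algebraMap k A (β f))).1 hfc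
      exact ⟨hc.1 (f - algebraMap k A (β f)), h3⟩
    · rw [Finset.mem_filter] at hx
      rw [← mul_assoc]
      refine nu_mul (O.mul_mem _ _ (ha.const _) (off_mem ha x)) ?_
      have h4 := sx_sub (ordAdm ha) hG (hSX x hx.1)
      refine ⟨h4, Or.inr fun h5 => hx.2 (hzΛ _ (hSX x hx.1) ⟨h4, ?_⟩)⟩
      show F.dm (-(B.dg x - fun _ => (n : ℤ))) ∈ O
      rw [dm_neg]
      exact h5
  rw [key]
  exact hfc

end Orb

section
variable [IsAlgClosed k] {C : GC k K B} {A : Subalgebra k K}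

theorem orb (hA : IsEmb C A) (y : MaximalSpectrum A) :
    ∃ σ, C.Tra σ ∧ ∃ O : ValuationSubring K, Cen O A y.asIdeal ∧ Adm (C.map σ) O ∧
      IsLim (C.map σ) (Zof C y.asIdeal) y.asIdeal := by
  have hy := y.isMaximal
  obtain ⟨O, hO⟩ := exists_cen y.asIdeal hy.isPrime
  obtain ⟨σ, hσ, hadm⟩ := frame C O fun c => by
    have := hO.1 (algebraMap k A c)
    exact this
  obtain ⟨τ, hτ, h1, h2⟩ := Orb.orb_adm (emb_map hσ hA) y hO hadm
  rw [zof_map hσ hA] at h2
  exact ⟨σ.trans τ, tra_trans C hσ ((tra_map hσ τ).1 hτ), O, hO,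
    ⟨h1.const, h1.low, h1.upp, h1.inc⟩, fun f n P hP => h2 f n P hP⟩

end

end

end Pool.Agent.MLD.Mon
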