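import Pool.Agent.Lib.MP_f23696_ag.NrmA
import Pool.Agent.Lib.MP_f23696_ag.M.Lin
import Pool.Agent.Lib.MP_f23696_ag.M.Tra
import Pool.Agent.Lib.MP_f23696_ag.M.Frm
import Pool.Agent.Lib.MP_f23696_ag.M.Cb
import Pool.Agent.Lib.MP_f23696_ag.M.Eigt
import Pool.Agent.Lib.MP_f23696_ag.M.Reg
import Pool.Agent.Lib.MP_f23696_ag.M.Inv
import Pool.Agent.Lib.MP_f23696_ag.M.Orb
import Pool.Agent.Lib.MP_f23696_ag.M.Ge
import Pool.Agent.Lib.MP_f23696_ag.M.Col

/-!
Module EQN of project MON (MP_f23696_ag): semi-invariant local equations.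
-/

set_option autoImplicit false

open scoped Classical

namespace Pool.Agent.MLD.Mon

open MvPolynomial
open Pool.Agent.MLD.Ten (IsGood)

noncomputable section

universe u v w

variable {N m : ℕ} {B : Blk N m} {k : Type u} {K : Type v} [Field k] [Field K] [Algebra k K]

namespace Eqn

open Pool.Agent.MLD.Jac (LB)

/-- transport of a valuation by an automorphism -/
def comp (v : DVal k K) (σ : K ≃ₐ[k] K) : DVal k K where
  ord a := v.ord (σ a)
  ord_mul a b ha hb := by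
    rw [map_mul]
    exact v.ord_mul _ _ (by simpa using ha) (by simpa using hb)
  ord_add a b ha hb hab := by
    have h : σ a + σ b ≠ 0 := fun e => hab (σ.injective (by rw [map_add, e, map_zero]))
    rw [map_add]
    exact v.ord_add _ _ (by simpa using ha) (by simpa using hb) h
  ord_algebraMap c hc := by
    rw [AlgEquiv.commutes]
    exact v.ord_algebraMap c hc
  exists_ord_eq_one := by
    obtain ⟨a, ha, h⟩ := v.exists_ord_eq_one
    exact ⟨σ.symm a, by simpa using ha, by simpa using h⟩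

theorem comp_ord (v : DVal k K) (σ : K ≃ₐ[k] K) (a : K) : (comp v σ).ord a = v.ord (σ a) := rfl

theorem comp_center {A : Subalgebra k K} {σ : K ≃ₐ[k] K} (hs : ∀ f ∈ A, σ f ∈ A) {p q : Ideal A}
    (h : MapsTo σ p q) {v : DVal k K} (hv : v.HasCenter A q) : (comp v σ).HasCenter A p := by
  constructor
  · intro a ha
    exact hv.1 ⟨σ a, hs a a.2⟩ (by simpa using ha)
  · intro a
    rw [h a ⟨σ a, hs a a.2⟩ rfl, hv.2]
    constructor
    · intro h1 ha
      exact h1 (by simpa using ha)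
    · intro h1 ha
      exact h1 (by simpa using ha)

/-- multiplication with an element outside of `y` removes the poles along the divisors which do
not pass through `y` -/
theorem exists_den {A : Subalgebra k K} (hA : IsGood A) (y : Ideal A) (hy : y.IsPrime) (h : K)
    (h0 : h ≠ 0) : ∃ s : A, s ∉ y ∧ ∀ q : Ideal A, IsHeightOne q → ¬ q ≤ y → ∀ v : DVal k K,
      v.HasCenter A q → 0 ≤ v.ord ((s : K) * h) := by
  have hN := Pool.Agent.MLD.Ten.Ind.noeth A hA.fg
  obtain ⟨a, b, hb, hab⟩ := hA.frac h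
  have hb' : b ≠ 0 := fun e => hb (by rw [e]; rfl)
  have ha : (a : K) ≠ 0 := by
    intro e
    apply h0
    rw [hab, e, zero_div]
  set F : Finset (Ideal A) := (finite_heightOne A hN b hb').toFinset.filter fun q => ¬ q ≤ y with hF
  have hs : ∀ q : Ideal A, ∃ s : A, ¬ q ≤ y → s ∈ q ∧ s ∉ y := by
    intro q
    by_cases hq : q ≤ y
    · exact ⟨0, fun h => absurd hq h⟩
    · obtain ⟨s, h1, h2⟩ := SetLike.not_le_iff_exists.1 hq
      exact ⟨s, fun _ => ⟨h1, h2⟩⟩
  choose s hs using hs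
  have he : ∀ q : Ideal A, ∃ e : ℕ, IsHeightOne q → ∀ v : DVal k K, v.HasCenter A q →
      v.ord (b : K) ≤ e := by
    intro q
    by_cases hq : IsHeightOne q
    · obtain ⟨w, hw, -⟩ := dvr A hN hA.frac hA.norm q hq
      refine ⟨(w.ord (b : K)).toNat, fun _ v hv => ?_⟩
      rw [dvr_unique A hN hA.frac hA.norm q hq v w hv hw (b : K) hb]
      exact Int.self_le_toNat _
    · exact ⟨0, fun h => absurd h hq⟩
  choose e he using he
  have hS : (∏ q ∈ F, s q) ∉ y := by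
    intro h1
    obtain ⟨q, hq, h2⟩ := (Ideal.IsPrime.prod_mem_iff (hp := hy)).1 h1
    rw [hF, Finset.mem_filter] at hq
    exact (hs q hq.2).2 h2
  refine ⟨(∏ q ∈ F, s q) ^ (∑ q ∈ F, e q), fun h1 => hS (hy.mem_of_pow_mem _ h1), ?_⟩
  intro q hq hqy v hv
  have hS0 : ((∏ q ∈ F, s q : A) : K) ≠ 0 := by
    intro h1
    apply hS
    rw [show (∏ q ∈ F, s q) = 0 from Subtype.ext h1]
    exact y.zero_mem
  have hord : v.ord ((((∏ q ∈ F, s q) ^ (∑ q ∈ F, e q) : A) : K) * h) =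
      (∑ q ∈ F, e q : ℕ) * v.ord ((∏ q ∈ F, s q : A) : K) + (v.ord (a : K) - v.ord (b : K)) := by
    rw [Subalgebra.coe_pow, v.ord_mul _ _ (pow_ne_zero _ hS0) h0, Pool.Agent.MLD.Jac.ord_pow v _ hS0,
      hab, Pool.Agent.MLD.Ten.ord_div v _ _ ha hb]
  rw [hord]
  have h1 : 0 ≤ v.ord (a : K) := hv.1 a ha
  have h2 : 0 ≤ v.ord ((∏ q ∈ F, s q : A) : K) := hv.1 _ hS0
  by_cases hbq : b ∈ q
  · have hqF : q ∈ F := by
      rw [hF, Finset.mem_filter, Set.Finite.mem_toFinset]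
      exact ⟨⟨hq, hbq⟩, hqy⟩
    have h3 : 1 ≤ v.ord ((∏ q ∈ F, s q : A) : K) := by
      have h4 : (∏ q ∈ F, s q) ∈ q := by
        rw [← Finset.mul_prod_erase _ _ hqF]
        exact q.mul_mem_right _ (hs q hqy).1
      exact (hv.2 _).1 h4 hS0
    have h5 : v.ord (b : K) ≤ (∑ q ∈ F, e q : ℕ) := by
      refine (he q hq v hv).trans ?_
      exact_mod_cast Finset.single_le_sum (f := e) (fun _ _ => Nat.zero_le _) hqF
    have h6 : (0 : ℤ) ≤ (∑ q ∈ F, e q : ℕ) := Int.natCast_nonneg _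
    nlinarith
  · have h3 := (Pool.Agent.MLD.Ten.Ind.out v hv hbq).2
    have h6 : (0 : ℤ) ≤ (∑ q ∈ F, e q : ℕ) := Int.natCast_nonneg _
    rw [h3]
    have := mul_nonneg h6 h2
    linarith

section
variable [IsAlgClosed k] {C : GC k K B} {A : Subalgebra k K}

theorem nv_add {h : Matrix (Fin N) (Fin N) k} (hh : B.IsG h) {f f' : K} (hf : C.Reg f)
    (hf' : C.Reg f') (h1 : ¬ C.NV h f) (h2 : ¬ C.NV h f') : ¬ C.NV h (f + f') := by
  obtain ⟨n, P, hP⟩ := hf
  obtain ⟨n', P', hP'⟩ := hf'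
  have h3 := rep_succ C hP n'
  have h4 := rep_succ C hP' n
  rw [add_comm n' n] at h4
  rw [nv_iff hh h3, not_not] at h1
  rw [nv_iff hh h4, not_not] at h2
  have h5 : C.PRep (f + f') (n + n') (P * (B.XX k).det ^ n' + P' * (B.XX k).det ^ n) := by
    unfold GC.PRep at h3 h4 ⊢
    rw [add_mul, map_add, h3, h4]
  rw [nv_iff hh h5, not_not, map_add, h1, h2, add_zero]

theorem nv_one {h : Matrix (Fin N) (Fin N) k} (hh : B.IsG h) : C.NV h (1 : K) := by
  have h1 : C.PRep (1 : K) 0 1 := by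
    unfold GC.PRep
    simp
  rw [nv_iff hh h1]
  simp

theorem nv_zero {h : Matrix (Fin N) (Fin N) k} (hh : B.IsG h) : ¬ C.NV h (0 : K) := by
  have h1 : C.PRep (0 : K) 0 0 := by
    unfold GC.PRep
    simp
  rw [nv_iff hh h1]
  simp

/-- the ideal of the point `h` of `G` -/
def pt (hA : IsEmb C A) {h : Matrix (Fin N) (Fin N) k} (hh : B.IsG h) : Ideal A where
  carrier := {a | ¬ C.NV h (a : K)}
  add_mem' := fun {a b} ha hb => nv_add hh (emb_reg hA _ a.2) (emb_reg hA _ b.2) ha hb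
  zero_mem' := nv_zero hh
  smul_mem' := fun c a ha => by
    show ¬ C.NV h ((c : K) * (a : K))
    rw [nv_mul hh (emb_reg hA _ c.2) (emb_reg hA _ a.2)]
    exact fun h1 => ha h1.2

theorem mem_pt (hA : IsEmb C A) {h : Matrix (Fin N) (Fin N) k} (hh : B.IsG h) (a : A) :
    a ∈ pt hA hh ↔ ¬ C.NV h (a : K) := Iff.rfl

theorem pt_prime (hA : IsEmb C A) {h : Matrix (Fin N) (Fin N) k} (hh : B.IsG h) :
    (pt hA hh).IsPrime := by
  refine ⟨?_, ?_⟩
  · rw [Ideal.ne_top_iff_one, mem_pt, not_not]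
    exact nv_one hh
  · intro a b hab
    by_contra hcon
    push Not at hcon
    rw [mem_pt, mem_pt, not_not, not_not] at hcon
    exact hab ((nv_mul hh (emb_reg hA _ a.2) (emb_reg hA _ b.2)).2 hcon)

/-- a function which has no poles along the interior divisors is regular on `G` -/
theorem reg_of_intr (hA : IsEmb C A) (f : K)
    (h : ∀ q : Ideal A, IsHeightOne q → IntrI C q → ∀ v : DVal k K, v.HasCenter A q →
      v.Integral f) : C.Reg f := by
  have hN := Pool.Agent.MLD.Ten.Ind.noeth A hA.good.fg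
  by_cases hf : f = 0
  · rw [hf]
    have := reg_const C (0 : k)
    rwa [map_zero] at this
  refine reg_of_local fun h' hh' => ?_
  obtain ⟨s, hs, hsf⟩ := hartogs A hN hA.good.frac hA.good.norm (pt hA hh') (pt_prime hA hh') f hf
    (by
      intro q hq hqp
      obtain ⟨v, hv, hv'⟩ := dvr A hN hA.good.frac hA.good.norm q hq
      exact (hv' f hf).1 (h q hq ⟨h', hh', fun a ha => hqp ha⟩ v hv hf))
  rw [mem_pt, not_not] at hs
  exact ⟨s, emb_reg hA _ s.2, hs, emb_reg hA _ hsf⟩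

/-- the functions which vanish along the invariant divisors through `y` at least as `h` and have
no other poles -/
def MM (C : GC k K B) {A : Subalgebra k K} (y : Ideal A) (h : K) : Submodule k K where
  carrier := {f | ∀ q : Ideal A, IsHeightOne q → ∀ v : DVal k K, v.HasCenter A q →
    LB v (if InvI C q ∧ q ≤ y then v.ord h else 0) f}
  add_mem' := fun ha hb q hq v hv => (ha q hq v hv).add (hb q hq v hv)
  zero_mem' := fun _ _ v _ => LB.zero v _
  smul_mem' := fun c _ ha q hq v hv => Pool.Agent.MLD.Ten.LB_smul v c (ha q hq v hv)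

theorem mem_MM {y : Ideal A} {h f : K} : f ∈ MM C y h ↔ ∀ q : Ideal A, IsHeightOne q →
    ∀ v : DVal k K, v.HasCenter A q → LB v (if InvI C q ∧ q ≤ y then v.ord h else 0) f := Iff.rfl

theorem MM_stab (hA : IsEmb C A) (y : Ideal A) (h : K) (σ : K ≃ₐ[k] K) (hσ : C.Tra σ) (f : K)
    (hf : f ∈ MM C y h) : σ f ∈ MM C y h := by
  rw [mem_MM] at hf ⊢
  intro q hq v hv
  by_cases hi : InvI C q
  · intro h0
    have hf0 : f ≠ 0 := fun e => h0 (by rw [e, map_zero])
    rw [inv_val hA hq hi hv hσ hf0]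
    exact hf q hq v hv hf0
  · rw [if_neg fun h => hi h.1]
    obtain ⟨q', h1, -, h2⟩ := exists_mapsTo hA (tra_symm C hσ) q
    have h3 : MapsTo σ q' q := by
      intro a c hc
      exact (h1 c a (by rw [hc, σ.symm_apply_apply])).symm
    have hi' : ¬ InvI C q' := by
      intro h4
      apply hi
      have h5 : q' = q := by
        ext c
        have h6 := h3 ⟨σ.symm c, hA.stab _ (tra_symm C hσ) c c.2⟩ c (σ.apply_symm_apply _).symm
        have h7 := h4 σ hσ ⟨σ.symm c, hA.stab _ (tra_symm C hσ) c c.2⟩ c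
          (σ.apply_symm_apply _).symm
        rw [← h6, ← h7]
      rw [← h5]
      exact h4
    have h8 := hf q' (h2 hq) (comp v σ) (comp_center (hA.stab σ hσ) h3 hv)
    rw [if_neg fun h => hi' h.1] at h8
    intro h0
    exact h8 fun e => h0 (by rw [e, map_zero])

/-- adapted frames at an interior divisor have pivots of order zero -/
theorem intr_lam (hA : IsEmb C A) {q : Ideal A} (hq : IsHeightOne q) (hi : IntrI C q)
    {v : DVal k K} (hv : v.HasCenter A q) {l : Fin N → ℤ} (h : Lam C v l) : l = 0 := by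
  obtain ⟨σ, hσ, hL, hU, hd, -⟩ := h
  set C' : GC k K B := C.map σ with hC'
  have hreg : ∀ f, C'.Reg f → v.Integral f := fun f hf =>
    (intr_val hA hq hi hv).1 f ((reg_map hσ f).1 hf)
  let L0 : Matrix (Fin N) (Fin N) (Pool.Agent.MLD.Ten.ring v) := fun p q => ⟨C'.L p q, hL p q⟩
  let U0 : Matrix (Fin N) (Fin N) (Pool.Agent.MLD.Ten.ring v) := fun p q => ⟨C'.U p q, hU p q⟩
  let g0 : Matrix (Fin N) (Fin N) (Pool.Agent.MLD.Ten.ring v) := fun p q =>
    ⟨C'.g p q, hreg _ (reg_g C' p q)⟩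
  set ι : Pool.Agent.MLD.Ten.ring v →+* K := algebraMap (Pool.Agent.MLD.Ten.ring v) K with hι
  have eL : ι.mapMatrix L0 = C'.L := by
    ext p q
    rfl
  have eU : ι.mapMatrix U0 = C'.U := by
    ext p q
    rfl
  have eg : ι.mapMatrix g0 = C'.g := by
    ext p q
    rfl
  have hdetL : C'.L.det = 1 := det_low B C'.T
  have hdetU : C'.U.det = 1 := det_upp B C'.T
  have hg := g_eq C'
  have hgne := det_g_ne C'
  have e1 : C'.L.adjugate * C'.g * C'.U.adjugate = Matrix.diagonal C'.d := by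
    rw [hg]
    calc C'.L.adjugate * (C'.L * Matrix.diagonal C'.d * C'.U) * C'.U.adjugate
        = (C'.L.adjugate * C'.L) * Matrix.diagonal C'.d * (C'.U * C'.U.adjugate) := by
          simp only [Matrix.mul_assoc]
      _ = Matrix.diagonal C'.d := by
          rw [Matrix.adjugate_mul, Matrix.mul_adjugate, hdetL, hdetU, one_smul,
            Matrix.one_mul, Matrix.mul_one]
  have e2 : Matrix.diagonal C'.d * (C'.U * C'.g.adjugate * C'.L) =
      C'.g.det • (1 : Matrix (Fin N) (Fin N) K) := by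
    calc Matrix.diagonal C'.d * (C'.U * C'.g.adjugate * C'.L)
        = (C'.L.adjugate * C'.L) * Matrix.diagonal C'.d * (C'.U * C'.g.adjugate * C'.L) := by
          rw [Matrix.adjugate_mul, hdetL, one_smul, Matrix.one_mul]
      _ = C'.L.adjugate * ((C'.L * Matrix.diagonal C'.d * C'.U) * C'.g.adjugate) * C'.L := by
          simp only [Matrix.mul_assoc]
      _ = C'.L.adjugate * (C'.g * C'.g.adjugate) * C'.L := by rw [← hg]
      _ = C'.g.det • (1 : Matrix (Fin N) (Fin N) K) := by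
          rw [Matrix.mul_adjugate, Matrix.mul_smul, Matrix.smul_mul, Matrix.mul_one,
            Matrix.adjugate_mul, hdetL, one_smul]
  have i1 : ∀ p, v.Integral (C'.d p) := by
    intro p
    have h1 : ι.mapMatrix (L0.adjugate * g0 * U0.adjugate) = Matrix.diagonal C'.d := by
      rw [map_mul, map_mul, RingHom.map_adjugate, RingHom.map_adjugate, eL, eg, eU, e1]
    have h2 : ι ((L0.adjugate * g0 * U0.adjugate) p p) = C'.d p := by
      have h3 := congrFun (congrFun h1 p) p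
      rw [Matrix.diagonal_apply_eq] at h3
      exact h3
    rw [← h2]
    exact ((L0.adjugate * g0 * U0.adjugate) p p).2
  have i2 : ∀ p, ∃ x : K, v.Integral x ∧ C'.d p * x = C'.g.det := by
    intro p
    refine ⟨(C'.U * C'.g.adjugate * C'.L) p p, ?_, ?_⟩
    · have h1 : ι.mapMatrix (U0 * g0.adjugate * L0) = C'.U * C'.g.adjugate * C'.L := by
        rw [map_mul, map_mul, RingHom.map_adjugate, eL, eg, eU]
      rw [← h1]
      exact ((U0 * g0.adjugate * L0) p p).2
    · have h3 := congrFun (congrFun e2 p) p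
      rw [Matrix.diagonal_mul, Matrix.smul_apply, Matrix.one_apply_eq, smul_eq_mul, mul_one] at h3
      exact h3
  have h3 : 0 ≤ -v.ord C'.g.det := by
    have h4 := hreg _ (reg_det_inv C') (inv_ne_zero hgne)
    rwa [Pool.Agent.MLD.Jac.ord_inv v _ hgne] at h4
  funext p
  show l p = 0
  obtain ⟨x, hx, hdx⟩ := i2 p
  have hd0 := d_ne C' p
  have hx0 : x ≠ 0 := by
    rintro rfl
    rw [mul_zero] at hdx
    exact hgne hdx.symm
  have h5 := v.ord_mul _ _ hd0 hx0
  rw [hdx] at h5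
  have h6 := i1 p hd0
  have h7 := hx hx0
  have h8 := hd p
  omega

theorem intr_dm (hA : IsEmb C A) {q : Ideal A} (hq : IsHeightOne q) (hi : IntrI C q)
    {v : DVal k K} (hv : v.HasCenter A q) {μ : Fin N → ℤ} (hμ : B.Dom μ) {σ : K ≃ₐ[k] K}
    (hσ : C.Tra σ) : 0 ≤ v.ord (σ (C.dm μ)) := by
  obtain ⟨l, hl⟩ := frame_dval C v
  have h1 := lam_le hl hσ hμ
  rw [intr_lam hA hq hi hv hl, zero_dotProduct] at h1
  exact h1

/-- the divisors which have to be avoided -/
def Bad (C : GC k K B) {A : Subalgebra k K} (y : Ideal A) (μ : Fin N → ℤ) : Set (Ideal A) :=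
  {q | IsHeightOne q ∧ ¬ q ≤ y ∧ (InvI C q ∨ ∃ v : DVal k K, v.HasCenter A q ∧
    v.ord (C.dm μ) ≠ 0)}

theorem bad_finite (hA : IsEmb C A) (y : Ideal A) (μ : Fin N → ℤ) : (Bad C y μ).Finite := by
  have hN := Pool.Agent.MLD.Ten.Ind.noeth A hA.good.fg
  obtain ⟨a, b, hb, hab⟩ := hA.good.frac (C.dm μ)
  have hb' : b ≠ 0 := fun e => hb (by rw [e]; rfl)
  have ha : (a : K) ≠ 0 := by
    intro e
    apply dm_ne C μ
    rw [hab, e, zero_div]
  have ha' : a ≠ 0 := fun e => ha (by rw [e]; rfl)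
  refine (((inv_finite hA).union (finite_heightOne A hN a ha')).union
    (finite_heightOne A hN b hb')).subset ?_
  rintro q ⟨hq, -, hi | ⟨v, hv, h⟩⟩
  · exact Or.inl (Or.inl ⟨hq, hi⟩)
  · by_cases h1 : a ∈ q
    · exact Or.inl (Or.inr ⟨hq, h1⟩)
    by_cases h2 : b ∈ q
    · exact Or.inr ⟨hq, h2⟩
    exfalso
    apply h
    rw [hab, Pool.Agent.MLD.Ten.ord_div v _ _ ha hb, (Pool.Agent.MLD.Ten.Ind.out v hv h1).2,
      (Pool.Agent.MLD.Ten.Ind.out v hv h2).2, sub_zero]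

end

end Eqn

section EQN

variable [IsAlgClosed k] [CharZero k] {C : GC k K B} {A : Subalgebra k K}

open Eqn Pool.Agent.MLD.Jac in
/-- a local equation can be replaced by a semi-invariant -/
theorem eqn_one (hA : IsEmb C A) (X : XData C A) (y : MaximalSpectrum A) {O : ValuationSubring K}
    (hc : Cen O A y.asIdeal) (ha : Adm C O) (h : K) (h0 : h ≠ 0)
    (hi : ∀ q : Ideal A, IsHeightOne q → IntrI C q → q ≤ y.asIdeal → ∀ v : DVal k K,
      v.HasCenter A q → v.ord h = 0) :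
    ∃ μ, B.Dom μ ∧ (∀ q : Ideal A, IsHeightOne q → q ≤ y.asIdeal → ∀ v : DVal k K,
      v.HasCenter A q → v.ord (C.dm μ) = v.ord h) := by
  have hN := Pool.Agent.MLD.Ten.Ind.noeth A hA.good.fg
  have hy : y.asIdeal.IsPrime := y.isMaximal.isPrime
  obtain ⟨s, hs, hsq⟩ := exists_den hA.good y.asIdeal hy h h0
  have hs0 : (s : K) ≠ 0 := by
    intro e
    apply hs
    rw [show s = 0 from Subtype.ext e]
    exact y.asIdeal.zero_mem
  have hf0 : (s : K) * h ≠ 0 := mul_ne_zero hs0 h0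
  have hf : (s : K) * h ∈ MM C y.asIdeal h := by
    rw [mem_MM]
    intro q hq v hv
    by_cases hqy : q ≤ y.asIdeal
    · have h1 : 0 ≤ v.ord (s : K) := hv.1 s hs0
      have h2 : v.ord ((s : K) * h) = v.ord (s : K) + v.ord h := v.ord_mul _ _ hs0 h0
      by_cases hqi : InvI C q
      · rw [if_pos ⟨hqi, hqy⟩]
        intro _
        omega
      · rw [if_neg fun h => hqi h.1]
        have h3 := hi q hq ((inv_or_intr hA hq).resolve_left hqi) hqy v hv
        intro _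
        omega
    · rw [if_neg fun h => hqy h.2]
      intro _
      exact hsq q hq hqy v hv
  have hreg : C.Reg ((s : K) * h) := by
    refine reg_of_intr hA _ fun q hq hqi v hv => ?_
    have h1 := hf q hq v hv
    rw [if_neg fun h => not_inv_intr hA hq.2.1 h.1 hqi] at h1
    exact h1
  obtain ⟨μ, hμ, hμM, hμO⟩ := eigt_adm ha (MM C y.asIdeal h) (MM_stab hA y.asIdeal h) hf hf0 hreg
  refine ⟨μ, hμ, ?_⟩
  have hd := dm_ne C μ
  have hg0 : C.dm μ / h ≠ 0 := div_ne_zero hd h0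
  obtain ⟨s', hs', hsf'⟩ := hartogs A hN hA.good.frac hA.good.norm y.asIdeal hy (C.dm μ / h) hg0
    (by
      intro q hq hqy
      obtain ⟨v, hv, hv'⟩ := dvr A hN hA.good.frac hA.good.norm q hq
      refine (hv' _ hg0).1 ?_
      rw [Pool.Agent.MLD.Ten.ord_div v _ _ hd h0]
      have h1 := (mem_MM.1 hμM) q hq v hv hd
      by_cases hqi : InvI C q
      · rw [if_pos ⟨hqi, hqy⟩] at h1
        omega
      · rw [if_neg fun h => hqi h.1] at h1
        have h3 := hi q hq ((inv_or_intr hA hq).resolve_left hqi) hqy v hv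
        omega)
  have hs'0 : (s' : K) ≠ 0 := by
    intro e
    apply hs'
    rw [show s' = 0 from Subtype.ext e]
    exact y.asIdeal.zero_mem
  set a : A := ⟨(s' : K) * (C.dm μ / h), hsf'⟩ with hadef
  have ha0 : (a : K) ≠ 0 := mul_ne_zero hs'0 hg0
  have hay : a ∉ y.asIdeal := by
    intro h1
    have h2 := ((hc.2 a).1 h1).resolve_left ha0
    apply h2
    have h3 : s' * s ∉ y.asIdeal := fun h => (hy.mem_or_mem h).elim hs' hs
    have h4 : (((s' * s : A) : K))⁻¹ ∈ O := by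
      by_contra h5
      exact h3 ((hc.2 _).2 (Or.inr h5))
    have h6 : (a : K)⁻¹ = ((s : K) * h / C.dm μ) * (((s' * s : A) : K))⁻¹ := by
      have : (a : K) = (s' : K) * (C.dm μ / h) := rfl
      rw [this]
      push_cast
      field_simp
    rw [h6]
    exact O.mul_mem _ _ hμO h4
  intro q hq hqy v hv
  have h1 := (Pool.Agent.MLD.Ten.Ind.out v hv (fun h : a ∈ q => hay (hqy h))).2
  have h2 := (Pool.Agent.MLD.Ten.Ind.out v hv (fun h : s' ∈ q => hs' (hqy h))).2
  have h3 : v.ord (a : K) = v.ord (s' : K) + (v.ord (C.dm μ) - v.ord h) := by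
    have : (a : K) = (s' : K) * (C.dm μ / h) := rfl
    rw [this, v.ord_mul _ _ hs'0 hg0, Pool.Agent.MLD.Ten.ord_div v _ _ hd h0]
  omega

open Eqn in
/-- values of the semi-invariant near `y` -/
theorem eqn_val (hA : IsEmb C A) (X : XData C A) (y : MaximalSpectrum A) {μ : Fin N → ℤ}
    (hμ : B.Dom μ)
    (hi : ∀ q : Ideal A, IsHeightOne q → IntrI C q → q ≤ y.asIdeal → ∀ v : DVal k K,
      v.HasCenter A q → v.ord (C.dm μ) = 0) :
    ∃ U : Set (MaximalSpectrum A), IsOpen U ∧ y ∈ U ∧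
      (∀ x ∈ U, ∀ q : Ideal A, IsHeightOne q → q ≤ x.asIdeal → ¬ q ≤ y.asIdeal →
        IntrI C q ∧ ∀ v : DVal k K, v.HasCenter A q → v.ord (C.dm μ) = 0) ∧
      ∀ x ∈ U, ∀ v : DVal k K, v.HasCenter A x.asIdeal → ∀ l, Lam C v l →
        v.ord (C.dm μ) = l ⬝ᵥ μ := by
  have hN := Pool.Agent.MLD.Ten.Ind.noeth A hA.good.fg
  have h1 : ∀ x ∈ ⋂ q ∈ Bad C y.asIdeal μ, {x : MaximalSpectrum A | ¬ q ≤ x.asIdeal},
      ∀ q : Ideal A, IsHeightOne q → q ≤ x.asIdeal → ¬ q ≤ y.asIdeal →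
        IntrI C q ∧ ∀ v : DVal k K, v.HasCenter A q → v.ord (C.dm μ) = 0 := by
    intro x hx q hq hqx hqy
    have h2 : q ∉ Bad C y.asIdeal μ := fun h => (Set.mem_iInter₂.1 hx q h) hqx
    have h3 : ¬ InvI C q := fun h => h2 ⟨hq, hqy, Or.inl h⟩
    refine ⟨(inv_or_intr hA hq).resolve_left h3, fun v hv => ?_⟩
    by_contra h4
    exact h2 ⟨hq, hqy, Or.inr ⟨v, hv, h4⟩⟩
  refine ⟨⋂ q ∈ Bad C y.asIdeal μ, {x | ¬ q ≤ x.asIdeal},
    (bad_finite hA y.asIdeal μ).isOpen_biInter fun q _ => ?_, ?_, h1, ?_⟩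
  · refine isOpen_induced_iff.2 ⟨(PrimeSpectrum.zeroLocus (q : Set A))ᶜ,
      (PrimeSpectrum.isClosed_zeroLocus _).isOpen_compl, ?_⟩
    ext x
    simp only [Set.mem_preimage, Set.mem_compl_iff, PrimeSpectrum.mem_zeroLocus,
      Set.mem_ofPred_eq]
    exact Iff.rfl
  · exact Set.mem_iInter₂.2 fun q hq => hq.2.1
  · intro x hx v hv l hl
    refine le_antisymm ?_ (lam_le hl (tra_refl C) hμ)
    obtain ⟨σ, hσ, -, -, hd, -⟩ := hl
    have hd0 := dm_ne C μ
    have hs0 : σ (C.dm μ) ≠ 0 := by simpa using hd0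
    have h2 : v.ord (σ (C.dm μ)) = l ⬝ᵥ μ := by
      rw [← map_dm, ord_dm]
      unfold dotProduct
      refine Finset.sum_congr rfl fun p _ => ?_
      rw [hd p, mul_comm]
    have hf0 : σ (C.dm μ) / C.dm μ ≠ 0 := div_ne_zero hs0 hd0
    obtain ⟨s, hs, hsf⟩ := hartogs A hN hA.good.frac hA.good.norm x.asIdeal x.isMaximal.isPrime
      (σ (C.dm μ) / C.dm μ) hf0 (by
        intro q hq hqx
        obtain ⟨w, hw, hw'⟩ := dvr A hN hA.good.frac hA.good.norm q hq
        refine (hw' _ hf0).1 ?_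
        rw [Pool.Agent.MLD.Ten.ord_div w _ _ hs0 hd0]
        rcases inv_or_intr hA hq with hqi | hqi
        · rw [inv_val hA hq hqi hw hσ hd0, sub_self]
        · have h3 : w.ord (C.dm μ) = 0 := by
            by_cases hqy : q ≤ y.asIdeal
            · exact hi q hq hqi hqy w hw
            · exact (h1 x hx q hq hqx hqy).2 w hw
          rw [h3, sub_zero]
          exact intr_dm hA hq hqi hw hμ hσ)
    have h4 := Pool.Agent.MLD.Nrm.ord_nonneg_of_center A x.asIdeal v hv _ hf0 ⟨s, hs, hsf⟩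
    rw [Pool.Agent.MLD.Ten.ord_div v _ _ hs0 hd0] at h4
    omega

theorem Eqn.val_sum (v : DVal k K) {n : ℕ} (ρ : Fin n → ℝ) (h : Fin n → Kˣ) :
    v.val (∑ i, Finsupp.single (h i) (ρ i)) = ∑ i, ρ i * (v.ord (h i : K) : ℝ) := by
  unfold DVal.val
  rw [← Finsupp.sum_finsetSum_index (fun _ => zero_mul _) (fun _ _ _ => add_mul _ _ _)]
  refine Finset.sum_congr rfl fun i _ => ?_
  exact Finsupp.sum_single_index (zero_mul _)

/-- flat pairs reduce to flat pairs of neighbours -/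
theorem Eqn.flat_ind {Z : Set (Fin N → ℤ)} (hZ : ∀ μ ∈ Z, B.Dom μ) (χ : Fin N → ℝ)
    (h : ∀ p q : Fin N, (p : ℕ) + 1 = q → Flat B Z p q → χ p = χ q) :
    ∀ (n : ℕ) (p q : Fin N), (p : ℕ) + n = q → Flat B Z p q → χ p = χ q := by
  intro n
  induction n with
  | zero =>
    intro p q hpq _
    rw [show p = q from Fin.ext (by omega)]
  | succ n ih =>
    intro p q hpq hf
    have hlt : (p : ℕ) + 1 < N := by
      have := q.2
      omega
    have hpr : p ≤ (⟨(p : ℕ) + 1, hlt⟩ : Fin N) := by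
      rw [Fin.le_def]
      show (p : ℕ) ≤ (p : ℕ) + 1
      omega
    have hrq : (⟨(p : ℕ) + 1, hlt⟩ : Fin N) ≤ q := by
      rw [Fin.le_def]
      show (p : ℕ) + 1 ≤ (q : ℕ)
      omega
    have b1 := B.mono hpr
    have b2 := B.mono hrq
    have b3 := hf.1
    have b4 : B.b p = B.b ⟨(p : ℕ) + 1, hlt⟩ := by omega
    have b5 : B.b ⟨(p : ℕ) + 1, hlt⟩ = B.b q := by omega
    have h1 : ∀ μ ∈ Z, μ p = μ ⟨(p : ℕ) + 1, hlt⟩ ∧ μ ⟨(p : ℕ) + 1, hlt⟩ = μ q := by
      intro μ hμ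
      have c1 := hZ μ hμ _ _ hpr b4
      have c2 := hZ μ hμ _ _ hrq b5
      have c3 := hf.2 μ hμ
      omega
    rw [h p ⟨(p : ℕ) + 1, hlt⟩ rfl ⟨b4, fun μ hμ => (h1 μ hμ).1⟩]
    exact ih _ _ (by show (p : ℕ) + 1 + n = q; omega) ⟨b5, fun μ hμ => (h1 μ hμ).2⟩

theorem eqn (hA : IsEmb C A) (X : XData C A) (δ : Ideal A →₀ ℝ) (hδ0 : ∀ p, 0 ≤ δ p)
    (hδ : ∀ σ, C.Tra σ → ∀ p q : Ideal A, MapsTo σ p q → δ p = δ q) (y : MaximalSpectrum A)
    (γ : Kˣ →₀ ℝ) (hγ : IsLocalEq A C.D δ y.asIdeal γ) :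
    ∃ (χ : Fin N → ℝ) (U : Set (MaximalSpectrum A)), IsOpen U ∧ y ∈ U ∧
      (∀ p q, Flat B (Zof C y.asIdeal) p q → χ p = χ q) ∧
      (∀ q ∈ X.Q, q ≤ y.asIdeal → ∑ p, ((B.th p : ℝ) - χ p) * (X.x q p : ℝ) ≤ 1) ∧
      ∀ x ∈ U, ∃ γ', IsLocalEq A C.D δ x.asIdeal γ' ∧ ∀ v : DVal k K,
        v.HasCenter A x.asIdeal → ∀ l, Lam C v l → v.val γ' = ∑ p, χ p * (l p : ℝ) := by
  have hN := Pool.Agent.MLD.Ten.Ind.noeth A hA.good.fg
  have hjac : ∃ c, jac C.D c ≠ 0 :=
    ⟨C.y, by rw [Pool.Agent.MLD.Ten.jac_dual C.D C.y C.dual]; exact one_ne_zero⟩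
  obtain ⟨σ, hσ, O, hc, ha, hlim⟩ := orb hA y
  obtain ⟨X', hQ, hx⟩ := xdata_map hσ hA X
  have hA' : IsEmb (C.map σ) A := emb_map hσ hA
  obtain ⟨n, ρ, h, hρ, hval⟩ := Pool.Agent.MLD.Nrm.qbasis (k := k) γ
  have hint : ∀ q : Ideal A, IsHeightOne q → IntrI C q → q ≤ y.asIdeal → ∀ v : DVal k K,
      v.HasCenter A q → ∀ i, v.ord (h i : K) = 0 := by
    intro q hq hqi hqy v hv
    obtain ⟨j, hj⟩ := Pool.Agent.MLD.Ten.formOrd_heightOne A hA.good C.D hjac q hq v hv
    have h1 := hγ q hqy hq v hv j hj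
    rw [(intr_val hA hq hqi hv).2 j hj, delta_intr hA δ hδ hq hqi, hval] at h1
    exact Pool.Agent.MLD.Nrm.ord_zero_of_sum ρ hρ (fun i => v.ord (h i : K)) (by
      rw [← h1]
      simp)
  have hone : ∀ i, ∃ μ, B.Dom μ ∧ (∀ q : Ideal A, IsHeightOne q → q ≤ y.asIdeal →
      ∀ v : DVal k K, v.HasCenter A q → v.ord ((C.map σ).dm μ) = v.ord (h i : K)) := fun i =>
    eqn_one hA' X' y hc ha (h i : K) (h i).ne_zero fun q hq hqi hqy v hv =>
      hint q hq ((intrI_map hσ q).1 hqi) hqy v hv i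
  choose μ hμ hμv using hone
  have hUi := fun i => eqn_val hA' X' y (hμ i) fun q hq hqi hqy v hv => by
    rw [hμv i q hq hqy v hv]
    exact hint q hq ((intrI_map hσ q).1 hqi) hqy v hv i
  choose U hUo hUy hU1 hU2 using hUi
  obtain ⟨U0, hU0o, hU0y, hU01, -⟩ := eqn_val hA' X' y (μ := 0) (fun _ _ _ _ => le_rfl)
    fun q _ _ _ v _ => by
      rw [dm_zero]
      exact Pool.Agent.MLD.Nrm.ord_one v
  refine ⟨fun p => ∑ i, ρ i * (μ i p : ℝ), U0 ∩ ⋂ i, U i,
    hU0o.inter (isOpen_iInter_of_finite hUo), ⟨hU0y, Set.mem_iInter.2 hUy⟩, ?_, ?_, ?_⟩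
  · -- flat pairs
    have hZ : ∀ ν ∈ Zof C y.asIdeal, B.Dom ν := fun ν hν => hν.1.1
    have hzm := zof_map hσ hA y.asIdeal
    have hn : ∀ p q : Fin N, (p : ℕ) + 1 = q → Flat B (Zof C y.asIdeal) p q →
        ∑ i, ρ i * (μ i p : ℝ) = ∑ i, ρ i * (μ i q : ℝ) := by
      intro p q hpq hf
      obtain ⟨i, v, h1, h2, h3, h4, h5⟩ := color hA' X' y hc ha (by rw [hzm]; exact hlim) hpq
        (by rw [hzm]; exact hf)
      refine Finset.sum_congr rfl fun r _ => ?_
      have h6 := hμv r i h1 h3 v h4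
      rw [hint i h1 ((intrI_map hσ i).1 h2) h3 v h4 r, h5 (μ r)] at h6
      rw [show μ r p = μ r q by omega]
    intro p q hf
    rcases le_total p q with hpq | hpq
    · exact Eqn.flat_ind hZ _ hn ((q : ℕ) - p) p q (by
        have := Fin.le_def.1 hpq
        omega) hf
    · exact (Eqn.flat_ind hZ _ hn ((p : ℕ) - q) q p (by
        have := Fin.le_def.1 hpq
        omega) ⟨hf.1.symm, fun ν hν => (hf.2 ν hν).symm⟩).symm
  · -- the bound
    intro q hq hqy
    have hq1 : IsHeightOne q := ((X.mem q).1 hq).1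
    obtain ⟨v, hv, -⟩ := dvr A hN hA.good.frac hA.good.norm q hq1
    obtain ⟨j, hj⟩ := Pool.Agent.MLD.Ten.formOrd_heightOne A hA.good C.D hjac q hq1 v hv
    obtain ⟨l, hl⟩ := frame_dval C v
    have hlx : ∀ p, l p = X.x q p := by
      obtain ⟨τ, hτ, -, -, hd, -⟩ := hl
      intro p
      rw [← hd p, map_d]
      exact X.ord q hq v hv τ hτ p
    have h1 : ∑ p, B.th p * l p ≤ j + 1 := ge0 hl hj
    have h2 := hγ q hqy hq1 v hv j hj
    rw [hval] at h2
    have h3 : ∑ i, ρ i * (v.ord (h i : K) : ℝ) =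
        ∑ p, (∑ i, ρ i * (μ i p : ℝ)) * (X.x q p : ℝ) := by
      simp only [Finset.sum_mul]
      rw [Finset.sum_comm]
      refine Finset.sum_congr rfl fun i _ => ?_
      rw [← hμv i q hq1 hqy v hv, ord_dm]
      push_cast
      rw [Finset.mul_sum]
      refine Finset.sum_congr rfl fun p _ => ?_
      rw [map_d, X.ord q hq v hv σ hσ p, mul_assoc]
    have h4 : (∑ p, (B.th p : ℝ) * (X.x q p : ℝ)) ≤ (j : ℝ) + 1 := by
      have h5 : ((∑ p, B.th p * l p : ℤ) : ℝ) ≤ ((j + 1 : ℤ) : ℝ) := by exact_mod_cast h1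
      push_cast at h5
      simp only [hlx] at h5
      exact h5
    have h6 := hδ0 q
    simp only [sub_mul, Finset.sum_sub_distrib]
    rw [← h3, ← h2]
    linarith
  · intro x hx
    obtain ⟨hx0, hx1⟩ := hx
    rw [Set.mem_iInter] at hx1
    refine ⟨∑ i, Finsupp.single (Units.mk0 ((C.map σ).dm (μ i)) (dm_ne (C.map σ) (μ i))) (ρ i),
      ?_, ?_⟩
    · intro q hqx hq v hv j hj
      rw [Eqn.val_sum]
      simp only [Units.val_mk0]
      by_cases hqy : q ≤ y.asIdeal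
      · rw [hγ q hqy hq v hv j hj, hval]
        exact Finset.sum_congr rfl fun i _ => by rw [hμv i q hq hqy v hv]
      · have h1 := (intrI_map hσ q).1 (hU01 x hx0 q hq hqx hqy).1
        rw [(intr_val hA hq h1 hv).2 j hj, delta_intr hA δ hδ hq h1]
        rw [Finset.sum_eq_zero fun i _ => by
          rw [(hU1 i x (hx1 i) q hq hqx hqy).2 v hv, Int.cast_zero, mul_zero]]
        simp
    · intro v hv l hl
      rw [Eqn.val_sum]
      simp only [Units.val_mk0, Finset.sum_mul]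
      rw [Finset.sum_comm]
      refine Finset.sum_congr rfl fun i _ => ?_
      rw [hU2 i x (hx1 i) v hv l ((lam_map hσ v l).2 hl)]
      unfold dotProduct
      push_cast
      rw [Finset.mul_sum]
      refine Finset.sum_congr rfl fun p _ => ?_
      ring

end EQN

end

end Pool.Agent.MLD.Mon
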