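import Pool.Agent.Lib.MP_f23696_ag.M.Ctx

/-!
Gordan's lemma for the weight monoid, and the finiteness of the types of linear forms
(MP_f23696_ag, project MON, module FGM).
-/

set_option autoImplicit false

open scoped Classical

namespace Pool.Agent.MLD.Mon

noncomputable section

universe u v

variable {N m : ℕ} {B : Blk N m}

section FGM

namespace Fgm

/-- the solutions of the inequalities with slack variables -/
def P (S : Finset (Fin N → ℤ)) :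
    AddSubmonoid ((Fin N → ℕ) × (Fin N → ℕ) × (S → ℕ)) where
  carrier := {z | ∀ c : S, c.1 ⬝ᵥ (fun i => (z.1 i : ℤ)) =
    c.1 ⬝ᵥ (fun i => (z.2.1 i : ℤ)) + (z.2.2 c : ℤ)}
  add_mem' := by
    intro a b ha hb c
    have h1 := ha c
    have h2 := hb c
    have e1 : (fun i => (((a + b).1 i : ℕ) : ℤ)) =
        (fun i => (a.1 i : ℤ)) + fun i => (b.1 i : ℤ) := by
      funext i
      simp
    have e2 : (fun i => (((a + b).2.1 i : ℕ) : ℤ)) =
        (fun i => (a.2.1 i : ℤ)) + fun i => (b.2.1 i : ℤ) := by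
      funext i
      simp
    have e3 : (((a + b).2.2 c : ℕ) : ℤ) = (a.2.2 c : ℤ) + (b.2.2 c : ℤ) := by simp
    rw [e1, e2, e3, dotProduct_add, dotProduct_add, h1, h2]
    ring
  zero_mem' := by
    intro c
    simp [dotProduct]

theorem P_fg (S : Finset (Fin N → ℤ)) : (P S).FG := by
  refine AddSubmonoid.fg_of_subtractive ?_
  intro a ha b hab c
  have h1 := ha c
  have h2 := hab c
  have e1 : (fun i => (((a + b).1 i : ℕ) : ℤ)) =
      (fun i => (a.1 i : ℤ)) + fun i => (b.1 i : ℤ) := by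
    funext i
    simp
  have e2 : (fun i => (((a + b).2.1 i : ℕ) : ℤ)) =
      (fun i => (a.2.1 i : ℤ)) + fun i => (b.2.1 i : ℤ) := by
    funext i
    simp
  have e3 : (((a + b).2.2 c : ℕ) : ℤ) = (a.2.2 c : ℤ) + (b.2.2 c : ℤ) := by simp
  rw [e1, e2, e3, dotProduct_add, dotProduct_add, h1] at h2
  linarith

/-- the difference of the first two components -/
def df (S : Finset (Fin N → ℤ)) : (Fin N → ℕ) × (Fin N → ℕ) × (S → ℕ) →+ (Fin N → ℤ) where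
  toFun z := fun i => (z.1 i : ℤ) - (z.2.1 i : ℤ)
  map_zero' := by
    funext i
    simp
  map_add' a b := by
    funext i
    simp
    ring

/-- Gordan's lemma -/
theorem gordan (S : Finset (Fin N → ℤ)) : ∃ G : Finset (Fin N → ℤ),
    (∀ g ∈ G, ∀ c ∈ S, 0 ≤ c ⬝ᵥ g) ∧
      ∀ μ : Fin N → ℤ, (∀ c ∈ S, 0 ≤ c ⬝ᵥ μ) → μ ∈ AddSubmonoid.closure (G : Set (Fin N → ℤ)) := by
  obtain ⟨G, hG⟩ := (P_fg S).map (df S)
  refine ⟨G, fun g hg c hc => ?_, fun μ hμ => ?_⟩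
  · have h1 : g ∈ (P S).map (df S) := by
      rw [← hG]
      exact AddSubmonoid.subset_closure hg
    obtain ⟨z, hz, rfl⟩ := h1
    have h2 := hz ⟨c, hc⟩
    have e : df S z = (fun i => (z.1 i : ℤ)) - fun i => (z.2.1 i : ℤ) := rfl
    rw [e, dotProduct_sub]
    have h3 : (0 : ℤ) ≤ (z.2.2 ⟨c, hc⟩ : ℤ) := Int.natCast_nonneg _
    have h4 : c ⬝ᵥ (fun i => (z.1 i : ℤ)) =
      c ⬝ᵥ (fun i => (z.2.1 i : ℤ)) + (z.2.2 ⟨c, hc⟩ : ℤ) := h2
    linarith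
  · rw [hG]
    refine ⟨(fun i => (μ i).toNat, fun i => (-μ i).toNat, fun c => (c.1 ⬝ᵥ μ).toNat), ?_, ?_⟩
    · intro c
      have h1 := hμ c.1 c.2
      have h2 : (((c.1 ⬝ᵥ μ).toNat : ℕ) : ℤ) = c.1 ⬝ᵥ μ := Int.toNat_of_nonneg h1
      show c.1 ⬝ᵥ (fun i => (((μ i).toNat : ℕ) : ℤ)) =
        c.1 ⬝ᵥ (fun i => (((-μ i).toNat : ℕ) : ℤ)) + (((c.1 ⬝ᵥ μ).toNat : ℕ) : ℤ)
      rw [h2, ← dotProduct_add]
      congr 1
      funext i
      show (((μ i).toNat : ℕ) : ℤ) = (((-μ i).toNat : ℕ) : ℤ) + μ i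
      omega
    · funext i
      show (((μ i).toNat : ℕ) : ℤ) - (((-μ i).toNat : ℕ) : ℤ) = μ i
      omega

/-- the inequalities defining the weight monoid -/
def ineq {ι : Type v} (B : Blk N m) (Q : Finset ι) (x : ι → Fin N → ℤ) : Finset (Fin N → ℤ) :=
  (Finset.univ.filter fun s : Fin N × Fin N => s.1 ≤ s.2 ∧ B.b s.1 = B.b s.2).image
    (fun s => Pi.single s.1 (1 : ℤ) - Pi.single s.2 (1 : ℤ)) ∪ Q.image x

theorem mem_gamX {ι : Type v} (Q : Finset ι) (x : ι → Fin N → ℤ) (μ : Fin N → ℤ) :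
    μ ∈ GamX B Q x ↔ ∀ c ∈ ineq B Q x, 0 ≤ c ⬝ᵥ μ := by
  have key : ∀ p q : Fin N, (Pi.single p (1 : ℤ) - Pi.single q (1 : ℤ)) ⬝ᵥ μ = μ p - μ q := by
    intro p q
    rw [sub_dotProduct, single_dotProduct, single_dotProduct, one_mul, one_mul]
  constructor
  · rintro ⟨h1, h2⟩ c hc
    rcases Finset.mem_union.1 hc with hc | hc
    · obtain ⟨s, hs, rfl⟩ := Finset.mem_image.1 hc
      obtain ⟨-, h3, h4⟩ := Finset.mem_filter.1 hs
      rw [key]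
      have := h1 s.1 s.2 h3 h4
      omega
    · obtain ⟨q, hq, rfl⟩ := Finset.mem_image.1 hc
      exact h2 q hq
  · intro h
    refine ⟨fun p q hpq hb => ?_, fun q hq => ?_⟩
    · have h1 := h (Pi.single p (1 : ℤ) - Pi.single q (1 : ℤ)) (Finset.mem_union_left _
        (Finset.mem_image.2 ⟨(p, q), Finset.mem_filter.2 ⟨Finset.mem_univ _, hpq, hb⟩, rfl⟩))
      rw [key] at h1
      omega
    · exact h _ (Finset.mem_union_right _ (Finset.mem_image_of_mem x hq))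

end Fgm

theorem gamX_fg {ι : Type v} (Q : Finset ι) (x : ι → Fin N → ℤ) :
    ∃ G : Finset (Fin N → ℤ), (∀ g ∈ G, g ∈ GamX B Q x) ∧
      ∀ μ ∈ GamX B Q x, μ ∈ AddSubmonoid.closure (G : Set (Fin N → ℤ)) := by
  obtain ⟨G, h1, h2⟩ := Fgm.gordan (Fgm.ineq B Q x)
  exact ⟨G, fun g hg => (Fgm.mem_gamX Q x g).2 (h1 g hg),
    fun μ hμ => h2 μ ((Fgm.mem_gamX Q x μ).1 hμ)⟩

theorem types {ι : Type v} (Q : Finset ι) (x : ι → Fin N → ℤ) :
    ∃ (M : ℕ) (f : (Fin N → ℤ) → Fin M), ∀ l l' : Fin N → ℤ,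
      (∀ μ ∈ GamX B Q x, 0 ≤ l ⬝ᵥ μ) → (∀ μ ∈ GamX B Q x, 0 ≤ l' ⬝ᵥ μ) → f l = f l' →
      ∀ μ ∈ GamX B Q x, (l ⬝ᵥ μ = 0 ↔ l' ⬝ᵥ μ = 0) := by
  obtain ⟨G, hG1, hG2⟩ := gamX_fg (B := B) Q x
  refine ⟨Fintype.card (Finset {g // g ∈ G}), fun l => Fintype.equivFin (Finset {g // g ∈ G})
    (Finset.univ.filter fun g => l ⬝ᵥ g.1 = 0), ?_⟩
  intro l l' hl hl' hf μ hμ
  have hf' := (Fintype.equivFin (Finset {g // g ∈ G})).injective hf
  have hg : ∀ g ∈ G, (l ⬝ᵥ g = 0 ↔ l' ⬝ᵥ g = 0) := by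
    intro g hg
    have h1 := Finset.ext_iff.1 hf' ⟨g, hg⟩
    simpa using h1
  have key : 0 ≤ l ⬝ᵥ μ ∧ 0 ≤ l' ⬝ᵥ μ ∧ (l ⬝ᵥ μ = 0 ↔ l' ⬝ᵥ μ = 0) := by
    have h2 := hG2 μ hμ
    clear hμ
    induction h2 using AddSubmonoid.closure_induction with
    | mem g hgm => exact ⟨hl g (hG1 g hgm), hl' g (hG1 g hgm), hg g hgm⟩
    | zero => simp
    | add a b _ _ ha hb =>
      rw [dotProduct_add, dotProduct_add]
      obtain ⟨a1, a2, a3⟩ := ha
      obtain ⟨b1, b2, b3⟩ := hb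
      refine ⟨by omega, by omega, ?_⟩
      constructor
      · intro h
        have h1 : l ⬝ᵥ a = 0 := by omega
        have h2 : l ⬝ᵥ b = 0 := by omega
        rw [a3.1 h1, b3.1 h2, add_zero]
      · intro h
        have h1 : l' ⬝ᵥ a = 0 := by omega
        have h2 : l' ⬝ᵥ b = 0 := by omega
        rw [a3.2 h1, b3.2 h2, add_zero]
  exact key.2.2

end FGM

end

end Pool.Agent.MLD.Mon
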