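import Pool.Agent.Lib.MP_f23696_ag.M.Key

/-!
Project MON (MP_f23696_ag), module FIN: the final statement from `lsc_emb`.
-/

set_option autoImplicit false

open scoped Classical

namespace Pool.Agent.MLD.Mon

open MvPolynomial
open Pool.Agent.MLD.Ten (IsGood)

noncomputable section

universe u v w

variable {N m : ℕ} {B : Blk N m} {k : Type u} {K : Type v} [Field k] [Field K] [Algebra k K]

namespace Fin0

/-! ### existence of the decomposition `M = L D U` -/

/-- block diagonal lower unipotent -/
def IsLow {n : ℕ} (b : Fin n → ℕ) (L : Matrix (Fin n) (Fin n) K) : Prop :=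
  (∀ p, L p p = 1) ∧ (∀ p q, p < q → L p q = 0) ∧ ∀ p q, b p ≠ b q → L p q = 0

/-- block diagonal upper unipotent -/
def IsUpp {n : ℕ} (b : Fin n → ℕ) (U : Matrix (Fin n) (Fin n) K) : Prop :=
  (∀ p, U p p = 1) ∧ (∀ p q, q < p → U p q = 0) ∧ ∀ p q, b p ≠ b q → U p q = 0

theorem row_zero {n : ℕ} (b : Fin (n + 1) → ℕ) (hb : Monotone b) (x r d : Fin n → K)
    (U : Matrix (Fin n) (Fin n) K) (hU1 : ∀ p, U p p = 1) (hU2 : ∀ p q, q < p → U p q = 0)
    (hd : ∀ p, d p ≠ 0) (hr : ∀ q : Fin n, b q.castSucc ≠ b (Fin.last n) → r q = 0)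
    (h : ∀ q, ∑ s, x s * d s * U s q = r q) :
    ∀ q : Fin n, b q.castSucc ≠ b (Fin.last n) → x q = 0 := by
  have key : ∀ t : ℕ, ∀ q : Fin n, (q : ℕ) = t → b q.castSucc ≠ b (Fin.last n) → x q = 0 := by
    intro t
    induction t using Nat.strong_induction_on with
    | _ t ih =>
      intro q hqt hq
      have h1 := h q
      rw [hr q hq] at h1
      rw [Finset.sum_eq_single q] at h1
      · rw [hU1 q, mul_one] at h1
        exact (mul_eq_zero.1 h1).resolve_right (hd q)
      · intro s _ hsq
        rcases lt_or_gt_of_ne hsq with hlt | hgt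
        · have hs : b s.castSucc ≠ b (Fin.last n) := by
            intro he
            have h2 : b s.castSucc ≤ b q.castSucc := hb (by
              rw [Fin.le_def]
              exact (Fin.lt_def.1 hlt).le)
            have h3 : b q.castSucc ≤ b (Fin.last n) := hb (Fin.le_last _)
            exact hq (le_antisymm h3 (he ▸ h2))
          rw [ih s (by rw [← hqt]; exact hlt) s rfl hs, zero_mul, zero_mul]
        · rw [hU2 s q hgt, mul_zero]
      · intro h'
        exact absurd (Finset.mem_univ _) h'
  exact fun q => key q q rfl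

/-- bordered matrix -/
def bord {n : ℕ} (A : Matrix (Fin n) (Fin n) K) (c r : Fin n → K) (x : K) :
    Matrix (Fin (n + 1)) (Fin (n + 1)) K := fun p q =>
  Fin.lastCases (motive := fun _ => K) (Fin.lastCases (motive := fun _ => K) x r q)
    (fun p' => Fin.lastCases (motive := fun _ => K) (c p') (fun q' => A p' q') q) p

section bord
set_option linter.unusedSectionVars false
variable {n : ℕ} (A : Matrix (Fin n) (Fin n) K) (c r : Fin n → K) (x : K)

theorem bord_cc (p q : Fin n) : bord A c r x p.castSucc q.castSucc = A p q := by simp [bord]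
theorem bord_cl (p : Fin n) : bord A c r x p.castSucc (Fin.last n) = c p := by simp [bord]
theorem bord_lc (q : Fin n) : bord A c r x (Fin.last n) q.castSucc = r q := by simp [bord]
theorem bord_ll : bord A c r x (Fin.last n) (Fin.last n) = x := by simp [bord]

end bord

theorem ldu_entry {n : ℕ} (L U : Matrix (Fin n) (Fin n) K) (d : Fin n → K) (p q : Fin n) :
    (L * Matrix.diagonal d * U) p q = ∑ r, L p r * d r * U r q := by
  rw [Matrix.mul_apply]
  refine Finset.sum_congr rfl fun r _ => ?_
  rw [Matrix.mul_diagonal]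

theorem exists_ldu : ∀ (n : ℕ) (b : Fin n → ℕ) (_ : Monotone b) (M : Matrix (Fin n) (Fin n) K)
    (_ : ∀ p q, b p ≠ b q → M p q = 0)
    (_ : ∀ (l : ℕ) (hl : l ≤ n), (M.submatrix (Fin.castLE hl) (Fin.castLE hl)).det ≠ 0),
    ∃ (L : Matrix (Fin n) (Fin n) K) (d : Fin n → K) (U : Matrix (Fin n) (Fin n) K),
      IsLow b L ∧ IsUpp b U ∧ M = L * Matrix.diagonal d * U := by
  intro n
  induction n with
  | zero =>
    intro b _ M _ _
    refine ⟨1, fun _ => 1, 1, ⟨fun p => p.elim0, fun p => p.elim0, fun p => p.elim0⟩,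
      ⟨fun p => p.elim0, fun p => p.elim0, fun p => p.elim0⟩, ?_⟩
    ext p
    exact p.elim0
  | succ n ih =>
    intro b hb M hM hm
    set M' : Matrix (Fin n) (Fin n) K := M.submatrix Fin.castSucc Fin.castSucc with hM'
    have hb' : Monotone fun p : Fin n => b p.castSucc := fun p q hpq =>
      hb (by rw [Fin.le_def]; exact hpq)
    obtain ⟨L, d, U, hL, hU, hLU⟩ := ih (fun p => b p.castSucc) hb' M'
      (fun p q hpq => hM _ _ hpq) (fun l hl => by
        have h1 := hm l (hl.trans (Nat.le_succ n))
        exact h1)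
    have hdetM' : M'.det ≠ 0 := hm n (Nat.le_succ n)
    rw [hLU, Matrix.det_mul, Matrix.det_mul, Matrix.det_diagonal] at hdetM'
    have hd : ∀ p, d p ≠ 0 := by
      have h1 : ∏ p, d p ≠ 0 := right_ne_zero_of_mul (left_ne_zero_of_mul hdetM')
      intro p
      exact Finset.prod_ne_zero_iff.1 h1 p (Finset.mem_univ _)
    -- the new column
    have hA1 : IsUnit (L * Matrix.diagonal d).det := by
      rw [Matrix.det_mul, Matrix.det_diagonal]
      exact isUnit_iff_ne_zero.2 (left_ne_zero_of_mul hdetM')
    have hA2 : IsUnit (Matrix.diagonal d * U).det := by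
      rw [Matrix.det_mul, Matrix.det_diagonal]
      exact isUnit_iff_ne_zero.2 (mul_ne_zero
        (right_ne_zero_of_mul (left_ne_zero_of_mul hdetM')) (right_ne_zero_of_mul hdetM'))
    set c : Fin n → K := fun p => M p.castSucc (Fin.last n) with hc
    set r : Fin n → K := fun q => M (Fin.last n) q.castSucc with hr
    set z : Fin n → K := Matrix.mulVec (L * Matrix.diagonal d)⁻¹ c with hz
    set x : Fin n → K := Matrix.vecMul r (Matrix.diagonal d * U)⁻¹ with hx
    have hz1 : Matrix.mulVec (L * Matrix.diagonal d) z = c := by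
      rw [hz, Matrix.mulVec_mulVec, Matrix.mul_nonsing_inv _ hA1, Matrix.one_mulVec]
    have hx1 : Matrix.vecMul x (Matrix.diagonal d * U) = r := by
      rw [hx, Matrix.vecMul_vecMul, Matrix.nonsing_inv_mul _ hA2, Matrix.vecMul_one]
    have hz2 : ∀ p, ∑ s, L p s * d s * z s = c p := by
      intro p
      have h1 := congrFun hz1 p
      rw [Matrix.mulVec, dotProduct] at h1
      rw [← h1]
      refine Finset.sum_congr rfl fun s _ => ?_
      rw [Matrix.mul_diagonal]
    have hx2 : ∀ q, ∑ s, x s * d s * U s q = r q := by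
      intro q
      have h1 := congrFun hx1 q
      rw [Matrix.vecMul, dotProduct] at h1
      rw [← h1]
      refine Finset.sum_congr rfl fun s _ => ?_
      rw [Matrix.diagonal_mul, mul_assoc]
    have hx0 := row_zero b hb x r d U hU.1 hU.2.1 hd (fun q hq => hM _ _ (Ne.symm hq)) hx2
    have hz0 := row_zero b hb z c d L.transpose (fun p => hL.1 p) (fun p q hpq => hL.2.1 q p hpq)
      hd (fun q hq => hM _ _ hq) (fun q => by
        rw [← hz2 q]
        refine Finset.sum_congr rfl fun s _ => ?_
        rw [Matrix.transpose_apply]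
        ring)
    refine ⟨bord L 0 x 1, Fin.snoc (α := fun _ => K) d (M (Fin.last n) (Fin.last n) -
      ∑ s, x s * d s * z s), bord U z 0 1, ⟨?_, ?_, ?_⟩, ⟨?_, ?_, ?_⟩, ?_⟩
    · intro p
      induction p using Fin.lastCases with
      | last => exact bord_ll _ _ _ _
      | cast p => rw [bord_cc]; exact hL.1 p
    · intro p q hpq
      induction p using Fin.lastCases with
      | last => exact absurd hpq (not_lt.2 (Fin.le_last _))
      | cast p =>
        induction q using Fin.lastCases with
        | last => rw [bord_cl]; rfl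
        | cast q => rw [bord_cc]; exact hL.2.1 p q (by rwa [Fin.castSucc_lt_castSucc_iff] at hpq)
    · intro p q hpq
      induction p using Fin.lastCases with
      | last =>
        induction q using Fin.lastCases with
        | last => exact absurd rfl hpq
        | cast q => rw [bord_lc]; exact hx0 q (Ne.symm hpq)
      | cast p =>
        induction q using Fin.lastCases with
        | last => rw [bord_cl]; rfl
        | cast q => rw [bord_cc]; exact hL.2.2 p q hpq
    · intro p
      induction p using Fin.lastCases with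
      | last => exact bord_ll _ _ _ _
      | cast p => rw [bord_cc]; exact hU.1 p
    · intro p q hpq
      induction q using Fin.lastCases with
      | last => exact absurd hpq (not_lt.2 (Fin.le_last _))
      | cast q =>
        induction p using Fin.lastCases with
        | last => rw [bord_lc]; rfl
        | cast p => rw [bord_cc]; exact hU.2.1 p q (by rwa [Fin.castSucc_lt_castSucc_iff] at hpq)
    · intro p q hpq
      induction p using Fin.lastCases with
      | last =>
        induction q using Fin.lastCases with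
        | last => exact absurd rfl hpq
        | cast q => rw [bord_lc]; rfl
      | cast p =>
        induction q using Fin.lastCases with
        | last => rw [bord_cl]; exact hz0 p hpq
        | cast q => rw [bord_cc]; exact hU.2.2 p q hpq
    · ext p q
      rw [ldu_entry, Fin.sum_univ_castSucc]
      induction p using Fin.lastCases with
      | last =>
        induction q using Fin.lastCases with
        | last =>
          simp only [bord_lc, bord_ll, bord_cl, Fin.snoc_castSucc, Fin.snoc_last, one_mul, mul_one]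
          ring
        | cast q =>
          simp only [bord_lc, bord_ll, bord_cc, Fin.snoc_castSucc, Fin.snoc_last, Pi.zero_apply,
            mul_zero, add_zero]
          exact (hx2 q).symm
      | cast p =>
        induction q using Fin.lastCases with
        | last =>
          simp only [bord_cc, bord_ll, bord_cl, Fin.snoc_castSucc, Fin.snoc_last, Pi.zero_apply,
            zero_mul, add_zero]
          exact (hz2 p).symm
        | cast q =>
          simp only [bord_cc, bord_cl, bord_lc, Fin.snoc_castSucc, Fin.snoc_last, Pi.zero_apply,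
            mul_zero, add_zero]
          rw [← ldu_entry, ← hLU]
          rfl

/-! ### the generic matrix -/

variable (B)

theorem mat_vec_one : B.mat (B.vec (1 : Matrix (Fin N) (Fin N) k)) = 1 := by
  ext p q
  simp only [Blk.mat, Blk.vec]
  split_ifs with h
  · rw [B.rw_ix, B.cl_ix]
  · rw [Matrix.one_apply_ne]
    rintro rfl
    exact h rfl

theorem mat_apply_map {R S : Type*} [CommRing R] [CommRing S] (f : R →+* S)
    (y : Fin (m + 1) → R) : (B.mat y).map f = B.mat fun i => f (y i) := by
  ext p q
  simp only [Blk.mat, Matrix.map_apply]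
  split_ifs
  · rfl
  · rw [map_zero]

theorem det_map' {R S : Type*} [CommRing R] [CommRing S] (f : R →+* S) {l : ℕ}
    (M : Matrix (Fin l) (Fin l) R) : f M.det = (M.map f).det := RingHom.map_det f M

theorem minor_ne {y : Fin (m + 1) → K} (hy : AlgebraicIndependent k y) (l : ℕ) (hl : l ≤ N) :
    ((B.mat y).submatrix (Fin.castLE hl) (Fin.castLE hl)).det ≠ 0 := by
  intro h0
  set P : MvPolynomial (Fin (m + 1)) k :=
    ((B.XX k).submatrix (Fin.castLE hl) (Fin.castLE hl)).det with hP
  have h1 : aeval y P = 0 := by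
    have e := det_map' (aeval y : MvPolynomial (Fin (m + 1)) k →ₐ[k] K).toRingHom
      ((B.XX k).submatrix (Fin.castLE hl) (Fin.castLE hl))
    have e3 : (fun i => (aeval y : MvPolynomial (Fin (m + 1)) k →ₐ[k] K).toRingHom
        ((X : Fin (m + 1) → MvPolynomial (Fin (m + 1)) k) i)) = y := by
      funext i
      exact aeval_X y i
    rw [← Matrix.submatrix_map, Blk.XX, mat_apply_map, e3, h0] at e
    exact e
  have h2 : P = 0 := hy.eq_zero_of_aeval_eq_zero P h1
  have h3 : eval (B.vec (1 : Matrix (Fin N) (Fin N) k)) P = 1 := by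
    have e := det_map' (eval (B.vec (1 : Matrix (Fin N) (Fin N) k)))
      ((B.XX k).submatrix (Fin.castLE hl) (Fin.castLE hl))
    have e3 : (fun i => (eval (B.vec (1 : Matrix (Fin N) (Fin N) k)))
        ((X : Fin (m + 1) → MvPolynomial (Fin (m + 1)) k) i)) =
        B.vec (1 : Matrix (Fin N) (Fin N) k) := by
      funext i
      exact eval_X i
    rw [← Matrix.submatrix_map, Blk.XX, mat_apply_map, e3, mat_vec_one,
      Matrix.submatrix_one _ (Fin.castLE_injective hl), Matrix.det_one] at e
    exact e
  rw [h2, map_zero] at h3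
  exact zero_ne_one h3

/-- the coordinates of the big cell -/
theorem exists_T {y : Fin (m + 1) → K} (hy : AlgebraicIndependent k y) :
    ∃ T : Fin (m + 1) → K, B.ldu T = B.mat y := by
  obtain ⟨L, d, U, hL, hU, h⟩ := exists_ldu N B.b B.mono (B.mat y)
    (fun p q hpq => by simp only [Blk.mat]; rw [dif_neg hpq]) (fun l hl => minor_ne B hy l hl)
  refine ⟨fun i => if B.rw i = B.cl i then d (B.rw i) else
    if B.cl i < B.rw i then L (B.rw i) (B.cl i) else U (B.rw i) (B.cl i), ?_⟩
  rw [h]
  unfold Blk.ldu
  congr 1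
  · congr 1
    · ext p q
      simp only [Blk.low, Blk.mat]
      split_ifs with h1 h2 h3 h4 h5
      · rw [h1]; exact (hL.1 q).symm
      · exact absurd (by rw [B.rw_ix, B.cl_ix] at h4; exact h4) h1
      · rw [B.rw_ix, B.cl_ix]
      · exact absurd h2 (by rw [B.rw_ix, B.cl_ix] at h5; exact h5)
      · exact (hL.2.2 p q h3).symm
      · exact (hL.2.1 p q (lt_of_le_of_ne (not_lt.1 h2) h1)).symm
    · congr 1
      funext p
      simp only [Blk.dia, Blk.dx]
      rw [if_pos (by rw [B.rw_ix, B.cl_ix]), B.rw_ix]
  · ext p q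
    simp only [Blk.upp, Blk.mat]
    split_ifs with h1 h2 h3 h4 h5
    · rw [h1]; exact (hU.1 q).symm
    · exact absurd (by rw [B.rw_ix, B.cl_ix] at h4; exact h4) h1
    · exact absurd h2 (not_lt.2 (by rw [B.rw_ix, B.cl_ix] at h5; exact h5.le))
    · rw [B.rw_ix, B.cl_ix]
    · exact (hU.2.2 p q h3).symm
    · exact (hU.2.1 p q (lt_of_le_of_ne (not_lt.1 h2) (Ne.symm h1))).symm

end Fin0

theorem final [IsAlgClosed k] [CharZero k] (b : Fin N → ℕ) (hb : Monotone b)
    (g : Matrix (Fin N) (Fin N) K) (hg : ∀ p q, b p ≠ b q → g p q = 0)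
    (e : Fin (m + 1) ≃ {s : Fin N × Fin N // b s.1 = b s.2})
    (hind : AlgebraicIndependent k fun i => g (e i).1.1 (e i).1.2)
    (hgen : IntermediateField.adjoin k (Set.range fun i => g (e i).1.1 (e i).1.2) = ⊤)
    (D : Fin (m + 1) → Derivation k K K)
    (hD : ∀ i j, D i (g (e j).1.1 (e j).1.2) = if i = j then 1 else 0)
    (A : Subalgebra k K) (hfg : A.FG) [IsFractionRing A K] [IsIntegrallyClosed A]
    (hA : ∀ σ : K ≃ₐ[k] K, IsTranslation b g σ → ∀ f ∈ A, σ f ∈ A)
    (δ : Ideal A →₀ ℝ) (hδ0 : ∀ p, 0 ≤ δ p)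
    (hδ : ∀ σ : K ≃ₐ[k] K, IsTranslation b g σ → ∀ p q : Ideal A, MapsTo σ p q → δ p = δ q)
    (hRC : ∀ x : MaximalSpectrum A, ∃ γ : Kˣ →₀ ℝ, IsLocalEq A D δ x.asIdeal γ) :
    LowerSemicontinuous (mld A D δ) := by
  let B : Blk N m := ⟨b, hb, e⟩
  obtain ⟨T, hT⟩ := Fin0.exists_T B hind
  let C : GC k K B := ⟨fun i => g (e i).1.1 (e i).1.2, hind, hgen, D, hD, T, hT⟩
  have hix : ∀ p q (h : b p = b q), C.y (B.ix p q h) = g p q := by
    intro p q h
    show g (e (e.symm ⟨(p, q), h⟩)).1.1 (e (e.symm ⟨(p, q), h⟩)).1.2 = g p q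
    rw [e.apply_symm_apply]
  have hCg : C.g = g := by
    ext p q
    show B.mat C.y p q = g p q
    simp only [Blk.mat]
    split_ifs with h
    · exact hix p q h
    · exact (hg p q h).symm
  have htr : ∀ σ : K ≃ₐ[k] K, C.Tra σ → IsTranslation b g σ := by
    rintro σ ⟨a, c, ha, hc, h⟩
    refine ⟨a, c, ha, hc, fun p q => ?_⟩
    rw [hCg] at h
    rw [← h]
    simp only [Blk.mat]
    split_ifs with h'
    · rw [hix p q h']
    · rw [hg p q h', map_zero]
  have hgood : IsGood A := by
    refine ⟨hfg, ?_, ?_⟩
    · intro f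
      obtain ⟨x, y, hy, hxy⟩ := IsFractionRing.div_surjective (A := A) f
      refine ⟨x, y, ?_, hxy.symm⟩
      have := nonZeroDivisors.ne_zero hy
      intro h
      exact this (Subtype.ext h)
    · intro f hf
      obtain ⟨x, hx⟩ := IsIntegrallyClosed.isIntegral_iff.1 hf
      rw [← hx]
      exact x.2
  exact lsc_emb (C := C) ⟨hgood, fun σ hσ => hA σ (htr σ hσ)⟩ δ hδ0
    (fun σ hσ => hδ σ (htr σ hσ)) hRC

end

end Pool.Agent.MLD.Mon
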