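import Pool.Agent.Lib.MP_f23696_ag.M.Ctx
import Pool.Agent.Lib.MP_f23696_ag.M.Bub

/-!
# MP_f23696_ag, project MON, module INA: combinatorics of weights

If the exponent of a monomial in `L, d, U`, its left weight and its right weight are weights of
the embedding and the exponent is equivalent to zero, the monomial is not a product with entries
`L_pq` or `U_pq` where `p, q` are not separated by `Z`.
-/

set_option autoImplicit false

open scoped Classical

namespace Pool.Agent.MLD.Mon

universe v

variable {N m : ℕ} {B : Blk N m}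

namespace Ina

theorem flat_refl (Z : Set (Fin N → ℤ)) (p : Fin N) : Flat B Z p p := ⟨rfl, fun _ _ => rfl⟩

theorem flat_symm {Z : Set (Fin N → ℤ)} {p q : Fin N} (h : Flat B Z p q) : Flat B Z q p :=
  ⟨h.1.symm, fun μ hμ => (h.2 μ hμ).symm⟩

theorem flat_trans {Z : Set (Fin N → ℤ)} {p q r : Fin N} (h : Flat B Z p q) (h' : Flat B Z q r) :
    Flat B Z p r :=
  ⟨h.1.trans h'.1, fun μ hμ => (h.2 μ hμ).trans (h'.2 μ hμ)⟩

theorem sx_perm {ι : Type v} {Q : Finset ι} {x : ι → Fin N → ℤ} {κ : Fin N → ℤ}
    (h : κ ∈ SX B Q x) (w : Equiv.Perm (Fin N)) (hw : ∀ p, B.b (w p) = B.b p) :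
    (κ ∘ w) ∈ SX B Q x := by
  intro u hu q hq
  have h1 := h (w * u) (fun p => by rw [Equiv.Perm.mul_apply, hw, hu]) q hq
  exact h1

/-- a vector with sum zero on the classes, in which the negative entries come before the positive
entries, is in the chamber -/
theorem mem_of_split (O : Ord B) {Z : Set (Fin N → ℤ)} : ∀ (n : ℕ) (δ : Fin N → ℤ),
    (∑ p, (δ p).natAbs) ≤ n →
    (∀ p, ∑ q ∈ Finset.univ.filter (fun q => Flat B Z p q), δ q = 0) →
    (∀ p q, Flat B Z p q → δ p < 0 → 0 < δ q → p ≤ q) → δ ∈ O.P := by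
  intro n
  induction n with
  | zero =>
    intro δ hn _ _
    have h1 : δ = 0 := by
      funext p
      have h2 : ∑ p, (δ p).natAbs = 0 := Nat.le_zero.1 hn
      have h3 := (Finset.sum_eq_zero_iff.1 h2) p (Finset.mem_univ p)
      simpa using h3
    rw [h1]
    exact O.P.zero_mem
  | succ n ih =>
    intro δ hn hsum hord
    by_cases h0 : δ = 0
    · rw [h0]
      exact O.P.zero_mem
    -- a negative and a positive entry in one class
    have hex : ∃ p q, Flat B Z p q ∧ δ p < 0 ∧ 0 < δ q := by
      have h1 : ∃ r, δ r ≠ 0 := by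
        by_contra h
        push Not at h
        exact h0 (funext h)
      obtain ⟨r, hr⟩ := h1
      have hr' : r ∈ Finset.univ.filter (fun q => Flat B Z r q) :=
        Finset.mem_filter.2 ⟨Finset.mem_univ r, flat_refl Z r⟩
      rcases lt_or_gt_of_ne hr with h | h
      · by_contra hcon
        push Not at hcon
        have h2 : ∑ q ∈ Finset.univ.filter (fun q => Flat B Z r q), δ q < 0 := by
          refine lt_of_lt_of_eq (b := ∑ q ∈ Finset.univ.filter (fun q => Flat B Z r q), (0 : ℤ))
            (Finset.sum_lt_sum (fun q hq => ?_) ⟨r, hr', h⟩) Finset.sum_const_zero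
          exact hcon r q (Finset.mem_filter.1 hq).2 h
        rw [hsum r] at h2
        exact lt_irrefl _ h2
      · by_contra hcon
        push Not at hcon
        have h2 : 0 < ∑ q ∈ Finset.univ.filter (fun q => Flat B Z r q), δ q := by
          refine lt_of_eq_of_lt (b := ∑ q ∈ Finset.univ.filter (fun q => Flat B Z r q), (0 : ℤ))
            Finset.sum_const_zero.symm (Finset.sum_lt_sum (fun q hq => ?_) ⟨r, hr', h⟩)
          by_contra hq0
          have h3 := hcon q r (flat_symm (Finset.mem_filter.1 hq).2) (not_le.1 hq0)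
          omega
        rw [hsum r] at h2
        exact lt_irrefl _ h2
    obtain ⟨p, q, hpq, hp, hq⟩ := hex
    have hne : p ≠ q := by
      intro e
      rw [e] at hp
      omega
    have hle := hord p q hpq hp hq
    set ε : Fin N → ℤ := Pi.single q (1 : ℤ) - Pi.single p (1 : ℤ) with hε
    have hεp : ε p = -1 := by
      simp only [hε, Pi.sub_apply, Pi.single_eq_same, Pi.single_eq_of_ne hne]
      norm_num
    have hεq : ε q = 1 := by
      simp only [hε, Pi.sub_apply, Pi.single_eq_same, Pi.single_eq_of_ne hne.symm]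
      norm_num
    have hεr : ∀ r, r ≠ p → r ≠ q → ε r = 0 := by
      intro r hrp hrq
      simp only [hε, Pi.sub_apply, Pi.single_eq_of_ne hrp, Pi.single_eq_of_ne hrq]
      norm_num
    have hεP : ε ∈ O.P := O.cham p q hle hpq.1
    have hδ' : δ - ε ∈ O.P := by
      apply ih
      · have h1 : ∑ r, ((δ - ε) r).natAbs < ∑ r, (δ r).natAbs := by
          refine Finset.sum_lt_sum (fun r _ => ?_) ⟨p, Finset.mem_univ p, ?_⟩
          · rw [Pi.sub_apply]
            by_cases hrp : r = p
            · rw [hrp, hεp]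
              omega
            · by_cases hrq : r = q
              · rw [hrq, hεq]
                omega
              · rw [hεr r hrp hrq]
                omega
          · rw [Pi.sub_apply, hεp]
            omega
        omega
      · intro r
        have h1 : ∑ t ∈ Finset.univ.filter (fun t => Flat B Z r t), ε t = 0 := by
          by_cases hr : Flat B Z r p
          · have hr' : Flat B Z r q := flat_trans hr hpq
            rw [Finset.sum_eq_add p q hne]
            · rw [hεp, hεq]
              norm_num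
            · intro t _ ht
              exact hεr t ht.1 ht.2
            · intro ht
              exact absurd (Finset.mem_filter.2 ⟨Finset.mem_univ p, hr⟩) ht
            · intro ht
              exact absurd (Finset.mem_filter.2 ⟨Finset.mem_univ q, hr'⟩) ht
          · refine Finset.sum_eq_zero fun t ht => hεr t ?_ ?_
            · rintro rfl
              exact hr (Finset.mem_filter.1 ht).2
            · rintro rfl
              exact hr (flat_trans (Finset.mem_filter.1 ht).2 (flat_symm hpq))
        simp only [Pi.sub_apply, Finset.sum_sub_distrib, hsum r, h1, sub_zero]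
      · intro r t hrt hr ht
        apply hord r t hrt
        · rw [Pi.sub_apply] at hr
          by_cases hrp : r = p
          · rw [hrp]
            exact hp
          · by_cases hrq : r = q
            · rw [hrq, hεq] at hr
              omega
            · rw [hεr r hrp hrq, sub_zero] at hr
              exact hr
        · rw [Pi.sub_apply] at ht
          by_cases htp : t = p
          · rw [htp, hεp] at ht
            omega
          · by_cases htq : t = q
            · rw [htq]
              exact hq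
            · rw [hεr t htp htq, sub_zero] at ht
              exact ht
    have h2 := O.P.add_mem hδ' hεP
    rwa [sub_add_cancel] at h2

variable {ι : Type v} {Q : Finset ι} {x : ι → Fin N → ℤ}

theorem core (hx : ∀ q ∈ Q, B.Inc (x q)) (O : Ord B) (hG : GamX B Q x ⊆ O.P)
    {Z : Set (Fin N → ℤ)} (hZ : Z = {ν | ν ∈ GamX B Q x ∧ ν ∈ O.zero}) {ν κ : Fin N → ℤ}
    (hν : ν ∈ SX B Q x) (h0 : ν ∈ O.zero) (hκ : κ ∈ SX B Q x)
    (hs : ∀ p, ∑ q ∈ Finset.univ.filter (fun q => Flat B Z p q), (κ q - ν q) = 0) : κ = ν := by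
  have hflat : ∀ {μ : Fin N → ℤ}, μ ∈ SX B Q x → μ ∈ O.zero → ∀ p q, Flat B Z p q → μ p = μ q := by
    intro μ hμ hμ0 p q hpq
    have h1 := sx_zero hx O hG hμ hμ0
    rw [← hZ] at h1
    exact flat_closure hpq h1
  -- sort
  have hne : Nonempty {w : Equiv.Perm (Fin N) // ∀ p, Flat B Z p (w p)} :=
    ⟨⟨1, fun p => flat_refl Z p⟩⟩
  obtain ⟨⟨w, hw⟩, hmin⟩ := Finite.exists_min
    (fun w : {w : Equiv.Perm (Fin N) // ∀ p, Flat B Z p (w p)} =>
      ∑ p : Fin N, ((p : ℕ) : ℤ) * κ (w.1 p))
  have hsort : ∀ p q, Flat B Z p q → p < q → κ (w q) ≤ κ (w p) := by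
    intro p q hpq hlt
    by_contra hcon
    have hcon' : κ (w p) < κ (w q) := not_le.1 hcon
    have hw' : ∀ u, Flat B Z u ((w * Equiv.swap p q) u) := by
      intro u
      rw [Equiv.Perm.mul_apply]
      by_cases hup : u = p
      · rw [hup, Equiv.swap_apply_left]
        exact flat_trans hpq (hw q)
      · by_cases huq : u = q
        · rw [huq, Equiv.swap_apply_right]
          exact flat_trans (flat_symm hpq) (hw p)
        · rw [Equiv.swap_apply_of_ne_of_ne hup huq]
          exact hw u
    have h1 := hmin ⟨w * Equiv.swap p q, hw'⟩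
    simp only [Equiv.Perm.mul_apply] at h1
    have h2 : ∑ u : Fin N, ((u : ℕ) : ℤ) * κ (w (Equiv.swap p q u)) =
        ∑ u : Fin N, (((Equiv.swap p q u : Fin N) : ℕ) : ℤ) * κ (w u) := by
      refine Finset.sum_equiv (Equiv.swap p q) (fun _ => by simp) fun u _ => ?_
      rw [Equiv.swap_apply_self]
    rw [h2] at h1
    have h3 : ∑ u : Fin N, (((Equiv.swap p q u : Fin N) : ℕ) : ℤ) * κ (w u) -
        ∑ u : Fin N, ((u : ℕ) : ℤ) * κ (w u) =
        (((q : ℕ) : ℤ) - ((p : ℕ) : ℤ)) * κ (w p) + (((p : ℕ) : ℤ) - ((q : ℕ) : ℤ)) * κ (w q) := by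
      rw [← Finset.sum_sub_distrib, Finset.sum_eq_add p q (ne_of_lt hlt)]
      · rw [Equiv.swap_apply_left, Equiv.swap_apply_right]
        ring
      · intro t _ ht
        rw [Equiv.swap_apply_of_ne_of_ne ht.1 ht.2, sub_self]
      · intro ht
        exact absurd (Finset.mem_univ p) ht
      · intro ht
        exact absurd (Finset.mem_univ q) ht
    have h4 : ((p : ℕ) : ℤ) < ((q : ℕ) : ℤ) := by exact_mod_cast hlt
    nlinarith
  set κ' : Fin N → ℤ := κ ∘ w with hκ'def
  have hκ' : κ' ∈ SX B Q x := sx_perm hκ w fun p => (hw p).1.symm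
  -- the difference
  have hδ : ν - κ' ∈ O.P := by
    refine mem_of_split O (Z := Z) _ (ν - κ') le_rfl ?_ ?_
    · intro p
      have h1 : ∑ q ∈ Finset.univ.filter (fun q => Flat B Z p q), κ' q =
          ∑ q ∈ Finset.univ.filter (fun q => Flat B Z p q), κ q := by
        refine Finset.sum_equiv w (fun q => ?_) fun q _ => rfl
        simp only [Finset.mem_filter, Finset.mem_univ, true_and]
        exact ⟨fun h => flat_trans h (hw q), fun h => flat_trans h (flat_symm (hw q))⟩
      have h2 := hs p
      rw [Finset.sum_sub_distrib] at h2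
      simp only [Pi.sub_apply, Finset.sum_sub_distrib, h1]
      omega
    · intro p q hpq hp hq
      rw [Pi.sub_apply] at hp hq
      have h1 := hflat hν h0 p q hpq
      by_contra hcon
      have h2 := hsort q p (flat_symm hpq) (not_le.1 hcon)
      have e1 : κ' p = κ (w p) := rfl
      have e2 : κ' q = κ (w q) := rfl
      omega
  have hκ0 : κ' ∈ O.zero := by
    refine ⟨sx_sub O hG hκ', ?_⟩
    have h1 := O.P.add_mem hδ h0.2
    have h2 : ν - κ' + -ν = -κ' := by abel
    rwa [h2] at h1
  have hκf : ∀ p q, Flat B Z p q → κ p = κ q := by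
    intro p q hpq
    have hp : Flat B Z (w.symm p) p := by
      have h1 := hw (w.symm p)
      rwa [Equiv.apply_symm_apply] at h1
    have hq : Flat B Z (w.symm q) q := by
      have h1 := hw (w.symm q)
      rwa [Equiv.apply_symm_apply] at h1
    have h1 := hflat hκ' hκ0 (w.symm p) (w.symm q)
      (flat_trans hp (flat_trans hpq (flat_symm hq)))
    simpa [hκ'def] using h1
  funext p
  have h1 := hs p
  have h2 : ∀ q ∈ Finset.univ.filter (fun q => Flat B Z p q), κ q - ν q = κ p - ν p := by
    intro q hq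
    have hpq := (Finset.mem_filter.1 hq).2
    rw [hκf p q hpq, hflat hν h0 p q hpq]
  rw [Finset.sum_congr rfl h2, Finset.sum_const, nsmul_eq_mul] at h1
  rcases mul_eq_zero.1 h1 with h3 | h3
  · exfalso
    have h4 : (Finset.univ.filter (fun q => Flat B Z p q)).card = 0 := by exact_mod_cast h3
    rw [Finset.card_eq_zero] at h4
    have h5 : p ∈ Finset.univ.filter (fun q => Flat B Z p q) :=
      Finset.mem_filter.2 ⟨Finset.mem_univ p, flat_refl Z p⟩
    rw [h4] at h5
    exact absurd h5 (Finset.notMem_empty p)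
  · omega

theorem final (hx : ∀ q ∈ Q, B.Inc (x q)) (O : Ord B) (hG : GamX B Q x ⊆ O.P)
    {Z : Set (Fin N → ℤ)} (hZ : Z = {ν | ν ∈ GamX B Q x ∧ ν ∈ O.zero}) {ν : Fin N → ℤ}
    (hν : ν ∈ SX B Q x) (h0 : ν ∈ O.zero) (f g : Fin (m + 1) → Fin N) (c : Fin (m + 1) → ℕ)
    (hc : ∀ i, c i ≠ 0 → g i < f i ∧ Flat B Z (f i) (g i))
    (hκ : ν + ∑ i, (c i : ℤ) • (Pi.single (f i) (1 : ℤ) - Pi.single (g i) (1 : ℤ)) ∈ SX B Q x) :
    ∀ i, c i = 0 := by
  have h1 : ν + ∑ i, (c i : ℤ) • (Pi.single (f i) (1 : ℤ) - Pi.single (g i) (1 : ℤ)) = ν := by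
    refine core hx O hG hZ hν h0 hκ fun p => ?_
    simp only [Pi.add_apply, add_sub_cancel_left, Finset.sum_apply]
    rw [Finset.sum_comm]
    refine Finset.sum_eq_zero fun i _ => ?_
    by_cases hi : c i = 0
    · simp [hi]
    · obtain ⟨h2, h3⟩ := hc i hi
      simp only [Pi.smul_apply, Pi.sub_apply, ← Finset.smul_sum, Finset.sum_sub_distrib]
      have h6 : ∀ r : Fin N, ∑ q ∈ Finset.univ.filter (fun q => Flat B Z p q),
          (Pi.single r (1 : ℤ) : Fin N → ℤ) q = if Flat B Z p r then 1 else 0 := by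
        intro r
        by_cases h : Flat B Z p r
        · rw [if_pos h, Finset.sum_eq_single r]
          · exact Pi.single_eq_same _ _
          · intro b _ hb
            exact Pi.single_eq_of_ne hb _
          · intro h'
            exact absurd (Finset.mem_filter.2 ⟨Finset.mem_univ r, h⟩) h'
        · rw [if_neg h]
          refine Finset.sum_eq_zero fun t ht => Pi.single_eq_of_ne ?_ _
          rintro rfl
          exact h (Finset.mem_filter.1 ht).2
      have h4 : Flat B Z p (f i) ↔ Flat B Z p (g i) :=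
        ⟨fun h => flat_trans h h3, fun h => flat_trans h (flat_symm h3)⟩
      rw [h6, h6]
      by_cases h5 : Flat B Z p (f i)
      · rw [if_pos h5, if_pos (h4.1 h5), sub_self, smul_zero]
      · rw [if_neg h5, if_neg fun h => h5 (h4.2 h), sub_self, smul_zero]
  have h2 : ∑ i, (c i : ℤ) • (Pi.single (f i) (1 : ℤ) - Pi.single (g i) (1 : ℤ)) =
      (0 : Fin N → ℤ) := by
    rwa [add_eq_left] at h1
  have h3 : ∑ i, (c i : ℤ) * (((f i : ℕ) : ℤ) - ((g i : ℕ) : ℤ)) = 0 := by
    have h4 : ∑ p : Fin N, ((p : ℕ) : ℤ) *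
        (∑ i, (c i : ℤ) • (Pi.single (f i) (1 : ℤ) - Pi.single (g i) (1 : ℤ)) : Fin N → ℤ) p =
        ∑ i, (c i : ℤ) * (((f i : ℕ) : ℤ) - ((g i : ℕ) : ℤ)) := by
      simp only [Finset.sum_apply, Finset.mul_sum]
      rw [Finset.sum_comm]
      refine Finset.sum_congr rfl fun i _ => ?_
      simp only [Pi.smul_apply, Pi.sub_apply, smul_eq_mul]
      have h5 : ∀ (r : Fin N), ∑ p : Fin N, ((p : ℕ) : ℤ) * (Pi.single r (1 : ℤ) : Fin N → ℤ) p =
          ((r : ℕ) : ℤ) := by
        intro r
        rw [Finset.sum_eq_single r]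
        · rw [Pi.single_eq_same, mul_one]
        · intro b _ hb
          rw [Pi.single_eq_of_ne hb, mul_zero]
        · intro h
          exact absurd (Finset.mem_univ r) h
      calc ∑ p : Fin N, ((p : ℕ) : ℤ) * ((c i : ℤ) *
            ((Pi.single (f i) (1 : ℤ) : Fin N → ℤ) p - (Pi.single (g i) (1 : ℤ) : Fin N → ℤ) p))
          = (c i : ℤ) * (∑ p : Fin N, ((p : ℕ) : ℤ) * (Pi.single (f i) (1 : ℤ) : Fin N → ℤ) p -
            ∑ p : Fin N, ((p : ℕ) : ℤ) * (Pi.single (g i) (1 : ℤ) : Fin N → ℤ) p) := by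
            rw [← Finset.sum_sub_distrib, Finset.mul_sum]
            refine Finset.sum_congr rfl fun p _ => ?_
            ring
        _ = _ := by rw [h5, h5]
    rw [← h4, h2]
    simp
  have hnn : ∀ i ∈ Finset.univ, 0 ≤ (c i : ℤ) * (((f i : ℕ) : ℤ) - ((g i : ℕ) : ℤ)) := by
    intro i _
    by_cases hi : c i = 0
    · simp [hi]
    · have h5 : ((g i : ℕ) : ℤ) < ((f i : ℕ) : ℤ) := by exact_mod_cast (hc i hi).1
      exact mul_nonneg (Int.natCast_nonneg _) (by omega)
  intro i
  by_contra hi
  have h5 := (Finset.sum_eq_zero_iff_of_nonneg hnn).1 h3 i (Finset.mem_univ i)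
  have h6 : ((g i : ℕ) : ℤ) < ((f i : ℕ) : ℤ) := by exact_mod_cast (hc i hi).1
  rcases mul_eq_zero.1 h5 with h7 | h7
  · exact hi (by exact_mod_cast h7)
  · omega

end Ina

section

variable {ι : Type v} {Q : Finset ι} {x : ι → Fin N → ℤ}

theorem inact (hx : ∀ q ∈ Q, B.Inc (x q)) (O : Ord B) (hG : GamX B Q x ⊆ O.P)
    {Z : Set (Fin N → ℤ)} (hZ : Z = {ν | ν ∈ GamX B Q x ∧ ν ∈ O.zero}) (n : ℕ)
    (s : Fin (m + 1) →₀ ℕ) (h1 : (B.dg s - fun _ => (n : ℤ)) ∈ SX B Q x)
    (h2 : (B.lw s - fun _ => (n : ℤ)) ∈ SX B Q x) (h3 : (B.rt s - fun _ => (n : ℤ)) ∈ SX B Q x)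
    (h0 : (B.dg s - fun _ => (n : ℤ)) ∈ O.zero)
    (hoff : ∀ i, s i ≠ 0 → B.rw i ≠ B.cl i → Flat B Z (B.rw i) (B.cl i)) : B.OnlyD s := by
  have hl := Ina.final hx O hG hZ h1 h0 B.rw B.cl (fun i => if B.cl i < B.rw i then s i else 0)
    (fun i hi => by
      by_cases h : B.cl i < B.rw i
      · simp only [if_pos h] at hi
        exact ⟨h, hoff i hi (ne_of_gt h)⟩
      · exact absurd (if_neg h) hi)
    (by
      have e : B.dg s - (fun _ => (n : ℤ)) + ∑ i,
          ((if B.cl i < B.rw i then s i else 0 : ℕ) : ℤ) •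
            (Pi.single (B.rw i) (1 : ℤ) - Pi.single (B.cl i) (1 : ℤ)) =
          B.lw s - fun _ => (n : ℤ) := by
        unfold Blk.lw
        rw [add_sub_right_comm]
        congr 1
        refine Finset.sum_congr rfl fun i _ => ?_
        by_cases h : B.cl i < B.rw i
        · rw [if_pos h, if_pos h]
        · rw [if_neg h, if_neg h]
          simp
      rw [e]
      exact h2)
  have hr := Ina.final hx O hG hZ h1 h0 B.cl B.rw (fun i => if B.rw i < B.cl i then s i else 0)
    (fun i hi => by
      by_cases h : B.rw i < B.cl i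
      · simp only [if_pos h] at hi
        exact ⟨h, Ina.flat_symm (hoff i hi (ne_of_lt h))⟩
      · exact absurd (if_neg h) hi)
    (by
      have e : B.dg s - (fun _ => (n : ℤ)) + ∑ i,
          ((if B.rw i < B.cl i then s i else 0 : ℕ) : ℤ) •
            (Pi.single (B.cl i) (1 : ℤ) - Pi.single (B.rw i) (1 : ℤ)) =
          B.rt s - fun _ => (n : ℤ) := by
        unfold Blk.rt
        rw [add_sub_right_comm]
        congr 1
        refine Finset.sum_congr rfl fun i _ => ?_
        by_cases h : B.rw i < B.cl i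
        · rw [if_pos h, if_pos h]
        · rw [if_neg h, if_neg h]
          simp
      rw [e]
      exact h3)
  intro i hi
  rcases lt_or_gt_of_ne hi with h | h
  · have h4 := hr i
    rwa [if_pos h] at h4
  · have h4 := hl i
    rwa [if_pos h] at h4

end

end Pool.Agent.MLD.Mon
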