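import Pool.Agent.Lib.MP_f23696_ag.M.Lin
import Pool.Agent.Lib.MP_f23696_ag.M.Tra
import Pool.Agent.Lib.MP_f23696_ag.M.Wts
import Pool.Agent.Lib.MP_f23696_ag.M.Reg
import Pool.Agent.Lib.MP_f23696_ag.M.Xq
import Pool.Agent.Lib.MP_f23696_ag.M.Bub
import Pool.Agent.Lib.MP_f23696_ag.M.Ina
import Pool.Agent.Lib.MP_f23696_ag.M.Lat
import Pool.Agent.Lib.MP_f23696_ag.M.Jac
import Pool.Agent.Lib.MP_f23696_ag.M.Mnv
import Pool.Agent.Lib.MP_f23696_ag.T.Der
import Pool.Agent.Lib.MP_f23696_ag.Jind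

/-!
Project MON (MP_f23696_ag), module LEM: divisorial valuations centred at limit points.
-/

set_option autoImplicit false

open scoped Classical

namespace Pool.Agent.MLD.Mon

open MvPolynomial
open Pool.Agent.MLD.Ten (IsGood)

noncomputable section

universe u v w

variable {N m : ℕ} {B : Blk N m} {k : Type u} {K : Type v} [Field k] [Field K] [Algebra k K]

/-! ### LEM (M/Lem.lean): divisorial valuations centred at limit points -/

namespace Lem

open Pool.Agent.MLD.Jac (LB)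

/-! #### elementary facts -/

theorem dx_rw {i : Fin (m + 1)} (h : B.rw i = B.cl i) : B.dx (B.rw i) = i := by
  unfold Blk.dx Blk.ix
  rw [Equiv.symm_apply_eq]
  apply Subtype.ext
  exact Prod.ext rfl h

theorem rw_dx (p : Fin N) : B.rw (B.dx p) = p := B.rw_ix p p rfl

theorem cl_dx (p : Fin N) : B.cl (B.dx p) = p := B.cl_ix p p rfl

theorem off_one (C : GC k K B) {s : Fin (m + 1) →₀ ℕ} (h : B.OnlyD s) : C.off s = 1 := by
  unfold GC.off
  refine Finset.prod_eq_one fun i _ => ?_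
  split_ifs with hi
  · rfl
  · rw [h i hi, pow_zero]

theorem dm_smul (C : GC k K B) (c : ℤ) (μ : Fin N → ℤ) : C.dm (c • μ) = C.dm μ ^ c := by
  unfold GC.dm
  rw [← Finset.prod_zpow]
  refine Finset.prod_congr rfl fun p _ => ?_
  rw [Pi.smul_apply, smul_eq_mul, mul_comm, zpow_mul]

theorem dm_sum (C : GC k K B) {ι : Type} (s : Finset ι) (c : ι → ℤ) (β : ι → Fin N → ℤ) :
    C.dm (∑ i ∈ s, c i • β i) = ∏ i ∈ s, C.dm (β i) ^ c i := by
  induction s using Finset.induction_on with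
  | empty => rw [Finset.sum_empty, Finset.prod_empty, dm_zero]
  | insert a s ha ih =>
    rw [Finset.sum_insert ha, Finset.prod_insert ha, dm_add, dm_smul, ih]

/-! #### one-units -/

theorem one_ord (v : DVal k K) {a : K} (h : LB v 1 (a - 1)) : a ≠ 0 ∧ v.ord a = 0 := by
  have h1 : LB v (v.ord (1 : K) + 1) (a - 1) := by
    rw [Pool.Agent.MLD.Jac.ord_one, zero_add]
    exact h
  have h2 := Pool.Agent.MLD.Ten.ord_add_eq v one_ne_zero h1
  rw [add_sub_cancel, Pool.Agent.MLD.Jac.ord_one] at h2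
  exact h2

theorem one_mul' (v : DVal k K) {a b : K} (ha : LB v 1 (a - 1)) (hb : LB v 1 (b - 1)) :
    LB v 1 (a * b - 1) := by
  have e : a * b - 1 = (a - 1) * b + (b - 1) := by ring
  rw [e]
  have hb0 : LB v 0 b := fun _ => (one_ord v hb).2.ge
  have := ha.mul hb0
  rw [add_zero] at this
  exact this.add hb

theorem one_inv' (v : DVal k K) {a : K} (ha : LB v 1 (a - 1)) : LB v 1 (a⁻¹ - 1) := by
  obtain ⟨h0, h1⟩ := one_ord v ha
  have e : a⁻¹ - 1 = -((a - 1) * a⁻¹) := by
    field_simp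
    ring
  rw [e]
  refine Pool.Agent.MLD.Ten.LB_neg v ?_
  have hb0 : LB v 0 a⁻¹ := fun _ => by
    rw [Pool.Agent.MLD.Jac.ord_inv v a h0, h1, neg_zero]
  have := ha.mul hb0
  rw [add_zero] at this
  exact this

theorem one_pow' (v : DVal k K) {a : K} (ha : LB v 1 (a - 1)) (n : ℕ) : LB v 1 (a ^ n - 1) := by
  induction n with
  | zero =>
    rw [pow_zero, sub_self]
    exact LB.zero v 1
  | succ n ih =>
    rw [pow_succ]
    exact one_mul' v ih ha

theorem one_zpow' (v : DVal k K) {a : K} (ha : LB v 1 (a - 1)) (n : ℤ) :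
    LB v 1 (a ^ n - 1) := by
  cases n with
  | ofNat n =>
    rw [Int.ofNat_eq_natCast, zpow_natCast]
    exact one_pow' v ha n
  | negSucc n =>
    rw [zpow_negSucc]
    exact one_inv' v (one_pow' v ha _)

theorem one_prod' (v : DVal k K) {ι : Type} (s : Finset ι) (f : ι → K)
    (hf : ∀ i ∈ s, LB v 1 (f i - 1)) : LB v 1 (∏ i ∈ s, f i - 1) := by
  induction s using Finset.induction_on with
  | empty =>
    rw [Finset.prod_empty, sub_self]
    exact LB.zero v 1
  | insert a s ha ih =>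
    rw [Finset.prod_insert ha]
    exact one_mul' v (hf a (Finset.mem_insert_self _ _))
      (ih fun i hi => hf i (Finset.mem_insert_of_mem hi))

theorem LB_pow (v : DVal k K) {a : K} (ha : LB v 0 a) (n : ℕ) : LB v 0 (a ^ n) := by
  induction n with
  | zero =>
    rw [pow_zero]
    exact fun _ => by rw [Pool.Agent.MLD.Jac.ord_one]
  | succ n ih =>
    rw [pow_succ]
    have := ih.mul ha
    rwa [add_zero] at this

theorem LB_prod (v : DVal k K) {ι : Type} (s : Finset ι) (f : ι → K)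
    (hf : ∀ i ∈ s, LB v 0 (f i)) : LB v 0 (∏ i ∈ s, f i) := by
  induction s using Finset.induction_on with
  | empty =>
    rw [Finset.prod_empty]
    exact fun _ => by rw [Pool.Agent.MLD.Jac.ord_one]
  | insert a s ha ih =>
    rw [Finset.prod_insert ha]
    have := (hf a (Finset.mem_insert_self _ _)).mul
      (ih fun i hi => hf i (Finset.mem_insert_of_mem hi))
    rwa [add_zero] at this

/-- a product with a small factor and integral factors is small -/
theorem LB_prod_small (v : DVal k K) {ι : Type} (s : Finset ι) (f : ι → K)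
    (hf : ∀ i ∈ s, LB v 0 (f i)) {j : ι} (hj : j ∈ s) (h : LB v 1 (f j)) :
    LB v 1 (∏ i ∈ s, f i) := by
  rw [← Finset.mul_prod_erase s f hj]
  have := h.mul (LB_prod v (s.erase j) f fun i hi => hf i (Finset.mem_of_mem_erase hi))
  rwa [add_zero] at this

/-! #### integers -/

theorem exists_gcd {N : ℕ} (l : Fin N → ℤ) (hl : l ≠ 0) :
    ∃ n : ℕ, 1 ≤ n ∧ ∃ l' : Fin N → ℤ, (∀ p, n * l' p = l p) ∧ ∃ c : Fin N → ℤ,
      ∑ p, c p * l' p = 1 := by
  obtain ⟨a, ha⟩ := (IsPrincipalIdealRing.principal (Ideal.span (Set.range l))).principal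
  have hdvd : ∀ p, ∃ b, l p = a * b := by
    intro p
    have h1 : l p ∈ Ideal.span (Set.range l) := Ideal.subset_span ⟨p, rfl⟩
    rw [ha] at h1
    exact Ideal.mem_span_singleton.1 h1
  have hmem : a ∈ Ideal.span (Set.range l) := by
    rw [ha]
    exact Submodule.mem_span_singleton_self a
  obtain ⟨c, hc⟩ := Submodule.mem_span_range_iff_exists_fun ℤ |>.1 hmem
  choose b hb using hdvd
  have ha0 : a ≠ 0 := by
    rintro rfl
    apply hl
    funext p
    rw [hb p, zero_mul, Pi.zero_apply]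
  refine ⟨a.natAbs, Int.natAbs_pos.2 ha0, fun p => a.sign * b p, fun p => ?_,
    fun p => a.sign * c p, ?_⟩
  · have h1 : (a.natAbs : ℤ) * a.sign = a := by
      rw [mul_comm]
      exact Int.sign_mul_natAbs a
    rw [← mul_assoc, h1, ← hb p]
  · have h1 : a.sign * a.sign = 1 := by
      rcases lt_or_gt_of_ne ha0 with h | h
      · rw [Int.sign_eq_neg_one_of_neg h]
        norm_num
      · rw [Int.sign_eq_one_of_pos h]
        norm_num
    have h2 : a * ∑ p, c p * b p = a * 1 := by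
      rw [Finset.mul_sum, mul_one]
      conv_rhs => rw [← hc]
      refine Finset.sum_congr rfl fun p _ => ?_
      rw [hb p, smul_eq_mul]
      ring
    have h3 := mul_left_cancel₀ ha0 h2
    rw [← h3]
    refine Finset.sum_congr rfl fun p _ => ?_
    linear_combination c p * b p * h1

/-- the count of the entries with positive weight -/
theorem sum_entries (B : Blk N m) (Z : Set (Fin N → ℤ)) (f : Fin N → ℤ) :
    (∑ i : Fin (m + 1), if B.rw i = B.cl i then f (B.rw i) else
      if Flat B Z (B.rw i) (B.cl i) then 0 else 1) =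
      ∑ p, f p + 2 * ((Finset.univ.filter fun s : Fin N × Fin N =>
        s.1 < s.2 ∧ B.b s.1 = B.b s.2 ∧ ¬ Flat B Z s.1 s.2).card : ℤ) := by
  have hsymm : ∀ p q, Flat B Z p q → Flat B Z q p := fun p q h =>
    ⟨h.1.symm, fun μ hμ => (h.2 μ hμ).symm⟩
  have h1 : (∑ i : Fin (m + 1), if B.rw i = B.cl i then f (B.rw i) else
      if Flat B Z (B.rw i) (B.cl i) then (0 : ℤ) else 1) =
      ∑ s : {s : Fin N × Fin N // B.b s.1 = B.b s.2}, if s.1.1 = s.1.2 then f s.1.1 else
        if Flat B Z s.1.1 s.1.2 then (0 : ℤ) else 1 :=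
    Equiv.sum_comp B.e fun s : {s : Fin N × Fin N // B.b s.1 = B.b s.2} =>
      if s.1.1 = s.1.2 then f s.1.1 else if Flat B Z s.1.1 s.1.2 then (0 : ℤ) else 1
  have h2 : (∑ s : {s : Fin N × Fin N // B.b s.1 = B.b s.2}, if s.1.1 = s.1.2 then f s.1.1 else
        if Flat B Z s.1.1 s.1.2 then (0 : ℤ) else 1) =
      ∑ s : Fin N × Fin N, if B.b s.1 = B.b s.2 then (if s.1 = s.2 then f s.1 else
        if Flat B Z s.1 s.2 then (0 : ℤ) else 1) else 0 := by
    rw [← Finset.sum_filter]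
    exact (Finset.sum_subtype (Finset.univ.filter fun s : Fin N × Fin N => B.b s.1 = B.b s.2)
      (fun s => by simp) fun s => if s.1 = s.2 then f s.1 else
        if Flat B Z s.1 s.2 then (0 : ℤ) else 1).symm
  have h3 : ∀ s : Fin N × Fin N, (if B.b s.1 = B.b s.2 then (if s.1 = s.2 then f s.1 else
        if Flat B Z s.1 s.2 then (0 : ℤ) else 1) else 0) =
      (if s.1 = s.2 then f s.1 else 0) +
      ((if s.1 < s.2 ∧ B.b s.1 = B.b s.2 ∧ ¬ Flat B Z s.1 s.2 then (1 : ℤ) else 0) +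
      (if s.2 < s.1 ∧ B.b s.2 = B.b s.1 ∧ ¬ Flat B Z s.2 s.1 then (1 : ℤ) else 0)) := by
    rintro ⟨p, q⟩
    rcases lt_trichotomy p q with h | h | h
    · have hne : p ≠ q := h.ne
      have hnlt : ¬ q < p := not_lt.2 h.le
      by_cases hb : B.b p = B.b q
      · by_cases hf : Flat B Z p q
        · simp [hne, hnlt, hb, hf]
        · simp [h, hne, hnlt, hb, hf]
      · simp [hne, hnlt, hb]
    · subst h
      simp
    · have hne : p ≠ q := h.ne'
      have hnlt : ¬ p < q := not_lt.2 h.le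
      by_cases hb : B.b p = B.b q
      · by_cases hf : Flat B Z p q
        · simp [hne, hnlt, hb, hf, hsymm p q hf]
        · have hf' : ¬ Flat B Z q p := fun h' => hf (hsymm q p h')
          simp [h, hne, hnlt, hb, hf, hf']
      · have hb' : ¬ B.b q = B.b p := fun h' => hb h'.symm
        simp [hne, hnlt, hb, hb']
  have h4 : (∑ s : Fin N × Fin N, if s.1 = s.2 then f s.1 else 0) = ∑ p, f p := by
    rw [Fintype.sum_prod_type]
    refine Finset.sum_congr rfl fun p _ => ?_
    simp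
  have h5 : (∑ s : Fin N × Fin N,
      if s.1 < s.2 ∧ B.b s.1 = B.b s.2 ∧ ¬ Flat B Z s.1 s.2 then (1 : ℤ) else 0) =
      ((Finset.univ.filter fun s : Fin N × Fin N =>
        s.1 < s.2 ∧ B.b s.1 = B.b s.2 ∧ ¬ Flat B Z s.1 s.2).card : ℤ) := by
    rw [Finset.sum_boole]
  have h6 : (∑ s : Fin N × Fin N,
      if s.2 < s.1 ∧ B.b s.2 = B.b s.1 ∧ ¬ Flat B Z s.2 s.1 then (1 : ℤ) else 0) =
      ∑ s : Fin N × Fin N,
      if s.1 < s.2 ∧ B.b s.1 = B.b s.2 ∧ ¬ Flat B Z s.1 s.2 then (1 : ℤ) else 0 :=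
    Equiv.sum_comp (Equiv.prodComm (Fin N) (Fin N)) fun s : Fin N × Fin N =>
      if s.1 < s.2 ∧ B.b s.1 = B.b s.2 ∧ ¬ Flat B Z s.1 s.2 then (1 : ℤ) else 0
  rw [h1, h2, Finset.sum_congr rfl fun s _ => h3 s, Finset.sum_add_distrib,
    Finset.sum_add_distrib, h4, h6, h5]
  ring

theorem sum_diag (B : Blk N m) (f : Fin N → ℤ) :
    (∑ i : Fin (m + 1), if B.rw i = B.cl i then f (B.rw i) else 0) = ∑ p, f p := by
  rw [← Finset.sum_filter]
  refine Finset.sum_bij' (fun i _ => B.rw i) (fun p _ => B.dx p) (fun i _ => Finset.mem_univ _)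
    (fun p _ => ?_) (fun i hi => ?_) (fun p _ => rw_dx p) (fun i _ => rfl)
  · rw [Finset.mem_filter, rw_dx, cl_dx]
    exact ⟨Finset.mem_univ _, rfl⟩
  · exact dx_rw (Finset.mem_filter.1 hi).2

/-- the choice of the basis -/
theorem basis (l : Fin N → ℤ) (Λ : AddSubgroup (Fin N → ℤ))
    (hs : ∀ (n : ℕ) (κ : Fin N → ℤ), 0 < n → n • κ ∈ Λ → κ ∈ Λ) (h0 : ∀ κ ∈ Λ, l ⬝ᵥ κ = 0) :
    ∃ (β : Matrix (Fin N) (Fin N) ℤ) (I : Finset (Fin N)), IsUnit β.det ∧
      I.card = Module.finrank ℚ (Submodule.span ℚ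
        {x : Fin N → ℚ | ∃ μ ∈ Λ, x = fun i => (μ i : ℚ)}) ∧
      (∀ i ∈ I, l ⬝ᵥ β i = 0) ∧ (∀ i, 0 ≤ l ⬝ᵥ β i) ∧
      ∀ κ ∈ Λ, ∃ c : Fin N → ℤ, (∀ i ∉ I, c i = 0) ∧ κ = ∑ i, c i • β i := by
  obtain ⟨β, I, hdet, hcard, hI, hβ⟩ := lat_sat Λ hs
  let ε : Fin N → ℤ := fun p => if 0 ≤ l ⬝ᵥ β p then 1 else -1
  have hε : ∀ p, ε p * ε p = 1 := by
    intro p
    simp only [ε]
    split_ifs <;> norm_num
  have hrow : ∀ p, (Matrix.diagonal ε * β) p = ε p • β p := by
    intro p
    funext q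
    rw [Matrix.diagonal_mul, Pi.smul_apply, smul_eq_mul]
  have hdot : ∀ p, l ⬝ᵥ (Matrix.diagonal ε * β) p = ε p * (l ⬝ᵥ β p) := by
    intro p
    rw [hrow, dotProduct_smul, smul_eq_mul]
  refine ⟨Matrix.diagonal ε * β, I, ?_, hcard, fun i hi => ?_, fun i => ?_, fun κ hκ => ?_⟩
  · rw [Matrix.det_mul, Matrix.det_diagonal]
    refine IsUnit.mul ?_ hdet
    refine IsUnit.of_mul_eq_one (∏ i, ε i) ?_
    rw [← Finset.prod_mul_distrib]
    exact Finset.prod_eq_one fun i _ => hε i
  · rw [hdot, h0 _ (hI i hi), mul_zero]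
  · rw [hdot]
    simp only [ε]
    split_ifs with h
    · rw [one_mul]
      exact h
    · push Not at h
      linarith
  · obtain ⟨c, hc, hc2⟩ := hβ κ hκ
    refine ⟨fun i => c i * ε i, fun i hi => by simp only [hc i hi, zero_mul], ?_⟩
    rw [hc2]
    refine Finset.sum_congr rfl fun i _ => ?_
    rw [hrow, smul_smul, mul_assoc, hε, mul_one]

/-- change of the coordinates in the form order -/
theorem form_change {n : ℕ} (v : DVal k K) (D F : Fin n → Derivation k K K) (δ : K) (hδ : δ ≠ 0)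
    (h : ∀ a, jac D a = δ * jac F a) {j : ℤ} (hj : v.FormOrd F j) :
    v.FormOrd D (j - v.ord δ) := by
  constructor
  · intro a ha h0
    rw [h] at h0 ⊢
    have hF := right_ne_zero_of_mul h0
    rw [v.ord_mul _ _ hδ hF]
    have := hj.1 a ha hF
    linarith
  · obtain ⟨a, ha, h0, h1⟩ := hj.2
    refine ⟨a, ha, ?_, ?_⟩
    · rw [h]
      exact mul_ne_zero hδ h0
    · rw [h, v.ord_mul _ _ hδ h0, h1]
      ring

/-- a centre -/
theorem center_of {A : Subalgebra k K} (x : MaximalSpectrum A) (v : DVal k K)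
    (h : ∀ f : A, ∃ c : k, f - algebraMap k A c ∈ x.asIdeal ∧
      v.Small ((f : K) - algebraMap k K c)) : v.HasCenter A x.asIdeal := by
  have hconst : ∀ c : k, v.Small (algebraMap k K c) → c = 0 := by
    intro c hc
    by_contra h0
    have h1 : algebraMap k K c ≠ 0 := by
      rw [Ne, map_eq_zero]
      exact h0
    have h2 := hc h1
    rw [v.ord_algebraMap c h0] at h2
    exact lt_irrefl _ h2
  have hconst2 : ∀ c : k, algebraMap k A c ∈ x.asIdeal → c = 0 := by
    intro c hc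
    by_contra h0
    apply x.isMaximal.ne_top
    rw [Ideal.eq_top_iff_one]
    have := x.asIdeal.mul_mem_left (algebraMap k A c⁻¹) hc
    rwa [← map_mul, inv_mul_cancel₀ h0, map_one] at this
  constructor
  · intro f
    obtain ⟨c, -, hc⟩ := h f
    have h1 : LB v 0 ((f : K) - algebraMap k K c) :=
      LB.mono (M := 0) (N := 1) hc (by norm_num)
    have h2 := h1.add (Pool.Agent.MLD.Ten.LB_algebraMap v c)
    rw [sub_add_cancel] at h2
    exact h2
  · intro f
    obtain ⟨c, hcx, hc⟩ := h f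
    constructor
    · intro hf
      have h1 := x.asIdeal.sub_mem hf hcx
      rw [sub_sub_cancel] at h1
      rw [hconst2 c h1, map_zero, sub_zero] at hc
      exact hc
    · intro hf
      have h1 : LB v 1 ((f : K) - ((f : K) - algebraMap k K c)) :=
        Pool.Agent.MLD.Ten.LB_sub v hf hc
      rw [sub_sub_cancel] at h1
      rw [hconst c h1, map_zero, sub_zero] at hcx
      exact hcx

end Lem

section LEM

variable [IsAlgClosed k] [CharZero k] {C : GC k K B} {A : Subalgebra k K}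

theorem gam_ne (hA : IsEmb C A) (X : XData C A) : ∃ μ ∈ Gam C A, μ ≠ 0 := by
  by_contra hcon
  push Not at hcon
  have hInc0 : B.Inc (0 : Fin N → ℤ) := fun _ _ _ _ => le_rfl
  let O : Ord B := ordOf (0 : Fin N → ℤ) hInc0
  have hO : ∀ μ, μ ∈ O.P := fun μ => by
    show 0 ≤ (0 : Fin N → ℤ) ⬝ᵥ μ
    simp
  have hG : GamX B X.Q X.x ⊆ O.P := fun μ _ => hO μ
  have hO0 : ∀ μ, μ ∈ O.zero := fun μ => ⟨hO μ, hO _⟩
  have hSX : ∀ μ ∈ SX B X.Q X.x, μ = 0 := by
    intro μ hμ
    have h1 := sx_zero X.mon O hG hμ (hO0 μ)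
    have h3 : μ ∈ (⊥ : AddSubgroup (Fin N → ℤ)) :=
      (AddSubgroup.closure_le _).2
        (fun ν hν => AddSubgroup.mem_bot.2 (hcon ν ((X.gam ν).2 hν.1))) h1
    exact AddSubgroup.mem_bot.1 h3
  have hconst : ∀ f ∈ A, ∃ c : k, algebraMap k K c = f := by
    intro f hf
    obtain ⟨n, P, hP⟩ := emb_reg hA f hf
    rw [rep_sum C hP]
    refine ⟨∑ s ∈ (B.Th k P).support, (B.Th k P).coeff s, ?_⟩
    rw [map_sum]
    refine Finset.sum_congr rfl fun s hs => ?_
    have e1 := exp_mem hA X hf hP (ee_supp hs)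
    have e2 := exp_mem hA X hf hP (ee_weight C hs).1
    have e3 := exp_mem hA X hf hP (ee_weight C hs).2
    have hD : B.OnlyD s := inact X.mon O hG rfl n s e1 e2 e3 (hO0 _) fun i _ _ =>
      ⟨B.rw_cl i, fun μ hμ => by rw [hcon μ ((X.gam μ).2 hμ.1)]; rfl⟩
    rw [Lem.off_one C hD, hSX _ e1, dm_zero, mul_one, mul_one]
  have htop : ∀ f : K, ∃ c : k, algebraMap k K c = f := by
    intro f
    obtain ⟨a, b, -, rfl⟩ := hA.good.frac f
    obtain ⟨ca, hca⟩ := hconst a a.2
    obtain ⟨cb, hcb⟩ := hconst b b.2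
    exact ⟨ca / cb, by rw [map_div₀, hca, hcb]⟩
  obtain ⟨c, hc⟩ := htop (C.y 0)
  have h1 := C.ind.transcendental 0
  rw [← hc] at h1
  exact h1 (isAlgebraic_algebraMap c)

theorem le (hA : IsEmb C A) (X : XData C A) (x : MaximalSpectrum A) (l : Fin N → ℤ)
    (hl : B.Inc l) (hG : ∀ μ ∈ Gam C A, 0 ≤ l ⬝ᵥ μ) (Z : Set (Fin N → ℤ))
    (hZ : Z = {μ | μ ∈ Gam C A ∧ l ⬝ᵥ μ = 0})
    (hs : ∀ (n : ℕ) (κ : Fin N → ℤ), 0 < n → n • κ ∈ AddSubgroup.closure Z →
      κ ∈ AddSubgroup.closure Z)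
    (hx : IsLim C Z x.asIdeal) :
    ∃ (n : ℕ) (v : DVal k K) (j : ℤ) (l' : Fin N → ℤ), 1 ≤ n ∧ v.IsDivisorial m ∧
      v.HasCenter A x.asIdeal ∧ v.FormOrd C.D j ∧ Lam C v l' ∧ (∀ p, n * l' p = l p) ∧
      n * (j + 1) ≤ ∑ p, B.th p * l p + Dr B Z := by
  classical
  -- the basis
  have h0 : ∀ κ ∈ AddSubgroup.closure Z, l ⬝ᵥ κ = 0 := by
    intro κ hκ
    induction hκ using AddSubgroup.closure_induction with
    | mem κ hκ =>
      rw [hZ] at hκ
      exact hκ.2
    | zero => exact dotProduct_zero l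
    | add a b _ _ ha hb => rw [dotProduct_add, ha, hb, add_zero]
    | neg a _ ha => rw [dotProduct_neg, ha, neg_zero]
  obtain ⟨β, I, hβu, hcard, hI0, hI1, hβ⟩ := Lem.basis l (AddSubgroup.closure Z) hs h0
  rw [span_closure] at hcard
  -- the multiplicity
  obtain ⟨n, hn, l', hl', hn1, hc1⟩ : ∃ n : ℕ, 1 ≤ n ∧ ∃ l' : Fin N → ℤ, (∀ p, n * l' p = l p) ∧
      (I.Nonempty → n = 1) ∧ (¬ I.Nonempty → ∃ c : Fin N → ℤ, ∑ p, c p * l' p = 1) := by
    by_cases hne : I.Nonempty
    · exact ⟨1, le_rfl, l, fun p => by rw [Nat.cast_one, one_mul], fun _ => rfl,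
        fun h => absurd hne h⟩
    · have hZ0 : ∀ κ ∈ Z, κ = 0 := by
        intro κ hκ
        obtain ⟨c, hc, hc2⟩ := hβ κ (AddSubgroup.subset_closure hκ)
        rw [hc2]
        refine Finset.sum_eq_zero fun i _ => ?_
        rw [hc i fun hi => hne ⟨i, hi⟩, zero_smul]
      have hl0 : l ≠ 0 := by
        rintro rfl
        obtain ⟨μ, hμ, hμ0⟩ := gam_ne hA X
        refine hμ0 (hZ0 μ ?_)
        rw [hZ]
        exact ⟨hμ, zero_dotProduct μ⟩
      obtain ⟨n, hn, l', hl', c, hc⟩ := Lem.exists_gcd l hl0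
      exact ⟨n, hn, l', hl', fun h => absurd h hne, fun _ => ⟨c, hc⟩⟩
  have hnz : (n : ℤ) ≠ 0 := by
    have : (1 : ℤ) ≤ n := by exact_mod_cast hn
    omega
  have hnpos : (0 : ℤ) < n := by
    have : (1 : ℤ) ≤ n := by exact_mod_cast hn
    omega
  have hldot : ∀ κ : Fin N → ℤ, l ⬝ᵥ κ = n * (l' ⬝ᵥ κ) := by
    intro κ
    rw [dotProduct, dotProduct, Finset.mul_sum]
    refine Finset.sum_congr rfl fun p _ => ?_
    rw [← hl' p]
    ring
  have hI0' : ∀ i ∈ I, l' ⬝ᵥ β i = 0 := by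
    intro i hi
    have := hI0 i hi
    rw [hldot] at this
    exact (mul_eq_zero.1 this).resolve_left hnz
  have hI1' : ∀ i, 0 ≤ l' ⬝ᵥ β i := by
    intro i
    have := hI1 i
    rw [hldot] at this
    exact nonneg_of_mul_nonneg_right this hnpos
  -- the inverse matrix
  have hβinv : β⁻¹ * β = 1 := Matrix.nonsing_inv_mul β hβu
  have hcomb : ∀ μ : Fin N → ℤ, μ = ∑ q, (Matrix.vecMul μ β⁻¹) q • β q := by
    intro μ
    have h1 : Matrix.vecMul (Matrix.vecMul μ β⁻¹) β = μ := by
      rw [Matrix.vecMul_vecMul, hβinv, Matrix.vecMul_one]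
    conv_lhs => rw [← h1]
    rw [Matrix.vecMul_eq_sum]
  -- the coordinates
  let t : Fin (m + 1) → K := fun i => if B.rw i = B.cl i then
    C.dm (β (B.rw i)) - algebraMap k K (if B.rw i ∈ I then 1 else 0) else C.T i
  let w : Fin (m + 1) → ℕ := fun i => if B.rw i = B.cl i then
    (if B.rw i ∈ I then 1 else (l' ⬝ᵥ β (B.rw i)).toNat) else
      if Flat B Z (B.rw i) (B.cl i) then 0 else 1
  have ht_dx : ∀ p, t (B.dx p) = C.dm (β p) - algebraMap k K (if p ∈ I then 1 else 0) := by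
    intro p
    simp only [t]
    rw [if_pos (by rw [Lem.rw_dx, Lem.cl_dx]), Lem.rw_dx]
  have ht_off : ∀ i, B.rw i ≠ B.cl i → t i = C.T i := fun i hi => by
    simp only [t]
    rw [if_neg hi]
  have hw_dx : ∀ p, w (B.dx p) = if p ∈ I then 1 else (l' ⬝ᵥ β p).toNat := by
    intro p
    simp only [w]
    rw [if_pos (by rw [Lem.rw_dx, Lem.cl_dx]), Lem.rw_dx]
  have hw_off : ∀ i, B.rw i ≠ B.cl i → w i = if Flat B Z (B.rw i) (B.cl i) then 0 else 1 :=
    fun i hi => by
      simp only [w]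
      rw [if_neg hi]
  -- the Jacobian
  obtain ⟨E, hE, hEj⟩ := exists_E C
  have hEt : ∀ i, B.rw i ≠ B.cl i → ∀ q, E q (t i) = if q = i then 1 else 0 := by
    intro i hi q
    rw [ht_off i hi, hE]
  have hjb := jac_b C E hE β (fun p => if p ∈ I then 1 else 0) t ht_dx
    (fun i hi q hq => by
      left
      rw [hEt i hi.ne' q] at hq
      by_contra hne
      exact hq (if_neg hne))
    (fun i hi q hq => by
      left
      rw [hEt i hi.ne q] at hq
      by_contra hne
      exact hq (if_neg hne))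
  have hprod1 : (∏ i, if B.rw i = B.cl i then (1 : K) else E i (t i)) = 1 := by
    refine Finset.prod_eq_one fun i _ => ?_
    split_ifs with h
    · rfl
    · rw [hEt i h, if_pos rfl]
  rw [hprod1, mul_one] at hjb
  have hdetk : (β.det : K) = algebraMap k K (β.det : k) := by
    rw [map_intCast]
  have hdetk0 : (β.det : k) ≠ 0 := by
    rw [Ne, Int.cast_eq_zero]
    exact hβu.ne_zero
  have hdetK0 : (β.det : K) ≠ 0 := by
    rw [hdetk, Ne, map_eq_zero]
    exact hdetk0
  have hdmp0 : (∏ p, C.dm (β p)) ≠ 0 := Finset.prod_ne_zero_iff.2 fun p _ => dm_ne C _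
  have hdp0 : (∏ p, C.d p) ≠ 0 := Finset.prod_ne_zero_iff.2 fun p _ => d_ne C p
  have hjT0 : jac C.D C.T ≠ 0 := by
    rw [jac_T]
    exact Finset.prod_ne_zero_iff.2 fun p _ => zpow_ne_zero _ (d_ne C p)
  have hjE0 : jac E t ≠ 0 := by
    rw [hjb]
    exact mul_ne_zero (mul_ne_zero hdetK0 hdmp0) (inv_ne_zero hdp0)
  have hjD : jac C.D t = jac C.D C.T * jac E t := hEj t
  have hjD0 : jac C.D t ≠ 0 := by
    rw [hjD]
    exact mul_ne_zero hjT0 hjE0
  -- independence and generation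
  have hind : AlgebraicIndependent k t := Pool.Agent.MLD.jac_indep C.D t hjD0
  have hgen : IntermediateField.adjoin k (Set.range t) = ⊤ := by
    rw [← top_le_iff, ← gen_T C, IntermediateField.adjoin_le_iff]
    rintro _ ⟨i, rfl⟩
    have hmem : ∀ i, t i ∈ IntermediateField.adjoin k (Set.range t) := fun i =>
      IntermediateField.subset_adjoin k _ ⟨i, rfl⟩
    by_cases hi : B.rw i = B.cl i
    · have h1 : ∀ q, C.dm (β q) ∈ IntermediateField.adjoin k (Set.range t) := by
        intro q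
        have h2 := add_mem (hmem (B.dx q)) ((IntermediateField.adjoin k (Set.range t)).algebraMap_mem
          (if q ∈ I then 1 else 0))
        rw [ht_dx, sub_add_cancel] at h2
        exact h2
      have h2 : C.T i = C.dm (Pi.single (B.rw i) 1) := by
        rw [dm_single]
        unfold GC.d Blk.dia
        rw [Lem.dx_rw hi]
      have h3 := hcomb (Pi.single (B.rw i) 1)
      rw [h2, h3, Lem.dm_sum C Finset.univ]
      exact prod_mem fun q _ => zpow_mem (h1 q) _
    · rw [← ht_off i hi]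
      exact hmem i
  obtain ⟨F, hF, -, hFj⟩ := Pool.Agent.MLD.Ten.dual C.D t hjD0
  have hgcd : ∃ c : Fin (m + 1) → ℤ, ∑ i, c i * w i = 1 := by
    by_cases hne : I.Nonempty
    · obtain ⟨p, hp⟩ := hne
      refine ⟨Pi.single (B.dx p) 1, ?_⟩
      rw [Finset.sum_eq_single (B.dx p)]
      · rw [Pi.single_eq_same, hw_dx, if_pos hp, one_mul, Nat.cast_one]
      · intro j _ hj
        rw [Pi.single_eq_of_ne hj, zero_mul]
      · intro h
        exact absurd (Finset.mem_univ _) h
    · obtain ⟨c, hc⟩ := hc1 hne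
      refine ⟨fun i => if B.rw i = B.cl i then (Matrix.vecMul c β⁻¹) (B.rw i) else 0, ?_⟩
      have h1 : ∀ i, (if B.rw i = B.cl i then (Matrix.vecMul c β⁻¹) (B.rw i) else 0) * (w i : ℤ) =
          if B.rw i = B.cl i then (Matrix.vecMul c β⁻¹) (B.rw i) * (l' ⬝ᵥ β (B.rw i)) else 0 := by
        intro i
        split_ifs with hi
        · have h2 := hw_dx (B.rw i)
          rw [Lem.dx_rw hi, if_neg fun h => hne ⟨_, h⟩] at h2
          rw [h2, Int.toNat_of_nonneg (hI1' _)]
        · rw [zero_mul]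
      rw [Finset.sum_congr rfl fun i _ => h1 i, Lem.sum_diag B fun p =>
        (Matrix.vecMul c β⁻¹) p * (l' ⬝ᵥ β p), ← hc]
      have h3 : ∑ p, c p * l' p = l' ⬝ᵥ c := by
        rw [dotProduct]
        exact Finset.sum_congr rfl fun p _ => mul_comm _ _
      rw [h3]
      conv_rhs => rw [hcomb c]
      rw [dotProduct_sum]
      refine Finset.sum_congr rfl fun q _ => ?_
      rw [dotProduct_smul, smul_eq_mul]
  obtain ⟨v, hdiv, hform, hord, -⟩ := monv t hind hgen F hF w hgcd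
  -- the values
  have hβI : ∀ p ∈ I, Pool.Agent.MLD.Jac.LB v 1 (C.dm (β p) - 1) := by
    intro p hp h
    have h1 := hord (B.dx p)
    rw [ht_dx, hw_dx, if_pos hp, if_pos hp, map_one] at h1
    rw [h1, Nat.cast_one]
  have hβv : ∀ p, v.ord (C.dm (β p)) = l' ⬝ᵥ β p := by
    intro p
    by_cases hp : p ∈ I
    · rw [(Lem.one_ord v (hβI p hp)).2, hI0' p hp]
    · have h1 := hord (B.dx p)
      rw [ht_dx, hw_dx, if_neg hp, if_neg hp, map_zero, sub_zero] at h1
      rw [h1, Int.toNat_of_nonneg (hI1' p)]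
  have hdv : ∀ μ : Fin N → ℤ, v.ord (C.dm μ) = l' ⬝ᵥ μ := by
    intro μ
    have h1 := hcomb μ
    have h2 : C.dm μ = ∏ q, C.dm (β q) ^ (Matrix.vecMul μ β⁻¹) q := by
      conv_lhs => rw [h1]
      exact Lem.dm_sum C Finset.univ _ _
    rw [h2, Pool.Agent.MLD.Jac.ord_prod v _ _ fun q _ => zpow_ne_zero _ (dm_ne C _)]
    conv_rhs => rw [h1]
    rw [dotProduct_sum]
    refine Finset.sum_congr rfl fun q _ => ?_
    rw [Pool.Agent.MLD.Jac.ord_zpow v _ (dm_ne C _), hβv, dotProduct_smul, smul_eq_mul]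
  have hdp : ∀ p, v.ord (C.d p) = l' p := by
    intro p
    rw [← dm_single C p, hdv, dotProduct_single, mul_one]
  have hToff : ∀ i, B.rw i ≠ B.cl i → v.ord (C.T i) = if Flat B Z (B.rw i) (B.cl i) then 0 else 1 := by
    intro i hi
    rw [← ht_off i hi, hord, hw_off i hi]
    split_ifs <;> simp
  have hTint : ∀ i, B.rw i ≠ B.cl i → Pool.Agent.MLD.Jac.LB v 0 (C.T i) := by
    intro i hi _
    rw [hToff i hi]
    split_ifs <;> norm_num
  have hmat : ∀ p q, p ≠ q → Pool.Agent.MLD.Jac.LB v 0 (B.mat C.T p q) := by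
    intro p q hpq
    unfold Blk.mat
    split_ifs with h
    · apply hTint
      rw [B.rw_ix, B.cl_ix]
      exact hpq
    · exact Pool.Agent.MLD.Jac.LB.zero v 0
  have hone : Pool.Agent.MLD.Jac.LB v 0 (1 : K) := fun _ => by
    rw [Pool.Agent.MLD.Jac.ord_one]
  refine ⟨n, v, (∑ i, (w i : ℤ) - 1) - v.ord (jac C.D t), l', hn, hdiv, ?_, ?_, ?_, hl', ?_⟩
  · -- the centre
    have hG' : GamX B X.Q X.x ⊆ (ordOf l hl).P := fun μ hμ => hG μ ((X.gam μ).2 hμ)
    have hZ' : Z = {ν | ν ∈ GamX B X.Q X.x ∧ ν ∈ (ordOf l hl).zero} := by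
      rw [hZ]
      ext μ
      constructor
      · rintro ⟨h1, h2⟩
        refine ⟨(X.gam μ).1 h1, ?_, ?_⟩
        · show 0 ≤ l ⬝ᵥ μ
          rw [h2]
        · show 0 ≤ l ⬝ᵥ (-μ)
          rw [dotProduct_neg, h2, neg_zero]
      · rintro ⟨h1, h2, h3⟩
        refine ⟨(X.gam μ).2 h1, le_antisymm ?_ h2⟩
        have h4 : 0 ≤ l ⬝ᵥ (-μ) := h3
        rw [dotProduct_neg] at h4
        linarith
    refine Lem.center_of x v fun f => ?_
    obtain ⟨e, P, hP⟩ := emb_reg hA (f : K) f.2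
    refine ⟨B.lim (AddSubgroup.closure Z) e P, hx f e P hP, ?_⟩
    show Pool.Agent.MLD.Jac.LB v 1 _
    have hsplit : (f : K) - algebraMap k K (B.lim (AddSubgroup.closure Z) e P) =
        ∑ s ∈ (B.Th k P).support, algebraMap k K ((B.Th k P).coeff s) *
          (C.off s * C.dm (B.dg s - fun _ => (e : ℤ)) -
            if B.OnlyD s ∧ (B.dg s - fun _ => (e : ℤ)) ∈ AddSubgroup.closure Z then 1 else 0) := by
      rw [rep_sum C hP, Blk.lim, Finset.sum_filter, map_sum, ← Finset.sum_sub_distrib]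
      refine Finset.sum_congr rfl fun s _ => ?_
      split_ifs
      · ring
      · rw [map_zero]
        ring
    rw [hsplit]
    refine Pool.Agent.MLD.Jac.LB.sum _ _ fun s hsup => ?_
    have hterm : Pool.Agent.MLD.Jac.LB v 1 (C.off s * C.dm (B.dg s - fun _ => (e : ℤ)) -
            if B.OnlyD s ∧ (B.dg s - fun _ => (e : ℤ)) ∈ AddSubgroup.closure Z then 1 else 0) := by
      split_ifs with hcase
      · -- the constant term
        rw [Lem.off_one C hcase.1, one_mul]
        obtain ⟨c, hc, hc2⟩ := hβ _ hcase.2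
        rw [hc2, Lem.dm_sum C Finset.univ]
        refine Lem.one_prod' v _ _ fun i _ => ?_
        by_cases hi : i ∈ I
        · exact Lem.one_zpow' v (hβI i hi) _
        · rw [hc i hi, zpow_zero, sub_self]
          exact Pool.Agent.MLD.Jac.LB.zero v 1
      · rw [sub_zero]
        have e1 := exp_mem hA X f.2 hP (ee_supp hsup)
        have e2 := exp_mem hA X f.2 hP (ee_weight C hsup).1
        have e3 := exp_mem hA X f.2 hP (ee_weight C hsup).2
        have hpos : 0 ≤ l ⬝ᵥ (B.dg s - fun _ => (e : ℤ)) := sx_sub (ordOf l hl) hG' e1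
        have hoff0 : ∀ i, Pool.Agent.MLD.Jac.LB v 0
            (if B.rw i = B.cl i then 1 else C.T i ^ s i) := by
          intro i
          split_ifs with hi
          · exact hone
          · exact Lem.LB_pow v (hTint i hi) _
        have hoffs : Pool.Agent.MLD.Jac.LB v 0 (C.off s) :=
          Lem.LB_prod v _ _ fun i _ => hoff0 i
        have hdm0 : Pool.Agent.MLD.Jac.LB v 0 (C.dm (B.dg s - fun _ => (e : ℤ))) := by
          intro _
          rw [hdv]
          rw [hldot] at hpos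
          exact nonneg_of_mul_nonneg_right hpos hnpos
        rcases hpos.lt_or_eq with hlt | heq
        · have hdm1 : Pool.Agent.MLD.Jac.LB v 1 (C.dm (B.dg s - fun _ => (e : ℤ))) := by
            intro _
            rw [hdv]
            rw [hldot] at hlt
            have := (mul_pos_iff_of_pos_left hnpos).1 hlt
            omega
          have := hoffs.mul hdm1
          rwa [zero_add] at this
        · have hz : (B.dg s - fun _ => (e : ℤ)) ∈ (ordOf l hl).zero := by
            refine ⟨hpos, ?_⟩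
            show 0 ≤ l ⬝ᵥ (-(B.dg s - fun _ => (e : ℤ)))
            rw [dotProduct_neg, ← heq, neg_zero]
          have hΛ : (B.dg s - fun _ => (e : ℤ)) ∈ AddSubgroup.closure Z := by
            have := sx_zero X.mon (ordOf l hl) hG' e1 hz
            rwa [← hZ'] at this
          have hnD : ¬ B.OnlyD s := fun h => hcase ⟨h, hΛ⟩
          have hex : ∃ i, s i ≠ 0 ∧ B.rw i ≠ B.cl i ∧ ¬ Flat B Z (B.rw i) (B.cl i) := by
            by_contra hno
            push Not at hno
            exact hnD (inact X.mon (ordOf l hl) hG' hZ' e s e1 e2 e3 hz hno)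
          obtain ⟨i, hi1, hi2, hi3⟩ := hex
          have hsmall : Pool.Agent.MLD.Jac.LB v 1 (C.off s) := by
            refine Lem.LB_prod_small v _ _ (fun i _ => hoff0 i) (Finset.mem_univ i) ?_
            rw [if_neg hi2]
            intro h00
            have hT0 : C.T i ≠ 0 := fun h => h00 (by rw [h, zero_pow hi1])
            rw [Pool.Agent.MLD.Jac.ord_pow v _ hT0, hToff i hi2, if_neg hi3, mul_one]
            have : 1 ≤ s i := Nat.one_le_iff_ne_zero.2 hi1
            exact_mod_cast this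
          have := hsmall.mul hdm0
          rwa [add_zero] at this
    have := (Pool.Agent.MLD.Ten.LB_algebraMap v ((B.Th k P).coeff s)).mul hterm
    rwa [zero_add] at this
  · exact Lem.form_change v C.D F _ hjD0 hFj hform
  · refine ⟨AlgEquiv.refl, tra_refl C, fun p q => ?_, fun p q => ?_, fun p => ?_, ?_⟩
    · rw [map_L]
      show Pool.Agent.MLD.Jac.LB v 0 (B.low C.T p q)
      unfold Blk.low
      split_ifs with h1 h2
      · exact hone
      · exact hmat p q h1
      · exact Pool.Agent.MLD.Jac.LB.zero v 0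
    · rw [map_U]
      show Pool.Agent.MLD.Jac.LB v 0 (B.upp C.T p q)
      unfold Blk.upp
      split_ifs with h1 h2
      · exact hone
      · exact hmat p q h1
      · exact Pool.Agent.MLD.Jac.LB.zero v 0
    · rw [map_d]
      exact hdp p
    · intro p q hpq hb
      have := hl p q hpq hb
      rw [← hl' p, ← hl' q] at this
      exact le_of_mul_le_mul_left this hnpos
  · -- the inequality
    have hordT : v.ord (jac C.D C.T) = -∑ p, 2 * (B.aft p : ℤ) * l' p := by
      rw [jac_T, Pool.Agent.MLD.Jac.ord_prod v _ _ fun p _ => zpow_ne_zero _ (d_ne C p),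
        ← Finset.sum_neg_distrib]
      refine Finset.sum_congr rfl fun p _ => ?_
      rw [Pool.Agent.MLD.Jac.ord_zpow v _ (d_ne C p), hdp]
      ring
    have hordE : v.ord (jac E t) = ∑ p, l' ⬝ᵥ β p - ∑ p, l' p := by
      rw [hjb, v.ord_mul _ _ (mul_ne_zero hdetK0 hdmp0) (inv_ne_zero hdp0),
        v.ord_mul _ _ hdetK0 hdmp0, hdetk, v.ord_algebraMap _ hdetk0,
        Pool.Agent.MLD.Jac.ord_prod v _ _ fun p _ => dm_ne C _,
        Pool.Agent.MLD.Jac.ord_inv v _ hdp0,
        Pool.Agent.MLD.Jac.ord_prod v _ _ fun p _ => d_ne C p,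
        Finset.sum_congr rfl fun p _ => hβv p, Finset.sum_congr rfl fun p _ => hdp p]
      ring
    have hordD : v.ord (jac C.D t) = ∑ p, l' ⬝ᵥ β p - ∑ p, B.th p * l' p := by
      rw [hjD, v.ord_mul _ _ hjT0 hjE0, hordT, hordE]
      have : ∑ p, B.th p * l' p = ∑ p, 2 * (B.aft p : ℤ) * l' p + ∑ p, l' p := by
        rw [← Finset.sum_add_distrib]
        refine Finset.sum_congr rfl fun p _ => ?_
        unfold Blk.th
        ring
      rw [this]
      ring
    have hwsum : ∑ i, (w i : ℤ) = I.card + ∑ p, l' ⬝ᵥ β p +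
        2 * ((Finset.univ.filter fun s : Fin N × Fin N =>
        s.1 < s.2 ∧ B.b s.1 = B.b s.2 ∧ ¬ Flat B Z s.1 s.2).card : ℤ) := by
      have h1 := Lem.sum_entries B Z fun p => if p ∈ I then 1 else l' ⬝ᵥ β p
      have h2 : ∀ i, (w i : ℤ) = if B.rw i = B.cl i then (if B.rw i ∈ I then 1 else
          l' ⬝ᵥ β (B.rw i)) else if Flat B Z (B.rw i) (B.cl i) then 0 else 1 := by
        intro i
        simp only [w]
        split_ifs
        · rfl
        · rw [Int.toNat_of_nonneg (hI1' _)]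
        · rfl
        · rfl
      rw [Finset.sum_congr rfl fun i _ => h2 i, h1]
      have h3 : ∑ p, (if p ∈ I then (1 : ℤ) else l' ⬝ᵥ β p) = I.card + ∑ p, l' ⬝ᵥ β p := by
        have h4 : ∀ p, (if p ∈ I then (1 : ℤ) else l' ⬝ᵥ β p) =
            (if p ∈ I then 1 else 0) + l' ⬝ᵥ β p := by
          intro p
          split_ifs with hp
          · rw [hI0' p hp, add_zero]
          · rw [zero_add]
        rw [Finset.sum_congr rfl fun p _ => h4 p, Finset.sum_add_distrib]
        simp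
      rw [h3]
    have hDr : (Dr B Z : ℤ) = I.card + 2 * ((Finset.univ.filter fun s : Fin N × Fin N =>
        s.1 < s.2 ∧ B.b s.1 = B.b s.2 ∧ ¬ Flat B Z s.1 s.2).card : ℤ) := by
      unfold Dr
      rw [← hcard]
      push_cast
      ring
    have hnD : (n : ℤ) * Dr B Z ≤ Dr B Z := by
      by_cases hne : I.Nonempty
      · rw [hn1 hne, Nat.cast_one, one_mul]
      · have hZ0 : ∀ κ ∈ Z, κ = 0 := by
          intro κ hκ
          obtain ⟨c, hc, hc2⟩ := hβ κ (AddSubgroup.subset_closure hκ)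
          rw [hc2]
          refine Finset.sum_eq_zero fun i _ => ?_
          rw [hc i fun hi => hne ⟨i, hi⟩, zero_smul]
        have hDr0 : (Dr B Z : ℤ) = 0 := by
          rw [hDr, Finset.not_nonempty_iff_eq_empty.1 hne, Finset.card_empty]
          rw [Finset.filter_false_of_mem]
          · simp
          · rintro s - ⟨-, h2, h3⟩
            exact h3 ⟨h2, fun μ hμ => by rw [hZ0 μ hμ]; rfl⟩
        rw [hDr0, mul_zero]
    have hsum : ∑ p, B.th p * l p = n * ∑ p, B.th p * l' p := by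
      rw [Finset.mul_sum]
      refine Finset.sum_congr rfl fun p _ => ?_
      rw [← hl' p]
      ring
    have hj1 : (∑ i, (w i : ℤ) - 1) - v.ord (jac C.D t) + 1 = ∑ p, B.th p * l' p + Dr B Z := by
      rw [hordD, hwsum, hDr]
      ring
    rw [hj1, hsum, mul_add]
    linarith

end LEM

end

end Pool.Agent.MLD.Mon
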