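import Pool.Agent.Lib.MP_f23696_ag.M.Lin
import Pool.Agent.Lib.MP_f23696_ag.M.Tra
import Pool.Agent.Lib.MP_f23696_ag.M.Frm
import Pool.Agent.Lib.MP_f23696_ag.M.Cb
import Pool.Agent.Lib.MP_f23696_ag.M.Reg
import Pool.Agent.Lib.MP_f23696_ag.M.Eigt
import Pool.Agent.Lib.MP_f23696_ag.M.Orb
import Pool.Agent.Lib.MP_f23696_ag.M.Bub
import Pool.Agent.Lib.MP_f23696_ag.T.Ind
import Pool.Agent.Lib.MP_f23696_ag.Dvr

/-!
LOC: local data at a closed point (MP_f23696_ag).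
-/

set_option autoImplicit false

open scoped Classical

namespace Pool.Agent.MLD.Mon

open MvPolynomial
open Pool.Agent.MLD.Ten (IsGood)

noncomputable section

universe u v w

variable {N m : ℕ} {B : Blk N m} {k : Type u} {K : Type v} [Field k] [Field K] [Algebra k K]

namespace Loc

theorem dom_zero : B.Dom (0 : Fin N → ℤ) := fun _ _ _ _ => le_rfl

theorem dom_add {μ ν : Fin N → ℤ} (hμ : B.Dom μ) (hν : B.Dom ν) : B.Dom (μ + ν) :=
  fun p q h hb => add_le_add (hμ p q h hb) (hν p q h hb)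

theorem gam_add {C : GC k K B} {A : Subalgebra k K} {μ ν : Fin N → ℤ} (hμ : μ ∈ Gam C A)
    (hν : ν ∈ Gam C A) : μ + ν ∈ Gam C A := by
  refine ⟨dom_add hμ.1 hν.1, ?_⟩
  rw [dm_add]
  exact A.mul_mem hμ.2 hν.2

theorem gam_zero {C : GC k K B} {A : Subalgebra k K} : (0 : Fin N → ℤ) ∈ Gam C A := by
  refine ⟨dom_zero, ?_⟩
  rw [dm_zero]
  exact A.one_mem

theorem flat_refl {Z : Set (Fin N → ℤ)} (p : Fin N) : Flat B Z p p := ⟨rfl, fun _ _ => rfl⟩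

variable [IsAlgClosed k] {C : GC k K B} {A : Subalgebra k K}

/-- adapted frame at a closed point -/
theorem key (hA : IsEmb C A) (y : MaximalSpectrum A) :
    ∃ (σ : K ≃ₐ[k] K) (O : ValuationSubring K), C.Tra σ ∧ Cen O A y.asIdeal ∧ Adm (C.map σ) O ∧
      ∀ μ, μ ∈ Zof C y.asIdeal ↔ μ ∈ Gam C A ∧ ((C.map σ).dm μ)⁻¹ ∈ O := by
  obtain ⟨O, hO⟩ := exists_cen (k := k) (K := K) y.asIdeal y.isMaximal.isPrime
  obtain ⟨σ, hσ, ha⟩ := frame C O fun c => hO.1 (algebraMap k A c)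
  refine ⟨σ, O, hσ, hO, ha, fun μ => ?_⟩
  rw [← zof_map hσ hA, zof_adm (emb_map hσ hA) hO ha, gam_map hσ hA]

omit [IsAlgClosed k] in
theorem mem_O {O : ValuationSubring K} {y : Ideal A} (hc : Cen O A y) (hA : IsEmb C A)
    {σ : K ≃ₐ[k] K} (hσ : C.Tra σ) {μ : Fin N → ℤ} (hμ : μ ∈ Gam C A) : (C.map σ).dm μ ∈ O := by
  have h : μ ∈ Gam (C.map σ) A := by rw [gam_map hσ hA]; exact hμ
  exact hc.1 ⟨_, h.2⟩

omit [IsAlgClosed k] in
/-- orders of the semi-invariants along invariant divisors -/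
theorem ord_x (X : XData C A) {q : Ideal A} (hq : q ∈ X.Q) {v : DVal k K}
    (hv : v.HasCenter A q) {σ : K ≃ₐ[k] K} (hσ : C.Tra σ) (μ : Fin N → ℤ) :
    v.ord ((C.map σ).dm μ) = X.x q ⬝ᵥ μ := by
  rw [ord_dm, dotProduct]
  refine Finset.sum_congr rfl fun p _ => ?_
  rw [map_d, X.ord q hq v hv σ hσ p, mul_comm]

omit [IsAlgClosed k] in
theorem ex_v (hA : IsEmb C A) (X : XData C A) {q : Ideal A} (hq : q ∈ X.Q) :
    ∃ v : DVal k K, v.HasCenter A q := by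
  obtain ⟨v, hv, _⟩ := dvr A (Pool.Agent.MLD.Ten.Ind.noeth A hA.good.fg) hA.good.frac hA.good.norm q
    ((X.mem q).1 hq).1
  exact ⟨v, hv⟩

end Loc

open Loc

variable [IsAlgClosed k] {C : GC k K B} {A : Subalgebra k K}

theorem zof_zero (hA : IsEmb C A) (y : MaximalSpectrum A) : (0 : Fin N → ℤ) ∈ Zof C y.asIdeal := by
  obtain ⟨σ, O, hσ, hc, ha, h⟩ := key hA y
  rw [h]
  refine ⟨gam_zero, ?_⟩
  rw [dm_zero, inv_one]
  exact O.one_mem

theorem zof_add (hA : IsEmb C A) (y : MaximalSpectrum A) (μ ν : Fin N → ℤ) (hμ : μ ∈ Gam C A)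
    (hν : ν ∈ Gam C A) :
    μ + ν ∈ Zof C y.asIdeal ↔ μ ∈ Zof C y.asIdeal ∧ ν ∈ Zof C y.asIdeal := by
  obtain ⟨σ, O, hσ, hc, ha, h⟩ := key hA y
  rw [h, h, h, dm_add, mul_inv]
  have h1 := mem_O hc hA hσ hμ
  have h2 := mem_O hc hA hσ hν
  constructor
  · rintro ⟨_, h3⟩
    refine ⟨⟨hμ, ?_⟩, ⟨hν, ?_⟩⟩
    · have := mul_mem h3 h2
      rwa [mul_assoc, inv_mul_cancel₀ (dm_ne _ _), mul_one] at this
    · have := mul_mem h1 h3
      rwa [← mul_assoc, mul_inv_cancel₀ (dm_ne _ _), one_mul] at this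
  · rintro ⟨⟨_, h3⟩, ⟨_, h4⟩⟩
    exact ⟨gam_add hμ hν, mul_mem h3 h4⟩

theorem loc_in (hA : IsEmb C A) (X : XData C A) (y : MaximalSpectrum A) (q : Ideal A) (hq : q ∈ X.Q)
    (hy : q ≤ y.asIdeal) : ∀ μ ∈ Zof C y.asIdeal, X.x q ⬝ᵥ μ = 0 := by
  rintro μ ⟨_, σ, hσ, a, ha, hay⟩
  obtain ⟨v, hv⟩ := ex_v hA X hq
  have h1 := Pool.Agent.MLD.Ten.Ind.out v hv (s := a) fun h => hay (hy h)
  rw [← ord_x X hq hv hσ μ, map_dm, ← ha]
  exact h1.2

theorem loc_out (hA : IsEmb C A) (X : XData C A) (y : MaximalSpectrum A) (q : Ideal A) (hq : q ∈ X.Q)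
    (hy : ¬ q ≤ y.asIdeal) : ∃ μ ∈ Zof C y.asIdeal, 0 < X.x q ⬝ᵥ μ := by
  obtain ⟨σ, O, hσ, hc, ha, h⟩ := key hA y
  obtain ⟨f, hfq, hfy⟩ := Set.not_subset.1 hy
  have hInf : Infinite k := IsAlgClosed.instInfinite
  let M : Submodule k K := Submodule.map A.val.toLinearMap (q.restrictScalars k)
  have hM : ∀ τ, (C.map σ).Tra τ → ∀ f ∈ M, τ f ∈ M := by
    rintro τ hτ _ ⟨a, haq, rfl⟩
    have hτ' := (tra_map hσ τ).1 hτ
    have h1 : τ (a : K) ∈ A := hA.stab τ hτ' a a.2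
    exact ⟨⟨_, h1⟩, (((X.mem q).1 hq).2 τ hτ' a ⟨_, h1⟩ rfl).1 haq, rfl⟩
  have hf0 : (f : K) ≠ 0 := by
    intro h0
    apply hfy
    have : f = 0 := Subtype.ext h0
    rw [this]
    exact y.asIdeal.zero_mem
  obtain ⟨μ, hd, ⟨b, hbq, hb⟩, hO⟩ := eigt_adm ha M hM (f := (f : K)) ⟨f, hfq, rfl⟩ hf0
    (emb_reg (emb_map hσ hA) f f.2)
  have hb' : (b : K) = (C.map σ).dm μ := hb
  have hg : μ ∈ Gam C A := by
    rw [← gam_map hσ hA]
    refine ⟨hd, ?_⟩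
    rw [← hb']
    exact b.2
  have hfO : (f : K)⁻¹ ∈ O := by
    by_contra h'
    exact hfy ((hc.2 f).2 (Or.inr h'))
  refine ⟨μ, (h μ).2 ⟨hg, ?_⟩, ?_⟩
  · have := mul_mem hO hfO
    rwa [div_eq_mul_inv, mul_comm (f : K), mul_assoc, mul_inv_cancel₀ hf0, mul_one] at this
  · obtain ⟨v, hv⟩ := ex_v hA X hq
    rw [← ord_x X hq hv hσ μ]
    have h1 := (hv.2 b).1 hbq
    rw [← hb']
    exact h1 (by rw [hb']; exact dm_ne _ _)

namespace Loc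

theorem nsmul_zof (hA : IsEmb C A) (y : MaximalSpectrum A) {μ : Fin N → ℤ}
    (hμ : μ ∈ Zof C y.asIdeal) (n : ℕ) : n • μ ∈ Zof C y.asIdeal := by
  induction n with
  | zero => rw [zero_smul]; exact zof_zero hA y
  | succ n ih =>
    rw [succ_nsmul]
    exact (zof_add hA y _ _ ih.1 hμ.1).2 ⟨ih, hμ⟩

theorem sum_zof (hA : IsEmb C A) (y : MaximalSpectrum A) {ι : Type w} (s : Finset ι)
    (f : ι → Fin N → ℤ) (hf : ∀ i ∈ s, f i ∈ Zof C y.asIdeal) : ∑ i ∈ s, f i ∈ Zof C y.asIdeal := by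
  induction s using Finset.induction_on with
  | empty => rw [Finset.sum_empty]; exact zof_zero hA y
  | insert a s ha ih =>
    rw [Finset.sum_insert ha]
    have h1 := hf a (Finset.mem_insert_self a s)
    have h2 := ih fun i hi => hf i (Finset.mem_insert_of_mem hi)
    exact (zof_add hA y _ _ h1.1 h2.1).2 ⟨h1, h2⟩

/-- an interior element of the face -/
theorem ex_int (hA : IsEmb C A) (X : XData C A) (y : MaximalSpectrum A) :
    ∃ ν ∈ Zof C y.asIdeal, (∀ p q, p < q → B.b p = B.b q → ¬ Flat B (Zof C y.asIdeal) p q →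
      ν q + 1 ≤ ν p) ∧ ∀ q ∈ X.Q, ¬ q ≤ y.asIdeal → 1 ≤ X.x q ⬝ᵥ ν := by
  have e1 : ∀ s : Fin N × Fin N, ∃ ν ∈ Zof C y.asIdeal, s.1 < s.2 → B.b s.1 = B.b s.2 →
      ¬ Flat B (Zof C y.asIdeal) s.1 s.2 → ν s.2 + 1 ≤ ν s.1 := by
    intro s
    by_cases hs : s.1 < s.2 ∧ B.b s.1 = B.b s.2 ∧ ¬ Flat B (Zof C y.asIdeal) s.1 s.2
    · obtain ⟨h1, h2, h3⟩ := hs
      have h4 : ∃ μ ∈ Zof C y.asIdeal, μ s.1 ≠ μ s.2 := by
        by_contra h5
        push Not at h5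
        exact h3 ⟨h2, h5⟩
      obtain ⟨μ, hμ, hne⟩ := h4
      refine ⟨μ, hμ, fun _ _ _ => ?_⟩
      have := hμ.1.1 s.1 s.2 h1.le h2
      omega
    · exact ⟨0, zof_zero hA y, fun h1 h2 h3 => absurd ⟨h1, h2, h3⟩ hs⟩
  have e2 : ∀ q : Ideal A, ∃ ν ∈ Zof C y.asIdeal, q ∈ X.Q → ¬ q ≤ y.asIdeal →
      1 ≤ X.x q ⬝ᵥ ν := by
    intro q
    by_cases hq : q ∈ X.Q ∧ ¬ q ≤ y.asIdeal
    · obtain ⟨μ, hμ, h⟩ := loc_out hA X y q hq.1 hq.2
      exact ⟨μ, hμ, fun _ _ => h⟩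
    · exact ⟨0, zof_zero hA y, fun h1 h2 => absurd ⟨h1, h2⟩ hq⟩
  choose f hf hf' using e1
  choose g hg hg' using e2
  have hS := sum_zof hA y Finset.univ f fun i _ => hf i
  have hT := sum_zof hA y X.Q g fun i _ => hg i
  refine ⟨∑ s, f s + ∑ q ∈ X.Q, g q, (zof_add hA y _ _ hS.1 hT.1).2 ⟨hS, hT⟩, ?_, ?_⟩
  · intro p q hpq hb hF
    have h1 := hf' (p, q) hpq hb hF
    have h2 : ∀ s, f s q ≤ f s p := fun s => (hf s).1.1 p q hpq.le hb
    have h3 : (∑ q' ∈ X.Q, g q') q ≤ (∑ q' ∈ X.Q, g q') p := hT.1.1 p q hpq.le hb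
    have h4 : (∑ s, f s) q + 1 ≤ (∑ s, f s) p := by
      rw [Finset.sum_apply, Finset.sum_apply,
        ← Finset.add_sum_erase Finset.univ (fun s => f s q) (Finset.mem_univ (p, q)),
        ← Finset.add_sum_erase Finset.univ (fun s => f s p) (Finset.mem_univ (p, q))]
      have h5 : ∑ s ∈ Finset.univ.erase (p, q), f s q ≤ ∑ s ∈ Finset.univ.erase (p, q), f s p :=
        Finset.sum_le_sum fun s _ => h2 s
      simp only at h1 ⊢
      linarith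
    rw [Pi.add_apply, Pi.add_apply]
    linarith
  · intro q hq hy
    have hx : ∀ μ ∈ Gam C A, 0 ≤ X.x q ⬝ᵥ μ := fun μ hμ => ((X.gam μ).1 hμ).2 q hq
    rw [dotProduct_add, dotProduct_sum, dotProduct_sum]
    have h1 : 0 ≤ ∑ i, X.x q ⬝ᵥ f i := Finset.sum_nonneg fun i _ => hx _ (hf i).1
    have h2 : X.x q ⬝ᵥ g q ≤ ∑ i ∈ X.Q, X.x q ⬝ᵥ g i :=
      Finset.single_le_sum (f := fun i => X.x q ⬝ᵥ g i) (fun i _ => hx _ (hg i).1) hq
    have h3 := hg' q hq hy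
    linarith

end Loc

/-- the local monoid at `y` is the localisation of `Gam` -/
theorem loc_ext (hA : IsEmb C A) (X : XData C A) (y : MaximalSpectrum A) (μ : Fin N → ℤ)
    (h1 : ∀ p q, p ≤ q → Flat B (Zof C y.asIdeal) p q → μ q ≤ μ p)
    (h2 : ∀ q ∈ X.Q, q ≤ y.asIdeal → 0 ≤ X.x q ⬝ᵥ μ) :
    ∃ ν ∈ Zof C y.asIdeal, μ + ν ∈ Gam C A := by
  obtain ⟨ν, hν, hν1, hν2⟩ := ex_int hA X y
  let M : ℕ := (∑ s : Fin N × Fin N, (μ s.2 - μ s.1).natAbs) + ∑ q ∈ X.Q, (X.x q ⬝ᵥ μ).natAbs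
  have hM1 : ∀ p q, μ q - μ p ≤ M := by
    intro p q
    have h3 : (μ q - μ p).natAbs ≤ ∑ s : Fin N × Fin N, (μ s.2 - μ s.1).natAbs :=
      Finset.single_le_sum (f := fun s : Fin N × Fin N => (μ s.2 - μ s.1).natAbs)
        (fun _ _ => Nat.zero_le _) (Finset.mem_univ (p, q))
    have h4 : (μ q - μ p).natAbs ≤ M := le_trans h3 (Nat.le_add_right _ _)
    omega
  have hM2 : ∀ q ∈ X.Q, -(M : ℤ) ≤ X.x q ⬝ᵥ μ := by
    intro q hq
    have h3 : (X.x q ⬝ᵥ μ).natAbs ≤ ∑ q ∈ X.Q, (X.x q ⬝ᵥ μ).natAbs :=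
      Finset.single_le_sum (f := fun q => (X.x q ⬝ᵥ μ).natAbs)
        (fun _ _ => Nat.zero_le _) hq
    have h4 : (X.x q ⬝ᵥ μ).natAbs ≤ M := le_trans h3 (Nat.le_add_left _ _)
    omega
  refine ⟨M • ν, nsmul_zof hA y hν M, ?_⟩
  rw [X.gam]
  refine ⟨?_, ?_⟩
  · intro p q hpq hb
    rw [Pi.add_apply, Pi.add_apply, Pi.smul_apply, Pi.smul_apply, nsmul_eq_mul, nsmul_eq_mul]
    by_cases hF : Flat B (Zof C y.asIdeal) p q
    · rw [hF.2 ν hν]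
      have := h1 p q hpq hF
      linarith
    · have hne : p ≠ q := by
        rintro rfl
        exact hF (flat_refl p)
      have h3 := hν1 p q (lt_of_le_of_ne hpq hne) hb hF
      have h4 := hM1 p q
      nlinarith
  · intro q hq
    rw [dotProduct_add, dotProduct_smul, nsmul_eq_mul]
    by_cases hy : q ≤ y.asIdeal
    · rw [loc_in hA X y q hq hy ν hν, mul_zero, add_zero]
      exact h2 q hq hy
    · have h3 := hν2 q hq hy
      have h4 := hM2 q hq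
      nlinarith

/-- its units -/
theorem loc_units (hA : IsEmb C A) (X : XData C A) (y : MaximalSpectrum A) (μ : Fin N → ℤ) :
    μ ∈ AddSubgroup.closure (Zof C y.asIdeal) ↔ (∀ p q, Flat B (Zof C y.asIdeal) p q → μ p = μ q) ∧
      ∀ q ∈ X.Q, q ≤ y.asIdeal → X.x q ⬝ᵥ μ = 0 := by
  constructor
  · intro h
    refine ⟨fun p q hF => flat_closure hF h, fun q hq hy => ?_⟩
    refine AddSubgroup.closure_induction (p := fun μ _ => X.x q ⬝ᵥ μ = 0) ?_ ?_ ?_ ?_ h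
    · exact fun μ hμ => loc_in hA X y q hq hy μ hμ
    · exact dotProduct_zero _
    · intro a b _ _ ha hb
      rw [dotProduct_add, ha, hb, add_zero]
    · intro a _ ha
      rw [dotProduct_neg, ha, neg_zero]
  · rintro ⟨h1, h2⟩
    obtain ⟨ν, hν, hg⟩ := loc_ext hA X y μ (fun p q _ hF => (h1 p q hF).ge) fun q hq hy =>
      (h2 q hq hy).ge
    obtain ⟨ν', hν', hg'⟩ := loc_ext hA X y (-μ) (fun p q _ hF => by
        rw [Pi.neg_apply, Pi.neg_apply, h1 p q hF]) fun q hq hy => by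
      rw [dotProduct_neg, h2 q hq hy, neg_zero]
    have h3 : (μ + ν) + (-μ + ν') ∈ Zof C y.asIdeal := by
      have h4 : (μ + ν) + (-μ + ν') = ν + ν' := by abel
      rw [h4]
      exact (zof_add hA y _ _ hν.1 hν'.1).2 ⟨hν, hν'⟩
    have h5 := ((zof_add hA y _ _ hg hg').1 h3).1
    have h6 : μ = (μ + ν) - ν := by abel
    rw [h6]
    exact sub_mem (AddSubgroup.subset_closure h5) (AddSubgroup.subset_closure hν)

namespace Loc

theorem closure_unit {σ : K ≃ₐ[k] K} {O : ValuationSubring K} {y : MaximalSpectrum A}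
    (hA : IsEmb C A) (hσ : C.Tra σ) (hc : Cen O A y.asIdeal)
    (h : ∀ μ, μ ∈ Zof C y.asIdeal ↔ μ ∈ Gam C A ∧ ((C.map σ).dm μ)⁻¹ ∈ O) {μ : Fin N → ℤ}
    (hμ : μ ∈ AddSubgroup.closure (Zof C y.asIdeal)) :
    (C.map σ).dm μ ∈ O ∧ ((C.map σ).dm μ)⁻¹ ∈ O := by
  refine AddSubgroup.closure_induction
    (p := fun μ _ => (C.map σ).dm μ ∈ O ∧ ((C.map σ).dm μ)⁻¹ ∈ O) ?_ ?_ ?_ ?_ hμ
  · intro κ hκ
    exact ⟨mem_O hc hA hσ ((h κ).1 hκ).1, ((h κ).1 hκ).2⟩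
  · rw [dm_zero, inv_one]
    exact ⟨O.one_mem, O.one_mem⟩
  · intro a b _ _ ha hb
    rw [dm_add, mul_inv]
    exact ⟨mul_mem ha.1 hb.1, mul_mem ha.2 hb.2⟩
  · intro a _ ha
    rw [dm_neg, inv_inv]
    exact ⟨ha.2, ha.1⟩

end Loc

theorem loc_face (hA : IsEmb C A) (X : XData C A) (y : MaximalSpectrum A) (μ : Fin N → ℤ)
    (hμ : μ ∈ Gam C A) (hc : μ ∈ AddSubgroup.closure (Zof C y.asIdeal)) : μ ∈ Zof C y.asIdeal := by
  obtain ⟨σ, O, hσ, hcen, ha, h⟩ := key hA y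
  exact (h μ).2 ⟨hμ, (closure_unit hA hσ hcen h hc).2⟩

theorem loc_pos (hA : IsEmb C A) (X : XData C A) (y : MaximalSpectrum A) (p q : Fin N) (hpq : p < q)
    (hR : Flat B (Zof C y.asIdeal) p q) (hp : ∀ r < p, ¬ Flat B (Zof C y.asIdeal) r p)
    (hq : ∀ r > q, ¬ Flat B (Zof C y.asIdeal) q r) :
    ∃ i ∈ X.Q, i ≤ y.asIdeal ∧ X.x i p < X.x i q := by
  by_contra hcon
  push Not at hcon
  obtain ⟨σ, O, hσ, hcen, ha, h⟩ := key hA y
  let κ : Fin N → ℤ := Pi.single p (1 : ℤ) - Pi.single q (1 : ℤ)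
  have hκ : ∀ r, κ r = (if r = p then 1 else 0) - (if r = q then 1 else 0) := by
    intro r
    simp only [κ, Pi.sub_apply, Pi.single_apply]
  have hκp : κ p = 1 := by
    rw [hκ, if_pos rfl, if_neg hpq.ne, sub_zero]
  have hκq : κ q = -1 := by
    rw [hκ, if_pos rfl, if_neg hpq.ne', zero_sub]
  obtain ⟨ν, hν, hg⟩ := loc_ext hA X y κ (by
      intro r s hrs hF
      rcases eq_or_lt_of_le hrs with rfl | hlt
      · exact le_rfl
      by_cases hsp : s = p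
      · subst hsp
        exact absurd hF (hp r hlt)
      by_cases hrq : r = q
      · subst hrq
        exact absurd hF (hq s hlt)
      rw [hκ, hκ, if_neg hsp, if_neg hrq]
      split_ifs <;> norm_num) (by
      intro i hi hy
      have h1 := hcon i hi hy
      show 0 ≤ X.x i ⬝ᵥ (Pi.single p (1 : ℤ) - Pi.single q (1 : ℤ))
      rw [dotProduct_sub, dotProduct_single, dotProduct_single, mul_one, mul_one]
      linarith)
  have h1 : ((C.map σ).dm (-κ)) ∈ O := by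
    have h2 : (-κ) = (Pi.single q (1 : ℤ) : Fin N → ℤ) + -(Pi.single p (1 : ℤ) : Fin N → ℤ) := by
      show -((Pi.single p (1 : ℤ) : Fin N → ℤ) - (Pi.single q (1 : ℤ) : Fin N → ℤ)) = _
      abel
    rw [h2, dm_add, dm_neg, dm_single, dm_single, ← div_eq_mul_inv]
    exact ha.inc p q hpq.le hR.1
  have h3 : κ + ν ∈ Zof C y.asIdeal := by
    refine (h _).2 ⟨hg, ?_⟩
    rw [dm_add, mul_inv, ← dm_neg]
    exact mul_mem h1 ((h ν).1 hν).2
  have h4 := hR.2 _ h3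
  have h5 := hR.2 _ hν
  rw [Pi.add_apply, Pi.add_apply, hκp, hκq, h5] at h4
  omega

end

end Pool.Agent.MLD.Mon
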