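import Pool.Agent.Lib.MP_f23696_ag.M.Ctx

/-!
MP_f23696_ag, project MON, module STP: the combinatorial step.
-/

set_option autoImplicit false

open scoped Classical

namespace Pool.Agent.MLD.Mon

open MvPolynomial
open Pool.Agent.MLD.Ten (IsGood)

noncomputable section

universe u v w

variable {N m : ℕ} {B : Blk N m}

/-! ### STP (M/Stp.lean): the combinatorial step -/

/-- local combinatorial data -/
structure LocC (B : Blk N m) (ι : Type v) where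
  R : Fin N → Fin N → Prop
  blk : ∀ p q, R p q → B.b p = B.b q
  refl : ∀ p, R p p
  symm : ∀ p q, R p q → R q p
  trans : ∀ p q r, R p q → R q r → R p r
  conv : ∀ p q r, p ≤ q → q ≤ r → R p r → R p q
  J : Finset ι
  x : ι → Fin N → ℤ
  inc : ∀ j ∈ J, B.Inc (x j)
  α : Fin N → ℝ
  hx : ∀ j ∈ J, ∑ p, α p * (x j p : ℝ) ≤ 1
  hα : ∀ p q, p ≤ q → R p q → α p - α q = 2 * (((q : ℕ) : ℝ) - ((p : ℕ) : ℝ))
  pos : ∀ p q, p < q → R p q → (∀ r < p, ¬ R r p) → (∀ r > q, ¬ R q r) → ∃ j ∈ J, x j p < x j q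

/-- the local monoid -/
def LocC.G {ι : Type v} (Λ : LocC B ι) : Set (Fin N → ℤ) :=
  {μ | (∀ p q, p ≤ q → Λ.R p q → μ q ≤ μ p) ∧ ∀ j ∈ Λ.J, 0 ≤ Λ.x j ⬝ᵥ μ}

namespace Stp

/-! ### rank and active pairs -/
section Gen

/-- rank -/
def rk (Z : Set (Fin N → ℤ)) : ℕ :=
  Module.finrank ℚ (Submodule.span ℚ {x : Fin N → ℚ | ∃ μ ∈ Z, x = fun i => (μ i : ℚ)})

/-- active pairs -/
def act (B : Blk N m) (Z : Set (Fin N → ℤ)) : Finset (Fin N × Fin N) :=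
  Finset.univ.filter fun s => s.1 < s.2 ∧ B.b s.1 = B.b s.2 ∧ ¬ Flat B Z s.1 s.2

theorem dr_eq (Z : Set (Fin N → ℤ)) : Dr B Z = rk Z + 2 * (act B Z).card := rfl

/-- the linear form given by an integral vector -/
def form (f : Fin N → ℤ) : (Fin N → ℚ) →ₗ[ℚ] ℚ where
  toFun x := ∑ i, (f i : ℚ) * x i
  map_add' x y := by
    rw [← Finset.sum_add_distrib]
    exact Finset.sum_congr rfl fun i _ => mul_add _ _ _
  map_smul' c x := by
    rw [RingHom.id_apply, smul_eq_mul, Finset.mul_sum]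
    refine Finset.sum_congr rfl fun i _ => ?_
    rw [Pi.smul_apply, smul_eq_mul]
    ring

theorem form_int (f μ : Fin N → ℤ) : form f (fun i => (μ i : ℚ)) = ((f ⬝ᵥ μ : ℤ) : ℚ) := by
  show ∑ i, (f i : ℚ) * (μ i : ℚ) = _
  rw [dotProduct]
  push_cast
  rfl

theorem rk_lt {Z' Z : Set (Fin N → ℤ)} (h : Z' ⊆ Z) (f : Fin N → ℤ) (h0 : ∀ μ ∈ Z', f ⬝ᵥ μ = 0)
    (h1 : ∃ μ ∈ Z, f ⬝ᵥ μ ≠ 0) : rk Z' + 1 ≤ rk Z := by
  obtain ⟨μ, hμ, hf⟩ := h1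
  have hle : Submodule.span ℚ {x : Fin N → ℚ | ∃ μ ∈ Z', x = fun i => (μ i : ℚ)} ≤
      Submodule.span ℚ {x : Fin N → ℚ | ∃ μ ∈ Z, x = fun i => (μ i : ℚ)} := by
    refine Submodule.span_mono ?_
    rintro x ⟨ν, hν, rfl⟩
    exact ⟨ν, h hν, rfl⟩
  have hker : Submodule.span ℚ {x : Fin N → ℚ | ∃ μ ∈ Z', x = fun i => (μ i : ℚ)} ≤
      LinearMap.ker (form f) := by
    refine Submodule.span_le.2 ?_
    rintro x ⟨ν, hν, rfl⟩
    show form f _ = 0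
    rw [form_int, h0 ν hν]
    rfl
  refine Submodule.finrank_lt_finrank_of_lt (lt_of_le_of_ne hle fun he => hf ?_)
  have h2 : (fun i => (μ i : ℚ)) ∈
      Submodule.span ℚ {x : Fin N → ℚ | ∃ μ ∈ Z, x = fun i => (μ i : ℚ)} :=
    Submodule.subset_span ⟨μ, hμ, rfl⟩
  rw [← he] at h2
  have h3 : form f (fun i => (μ i : ℚ)) = 0 := hker h2
  rw [form_int] at h3
  exact_mod_cast h3

theorem act_anti {Z' Z : Set (Fin N → ℤ)} (h : Z' ⊆ Z) : act B Z' ⊆ act B Z := by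
  intro s hs
  rw [act, Finset.mem_filter] at hs ⊢
  exact ⟨hs.1, hs.2.1, hs.2.2.1, fun hf => hs.2.2.2 ⟨hf.1, fun μ hμ => hf.2 μ (h hμ)⟩⟩

theorem act_add {Z' Z : Set (Fin N → ℤ)} (h : Z' ⊆ Z) (S : Finset (Fin N × Fin N))
    (h1 : ∀ s ∈ S, s ∈ act B Z) (h2 : ∀ s ∈ S, s ∉ act B Z') :
    (act B Z').card + S.card ≤ (act B Z).card := by
  have hd : Disjoint (act B Z') S := by
    rw [Finset.disjoint_left]
    exact fun s hs hs' => h2 s hs' hs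
  rw [← Finset.card_union_of_disjoint hd]
  refine Finset.card_le_card (Finset.union_subset (act_anti h) h1)

end Gen

variable {ι : Type v} (Λ : LocC B ι)

/-- the face of `l` -/
def face (l : Fin N → ℤ) : Set (Fin N → ℤ) := {μ | μ ∈ Λ.G ∧ l ⬝ᵥ μ = 0}

theorem fin_est (l l' : Fin N → ℤ) (h0 : ∀ μ ∈ Λ.G, 0 ≤ l ⬝ᵥ μ)
    (hl' : ∀ μ ∈ Λ.G, l ⬝ᵥ μ ≤ l' ⬝ᵥ μ) (hw : ∃ μ ∈ Λ.G, l ⬝ᵥ μ = 0 ∧ 0 < l' ⬝ᵥ μ)
    (S : Finset (Fin N × Fin N)) (hS1 : ∀ s ∈ S, s ∈ act B (face Λ l))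
    (hS2 : ∀ s ∈ S, s ∉ act B (face Λ l'))
    (hc : ∑ p, Λ.α p * (l' p : ℝ) ≤ ∑ p, Λ.α p * (l p : ℝ) + 1 + 2 * (S.card : ℝ)) :
    ∑ p, Λ.α p * (l' p : ℝ) + Dr B {μ | μ ∈ Λ.G ∧ l' ⬝ᵥ μ = 0} ≤
        ∑ p, Λ.α p * (l p : ℝ) + Dr B {μ | μ ∈ Λ.G ∧ l ⬝ᵥ μ = 0} := by
  have hsub : face Λ l' ⊆ face Λ l := by
    intro μ hμ
    refine ⟨hμ.1, le_antisymm ?_ (h0 μ hμ.1)⟩
    rw [← hμ.2]
    exact hl' μ hμ.1
  have h1 : rk (face Λ l') + 1 ≤ rk (face Λ l) := by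
    refine rk_lt hsub l' (fun μ hμ => hμ.2) ?_
    obtain ⟨μ, hμ, h2, h3⟩ := hw
    exact ⟨μ, ⟨hμ, h2⟩, h3.ne'⟩
  have h2 := act_add hsub S hS1 hS2
  have e1 : Dr B {μ | μ ∈ Λ.G ∧ l' ⬝ᵥ μ = 0} = rk (face Λ l') + 2 * (act B (face Λ l')).card := rfl
  have e2 : Dr B {μ | μ ∈ Λ.G ∧ l ⬝ᵥ μ = 0} = rk (face Λ l) + 2 * (act B (face Λ l)).card := rfl
  have h3 : Dr B {μ | μ ∈ Λ.G ∧ l' ⬝ᵥ μ = 0} + (1 + 2 * S.card) ≤
      Dr B {μ | μ ∈ Λ.G ∧ l ⬝ᵥ μ = 0} := by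
    rw [e1, e2]
    omega
  have h4 : (Dr B {μ | μ ∈ Λ.G ∧ l' ⬝ᵥ μ = 0} : ℝ) + (1 + 2 * (S.card : ℝ)) ≤
      (Dr B {μ | μ ∈ Λ.G ∧ l ⬝ᵥ μ = 0} : ℝ) := by
    exact_mod_cast h3
  linarith

/-! ### the modified element -/

/-- `2 μ - e_p + e_p'` -/
def bump (μ : Fin N → ℤ) (p p' : Fin N) : Fin N → ℤ :=
  2 • μ - Pi.single p 1 + Pi.single p' 1

theorem bump_apply (μ : Fin N → ℤ) (p p' r : Fin N) : bump μ p p' r =
    2 * μ r - (if r = p then 1 else 0) + (if r = p' then 1 else 0) := by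
  unfold bump
  rw [Pi.add_apply, Pi.sub_apply, Pi.single_apply, Pi.single_apply]
  simp

theorem bump_dot (f μ : Fin N → ℤ) (p p' : Fin N) :
    f ⬝ᵥ bump μ p p' = 2 * (f ⬝ᵥ μ) - f p + f p' := by
  unfold bump
  rw [dotProduct_add, dotProduct_sub, dotProduct_single, dotProduct_single, dotProduct_smul]
  simp

theorem le_of_R {Λ : LocC B ι} {p p' : Fin N} (hR : Λ.R p p') {l : Fin N → ℤ} (hl : B.Inc l)
    (h : p ≤ p') : l p ≤ l p' := hl p p' h (Λ.blk _ _ hR)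

theorem bump_mem {p p' : Fin N} (hp : (p' : ℕ) = p + 1) (hR : Λ.R p p') {μ : Fin N → ℤ}
    (hμ : μ ∈ Λ.G) (h : μ p' < μ p) : bump μ p p' ∈ Λ.G := by
  refine ⟨fun r s hrs hr => ?_, fun j hj => ?_⟩
  · rw [bump_apply, bump_apply]
    have h1 := hμ.1 r s hrs hr
    rcases eq_or_lt_of_le hrs with rfl | hlt
    · exact le_rfl
    by_cases e1 : r = p
    · subst e1
      have h2 : μ s ≤ μ p' := by
        refine hμ.1 p' s ?_ (Λ.trans _ _ _ (Λ.symm _ _ hR) hr)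
        rw [Fin.le_def, hp]
        exact hlt
      have h3 : s ≠ r := hlt.ne'
      have h4 : r ≠ p' := by
        rintro rfl
        omega
      rw [if_neg h3, if_pos rfl, if_neg h4]
      split_ifs <;> omega
    · rw [if_neg e1]
      by_cases e2 : s = p'
      · subst e2
        have h2 : μ p ≤ μ r := by
          refine hμ.1 r p ?_ (Λ.trans _ _ _ hr (Λ.symm _ _ hR))
          rw [Fin.le_def]
          rw [Fin.lt_def] at hlt
          omega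
        split_ifs <;> omega
      · rw [if_neg e2]
        split_ifs <;> omega
  · rw [bump_dot]
    have h1 := hμ.2 j hj
    have h2 : Λ.x j p ≤ Λ.x j p' := le_of_R hR (Λ.inc j hj) (by rw [Fin.le_def]; omega)
    omega

/-- some neighbours with different values -/
theorem exists_jump (f : Fin N → ℤ) : ∀ (n : ℕ) (p q : Fin N), (q : ℕ) = p + n → f p ≠ f q →
    ∃ r r' : Fin N, p ≤ r ∧ r' ≤ q ∧ (r' : ℕ) = r + 1 ∧ f r ≠ f r' := by
  intro n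
  induction n with
  | zero =>
    intro p q h hf
    exfalso
    apply hf
    congr 1
    exact Fin.ext (by omega)
  | succ n ih =>
    intro p q h hf
    have hlt : (p : ℕ) + n < N := by
      have := q.2
      omega
    by_cases e : f p = f ⟨p + n, hlt⟩
    · refine ⟨⟨p + n, hlt⟩, q, ?_, le_rfl, ?_, ?_⟩
      · rw [Fin.le_def]
        simp
      · simp
        omega
      · rw [← e]
        exact hf
    · obtain ⟨r, r', h1, h2, h3, h4⟩ := ih p ⟨p + n, hlt⟩ rfl e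
      refine ⟨r, r', h1, h2.trans ?_, h3, h4⟩
      rw [Fin.le_def]
      simp
      omega

theorem exists_jump' (f : Fin N → ℤ) (p q : Fin N) (h : p ≤ q) (hf : f p ≠ f q) :
    ∃ r r' : Fin N, p ≤ r ∧ r' ≤ q ∧ (r' : ℕ) = r + 1 ∧ f r ≠ f r' := by
  refine exists_jump f (q - p) p q ?_ hf
  rw [Fin.le_def] at h
  omega

theorem Rsub {p r s q : Fin N} (h1 : p ≤ r) (h2 : r ≤ s) (h3 : s ≤ q) (h : Λ.R p q) :
    Λ.R r s :=
  Λ.trans _ _ _ (Λ.symm _ _ (Λ.conv p r q h1 (h2.trans h3) h)) (Λ.conv p s q (h1.trans h2) h3 h)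

/-- the class of `p` -/
theorem exists_class (p : Fin N) : ∃ a c : Fin N, a ≤ p ∧ p ≤ c ∧ Λ.R a c ∧
    (∀ r < a, ¬ Λ.R r a) ∧ (∀ r > c, ¬ Λ.R c r) ∧ ∀ q, Λ.R p q → a ≤ q ∧ q ≤ c := by
  obtain ⟨a, ha, hamin⟩ := Finset.exists_min_image (Finset.univ.filter fun r => Λ.R p r) id
    ⟨p, by simp [Λ.refl p]⟩
  obtain ⟨c, hc, hcmax⟩ := Finset.exists_max_image (Finset.univ.filter fun r => Λ.R p r) id
    ⟨p, by simp [Λ.refl p]⟩
  rw [Finset.mem_filter] at ha hc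
  have hmin : ∀ q, Λ.R p q → a ≤ q := fun q hq => hamin q (by simp [hq])
  have hmax : ∀ q, Λ.R p q → q ≤ c := fun q hq => hcmax q (by simp [hq])
  refine ⟨a, c, hmin p (Λ.refl p), hmax p (Λ.refl p), Λ.trans _ _ _ (Λ.symm _ _ ha.2) hc.2,
    fun r hr h => ?_, fun r hr h => ?_, fun q hq => ⟨hmin q hq, hmax q hq⟩⟩
  · exact absurd (hmin r (Λ.trans _ _ _ ha.2 (Λ.symm _ _ h))) (not_le.2 hr)
  · exact absurd (hmax r (Λ.trans _ _ _ hc.2 h)) (not_le.2 hr)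

/-- there is a jump of some `x j` in each class with two neighbours -/
theorem exists_xjump {p p' : Fin N} (hp : (p' : ℕ) = p + 1) (hR : Λ.R p p') :
    ∃ j ∈ Λ.J, ∃ i i' : Fin N, (i' : ℕ) = i + 1 ∧ Λ.R p i ∧ Λ.R i i' ∧ Λ.x j i < Λ.x j i' := by
  obtain ⟨a, c, h1, h2, h3, h4, h5, h6⟩ := exists_class Λ p
  have hac : a < c := by
    have := (h6 p' hR).2
    rw [Fin.lt_def]
    rw [Fin.le_def] at h1 this
    omega
  obtain ⟨j, hj, hx⟩ := Λ.pos a c hac h3 h4 h5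
  obtain ⟨i, i', h7, h8, h9, h10⟩ := exists_jump' (Λ.x j) a c hac.le hx.ne
  have hii : i ≤ i' := by
    rw [Fin.le_def]
    omega
  have hRi : Λ.R i i' := Rsub Λ h7 hii h8 h3
  refine ⟨j, hj, i, i', h9, ?_, hRi, lt_of_le_of_ne (le_of_R hRi (Λ.inc j hj) hii) h10⟩
  have h11 : Λ.R a i := Rsub Λ le_rfl h7 (hii.trans h8) h3
  have h12 : Λ.R a p := Rsub Λ le_rfl h1 h2 h3
  exact Λ.trans _ _ _ (Λ.symm _ _ h12) h11

/-- `(p, p')` is a descent of some element of the face -/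
def Desc (l : Fin N → ℤ) (p p' : Fin N) : Prop :=
  (p' : ℕ) = p + 1 ∧ Λ.R p p' ∧ ∃ μ ∈ Λ.G, l ⬝ᵥ μ = 0 ∧ μ p' < μ p

theorem desc_bump {l : Fin N → ℤ} {p p' : Fin N} (h : Desc Λ l p p') (hl : l p = l p') :
    ∃ ν ∈ Λ.G, l ⬝ᵥ ν = 0 ∧ (∀ q : Fin N, (p : ℕ) = q + 1 → Λ.R q p → ν p < ν q) ∧
      (∀ q : Fin N, (q : ℕ) = p' + 1 → Λ.R p' q → ν q < ν p') ∧
      ∀ j ∈ Λ.J, ∃ μ ∈ Λ.G, l ⬝ᵥ μ = 0 ∧ Λ.x j ⬝ᵥ ν = 2 * (Λ.x j ⬝ᵥ μ) - Λ.x j p + Λ.x j p' := by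
  obtain ⟨hp, hR, μ, hμ, hμ0, hlt⟩ := h
  refine ⟨bump μ p p', bump_mem Λ hp hR hμ hlt, ?_, ?_, ?_, ?_⟩
  · rw [bump_dot, hμ0, hl]
    ring
  · intro q hq hRq
    have h1 := hμ.1 q p (by rw [Fin.le_def]; omega) hRq
    rw [bump_apply, bump_apply, if_pos rfl]
    have h2 : p ≠ p' := by
      rintro rfl
      omega
    have h3 : q ≠ p := by
      rintro rfl
      omega
    have h4 : q ≠ p' := by
      rintro rfl
      omega
    rw [if_neg h2, if_neg h3, if_neg h4]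
    omega
  · intro q hq hRq
    have h1 := hμ.1 p' q (by rw [Fin.le_def]; omega) hRq
    rw [bump_apply, bump_apply, if_pos rfl]
    have h2 : p' ≠ p := by
      rintro rfl
      omega
    have h3 : q ≠ p := by
      rintro rfl
      omega
    have h4 : q ≠ p' := by
      rintro rfl
      omega
    rw [if_neg h2, if_neg h3, if_neg h4]
    omega
  · intro j _
    exact ⟨μ, hμ, hμ0, bump_dot _ _ _ _⟩

/-- if `l` is constant at all descents, all neighbours of the class are descents -/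
theorem desc_all {l : Fin N → ℤ} (hc : ∀ p p', Desc Λ l p p' → l p = l p') :
    ∀ (n : ℕ) (p p' i i' : Fin N), ((i : ℤ) - (p : ℤ)).natAbs = n → Desc Λ l p p' → Λ.R p i →
      (i' : ℕ) = i + 1 → Λ.R i i' → Desc Λ l i i' := by
  intro n
  induction n with
  | zero =>
    intro p p' i i' hn hd _ hi _
    have e1 : i = p := Fin.ext (by omega)
    have e2 : i' = p' := Fin.ext (by
      have := hd.1
      rw [e1] at hi
      omega)
    rw [e1, e2]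
    exact hd
  | succ n ih =>
    intro p p' i i' hn hd hR hi hRi
    obtain ⟨ν, hν, hν0, hlow, hup, -⟩ := desc_bump Λ hd (hc p p' hd)
    have hp := hd.1
    rcases lt_or_ge (p : ℕ) (i : ℕ) with h | h
    · -- move up
      have hlt : (p' : ℕ) + 1 < N := by
        have := i'.2
        omega
      have hRpi' : Λ.R p i' := Λ.trans _ _ _ hR hRi
      have hRq : Λ.R p' ⟨p' + 1, hlt⟩ := by
        refine Rsub Λ ?_ ?_ ?_ hRpi'
        · rw [Fin.le_def]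
          omega
        · rw [Fin.le_def]
          simp
        · rw [Fin.le_def]
          simp
          omega
      refine ih p' ⟨p' + 1, hlt⟩ i i' (by omega) ⟨rfl, hRq, ν, hν, hν0, hup _ rfl hRq⟩
        (Λ.trans _ _ _ (Λ.symm _ _ hd.2.1) hR) hi hRi
    · -- move down
      have h1 : (p : ℕ) - 1 < N := by
        have := p.2
        omega
      have h2 : (p : ℕ) = ((⟨p - 1, h1⟩ : Fin N) : ℕ) + 1 := by
        simp
        omega
      have hRq : Λ.R ⟨p - 1, h1⟩ p := by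
        refine Rsub Λ (p := i) (q := p) ?_ ?_ le_rfl (Λ.symm _ _ hR)
        · rw [Fin.le_def]
          simp
          omega
        · rw [Fin.le_def]
          simp
      refine ih ⟨p - 1, h1⟩ p i i' ?_ ⟨h2, hRq, ν, hν, hν0, hlow _ h2 hRq⟩
        (Λ.trans _ _ _ hRq hR) hi hRi
      simp
      omega

/-- a descent at which `l` jumps -/
theorem exists_desc {l : Fin N → ℤ} (hl : B.Inc l)
    (hB : ∀ j ∈ Λ.J, ∀ μ ∈ Λ.G, l ⬝ᵥ μ = 0 → Λ.x j ⬝ᵥ μ = 0)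
    (hne : ∃ μ ∈ Λ.G, l ⬝ᵥ μ = 0 ∧ -μ ∉ Λ.G) : ∃ p p', Desc Λ l p p' ∧ l p < l p' := by
  -- one descent
  have h1 : ∃ p p', Desc Λ l p p' := by
    obtain ⟨μ, hμ, hμ0, hn⟩ := hne
    have h2 : ∃ p q, p ≤ q ∧ Λ.R p q ∧ μ q < μ p := by
      by_contra hcon
      push Not at hcon
      apply hn
      refine ⟨fun p q hpq hR => ?_, fun j hj => ?_⟩
      · rw [Pi.neg_apply, Pi.neg_apply]
        have := hcon p q hpq hR
        omega
      · rw [dotProduct_neg, hB j hj μ hμ hμ0]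
        simp
    obtain ⟨p, q, hpq, hR, hlt⟩ := h2
    obtain ⟨r, r', h3, h4, h5, h6⟩ := exists_jump' μ p q hpq hlt.ne'
    have hrr : r ≤ r' := by
      rw [Fin.le_def]
      omega
    have hRr : Λ.R r r' := Rsub Λ h3 hrr h4 hR
    exact ⟨r, r', h5, hRr, μ, hμ, hμ0, lt_of_le_of_ne (hμ.1 r r' hrr hRr) h6.symm⟩
  by_contra hcon
  push Not at hcon
  have hc : ∀ p p', Desc Λ l p p' → l p = l p' := by
    intro p p' hd
    refine le_antisymm (le_of_R hd.2.1 hl ?_) (hcon p p' hd)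
    rw [Fin.le_def]
    have := hd.1
    omega
  obtain ⟨p, p', hd⟩ := h1
  obtain ⟨j, hj, i, i', h2, h3, h4, h5⟩ := exists_xjump Λ hd.1 hd.2.1
  have hdi := desc_all Λ hc _ p p' i i' rfl hd h3 h2 h4
  obtain ⟨ν, hν, hν0, -, -, hx⟩ := desc_bump Λ hdi (hc i i' hdi)
  obtain ⟨μ, hμ, hμ0, e⟩ := hx j hj
  rw [hB j hj μ hμ hμ0, hB j hj ν hν hν0] at e
  omega

/-- the new vector -/
def nw (l x : Fin N → ℤ) (P Q : Fin N) : Fin N → ℤ := l + x + Pi.single P 1 - Pi.single Q 1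

theorem nw_apply (l x : Fin N → ℤ) (P Q r : Fin N) : nw l x P Q r =
    l r + x r + (if r = P then 1 else 0) - (if r = Q then 1 else 0) := by
  unfold nw
  rw [Pi.sub_apply, Pi.add_apply, Pi.add_apply, Pi.single_apply, Pi.single_apply]

theorem nw_dot (l x μ : Fin N → ℤ) (P Q : Fin N) :
    nw l x P Q ⬝ᵥ μ = l ⬝ᵥ μ + x ⬝ᵥ μ + μ P - μ Q := by
  unfold nw
  rw [sub_dotProduct, add_dotProduct, add_dotProduct, single_dotProduct, single_dotProduct]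
  simp

theorem nw_cost (α : Fin N → ℝ) (l x : Fin N → ℤ) (P Q : Fin N) :
    ∑ p, α p * (nw l x P Q p : ℝ) =
      ∑ p, α p * (l p : ℝ) + ∑ p, α p * (x p : ℝ) + α P - α Q := by
  have h : ∀ p, α p * (nw l x P Q p : ℝ) = α p * (l p : ℝ) + α p * (x p : ℝ) +
      (if p = P then α p else 0) - (if p = Q then α p else 0) := by
    intro p
    rw [nw_apply]
    push_cast
    split_ifs <;> ring
  rw [Finset.sum_congr rfl fun p _ => h p, Finset.sum_sub_distrib, Finset.sum_add_distrib,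
    Finset.sum_add_distrib, Finset.sum_ite_eq' Finset.univ P, Finset.sum_ite_eq' Finset.univ Q]
  simp

theorem stepB {l : Fin N → ℤ} (hl : B.Inc l) (h0 : ∀ μ ∈ Λ.G, 0 ≤ l ⬝ᵥ μ) {p p' i i' P Q : Fin N}
    {j : ι} (hj : j ∈ Λ.J) (hd : Desc Λ l p p') (hlp : l p < l p') (hxi : Λ.x j i < Λ.x j i')
    (hii : (i' : ℕ) = i + 1) (hPp : P ≤ p) (hPi : P ≤ i) (hpQ : p' ≤ Q) (hiQ : i' ≤ Q)
    (hP : P = p ∨ P = i) (hQ : Q = p' ∨ Q = i') (hR : Λ.R P Q)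
    (S : Finset (Fin N × Fin N)) (hS : ∀ s ∈ S, P ≤ s.1 ∧ s.1 ≤ p ∧ p' ≤ s.2 ∧ s.2 ≤ Q)
    (hcard : (S.card : ℝ) = ((Q : ℕ) : ℝ) - ((P : ℕ) : ℝ)) :
    ∃ l' : Fin N → ℤ, B.Inc l' ∧ (∀ μ ∈ Λ.G, l ⬝ᵥ μ ≤ l' ⬝ᵥ μ) ∧
      (∃ μ ∈ Λ.G, l ⬝ᵥ μ = 0 ∧ 0 < l' ⬝ᵥ μ) ∧
      ∑ p, Λ.α p * (l' p : ℝ) + Dr B {μ | μ ∈ Λ.G ∧ l' ⬝ᵥ μ = 0} ≤
        ∑ p, Λ.α p * (l p : ℝ) + Dr B {μ | μ ∈ Λ.G ∧ l ⬝ᵥ μ = 0} := by
  obtain ⟨hpp, hRp, ω, hω, hω0, hωlt⟩ := hd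
  have hpp' : p < p' := by
    rw [Fin.lt_def]
    omega
  have hii' : i < i' := by
    rw [Fin.lt_def]
    omega
  have hPQ : P ≤ Q := hPp.trans (hpp'.le.trans hpQ)
  have hbPQ : B.b P = B.b Q := Λ.blk _ _ hR
  have hinc := Λ.inc j hj
  have hge : ∀ μ ∈ Λ.G, l ⬝ᵥ μ ≤ nw l (Λ.x j) P Q ⬝ᵥ μ := by
    intro μ hμ
    rw [nw_dot]
    have h1 := hμ.1 P Q hPQ hR
    have h2 := hμ.2 j hj
    omega
  have hb : ∀ r, P ≤ r → r ≤ Q → B.b r = B.b P := by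
    intro r h1 h2
    refine le_antisymm ?_ (B.mono h1)
    rw [hbPQ]
    exact B.mono h2
  refine ⟨nw l (Λ.x j) P Q, ?_, hge, ⟨ω, hω, hω0, ?_⟩, ?_⟩
  · intro r s hrs hbrs
    rw [nw_apply, nw_apply]
    rcases eq_or_lt_of_le hrs with rfl | hlt
    · exact le_rfl
    have h1 := hl r s hrs hbrs
    have h2 := hinc r s hrs hbrs
    by_cases e1 : r = P
    · subst e1
      have e2 : r ≠ Q := by
        rintro rfl
        exact absurd (hPp.trans_lt hpp') (not_lt.2 hpQ)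
      rw [if_pos rfl, if_neg e2, if_neg hlt.ne']
      by_cases e3 : s = Q
      · subst e3
        rw [if_pos rfl]
        have h3 : l r ≤ l p := hl r p hPp (hb p hPp (hpp'.le.trans hpQ)).symm
        have h4 : l p' ≤ l s := hl p' s hpQ ((hb p' (hPp.trans hpp'.le) hpQ).trans hbPQ)
        have h5 : Λ.x j r ≤ Λ.x j i := hinc r i hPi (hb i hPi (hii'.le.trans hiQ)).symm
        have h6 : Λ.x j i' ≤ Λ.x j s := hinc i' s hiQ ((hb i' (hPi.trans hii'.le) hiQ).trans hbPQ)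
        omega
      · rw [if_neg e3]
        rcases hP with e4 | e4
        · subst e4
          have h3 : p' ≤ s := by
            rw [Fin.le_def, hpp]
            exact hlt
          have h4 : l p' ≤ l s := hl p' s h3 (by
            rw [← hbrs, hb p' hpp'.le hpQ])
          omega
        · subst e4
          have h3 : i' ≤ s := by
            rw [Fin.le_def, hii]
            exact hlt
          have h4 : Λ.x j i' ≤ Λ.x j s := hinc i' s h3 (by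
            rw [← hbrs, hb i' hii'.le hiQ])
          omega
    · rw [if_neg e1]
      by_cases e3 : s = Q
      · subst e3
        rw [if_pos rfl]
        have e4 : r ≠ s := hlt.ne
        rw [if_neg e4]
        have e5 : s ≠ P := by
          rintro rfl
          exact absurd (hPp.trans_lt hpp') (not_lt.2 hpQ)
        rw [if_neg e5]
        rcases hQ with e6 | e6
        · subst e6
          have h3 : r ≤ p := by
            rw [Fin.le_def]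
            rw [Fin.lt_def] at hlt
            omega
          have h4 : l r ≤ l p := hl r p h3 (by
            rw [hbrs, ← hbPQ, hb p hPp hpp'.le])
          omega
        · subst e6
          have h3 : r ≤ i := by
            rw [Fin.le_def]
            rw [Fin.lt_def] at hlt
            omega
          have h4 : Λ.x j r ≤ Λ.x j i := hinc r i h3 (by
            rw [hbrs, ← hbPQ, hb i hPi hii'.le])
          omega
      · rw [if_neg e3]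
        split_ifs <;> omega
  · rw [nw_dot, hω0]
    have h1 := hω.2 j hj
    have h2 : ω Q ≤ ω p' := hω.1 p' Q hpQ (Rsub Λ (hPp.trans hpp'.le) hpQ le_rfl hR)
    have h3 : ω p ≤ ω P := hω.1 P p hPp (Rsub Λ le_rfl hPp (hpp'.le.trans hpQ) hR)
    omega
  · refine fin_est Λ l _ h0 hge ⟨ω, hω, hω0, ?_⟩ S ?_ ?_ ?_
    · rw [nw_dot, hω0]
      have h1 := hω.2 j hj
      have h2 : ω Q ≤ ω p' := hω.1 p' Q hpQ (Rsub Λ (hPp.trans hpp'.le) hpQ le_rfl hR)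
      have h3 : ω p ≤ ω P := hω.1 P p hPp (Rsub Λ le_rfl hPp (hpp'.le.trans hpQ) hR)
      omega
    · intro s hs
      obtain ⟨h1, h2, h3, h4⟩ := hS s hs
      have hlt : s.1 < s.2 := h2.trans_lt (hpp'.trans_le h3)
      rw [act, Finset.mem_filter]
      refine ⟨Finset.mem_univ s, hlt, ?_, ?_⟩
      · rw [hb s.1 h1 (hlt.le.trans h4), hb s.2 (h1.trans hlt.le) h4]
      · intro hf
        have h5 := hf.2 ω ⟨hω, hω0⟩
        have h6 : ω s.2 ≤ ω p' := hω.1 p' s.2 h3 (Rsub Λ (hPp.trans hpp'.le) h3 h4 hR)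
        have h7 : ω p ≤ ω s.1 := hω.1 s.1 p h2 (Rsub Λ h1 h2 (hpp'.le.trans hpQ) hR)
        omega
    · intro s hs hs'
      obtain ⟨h1, h2, h3, h4⟩ := hS s hs
      have hlt : s.1 < s.2 := h2.trans_lt (hpp'.trans_le h3)
      rw [act, Finset.mem_filter] at hs'
      apply hs'.2.2.2
      refine ⟨hs'.2.2.1, fun μ hμ => ?_⟩
      obtain ⟨hμG, hμ0⟩ := hμ
      rw [nw_dot] at hμ0
      have h5 := h0 μ hμG
      have h6 := hμG.2 j hj
      have h7 := hμG.1 P Q hPQ hR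
      have h8 : μ s.1 ≤ μ P := hμG.1 P s.1 h1 (Rsub Λ le_rfl h1 (hlt.le.trans h4) hR)
      have h9 : μ s.2 ≤ μ s.1 := hμG.1 s.1 s.2 hlt.le (Rsub Λ h1 hlt.le h4 hR)
      have h10 : μ Q ≤ μ s.2 := hμG.1 s.2 Q h4 (Rsub Λ (h1.trans hlt.le) h4 le_rfl hR)
      omega
    · rw [nw_cost, hcard]
      have h1 := Λ.hx j hj
      have h2 := Λ.hα P Q hPQ hR
      linarith

end Stp

section STP

variable {ι : Type v} (Λ : LocC B ι)

theorem step (l : Fin N → ℤ) (hl : B.Inc l) (h0 : ∀ μ ∈ Λ.G, 0 ≤ l ⬝ᵥ μ)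
    (hne : ∃ μ ∈ Λ.G, l ⬝ᵥ μ = 0 ∧ -μ ∉ Λ.G) :
    ∃ l' : Fin N → ℤ, B.Inc l' ∧ (∀ μ ∈ Λ.G, l ⬝ᵥ μ ≤ l' ⬝ᵥ μ) ∧
      (∃ μ ∈ Λ.G, l ⬝ᵥ μ = 0 ∧ 0 < l' ⬝ᵥ μ) ∧
      ∑ p, Λ.α p * (l' p : ℝ) + Dr B {μ | μ ∈ Λ.G ∧ l' ⬝ᵥ μ = 0} ≤
        ∑ p, Λ.α p * (l p : ℝ) + Dr B {μ | μ ∈ Λ.G ∧ l ⬝ᵥ μ = 0} := by
  by_cases hA : ∃ j ∈ Λ.J, ∃ μ ∈ Λ.G, l ⬝ᵥ μ = 0 ∧ 0 < Λ.x j ⬝ᵥ μ
  · obtain ⟨j, hj, μ, hμ, hμ0, hpos⟩ := hA
    have hge : ∀ μ ∈ Λ.G, l ⬝ᵥ μ ≤ (l + Λ.x j) ⬝ᵥ μ := by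
      intro μ hμ
      rw [add_dotProduct]
      have := hμ.2 j hj
      omega
    have hw : ∃ μ ∈ Λ.G, l ⬝ᵥ μ = 0 ∧ 0 < (l + Λ.x j) ⬝ᵥ μ := by
      refine ⟨μ, hμ, hμ0, ?_⟩
      rw [add_dotProduct, hμ0, zero_add]
      exact hpos
    refine ⟨l + Λ.x j, ?_, hge, hw, ?_⟩
    · intro p q hpq hb
      have h1 := hl p q hpq hb
      have h2 := Λ.inc j hj p q hpq hb
      rw [Pi.add_apply, Pi.add_apply]
      omega
    · refine Stp.fin_est Λ l _ h0 hge hw ∅ (by simp) (by simp) ?_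
      have h1 : ∑ p, Λ.α p * (((l + Λ.x j) p : ℤ) : ℝ) =
          ∑ p, Λ.α p * (l p : ℝ) + ∑ p, Λ.α p * (Λ.x j p : ℝ) := by
        rw [← Finset.sum_add_distrib]
        refine Finset.sum_congr rfl fun p _ => ?_
        rw [Pi.add_apply]
        push_cast
        ring
      rw [h1]
      have h2 := Λ.hx j hj
      simp
      linarith
  · push Not at hA
    have hB : ∀ j ∈ Λ.J, ∀ μ ∈ Λ.G, l ⬝ᵥ μ = 0 → Λ.x j ⬝ᵥ μ = 0 :=
      fun j hj μ hμ h => le_antisymm (hA j hj μ hμ h) (hμ.2 j hj)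
    obtain ⟨p, p', hd, hlt⟩ := Stp.exists_desc Λ hl hB hne
    obtain ⟨j, hj, i, i', hii, hRpi, hRii, hx⟩ := Stp.exists_xjump Λ hd.1 hd.2.1
    have hpp := hd.1
    rcases le_total i p with h | h
    · have hip : i' ≤ p' := by
        rw [Fin.le_def] at h ⊢
        omega
      have hpp' : p ≤ p' := by
        rw [Fin.le_def]
        omega
      have hR : Λ.R i p' := Λ.trans _ _ _ (Λ.symm _ _ hRpi) hd.2.1
      refine Stp.stepB Λ hl h0 hj hd hlt hx hii h le_rfl le_rfl hip (Or.inr rfl) (Or.inl rfl) hR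
        ((Finset.Icc i p).image fun r => (r, p')) ?_ ?_
      · intro s hs
        obtain ⟨r, hr, rfl⟩ := Finset.mem_image.1 hs
        rw [Finset.mem_Icc] at hr
        exact ⟨hr.1, hr.2, le_rfl, le_rfl⟩
      · rw [Finset.card_image_of_injective _ fun a b hab => (Prod.ext_iff.1 hab).1, Fin.card_Icc]
        rw [Fin.le_def] at h
        rw [Nat.cast_sub (by omega), hpp]
    · have hip : p' ≤ i' := by
        rw [Fin.le_def] at h ⊢
        omega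
      have hR : Λ.R p i' := Λ.trans _ _ _ hRpi hRii
      refine Stp.stepB Λ hl h0 hj hd hlt hx hii le_rfl h hip le_rfl (Or.inl rfl) (Or.inr rfl) hR
        ((Finset.Icc p' i').image fun s => (p, s)) ?_ ?_
      · intro s hs
        obtain ⟨r, hr, rfl⟩ := Finset.mem_image.1 hs
        rw [Finset.mem_Icc] at hr
        exact ⟨le_rfl, le_rfl, hr.1, hr.2⟩
      · rw [Finset.card_image_of_injective _ fun a b hab => (Prod.ext_iff.1 hab).2, Fin.card_Icc]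
        rw [Fin.le_def] at h
        rw [Nat.cast_sub (by omega), hpp]
        push_cast
        ring

theorem chain (l : Fin N → ℤ) (hl : B.Inc l) (h0 : ∀ μ ∈ Λ.G, 0 ≤ l ⬝ᵥ μ) :
    ∃ l' : Fin N → ℤ, B.Inc l' ∧ (∀ μ ∈ Λ.G, 0 ≤ l' ⬝ᵥ μ) ∧
      (∀ μ ∈ Λ.G, l' ⬝ᵥ μ = 0 → -μ ∈ Λ.G) ∧
      ∑ p, Λ.α p * (l' p : ℝ) + Dr B {μ | μ ∈ Λ.G ∧ l' ⬝ᵥ μ = 0} ≤
        ∑ p, Λ.α p * (l p : ℝ) + Dr B {μ | μ ∈ Λ.G ∧ l ⬝ᵥ μ = 0} := by
  obtain ⟨r, hr⟩ : ∃ r, r = Stp.rk (Stp.face Λ l) := ⟨_, rfl⟩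
  induction r using Nat.strong_induction_on generalizing l with
  | _ r ih =>
    by_cases hne : ∃ μ ∈ Λ.G, l ⬝ᵥ μ = 0 ∧ -μ ∉ Λ.G
    · obtain ⟨l₁, h1, h2, h3, h4⟩ := step Λ l hl h0 hne
      have h5 : ∀ μ ∈ Λ.G, 0 ≤ l₁ ⬝ᵥ μ := fun μ hμ => (h0 μ hμ).trans (h2 μ hμ)
      have h6 : Stp.rk (Stp.face Λ l₁) + 1 ≤ Stp.rk (Stp.face Λ l) := by
        refine Stp.rk_lt ?_ l₁ (fun μ hμ => hμ.2) ?_
        · intro μ hμ
          refine ⟨hμ.1, le_antisymm ?_ (h0 μ hμ.1)⟩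
          rw [← hμ.2]
          exact h2 μ hμ.1
        · obtain ⟨μ, hμ, h7, h8⟩ := h3
          exact ⟨μ, ⟨hμ, h7⟩, h8.ne'⟩
      obtain ⟨l', h7, h8, h9, h10⟩ := ih _ (by omega) l₁ h1 h5 rfl
      exact ⟨l', h7, h8, h9, h10.trans h4⟩
    · push Not at hne
      exact ⟨l, hl, h0, hne, le_rfl⟩

end STP

end

end Pool.Agent.MLD.Mon
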