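import Pool.Agent.Lib.MP_f23696_ag.M.Lin
import Pool.Agent.Lib.MP_f23696_ag.M.Tra
import Pool.Agent.Lib.MP_f23696_ag.M.Frm
import Pool.Agent.Lib.MP_f23696_ag.M.Cb
import Pool.Agent.Lib.MP_f23696_ag.M.Xq
import Pool.Agent.Lib.MP_f23696_ag.M.Bub
import Pool.Agent.Lib.MP_f23696_ag.M.Orb
import Pool.Agent.Lib.MP_f23696_ag.M.Lat
import Pool.Agent.Lib.MP_f23696_ag.M.Lem
import Pool.Agent.Lib.MP_f23696_ag.M.Ge
import Pool.Agent.Lib.MP_f23696_ag.M.Stp
import Pool.Agent.Lib.MP_f23696_ag.M.Fgm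
import Pool.Agent.Lib.MP_f23696_ag.M.Loc
import Pool.Agent.Lib.MP_f23696_ag.M.Eqn
import Pool.Agent.Lib.MP_f23696_ag.T.Ind

/-!
KEY (project MON, MP_f23696_ag): semicontinuity.
-/

set_option autoImplicit false

open scoped Classical

namespace Pool.Agent.MLD.Mon

open MvPolynomial
open Pool.Agent.MLD.Ten (IsGood)

noncomputable section

universe u v w

variable {N m : ℕ} {B : Blk N m} {k : Type u} {K : Type v} [Field k] [Field K] [Algebra k K]

namespace Key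

theorem dr_le {S T : Set (Fin N → ℤ)} (h : ∀ μ ∈ S, μ ∈ AddSubgroup.closure T) :
    Dr B S ≤ Dr B T := by
  unfold Dr
  refine Nat.add_le_add ?_ (Nat.mul_le_mul_left 2 (Finset.card_le_card ?_))
  · refine Submodule.finrank_mono (Submodule.span_le.mpr ?_)
    rintro x ⟨μ, hμ, rfl⟩
    rw [← span_closure T]
    exact Submodule.subset_span ⟨μ, h μ hμ, rfl⟩
  · intro s hs
    rw [Finset.mem_filter] at hs ⊢
    refine ⟨hs.1, hs.2.1, hs.2.2.1, fun hf => hs.2.2.2 ⟨hf.1, fun μ hμ => ?_⟩⟩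
    exact flat_closure hf (h μ hμ)

theorem aft_sub (p q : Fin N) (hpq : p ≤ q) (hb : B.b p = B.b q) :
    B.aft p = B.aft q + ((q : ℕ) - (p : ℕ)) := by
  unfold Blk.aft
  have h1 : (Finset.univ.filter fun r => p < r ∧ B.b p = B.b r) =
      (Finset.univ.filter fun r => q < r ∧ B.b q = B.b r) ∪ Finset.Ioc p q := by
    ext r
    simp only [Finset.mem_union, Finset.mem_filter, Finset.mem_univ, true_and, Finset.mem_Ioc]
    constructor
    · rintro ⟨h1, h2⟩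
      rcases le_or_gt r q with h3 | h3
      · exact Or.inr ⟨h1, h3⟩
      · exact Or.inl ⟨h3, hb.symm.trans h2⟩
    · rintro (⟨h1, h2⟩ | ⟨h1, h2⟩)
      · exact ⟨lt_of_le_of_lt hpq h1, hb.trans h2⟩
      · refine ⟨h1, le_antisymm (B.mono h1.le) ?_⟩
        rw [hb]
        exact B.mono h2
  rw [h1, Finset.card_union_of_disjoint, Fin.card_Ioc]
  rw [Finset.disjoint_left]
  intro r hr hr'
  rw [Finset.mem_filter] at hr
  rw [Finset.mem_Ioc] at hr'
  exact absurd hr.2.1 (not_lt.mpr hr'.2)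

theorem jac_ne (C : GC k K B) : ∃ c, jac C.D c ≠ 0 := by
  refine ⟨C.y, ?_⟩
  have h : (Matrix.of fun i j => C.D i (C.y j)) = (1 : Matrix (Fin (m + 1)) (Fin (m + 1)) K) := by
    ext i j
    rw [Matrix.of_apply, C.dual, Matrix.one_apply]
  rw [jac, h, Matrix.det_one]
  exact one_ne_zero

/-- the properties of the vector of values of a bad valuation -/
structure Good (C : GC k K B) {A : Subalgebra k K} (χ : Fin N → ℝ) (b : ℝ)
    (x : MaximalSpectrum A) (l : Fin N → ℤ) : Prop where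
  inc : B.Inc l
  nonneg : ∀ μ ∈ Gam C A, 0 ≤ l ⬝ᵥ μ
  zof : ∀ μ, μ ∈ Zof C x.asIdeal ↔ μ ∈ Gam C A ∧ l ⬝ᵥ μ = 0
  ld : ∑ p, ((B.th p : ℝ) - χ p) * (l p : ℝ) + Dr B (Zof C x.asIdeal) < b

theorem isClosed_mem {A : Subalgebra k K} (a : A) :
    IsClosed {x : MaximalSpectrum A | a ∈ x.asIdeal} := by
  have h1 : {x : MaximalSpectrum A | a ∈ x.asIdeal} =
      MaximalSpectrum.toPrimeSpectrum ⁻¹' PrimeSpectrum.zeroLocus ({a} : Set A) := by
    ext x
    simp only [Set.mem_ofPred_eq, Set.mem_preimage, PrimeSpectrum.mem_zeroLocus,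
      Set.singleton_subset_iff]
    rfl
  rw [h1]
  exact (PrimeSpectrum.isClosed_zeroLocus _).preimage
    MaximalSpectrum.toPrimeSpectrum_continuous

end Key

section KEY

variable [IsAlgClosed k] [CharZero k] {C : GC k K B} {A : Subalgebra k K}

open Key in
/-- the key semicontinuity statement at one point -/
theorem key_at (hA : IsEmb C A) (δ : Ideal A →₀ ℝ) (hδ0 : ∀ p, 0 ≤ δ p)
    (hδ : ∀ σ, C.Tra σ → ∀ p q : Ideal A, MapsTo σ p q → δ p = δ q) (b : ℝ)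
    (y : MaximalSpectrum A) (hRC : ∃ γ, IsLocalEq A C.D δ y.asIdeal γ)
    (hy : y ∈ closure {x : MaximalSpectrum A | ∃ l ∈ logDiscs A C.D δ x, l < b}) :
    ∃ l ∈ logDiscs A C.D δ y, l < b ∨ l < 0 := by
  obtain ⟨X⟩ := exists_xdata hA
  obtain ⟨γy, hγy⟩ := hRC
  obtain ⟨χ, U, hU, hyU, hχ, hχ1, hUx⟩ := eqn hA X δ hδ0 hδ y γy hγy
  obtain ⟨M, f, hf⟩ := types (B := B) X.Q X.x
  have hGam : Gam C A = GamX B X.Q X.x := Set.ext X.gam
  have hy1 : y ∈ closure (U ∩ {x : MaximalSpectrum A | ∃ l ∈ logDiscs A C.D δ x, l < b}) :=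
    hU.inter_closure ⟨hyU, hy⟩
  have hsub : U ∩ {x : MaximalSpectrum A | ∃ l ∈ logDiscs A C.D δ x, l < b} ⊆
      ⋃ i : Fin M, {x : MaximalSpectrum A | ∃ l : Fin N → ℤ, Good C χ b x l ∧ f l = i} := by
    rintro x ⟨hxU, _, ⟨v, hvd, hv, j, hj, γx, hγx, rfl⟩, hlb⟩
    obtain ⟨γ', hγ', hval⟩ := hUx x hxU
    obtain ⟨l, hl⟩ := frame_dval C v
    have hprime : x.asIdeal.IsPrime := x.isMaximal.isPrime
    have h1 := Pool.Agent.MLD.Ten.indep_gen A hA.good C.D (jac_ne C) δ x.asIdeal hprime γx γ'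
      hγx hγ' v hv
    have h2 := ge hA x hv hl hj
    have h3 := hval v hv l hl
    refine Set.mem_iUnion.mpr ⟨f l, l, ⟨hl.choose_spec.2.2.2.2, gam_lam hA hv hl,
      fun μ => zof_lam hA hv hl μ, ?_⟩, rfl⟩
    have h4 : ((∑ p, B.th p * l p + Dr B (Zof C x.asIdeal) : ℤ) : ℝ) ≤ ((j + 1 : ℤ) : ℝ) := by
      exact_mod_cast h2
    push_cast at h4
    have h5 : ∑ p, ((B.th p : ℝ) - χ p) * (l p : ℝ) =
        ∑ p, (B.th p : ℝ) * (l p : ℝ) - ∑ p, χ p * (l p : ℝ) := by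
      rw [← Finset.sum_sub_distrib]
      exact Finset.sum_congr rfl fun p _ => by ring
    rw [h5, ← h3, ← h1]
    linarith
  have hy2 := closure_mono hsub hy1
  rw [closure_iUnion_of_finite] at hy2
  obtain ⟨i, hi⟩ := Set.mem_iUnion.mp hy2
  obtain ⟨x₀, l₀, hl₀, hfl₀⟩ : {x : MaximalSpectrum A | ∃ l : Fin N → ℤ,
      Good C χ b x l ∧ f l = i}.Nonempty := by
    rw [← closure_nonempty_iff]
    exact ⟨y, hi⟩
  have hZ : ∀ μ ∈ Zof C y.asIdeal, l₀ ⬝ᵥ μ = 0 := by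
    rintro μ ⟨hμ, σ, hσ, a, ha, hay⟩
    by_contra hne
    have h1 : {x : MaximalSpectrum A | ∃ l : Fin N → ℤ, Good C χ b x l ∧ f l = i} ⊆
        {x : MaximalSpectrum A | a ∈ x.asIdeal} := by
      rintro x ⟨l, hl, hfl⟩
      by_contra hax
      have h2 : μ ∈ Zof C x.asIdeal := ⟨hμ, σ, hσ, a, ha, hax⟩
      have h3 := ((hl.zof μ).mp h2).2
      exact hne ((hf l l₀ (by rw [← hGam]; exact hl.nonneg) (by rw [← hGam]; exact hl₀.nonneg)
        (hfl.trans hfl₀.symm) μ (by rw [← hGam]; exact hμ)).mp h3)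
    exact hay (closure_minimal h1 (isClosed_mem a) hi)
  -- the local data
  have hdom : ∀ μ ∈ Zof C y.asIdeal, B.Dom μ := fun μ hμ => hμ.1.1
  let Λ : LocC B (Ideal A) :=
    { R := Flat B (Zof C y.asIdeal)
      blk := fun p q h => h.1
      refl := fun p => ⟨rfl, fun _ _ => rfl⟩
      symm := fun p q h => ⟨h.1.symm, fun μ hμ => (h.2 μ hμ).symm⟩
      trans := fun p q r h h' => ⟨h.1.trans h'.1, fun μ hμ => (h.2 μ hμ).trans (h'.2 μ hμ)⟩
      conv := fun p q r hpq hqr h => by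
        have hb : B.b p = B.b q := le_antisymm (B.mono hpq) (by rw [h.1]; exact B.mono hqr)
        refine ⟨hb, fun μ hμ => le_antisymm ?_ (hdom μ hμ p q hpq hb)⟩
        rw [h.2 μ hμ]
        exact hdom μ hμ q r hqr (hb.symm.trans h.1)
      J := X.Q.filter fun q => q ≤ y.asIdeal
      x := X.x
      inc := fun j hj => X.mon j (Finset.mem_filter.mp hj).1
      α := fun p => (B.th p : ℝ) - χ p
      hx := fun j hj => hχ1 j (Finset.mem_filter.mp hj).1 (Finset.mem_filter.mp hj).2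
      hα := fun p q hpq h => by
        have h1 := aft_sub p q hpq h.1
        have h2 := hχ p q h
        have h3 : (p : ℕ) ≤ (q : ℕ) := hpq
        show ((B.th p : ℝ) - χ p) - ((B.th q : ℝ) - χ q) = _
        unfold Blk.th
        rw [h1, h2]
        push_cast [Nat.cast_sub h3]
        ring
      pos := fun p q hpq h hp hq => by
        obtain ⟨i, hi, hiy, hlt⟩ := loc_pos hA X y p q hpq h hp hq
        exact ⟨i, Finset.mem_filter.mpr ⟨hi, hiy⟩, hlt⟩ }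
  have hmemG : ∀ μ : Fin N → ℤ, μ ∈ Λ.G ↔
      (∀ p q, p ≤ q → Flat B (Zof C y.asIdeal) p q → μ q ≤ μ p) ∧
        ∀ q ∈ X.Q, q ≤ y.asIdeal → 0 ≤ X.x q ⬝ᵥ μ := by
    intro μ
    constructor
    · rintro ⟨h1, h2⟩
      exact ⟨h1, fun q hq hqy => h2 q (Finset.mem_filter.mpr ⟨hq, hqy⟩)⟩
    · rintro ⟨h1, h2⟩
      exact ⟨h1, fun q hq => h2 q (Finset.mem_filter.mp hq).1 (Finset.mem_filter.mp hq).2⟩
  have hext : ∀ μ ∈ Λ.G, ∃ ν ∈ Zof C y.asIdeal, μ + ν ∈ Gam C A := fun μ hμ =>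
    loc_ext hA X y μ ((hmemG μ).mp hμ).1 ((hmemG μ).mp hμ).2
  have hl₀G : ∀ μ ∈ Λ.G, 0 ≤ l₀ ⬝ᵥ μ := by
    intro μ hμ
    obtain ⟨ν, hν, hμν⟩ := hext μ hμ
    have h1 := hl₀.nonneg _ hμν
    rw [dotProduct_add, hZ ν hν, add_zero] at h1
    exact h1
  obtain ⟨l', hinc', hnn', hun', hle'⟩ := chain Λ l₀ hl₀.inc hl₀G
  -- the dimension of the face of `l₀`
  have hDr0 : Dr B {μ | μ ∈ Λ.G ∧ l₀ ⬝ᵥ μ = 0} ≤ Dr B (Zof C x₀.asIdeal) := by
    refine dr_le fun μ hμ => ?_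
    obtain ⟨ν, hν, hμν⟩ := hext μ hμ.1
    have h1 : ν ∈ Zof C x₀.asIdeal := (hl₀.zof ν).mpr ⟨hν.1, hZ ν hν⟩
    have h2 : μ + ν ∈ Zof C x₀.asIdeal :=
      (hl₀.zof _).mpr ⟨hμν, by rw [dotProduct_add, hμ.2, hZ ν hν, add_zero]⟩
    have h3 := (AddSubgroup.closure (Zof C x₀.asIdeal)).sub_mem (AddSubgroup.subset_closure h2)
      (AddSubgroup.subset_closure h1)
    rwa [add_sub_cancel_right] at h3
  -- units of the local monoid
  have hGamG : ∀ μ ∈ Gam C A, μ ∈ Λ.G := fun μ hμ => by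
    rw [hmemG]
    rw [hGam] at hμ
    exact ⟨fun p q hpq h => hμ.1 p q hpq h.1, fun q hq _ => hμ.2 q hq⟩
  have hZG : ∀ μ ∈ Zof C y.asIdeal, -μ ∈ Λ.G := fun μ hμ => by
    rw [hmemG]
    refine ⟨fun p q _ h => ?_, fun q hq hqy => ?_⟩
    · simp only [Pi.neg_apply]
      rw [h.2 μ hμ]
    · rw [dotProduct_neg, loc_in hA X y q hq hqy μ hμ, neg_zero]
  have hface : Zof C y.asIdeal = {μ | μ ∈ Gam C A ∧ l' ⬝ᵥ μ = 0} := by
    ext μ
    constructor
    · intro hμ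
      refine ⟨hμ.1, le_antisymm ?_ (hnn' μ (hGamG μ hμ.1))⟩
      have h1 := hnn' _ (hZG μ hμ)
      rw [dotProduct_neg] at h1
      omega
    · rintro ⟨hμ, h0⟩
      have h1 := (hmemG _).mp (hun' μ (hGamG μ hμ) h0)
      have h2 := (hmemG _).mp (hGamG μ hμ)
      refine loc_face hA X y μ hμ ((loc_units hA X y μ).mpr ⟨?_, ?_⟩)
      · have h3 : ∀ p q, p ≤ q → Flat B (Zof C y.asIdeal) p q → μ p = μ q := by
          intro p q hpq h
          have h4 := h1.1 p q hpq h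
          have h5 := h2.1 p q hpq h
          simp only [Pi.neg_apply] at h4
          omega
        intro p q h
        rcases le_total p q with hpq | hpq
        · exact h3 p q hpq h
        · exact (h3 q p hpq (Λ.symm p q h)).symm
      · intro q hq hqy
        have h4 := h1.2 q hq hqy
        have h5 := h2.2 q hq hqy
        rw [dotProduct_neg] at h4
        omega
  have hDr1 : Dr B (Zof C y.asIdeal) ≤ Dr B {μ | μ ∈ Λ.G ∧ l' ⬝ᵥ μ = 0} := by
    refine dr_le fun μ hμ => AddSubgroup.subset_closure ⟨hGamG μ hμ.1, ?_⟩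
    rw [hface] at hμ
    exact hμ.2
  -- saturation
  have hsat : ∀ (n : ℕ) (κ : Fin N → ℤ), 0 < n →
      n • κ ∈ AddSubgroup.closure (Zof C y.asIdeal) →
        κ ∈ AddSubgroup.closure (Zof C y.asIdeal) := by
    intro n κ hn h
    rw [loc_units hA X y] at h ⊢
    refine ⟨fun p q hpq => ?_, fun q hq hqy => ?_⟩
    · have h1 := h.1 p q hpq
      simp only [Pi.smul_apply, nsmul_eq_mul] at h1
      exact mul_left_cancel₀ (by exact_mod_cast hn.ne') h1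
    · have h1 := h.2 q hq hqy
      rw [dotProduct_smul, nsmul_eq_mul] at h1
      rcases mul_eq_zero.mp h1 with h2 | h2
      · exact absurd (by exact_mod_cast h2) hn.ne'
      · exact h2
  -- the valuation at `y`
  obtain ⟨σ, hσ, O, hO, hadm, hlim⟩ := orb hA y
  have hA' : IsEmb (C.map σ) A := emb_map hσ hA
  obtain ⟨X', hX'Q, hX'x⟩ := xdata_map hσ hA X
  obtain ⟨n, v, j, l'', hn, hdiv, hcen, hform, hlam, hl'', hle⟩ := le hA' X' y l' hinc'
    (by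
      rw [gam_map hσ hA]
      intro μ hμ
      exact hnn' μ (hGamG μ hμ))
    (Zof C y.asIdeal) (by rw [gam_map hσ hA]; exact hface) hsat hlim
  rw [formOrd_map hσ] at hform
  rw [lam_map hσ] at hlam
  obtain ⟨γ', hγ', hval⟩ := hUx y hyU
  have hv' := hval v hcen l'' hlam
  refine ⟨1 + (j : ℝ) - v.val γ', ⟨v, hdiv, hcen, j, hform, γ', hγ', rfl⟩, ?_⟩
  have h1 : ((n * (j + 1) : ℤ) : ℝ) ≤
      ((∑ p, B.th p * l' p + Dr B (Zof C y.asIdeal) : ℤ) : ℝ) := by exact_mod_cast hle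
  push_cast at h1
  have h2 : (n : ℝ) * v.val γ' = ∑ p, χ p * (l' p : ℝ) := by
    rw [hv', Finset.mul_sum]
    refine Finset.sum_congr rfl fun p _ => ?_
    rw [← hl'' p]
    push_cast
    ring
  have h3 : ∑ p, Λ.α p * (l' p : ℝ) =
      ∑ p, (B.th p : ℝ) * (l' p : ℝ) - ∑ p, χ p * (l' p : ℝ) := by
    rw [← Finset.sum_sub_distrib]
    exact Finset.sum_congr rfl fun p _ => by show ((B.th p : ℝ) - χ p) * _ = _; ring
  have h4 : (n : ℝ) * (1 + (j : ℝ) - v.val γ') < b := by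
    have h5 := hl₀.ld
    have h6 : (Dr B {μ | μ ∈ Λ.G ∧ l₀ ⬝ᵥ μ = 0} : ℝ) ≤ Dr B (Zof C x₀.asIdeal) := by
      exact_mod_cast hDr0
    have h7 : (Dr B (Zof C y.asIdeal) : ℝ) ≤ Dr B {μ | μ ∈ Λ.G ∧ l' ⬝ᵥ μ = 0} := by
      exact_mod_cast hDr1
    have h8 : ∑ p, Λ.α p * (l₀ p : ℝ) = ∑ p, ((B.th p : ℝ) - χ p) * (l₀ p : ℝ) := rfl
    have h10 : (n : ℝ) * (1 + (j : ℝ) - v.val γ') =
        (n : ℝ) * ((j : ℝ) + 1) - (n : ℝ) * v.val γ' := by ring
    rw [h10, h2]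
    rw [h3] at hle'
    rw [h8] at hle'
    linarith
  by_cases hneg : 1 + (j : ℝ) - v.val γ' < 0
  · exact Or.inr hneg
  · push Not at hneg
    have hM1 : (1 : ℝ) ≤ n := by exact_mod_cast hn
    left
    nlinarith

theorem key (hA : IsEmb C A) (δ : Ideal A →₀ ℝ) (hδ0 : ∀ p, 0 ≤ δ p)
    (hδ : ∀ σ, C.Tra σ → ∀ p q : Ideal A, MapsTo σ p q → δ p = δ q)
    (hRC : ∀ x : MaximalSpectrum A, ∃ γ, IsLocalEq A C.D δ x.asIdeal γ) (b : ℝ)
    (y : MaximalSpectrum A)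
    (hy : y ∈ closure {x : MaximalSpectrum A | ∃ l ∈ logDiscs A C.D δ x, l < b}) :
    ∃ l ∈ logDiscs A C.D δ y, l < b ∨ l < 0 :=
  key_at hA δ hδ0 hδ b y (hRC y) hy

/-- semicontinuity at a point with a local equation -/
theorem lsc_at (hA : IsEmb C A) (δ : Ideal A →₀ ℝ) (hδ0 : ∀ p, 0 ≤ δ p)
    (hδ : ∀ σ, C.Tra σ → ∀ p q : Ideal A, MapsTo σ p q → δ p = δ q) (y : MaximalSpectrum A)
    (hRC : ∃ γ, IsLocalEq A C.D δ y.asIdeal γ) : LowerSemicontinuousAt (mld A C.D δ) y := by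
  intro a ha
  by_cases hn : ∃ l ∈ logDiscs A C.D δ y, l < 0
  · unfold mld at ha
    rw [if_pos hn] at ha
    exact absurd ha not_lt_bot
  have hmy : mld A C.D δ y = ⨅ l ∈ logDiscs A C.D δ y, (l : EReal) := by
    unfold mld
    rw [if_neg hn]
  -- a real number b ≥ 0 with a < b, and no log discrepancy at y below b
  obtain ⟨b, hab, hb0, hb⟩ : ∃ b : ℝ, a < b ∧ 0 ≤ b ∧ ∀ l ∈ logDiscs A C.D δ y, b ≤ l := by
    by_cases ha0 : a < 0
    · refine ⟨0, by exact_mod_cast ha0, le_rfl, fun l hl => ?_⟩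
      by_contra hlt
      push Not at hlt
      exact hn ⟨l, hl, hlt⟩
    · push Not at ha0
      obtain ⟨b, hab, hby⟩ := EReal.lt_iff_exists_real_btwn.mp ha
      have hb0 : (0 : EReal) < b := lt_of_le_of_lt ha0 hab
      refine ⟨b, hab, le_of_lt (by exact_mod_cast hb0), fun l hl => ?_⟩
      rw [hmy] at hby
      have h3 : (b : EReal) < l := lt_of_lt_of_le hby (iInf₂_le l hl)
      exact le_of_lt (by exact_mod_cast h3)
  have hy : y ∉ closure {x : MaximalSpectrum A | ∃ l ∈ logDiscs A C.D δ x, l < b} := by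
    intro hy
    obtain ⟨l, hl, hlb⟩ := key_at hA δ hδ0 hδ b y hRC hy
    have h1 := hb l hl
    rcases hlb with h | h
    · exact absurd h (not_lt.mpr h1)
    · exact absurd h (not_lt.mpr (hb0.trans h1))
  have hnb : (closure {x : MaximalSpectrum A | ∃ l ∈ logDiscs A C.D δ x, l < b})ᶜ ∈ nhds y :=
    isClosed_closure.isOpen_compl.mem_nhds hy
  filter_upwards [hnb] with x hx
  have h1 : ∀ l ∈ logDiscs A C.D δ x, b ≤ l := by
    intro l hl
    by_contra hlt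
    push Not at hlt
    exact hx (subset_closure ⟨l, hl, hlt⟩)
  have h2 : ¬ ∃ l ∈ logDiscs A C.D δ x, l < 0 := by
    rintro ⟨l, hl, hl0⟩
    exact absurd hl0 (not_lt.mpr (hb0.trans (h1 l hl)))
  unfold mld
  rw [if_neg h2]
  exact lt_of_lt_of_le hab (le_iInf₂ fun l hl => by exact_mod_cast h1 l hl)

theorem lsc_emb (hA : IsEmb C A) (δ : Ideal A →₀ ℝ) (hδ0 : ∀ p, 0 ≤ δ p)
    (hδ : ∀ σ, C.Tra σ → ∀ p q : Ideal A, MapsTo σ p q → δ p = δ q)
    (hRC : ∀ x : MaximalSpectrum A, ∃ γ, IsLocalEq A C.D δ x.asIdeal γ) :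
    LowerSemicontinuous (mld A C.D δ) := fun y => lsc_at hA δ hδ0 hδ y (hRC y)

end KEY

end

end Pool.Agent.MLD.Mon
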